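import Pool.Agent.Wi.COREa

/-! MODULE ACCa: the core forest of a source in `U` (blueprint section 9, (9.1), (9.2), (9.3)). -/

namespace Pool.Agent.Wi

open Finset
open scoped Classical

namespace Core

section aux
variable {V : Type} {g : Geo V} {r : ℕ} (c : Core g r)

theorem acca_root_par {w : V} (hwB : w ∈ c.B) (hw : c.H w + 1 < r) : c.root (c.par w) = c.root w := by
  have e1 : c.T.anc w (c.H w + 1) = c.par w := by
    have h0 := c.T.anc_succ (p := w) (k := c.H w) (le_refl _)
    have h1 : c.T.anc w (c.H w) = w := c.T.anc_self w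
    rw [h0, h1]; rfl
  have := c.T.anc_anc (p := w) hwB (k := c.H w + 1) (l := r - 1) (Nat.le_succ _) (by omega) hw
  rw [e1] at this
  exact this

/-- the part of `B` that is in the class of `v` or aligned with `v`. -/
noncomputable def accaAl (v : V) : Finset V :=
  c.B.filter (fun w => c.root w ≠ c.root v → g.d v w + c.H w = 2 * r)

theorem acca_mem_Al {v w : V} : w ∈ c.accaAl v ↔ w ∈ c.B ∧ (c.root w ≠ c.root v → g.d v w + c.H w = 2 * r) := by
  simp [accaAl]

theorem acca_Reg_al {v w : V} (hw : c.Reg v w) : w ∈ c.accaAl v := c.acca_mem_Al.2 ⟨hw.1, fun _ => hw.2.2⟩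

theorem acca_Al_up {v p : V} (hv : v ∈ c.U) (hp : p ∈ c.accaAl v) (hl : c.H p + 1 < r) :
    c.par p ∈ c.accaAl v ∧ c.H (c.par p) = c.H p + 1 := by
  obtain ⟨h1, h2⟩ := c.acca_mem_Al.1 hp
  have h3 := c.hpar p h1 hl
  refine ⟨?_, h3.2.1⟩
  by_cases hr : c.root p = c.root v
  · refine c.acca_mem_Al.2 ⟨h3.1, fun h4 => ?_⟩
    rw [c.acca_root_par h1 hl] at h4
    exact absurd hr h4
  · exact c.acca_Reg_al (Reg.up c hv ⟨h1, hr, h2 hr⟩ hl)

theorem acca_Al_anc {v p : V} (hv : v ∈ c.U) (hp : p ∈ c.accaAl v) {k : ℕ} (hk : c.H p ≤ k) (hkr : k < r) :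
    c.T.anc p k ∈ c.accaAl v ∧ c.H (c.T.anc p k) = k := by
  induction k, hk using Nat.le_induction with
  | base =>
    have : c.T.anc p (c.H p) = p := c.T.anc_self p
    rw [this]; exact ⟨hp, rfl⟩
  | succ k hk ih =>
    have ih := ih (by omega)
    have e : c.T.anc p (k + 1) = c.par (c.T.anc p k) := c.T.anc_succ hk
    rw [e]
    have := c.acca_Al_up hv ih.1 (by rw [ih.2]; exact hkr)
    rw [ih.2] at this
    exact this

variable [Fintype V]

theorem acca_not_B {x : V} (hx : x ∈ c.X) : x ∉ c.B := by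
  intro h
  have h1 := (mem_filter.1 hx).2
  rcases mem_union.1 h with h2 | h2
  · exact h1.1 h2
  · exact h1.2.1 h2

variable (hr : 1 ≤ r)

theorem acca_F {v z : V} (hv : v ∈ c.U) : z ∈ (c.src hr).F v ↔ z ∈ c.X ∧ g.d v z = 2 * r := by
  show z ∈ (if v ∈ c.U then c.X.filter (fun z => g.d v z = 2 * r)
    else if v ∈ c.X then (c.U ∪ c.X).filter (fun z => g.d v z = 2 * r) else ∅) ↔ _
  rw [if_pos hv, mem_filter]

theorem acca_kk {v z : V} (hv : v ∈ c.U) : (c.src hr).kk v z = c.kh v z := if_pos hv

theorem acca_an {v z : V} {k : ℕ} (hv : v ∈ c.U) : (c.src hr).an v z k =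
    if k < c.kh v z then g.P z v k else c.T.anc (g.P z v (c.kh v z)) k := if_pos hv

/-- a used hub. -/
theorem acca_hub {v w : V} (hv : v ∈ c.U) {A : Finset V} (hA : A ⊆ (c.src hr).F v) :
    w ∈ (c.src hr).hubs v A ↔ ∃ z ∈ A, z ∈ (c.src hr).Z v w := by
  simp [Src.hubs]

/-- the points of the geodesic below the irregular height are hubs. -/
theorem acca_Z {v z : V} (hv : v ∈ c.U) (hz : z ∈ (c.src hr).F v) {i : ℕ} (h1 : 1 ≤ i) (hi : i < c.kh v z) :
    z ∈ (c.src hr).Z v (g.P z v i) ∧ 2 * r - g.d v (g.P z v i) = i := by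
  have hd := ((c.acca_F hr hv).1 hz).2
  have hkr := c.kh_le v z
  have hdd := g.dr z v i (by rw [g.symm, hd]; omega)
  rw [g.symm _ v, g.symm z v, hd] at hdd
  refine ⟨(Src.mem_Z _).2 ⟨hz, by omega, by omega, ?_, ?_⟩, by omega⟩
  · rw [c.acca_kk hr hv]; omega
  · congr 1; omega

theorem acca_Z' {v z w : V} (hv : v ∈ c.U) (hz : z ∈ (c.src hr).Z v w) :
    ∃ i, 1 ≤ i ∧ i < c.kh v z ∧ g.P z v i = w ∧ 2 * r - g.d v w = i ∧ i < r := by
  obtain ⟨h1, h2, h3, h4, h5⟩ := (Src.mem_Z _).1 hz
  rw [c.acca_kk hr hv] at h4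
  have := c.kh_le v z
  exact ⟨2 * r - g.d v w, by omega, h4, h5, rfl, by omega⟩

theorem acca_hub_not {v z w : V} (hv : v ∈ c.U) (hz : z ∈ (c.src hr).Z v w)
    (hown : ¬ (w ∈ c.B ∧ c.root w = c.root v)) : w ∉ c.accaAl v := by
  intro hw
  obtain ⟨h1, h2⟩ := c.acca_mem_Al.1 hw
  obtain ⟨i, hi1, hi2, hi3, hi4, hi5⟩ := c.acca_Z' hr hv hz
  have h3 : c.root w ≠ c.root v := fun h => hown ⟨h1, h⟩
  have h4 := h2 h3
  have h5 := (Src.Z_geo _ hz).2.2.1
  refine c.kh_min (v := v) (x := z) (k := i) hi1 hi2 ⟨?_, ?_⟩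
  · rw [hi3]; exact ⟨h1, h3, h4⟩
  · rw [hi3]; omega

/-- the core forest. -/
noncomputable def accaLF {v : V} (hv : v ∈ c.U) (A : Finset V) (hA : A ⊆ (c.src hr).F v)
    (hown : ∀ x ∈ A, ∀ w, x ∈ (c.src hr).Z v w → ¬ (w ∈ c.B ∧ c.root w = c.root v)) : LF r V where
  S := c.accaAl v ∪ ((c.src hr).hubs v A ∪ A)
  lev p := if p ∈ c.accaAl v then c.H p else 2 * r - g.d v p
  par p := if p ∈ c.accaAl v then c.par p else g.P p v 1
  hlev p hp := by
    split_ifs with h1
    · exact c.Hlt p (c.acca_mem_Al.1 h1).1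
    · rcases mem_union.1 hp with h2 | h2
      · exact absurd h2 h1
      · rcases mem_union.1 h2 with h3 | h3
        · obtain ⟨z, hz, hzw⟩ := (c.acca_hub hr hv hA).1 h3
          have := (Src.Z_geo _ hzw).2.1
          omega
        · have := ((c.acca_F hr hv).1 (hA h3)).2
          omega
  hpar p hp hl := by
    by_cases h1 : p ∈ c.accaAl v
    · simp only [if_pos h1] at hl ⊢
      have h2 := c.acca_Al_up hv h1 hl
      rw [if_pos h2.1]
      exact ⟨mem_union_left _ h2.1, h2.2⟩
    · simp only [if_neg h1] at hl ⊢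
      -- a common description: `p = P z v i`, `i < kh v z`
      have key : ∃ z ∈ A, ∃ i, i < c.kh v z ∧ g.P z v i = p ∧ 2 * r - g.d v p = i := by
        rcases mem_union.1 hp with h2 | h2
        · exact absurd h2 h1
        · rcases mem_union.1 h2 with h3 | h3
          · obtain ⟨z, hz, hzw⟩ := (c.acca_hub hr hv hA).1 h3
            obtain ⟨i, hi1, hi2, hi3, hi4, hi5⟩ := c.acca_Z' hr hv hzw
            exact ⟨z, hz, i, hi2, hi3, hi4⟩
          · have hd := ((c.acca_F hr hv).1 (hA h3)).2
            exact ⟨p, h3, 0, c.one_le_kh hr v p, g.P0 p v, by omega⟩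
      obtain ⟨z, hz, i, hi2, hi3, hi4⟩ := key
      have hd := ((c.acca_F hr hv).1 (hA hz)).2
      rw [hi4] at hl
      have hsuf : g.P p v 1 = g.P z v (i + 1) := by
        have := g.P_suffix (x := z) (y := v) (i := i) (k := 1) (by rw [g.symm, hd]; omega)
        rw [hi3] at this
        exact this
      rw [hsuf, hi4]
      by_cases h5 : i + 1 < c.kh v z
      · have h6 := c.acca_Z hr hv (hA hz) (i := i + 1) (by omega) h5
        have h7 := c.acca_hub_not hr hv h6.1 (hown z hz _ h6.1)
        rw [if_neg h7]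
        exact ⟨mem_union_right _ (mem_union_left _ ((c.acca_hub hr hv hA).2 ⟨z, hz, h6.1⟩)), h6.2⟩
      · have h6 : c.kh v z = i + 1 := by omega
        have hs := c.kh_spec (v := v) (x := z) (by omega)
        rw [h6] at hs
        have h7 : g.P z v (i + 1) ∈ c.accaAl v := (c.acca_Reg_al hs.2.1)
        rw [if_pos h7]
        exact ⟨mem_union_left _ h7, hs.2.2⟩

variable {v : V} (hv : v ∈ c.U) (A : Finset V) (hA : A ⊆ (c.src hr).F v)
    (hown : ∀ x ∈ A, ∀ w, x ∈ (c.src hr).Z v w → ¬ (w ∈ c.B ∧ c.root w = c.root v))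

theorem acca_lev_Al {p : V} (hp : p ∈ c.accaAl v) : (c.accaLF hr hv A hA hown).lev p = c.H p := if_pos hp

theorem acca_anc_Al {p : V} (hp : p ∈ c.accaAl v) {k : ℕ} (hk : c.H p ≤ k) (hkr : k < r) :
    (c.accaLF hr hv A hA hown).anc p k = c.T.anc p k := by
  have hlev := c.acca_lev_Al hr hv A hA hown hp
  induction k, hk using Nat.le_induction with
  | base =>
    have h1 := (c.accaLF hr hv A hA hown).anc_self p
    rw [hlev] at h1
    have h2 : c.T.anc p (c.H p) = p := c.T.anc_self p
    rw [h1, h2]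
  | succ k hk ih =>
    have ih := ih (by omega)
    rw [(c.accaLF hr hv A hA hown).anc_succ (by rw [hlev]; exact hk), ih,
      c.T.anc_succ (show c.T.lev p ≤ k from hk)]
    exact if_pos (c.acca_Al_anc hv hp hk (by omega)).1

theorem acca_lev_A {z : V} (hz : z ∈ A) : (c.accaLF hr hv A hA hown).lev z = 0 := by
  have h1 := (c.acca_F hr hv).1 (hA hz)
  have h2 : z ∉ c.accaAl v := fun h => c.acca_not_B h1.1 (c.acca_mem_Al.1 h).1
  have : (c.accaLF hr hv A hA hown).lev z = 2 * r - g.d v z := if_neg h2
  rw [this, h1.2]; omega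

theorem acca_anc_A {z : V} (hz : z ∈ A) {k : ℕ} (hkr : k < r) :
    (c.accaLF hr hv A hA hown).anc z k = (c.src hr).an v z k := by
  have hlev := c.acca_lev_A hr hv A hA hown hz
  have h1 := (c.acca_F hr hv).1 (hA hz)
  have h2 : z ∉ c.accaAl v := fun h => c.acca_not_B h1.1 (c.acca_mem_Al.1 h).1
  induction k with
  | zero =>
    have h3 := (c.accaLF hr hv A hA hown).anc_self z
    rw [hlev] at h3
    have := c.one_le_kh hr v z
    rw [h3, c.acca_an hr hv, if_pos (by omega), g.P0]
  | succ k ih =>
    have ih := ih (by omega)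
    rw [(c.accaLF hr hv A hA hown).anc_succ (by rw [hlev]; omega), ih, c.acca_an hr hv, c.acca_an hr hv]
    by_cases h3 : k < c.kh v z
    · rw [if_pos h3]
      have h4 : g.P z v k ∉ c.accaAl v := by
        rcases Nat.eq_zero_or_pos k with h5 | h5
        · rw [h5, g.P0]; exact h2
        · have h6 := c.acca_Z hr hv (hA hz) (i := k) (by omega) h3
          exact c.acca_hub_not hr hv h6.1 (hown z hz _ h6.1)
      have h5 : (c.accaLF hr hv A hA hown).par (g.P z v k) = g.P (g.P z v k) v 1 := if_neg h4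
      rw [h5, g.P_suffix (by rw [g.symm, h1.2]; omega)]
      by_cases h6 : k + 1 < c.kh v z
      · rw [if_pos h6]
      · rw [if_neg h6]
        have h7 : c.kh v z = k + 1 := by omega
        have hs := c.kh_spec (v := v) (x := z) (by omega)
        rw [h7] at hs ⊢
        have := c.T.anc_self (g.P z v (k + 1))
        have hl : c.T.lev (g.P z v (k + 1)) = k + 1 := hs.2.2
        rw [hl] at this
        exact this.symm
    · rw [if_neg h3, if_neg (by omega)]
      have hs := c.kh_spec (v := v) (x := z) (by omega)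
      have h4 : g.P z v (c.kh v z) ∈ c.accaAl v := (c.acca_Reg_al hs.2.1)
      have h5 := (c.acca_Al_anc hv h4 (k := k) (by rw [hs.2.2]; omega) (by omega)).1
      have h6 : (c.accaLF hr hv A hA hown).par (c.T.anc (g.P z v (c.kh v z)) k) =
        c.par (c.T.anc (g.P z v (c.kh v z)) k) := if_pos h5
      rw [h6, c.T.anc_succ (show c.T.lev _ ≤ k by
        show c.H _ ≤ k
        rw [hs.2.2]; omega)]
      rfl


/-- the leaves of the core forest that are points of `U` or targets. -/
theorem acca_leaf (e : ℝ) {p : V} (hp : p ∈ A ∨ (p ∈ c.accaAl v ∧ p ∈ c.U)) :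
    (c.accaLF hr hv A hA hown).lev p = 0 ∧
      ∀ k, k < r → (c.accaLF hr hv A hA hown).anc p k = c.anO hr v p k := by
  rcases hp with hp | ⟨hp, hpU⟩
  · refine ⟨c.acca_lev_A hr hv A hA hown hp, fun k hk => ?_⟩
    rw [c.acca_anc_A hr hv A hA hown hp hk, anO,
      if_neg (c.acca_not_B ((c.acca_F hr hv).1 (hA hp)).1)]
  · have hB := (c.acca_mem_Al.1 hp).1
    have hH : c.H p = 0 := (c.HU p hB).2 hpU
    refine ⟨by rw [c.acca_lev_Al hr hv A hA hown hp, hH], fun k hk => ?_⟩
    rw [c.acca_anc_Al hr hv A hA hown hp (by omega) hk, anO, if_pos hB]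

end aux

/-- a double sum over an indicator. -/
theorem acca_sum_ind {V : Type} [Fintype V] (P Q : Finset V) (R : V → V → Prop) (t K : ℝ) (ht : 0 ≤ t)
    (hK : ∀ p ∈ P, ((Q.filter (fun q => R p q)).card : ℝ) ≤ K) :
    (∑ p : V, ∑ q : V, (if p ∈ P ∧ q ∈ Q ∧ R p q then t else 0)) ≤ (P.card : ℝ) * (t * K) := by
  have h1 : ∀ p : V, (∑ q : V, (if p ∈ P ∧ q ∈ Q ∧ R p q then t else 0)) ≤
      (if p ∈ P then t * K else 0) := by
    intro p
    by_cases hp : p ∈ P
    · rw [if_pos hp]
      have h2 : (∑ q : V, (if p ∈ P ∧ q ∈ Q ∧ R p q then t else 0)) =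
          ∑ q ∈ Q.filter (fun q => R p q), t := by
        rw [← Finset.sum_filter]
        refine Finset.sum_congr ?_ fun _ _ => rfl
        ext q
        simp [hp]
      rw [h2, Finset.sum_const, nsmul_eq_mul, mul_comm]
      exact mul_le_mul_of_nonneg_left (hK p hp) ht
    · rw [if_neg hp]
      refine le_of_eq (Finset.sum_eq_zero fun q _ => ?_)
      rw [if_neg (fun h => hp h.1)]
  refine (Finset.sum_le_sum fun p _ => h1 p).trans (le_of_eq ?_)
  rw [← Finset.sum_filter]
  simp

section main
variable {V : Type} [Fintype V] {g : Geo V} {r : ℕ} {c : Core g r} {e L L' β : ℝ} (h : c.Hyp e L L' β) (hr : 1 ≤ r)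
include h

/-- The forest with nodes `(B \ NonAl v) ∪ Irr ∪ A`. -/
theorem core_forest {v : V} (hv : v ∈ c.U) (A : Finset V) (hA : A ⊆ (c.src hr).Sm e L v)
    (hown : ∀ x ∈ A, ∀ w, x ∈ (c.src hr).Z v w → ¬ (w ∈ c.B ∧ c.root w = c.root v)) :
    ∃ T : LF r V, T.S.card ≤ Fintype.card V - 1 ∧
      (((Fintype.card V - 1 : ℕ) : ℝ) - (T.S.card : ℝ) ≤ (c.M.card : ℝ) + ((c.NonAl v).card : ℝ)
        + ((c.X.filter (fun x => x ∉ A ∧ x ∉ (c.src hr).hubs v A)).card : ℝ)) ∧
      T.h ≤ c.T.h + c.ext hr v A ∧
      (T.C : ℝ) ≤ (c.T.C : ℝ) + (c.NNX hr e L v : ℝ) / 2 + 2 * r * (c.X.card : ℝ) * (2 * r * L' / e)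
        + 2 * r * c.hU e * (c.L2 e L L' + c.hU e) := by
  have he : (0 : ℝ) < e := by have := h.he; linarith
  have hAFe : A ⊆ (c.src hr).Fe e v := fun z hz => (mem_filter.1 (hA hz)).1
  have hAF : A ⊆ (c.src hr).F v := fun z hz => (mem_filter.1 (hAFe hz)).1
  have hAX : ∀ z ∈ A, z ∈ c.X := fun z hz => ((c.acca_F hr hv).1 (hAF hz)).1
  set T := c.accaLF hr hv A hAF hown with hT
  have hS : T.S = c.accaAl v ∪ ((c.src hr).hubs v A ∪ A) := rfl
  have hhub : ∀ w ∈ (c.src hr).hubs v A, w ∉ c.accaAl v := by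
    intro w hw
    obtain ⟨z, hz, hzw⟩ := (c.acca_hub hr hv hAF).1 hw
    exact c.acca_hub_not hr hv hzw (hown z hz w hzw)
  have hrL : 0 ≤ (r : ℝ) := Nat.cast_nonneg r
  refine ⟨T, ?_, ?_, ?_, ?_⟩
  · -- number of nodes
    have hm := c.hmm v (mem_union_left _ hv)
    have hH : c.H v = 0 := (c.HU v (mem_union_left _ hv)).2 hv
    have hlt := Finset.card_lt_univ_of_notMem (s := T.S) (x := c.mm v) (by
      rw [hS]
      intro hmem
      rcases mem_union.1 hmem with h1 | h1
      · rcases mem_union.1 (c.acca_mem_Al.1 h1).1 with h2 | h2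
        · exact Finset.disjoint_left.1 c.dUM h2 hm.1
        · exact Finset.disjoint_left.1 c.dWM h2 hm.1
      · rcases mem_union.1 h1 with h2 | h2
        · obtain ⟨z, hz, hzw⟩ := (c.acca_hub hr hv hAF).1 h2
          have := (Src.Z_geo _ hzw).2.1
          omega
        · exact (mem_filter.1 (hAX _ h2)).2.2.2 hm.1)
    omega
  · -- missing points
    have hsub : univ \ T.S ⊆ c.M ∪ (c.NonAl v ∪ c.X.filter (fun x => x ∉ A ∧ x ∉ (c.src hr).hubs v A)) := by
      intro x hx
      have hx := (mem_sdiff.1 hx).2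
      rw [hS] at hx
      have h1 : x ∉ c.accaAl v := fun h => hx (mem_union_left _ h)
      have h2 : x ∉ (c.src hr).hubs v A := fun h => hx (mem_union_right _ (mem_union_left _ h))
      have h3 : x ∉ A := fun h => hx (mem_union_right _ (mem_union_right _ h))
      by_cases hM : x ∈ c.M
      · exact mem_union_left _ hM
      · refine mem_union_right _ ?_
        by_cases hB : x ∈ c.B
        · refine mem_union_left _ (mem_filter.2 ⟨hB, ?_⟩)
          rw [c.acca_mem_Al] at h1
          push Not at h1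
          exact h1 hB
        · refine mem_union_right _ (mem_filter.2 ⟨mem_filter.2 ⟨mem_univ _, ?_, ?_, hM⟩, h3, h2⟩)
          · exact fun h => hB (mem_union_left _ h)
          · exact fun h => hB (mem_union_right _ h)
    have h1 := (card_le_card hsub).trans ((card_union_le _ _).trans
      (Nat.add_le_add_left (card_union_le _ _) _))
    have h2 : (univ \ T.S).card = Fintype.card V - T.S.card := by
      rw [card_sdiff_of_subset (subset_univ _), card_univ]
    rw [h2] at h1
    have h3 : T.S.card ≤ Fintype.card V := card_le_univ _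
    have h4 : Fintype.card V ≤ T.S.card + (c.M.card + ((c.NonAl v).card +
        (c.X.filter (fun x => x ∉ A ∧ x ∉ (c.src hr).hubs v A)).card)) := by omega
    have h5 : ((Fintype.card V : ℕ) : ℝ) ≤ (T.S.card : ℝ) + ((c.M.card : ℝ) + (((c.NonAl v).card : ℝ) +
        ((c.X.filter (fun x => x ∉ A ∧ x ∉ (c.src hr).hubs v A)).card : ℝ))) := by exact_mod_cast h4
    have h6 : ((Fintype.card V - 1 : ℕ) : ℝ) ≤ ((Fintype.card V : ℕ) : ℝ) := by
      exact_mod_cast Nat.sub_le _ _
    linarith
  · -- sum of the levels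
    have h1 : T.h ≤ (∑ p ∈ c.accaAl v, T.lev p) + ((∑ p ∈ (c.src hr).hubs v A, T.lev p) + ∑ p ∈ A, T.lev p) := by
      have a1 : ∀ (P Q : Finset V) (f : V → ℕ), ∑ p ∈ P ∪ Q, f p ≤ (∑ p ∈ P, f p) + ∑ p ∈ Q, f p := by
        intro P Q f
        rw [← Finset.sum_union_inter]
        exact Nat.le_add_right _ _
      exact (a1 _ _ _).trans (Nat.add_le_add_left (a1 _ _ _) _)
    have h2 : ∑ p ∈ A, T.lev p = 0 := Finset.sum_eq_zero fun p hp => c.acca_lev_A hr hv A hAF hown hp
    have h3 : ∑ p ∈ c.accaAl v, T.lev p = ∑ p ∈ c.accaAl v, c.H p :=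
      Finset.sum_congr rfl fun p hp => c.acca_lev_Al hr hv A hAF hown hp
    have h4 : ∑ p ∈ (c.src hr).hubs v A, T.lev p ≤
        (∑ p ∈ (c.src hr).hubs v A, c.Hb p) + c.ext hr v A := by
      unfold ext
      rw [← Finset.sum_add_distrib]
      refine Finset.sum_le_sum fun p hp => ?_
      rw [if_pos hv]
      have : T.lev p = 2 * r - g.d v p := if_neg (hhub p hp)
      rw [this]
      omega
    have h5 : (∑ p ∈ c.accaAl v, c.H p) + (∑ p ∈ (c.src hr).hubs v A, c.Hb p) ≤ c.T.h := by
      have h6 : (∑ p ∈ (c.src hr).hubs v A, c.Hb p) =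
          ∑ p ∈ ((c.src hr).hubs v A).filter (fun p => p ∈ c.B), c.H p := by
        rw [Finset.sum_filter]
        rfl
      rw [h6, ← Finset.sum_union]
      · show _ ≤ ∑ p ∈ c.U ∪ c.W, c.H p
        refine Finset.sum_le_sum_of_subset ?_
        intro p hp
        rcases mem_union.1 hp with h7 | h7
        · exact (c.acca_mem_Al.1 h7).1
        · exact (mem_filter.1 h7).2
      · rw [Finset.disjoint_left]
        intro p hp hp2
        exact hhub p (mem_filter.1 hp2).1 hp
    rw [h2, h3] at h1
    omega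
  · -- sum of the common ancestors
    set f1 : V → V → ℝ := fun p q => if p ∈ c.B ∧ q ∈ c.B ∧ q ≠ p then (c.T.kap p q : ℝ) else 0 with hf1
    set f2 : V → V → ℝ := fun p q => if q ≠ p then (c.NX hr e L v p q : ℝ) / 2 else 0 with hf2
    set f3 : V → V → ℝ := fun p q =>
      if p ∈ A ∧ q ∈ c.W ∧ c.root q = (c.src hr).cls v p then (r : ℝ) else 0 with hf3
    set f4 : V → V → ℝ := fun p q =>
      if p ∈ (c.src hr).hubs v A ∧ q ∈ T.S ∧ T.anc p (r - 1) = T.anc q (r - 1) then (r : ℝ) else 0 with hf4
    have n1 : ∀ p q, 0 ≤ f1 p q := fun p q => by rw [hf1]; dsimp only; split_ifs <;> positivity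
    have n2 : ∀ p q, 0 ≤ f2 p q := fun p q => by rw [hf2]; dsimp only; split_ifs <;> positivity
    have n3 : ∀ p q, 0 ≤ f3 p q := fun p q => by rw [hf3]; dsimp only; split_ifs <;> positivity
    have n4 : ∀ p q, 0 ≤ f4 p q := fun p q => by rw [hf4]; dsimp only; split_ifs <;> positivity
    have kap_r : ∀ p q, (T.kap p q : ℝ) ≤ r := by
      intro p q
      have : T.kap p q ≤ (range r).card := card_le_card (filter_subset _ _)
      rw [card_range] at this
      exact_mod_cast this
    have point : ∀ p ∈ T.S, ∀ q ∈ T.S, q ≠ p →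
        (T.kap p q : ℝ) ≤ f1 p q + f2 p q + f3 p q + f3 q p + f4 p q + f4 q p := by
      intro p hp q hq hne
      have m1 := n1 p q
      have m2 := n2 p q
      have m3 := n3 p q
      have m3' := n3 q p
      have m4 := n4 p q
      have m4' := n4 q p
      rcases Nat.eq_zero_or_pos (T.kap p q) with h0 | hpos
      · rw [h0, Nat.cast_zero]; positivity
      · obtain ⟨k0, hk0⟩ := Finset.card_pos.1 hpos
        obtain ⟨hk1, hk2, hk3, hk4⟩ := mem_filter.1 hk0
        have hk1 := mem_range.1 hk1
        have hroot : T.anc p (r - 1) = T.anc q (r - 1) := T.anc_up hk2 hk3 (by omega) hk4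
        by_cases hph : p ∈ (c.src hr).hubs v A
        · have : f4 p q = r := if_pos ⟨hph, hq, hroot⟩
          have := kap_r p q
          linarith
        by_cases hqh : q ∈ (c.src hr).hubs v A
        · have : f4 q p = r := if_pos ⟨hqh, hp, hroot.symm⟩
          have := kap_r p q
          linarith
        have hp' : p ∈ c.accaAl v ∨ p ∈ A := by
          rcases mem_union.1 hp with h1 | h1
          · exact Or.inl h1
          · rcases mem_union.1 h1 with h2 | h2
            · exact absurd h2 hph
            · exact Or.inr h2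
        have hq' : q ∈ c.accaAl v ∨ q ∈ A := by
          rcases mem_union.1 hq with h1 | h1
          · exact Or.inl h1
          · rcases mem_union.1 h1 with h2 | h2
            · exact absurd h2 hqh
            · exact Or.inr h2
        -- two leaves, not both in `U`
        have leaf2 : (p ∈ A ∨ (p ∈ c.accaAl v ∧ p ∈ c.U)) → (q ∈ A ∨ (q ∈ c.accaAl v ∧ q ∈ c.U)) →
            ¬ (p ∈ c.U ∧ q ∈ c.U) → (T.kap p q : ℝ) ≤ f2 p q := by
          intro hp2 hq2 hn
          have lp := c.acca_leaf hr hv A hAF hown e hp2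
          have lq := c.acca_leaf hr hv A hAF hown e hq2
          have hNX : c.NX hr e L v p q =
              2 * ((Ico 1 r).filter (fun k => c.anO hr v p k = c.anO hr v q k)).card := by
            unfold NX
            rw [if_pos]
            refine ⟨fun h => hne h.symm, ?_, ?_, hn⟩
            · rcases hp2 with h1 | h1
              · exact Or.inr (hA h1)
              · exact Or.inl h1.2
            · rcases hq2 with h1 | h1
              · exact Or.inr (hA h1)
              · exact Or.inl h1.2
          have hle : T.kap p q ≤ ((Ico 1 r).filter (fun k => c.anO hr v p k = c.anO hr v q k)).card := by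
            refine card_le_card fun k hk => ?_
            obtain ⟨a1, a2, a3, a4⟩ := mem_filter.1 hk
            have a1 := mem_range.1 a1
            refine mem_filter.2 ⟨mem_Ico.2 ⟨?_, a1⟩, ?_⟩
            · rcases Nat.eq_zero_or_pos k with h0 | h0
              · exfalso
                have e1 := T.anc_self p
                have e2 := T.anc_self q
                rw [lp.1] at e1
                rw [lq.1] at e2
                rw [h0, e1, e2] at a4
                exact hne a4.symm
              · exact h0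
            · rw [← lp.2 k a1, ← lq.2 k a1]; exact a4
          have : f2 p q = (c.NX hr e L v p q : ℝ) / 2 := if_pos hne
          rw [this, hNX]
          push_cast
          have : (T.kap p q : ℝ) ≤
            (((Ico 1 r).filter (fun k => c.anO hr v p k = c.anO hr v q k)).card : ℝ) := by
            exact_mod_cast hle
          linarith
        have hXU : ∀ z ∈ A, z ∉ c.U := fun z hz => (mem_filter.1 (hAX z hz)).2.1
        have rootA : ∀ z ∈ A, T.anc z (r - 1) = (c.src hr).cls v z := fun z hz =>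
          c.acca_anc_A hr hv A hAF hown hz (by omega)
        have rootW : ∀ z ∈ c.accaAl v, T.anc z (r - 1) = c.root z := fun z hz => by
          have := c.Hlt z (c.acca_mem_Al.1 hz).1
          exact c.acca_anc_Al hr hv A hAF hown hz (by omega) (by omega)
        rcases hp' with hp1 | hp1 <;> rcases hq' with hq1 | hq1
        · -- both in `Al`
          have hpB := (c.acca_mem_Al.1 hp1).1
          have hqB := (c.acca_mem_Al.1 hq1).1
          have : f1 p q = (c.T.kap p q : ℝ) := if_pos ⟨hpB, hqB, hne⟩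
          have hle : T.kap p q ≤ c.T.kap p q := by
            refine card_le_card fun k hk => ?_
            obtain ⟨a1, a2, a3, a4⟩ := mem_filter.1 hk
            have a1' := mem_range.1 a1
            rw [c.acca_lev_Al hr hv A hAF hown hp1] at a2
            rw [c.acca_lev_Al hr hv A hAF hown hq1] at a3
            rw [c.acca_anc_Al hr hv A hAF hown hp1 a2 a1', c.acca_anc_Al hr hv A hAF hown hq1 a3 a1'] at a4
            exact mem_filter.2 ⟨a1, a2, a3, a4⟩
          have : (T.kap p q : ℝ) ≤ (c.T.kap p q : ℝ) := by exact_mod_cast hle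
          linarith
        · -- `p ∈ Al`, `q ∈ A`
          by_cases hpU : p ∈ c.U
          · have := leaf2 (Or.inr ⟨hp1, hpU⟩) (Or.inl hq1) (fun h => hXU q hq1 h.2)
            linarith
          · have hpW : p ∈ c.W := by
              rcases mem_union.1 (c.acca_mem_Al.1 hp1).1 with h1 | h1
              · exact absurd h1 hpU
              · exact h1
            have : f3 q p = r := if_pos ⟨hq1, hpW, by rw [← rootW p hp1, ← rootA q hq1, hroot]⟩
            have := kap_r p q
            linarith
        · by_cases hqU : q ∈ c.U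
          · have := leaf2 (Or.inl hp1) (Or.inr ⟨hq1, hqU⟩) (fun h => hXU p hp1 h.1)
            linarith
          · have hqW : q ∈ c.W := by
              rcases mem_union.1 (c.acca_mem_Al.1 hq1).1 with h1 | h1
              · exact absurd h1 hqU
              · exact h1
            have : f3 p q = r := if_pos ⟨hp1, hqW, by rw [← rootW q hq1, ← rootA p hp1, hroot]⟩
            have := kap_r p q
            linarith
        · have := leaf2 (Or.inl hp1) (Or.inl hq1) (fun h => hXU p hp1 h.1)
          linarith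
    -- the total
    have htot : (T.C : ℝ) ≤ ∑ p : V, ∑ q : V, (f1 p q + f2 p q + f3 p q + f3 q p + f4 p q + f4 q p) := by
      have h1 : (T.C : ℝ) = ∑ p ∈ T.S, ∑ q ∈ T.S.filter (fun q => q ≠ p), (T.kap p q : ℝ) := by
        unfold LF.C
        push_cast
        rfl
      rw [h1]
      have nn : ∀ p q, 0 ≤ f1 p q + f2 p q + f3 p q + f3 q p + f4 p q + f4 q p := fun p q => by
        have m1 := n1 p q
        have m2 := n2 p q
        have m3 := n3 p q
        have m3' := n3 q p
        have m4 := n4 p q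
        have m4' := n4 q p
        positivity
      calc ∑ p ∈ T.S, ∑ q ∈ T.S.filter (fun q => q ≠ p), (T.kap p q : ℝ)
          ≤ ∑ p ∈ T.S, ∑ q : V, (f1 p q + f2 p q + f3 p q + f3 q p + f4 p q + f4 q p) := by
            refine Finset.sum_le_sum fun p hp => ?_
            refine (Finset.sum_le_sum fun q hq =>
              point p hp q (mem_filter.1 hq).1 (mem_filter.1 hq).2).trans ?_
            exact Finset.sum_le_sum_of_subset_of_nonneg (subset_univ _) fun q _ _ => nn p q
        _ ≤ _ := Finset.sum_le_sum_of_subset_of_nonneg (subset_univ _) fun p _ _ =>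
            Finset.sum_nonneg fun q _ => nn p q
    have s1 : (∑ p : V, ∑ q : V, f1 p q) = (c.T.C : ℝ) := by
      have h1 : (c.T.C : ℝ) = ∑ p ∈ c.B, ∑ q ∈ c.B.filter (fun q => q ≠ p), (c.T.kap p q : ℝ) := by
        unfold LF.C
        push_cast
        rfl
      rw [h1]
      symm
      have h2 : ∀ p ∈ c.B, (∑ q ∈ c.B.filter (fun q => q ≠ p), (c.T.kap p q : ℝ)) = ∑ q : V, f1 p q := by
        intro p hp
        rw [Finset.sum_filter]
        rw [← Finset.sum_subset (subset_univ c.B) (fun q _ hq => ?_)]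
        · refine Finset.sum_congr rfl fun q hq => ?_
          by_cases hqp : q ≠ p
          · rw [if_pos hqp, hf1]; exact (if_pos ⟨hp, hq, hqp⟩).symm
          · rw [if_neg hqp, hf1]; exact (if_neg (fun h => hqp h.2.2)).symm
        · exact if_neg (fun h => hq h.2.1)
      rw [Finset.sum_congr rfl h2]
      refine Finset.sum_subset (subset_univ c.B) (fun p _ hp => ?_)
      exact Finset.sum_eq_zero fun q _ => if_neg (fun h => hp h.1)
    have s2 : (∑ p : V, ∑ q : V, f2 p q) = (c.NNX hr e L v : ℝ) / 2 := by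
      unfold NNX
      push_cast
      rw [Finset.sum_div]
      refine Finset.sum_congr rfl fun p _ => ?_
      rw [Finset.sum_div, Finset.sum_filter]
    have s3 : (∑ p : V, ∑ q : V, f3 p q) ≤ (c.X.card : ℝ) * (r * (2 * r * L' / e)) := by
      have h1 := acca_sum_ind A c.W (fun p q => c.root q = (c.src hr).cls v p) (r : ℝ) (2 * r * L' / e) hrL
        (fun p _ => by
          rw [le_div_iff₀ he]
          exact card_W_class h _)
      refine h1.trans ?_
      have h2 : (A.card : ℝ) ≤ c.X.card := by exact_mod_cast card_le_card (fun z hz => hAX z hz)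
      have h3 : 0 ≤ (r : ℝ) * (2 * r * L' / e) := by
        have := h.hL'
        positivity
      exact mul_le_mul_of_nonneg_right h2 h3
    have s3' : (∑ p : V, ∑ q : V, f3 q p) ≤ (c.X.card : ℝ) * (r * (2 * r * L' / e)) := by
      rw [Finset.sum_comm]; exact s3
    have hEsub : (c.src hr).hubs v A ⊆ (c.src hr).E e v := by
      intro w hw
      obtain ⟨z, hz, hzw⟩ := (c.acca_hub hr hv hAF).1 hw
      exact Src.Fe_hub _ (hAFe hz) hzw
    have hhU : (((c.src hr).hubs v A).card : ℝ) ≤ c.hU e :=
      le_trans (by exact_mod_cast card_le_card hEsub) (card_E_U h hr hv)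
    have hcls : ∀ ρ : V, ((T.S.filter (fun q => ρ = T.anc q (r - 1))).card : ℝ) ≤ c.L2 e L L' + c.hU e := by
      intro ρ
      have hsub : T.S.filter (fun q => ρ = T.anc q (r - 1)) ⊆
          (c.U.filter (fun a => c.root a = ρ) ∪ c.W.filter (fun a => c.root a = ρ)) ∪
            ((c.src hr).hubs v A ∪ A.filter (fun a => (c.src hr).cls v a = ρ)) := by
        intro q hq
        obtain ⟨hq1, hq2⟩ := mem_filter.1 hq
        rcases mem_union.1 hq1 with h1 | h1
        · have hB := (c.acca_mem_Al.1 h1).1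
          have hHl := c.Hlt q hB
          have h2 : T.anc q (r - 1) = c.root q := c.acca_anc_Al hr hv A hAF hown h1 (by omega) (by omega)
          refine mem_union_left _ ?_
          rcases mem_union.1 hB with h3 | h3
          · exact mem_union_left _ (mem_filter.2 ⟨h3, by rw [hq2, h2]⟩)
          · exact mem_union_right _ (mem_filter.2 ⟨h3, by rw [hq2, h2]⟩)
        · refine mem_union_right _ ?_
          rcases mem_union.1 h1 with h2 | h2
          · exact mem_union_left _ h2
          · refine mem_union_right _ (mem_filter.2 ⟨h2, ?_⟩)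
            rw [hq2]
            exact (c.acca_anc_A hr hv A hAF hown h2 (by omega)).symm
      have h1 := (card_le_card hsub).trans ((card_union_le _ _).trans
        (Nat.add_le_add (card_union_le _ _) (card_union_le _ _)))
      have h2 : ((T.S.filter (fun q => ρ = T.anc q (r - 1))).card : ℝ) ≤
          (((c.U.filter (fun a => c.root a = ρ)).card : ℝ) + ((c.W.filter (fun a => c.root a = ρ)).card : ℝ)) +
          ((((c.src hr).hubs v A).card : ℝ) + ((A.filter (fun a => (c.src hr).cls v a = ρ)).card : ℝ)) := by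
        exact_mod_cast h1
      have h3 := h.hroot ρ
      have h4 : ((c.W.filter (fun a => c.root a = ρ)).card : ℝ) ≤ 2 * r * L' / e := by
        rw [le_div_iff₀ he]
        exact card_W_class h ρ
      have h5 : ((A.filter (fun a => (c.src hr).cls v a = ρ)).card : ℝ) ≤ L := by
        rcases (A.filter (fun a => (c.src hr).cls v a = ρ)).eq_empty_or_nonempty with h6 | ⟨a, ha⟩
        · rw [h6, card_empty, Nat.cast_zero]; exact h.hL
        · obtain ⟨ha1, ha2⟩ := mem_filter.1 ha
          have h7 := (mem_filter.1 (hA ha1)).2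
          rw [ha2] at h7
          refine le_trans ?_ h7
          have : A.filter (fun a => (c.src hr).cls v a = ρ) ⊆ (c.src hr).Cl e v ρ := by
            intro b hb
            obtain ⟨hb1, hb2⟩ := mem_filter.1 hb
            exact mem_filter.2 ⟨hAFe hb1, hb2⟩
          exact_mod_cast card_le_card this
      unfold L2
      linarith
    have hU0 : 0 ≤ c.hU e := le_trans (by positivity) hhU
    have hL0 : 0 ≤ c.L2 e L L' + c.hU e := le_trans (by positivity) (hcls v)
    have s4 : (∑ p : V, ∑ q : V, f4 p q) ≤ c.hU e * (r * (c.L2 e L L' + c.hU e)) := by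
      have h1 := acca_sum_ind ((c.src hr).hubs v A) T.S
        (fun p q => T.anc p (r - 1) = T.anc q (r - 1)) (r : ℝ) (c.L2 e L L' + c.hU e) hrL
        (fun p _ => hcls _)
      refine h1.trans ?_
      exact mul_le_mul_of_nonneg_right hhU (mul_nonneg hrL hL0)
    have s4' : (∑ p : V, ∑ q : V, f4 q p) ≤ c.hU e * (r * (c.L2 e L L' + c.hU e)) := by
      rw [Finset.sum_comm]; exact s4
    simp only [Finset.sum_add_distrib] at htot
    linarith

end main

end Core

end Pool.Agent.Wi
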