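import Pool.Agent.Wi.ACCb1

/-! MODULE ACCb2: the charge inequality (G3) of section 9. -/

namespace Pool.Agent.Wi

open Finset
open scoped Classical

namespace Core

/-- charge of the pairs of a large class that are not hub pairs -/
noncomputable def lgc {V : Type} [Fintype V] {g : Geo V} {r : ℕ} (s : Src g r) (e L : ℝ) (u x y : V) : ℕ :=
  if (x ∈ s.La e L u ∧ y ∈ s.La e L u ∧ s.cls u x = s.cls u y) ∧ (y ∉ s.E e x ∧ x ∉ s.E e y)
  then 2 * r - g.d x y else 0

/-- base charge of the pairs of `U × W` -/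
noncomputable def bHc {V : Type} {g : Geo V} {r : ℕ} (c : Core g r) (x y : V) : ℕ :=
  (if x ∈ c.U then c.Hb y else 0) + (if y ∈ c.U then c.Hb x else 0)

/-- overlap -/
noncomputable def ovc {V : Type} [Fintype V] {g : Geo V} {r : ℕ} (s : Src g r) (e L : ℝ) (u x y : V) : ℕ :=
  if y ∈ s.E e x ∨ x ∈ s.E e y then s.near e L u x y else 0

variable {V : Type} [Fintype V] {g : Geo V} {r : ℕ} {c : Core g r} {e L L' β : ℝ}

theorem b2_sum_bH : ∑ x : V, ∑ y ∈ univ.filter (fun y => y ≠ x), c.bHc x y = 2 * (c.U.card * c.T.h) := by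
  unfold bHc
  simp only [sum_add_distrib]
  rw [← b1_swap (fun x y => if x ∈ c.U then c.Hb y else 0)]
  have e1 : ∀ x : V, ∑ y ∈ univ.filter (fun y => y ≠ x), (if x ∈ c.U then c.Hb y else 0) =
      if x ∈ c.U then c.T.h else 0 := by
    intro x
    split_ifs with hx
    · have e2 : c.T.h = ∑ y : V, c.Hb y := by
        unfold LF.h Hb
        rw [← sum_filter]
        apply sum_congr
        · ext y
          simp only [mem_filter, mem_univ, true_and]
          rfl
        · intro y _
          rfl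
      rw [e2, ← sum_filter_add_sum_filter_not univ (fun y => y ≠ x)]
      symm
      rw [add_eq_left]
      apply sum_eq_zero
      intro y hy
      have : y = x := by
        have := (mem_filter.1 hy).2
        push Not at this
        exact this
      subst this
      unfold Hb
      rw [b1_H_U hx]
      simp
    · simp
  simp only [e1]
  rw [← sum_filter, sum_const, smul_eq_mul]
  have : univ.filter (fun x => x ∈ c.U) = c.U := by ext; simp
  rw [this]
  ring

variable (h : c.Hyp e L L' β) (hr : 1 ≤ r)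
include h

/-- pointwise inequality -/
theorem b2_key {o u : V} (idx : V → ℕ) (hidx : Function.Injective idx)
    {x y : V} (hyx : y ≠ x) :
    (c.src hr).near e L u x y + lgc (c.src hr) e L u x y + c.bHc x y +
      (c.xt hr (fun x => c.Gd hr e L idx o x) x y + c.xt hr (fun x => c.Gd hr e L idx o x) y x) ≤
      (2 * r - g.d x y) + ovc (c.src hr) e L u x y := by
  have hBB := BB_le h x y
  have hnear := (c.src hr).near_le e L h.diam u x y
  by_cases h1 : y ∈ (c.src hr).hubs x (c.Gd hr e L idx o x)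
  · have h2 : x ∉ (c.src hr).hubs y (c.Gd hr e L idx o y) := fun h2 =>
      hyx (b1_excl h hr idx hidx h1 h2).symm
    have hE := b1_hubs_E _ (b1_Gd_sub hr idx o x) h1
    obtain ⟨b1, b2, b3⟩ := b1_base h hr idx h1
    have x1 : c.xt hr (fun x => c.Gd hr e L idx o x) x y = (2 * r - g.d x y) - c.BB x y := by
      unfold xt
      rw [if_pos h1, b3]
    have x2 : c.xt hr (fun x => c.Gd hr e L idx o x) y x = 0 := by unfold xt; rw [if_neg h2]
    have x3 : lgc (c.src hr) e L u x y = 0 := by
      unfold lgc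
      rw [if_neg (fun hh => hh.2.1 hE)]
    have x4 : ovc (c.src hr) e L u x y = (c.src hr).near e L u x y := by
      unfold ovc
      rw [if_pos (Or.inl hE)]
    have x5 : c.bHc x y = c.BB x y := by
      unfold bHc
      rw [b3]
      have hs := (E_src h hr hE).1
      have : (if y ∈ c.U then c.Hb x else 0) = 0 := by
        split_ifs
        · unfold Hb
          split_ifs with hxB
          · exact b1_H_U (b1_mem_UX_B hs hxB)
          · rfl
        · rfl
      rw [this, add_zero]
    rw [x1, x2, x3, x4, x5]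
    omega
  · have x1 : c.xt hr (fun x => c.Gd hr e L idx o x) x y = 0 := by unfold xt; rw [if_neg h1]
    by_cases h2 : x ∈ (c.src hr).hubs y (c.Gd hr e L idx o y)
    · have hE := b1_hubs_E _ (b1_Gd_sub hr idx o y) h2
      obtain ⟨b1, b2, b3⟩ := b1_base h hr idx h2
      have hBB' := BB_le h y x
      rw [g.symm y x] at hBB'
      have x2 : c.xt hr (fun x => c.Gd hr e L idx o x) y x = (2 * r - g.d x y) - c.BB y x := by
        unfold xt
        rw [if_pos h2, b3, g.symm y x]
      have x3 : lgc (c.src hr) e L u x y = 0 := by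
        unfold lgc
        rw [if_neg (fun hh => hh.2.2 hE)]
      have x4 : ovc (c.src hr) e L u x y = (c.src hr).near e L u x y := by
        unfold ovc
        rw [if_pos (Or.inr hE)]
      have x5 : c.bHc x y = c.BB y x := by
        unfold bHc
        rw [b3]
        have hs := (E_src h hr hE).1
        have : (if x ∈ c.U then c.Hb y else 0) = 0 := by
          split_ifs
          · unfold Hb
            split_ifs with hyB
            · exact b1_H_U (b1_mem_UX_B hs hyB)
            · rfl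
          · rfl
        rw [this, zero_add]
      rw [x1, x2, x3, x4, x5]
      omega
    · have x2 : c.xt hr (fun x => c.Gd hr e L idx o x) y x = 0 := by unfold xt; rw [if_neg h2]
      rw [x1, x2]
      -- at most one of the three charges is present
      have hF : ∀ z ∈ (c.src hr).Fe e u, z ∈ c.U ∪ c.X := fun z hz =>
        (F_sub h hr (mem_filter.1 hz).1).2.1
      have hb0 : x ∈ c.U ∪ c.X → y ∈ c.U ∪ c.X → c.bHc x y = 0 := by
        intro hx hy
        unfold bHc Hb
        have e1 : ∀ z ∈ c.U ∪ c.X, (if z ∈ c.B then c.H z else 0) = 0 := by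
          intro z hz
          split_ifs with hzB
          · exact b1_H_U (b1_mem_UX_B hz hzB)
          · rfl
        rw [e1 x hx, e1 y hy]
        simp
      have hbd : c.bHc x y ≤ 2 * r - g.d x y := by
        unfold bHc Hb
        unfold BB at hBB
        by_cases hxU : x ∈ c.U
        · have hxB : x ∈ c.B := mem_union_left _ hxU
          by_cases hyB : y ∈ c.B
          · rw [if_pos ⟨hyx.symm, hxB, hyB⟩] at hBB
            rw [if_pos hxU, if_pos hyB, if_pos hxB, b1_H_U hxU]
            split_ifs <;> omega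
          · have hyU : y ∉ c.U := fun hh => hyB (mem_union_left _ hh)
            rw [if_pos hxU, if_neg hyB, if_neg hyU]
            exact Nat.zero_le _
        · rw [if_neg hxU]
          by_cases hyU : y ∈ c.U
          · have hyB : y ∈ c.B := mem_union_left _ hyU
            by_cases hxB : x ∈ c.B
            · rw [if_pos ⟨hyx.symm, hxB, hyB⟩] at hBB
              rw [if_pos hyU, if_pos hxB]
              omega
            · rw [if_pos hyU, if_neg hxB]
              exact Nat.zero_le _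
          · rw [if_neg hyU]
            exact Nat.zero_le _
      have hlg : lgc (c.src hr) e L u x y ≤ 2 * r - g.d x y := by
        unfold lgc
        split_ifs
        · exact le_rfl
        · exact Nat.zero_le _
      by_cases hn : 0 < (c.src hr).near e L u x y
      · obtain ⟨-, n1, n2, n3⟩ := ((c.src hr).near_pos_iff h.hr2 e L u x y).1 hn
        have e1 : lgc (c.src hr) e L u x y = 0 := by
          unfold lgc
          rw [if_neg]
          rintro ⟨⟨l1, -, -⟩, -⟩
          have a1 := (mem_filter.1 n1).2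
          have a2 := (mem_filter.1 l1).2
          linarith
        have e2 := hb0 (hF x (mem_filter.1 n1).1) (hF y (mem_filter.1 n2).1)
        rw [e1, e2]
        omega
      · have e0 : (c.src hr).near e L u x y = 0 := by omega
        rw [e0]
        by_cases hl : (x ∈ (c.src hr).La e L u ∧ y ∈ (c.src hr).La e L u ∧
            (c.src hr).cls u x = (c.src hr).cls u y) ∧ (y ∉ (c.src hr).E e x ∧ x ∉ (c.src hr).E e y)
        · have e2 := hb0 (hF x (mem_filter.1 hl.1.1).1) (hF y (mem_filter.1 hl.1.2.1).1)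
          rw [e2]
          omega
        · have e1 : lgc (c.src hr) e L u x y = 0 := by
            unfold lgc
            rw [if_neg hl]
          rw [e1]
          omega

/-- number of hub pairs inside small classes -/
theorem b2_S {u : V} (hu : u ∈ c.X) :
    (((univ : Finset (V × V)).filter (fun p => p.2 ∈ (c.src hr).E e p.1 ∧
      0 < (c.src hr).near e L u p.1 p.2)).card : ℝ) * e ^ 2 ≤ r * L * (g.D2 r : ℝ) := by
  have hr2 := h.hr2
  have he := h.he
  have hL := h.hL
  set s := c.src hr with hs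
  have huU : u ∉ c.U := fun hh => (mem_filter.1 hu).2.1 hh
  set S := (univ : Finset (V × V)).filter (fun p => p.2 ∈ s.E e p.1 ∧ 0 < s.near e L u p.1 p.2) with hS
  have hex : ∀ p ∈ S, ∃ A : Finset V, A ⊆ s.Fe e u ∧ e ≤ (A.card : ℝ) ∧
      ∀ a ∈ A, g.d a p.2 ≤ 2 ∧ s.cls u a = s.cls u p.2 := by
    intro p hp
    obtain ⟨p1, p2⟩ := (mem_filter.1 hp).2
    obtain ⟨-, n1, n2, n3⟩ := (s.near_pos_iff hr2 e L u p.1 p.2).1 p2
    exact s.siblings hr2 (mem_filter.1 n2).1 (by rw [kk_X h hr huU]; omega)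
  choose! A hA1 hA2 hA3 using hex
  have hZ : ∀ p ∈ S, e ≤ ((s.Z p.1 p.2).card : ℝ) := by
    intro p hp
    exact (mem_filter.1 (mem_filter.1 hp).2.1).2.2
  have st1 : (S.card : ℝ) * e ^ 2 ≤ ∑ p ∈ S, ((A p).card : ℝ) * ((s.Z p.1 p.2).card : ℝ) := by
    rw [← nsmul_eq_mul, ← sum_const]
    apply sum_le_sum
    intro p hp
    rw [pow_two]
    exact mul_le_mul (hA2 p hp) (hZ p hp) (by linarith) (by positivity)
  have st2 : ∑ p ∈ S, ((A p).card : ℝ) * ((s.Z p.1 p.2).card : ℝ) =
      ∑ a : V, ∑ z : V, ((S.filter (fun p => a ∈ A p ∧ z ∈ s.Z p.1 p.2)).card : ℝ) := by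
    have e1 : ∀ p ∈ S, ((A p).card : ℝ) * ((s.Z p.1 p.2).card : ℝ) =
        ∑ a : V, ∑ z : V, (if a ∈ A p ∧ z ∈ s.Z p.1 p.2 then (1:ℝ) else 0) := by
      intro p _
      have : ∀ a z : V, (if a ∈ A p ∧ z ∈ s.Z p.1 p.2 then (1:ℝ) else 0) =
          (if a ∈ A p then 1 else 0) * (if z ∈ s.Z p.1 p.2 then 1 else 0) := by
        intro a z
        by_cases h1 : a ∈ A p <;> by_cases h2 : z ∈ s.Z p.1 p.2 <;> simp [h1, h2]
      simp only [this, ← mul_sum, ← sum_mul]
      simp
    rw [sum_congr rfl e1, sum_comm]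
    apply sum_congr rfl
    intro a _
    rw [sum_comm]
    apply sum_congr rfl
    intro z _
    rw [card_filter]
    push_cast
    rfl
  have st3 : ∀ a z : V, ((S.filter (fun p => a ∈ A p ∧ z ∈ s.Z p.1 p.2)).card : ℝ) ≤
      if z ≠ a ∧ g.d a z < 2 * r then (r:ℝ) * L else 0 := by
    intro a z
    rcases (S.filter (fun p => a ∈ A p ∧ z ∈ s.Z p.1 p.2)).eq_empty_or_nonempty with h0 | ⟨p, hp⟩
    · rw [h0, card_empty]
      split_ifs
      · push_cast; positivity
      · simp
    · have hinfo : ∀ p ∈ S.filter (fun p => a ∈ A p ∧ z ∈ s.Z p.1 p.2),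
          p.1 ∈ s.Cl e u (s.cls u a) ∧ r < g.d p.1 p.2 ∧ g.d p.1 p.2 < 2 * r ∧
          g.P z p.1 (2 * r - g.d p.1 p.2) = p.2 ∧ g.d z p.2 = 2 * r - g.d p.1 p.2 ∧
          g.d p.1 z = 2 * r ∧ g.d a p.2 ≤ 2 ∧ g.d p.1 a ≤ 2 * (r - 1) ∧
          ((s.Cl e u (s.cls u a)).card : ℝ) ≤ L := by
        intro p hp
        obtain ⟨pS, pa, pz⟩ := mem_filter.1 hp
        obtain ⟨p1, p2⟩ := (mem_filter.1 pS).2
        obtain ⟨-, n1, n2, n3⟩ := (s.near_pos_iff hr2 e L u p.1 p.2).1 p2
        obtain ⟨z1, z2, z3, z4, z5⟩ := s.Z_geo pz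
        obtain ⟨a1, a2⟩ := hA3 p pS a pa
        have hc : s.cls u p.1 = s.cls u a := by rw [a2, n3]
        have haF : a ∈ s.Fe e u := hA1 p pS pa
        refine ⟨mem_filter.2 ⟨(mem_filter.1 n1).1, hc⟩, z2, z3, z5, z4, z1, a1, ?_, ?_⟩
        · exact s.cls_dist hr (mem_filter.1 (mem_filter.1 n1).1).1 (mem_filter.1 haF).1 hc
        · rw [← hc]
          exact (mem_filter.1 n1).2
      obtain ⟨i1, i2, i3, i4, i5, i6, i7, i8, i9⟩ := hinfo p hp
      have hcond : z ≠ a ∧ g.d a z < 2 * r := by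
        constructor
        · rintro rfl
          omega
        · have := g.tri a p.2 z
          rw [g.symm p.2 z] at this
          omega
      rw [if_pos hcond]
      have hcard : (S.filter (fun p => a ∈ A p ∧ z ∈ s.Z p.1 p.2)).card ≤
          ((s.Cl e u (s.cls u a)) ×ˢ (range r)).card := by
        apply card_le_card_of_injOn (fun p => (p.1, g.d p.1 p.2 - r - 1))
        · intro p hp
          obtain ⟨i1, i2, i3, -⟩ := hinfo p hp
          rw [mem_coe, mem_product, mem_range]
          exact ⟨i1, by show g.d p.1 p.2 - r - 1 < r; omega⟩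
        · intro p hp q hq hpq
          obtain ⟨-, i2, i3, i4, -⟩ := hinfo p hp
          obtain ⟨-, j2, j3, j4, -⟩ := hinfo q hq
          simp only [Prod.mk.injEq] at hpq
          obtain ⟨q1, q2⟩ := hpq
          have hdd : g.d p.1 p.2 = g.d q.1 q.2 := by omega
          apply Prod.ext q1
          rw [← i4, ← j4, hdd, q1]
      rw [card_product, card_range] at hcard
      calc ((S.filter (fun p => a ∈ A p ∧ z ∈ s.Z p.1 p.2)).card : ℝ)
          ≤ (((s.Cl e u (s.cls u a)).card * r : ℕ) : ℝ) := by exact_mod_cast hcard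
        _ = r * ((s.Cl e u (s.cls u a)).card : ℝ) := by push_cast; ring
        _ ≤ r * L := mul_le_mul_of_nonneg_left i9 (by positivity)
  have st4 : ∑ a : V, ∑ z : V, (if z ≠ a ∧ g.d a z < 2 * r then (r:ℝ) * L else 0) ≤
      r * L * (g.D2 r : ℝ) := by
    unfold Geo.D2
    push_cast
    rw [mul_sum]
    apply sum_le_sum
    intro a _
    rw [mul_sum, sum_filter]
    apply sum_le_sum
    intro z _
    by_cases hz : z ≠ a
    · rw [if_pos hz]
      by_cases hd : g.d a z < 2 * r
      · rw [if_pos ⟨hz, hd⟩]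
        have h1 : (1:ℝ) ≤ ((2 * r - g.d a z : ℕ) : ℝ) := by
          exact_mod_cast (by omega : 1 ≤ 2 * r - g.d a z)
        have h2 : (0:ℝ) ≤ r * L := by positivity
        nlinarith
      · rw [if_neg (fun hh => hd hh.2)]
        positivity
    · rw [if_neg hz, if_neg (fun hh => hz hh.1)]
  refine st1.trans (st2.le.trans (le_trans ?_ st4))
  exact sum_le_sum fun a _ => sum_le_sum fun z _ => st3 a z

/-- total overlap -/
theorem b2_ov {u : V} (hu : u ∈ c.X) :
    ((∑ x : V, ∑ y ∈ univ.filter (fun y => y ≠ x), ovc (c.src hr) e L u x y : ℕ) : ℝ) ≤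
      4 * (r : ℝ) ^ 2 * L * (g.D2 r : ℝ) / e ^ 2 := by
  have hS := b2_S h hr hu
  have he := h.he
  have hL := h.hL
  have hr2 := h.hr2
  set s := c.src hr with hs
  set S := (univ : Finset (V × V)).filter (fun p => p.2 ∈ s.E e p.1 ∧ 0 < s.near e L u p.1 p.2) with hSd
  set f : V → V → ℕ := fun x y => if (x, y) ∈ S then r else 0 with hf
  have e1 : ∀ x y : V, ovc s e L u x y ≤ f x y + f y x := by
    intro x y
    unfold ovc
    have hb : ∀ x y, y ∈ s.E e x → s.near e L u x y ≤ f x y := by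
      intro x y hE
      rw [hf]
      beta_reduce
      by_cases hn : 0 < s.near e L u x y
      · rw [if_pos (mem_filter.2 ⟨mem_univ _, hE, hn⟩)]
        have h1 := s.near_le e L h.diam u x y
        have h2 := (E_src h hr hE).2.1
        omega
      · omega
    split_ifs with hc
    · rcases hc with hc | hc
      · exact (hb x y hc).trans (Nat.le_add_right _ _)
      · rw [s.near_symm]
        exact (hb y x hc).trans (Nat.le_add_left _ _)
    · exact Nat.zero_le _
  have e2 : ∑ x : V, ∑ y ∈ univ.filter (fun y => y ≠ x), f x y ≤ r * S.card := by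
    calc ∑ x : V, ∑ y ∈ univ.filter (fun y => y ≠ x), f x y ≤ ∑ x : V, ∑ y : V, f x y :=
          sum_le_sum fun x _ => sum_le_sum_of_subset (filter_subset _ _)
      _ = ∑ p : V × V, f p.1 p.2 := by rw [← Fintype.sum_prod_type']
      _ = r * S.card := by
          rw [hf]
          beta_reduce
          rw [← sum_filter, sum_const, smul_eq_mul, mul_comm]
          congr 2
          ext p
          simp
  have e3 : ∑ x : V, ∑ y ∈ univ.filter (fun y => y ≠ x), ovc s e L u x y ≤ 2 * (r * S.card) := by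
    calc _ ≤ ∑ x : V, ∑ y ∈ univ.filter (fun y => y ≠ x), (f x y + f y x) :=
          sum_le_sum fun x _ => sum_le_sum fun y _ => e1 x y
      _ = 2 * ∑ x : V, ∑ y ∈ univ.filter (fun y => y ≠ x), f x y := by
          simp only [sum_add_distrib]
          rw [← b1_swap f]
          ring
      _ ≤ 2 * (r * S.card) := Nat.mul_le_mul_left _ e2
  have he2 : (0:ℝ) < e ^ 2 := by positivity
  have e4 : (S.card : ℝ) ≤ r * L * (g.D2 r : ℝ) / e ^ 2 := by
    rw [le_div_iff₀ he2]
    exact hS
  calc ((∑ x : V, ∑ y ∈ univ.filter (fun y => y ≠ x), ovc s e L u x y : ℕ) : ℝ)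
      ≤ ((2 * (r * S.card) : ℕ) : ℝ) := by exact_mod_cast e3
    _ = 2 * r * (S.card : ℝ) := by push_cast; ring
    _ ≤ 2 * r * (r * L * (g.D2 r : ℝ) / e ^ 2) := mul_le_mul_of_nonneg_left e4 (by positivity)
    _ = 2 * (r ^ 2 * L * (g.D2 r : ℝ) / e ^ 2) := by ring
    _ ≤ 4 * (r ^ 2 * L * (g.D2 r : ℝ) / e ^ 2) := by
        apply mul_le_mul_of_nonneg_right (by norm_num)
        positivity
    _ = 4 * (r : ℝ) ^ 2 * L * (g.D2 r : ℝ) / e ^ 2 := by ring

/-- large classes -/
theorem b2_lg {u : V} :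
    2 * (L - 1 - 2 * c.hX e) * (((c.src hr).La e L u).card : ℝ) ≤
      ((∑ x : V, ∑ y ∈ univ.filter (fun y => y ≠ x), lgc (c.src hr) e L u x y : ℕ) : ℝ) := by
  have hr2 := h.hr2
  have hcE := card_E_X h hr
  set s := c.src hr with hs
  have e1 : ∀ x ∈ s.La e L u, ∀ y : V, y ≠ x →
      2 * (if y ∈ s.Cl e u (s.cls u x) then (1:ℝ) else 0) - 2 * (if y ∈ s.E e x then 1 else 0) -
        2 * (if y ∈ s.La e L u ∧ x ∈ s.E e y then 1 else 0) ≤ (lgc s e L u x y : ℝ) := by
    intro x hx y hyx
    by_cases h1 : y ∈ s.Cl e u (s.cls u x)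
    · have hyL : y ∈ s.La e L u := by
        refine mem_filter.2 ⟨(mem_filter.1 h1).1, ?_⟩
        rw [(mem_filter.1 h1).2]
        exact (mem_filter.1 hx).2
      by_cases h2 : y ∈ s.E e x
      · rw [if_pos h1, if_pos h2]
        have : (0:ℝ) ≤ (if y ∈ s.La e L u ∧ x ∈ s.E e y then 1 else 0) := by split_ifs <;> norm_num
        have h3 : (0:ℝ) ≤ (lgc s e L u x y : ℝ) := by positivity
        linarith
      · by_cases h3 : x ∈ s.E e y
        · rw [if_pos h1, if_neg h2, if_pos ⟨hyL, h3⟩]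
          have h3 : (0:ℝ) ≤ (lgc s e L u x y : ℝ) := by positivity
          linarith
        · rw [if_pos h1, if_neg h2, if_neg (fun hh => h3 hh.2)]
          have hd := s.cls_dist hr (mem_filter.1 (mem_filter.1 hx).1).1
            (mem_filter.1 (mem_filter.1 hyL).1).1 ((mem_filter.1 h1).2).symm
          have : 2 ≤ lgc s e L u x y := by
            unfold lgc
            rw [if_pos ⟨⟨hx, hyL, ((mem_filter.1 h1).2).symm⟩, h2, h3⟩]
            omega
          have : (2:ℝ) ≤ (lgc s e L u x y : ℝ) := by exact_mod_cast this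
          linarith
    · rw [if_neg h1]
      have a1 : (0:ℝ) ≤ (if y ∈ s.La e L u ∧ x ∈ s.E e y then 1 else 0) := by split_ifs <;> norm_num
      have a2 : (0:ℝ) ≤ (if y ∈ s.E e x then 1 else 0) := by split_ifs <;> norm_num
      have h3 : (0:ℝ) ≤ (lgc s e L u x y : ℝ) := by positivity
      linarith
  have e2 : ∀ x ∈ s.La e L u, 2 * (L - 1) - 2 * c.hX e -
      2 * ∑ y : V, (if y ∈ s.La e L u ∧ x ∈ s.E e y then (1:ℝ) else 0) ≤
      ∑ y ∈ univ.filter (fun y => y ≠ x), (lgc s e L u x y : ℝ) := by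
    intro x hx
    have hsum : ∑ y ∈ univ.filter (fun y => y ≠ x),
        (2 * (if y ∈ s.Cl e u (s.cls u x) then (1:ℝ) else 0) - 2 * (if y ∈ s.E e x then 1 else 0) -
        2 * (if y ∈ s.La e L u ∧ x ∈ s.E e y then 1 else 0)) ≤
        ∑ y ∈ univ.filter (fun y => y ≠ x), (lgc s e L u x y : ℝ) :=
      sum_le_sum fun y hy => e1 x hx y (mem_filter.1 hy).2
    refine le_trans ?_ hsum
    rw [sum_sub_distrib, sum_sub_distrib, ← mul_sum, ← mul_sum, ← mul_sum]
    have f1 : L - 1 ≤ ∑ y ∈ univ.filter (fun y => y ≠ x), (if y ∈ s.Cl e u (s.cls u x) then (1:ℝ) else 0) := by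
      rw [sum_ite_mem, sum_const, nsmul_eq_mul, mul_one]
      have : univ.filter (fun y => y ≠ x) ∩ s.Cl e u (s.cls u x) = (s.Cl e u (s.cls u x)).erase x := by
        ext y
        simp
      have hxC : x ∈ s.Cl e u (s.cls u x) := mem_filter.2 ⟨(mem_filter.1 hx).1, rfl⟩
      rw [this, card_erase_of_mem hxC]
      have hpos : 1 ≤ (s.Cl e u (s.cls u x)).card := card_pos.2 ⟨x, hxC⟩
      rw [Nat.cast_sub hpos]
      have := (mem_filter.1 hx).2
      push_cast
      linarith
    have f2 : ∑ y ∈ univ.filter (fun y => y ≠ x), (if y ∈ s.E e x then (1:ℝ) else 0) ≤ c.hX e := by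
      rw [sum_ite_mem, sum_const, nsmul_eq_mul, mul_one]
      refine le_trans ?_ (hcE x)
      exact_mod_cast card_le_card inter_subset_right
    have f3 : ∑ y ∈ univ.filter (fun y => y ≠ x), (if y ∈ s.La e L u ∧ x ∈ s.E e y then (1:ℝ) else 0) ≤
        ∑ y : V, (if y ∈ s.La e L u ∧ x ∈ s.E e y then (1:ℝ) else 0) := by
      apply sum_le_sum_of_subset_of_nonneg (filter_subset _ _)
      intro y _ _
      split_ifs <;> norm_num
    linarith
  have e3 : ∑ x ∈ s.La e L u, ∑ y : V, (if y ∈ s.La e L u ∧ x ∈ s.E e y then (1:ℝ) else 0) ≤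
      c.hX e * ((s.La e L u).card : ℝ) := by
    rw [sum_comm]
    have : ∀ y : V, ∑ x ∈ s.La e L u, (if y ∈ s.La e L u ∧ x ∈ s.E e y then (1:ℝ) else 0) ≤
        if y ∈ s.La e L u then c.hX e else 0 := by
      intro y
      split_ifs with hy
      · simp only [hy, true_and]
        rw [sum_ite_mem, sum_const, nsmul_eq_mul, mul_one]
        refine le_trans ?_ (hcE y)
        exact_mod_cast card_le_card inter_subset_right
      · simp [hy]
    refine (sum_le_sum fun y _ => this y).trans ?_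
    rw [sum_ite_mem, univ_inter, sum_const, nsmul_eq_mul, mul_comm]
  have e4 : ∑ x ∈ s.La e L u, (2 * (L - 1) - 2 * c.hX e -
      2 * ∑ y : V, (if y ∈ s.La e L u ∧ x ∈ s.E e y then (1:ℝ) else 0)) ≤
      ∑ x : V, ∑ y ∈ univ.filter (fun y => y ≠ x), (lgc s e L u x y : ℝ) := by
    refine (sum_le_sum fun x hx => e2 x hx).trans ?_
    apply sum_le_sum_of_subset_of_nonneg (subset_univ _)
    intro x _ _
    positivity
  rw [sum_sub_distrib, sum_const, nsmul_eq_mul, ← mul_sum] at e4
  push_cast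
  have : 2 * (L - 1 - 2 * c.hX e) * ((s.La e L u).card : ℝ) =
      ((s.La e L u).card : ℝ) * (2 * (L - 1) - 2 * c.hX e) - 2 * (c.hX e * ((s.La e L u).card : ℝ)) := by
    ring
  rw [this]
  linarith

/-- (G3), the charge part: reference `u ∈ X`. -/
theorem G3 {o u : V} (ho : o ∈ c.U) (hu : u ∈ c.X) (idx : V → ℕ) (hidx : Function.Injective idx) :
    ((c.src hr).NN e L u : ℝ) + 2 * (L - 1 - 2 * c.hX e) * (((c.src hr).La e L u).card : ℝ)
      + 2 * (c.U.card : ℝ) * (c.T.h : ℝ) + 2 * (∑ x ∈ c.U ∪ c.X, (c.ext hr x (c.Gd hr e L idx o x) : ℝ))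
      ≤ (g.D2 r : ℝ) + 4 * (r : ℝ) ^ 2 * L * (g.D2 r : ℝ) / e ^ 2 := by
  have hlg := b2_lg h hr (u := u)
  have hov := b2_ov h hr hu
  have hsum : ∑ x : V, ∑ y ∈ univ.filter (fun y => y ≠ x),
      ((c.src hr).near e L u x y + lgc (c.src hr) e L u x y + c.bHc x y +
      (c.xt hr (fun x => c.Gd hr e L idx o x) x y + c.xt hr (fun x => c.Gd hr e L idx o x) y x)) ≤
      ∑ x : V, ∑ y ∈ univ.filter (fun y => y ≠ x),
        ((2 * r - g.d x y) + ovc (c.src hr) e L u x y) :=
    sum_le_sum fun x _ => sum_le_sum fun y hy => b2_key h hr idx hidx (mem_filter.1 hy).2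
  have hb := b2_sum_bH (c := c)
  have hx := b1_sum_xt2 h hr (fun x => c.Gd hr e L idx o x) (fun x => b1_Gd_sub hr idx o x)
  have hD : g.D2 r = ∑ x : V, ∑ y ∈ univ.filter (fun y => y ≠ x), (2 * r - g.d x y) := rfl
  have hN : (c.src hr).NN e L u = ∑ x : V, ∑ y ∈ univ.filter (fun y => y ≠ x), (c.src hr).near e L u x y := rfl
  simp only [sum_add_distrib] at hsum hx
  rw [← hD, ← hN, hb, hx] at hsum
  have hsum' : ((c.src hr).NN e L u : ℝ) +
      ((∑ x : V, ∑ y ∈ univ.filter (fun y => y ≠ x), lgc (c.src hr) e L u x y : ℕ) : ℝ) +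
      2 * ((c.U.card : ℝ) * (c.T.h : ℝ)) +
      2 * (∑ x ∈ c.U ∪ c.X, (c.ext hr x (c.Gd hr e L idx o x) : ℝ)) ≤
      (g.D2 r : ℝ) + ((∑ x : V, ∑ y ∈ univ.filter (fun y => y ≠ x), ovc (c.src hr) e L u x y : ℕ) : ℝ) := by
    exact_mod_cast hsum
  linarith

end Core

end Pool.Agent.Wi
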