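import Pool.Agent.Wi.COREa

/-! MODULE ACCb1: the charge inequality (G1) of section 9. -/

namespace Pool.Agent.Wi

open Finset
open scoped Classical

theorem b1_swap {V : Type} [Fintype V] (f : V → V → ℕ) :
    ∑ x : V, ∑ y ∈ univ.filter (fun y => y ≠ x), f x y =
      ∑ x : V, ∑ y ∈ univ.filter (fun y => y ≠ x), f y x := by
  simp only [sum_filter]
  rw [sum_comm]
  refine sum_congr rfl fun x _ => sum_congr rfl fun y _ => ?_
  by_cases h : x = y
  · subst h; simp
  · rw [if_pos h, if_pos (Ne.symm h)]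

theorem b1_mem_hubs {V : Type} [Fintype V] {g : Geo V} {r : ℕ} (s : Src g r) {x w : V}
    {A : Finset V} : w ∈ s.hubs x A ↔ ∃ z ∈ A, z ∈ s.Z x w := by
  simp [Src.hubs]

theorem b1_hubs_E {V : Type} [Fintype V] {g : Geo V} {r : ℕ} (s : Src g r) {e L : ℝ} {x w : V}
    {A : Finset V} (hA : A ⊆ s.Sm e L x) (hw : w ∈ s.hubs x A) : w ∈ s.E e x := by
  obtain ⟨z, hz, hzw⟩ := (b1_mem_hubs s).1 hw
  exact s.Fe_hub (mem_filter.1 (hA hz)).1 hzw

namespace Core

/-- the extra hub charge of the pair `(x, y)`. -/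
noncomputable def xt {V : Type} [Fintype V] {g : Geo V} {r : ℕ} (c : Core g r) (hr : 1 ≤ r)
    (A : V → Finset V) (x y : V) : ℕ :=
  if y ∈ (c.src hr).hubs x (A x) then (2 * r - g.d x y) - (if x ∈ c.U then c.Hb y else 0) else 0

section
variable {V : Type} {g : Geo V} {r : ℕ} {c : Core g r}

theorem b1_H_U {x : V} (hx : x ∈ c.U) : c.H x = 0 := (c.HU x (mem_union_left _ hx)).2 hx

theorem b1_kap_far {x y : V} (hne : c.root x ≠ c.root y) :
    c.T.kap x y = 0 := by
  unfold LF.kap
  rw [card_eq_zero, filter_eq_empty_iff]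
  rintro k hk ⟨h1, h2, h3⟩
  apply hne
  have hk' := mem_range.1 hk
  exact c.T.anc_up h1 h2 (l := r - 1) (by omega) h3

end

variable {V : Type} [Fintype V] {g : Geo V} {r : ℕ} {c : Core g r} {e L L' β : ℝ}

theorem b1_Gd_sub (hr : 1 ≤ r) (idx : V → ℕ) (o x : V) :
    c.Gd hr e L idx o x ⊆ (c.src hr).Sm e L x := filter_subset _ _

theorem b1_disj_BX {x : V} (hx : x ∈ c.X) : x ∉ c.B := by
  have := (mem_filter.1 hx).2
  unfold B
  rw [mem_union]
  rintro (h | h)
  · exact this.1 h
  · exact this.2.1 h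

theorem b1_mem_UX_B {x : V} (hx : x ∈ c.U ∪ c.X) (hB : x ∈ c.B) : x ∈ c.U := by
  rcases mem_union.1 hx with h | h
  · exact h
  · exact absurd hB (b1_disj_BX h)

/-- `Σ BB = 2 ((b - 1) h + C)`. -/
theorem b1_sum_BB : ∑ x : V, ∑ y ∈ univ.filter (fun y => y ≠ x), c.BB x y =
    2 * ((c.B.card - 1) * c.T.h + c.T.C) := by
  have e1 : ∀ x : V, ∑ y ∈ univ.filter (fun y => y ≠ x), c.BB x y =
      if x ∈ c.B then ∑ y ∈ c.B.filter (fun y => y ≠ x), (c.H x + c.H y + 2 * c.T.kap x y) else 0 := by
    intro x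
    split_ifs with hx
    · rw [sum_filter, sum_filter, ← sum_filter_add_sum_filter_not univ (fun y => y ∈ c.B)]
      have : ∑ y ∈ univ.filter (fun y => ¬ y ∈ c.B), (if y ≠ x then c.BB x y else 0) = 0 := by
        apply sum_eq_zero
        intro y hy
        have := (mem_filter.1 hy).2
        simp [BB, this]
      rw [this, add_zero]
      apply sum_congr (by ext; simp)
      intro y hy
      by_cases hyx : y ≠ x
      · rw [if_pos hyx, if_pos hyx, BB, if_pos ⟨hyx.symm, hx, hy⟩]
      · rw [if_neg hyx, if_neg hyx]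
    · apply sum_eq_zero
      intro y _
      simp [BB, hx]
  simp only [e1]
  rw [← sum_filter]
  have e2 : univ.filter (fun x => x ∈ c.B) = c.B := by ext; simp
  rw [e2]
  simp only [sum_add_distrib, sum_const, smul_eq_mul, ← mul_sum]
  have e3 : ∑ x ∈ c.B, (c.B.filter (fun y => y ≠ x)).card * c.H x = (c.B.card - 1) * c.T.h := by
    unfold LF.h
    rw [mul_sum]
    apply sum_congr rfl
    intro x hx
    rw [filter_ne', card_erase_of_mem hx]
    rfl
  have e4 : ∑ x ∈ c.B, ∑ y ∈ c.B.filter (fun y => y ≠ x), c.H y = (c.B.card - 1) * c.T.h := by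
    rw [← e3]
    simp only [sum_filter]
    rw [sum_comm]
    apply sum_congr rfl
    intro x hx
    rw [← sum_filter, sum_const, smul_eq_mul]
    congr 2
    ext y
    simp [ne_comm]
  rw [e3, e4]
  have e5 : c.T.C = ∑ x ∈ c.B, ∑ y ∈ c.B.filter (fun y => y ≠ x), c.T.kap x y := rfl
  rw [e5]
  ring

/-- `Σ MM ≥ 2 (r b + h)`. -/
theorem b1_sum_MM : 2 * (r * c.B.card + c.T.h) ≤
    ∑ x : V, ∑ y ∈ univ.filter (fun y => y ≠ x), c.MM x y := by
  have hBM : ∀ p ∈ c.B, c.mm p ∉ c.B := by
    intro p hp hm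
    have h1 := (c.hmm p hp).1
    unfold B at hm
    rcases mem_union.1 hm with h2 | h2
    · exact disjoint_left.1 c.dUM h2 h1
    · exact disjoint_left.1 c.dWM h2 h1
  set f : V → V → ℕ := fun x y => if x ∈ c.B ∧ y = c.mm x then 2 * r - g.d x y else 0 with hf
  have e1 : ∑ x : V, ∑ y ∈ univ.filter (fun y => y ≠ x), f x y = r * c.B.card + c.T.h := by
    have e2 : ∀ x : V, ∑ y ∈ univ.filter (fun y => y ≠ x), f x y = if x ∈ c.B then r + c.H x else 0 := by
      intro x
      split_ifs with hx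
      · rw [sum_eq_single (c.mm x)]
        · rw [hf]
          beta_reduce
          rw [if_pos ⟨hx, rfl⟩]
          have := (c.hmm x hx).2
          omega
        · intro y _ hy
          rw [hf]
          simp only
          rw [if_neg (fun hh => hy hh.2)]
        · intro hh
          exfalso
          apply hh
          rw [mem_filter]
          refine ⟨mem_univ _, ?_⟩
          intro he
          exact hBM x hx (by rw [he]; exact hx)
      · apply sum_eq_zero
        intro y _
        rw [hf]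
        simp only
        rw [if_neg (fun hh => hx hh.1)]
    simp only [e2]
    rw [← sum_filter]
    have e3 : univ.filter (fun x => x ∈ c.B) = c.B := by ext; simp
    rw [e3, sum_add_distrib, sum_const, smul_eq_mul, mul_comm]
    rfl
  have e4 : ∑ x : V, ∑ y ∈ univ.filter (fun y => y ≠ x), (f x y + f y x) =
      2 * (r * c.B.card + c.T.h) := by
    simp only [sum_add_distrib]
    rw [← b1_swap f, e1]
    ring
  rw [← e4]
  refine sum_le_sum fun x _ => sum_le_sum fun y _ => ?_
  rw [hf]
  simp only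
  unfold MM
  by_cases h1 : x ∈ c.B ∧ y = c.mm x
  · rw [if_pos h1, if_pos (Or.inl h1)]
    rw [if_neg, add_zero]
    rintro ⟨h2, _⟩
    exact hBM x h1.1 (h1.2 ▸ h2)
  · rw [if_neg h1, zero_add]
    by_cases h2 : y ∈ c.B ∧ x = c.mm y
    · rw [if_pos h2, if_pos (Or.inr h2), g.symm]
    · rw [if_neg h2]
      exact Nat.zero_le _

variable (h : c.Hyp e L L' β) (hr : 1 ≤ r)
include h

theorem b1_sum_xt (A : V → Finset V) (hA : ∀ x, A x ⊆ (c.src hr).Sm e L x) (x : V) :
    ∑ y ∈ univ.filter (fun y => y ≠ x), c.xt hr A x y = c.ext hr x (A x) := by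
  unfold xt ext
  rw [sum_ite_mem]
  congr 1
  apply inter_eq_right.2
  intro w hw
  rw [mem_filter]
  refine ⟨mem_univ _, ?_⟩
  rintro rfl
  have := E_src h hr (b1_hubs_E _ (hA w) hw)
  rw [g.dself] at this
  omega

/-- sums of the extra hub charges over ordered pairs -/
theorem b1_sum_xt2 (A : V → Finset V) (hA : ∀ x, A x ⊆ (c.src hr).Sm e L x) :
    ∑ x : V, ∑ y ∈ univ.filter (fun y => y ≠ x), (c.xt hr A x y + c.xt hr A y x) =
      2 * ∑ x ∈ c.U ∪ c.X, c.ext hr x (A x) := by
  simp only [sum_add_distrib]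
  rw [← b1_swap (fun x y => c.xt hr A x y)]
  simp only [b1_sum_xt h hr A hA]
  have : ∑ x ∈ c.U ∪ c.X, c.ext hr x (A x) = ∑ x : V, c.ext hr x (A x) := by
    apply sum_subset (subset_univ _)
    intro x _ hx
    unfold ext
    apply sum_eq_zero
    intro w hw
    exact absurd (E_src h hr (b1_hubs_E _ (hA x) hw)).1 hx
  rw [this]
  ring

/-- at most one of the two hub charges of a pair is present. -/
theorem b1_excl {o : V} (idx : V → ℕ) (hidx : Function.Injective idx) {x y : V}
    (h1 : y ∈ (c.src hr).hubs x (c.Gd hr e L idx o x))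
    (h2 : x ∈ (c.src hr).hubs y (c.Gd hr e L idx o y)) : x = y := by
  obtain ⟨z, hz, hzw⟩ := (b1_mem_hubs _).1 h1
  obtain ⟨z', hz', hzw'⟩ := (b1_mem_hubs _).1 h2
  have e1 := b1_hubs_E _ (b1_Gd_sub hr idx o x) h1
  have e2 := b1_hubs_E _ (b1_Gd_sub hr idx o y) h2
  have n1 := ((mem_filter.1 hz).2 y hzw).2
  have n2 := ((mem_filter.1 hz').2 x hzw').2
  apply hidx
  by_contra hne
  rcases lt_or_gt_of_ne hne with hlt | hlt
  · exact n1 ⟨e2, hlt⟩
  · exact n2 ⟨e1, hlt⟩

/-- the base charge of a good hub pair. -/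
theorem b1_base {o : V} (idx : V → ℕ) {x y : V}
    (h1 : y ∈ (c.src hr).hubs x (c.Gd hr e L idx o x)) :
    c.MM x y = 0 ∧ c.NX hr e L o x y = 0 ∧ c.BB x y = (if x ∈ c.U then c.Hb y else 0) := by
  obtain ⟨z, hz, hzw⟩ := (b1_mem_hubs _).1 h1
  obtain ⟨s1, s2, s3⟩ := E_src h hr (b1_hubs_E _ (b1_Gd_sub hr idx o x) h1)
  have n1 := ((mem_filter.1 hz).2 y hzw).1
  unfold Bad at n1
  push Not at n1
  obtain ⟨n2, n3⟩ := n1
  have hne : x ≠ y := by
    rintro rfl
    rw [g.dself] at s2
    omega
  refine ⟨?_, by omega, ?_⟩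
  · unfold MM
    rw [if_neg]
    rintro (⟨a, b⟩ | ⟨a, b⟩)
    · have := (c.hmm x a).2
      rw [← b] at this
      omega
    · have := (c.hmm y a).2
      rw [← b, g.symm] at this
      omega
  · unfold BB Hb
    by_cases hxU : x ∈ c.U
    · have hxB : x ∈ c.B := mem_union_left _ hxU
      rw [if_pos hxU]
      by_cases hyB : y ∈ c.B
      · rw [if_pos ⟨hne, hxB, hyB⟩, if_pos hyB, b1_H_U hxU, b1_kap_far (Ne.symm (n2 hxU hyB))]
        ring
      · rw [if_neg (fun hh => hyB hh.2.2), if_neg hyB]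
    · rw [if_neg hxU]
      rw [if_neg]
      rintro ⟨-, hxB, -⟩
      exact hxU (b1_mem_UX_B s1 hxB)

/-- (G1) -/
theorem G1 {o : V} (ho : o ∈ c.U) (idx : V → ℕ) (hidx : Function.Injective idx) :
    2 * ((c.B.card - 1) * c.T.h + c.T.C) + 2 * (r * c.B.card + c.T.h) + c.NNX hr e L o
      + 2 * (∑ x ∈ c.U ∪ c.X, c.ext hr x (c.Gd hr e L idx o x)) + c.Un hr e L o ≤ g.D2 r := by
  set A : V → Finset V := fun x => c.Gd hr e L idx o x with hA
  have hAs : ∀ x, A x ⊆ (c.src hr).Sm e L x := fun x => b1_Gd_sub hr idx o x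
  have key : ∀ x y : V, y ≠ x → c.BB x y + c.MM x y + c.NX hr e L o x y
      + (c.xt hr A x y + c.xt hr A y x) + (c.src hr).unc e (c.bb hr e L o) x y ≤ 2 * r - g.d x y := by
    intro x y hyx
    have hbb := bb_le h hr o x y ho hyx.symm
    unfold bb at hbb
    have hBB := BB_le h x y
    by_cases h1 : y ∈ (c.src hr).hubs x (A x)
    · have h2 : x ∉ (c.src hr).hubs y (A y) := fun h2 => hyx (b1_excl h hr idx hidx h1 h2).symm
      have hE := b1_hubs_E _ (hAs x) h1
      obtain ⟨b1, b2, b3⟩ := b1_base h hr idx h1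
      have x1 : c.xt hr A x y = (2 * r - g.d x y) - c.BB x y := by
        unfold xt
        rw [if_pos h1, b3]
      have x2 : c.xt hr A y x = 0 := by unfold xt; rw [if_neg h2]
      have x3 : (c.src hr).unc e (c.bb hr e L o) x y = 0 := by
        unfold Src.unc
        rw [if_pos (Or.inl hE)]
      rw [x1, x2, x3, b1, b2]
      omega
    · have x1 : c.xt hr A x y = 0 := by unfold xt; rw [if_neg h1]
      by_cases h2 : x ∈ (c.src hr).hubs y (A y)
      · have hE := b1_hubs_E _ (hAs y) h2
        obtain ⟨b1, b2, b3⟩ := b1_base h hr idx h2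
        have hsymBB : c.BB y x = c.BB x y := by
          have hb := bb_symm h hr o x y
          have hn := NX_symm h hr o x y
          have hm : c.MM x y = c.MM y x := by
            unfold MM
            rw [g.symm x y]
            congr 1
            rw [or_comm]
          unfold bb at hb
          omega
        have hm : c.MM x y = 0 := by
          have hb := bb_symm h hr o x y
          have hn := NX_symm h hr o x y
          unfold bb at hb
          omega
        have hn : c.NX hr e L o x y = 0 := by rw [NX_symm h hr]; exact b2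
        have x2 : c.xt hr A y x = (2 * r - g.d x y) - c.BB x y := by
          unfold xt
          rw [if_pos h2, ← b3, g.symm y x, hsymBB]
        have x3 : (c.src hr).unc e (c.bb hr e L o) x y = 0 := by
          unfold Src.unc
          rw [if_pos (Or.inr hE)]
        rw [x1, x2, x3, hm, hn]
        omega
      · have x2 : c.xt hr A y x = 0 := by unfold xt; rw [if_neg h2]
        have x3 : (c.src hr).unc e (c.bb hr e L o) x y ≤ (2 * r - g.d x y) -
            (c.BB x y + c.MM x y + c.NX hr e L o x y) := by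
          unfold Src.unc bb
          split_ifs
          · exact Nat.zero_le _
          · exact le_rfl
        rw [x1, x2]
        omega
  have hsum : ∑ x : V, ∑ y ∈ univ.filter (fun y => y ≠ x), (c.BB x y + c.MM x y + c.NX hr e L o x y
      + (c.xt hr A x y + c.xt hr A y x) + (c.src hr).unc e (c.bb hr e L o) x y) ≤ g.D2 r := by
    unfold Geo.D2
    refine sum_le_sum fun x _ => sum_le_sum fun y hy => key x y (mem_filter.1 hy).2
  have hMM := b1_sum_MM (c := c)
  have hxt := b1_sum_xt2 h hr A hAs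
  have hBB := b1_sum_BB (c := c)
  rw [show c.NNX hr e L o = ∑ p : V, ∑ q ∈ univ.filter (fun q => q ≠ p), c.NX hr e L o p q from rfl,
    show c.Un hr e L o = ∑ x : V, ∑ y ∈ univ.filter (fun y => y ≠ x),
      (c.src hr).unc e (c.bb hr e L o) x y from rfl, ← hBB, ← hxt]
  refine le_trans ?_ hsum
  simp only [sum_add_distrib] at hMM hsum ⊢
  omega

end Core

end Pool.Agent.Wi
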