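import Pool.Agent.Wi.COREa

/-! MODULE COREc2: (8.4) inefficient targets, (8.5) large classes of the blueprint. -/

namespace Pool.Agent.Wi

open Finset
open scoped Classical

/-- the number of Type I quadruples. -/
private theorem Q_card' {V : Type} [Fintype V] {g : Geo V} {r : ℕ} (s : Src g r) :
    s.Q.card = ∑ u : V, ∑ w : V, (s.Z u w).card * (s.Z w u).card := by
  have h : s.Q = (univ : Finset V).biUnion (fun u => (univ : Finset V).biUnion (fun w =>
      (s.Z w u ×ˢ s.Z u w).image (fun p => (u, w, p.1, p.2)))) := by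
    ext ⟨u, w, y, z⟩
    simp only [Src.Q, mem_filter, mem_univ, true_and, mem_biUnion, mem_image, mem_product,
      Prod.mk.injEq, Prod.exists]
    constructor
    · rintro ⟨h1, h2⟩
      exact ⟨u, w, y, z, ⟨h2, h1⟩, rfl, rfl, rfl, rfl⟩
    · rintro ⟨u', w', y', z', ⟨h1, h2⟩, rfl, rfl, rfl, rfl⟩
      exact ⟨h2, h1⟩
  rw [h, card_biUnion]
  · refine sum_congr rfl fun u _ => ?_
    rw [card_biUnion]
    · refine sum_congr rfl fun w _ => ?_
      rw [card_image_of_injective, card_product, mul_comm]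
      rintro ⟨a, b⟩ ⟨a', b'⟩ hab
      simp only [Prod.mk.injEq, true_and] at hab
      exact Prod.ext hab.1 hab.2
    · intro w _ w' _ hne
      rw [Function.onFun, disjoint_left]
      intro q hq hq'
      obtain ⟨p, -, rfl⟩ := mem_image.1 hq
      obtain ⟨p', -, hp'⟩ := mem_image.1 hq'
      simp only [Prod.mk.injEq] at hp'
      exact hne hp'.2.1.symm
  · intro u _ u' _ hne
    rw [Function.onFun, disjoint_left]
    intro q hq hq'
    obtain ⟨w, -, hq⟩ := mem_biUnion.1 hq
    obtain ⟨w', -, hq'⟩ := mem_biUnion.1 hq'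
    obtain ⟨p, -, rfl⟩ := mem_image.1 hq
    obtain ⟨p', -, hp'⟩ := mem_image.1 hq'
    simp only [Prod.mk.injEq] at hp'
    exact hne hp'.1.symm

namespace Core
variable {V : Type} [Fintype V] {g : Geo V} {r : ℕ} {c : Core g r} {e L L' β : ℝ} (h : c.Hyp e L L' β) (hr : 1 ≤ r)

private theorem not_B_of_X {x : V} (hx : x ∈ c.X) : x ∉ c.B := by
  unfold Core.X at hx
  rw [mem_filter] at hx
  intro hB
  unfold Core.B at hB
  rcases mem_union.1 hB with h1 | h1
  · exact hx.2.1 h1
  · exact hx.2.2.1 h1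

include h

/-- the base charge of an inefficient hub vanishes. -/
private theorem ineff_aux {o : V} (ho : o ∈ c.U) {x z : V} (hz : z ∈ (c.src hr).F x)
    (hz2 : z ∉ (c.src hr).Fe e x) :
    z ∈ (c.src hr).Z x (g.P z x 1) ∧ g.P z x 1 ∉ (c.src hr).E e x ∧ g.P z x 1 ≠ x ∧
      (2 * r - g.d x (g.P z x 1)) - c.bb hr e L o x (g.P z x 1) = 1 := by
  have hr2 := h.hr2
  obtain ⟨f1, f2, f3, f4⟩ := F_sub h hr hz
  have hzx : g.d z x = 2 * r := by rw [g.symm]; exact f4
  have hFe : (c.src hr).kk x z ≠ 1 ∧ g.P z x 1 ∉ (c.src hr).E e x := by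
    constructor
    · intro h1
      exact hz2 (mem_filter.2 ⟨hz, Or.inl h1⟩)
    · intro h1
      exact hz2 (mem_filter.2 ⟨hz, Or.inr h1⟩)
  have hk := (c.src hr).hk1 x z hz
  set w := g.P z x 1 with hw
  have hdw : g.d w x = 2 * r - 1 := by
    have := g.dr z x 1 (by omega)
    rw [← hw, hzx] at this
    exact this
  have hdw' : g.d x w = 2 * r - 1 := by rw [g.symm]; exact hdw
  have h1 : 2 * r - g.d x w = 1 := by omega
  have hZ : z ∈ (c.src hr).Z x w := by
    rw [Src.mem_Z]
    refine ⟨hz, by omega, by omega, ?_, ?_⟩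
    · rw [h1]; omega
    · rw [h1]
  have hwx : w ≠ x := by
    intro he
    rw [he, g.dself] at hdw
    omega
  refine ⟨hZ, hFe.2, hwx, ?_⟩
  have hbb := bb_le h hr o x w ho hwx.symm
  have hNX : c.NX hr e L o x w = 0 := by
    by_contra hne
    have h2 := (NX_pos h hr o x w ho (Nat.pos_of_ne_zero hne)).1
    unfold Core.bb at hbb
    omega
  have hMM : c.MM x w = 0 := by
    unfold Core.MM
    rw [if_neg]
    rintro (⟨ha, hb⟩ | ⟨ha, hb⟩)
    · have := (c.hmm x ha).2
      rw [← hb] at this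
      omega
    · have := (c.hmm w ha).2
      rw [← hb] at this
      omega
  have hBB : c.BB x w = 0 := by
    unfold Core.BB
    split_ifs with hh
    · obtain ⟨-, hxB, hwB⟩ := hh
      have hxU : x ∈ c.U := by
        rcases mem_union.1 f1 with h2 | h2
        · exact h2
        · exact absurd hxB (not_B_of_X h2)
      have hHx : c.H x = 0 := (c.HU x hxB).2 hxU
      have hble := BB_le h x w
      unfold Core.BB at hble
      rw [if_pos ⟨hwx.symm, hxB, hwB⟩] at hble
      have hkap : c.T.kap x w = 0 := by omega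
      have hHw : c.H w ≤ 1 := by omega
      rcases Nat.lt_or_ge (c.H w) 1 with h3 | h3
      · omega
      · exfalso
        have hHw1 : c.H w = 1 := by omega
        have hroot : c.root w ≠ c.root x := by
          intro he
          have : r - 1 ∈ (range r).filter (fun k => c.T.lev x ≤ k ∧ c.T.lev w ≤ k ∧ c.T.anc x k = c.T.anc w k) := by
            rw [mem_filter, mem_range]
            refine ⟨by omega, ?_, ?_, he.symm⟩
            · show c.H x ≤ r - 1
              omega
            · show c.H w ≤ r - 1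
              omega
          have h4 : c.T.kap x w ≠ 0 := by
            unfold LF.kap
            exact card_ne_zero_of_mem this
          exact h4 hkap
        have hreg : c.Reg x w := ⟨hwB, hroot, by omega⟩
        apply hFe.1
        show (if x ∈ c.U then c.kh x z else r) = 1
        rw [if_pos hxU]
        by_contra hne
        have hkh : 1 < c.kh x z := by
          have := c.one_le_kh hr x z
          omega
        exact c.kh_min (v := x) (x := z) (k := 1) le_rfl hkh ⟨hreg, hHw1⟩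
    · rfl
  unfold Core.bb
  rw [hNX, hMM, hBB, h1]

/-- (8.4) inefficient targets. -/
theorem ineff {o : V} (ho : o ∈ c.U) :
    (∑ x : V, ((((c.src hr).F x) \ ((c.src hr).Fe e x)).card : ℝ)) ≤ e * (c.Un hr e L o : ℝ) + ((c.src hr).Q.card : ℝ) / e := by
  have he : 0 < e := by linarith [h.he]
  set s := c.src hr with hs
  -- the inefficient hubs
  let I : V → Finset V := fun x => univ.filter (fun w => w ≠ x ∧ (s.Z x w).Nonempty ∧
    w ∉ s.E e x ∧ (2 * r - g.d x w) - c.bb hr e L o x w = 1)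
  have hsub : ∀ x, s.F x \ s.Fe e x ⊆ (I x).biUnion (fun w => s.Z x w) := by
    intro x z hz
    rw [mem_sdiff] at hz
    obtain ⟨h1, h2, h3, h4⟩ := ineff_aux h hr ho hz.1 hz.2
    rw [mem_biUnion]
    exact ⟨g.P z x 1, mem_filter.2 ⟨mem_univ _, h3, ⟨z, h1⟩, h2, h4⟩, h1⟩
  have hcard : ∀ x, ((s.F x \ s.Fe e x).card : ℝ) ≤ ∑ w ∈ I x, ((s.Z x w).card : ℝ) := by
    intro x
    have h1 := (card_le_card (hsub x)).trans card_biUnion_le
    exact_mod_cast h1
  have hpair : ∀ x, ∀ w ∈ I x, ((s.Z x w).card : ℝ) ≤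
      e * (s.unc e (c.bb hr e L o) x w : ℝ) + ((s.Z x w).card : ℝ) * ((s.Z w x).card : ℝ) / e := by
    intro x w hw
    obtain ⟨-, h1, h2, h3, h4⟩ := mem_filter.1 hw
    have hlt : ((s.Z x w).card : ℝ) < e := by
      by_contra hge
      push Not at hge
      exact h3 (mem_filter.2 ⟨mem_univ _, h2, hge⟩)
    have hnn : (0 : ℝ) ≤ ((s.Z x w).card : ℝ) * ((s.Z w x).card : ℝ) / e := by positivity
    by_cases hx : x ∈ s.E e w
    · have h5 : e ≤ ((s.Z w x).card : ℝ) := (mem_filter.1 hx).2.2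
      have h6 : ((s.Z x w).card : ℝ) ≤ ((s.Z x w).card : ℝ) * ((s.Z w x).card : ℝ) / e := by
        rw [le_div_iff₀ he]
        exact mul_le_mul_of_nonneg_left h5 (by positivity)
      have h7 : (0 : ℝ) ≤ e * (s.unc e (c.bb hr e L o) x w : ℝ) := by positivity
      linarith
    · have h5 : s.unc e (c.bb hr e L o) x w = 1 := by
        unfold Src.unc
        rw [if_neg (by tauto), h4]
      rw [h5]
      push_cast
      linarith
  have hQ : ((s.Q.card : ℕ) : ℝ) = ∑ x : V, ∑ w : V, ((s.Z x w).card : ℝ) * ((s.Z w x).card : ℝ) := by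
    rw [Q_card']
    push_cast
    rfl
  have hUn : (∑ x : V, ∑ w ∈ I x, (s.unc e (c.bb hr e L o) x w : ℝ)) ≤ (c.Un hr e L o : ℝ) := by
    unfold Core.Un Src.Unc
    push_cast
    refine sum_le_sum fun x _ => ?_
    refine sum_le_sum_of_subset_of_nonneg ?_ (fun _ _ _ => by positivity)
    intro w hw
    rw [mem_filter] at hw ⊢
    exact ⟨mem_univ _, hw.2.1⟩
  calc (∑ x : V, ((s.F x \ s.Fe e x).card : ℝ))
      ≤ ∑ x : V, ∑ w ∈ I x, ((s.Z x w).card : ℝ) := sum_le_sum fun x _ => hcard x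
    _ ≤ ∑ x : V, ∑ w ∈ I x, (e * (s.unc e (c.bb hr e L o) x w : ℝ) +
          ((s.Z x w).card : ℝ) * ((s.Z w x).card : ℝ) / e) :=
        sum_le_sum fun x _ => sum_le_sum fun w hw => hpair x w hw
    _ = e * (∑ x : V, ∑ w ∈ I x, (s.unc e (c.bb hr e L o) x w : ℝ)) +
          (∑ x : V, ∑ w ∈ I x, ((s.Z x w).card : ℝ) * ((s.Z w x).card : ℝ)) / e := by
        rw [mul_sum, sum_div, ← sum_add_distrib]
        refine sum_congr rfl fun x _ => ?_
        rw [mul_sum, sum_div, ← sum_add_distrib]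
    _ ≤ e * (c.Un hr e L o : ℝ) + (s.Q.card : ℝ) / e := by
        refine add_le_add (mul_le_mul_of_nonneg_left hUn he.le) ?_
        refine div_le_div_of_nonneg_right ?_ he.le
        rw [hQ]
        refine sum_le_sum fun x _ => ?_
        exact sum_le_sum_of_subset_of_nonneg (subset_univ _) (fun _ _ _ => by positivity)

/-- (8.5) large classes. -/
theorem large {o : V} (ho : o ∈ c.U) :
    2 * (L - 1 - 2 * c.hX e) * (((c.src hr).La e L o).card : ℝ) ≤ (c.Un hr e L o : ℝ) := by
  set s := c.src hr with hs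
  set A := s.La e L o with hA
  let Cc : V → Finset V := fun p => (s.Cl e o (s.cls o p)).erase p
  have hAF : ∀ p ∈ A, p ∈ s.Fe e o ∧ L < ((s.Cl e o (s.cls o p)).card : ℝ) := fun p hp => mem_filter.1 hp
  have hX : ∀ p, p ∈ s.Fe e o → p ∈ c.X := by
    intro p hp
    have hpF : p ∈ s.F o := (mem_filter.1 hp).1
    exact (F_sub h hr hpF).2.2.1 ho
  -- members of the class of a point of A are again in A
  have hcl : ∀ p ∈ A, ∀ q ∈ Cc p, q ∈ A ∧ q ≠ p ∧ s.cls o q = s.cls o p := by
    intro p hp q hq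
    obtain ⟨h1, h2⟩ := mem_erase.1 hq
    obtain ⟨h3, h4⟩ := mem_filter.1 h2
    refine ⟨?_, h1, h4⟩
    rw [hA]
    refine mem_filter.2 ⟨h3, ?_⟩
    rw [h4]
    exact (hAF p hp).2
  -- uncharged part
  have hunc : ∀ p ∈ A, ∀ q ∈ Cc p, (2 : ℝ) - 2 * (if q ∈ s.E e p then 1 else 0) - 2 * (if p ∈ s.E e q then 1 else 0) ≤
      (s.unc e (c.bb hr e L o) p q : ℝ) := by
    intro p hp q hq
    obtain ⟨hqA, hne, hcq⟩ := hcl p hp q hq
    by_cases hE : q ∈ s.E e p ∨ p ∈ s.E e q
    · have h0 : (0 : ℝ) ≤ (s.unc e (c.bb hr e L o) p q : ℝ) := by positivity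
      rcases hE with h1 | h1
      · rw [if_pos h1]
        split_ifs <;> linarith
      · rw [if_pos h1]
        split_ifs <;> linarith
    · have hpX := hX p (hAF p hp).1
      have hqX := hX q (hAF q hqA).1
      have hpB := not_B_of_X hpX
      have hqB := not_B_of_X hqX
      have hpU : p ∉ c.U := fun hh => hpB (mem_union_left _ hh)
      have hpS : p ∉ s.Sm e L o := by
        intro hh
        have := (mem_filter.1 hh).2
        linarith [(hAF p hp).2]
      have hbb : c.bb hr e L o p q = 0 := by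
        have e1 : c.BB p q = 0 := by
          unfold Core.BB
          rw [if_neg]
          rintro ⟨-, h1, -⟩
          exact hpB h1
        have e2 : c.MM p q = 0 := by
          unfold Core.MM
          rw [if_neg]
          rintro (⟨h1, -⟩ | ⟨h1, -⟩)
          · exact hpB h1
          · exact hqB h1
        have e3 : c.NX hr e L o p q = 0 := by
          unfold Core.NX
          rw [if_neg]
          rintro ⟨-, h1, -⟩
          rcases h1 with h1 | h1
          · exact hpU h1
          · exact hpS h1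
        unfold Core.bb
        rw [e1, e2, e3]
      have hd : g.d p q ≤ 2 * (r - 1) :=
        s.cls_dist hr (mem_filter.1 (hAF p hp).1).1 (mem_filter.1 (hAF q hqA).1).1 hcq.symm
      have h2 : 2 ≤ s.unc e (c.bb hr e L o) p q := by
        unfold Src.unc
        rw [if_neg hE, hbb]
        omega
      have h3 : (2 : ℝ) ≤ (s.unc e (c.bb hr e L o) p q : ℝ) := by exact_mod_cast h2
      push Not at hE
      rw [if_neg hE.1, if_neg hE.2]
      linarith
  -- sum of the first type of exceptions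
  have hE1 : ∀ p, (∑ q ∈ Cc p, (if q ∈ s.E e p then (1 : ℝ) else 0)) ≤ c.hX e := by
    intro p
    rw [← sum_filter, sum_const, nsmul_eq_mul, mul_one]
    refine le_trans ?_ (card_E_X h hr p)
    have : ((Cc p).filter (fun q => q ∈ s.E e p)) ⊆ s.E e p := fun q hq => (mem_filter.1 hq).2
    exact_mod_cast card_le_card this
  have hE2 : (∑ p ∈ A, ∑ q ∈ Cc p, (if p ∈ s.E e q then (1 : ℝ) else 0)) ≤ (A.card : ℝ) * c.hX e := by
    have h1 : (∑ p ∈ A, ∑ q ∈ Cc p, (if p ∈ s.E e q then (1 : ℝ) else 0)) ≤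
        ∑ p ∈ A, ∑ q ∈ A, (if p ∈ s.E e q then (1 : ℝ) else 0) := by
      refine sum_le_sum fun p hp => ?_
      refine sum_le_sum_of_subset_of_nonneg (fun q hq => (hcl p hp q hq).1) ?_
      intro q _ _
      split_ifs <;> norm_num
    refine h1.trans ?_
    rw [sum_comm]
    have h2 : ∀ q ∈ A, (∑ p ∈ A, (if p ∈ s.E e q then (1 : ℝ) else 0)) ≤ c.hX e := by
      intro q _
      rw [← sum_filter, sum_const, nsmul_eq_mul, mul_one]
      refine le_trans ?_ (card_E_X h hr q)
      have : (A.filter (fun p => p ∈ s.E e q)) ⊆ s.E e q := fun p hp => (mem_filter.1 hp).2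
      exact_mod_cast card_le_card this
    refine (sum_le_sum h2).trans ?_
    rw [sum_const, nsmul_eq_mul]
  -- size of the classes
  have hsize : ∀ p ∈ A, L - 1 ≤ ((Cc p).card : ℝ) := by
    intro p hp
    have hpc : p ∈ s.Cl e o (s.cls o p) := mem_filter.2 ⟨(hAF p hp).1, rfl⟩
    have h1 : ((Cc p).card : ℝ) = ((s.Cl e o (s.cls o p)).card : ℝ) - 1 := by
      have := card_erase_add_one hpc
      have h2 : ((Cc p).card : ℝ) + 1 = ((s.Cl e o (s.cls o p)).card : ℝ) := by exact_mod_cast this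
      linarith
    rw [h1]
    linarith [(hAF p hp).2]
  have hUn : (∑ p ∈ A, ∑ q ∈ Cc p, (s.unc e (c.bb hr e L o) p q : ℝ)) ≤ (c.Un hr e L o : ℝ) := by
    unfold Core.Un Src.Unc
    push_cast
    refine le_trans ?_ (sum_le_sum_of_subset_of_nonneg (subset_univ A) ?_)
    · refine sum_le_sum fun p hp => ?_
      refine sum_le_sum_of_subset_of_nonneg ?_ (fun _ _ _ => by positivity)
      intro q hq
      exact mem_filter.2 ⟨mem_univ _, (hcl p hp q hq).2.1⟩
    · intro p _ _
      positivity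
  have hmain : (∑ p ∈ A, ∑ q ∈ Cc p, ((2 : ℝ) - 2 * (if q ∈ s.E e p then 1 else 0) - 2 * (if p ∈ s.E e q then 1 else 0))) ≤
      ∑ p ∈ A, ∑ q ∈ Cc p, (s.unc e (c.bb hr e L o) p q : ℝ) :=
    sum_le_sum fun p hp => sum_le_sum fun q hq => hunc p hp q hq
  have hlow : 2 * (L - 1 - 2 * c.hX e) * (A.card : ℝ) ≤
      ∑ p ∈ A, ∑ q ∈ Cc p, ((2 : ℝ) - 2 * (if q ∈ s.E e p then 1 else 0) - 2 * (if p ∈ s.E e q then 1 else 0)) := by
    have e1 : (∑ p ∈ A, ∑ q ∈ Cc p, ((2 : ℝ) - 2 * (if q ∈ s.E e p then 1 else 0) - 2 * (if p ∈ s.E e q then 1 else 0))) =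
        (∑ p ∈ A, 2 * ((Cc p).card : ℝ)) - 2 * (∑ p ∈ A, ∑ q ∈ Cc p, (if q ∈ s.E e p then (1 : ℝ) else 0))
          - 2 * (∑ p ∈ A, ∑ q ∈ Cc p, (if p ∈ s.E e q then (1 : ℝ) else 0)) := by
      rw [mul_sum, mul_sum, ← sum_sub_distrib, ← sum_sub_distrib]
      refine sum_congr rfl fun p _ => ?_
      rw [sum_sub_distrib, sum_sub_distrib, sum_const, nsmul_eq_mul, mul_sum, mul_sum]
      ring
    rw [e1]
    have e2 : (∑ p ∈ A, 2 * (L - 1)) ≤ ∑ p ∈ A, 2 * ((Cc p).card : ℝ) :=
      sum_le_sum fun p hp => by linarith [hsize p hp]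
    have e3 : (∑ p ∈ A, ∑ q ∈ Cc p, (if q ∈ s.E e p then (1 : ℝ) else 0)) ≤ (A.card : ℝ) * c.hX e := by
      refine (sum_le_sum fun p _ => hE1 p).trans ?_
      rw [sum_const, nsmul_eq_mul]
    rw [sum_const, nsmul_eq_mul] at e2
    nlinarith [e2, e3, hE2]
  linarith

end Core

end Pool.Agent.Wi
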