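import Pool.Agent.Wi.COREb
import Pool.Agent.Wi.COREc

/-! MODULE ACCc: missing targets (blueprint (9.6)). -/

namespace Pool.Agent.Wi

open Finset
open scoped Classical

namespace Core
variable {V : Type} [Fintype V] {g : Geo V} {r : ℕ} {c : Core g r} {e L L' β : ℝ} (h : c.Hyp e L L' β) (hr : 1 ≤ r)
include h

omit h in
/-- a target of `x` is good, inefficient, in a large class, mutual or of Type II. -/
theorem target_split {o x z : V} (hz : z ∈ (c.src hr).F x) (idx : V → ℕ) :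
    z ∈ c.Gd hr e L idx o x ∨ z ∈ ((c.src hr).F x) \ ((c.src hr).Fe e x) ∨ z ∈ (c.src hr).La e L x ∨
    z ∈ ((c.src hr).F x).filter (fun z => ∃ w, z ∈ (c.src hr).Z x w ∧ x ∈ (c.src hr).E e w) ∨
    z ∈ ((c.src hr).F x).filter (fun z => ∃ w, w ∈ (c.src hr).E e x ∧ z ∈ (c.src hr).Z x w ∧ c.Bad hr e L o x w) := by
  by_cases hFe : z ∈ (c.src hr).Fe e x
  · by_cases hLa : L < (((c.src hr).Cl e x ((c.src hr).cls x z)).card : ℝ)
    · right; right; left
      exact mem_filter.2 ⟨hFe, hLa⟩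
    · have hSm : z ∈ (c.src hr).Sm e L x := mem_filter.2 ⟨hFe, not_lt.1 hLa⟩
      by_cases hG : ∀ w, z ∈ (c.src hr).Z x w → ¬ c.Bad hr e L o x w ∧ ¬ (x ∈ (c.src hr).E e w ∧ idx x < idx w)
      · left
        exact mem_filter.2 ⟨hSm, hG⟩
      · push Not at hG
        obtain ⟨w, hw, hw2⟩ := hG
        by_cases hB : c.Bad hr e L o x w
        · right; right; right; right
          exact mem_filter.2 ⟨hz, w, (c.src hr).Fe_hub hFe hw, hw, hB⟩
        · right; right; right; left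
          exact mem_filter.2 ⟨hz, w, hw, (hw2 hB).1⟩
  · right; left
    exact mem_sdiff.2 ⟨hz, hFe⟩

theorem miss_U {o v : V} (hv : v ∈ c.U) (idx : V → ℕ) :
    (c.X.filter (fun x => x ∉ c.Gd hr e L idx o v ∧ x ∉ (c.src hr).hubs v (c.Gd hr e L idx o v))).card ≤
      (c.X.filter (fun x => g.d v x < 2 * r)).card + (((c.src hr).F v) \ ((c.src hr).Fe e v)).card
      + ((c.src hr).La e L v).card
      + (((c.src hr).F v).filter (fun z => ∃ w, z ∈ (c.src hr).Z v w ∧ v ∈ (c.src hr).E e w)).card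
      + (((c.src hr).F v).filter (fun z => ∃ w, w ∈ (c.src hr).E e v ∧ z ∈ (c.src hr).Z v w ∧ c.Bad hr e L o v w)).card := by
  refine le_trans (card_le_card (t := c.X.filter (fun x => g.d v x < 2 * r) ∪
    (((c.src hr).F v) \ ((c.src hr).Fe e v)) ∪ ((c.src hr).La e L v) ∪
    (((c.src hr).F v).filter (fun z => ∃ w, z ∈ (c.src hr).Z v w ∧ v ∈ (c.src hr).E e w)) ∪
    (((c.src hr).F v).filter (fun z => ∃ w, w ∈ (c.src hr).E e v ∧ z ∈ (c.src hr).Z v w ∧ c.Bad hr e L o v w))) ?_) ?_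
  · intro x hx
    obtain ⟨hxX, hx1, _⟩ := mem_filter.1 hx
    by_cases hd : g.d v x < 2 * r
    · simp only [mem_union]
      left; left; left; left
      exact mem_filter.2 ⟨hxX, hd⟩
    · have hd2 : g.d v x = 2 * r := le_antisymm (h.diam v x) (not_lt.1 hd)
      have hF : x ∈ (c.src hr).F v := by
        show x ∈ (if v ∈ c.U then c.X.filter (fun z => g.d v z = 2 * r)
          else if v ∈ c.X then (c.U ∪ c.X).filter (fun z => g.d v z = 2 * r) else ∅)
        rw [if_pos hv]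
        exact mem_filter.2 ⟨hxX, hd2⟩
      rcases target_split hr (o := o) hF idx with h1 | h1 | h1 | h1 | h1
      · exact absurd h1 hx1
      · simp only [mem_union]; left; left; left; right; exact h1
      · simp only [mem_union]; left; left; right; exact h1
      · simp only [mem_union]; left; right; exact h1
      · simp only [mem_union]; right; exact h1
  · refine (card_union_le _ _).trans ?_
    gcongr
    refine (card_union_le _ _).trans ?_
    gcongr
    refine (card_union_le _ _).trans ?_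
    gcongr
    exact card_union_le _ _

theorem miss_X {o u : V} (hu : u ∈ c.X) (idx : V → ℕ) :
    Fintype.card V - 1 ≤ (c.Gd hr e L idx o u).card + ((c.src hr).La e L u).card + c.W.card + c.M.card
      + ((c.U ∪ c.X).filter (fun y => y ≠ u ∧ g.d u y < 2 * r)).card + (((c.src hr).F u) \ ((c.src hr).Fe e u)).card
      + (((c.src hr).F u).filter (fun z => ∃ w, z ∈ (c.src hr).Z u w ∧ u ∈ (c.src hr).E e w)).card
      + (((c.src hr).F u).filter (fun z => ∃ w, w ∈ (c.src hr).E e u ∧ z ∈ (c.src hr).Z u w ∧ c.Bad hr e L o u w)).card := by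
  have huU : u ∉ c.U := (mem_filter.1 hu).2.1
  have hcard : Fintype.card V - 1 = (univ.erase u).card := by
    rw [card_erase_of_mem (mem_univ _), card_univ]
  rw [hcard]
  refine le_trans (card_le_card (t := c.Gd hr e L idx o u ∪ (c.src hr).La e L u ∪ c.W ∪ c.M ∪
    (c.U ∪ c.X).filter (fun y => y ≠ u ∧ g.d u y < 2 * r) ∪ (((c.src hr).F u) \ ((c.src hr).Fe e u)) ∪
    (((c.src hr).F u).filter (fun z => ∃ w, z ∈ (c.src hr).Z u w ∧ u ∈ (c.src hr).E e w)) ∪
    (((c.src hr).F u).filter (fun z => ∃ w, w ∈ (c.src hr).E e u ∧ z ∈ (c.src hr).Z u w ∧ c.Bad hr e L o u w))) ?_) ?_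
  · intro y hy
    have hyu : y ≠ u := (mem_erase.1 hy).1
    simp only [mem_union]
    by_cases hW : y ∈ c.W
    · tauto
    by_cases hM : y ∈ c.M
    · tauto
    have hUX : y ∈ c.U ∪ c.X := by
      by_cases hyU : y ∈ c.U
      · exact mem_union_left _ hyU
      · exact mem_union_right _ (mem_filter.2 ⟨mem_univ _, hyU, hW, hM⟩)
    by_cases hd : g.d u y < 2 * r
    · have h1 : y ∈ (c.U ∪ c.X).filter (fun y => y ≠ u ∧ g.d u y < 2 * r) :=
        mem_filter.2 ⟨hUX, hyu, hd⟩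
      tauto
    · have hd2 : g.d u y = 2 * r := le_antisymm (h.diam u y) (not_lt.1 hd)
      have hF : y ∈ (c.src hr).F u := by
        show y ∈ (if u ∈ c.U then c.X.filter (fun z => g.d u z = 2 * r)
          else if u ∈ c.X then (c.U ∪ c.X).filter (fun z => g.d u z = 2 * r) else ∅)
        rw [if_neg huU, if_pos hu]
        exact mem_filter.2 ⟨hUX, hd2⟩
      rcases target_split hr (o := o) hF idx with h1 | h1 | h1 | h1 | h1 <;> tauto
  · refine (card_union_le _ _).trans ?_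
    gcongr
    refine (card_union_le _ _).trans ?_
    gcongr
    refine (card_union_le _ _).trans ?_
    gcongr
    refine (card_union_le _ _).trans ?_
    gcongr
    refine (card_union_le _ _).trans ?_
    gcongr
    refine (card_union_le _ _).trans ?_
    gcongr
    exact card_union_le _ _

/-- (9.6): the sum of all misses, large classes of the sources in `U` kept apart. -/
theorem miss_sum {o : V} (ho : o ∈ c.U) (idx : V → ℕ) :
    (∑ v ∈ c.U, ((c.M.card : ℝ) + ((c.NonAl v).card : ℝ)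
        + ((c.X.filter (fun x => x ∉ c.Gd hr e L idx o v ∧ x ∉ (c.src hr).hubs v (c.Gd hr e L idx o v))).card : ℝ)))
      + (∑ u ∈ c.X, (((Fintype.card V - 1 : ℕ) : ℝ) - ((c.Gd hr e L idx o u).card : ℝ) - (((c.src hr).La e L u).card : ℝ)))
      ≤ (Fintype.card V : ℝ) * (c.M.card : ℝ) + r * ((c.PP hr e L o).card : ℝ)
        + 2 * (((c.PP hr e L o).card : ℝ) + (c.X.card : ℝ) * c.L2 e L L')
        + (c.X.card : ℝ) * ((c.W.card : ℝ) + (c.M.card : ℝ))
        + (∑ v ∈ c.U, (((c.src hr).La e L v).card : ℝ))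
        + 2 * ((c.src hr).Q.card : ℝ) / e + e * (c.Un hr e L o : ℝ)
        + 2 * c.L2 e L L' * ((c.PP hr e L o).card : ℝ) / e := by
  have he0 : 0 < e := by have := h.he; linarith
  set f1 : V → ℝ := fun x => ((((c.src hr).F x) \ ((c.src hr).Fe e x)).card : ℝ) with hf1
  set f2 : V → ℝ := fun x => (((((c.src hr).F x).filter (fun z => ∃ w, z ∈ (c.src hr).Z x w ∧ x ∈ (c.src hr).E e w)).card : ℕ) : ℝ) with hf2
  set f3 : V → ℝ := fun x => (((((c.src hr).F x).filter (fun z => ∃ w, w ∈ (c.src hr).E e x ∧ z ∈ (c.src hr).Z x w ∧ c.Bad hr e L o x w)).card : ℕ) : ℝ) with hf3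
  have hdisj : Disjoint c.U c.X := by
    rw [disjoint_left]
    intro x hx hx2
    exact (mem_filter.1 hx2).2.1 hx
  have hsplit : ∀ f : V → ℝ, (∀ x, 0 ≤ f x) → (∑ v ∈ c.U, f v) + (∑ u ∈ c.X, f u) ≤ ∑ x : V, f x := by
    intro f hf
    rw [← sum_union hdisj]
    exact sum_le_sum_of_subset_of_nonneg (subset_univ _) (fun x _ _ => hf x)
  have s1 := hsplit f1 (fun x => by rw [hf1]; positivity)
  have s2 := hsplit f2 (fun x => by rw [hf2]; positivity)
  have s3 := hsplit f3 (fun x => by rw [hf3]; positivity)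
  have b1 : ∑ x : V, f1 x ≤ e * (c.Un hr e L o : ℝ) + ((c.src hr).Q.card : ℝ) / e := ineff h hr ho
  have b2 : ∑ x : V, f2 x ≤ ((c.src hr).Q.card : ℝ) / e := by
    rw [le_div_iff₀ he0]
    exact (c.src hr).mut_drop he0
  have b3 : ∑ x : V, f3 x ≤ 2 * c.L2 e L L' * ((c.PP hr e L o).card : ℝ) / e := by
    have := typeII h hr ho
    rw [le_div_iff₀ he0]
    have h3 : (∑ x : V, f3 x) * (e / 2) ≤ c.L2 e L L' * ((c.PP hr e L o).card : ℝ) := this
    linarith
  have m1 : (∑ v ∈ c.U, (c.M.card : ℝ)) ≤ (Fintype.card V : ℝ) * (c.M.card : ℝ) := by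
    rw [sum_const, nsmul_eq_mul]
    have : (c.U.card : ℝ) ≤ (Fintype.card V : ℝ) := by exact_mod_cast card_le_univ _
    gcongr
  have m2 := sum_NonAl h hr ho
  have m3 := sum_close_U h hr ho
  have m4 := sum_close_X h hr ho
  have p1 : (∑ v ∈ c.U, ((c.M.card : ℝ) + ((c.NonAl v).card : ℝ)
        + ((c.X.filter (fun x => x ∉ c.Gd hr e L idx o v ∧ x ∉ (c.src hr).hubs v (c.Gd hr e L idx o v))).card : ℝ)))
      ≤ ∑ v ∈ c.U, ((c.M.card : ℝ) + ((c.NonAl v).card : ℝ) + (((c.X.filter (fun x => g.d v x < 2 * r)).card : ℝ)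
        + f1 v + (((c.src hr).La e L v).card : ℝ) + f2 v + f3 v)) := by
    refine sum_le_sum fun v hv => ?_
    have := miss_U h hr (o := o) hv idx
    have h2 : ((c.X.filter (fun x => x ∉ c.Gd hr e L idx o v ∧ x ∉ (c.src hr).hubs v (c.Gd hr e L idx o v))).card : ℝ)
        ≤ ((c.X.filter (fun x => g.d v x < 2 * r)).card : ℝ)
        + f1 v + (((c.src hr).La e L v).card : ℝ) + f2 v + f3 v := by
      rw [hf1, hf2, hf3]
      beta_reduce
      exact_mod_cast this
    linarith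
  have p2 : (∑ u ∈ c.X, (((Fintype.card V - 1 : ℕ) : ℝ) - ((c.Gd hr e L idx o u).card : ℝ) - (((c.src hr).La e L u).card : ℝ)))
      ≤ ∑ u ∈ c.X, ((c.W.card : ℝ) + (c.M.card : ℝ) + (((c.U ∪ c.X).filter (fun y => y ≠ u ∧ g.d u y < 2 * r)).card : ℝ)
        + f1 u + f2 u + f3 u) := by
    refine sum_le_sum fun u hu => ?_
    have := miss_X h hr (o := o) hu idx
    have h2 : ((Fintype.card V - 1 : ℕ) : ℝ) ≤ ((c.Gd hr e L idx o u).card : ℝ) + (((c.src hr).La e L u).card : ℝ)
        + (c.W.card : ℝ) + (c.M.card : ℝ) + (((c.U ∪ c.X).filter (fun y => y ≠ u ∧ g.d u y < 2 * r)).card : ℝ)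
        + f1 u + f2 u + f3 u := by
      rw [hf1, hf2, hf3]
      beta_reduce
      exact_mod_cast this
    linarith
  simp only [sum_add_distrib] at p1 p2
  have q1 : (∑ u ∈ c.X, (c.W.card : ℝ)) = (c.X.card : ℝ) * (c.W.card : ℝ) := by
    rw [sum_const, nsmul_eq_mul]
  have q2 : (∑ u ∈ c.X, (c.M.card : ℝ)) = (c.X.card : ℝ) * (c.M.card : ℝ) := by
    rw [sum_const, nsmul_eq_mul]
  rw [q1, q2] at p2
  simp only [sum_add_distrib]
  have t1 : 2 * ((c.src hr).Q.card : ℝ) / e = ((c.src hr).Q.card : ℝ) / e + ((c.src hr).Q.card : ℝ) / e := by ring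
  have t2 : (c.X.card : ℝ) * ((c.W.card : ℝ) + (c.M.card : ℝ)) = (c.X.card : ℝ) * (c.W.card : ℝ) + (c.X.card : ℝ) * (c.M.card : ℝ) := by ring
  rw [t1, t2]
  linarith

end Core

end Pool.Agent.Wi
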