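import Pool.Agent.Wi.COREb

/-! MODULE COREd: Type I count, case (A) of (8.2): one of the two targets lies in `X`. -/

namespace Pool.Agent.Wi

open Finset
open scoped Classical

/-- ordered pairs with positive weight. -/
private theorem cored_pairs {V : Type} [Fintype V] (f : V → V → ℕ) :
    (univ.filter (fun p : V × V => p.1 ≠ p.2 ∧ 1 ≤ f p.1 p.2)).card ≤
      ∑ x : V, ∑ y ∈ univ.filter (fun y => y ≠ x), f x y := by
  rw [card_filter, Fintype.sum_prod_type]
  refine sum_le_sum fun x _ => ?_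
  rw [sum_filter]
  refine sum_le_sum fun y _ => ?_
  by_cases hxy : y ≠ x
  · rw [if_pos hxy]
    by_cases h1 : 1 ≤ f x y
    · rw [if_pos ⟨hxy.symm, h1⟩]; exact h1
    · rw [if_neg (fun hh => h1 hh.2)]; exact Nat.zero_le _
  · rw [if_neg (fun hh => hxy hh.1.symm)]; exact Nat.zero_le _

/-- counting by fibres. -/
private theorem cored_fib {α β : Type} (S : Finset α) (P : Finset β) (f : α → β) (K N : ℝ)
    (hK0 : 0 ≤ K) (hN : (P.card : ℝ) ≤ N) (hf : ∀ a ∈ S, f a ∈ P)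
    (hK : ∀ b ∈ P, ∀ T ⊆ S, (∀ a ∈ T, f a = b) → (T.card : ℝ) ≤ K) : (S.card : ℝ) ≤ N * K := by
  rw [card_eq_sum_card_fiberwise (f := f) (t := P) hf]
  push_cast
  calc ∑ b ∈ P, ((S.filter (fun a => f a = b)).card : ℝ) ≤ ∑ b ∈ P, K :=
        sum_le_sum fun b hb => hK b hb _ (filter_subset _ _) fun a ha => (mem_filter.1 ha).2
    _ = P.card * K := by rw [sum_const, nsmul_eq_mul]
    _ ≤ N * K := mul_le_mul_of_nonneg_right hN hK0

/-- a fibre embedded in `T × [0, r)`. -/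
private theorem cored_emb {α β : Type} (S : Finset α) (T : Finset β) (r : ℕ) (f : α → β) (j : α → ℕ)
    (K : ℝ) (hT : (T.card : ℝ) ≤ K) (hf : ∀ a ∈ S, f a ∈ T) (hj : ∀ a ∈ S, j a < r)
    (hinj : ∀ a ∈ S, ∀ b ∈ S, f a = f b → j a = j b → a = b) : (S.card : ℝ) ≤ r * K := by
  have h1 : S.card ≤ (T ×ˢ range r).card := by
    refine card_le_card_of_injOn (fun a => (f a, j a)) ?_ ?_
    · intro a ha
      rw [mem_coe, mem_product]
      exact ⟨hf a ha, mem_range.2 (hj a ha)⟩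
    · intro a ha b hb hab
      have := Prod.mk.injEq .. ▸ hab
      exact hinj a ha b hb (Prod.ext_iff.1 hab).1 (Prod.ext_iff.1 hab).2
  rw [card_product, card_range] at h1
  calc (S.card : ℝ) ≤ ((T.card * r : ℕ) : ℝ) := by exact_mod_cast h1
    _ = r * T.card := by push_cast; ring
    _ ≤ r * K := mul_le_mul_of_nonneg_left hT (Nat.cast_nonneg _)

namespace Core
variable {V : Type} [Fintype V] {g : Geo V} {r : ℕ} {c : Core g r} {e L L' β : ℝ} (h : c.Hyp e L L' β) (hr : 1 ≤ r)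

/-- facts on a quadruple. -/
private theorem cored_facts {q : V × V × V × V} (hq : q ∈ (c.src hr).Q) :
    1 ≤ 2 * r - g.d q.1 q.2.1 ∧ 2 * r - g.d q.1 q.2.1 < r ∧
    g.d q.2.2.2 (g.P q.1 q.2.1 r) = r ∧
    g.d q.2.2.1 (g.P q.1 q.2.1 r) = r + (2 * r - g.d q.1 q.2.1) ∧
    g.P q.2.2.2 (g.P q.1 q.2.1 r) (2 * r - g.d q.1 q.2.1) = q.2.1 ∧
    g.P q.2.2.1 (g.P q.1 q.2.1 r) (2 * r - g.d q.1 q.2.1) = q.1 ∧
    g.d q.2.2.2 q.2.1 = 2 * r - g.d q.1 q.2.1 ∧
    g.d q.2.2.1 q.1 = 2 * r - g.d q.1 q.2.1 ∧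
    g.d q.1 q.2.2.2 = 2 * r ∧ g.d q.2.1 q.2.2.1 = 2 * r ∧
    g.P q.2.2.2 q.1 (2 * r - g.d q.1 q.2.1) = q.2.1 := by
  obtain ⟨hz, hy⟩ := (mem_filter.1 hq).2
  obtain ⟨a1, a2, a3, a4, a5, a6, a7, a8, a9, a10, a11, a12, a13, a14, a15⟩ := (c.src hr).quad hz hy
  have b := (c.src hr).Z_geo hz
  refine ⟨by omega, by omega, a8, by rw [a6]; omega, a10, a11, a12, a13, a14, a15, b.2.2.2.2⟩

/-- a quadruple is determined by `y, z, m, j`. -/
private theorem cored_inj {q q' : V × V × V × V} (hq : q ∈ (c.src hr).Q) (hq' : q' ∈ (c.src hr).Q)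
    (hy : q.2.2.1 = q'.2.2.1) (hz : q.2.2.2 = q'.2.2.2) (hm : g.P q.1 q.2.1 r = g.P q'.1 q'.2.1 r)
    (hj : 2 * r - g.d q.1 q.2.1 = 2 * r - g.d q'.1 q'.2.1) : q = q' := by
  obtain ⟨-, -, -, -, hw, hu, -⟩ := cored_facts hr hq
  obtain ⟨-, -, -, -, hw', hu', -⟩ := cored_facts hr hq'
  rw [hm, hj, hz, hw'] at hw
  rw [hm, hj, hy, hu'] at hu
  exact Prod.ext hu.symm (Prod.ext hw.symm (Prod.ext hy hz))

private theorem cored_XM {x : V} (hx : x ∈ c.X) : x ∉ c.M := (mem_filter.1 hx).2.2.2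

private theorem cored_XB {x : V} (hx : x ∈ c.X) : x ∉ c.B := by
  intro hb
  rcases mem_union.1 hb with h1 | h1
  · exact (mem_filter.1 hx).2.1 h1
  · exact (mem_filter.1 hx).2.2.1 h1

private theorem cored_UXM {x : V} (hx : x ∈ c.U ∪ c.X) : x ∉ c.M := by
  rcases mem_union.1 hx with h1 | h1
  · exact fun h2 => (disjoint_left.1 c.dUM) h1 h2
  · exact (mem_filter.1 h1).2.2.2

private theorem cored_UXW {x : V} (hx : x ∈ c.U ∪ c.X) : x ∉ c.W := by
  rcases mem_union.1 hx with h1 | h1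
  · exact fun h2 => (disjoint_left.1 c.dUW) h1 h2
  · exact (mem_filter.1 h1).2.2.1

private theorem cored_UXB {x : V} (hx : x ∈ c.U ∪ c.X) (hb : x ∈ c.B) : x ∈ c.U := by
  rcases mem_union.1 hb with h1 | h1
  · exact h1
  · exact absurd h1 (cored_UXW hx)

/-- mates of a common mate. -/
private theorem cored_mates_trans {o a b d : V} (hab : c.Mates hr e L o a b) (hbd : c.Mates hr e L o b d)
    (had : a ≠ d) : c.Mates hr e L o a d :=
  ⟨had, hab.2.1, hbd.2.2.1, hab.2.2.2.trans hbd.2.2.2⟩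

include h

/-- all four points of a quadruple lie in `U ∪ X`. -/
private theorem cored_UX {q : V × V × V × V} (hq : q ∈ (c.src hr).Q) :
    q.1 ∈ c.U ∪ c.X ∧ q.2.1 ∈ c.U ∪ c.X ∧ q.2.2.1 ∈ c.U ∪ c.X ∧ q.2.2.2 ∈ c.U ∪ c.X := by
  obtain ⟨hz, hy⟩ := (mem_filter.1 hq).2
  have a := F_sub h hr ((c.src hr).mem_Z.1 hz).1
  have b := F_sub h hr ((c.src hr).mem_Z.1 hy).1
  exact ⟨a.1, b.1, b.2.1, a.2.1⟩

/-- (A2): if `z, m` is not uncharged then `z, m` are mates. -/
private theorem cored_zm {o : V} (ho : o ∈ c.U) {q : V × V × V × V} (hq : q ∈ (c.src hr).Q)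
    (hu : ¬ 1 ≤ (c.src hr).unc e (c.bb hr e L o) q.2.2.2 (g.P q.1 q.2.1 r)) :
    c.Mates hr e L o q.2.2.2 (g.P q.1 q.2.1 r) := by
  obtain ⟨f1, f2, f3, f4, f5, f6, f7, f8, f9, f10, f11⟩ := cored_facts hr hq
  obtain ⟨x1, x2, x3, x4⟩ := cored_UX h hr hq
  by_contra hm
  refine hu (close h hr ho ?_ (by omega) (Or.inl x4) hm ?_ ?_)
  · intro he
    rw [← he, g.dself] at f3
    omega
  · rintro ⟨hb, hmm⟩
    have hzU := cored_UXB x4 hb
    have hM := (c.hmm _ hb).1
    rw [← hmm] at hM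
    have := c.hc6 _ hzU _ hM f3 _ f1 f2
    rw [f5] at this
    exact cored_UXW x2 this
  · rintro ⟨hb, hmm⟩
    have hM := (c.hmm _ hb).1
    rw [← hmm] at hM
    exact cored_UXM x4 hM

/-- the pair `y, m`, `y ∈ X`. -/
private theorem cored_ym {o : V} (ho : o ∈ c.U) {q : V × V × V × V} (hq : q ∈ (c.src hr).Q)
    (hy : q.2.2.1 ∈ c.X)
    (hm : ¬ c.Mates hr e L o q.2.2.1 (g.P q.1 q.2.1 r))
    (h1 : q.2.2.1 ∉ (c.src hr).E e (g.P q.1 q.2.1 r)) (h2 : g.P q.1 q.2.1 r ∉ (c.src hr).E e q.2.2.1) :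
    1 ≤ (c.src hr).unc e (c.bb hr e L o) q.2.2.1 (g.P q.1 q.2.1 r) := by
  obtain ⟨f1, f2, f3, f4, f5, f6, f7, f8, f9, f10, f11⟩ := cored_facts hr hq
  set y := q.2.2.1
  set m := g.P q.1 q.2.1 r
  have hBB : c.BB y m = 0 := by
    unfold BB
    rw [if_neg]
    rintro ⟨-, hb, -⟩
    exact cored_XB hy hb
  have hMM : c.MM y m = 0 := by
    unfold MM
    rw [if_neg]
    rintro (⟨hb, -⟩ | ⟨hb, hmm⟩)
    · exact cored_XB hy hb
    · have hM := (c.hmm _ hb).1
      rw [← hmm] at hM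
      exact cored_XM hy hM
  have hNX : c.NX hr e L o y m = 0 := by
    by_contra h0
    exact hm (NX_pos h hr o y m ho (Nat.pos_of_ne_zero h0)).2.1
  have hbb : c.bb hr e L o y m = 0 := by
    unfold bb
    rw [hBB, hMM, hNX]
  unfold Src.unc
  rw [if_neg (fun hh => hh.elim h2 h1), hbb]
  omega

/-- (A2a): `y, u` is uncharged. -/
private theorem cored_yu {o : V} (ho : o ∈ c.U) {q : V × V × V × V} (hq : q ∈ (c.src hr).Q)
    (hy : q.2.2.1 ∈ c.X)
    (hz : c.Mates hr e L o q.2.2.2 (g.P q.1 q.2.1 r))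
    (hm : c.Mates hr e L o q.2.2.1 (g.P q.1 q.2.1 r)) :
    c.Mates hr e L o q.2.2.1 q.2.2.2 ∧
      1 ≤ (c.src hr).unc e (c.bb hr e L o) q.2.2.1 q.1 := by
  obtain ⟨f1, f2, f3, f4, f5, f6, f7, f8, f9, f10, f11⟩ := cored_facts hr hq
  have hyz : q.2.2.1 ≠ q.2.2.2 := by
    intro he
    have hs := g.symm q.2.1 q.2.2.2
    rw [he] at f10
    omega
  have hyzm : c.Mates hr e L o q.2.2.1 q.2.2.2 :=
    cored_mates_trans hr hm (mates_symm h hr hz) hyz
  refine ⟨hyzm, close h hr ho ?_ (by omega) (Or.inl (mem_union_right _ hy)) ?_ ?_ ?_⟩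
  · intro he
    rw [he, g.dself] at f8
    omega
  · intro hyu
    have huz : q.1 ≠ q.2.2.2 := by
      intro he
      rw [← he, g.dself] at f9
      omega
    have := mates_dist h hr (cored_mates_trans hr (mates_symm h hr hyu) hyzm huz)
    omega
  · rintro ⟨hb, -⟩
    exact cored_XB hy hb
  · rintro ⟨hb, hmm⟩
    have hM := (c.hmm _ hb).1
    rw [← hmm] at hM
    exact cored_XM hy hM

private theorem cored_L2 : 0 ≤ c.L2 e L L' := by
  have h1 := h.he
  have h2 := h.hL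
  have h3 := h.hL'
  unfold L2
  positivity

/-- (8.2)(A). In a quadruple `q = (u, w, y, z)`: `y = q.2.2.1`. -/
theorem typeI_A {o : V} (ho : o ∈ c.U) :
    ((((c.src hr).Q).filter (fun q => q.2.2.1 ∈ c.X)).card : ℝ) ≤
      r * ((c.X.card : ℝ) * (c.Un hr e L o : ℝ) + 2 * c.L2 e L L' * (c.Un hr e L o : ℝ)
        + ((Fintype.card V : ℝ) * c.hU e + (c.X.card : ℝ) * c.hX e) * c.L2 e L L'
        + (c.X.card : ℝ) * (g.D2 r : ℝ) / e) := by
  have hL2 := cored_L2 h
  have he := h.he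
  set uo : V → V → ℕ := fun x y => (c.src hr).unc e (c.bb hr e L o) x y with huo
  set PU : Finset (V × V) := univ.filter (fun p : V × V => p.1 ≠ p.2 ∧ 1 ≤ uo p.1 p.2) with hPU
  have hPUc : (PU.card : ℝ) ≤ (c.Un hr e L o : ℝ) := by
    have := cored_pairs uo
    exact_mod_cast this
  set m : V × V × V × V → V := fun q => g.P q.1 q.2.1 r with hmdef
  set j : V × V × V × V → ℕ := fun q => 2 * r - g.d q.1 q.2.1 with hjdef
  set S := ((c.src hr).Q).filter (fun q => q.2.2.1 ∈ c.X) with hS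
  have hSQ : ∀ q ∈ S, q ∈ (c.src hr).Q := fun q hq => (mem_filter.1 hq).1
  have hSX : ∀ q ∈ S, q.2.2.1 ∈ c.X := fun q hq => (mem_filter.1 hq).2
  set S1 := S.filter (fun q => 1 ≤ uo q.2.2.2 (m q)) with hS1
  set S2 := S.filter (fun q => c.Mates hr e L o q.2.2.2 (m q) ∧ c.Mates hr e L o q.2.2.1 (m q)) with hS2
  set S3 := S.filter (fun q => c.Mates hr e L o q.2.2.2 (m q) ∧ 1 ≤ uo q.2.2.1 (m q)) with hS3
  set S4 := S.filter (fun q => c.Mates hr e L o q.2.2.2 (m q) ∧ q.2.2.1 ∈ (c.src hr).E e (m q)) with hS4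
  set S5 := S.filter (fun q => m q ∈ (c.src hr).E e q.2.2.1) with hS5
  have hcov : S ⊆ S1 ∪ (S2 ∪ (S3 ∪ (S4 ∪ S5))) := by
    intro q hq
    simp only [mem_union, hS1, hS2, hS3, hS4, hS5, mem_filter, hq, true_and]
    by_cases c1 : 1 ≤ uo q.2.2.2 (m q)
    · exact Or.inl c1
    · have hz := cored_zm h hr ho (hSQ q hq) c1
      by_cases c2 : c.Mates hr e L o q.2.2.1 (m q)
      · exact Or.inr (Or.inl ⟨hz, c2⟩)
      · by_cases c3 : q.2.2.1 ∈ (c.src hr).E e (m q)
        · exact Or.inr (Or.inr (Or.inr (Or.inl ⟨hz, c3⟩)))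
        · by_cases c4 : m q ∈ (c.src hr).E e q.2.2.1
          · exact Or.inr (Or.inr (Or.inr (Or.inr c4)))
          · exact Or.inr (Or.inr (Or.inl ⟨hz, cored_ym h hr ho (hSQ q hq) (hSX q hq) c2 c3 c4⟩))
  have hcard : (S.card : ℝ) ≤ S1.card + (S2.card + (S3.card + (S4.card + S5.card))) := by
    have h1 := card_le_card hcov
    have h2 := card_union_le S1 (S2 ∪ (S3 ∪ (S4 ∪ S5)))
    have h3 := card_union_le S2 (S3 ∪ (S4 ∪ S5))
    have h4 := card_union_le S3 (S4 ∪ S5)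
    have h5 := card_union_le S4 S5
    have : S.card ≤ S1.card + (S2.card + (S3.card + (S4.card + S5.card))) := by omega
    exact_mod_cast this
  have hjr : ∀ q ∈ S, j q < r := fun q hq => (cored_facts hr (hSQ q hq)).2.1
  have hinj : ∀ q ∈ S, ∀ q' ∈ S, q.2.2.1 = q'.2.2.1 → q.2.2.2 = q'.2.2.2 → m q = m q' →
      j q = j q' → q = q' := fun q hq q' hq' a b d f =>
    cored_inj hr (hSQ q hq) (hSQ q' hq') a b d f
  -- (A1)
  have b1 : (S1.card : ℝ) ≤ (c.Un hr e L o : ℝ) * (r * (c.X.card : ℝ)) := by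
    refine cored_fib S1 PU (fun q => (q.2.2.2, m q)) _ _ (by positivity) hPUc ?_ ?_
    · intro q hq
      have hq' := mem_filter.1 hq
      rw [hPU, mem_filter]
      refine ⟨mem_univ _, ?_, hq'.2⟩
      intro heq
      have f := (cored_facts hr (hSQ q hq'.1)).2.2.1
      have heq' : q.2.2.2 = g.P q.1 q.2.1 r := heq
      rw [← heq', g.dself] at f
      omega
    · intro b _ T hTS hTb
      refine cored_emb _ c.X r (fun q => q.2.2.1) j _ le_rfl ?_ ?_ ?_
      · intro q hq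
        exact hSX q (mem_filter.1 (hTS hq)).1
      · intro q hq
        exact hjr q (mem_filter.1 (hTS hq)).1
      · intro q hq q' hq' e1 e2
        have k := (hTb q hq).trans (hTb q' hq').symm
        have k' := Prod.ext_iff.1 k
        exact hinj q (mem_filter.1 (hTS hq)).1 q' (mem_filter.1 (hTS hq')).1
          e1 k'.1 k'.2 e2
  -- (A2a)
  have b2 : (S2.card : ℝ) ≤ (c.Un hr e L o : ℝ) * (r * c.L2 e L L') := by
    refine cored_fib S2 PU (fun q => (q.2.2.1, q.1)) _ _ (by positivity) hPUc ?_ ?_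
    · intro q hq
      have hq' := mem_filter.1 hq
      have k := cored_yu h hr ho (hSQ q hq'.1) (hSX q hq'.1) hq'.2.1 hq'.2.2
      rw [hPU, mem_filter]
      refine ⟨mem_univ _, ?_, k.2⟩
      intro heq
      obtain ⟨f1, -, -, -, -, -, -, f8, -⟩ := cored_facts hr (hSQ q hq'.1)
      have heq' : q.2.2.1 = q.1 := heq
      rw [heq', g.dself] at f8
      omega
    · intro b _ T hTS hTb
      refine cored_emb _ (univ.filter (fun z => c.Mates hr e L o b.1 z)) r (fun q => q.2.2.2) j _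
        (card_mates h hr o b.1 ho) ?_ ?_ ?_
      · intro q hq
        have hq' := mem_filter.1 (hTS hq)
        have k := cored_yu h hr ho (hSQ q hq'.1) (hSX q hq'.1) hq'.2.1 hq'.2.2
        have hb := hTb q hq
        rw [mem_filter]
        refine ⟨mem_univ _, ?_⟩
        rw [← hb]
        exact k.1
      · intro q hq
        exact hjr q (mem_filter.1 (hTS hq)).1
      · intro q hq q' hq' e1 e2
        have k := (hTb q hq).trans (hTb q' hq').symm
        have k' := Prod.ext_iff.1 k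
        have hQ := hSQ q (mem_filter.1 (hTS hq)).1
        have hQ' := hSQ q' (mem_filter.1 (hTS hq')).1
        obtain ⟨-, -, -, -, -, -, -, -, -, -, f11⟩ := cored_facts hr hQ
        obtain ⟨-, -, -, -, -, -, -, -, -, -, f11'⟩ := cored_facts hr hQ'
        have e1' : q.2.2.2 = q'.2.2.2 := e1
        have e2' : 2 * r - g.d q.1 q.2.1 = 2 * r - g.d q'.1 q'.2.1 := e2
        have k1 : q.2.2.1 = q'.2.2.1 := k'.1
        have k2 : q.1 = q'.1 := k'.2
        have hw : q.2.1 = q'.2.1 := by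
          rw [← f11, ← f11', e2', e1', k2]
        exact Prod.ext k2 (Prod.ext hw (Prod.ext k1 e1'))
  -- (A2b)
  have b3 : (S3.card : ℝ) ≤ (c.Un hr e L o : ℝ) * (r * c.L2 e L L') := by
    refine cored_fib S3 PU (fun q => (q.2.2.1, m q)) _ _ (by positivity) hPUc ?_ ?_
    · intro q hq
      have hq' := mem_filter.1 hq
      rw [hPU, mem_filter]
      refine ⟨mem_univ _, ?_, hq'.2.2⟩
      intro heq
      obtain ⟨f1, -, -, f4, -⟩ := cored_facts hr (hSQ q hq'.1)
      have heq' : q.2.2.1 = g.P q.1 q.2.1 r := heq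
      rw [← heq', g.dself] at f4
      omega
    · intro b _ T hTS hTb
      refine cored_emb _ (univ.filter (fun z => c.Mates hr e L o b.2 z)) r (fun q => q.2.2.2) j _
        (card_mates h hr o b.2 ho) ?_ ?_ ?_
      · intro q hq
        have hq' := mem_filter.1 (hTS hq)
        have hb := hTb q hq
        rw [mem_filter]
        refine ⟨mem_univ _, ?_⟩
        rw [← hb]
        exact mates_symm h hr hq'.2.1
      · intro q hq
        exact hjr q (mem_filter.1 (hTS hq)).1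
      · intro q hq q' hq' e1 e2
        have k := (hTb q hq).trans (hTb q' hq').symm
        have k' := Prod.ext_iff.1 k
        exact hinj q (mem_filter.1 (hTS hq)).1 q' (mem_filter.1 (hTS hq')).1
          k'.1 e1 k'.2 e2
  -- (A2c)
  set PE : Finset (V × V) := univ.filter (fun p : V × V => p.2 ∈ (c.src hr).E e p.1) with hPE
  have hPEc : (PE.card : ℝ) ≤ (Fintype.card V : ℝ) * c.hU e + (c.X.card : ℝ) * c.hX e := by
    refine le_trans (le_of_eq ?_) (sum_E h hr)
    rw [hPE, card_filter, Fintype.sum_prod_type]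
    push_cast
    refine sum_congr rfl fun x _ => ?_
    rw [← Finset.sum_filter]
    simp
  have b4 : (S4.card : ℝ) ≤ ((Fintype.card V : ℝ) * c.hU e + (c.X.card : ℝ) * c.hX e) *
      (r * c.L2 e L L') := by
    refine cored_fib S4 PE (fun q => (m q, q.2.2.1)) _ _ (by positivity) hPEc ?_ ?_
    · intro q hq
      have hq' := mem_filter.1 hq
      rw [hPE, mem_filter]
      exact ⟨mem_univ _, hq'.2.2⟩
    · intro b _ T hTS hTb
      refine cored_emb _ (univ.filter (fun z => c.Mates hr e L o b.1 z)) r (fun q => q.2.2.2) j _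
        (card_mates h hr o b.1 ho) ?_ ?_ ?_
      · intro q hq
        have hq' := mem_filter.1 (hTS hq)
        have hb := hTb q hq
        rw [mem_filter]
        refine ⟨mem_univ _, ?_⟩
        rw [← hb]
        exact mates_symm h hr hq'.2.1
      · intro q hq
        exact hjr q (mem_filter.1 (hTS hq)).1
      · intro q hq q' hq' e1 e2
        have k := (hTb q hq).trans (hTb q' hq').symm
        have k' := Prod.ext_iff.1 k
        exact hinj q (mem_filter.1 (hTS hq)).1 q' (mem_filter.1 (hTS hq')).1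
          k'.2 e1 k'.1 e2
  -- (A2d)
  have b5 : (S5.card : ℝ) ≤ r * ((c.X.card : ℝ) * (g.D2 r : ℝ) / e) := by
    set DP : Finset (V × V) := univ.filter (fun p : V × V => p.1 ≠ p.2 ∧ 1 ≤ 2 * r - g.d p.1 p.2) with hDP
    have hDPc : (DP.card : ℝ) ≤ (g.D2 r : ℝ) := by
      have := cored_pairs (fun x y => 2 * r - g.d x y)
      exact_mod_cast this
    set SG := S5.sigma (fun q => (c.src hr).Z q.2.2.1 (m q)) with hSG
    have hlow : (S5.card : ℝ) * e ≤ (SG.card : ℝ) := by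
      rw [hSG, card_sigma]
      push_cast
      rw [← nsmul_eq_mul, ← sum_const]
      refine sum_le_sum fun q hq => ?_
      exact (mem_filter.1 (mem_filter.1 hq).2).2.2
    have hup : (SG.card : ℝ) ≤ r * ((c.X.card : ℝ) * (g.D2 r : ℝ)) := by
      refine cored_emb SG (c.X ×ˢ DP) r (fun t => (t.1.2.2.1, (t.2, t.1.2.2.2))) (fun t => j t.1) _ ?_ ?_ ?_ ?_
      · rw [card_product]
        push_cast
        exact mul_le_mul_of_nonneg_left hDPc (Nat.cast_nonneg _)
      · rintro ⟨q, a⟩ ht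
        obtain ⟨hq, ha⟩ := mem_sigma.1 ht
        simp only at hq ha
        have hqS := (mem_filter.1 hq).1
        obtain ⟨f1, f2, f3, f4, -⟩ := cored_facts hr (hSQ q hqS)
        obtain ⟨z1, z2, z3, z4, z5⟩ := (c.src hr).Z_geo ha
        have f4' : g.d q.2.2.1 (m q) = r + (2 * r - g.d q.1 q.2.1) := f4
        have f3' : g.d q.2.2.2 (m q) = r := f3
        rw [mem_product]
        refine ⟨hSX q hqS, ?_⟩
        rw [hDP, mem_filter]
        refine ⟨mem_univ _, ?_, ?_⟩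
        · intro heq
          have heq' : a = q.2.2.2 := heq
          rw [heq', f3', f4'] at z4
          omega
        · show 1 ≤ 2 * r - g.d a q.2.2.2
          have ht := g.tri a (m q) q.2.2.2
          rw [g.symm (m q) q.2.2.2, f3', z4, f4'] at ht
          omega
      · rintro ⟨q, a⟩ ht
        obtain ⟨hq, ha⟩ := mem_sigma.1 ht
        exact hjr q (mem_filter.1 hq).1
      · rintro ⟨q, a⟩ ht ⟨q', a'⟩ ht' e1 e2
        obtain ⟨hq, ha⟩ := mem_sigma.1 ht
        obtain ⟨hq', ha'⟩ := mem_sigma.1 ht'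
        simp only at hq ha hq' ha'
        have k := Prod.ext_iff.1 e1
        have k1 : q.2.2.1 = q'.2.2.1 := k.1
        have k2 := Prod.ext_iff.1 k.2
        have k3 : a = a' := k2.1
        have k4 : q.2.2.2 = q'.2.2.2 := k2.2
        have e2' : 2 * r - g.d q.1 q.2.1 = 2 * r - g.d q'.1 q'.2.1 := e2
        have hqS := (mem_filter.1 hq).1
        have hqS' := (mem_filter.1 hq').1
        obtain ⟨-, -, -, f4, -⟩ := cored_facts hr (hSQ q hqS)
        obtain ⟨-, -, -, f4', -⟩ := cored_facts hr (hSQ q' hqS')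
        have z5 := ((c.src hr).Z_geo ha).2.2.2.2
        have z5' := ((c.src hr).Z_geo ha').2.2.2.2
        have g4 : g.d q.2.2.1 (m q) = r + (2 * r - g.d q.1 q.2.1) := f4
        have g4' : g.d q'.2.2.1 (m q') = r + (2 * r - g.d q'.1 q'.2.1) := f4'
        have hm : m q = m q' := by
          rw [← z5, ← z5', g4, g4', e2', k1, k3]
        have hqq : q = q' := hinj q hqS q' hqS' k1 k4 hm e2
        subst hqq
        subst k3
        rfl
    have he0 : (0:ℝ) < e := by linarith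
    have : (S5.card : ℝ) ≤ r * ((c.X.card : ℝ) * (g.D2 r : ℝ)) / e := by
      rw [le_div_iff₀ he0]
      exact hlow.trans hup
    rw [mul_div_assoc] at this
    exact this
  calc (S.card : ℝ) ≤ S1.card + (S2.card + (S3.card + (S4.card + S5.card))) := hcard
    _ ≤ (c.Un hr e L o : ℝ) * (r * (c.X.card : ℝ)) + ((c.Un hr e L o : ℝ) * (r * c.L2 e L L') +
        ((c.Un hr e L o : ℝ) * (r * c.L2 e L L') +
        (((Fintype.card V : ℝ) * c.hU e + (c.X.card : ℝ) * c.hX e) * (r * c.L2 e L L') +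
        r * ((c.X.card : ℝ) * (g.D2 r : ℝ) / e)))) := by gcongr
    _ = _ := by ring

/-- mirror image `z ∈ X`. -/
theorem typeI_A' {o : V} (ho : o ∈ c.U) :
    ((((c.src hr).Q).filter (fun q => q.2.2.2 ∈ c.X)).card : ℝ) ≤
      r * ((c.X.card : ℝ) * (c.Un hr e L o : ℝ) + 2 * c.L2 e L L' * (c.Un hr e L o : ℝ)
        + ((Fintype.card V : ℝ) * c.hU e + (c.X.card : ℝ) * c.hX e) * c.L2 e L L'
        + (c.X.card : ℝ) * (g.D2 r : ℝ) / e) := by
  refine le_trans ?_ (typeI_A h hr ho)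
  have : (((c.src hr).Q).filter (fun q => q.2.2.2 ∈ c.X)).card ≤
      (((c.src hr).Q).filter (fun q => q.2.2.1 ∈ c.X)).card := by
    refine card_le_card_of_injOn (fun q => (q.2.1, q.1, q.2.2.2, q.2.2.1)) ?_ ?_
    · intro q hq
      have hq' := mem_filter.1 (mem_coe.1 hq)
      obtain ⟨hz, hy⟩ := (mem_filter.1 hq'.1).2
      rw [mem_coe, mem_filter]
      refine ⟨?_, hq'.2⟩
      unfold Src.Q
      rw [mem_filter]
      exact ⟨mem_univ _, hy, hz⟩
    · intro q _ q' _ hqq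
      have k := Prod.ext_iff.1 hqq
      have k2 := Prod.ext_iff.1 k.2
      have k3 := Prod.ext_iff.1 k2.2
      exact Prod.ext k2.1 (Prod.ext k.1 (Prod.ext k3.2 k3.1))
  exact_mod_cast this

end Core

end Pool.Agent.Wi
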