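import Pool.Agent.Wi.COREe

/-! MODULE COREf: Type I count, case (B3) of (8.2): both tight. -/

namespace Pool.Agent.Wi

open Finset
open scoped Classical

namespace Core
variable {V : Type} [Fintype V] {g : Geo V} {r : ℕ} {c : Core g r} {e L L' β : ℝ} (h : c.Hyp e L L' β) (hr : 1 ≤ r)
include h

omit h [Fintype V] in
/-- distance to an ancestor. -/
theorem f_anc_dist (c : Core g r) {p : V} (hp : p ∈ c.U ∪ c.W) {k : ℕ} (hk : c.H p ≤ k) (hkr : k < r) :
    g.d p (c.T.anc p k) + c.H p ≤ k := by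
  induction k, hk using Nat.le_induction with
  | base =>
    have : c.T.anc p (c.H p) = p := c.T.anc_self p
    rw [this, g.dself]; omega
  | succ k hk ih =>
    have ih := ih (by omega)
    have hm := c.T.anc_mem (p := p) hp (k := k) hk (by omega)
    have e : c.T.anc p (k + 1) = c.par (c.T.anc p k) := c.T.anc_succ hk
    have hH : c.H (c.T.anc p k) = k := hm.2
    have h1 := (c.hpar _ hm.1 (by rw [hH]; exact hkr)).2.2
    have := g.tri p (c.T.anc p k) (c.par (c.T.anc p k))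
    rw [e]
    omega

omit h [Fintype V] in
/-- the root of an ancestor. -/
theorem f_root_anc (c : Core g r) {p : V} (hp : p ∈ c.U ∪ c.W) {k : ℕ} (hk : c.H p ≤ k) (hkr : k < r) :
    c.root (c.T.anc p k) = c.root p := by
  unfold root
  exact c.T.anc_anc hp hk (by omega) hkr

/-- leaves below a hub. -/
noncomputable def lv (c : Core g r) (w : V) : Finset V := c.U.filter (fun a => c.T.anc a (c.H w) = w)

omit h in
/-- the number of uncharged ordered pairs is at most `Un`. -/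
theorem f_card_unc (s : Src g r) (b : V → V → ℕ) (A : Finset (V × V))
    (hA : ∀ p ∈ A, p.1 ≠ p.2 ∧ 1 ≤ s.unc e b p.1 p.2) : (A.card : ℝ) ≤ (s.Unc e b : ℝ) := by
  have h1 : A.card ≤ s.Unc e b := by
    unfold Src.Unc
    calc A.card = ∑ _p ∈ A, 1 := by simp
      _ ≤ ∑ p ∈ A, s.unc e b p.1 p.2 := sum_le_sum fun p hp => (hA p hp).2
      _ ≤ ∑ p ∈ (univ : Finset (V × V)).filter (fun p => p.2 ≠ p.1), s.unc e b p.1 p.2 := by
          apply sum_le_sum_of_subset
          intro p hp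
          rw [mem_filter]
          exact ⟨mem_univ _, (hA p hp).1.symm⟩
      _ = ∑ x : V, ∑ y ∈ univ.filter (fun y => y ≠ x), s.unc e b x y := by
          rw [sum_filter, ← univ_product_univ, sum_product]
          apply sum_congr rfl
          intro x _
          rw [sum_filter]
  exact_mod_cast h1

/-- (B3), different root classes of `m` and `m'`: number of pairs `(m, m')`. -/
theorem f_card_pairs {o : V} (ho : o ∈ c.U) (k : ℕ) :
    ((((c.W ×ˢ c.W).filter (fun p => c.H p.1 = k ∧ c.H p.2 = k ∧ c.root p.1 ≠ c.root p.2 ∧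
      g.d p.1 p.2 + 2 * k < 2 * r)).card : ℝ)) * (e ^ 2 / 8) ≤ (c.Un hr e L o : ℝ) := by
  set S := (c.W ×ˢ c.W).filter (fun p => c.H p.1 = k ∧ c.H p.2 = k ∧ c.root p.1 ≠ c.root p.2 ∧
      g.d p.1 p.2 + 2 * k < 2 * r) with hS
  have he := h.he
  -- uncharged pairs of leaves
  let G : V × V → Finset (V × V) := fun p => (lv c p.1 ×ˢ lv c p.2).filter
    (fun q => ¬ (q.2 ∈ (c.src hr).E e q.1 ∨ q.1 ∈ (c.src hr).E e q.2))
  have hG : ∀ p ∈ S, e ^ 2 / 8 ≤ ((G p).card : ℝ) := by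
    intro p hp
    rw [hS, mem_filter, mem_product] at hp
    have h1 : e / 2 ≤ ((lv c p.1).card : ℝ) := h.hdesc p.1 hp.1.1
    have h2 : e / 2 ≤ ((lv c p.2).card : ℝ) := h.hdesc p.2 hp.1.2
    have hbad : (((lv c p.1 ×ˢ lv c p.2).filter
        (fun q => (q.2 ∈ (c.src hr).E e q.1 ∨ q.1 ∈ (c.src hr).E e q.2))).card : ℝ) ≤
        ((lv c p.1).card : ℝ) * c.hU e + ((lv c p.2).card : ℝ) * c.hU e := by
      have hsub : (lv c p.1 ×ˢ lv c p.2).filter
          (fun q => (q.2 ∈ (c.src hr).E e q.1 ∨ q.1 ∈ (c.src hr).E e q.2)) ⊆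
          ((lv c p.1).biUnion fun a => ((c.src hr).E e a).image fun b => (a, b)) ∪
          ((lv c p.2).biUnion fun b => ((c.src hr).E e b).image fun a => (a, b)) := by
        intro q hq
        rw [mem_filter, mem_product] at hq
        rw [mem_union, mem_biUnion, mem_biUnion]
        rcases hq.2 with h3 | h3
        · exact Or.inl ⟨q.1, hq.1.1, mem_image.2 ⟨q.2, h3, rfl⟩⟩
        · exact Or.inr ⟨q.2, hq.1.2, mem_image.2 ⟨q.1, h3, rfl⟩⟩
      have hc := (card_le_card hsub).trans (card_union_le _ _)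
      have hb1 : ((((lv c p.1).biUnion fun a => ((c.src hr).E e a).image fun b => (a, b))).card : ℝ) ≤
          ((lv c p.1).card : ℝ) * c.hU e := by
        have hc1 : ((lv c p.1).biUnion fun a => ((c.src hr).E e a).image fun b => (a, b)).card ≤
            ∑ a ∈ lv c p.1, ((c.src hr).E e a).card :=
          card_biUnion_le.trans (sum_le_sum fun a _ => card_image_le)
        calc ((((lv c p.1).biUnion fun a => ((c.src hr).E e a).image fun b => (a, b))).card : ℝ)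
            ≤ ((∑ a ∈ lv c p.1, ((c.src hr).E e a).card : ℕ) : ℝ) := by exact_mod_cast hc1
          _ = ∑ a ∈ lv c p.1, (((c.src hr).E e a).card : ℝ) := by push_cast; rfl
          _ ≤ ∑ _a ∈ lv c p.1, c.hU e := by
              apply sum_le_sum
              intro a ha
              exact card_E_U h hr (mem_filter.1 ha).1
          _ = _ := by rw [sum_const, nsmul_eq_mul]
      have hb2 : ((((lv c p.2).biUnion fun b => ((c.src hr).E e b).image fun a => (a, b))).card : ℝ) ≤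
          ((lv c p.2).card : ℝ) * c.hU e := by
        have hc1 : ((lv c p.2).biUnion fun b => ((c.src hr).E e b).image fun a => (a, b)).card ≤
            ∑ b ∈ lv c p.2, ((c.src hr).E e b).card :=
          card_biUnion_le.trans (sum_le_sum fun a _ => card_image_le)
        calc ((((lv c p.2).biUnion fun b => ((c.src hr).E e b).image fun a => (a, b))).card : ℝ)
            ≤ ((∑ a ∈ lv c p.2, ((c.src hr).E e a).card : ℕ) : ℝ) := by exact_mod_cast hc1
          _ = ∑ a ∈ lv c p.2, (((c.src hr).E e a).card : ℝ) := by push_cast; rfl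
          _ ≤ ∑ _a ∈ lv c p.2, c.hU e := by
              apply sum_le_sum
              intro a ha
              exact card_E_U h hr (mem_filter.1 ha).1
          _ = _ := by rw [sum_const, nsmul_eq_mul]
      calc _ ≤ (((((lv c p.1).biUnion fun a => ((c.src hr).E e a).image fun b => (a, b))).card +
            (((lv c p.2).biUnion fun b => ((c.src hr).E e b).image fun a => (a, b))).card : ℕ) : ℝ) := by
              exact_mod_cast hc
        _ ≤ _ := by push_cast; linarith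
    have hsplit := card_filter_add_card_filter_not (s := lv c p.1 ×ˢ lv c p.2)
      (fun q => (q.2 ∈ (c.src hr).E e q.1 ∨ q.1 ∈ (c.src hr).E e q.2))
    have hsplit' : ((((lv c p.1 ×ˢ lv c p.2).filter
        (fun q => (q.2 ∈ (c.src hr).E e q.1 ∨ q.1 ∈ (c.src hr).E e q.2))).card : ℝ)) +
        ((G p).card : ℝ) = ((lv c p.1).card : ℝ) * ((lv c p.2).card : ℝ) := by
      rw [card_product] at hsplit
      exact_mod_cast hsplit
    have hUe := h.hUe
    nlinarith [mul_le_mul_of_nonneg_left hUe (le_trans (by linarith : (0 : ℝ) ≤ e / 2) h1),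
      mul_le_mul_of_nonneg_left hUe (le_trans (by linarith : (0 : ℝ) ≤ e / 2) h2),
      mul_le_mul h1 h2 (by linarith) (by linarith)]
  -- the sets are disjoint
  have hdisj : ∀ p ∈ S, ∀ p' ∈ S, p ≠ p' → Disjoint (G p) (G p') := by
    intro p hp p' hp' hne
    rw [hS, mem_filter] at hp hp'
    rw [disjoint_left]
    intro q hq hq'
    apply hne
    have h1 := (mem_product.1 (mem_filter.1 hq).1)
    have h2 := (mem_product.1 (mem_filter.1 hq').1)
    have e1 := (mem_filter.1 h1.1).2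
    have e2 := (mem_filter.1 h1.2).2
    have e3 := (mem_filter.1 h2.1).2
    have e4 := (mem_filter.1 h2.2).2
    rw [hp.2.1] at e1
    rw [hp.2.2.1] at e2
    rw [hp'.2.1] at e3
    rw [hp'.2.2.1] at e4
    exact Prod.ext (e1.symm.trans e3) (e2.symm.trans e4)
  have hcard : (((S.biUnion G).card : ℕ) : ℝ) = ∑ p ∈ S, ((G p).card : ℝ) := by
    rw [card_biUnion hdisj]; push_cast; rfl
  have hunc : (((S.biUnion G).card : ℕ) : ℝ) ≤ (c.Un hr e L o : ℝ) := by
    unfold Un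
    apply f_card_unc
    intro q hq
    rw [mem_biUnion] at hq
    obtain ⟨p, hp, hq⟩ := hq
    rw [hS, mem_filter, mem_product] at hp
    rw [mem_filter, mem_product] at hq
    have e1 := mem_filter.1 hq.1.1
    have e2 := mem_filter.1 hq.1.2
    have hH1 : c.H q.1 = 0 := (c.HU _ (mem_union_left _ e1.1)).2 e1.1
    have hH2 : c.H q.2 = 0 := (c.HU _ (mem_union_left _ e2.1)).2 e2.1
    have hlt1 := c.Hlt p.1 (mem_union_right _ hp.1.1)
    have hlt2 := c.Hlt p.2 (mem_union_right _ hp.1.2)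
    have r1 := f_root_anc c (mem_union_left _ e1.1) (k := c.H p.1) (by omega) hlt1
    have r2 := f_root_anc c (mem_union_left _ e2.1) (k := c.H p.2) (by omega) hlt2
    rw [e1.2] at r1
    rw [e2.2] at r2
    have d1 := f_anc_dist c (mem_union_left _ e1.1) (k := c.H p.1) (by omega) hlt1
    have d2 := f_anc_dist c (mem_union_left _ e2.1) (k := c.H p.2) (by omega) hlt2
    rw [e1.2] at d1
    rw [e2.2] at d2
    have hroot : c.root q.1 ≠ c.root q.2 := by
      rw [← r1, ← r2]; exact hp.2.2.2.1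
    have hne : q.1 ≠ q.2 := fun hh => hroot (by rw [hh])
    refine ⟨hne, ?_⟩
    have hnm : ¬ c.Mates hr e L o q.1 q.2 := by
      intro hm
      have h3 := hm.2.2.2
      unfold clo at h3
      rw [if_pos (show q.1 ∈ c.B from mem_union_left _ e1.1),
        if_pos (show q.2 ∈ c.B from mem_union_left _ e2.1)] at h3
      exact hroot h3
    have hb := bb_far h hr ho (mem_union_left _ e1.1) (mem_union_left _ e2.1) hnm
    unfold Src.unc
    rw [if_neg hq.2, hb]
    have t1 := g.tri q.1 p.1 q.2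
    have t2 := g.tri p.1 p.2 q.2
    have t3 := g.symm p.2 q.2
    have := hp.2.2.2.2
    omega
  have hfin : (S.card : ℝ) * (e ^ 2 / 8) ≤ ∑ p ∈ S, ((G p).card : ℝ) := by
    rw [← nsmul_eq_mul, ← sum_const]
    exact sum_le_sum hG
  linarith

omit h [Fintype V] in
/-- geometry of a quadruple, both middles. -/
theorem f_geo (s : Src g r) {u w y z : V} (hz : z ∈ s.Z u w) (hy : y ∈ s.Z w u) :
    r < g.d u w ∧ g.d u w < 2 * r ∧ g.d (g.P w u r) (g.P u w r) = 2 * r - g.d u w ∧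
    g.d y (g.P w u r) = r ∧ g.d z (g.P u w r) = r ∧
    g.P z (g.P u w r) (2 * r - g.d u w) = w ∧ g.P y (g.P u w r) (2 * r - g.d u w) = u := by
  obtain ⟨a1, a2, a3, a4, a5, a6, a7, a8, a9, a10, a11, a12, a13, a14, a15⟩ := s.quad hz hy
  obtain ⟨b1, b2, b3, b4, b5, b6, b7, b8, b9, b10, b11, b12, b13, b14, b15⟩ := s.quad hy hz
  refine ⟨a1, a2, ?_, b8, a8, a10, a11⟩
  have h1 : g.P w u r = g.P u w (g.d u w - r) := g.rev u w r (by omega)
  have h2 := g.dPP (x := u) (y := w) (i := g.d u w - r) (j := r) (by omega) (by omega)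
  rw [h1, h2]
  omega

omit h [Fintype V] in
theorem f_cardR {α γ : Type} [DecidableEq γ] (s : Finset α) (t : Finset γ) (f : α → γ) (hf : ∀ a ∈ s, f a ∈ t) (n : ℝ)
    (hn : ∀ b ∈ t, ((s.filter (fun a => f a = b)).card : ℝ) ≤ n) : (s.card : ℝ) ≤ n * (t.card : ℝ) := by
  rw [card_eq_sum_card_fiberwise hf]
  push_cast
  calc _ ≤ ∑ _b ∈ t, n := sum_le_sum hn
    _ = n * (t.card : ℝ) := by rw [sum_const, nsmul_eq_mul, mul_comm]

/-- (B3): both tight. -/
theorem typeI_B3 {o : V} (ho : o ∈ c.U) :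
    ((((c.src hr).Q).filter (fun q => q.2.2.1 ∈ c.U ∧ q.2.2.2 ∈ c.U ∧ c.root q.2.2.1 ≠ c.root q.2.2.2 ∧
        Tight h q.1 q.2.1 q.2.2.1 ∧ Tight h q.2.1 q.1 q.2.2.2)).card : ℝ) ≤
      r * (8 * β ^ 2 * (c.Un hr e L o : ℝ) / e ^ 2 + (2 * r * L' / e) * β * (c.Un hr e L o : ℝ)) := by
  set S := ((c.src hr).Q).filter (fun q => q.2.2.1 ∈ c.U ∧ q.2.2.2 ∈ c.U ∧ c.root q.2.2.1 ≠ c.root q.2.2.2 ∧
        Tight h q.1 q.2.1 q.2.2.1 ∧ Tight h q.2.1 q.1 q.2.2.2) with hS
  have he := h.he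
  have hβ := h.hβ
  have hL' := h.hL'
  have hUn : (0 : ℝ) ≤ (c.Un hr e L o : ℝ) := Nat.cast_nonneg _
  -- membership facts
  have hmem : ∀ q ∈ S, q.2.2.2 ∈ (c.src hr).Z q.1 q.2.1 ∧ q.2.2.1 ∈ (c.src hr).Z q.2.1 q.1 ∧ q.2.2.1 ∈ c.U ∧
      q.2.2.2 ∈ c.U ∧ Tight h q.1 q.2.1 q.2.2.1 ∧ Tight h q.2.1 q.1 q.2.2.2 := by
    intro q hq
    rw [hS, mem_filter] at hq
    have hQ := (mem_filter.1 hq.1).2
    exact ⟨hQ.1, hQ.2, hq.2.1, hq.2.2.1, hq.2.2.2.2.1, hq.2.2.2.2.2⟩
  -- determination of the quadruple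
  have hdet : ∀ q ∈ S, ∀ q' ∈ S, g.d q.1 q.2.1 - r = g.d q'.1 q'.2.1 - r → g.P q.1 q.2.1 r = g.P q'.1 q'.2.1 r →
      q.2.2.1 = q'.2.2.1 → q.2.2.2 = q'.2.2.2 → q = q' := by
    intro q hq q' hq' hd hm hy hz
    obtain ⟨z1, y1, -, -, -, -⟩ := hmem q hq
    obtain ⟨z2, y2, -, -, -, -⟩ := hmem q' hq'
    obtain ⟨a1, a2, a3, a4, a5, a6, a7⟩ := f_geo (c.src hr) z1 y1
    obtain ⟨b1, b2, b3, b4, b5, b6, b7⟩ := f_geo (c.src hr) z2 y2
    have hdd : 2 * r - g.d q.1 q.2.1 = 2 * r - g.d q'.1 q'.2.1 := by omega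
    have hw : q.2.1 = q'.2.1 := by rw [← a6, ← b6, hz, hm, hdd]
    have hu : q.1 = q'.1 := by rw [← a7, ← b7, hy, hm, hdd]
    exact Prod.ext hu (Prod.ext hw (Prod.ext hy hz))
  have hsplit := card_filter_add_card_filter_not (s := S)
    (fun q => c.root (g.P q.2.1 q.1 r) = c.root (g.P q.1 q.2.1 r))
  have hsplit' : (S.card : ℝ) = ((S.filter (fun q => c.root (g.P q.2.1 q.1 r) = c.root (g.P q.1 q.2.1 r))).card : ℝ) +
      ((S.filter (fun q => ¬ c.root (g.P q.2.1 q.1 r) = c.root (g.P q.1 q.2.1 r))).card : ℝ) := by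
    exact_mod_cast hsplit.symm
  -- different roots
  have hA : ((S.filter (fun q => ¬ c.root (g.P q.2.1 q.1 r) = c.root (g.P q.1 q.2.1 r))).card : ℝ) ≤
      (8 * β ^ 2 * (c.Un hr e L o : ℝ) / e ^ 2) * ((range r).card : ℝ) := by
    apply f_cardR _ (range r) (fun q => g.d q.1 q.2.1 - r)
    · intro q hq
      rw [mem_filter] at hq
      obtain ⟨z1, y1, -, -, -, -⟩ := hmem q hq.1
      obtain ⟨a1, a2, -⟩ := f_geo (c.src hr) z1 y1
      rw [mem_range]; omega
    · intro k _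
      have hp := f_card_pairs h hr ho k
      set Sk := ((c.W ×ˢ c.W).filter (fun p => c.H p.1 = k ∧ c.H p.2 = k ∧ c.root p.1 ≠ c.root p.2 ∧
        g.d p.1 p.2 + 2 * k < 2 * r)) with hSk
      have h1 : (((S.filter (fun q => ¬ c.root (g.P q.2.1 q.1 r) = c.root (g.P q.1 q.2.1 r))).filter
          (fun q => g.d q.1 q.2.1 - r = k)).card : ℝ) ≤ β ^ 2 * (Sk.card : ℝ) := by
        apply f_cardR _ Sk (fun q => (g.P q.2.1 q.1 r, g.P q.1 q.2.1 r))
        · intro q hq
          rw [mem_filter, mem_filter] at hq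
          obtain ⟨⟨hq1, hq2⟩, hq3⟩ := hq
          obtain ⟨z1, y1, yU, zU, t1, t2⟩ := hmem q hq1
          obtain ⟨a1, a2, a3, a4, a5, a6, a7⟩ := f_geo (c.src hr) z1 y1
          have t3 := t1.2.2
          have t4 := t2.2.2
          have hs := g.symm q.1 q.2.1
          rw [hSk, mem_filter, mem_product]
          refine ⟨⟨t2.1, t1.1⟩, ?_, ?_, hq2, ?_⟩
          · show c.H (g.P q.2.1 q.1 r) = k
            omega
          · show c.H (g.P q.1 q.2.1 r) = k
            omega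
          · show g.d (g.P q.2.1 q.1 r) (g.P q.1 q.2.1 r) + 2 * k < 2 * r
            rw [a3]; omega
        · intro p _
          set Fb := ((S.filter (fun q => ¬ c.root (g.P q.2.1 q.1 r) = c.root (g.P q.1 q.2.1 r))).filter
            (fun q => g.d q.1 q.2.1 - r = k)).filter (fun q => (g.P q.2.1 q.1 r, g.P q.1 q.2.1 r) = p) with hFb
          have hFm : ∀ q ∈ Fb, q ∈ S ∧ g.d q.1 q.2.1 - r = k ∧ g.P q.2.1 q.1 r = p.1 ∧ g.P q.1 q.2.1 r = p.2 := by
            intro q hq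
            rw [hFb, mem_filter, mem_filter, mem_filter] at hq
            exact ⟨hq.1.1.1, hq.1.2, congrArg Prod.fst hq.2, congrArg Prod.snd hq.2⟩
          rcases Fb.eq_empty_or_nonempty with h0 | ⟨q0, hq0⟩
          · rw [h0]; simp; positivity
          · obtain ⟨hs0, hd0, hm0, hm0'⟩ := hFm q0 hq0
            obtain ⟨z1, y1, yU, zU, t1, t2⟩ := hmem q0 hs0
            obtain ⟨-, -, c1, -, c2, -⟩ := B_ball h hr z1 y1 yU zU
            rw [hm0'] at c1
            rw [hm0] at c2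
            have h2 : Fb.card ≤ (g.ball r p.1 ×ˢ g.ball r p.2).card := by
              apply card_le_card_of_injOn (fun q => (q.2.2.1, q.2.2.2))
              · intro q hq
                obtain ⟨hs1, hd1, hm1, hm1'⟩ := hFm q hq
                obtain ⟨z3, y3, -, -, -, -⟩ := hmem q hs1
                obtain ⟨a1, a2, a3, a4, a5, a6, a7⟩ := f_geo (c.src hr) z3 y3
                rw [hm1] at a4
                rw [hm1'] at a5
                simp only [coe_product, Set.mem_prod, mem_coe]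
                unfold Geo.ball
                rw [mem_filter, mem_filter]
                exact ⟨⟨mem_univ _, by rw [g.symm]; exact a4.le⟩, ⟨mem_univ _, by rw [g.symm]; exact a5.le⟩⟩
              · intro q hq q' hq' hqq
                obtain ⟨hs1, hd1, hm1, hm1'⟩ := hFm q hq
                obtain ⟨hs2, hd2, hm2, hm2'⟩ := hFm q' hq'
                exact hdet q hs1 q' hs2 (by rw [hd1, hd2]) (by rw [hm1', hm2']) (congrArg Prod.fst hqq)
                  (congrArg Prod.snd hqq)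
            rw [card_product] at h2
            have h3 : (Fb.card : ℝ) ≤ ((g.ball r p.1).card : ℝ) * ((g.ball r p.2).card : ℝ) := by exact_mod_cast h2
            calc (Fb.card : ℝ) ≤ ((g.ball r p.1).card : ℝ) * ((g.ball r p.2).card : ℝ) := h3
              _ ≤ β * β := mul_le_mul c2 c1 (Nat.cast_nonneg _) hβ
              _ = β ^ 2 := by ring
      refine h1.trans ?_
      have he2 : (0 : ℝ) < e ^ 2 := by positivity
      rw [le_div_iff₀ he2]
      have : β ^ 2 * ((Sk.card : ℝ) * (e ^ 2 / 8)) ≤ β ^ 2 * (c.Un hr e L o : ℝ) :=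
        mul_le_mul_of_nonneg_left hp (by positivity)
      linarith
  -- same root
  set A := (univ : Finset (V × V)).filter (fun p => p.1 ≠ p.2 ∧ 1 ≤ (c.src hr).unc e (c.bb hr e L o) p.1 p.2) with hAdef
  have hAc : (A.card : ℝ) ≤ (c.Un hr e L o : ℝ) := by
    unfold Un
    apply f_card_unc
    intro p hp
    exact (mem_filter.1 hp).2
  have hB : ((S.filter (fun q => c.root (g.P q.2.1 q.1 r) = c.root (g.P q.1 q.2.1 r))).card : ℝ) ≤
      ((2 * r * L' / e) * β) * (((range r) ×ˢ A).card : ℝ) := by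
    apply f_cardR _ ((range r) ×ˢ A) (fun q => (g.d q.1 q.2.1 - r, (q.2.2.1, g.P q.2.1 q.1 r)))
    · intro q hq
      rw [mem_filter] at hq
      obtain ⟨z1, y1, yU, zU, t1, t2⟩ := hmem q hq.1
      obtain ⟨a1, a2, a3, a4, a5, a6, a7⟩ := f_geo (c.src hr) z1 y1
      rw [mem_product, mem_range]
      refine ⟨by show g.d q.1 q.2.1 - r < r; omega, ?_⟩
      have hroot : c.root q.2.2.1 ≠ c.root (g.P q.2.1 q.1 r) := by
        rw [hq.2]; exact t1.2.1.symm
      have hne : q.2.2.1 ≠ g.P q.2.1 q.1 r := fun hh => hroot (by rw [← hh])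
      rw [hAdef, mem_filter]
      refine ⟨mem_univ _, hne, ?_⟩
      apply close h hr ho hne a4.le (Or.inl (mem_union_left _ yU))
      · intro hm
        have h3 := hm.2.2.2
        unfold clo at h3
        rw [if_pos (show q.2.2.1 ∈ c.B from mem_union_left _ yU),
          if_pos (show g.P q.2.1 q.1 r ∈ c.B from mem_union_right _ t2.1)] at h3
        exact hroot h3
      · intro hh
        have h4 := (c.hmm _ hh.1).1
        rw [← hh.2] at h4
        exact (disjoint_left.1 c.dWM t2.1) h4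
      · intro hh
        have h4 := (c.hmm _ hh.1).1
        rw [← hh.2] at h4
        exact (disjoint_left.1 c.dUM yU) h4
    · intro b _
      set Fb := (S.filter (fun q => c.root (g.P q.2.1 q.1 r) = c.root (g.P q.1 q.2.1 r))).filter
        (fun q => (g.d q.1 q.2.1 - r, (q.2.2.1, g.P q.2.1 q.1 r)) = b) with hFb
      have hFm : ∀ q ∈ Fb, q ∈ S ∧ c.root (g.P q.2.1 q.1 r) = c.root (g.P q.1 q.2.1 r) ∧ g.d q.1 q.2.1 - r = b.1 ∧
          q.2.2.1 = b.2.1 ∧ g.P q.2.1 q.1 r = b.2.2 := by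
        intro q hq
        rw [hFb, mem_filter, mem_filter] at hq
        exact ⟨hq.1.1, hq.1.2, congrArg Prod.fst hq.2, congrArg (fun x => x.2.1) hq.2, congrArg (fun x => x.2.2) hq.2⟩
      have h1 : (Fb.card : ℝ) ≤ β * ((c.W.filter (fun w => c.root w = c.root b.2.2)).card : ℝ) := by
        apply f_cardR _ (c.W.filter (fun w => c.root w = c.root b.2.2)) (fun q => g.P q.1 q.2.1 r)
        · intro q hq
          obtain ⟨hs1, hr1, hd1, hy1, hm1⟩ := hFm q hq
          obtain ⟨z1, y1, yU, zU, t1, t2⟩ := hmem q hs1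
          rw [mem_filter]
          exact ⟨t1.1, by rw [← hm1, hr1]⟩
        · intro m' _
          rcases (Fb.filter (fun q => g.P q.1 q.2.1 r = m')).eq_empty_or_nonempty with h0 | ⟨q0, hq0⟩
          · rw [h0]; simpa using hβ
          · rw [mem_filter] at hq0
            obtain ⟨hs0, hr0, hd0, hy0, hm0⟩ := hFm q0 hq0.1
            obtain ⟨z1, y1, yU, zU, t1, t2⟩ := hmem q0 hs0
            obtain ⟨-, -, c1, -, c2, -⟩ := B_ball h hr z1 y1 yU zU
            rw [hq0.2] at c1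
            refine le_trans ?_ c1
            have : (Fb.filter (fun q => g.P q.1 q.2.1 r = m')).card ≤ (g.ball r m').card := by
              apply card_le_card_of_injOn (fun q => q.2.2.2)
              · intro q hq
                rw [mem_coe, mem_filter] at hq
                obtain ⟨hs1, hr1, hd1, hy1, hm1⟩ := hFm q hq.1
                obtain ⟨z3, y3, -, -, -, -⟩ := hmem q hs1
                obtain ⟨a1, a2, a3, a4, a5, a6, a7⟩ := f_geo (c.src hr) z3 y3
                rw [hq.2] at a5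
                rw [mem_coe]
                unfold Geo.ball
                rw [mem_filter]
                exact ⟨mem_univ _, by rw [g.symm]; exact a5.le⟩
              · intro q hq q' hq' hqq
                rw [mem_coe, mem_filter] at hq hq'
                obtain ⟨hs1, hr1, hd1, hy1, hm1⟩ := hFm q hq.1
                obtain ⟨hs2, hr2, hd2, hy2, hm2⟩ := hFm q' hq'.1
                exact hdet q hs1 q' hs2 (by rw [hd1, hd2]) (by rw [hq.2, hq'.2]) (by rw [hy1, hy2]) hqq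
            exact_mod_cast this
      have h2 := card_W_class h (c.root b.2.2)
      have h3 : ((c.W.filter (fun w => c.root w = c.root b.2.2)).card : ℝ) ≤ 2 * r * L' / e := by
        rw [le_div_iff₀ (by linarith)]; exact h2
      calc (Fb.card : ℝ) ≤ β * ((c.W.filter (fun w => c.root w = c.root b.2.2)).card : ℝ) := h1
        _ ≤ β * (2 * r * L' / e) := mul_le_mul_of_nonneg_left h3 hβ
        _ = (2 * r * L' / e) * β := by ring
  rw [card_range] at hA
  rw [card_product, card_range] at hB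
  push_cast at hB
  have hB2 : ((2 * r * L' / e) * β) * ((r : ℝ) * (A.card : ℝ)) ≤ ((2 * r * L' / e) * β) * ((r : ℝ) * (c.Un hr e L o : ℝ)) := by
    apply mul_le_mul_of_nonneg_left
    · exact mul_le_mul_of_nonneg_left hAc (Nat.cast_nonneg _)
    · have : (0 : ℝ) ≤ 2 * r * L' / e := by positivity
      positivity
  rw [hsplit']
  linarith

/-- the complete Type I bound. Needs COREd. -/
theorem typeI_all {o : V} (ho : o ∈ c.U) (K : ℝ)
    (hA : ((((c.src hr).Q).filter (fun q => q.2.2.1 ∈ c.X)).card : ℝ) ≤ K)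
    (hA' : ((((c.src hr).Q).filter (fun q => q.2.2.2 ∈ c.X)).card : ℝ) ≤ K) :
    (((c.src hr).Q).card : ℝ) ≤ 2 * K + r * (c.L2 e L L' * (c.Un hr e L o : ℝ))
      + 2 * r * (β * (c.Un hr e L o : ℝ) + c.L2 e L L' * (c.Un hr e L o : ℝ) + c.hX e * (c.Un hr e L o : ℝ)
        + ((Fintype.card V : ℝ) * c.hU e + (c.X.card : ℝ) * c.hX e) * c.L2 e L L'
        + (Fintype.card V : ℝ) * (((c.PP hr e L o).card : ℝ) + (c.X.card : ℝ) * c.L2 e L L') / e)
      + r * (8 * β ^ 2 * (c.Un hr e L o : ℝ) / e ^ 2 + (2 * r * L' / e) * β * (c.Un hr e L o : ℝ)) := by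
  have h1 := typeI_B1 h hr ho
  have h2 := typeI_B2 h hr ho
  have h3 := typeI_B2' h hr ho
  have h4 := typeI_B3 h hr ho
  have hcov : (c.src hr).Q ⊆ (((c.src hr).Q).filter (fun q => q.2.2.1 ∈ c.X)) ∪
      ((((c.src hr).Q).filter (fun q => q.2.2.2 ∈ c.X)) ∪
      ((((c.src hr).Q).filter (fun q => q.2.2.1 ∈ c.U ∧ q.2.2.2 ∈ c.U ∧ c.root q.2.2.1 = c.root q.2.2.2)) ∪
      ((((c.src hr).Q).filter (fun q => q.2.2.1 ∈ c.U ∧ q.2.2.2 ∈ c.U ∧ c.root q.2.2.1 ≠ c.root q.2.2.2 ∧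
        ¬ Tight h q.1 q.2.1 q.2.2.1)) ∪
      ((((c.src hr).Q).filter (fun q => q.2.2.1 ∈ c.U ∧ q.2.2.2 ∈ c.U ∧ c.root q.2.2.1 ≠ c.root q.2.2.2 ∧
        ¬ Tight h q.2.1 q.1 q.2.2.2)) ∪
      (((c.src hr).Q).filter (fun q => q.2.2.1 ∈ c.U ∧ q.2.2.2 ∈ c.U ∧ c.root q.2.2.1 ≠ c.root q.2.2.2 ∧
        Tight h q.1 q.2.1 q.2.2.1 ∧ Tight h q.2.1 q.1 q.2.2.2)))))) := by
    intro q hq
    have hQ := (mem_filter.1 hq).2
    have hz := (F_sub h hr ((c.src hr).mem_Z.1 hQ.1).1).2.1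
    have hy := (F_sub h hr ((c.src hr).mem_Z.1 hQ.2).1).2.1
    simp only [mem_union, mem_filter]
    rcases mem_union.1 hy with hy | hy
    · rcases mem_union.1 hz with hz | hz
      · by_cases hrt : c.root q.2.2.1 = c.root q.2.2.2
        · exact Or.inr (Or.inr (Or.inl ⟨hq, hy, hz, hrt⟩))
        · by_cases ht1 : Tight h q.1 q.2.1 q.2.2.1
          · by_cases ht2 : Tight h q.2.1 q.1 q.2.2.2
            · exact Or.inr (Or.inr (Or.inr (Or.inr (Or.inr ⟨hq, hy, hz, hrt, ht1, ht2⟩))))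
            · exact Or.inr (Or.inr (Or.inr (Or.inr (Or.inl ⟨hq, hy, hz, hrt, ht2⟩))))
          · exact Or.inr (Or.inr (Or.inr (Or.inl ⟨hq, hy, hz, hrt, ht1⟩)))
      · exact Or.inr (Or.inl ⟨hq, hz⟩)
    · exact Or.inl ⟨hq, hy⟩
  have hc := card_le_card hcov
  have hu : ∀ (a b : Finset (V × V × V × V)), ((a ∪ b).card : ℝ) ≤ (a.card : ℝ) + (b.card : ℝ) := by
    intro a b
    exact_mod_cast card_union_le a b
  have hc' := (Nat.cast_le (α := ℝ)).2 hc
  have u1 := hu (((c.src hr).Q).filter (fun q => q.2.2.1 ∈ c.X))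
      ((((c.src hr).Q).filter (fun q => q.2.2.2 ∈ c.X)) ∪
      ((((c.src hr).Q).filter (fun q => q.2.2.1 ∈ c.U ∧ q.2.2.2 ∈ c.U ∧ c.root q.2.2.1 = c.root q.2.2.2)) ∪
      ((((c.src hr).Q).filter (fun q => q.2.2.1 ∈ c.U ∧ q.2.2.2 ∈ c.U ∧ c.root q.2.2.1 ≠ c.root q.2.2.2 ∧
        ¬ Tight h q.1 q.2.1 q.2.2.1)) ∪
      ((((c.src hr).Q).filter (fun q => q.2.2.1 ∈ c.U ∧ q.2.2.2 ∈ c.U ∧ c.root q.2.2.1 ≠ c.root q.2.2.2 ∧
        ¬ Tight h q.2.1 q.1 q.2.2.2)) ∪
      (((c.src hr).Q).filter (fun q => q.2.2.1 ∈ c.U ∧ q.2.2.2 ∈ c.U ∧ c.root q.2.2.1 ≠ c.root q.2.2.2 ∧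
        Tight h q.1 q.2.1 q.2.2.1 ∧ Tight h q.2.1 q.1 q.2.2.2))))))
  have u2 := hu (((c.src hr).Q).filter (fun q => q.2.2.2 ∈ c.X))
      ((((c.src hr).Q).filter (fun q => q.2.2.1 ∈ c.U ∧ q.2.2.2 ∈ c.U ∧ c.root q.2.2.1 = c.root q.2.2.2)) ∪
      ((((c.src hr).Q).filter (fun q => q.2.2.1 ∈ c.U ∧ q.2.2.2 ∈ c.U ∧ c.root q.2.2.1 ≠ c.root q.2.2.2 ∧
        ¬ Tight h q.1 q.2.1 q.2.2.1)) ∪
      ((((c.src hr).Q).filter (fun q => q.2.2.1 ∈ c.U ∧ q.2.2.2 ∈ c.U ∧ c.root q.2.2.1 ≠ c.root q.2.2.2 ∧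
        ¬ Tight h q.2.1 q.1 q.2.2.2)) ∪
      (((c.src hr).Q).filter (fun q => q.2.2.1 ∈ c.U ∧ q.2.2.2 ∈ c.U ∧ c.root q.2.2.1 ≠ c.root q.2.2.2 ∧
        Tight h q.1 q.2.1 q.2.2.1 ∧ Tight h q.2.1 q.1 q.2.2.2)))))
  have u3 := hu (((c.src hr).Q).filter (fun q => q.2.2.1 ∈ c.U ∧ q.2.2.2 ∈ c.U ∧ c.root q.2.2.1 = c.root q.2.2.2))
      ((((c.src hr).Q).filter (fun q => q.2.2.1 ∈ c.U ∧ q.2.2.2 ∈ c.U ∧ c.root q.2.2.1 ≠ c.root q.2.2.2 ∧
        ¬ Tight h q.1 q.2.1 q.2.2.1)) ∪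
      ((((c.src hr).Q).filter (fun q => q.2.2.1 ∈ c.U ∧ q.2.2.2 ∈ c.U ∧ c.root q.2.2.1 ≠ c.root q.2.2.2 ∧
        ¬ Tight h q.2.1 q.1 q.2.2.2)) ∪
      (((c.src hr).Q).filter (fun q => q.2.2.1 ∈ c.U ∧ q.2.2.2 ∈ c.U ∧ c.root q.2.2.1 ≠ c.root q.2.2.2 ∧
        Tight h q.1 q.2.1 q.2.2.1 ∧ Tight h q.2.1 q.1 q.2.2.2))))
  have u4 := hu (((c.src hr).Q).filter (fun q => q.2.2.1 ∈ c.U ∧ q.2.2.2 ∈ c.U ∧ c.root q.2.2.1 ≠ c.root q.2.2.2 ∧
        ¬ Tight h q.1 q.2.1 q.2.2.1))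
      ((((c.src hr).Q).filter (fun q => q.2.2.1 ∈ c.U ∧ q.2.2.2 ∈ c.U ∧ c.root q.2.2.1 ≠ c.root q.2.2.2 ∧
        ¬ Tight h q.2.1 q.1 q.2.2.2)) ∪
      (((c.src hr).Q).filter (fun q => q.2.2.1 ∈ c.U ∧ q.2.2.2 ∈ c.U ∧ c.root q.2.2.1 ≠ c.root q.2.2.2 ∧
        Tight h q.1 q.2.1 q.2.2.1 ∧ Tight h q.2.1 q.1 q.2.2.2)))
  have u5 := hu (((c.src hr).Q).filter (fun q => q.2.2.1 ∈ c.U ∧ q.2.2.2 ∈ c.U ∧ c.root q.2.2.1 ≠ c.root q.2.2.2 ∧
        ¬ Tight h q.2.1 q.1 q.2.2.2))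
      (((c.src hr).Q).filter (fun q => q.2.2.1 ∈ c.U ∧ q.2.2.2 ∈ c.U ∧ c.root q.2.2.1 ≠ c.root q.2.2.2 ∧
        Tight h q.1 q.2.1 q.2.2.1 ∧ Tight h q.2.1 q.1 q.2.2.2))
  linarith

end Core

end Pool.Agent.Wi
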