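import Pool.Agent.Wi.Charges

/-! Global hypotheses and the first source system (section 4). -/

namespace Pool.Agent.Wi

open Finset
open scoped Classical

/-- number of vertices as a real number and its square root. -/
noncomputable def nn (V : Type) [Fintype V] : ℝ := (Fintype.card V : ℝ)
noncomputable def ss (V : Type) [Fintype V] : ℝ := Real.sqrt (Fintype.card V : ℝ)

/-- global hypotheses: diameter, Lemma A, size of tau, and the hypothesis (H) to be refuted. -/
structure Glob {V : Type} [Fintype V] (g : Geo V) (r : ℕ) (Lam K0 : ℝ) (tau : ℕ) : Prop where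
  diam : ∀ x y, g.d x y ≤ 2 * r
  lemA : ∀ T : LF r V, T.S.card ≤ Fintype.card V - 1 →
    (tau : ℝ) - Lam * ss V * (((Fintype.card V - 1 : ℕ) : ℝ) - (T.S.card : ℝ)) ≤ (T.cost (Fintype.card V - 1) : ℝ)
  tauK : (tau : ℝ) ≤ K0 * nn V * ss V
  hH : g.D2 r ≤ 2 * (r * (Fintype.card V - 1) + tau)

/-- constants of the first part: `Lam, K0` from Lemma A, efficiency `eta`, class size `C`. -/
structure Cst (r : ℕ) (Lam K0 eta C : ℝ) : Prop where
  hr : 2 ≤ r
  hLam : 1 ≤ Lam
  hK0 : 1 ≤ K0
  heta : 0 < eta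
  heta2 : 64 * Lam * eta ≤ 1
  hC : 16 * Lam + 4 * r / eta + 4 ≤ C

/-- light sources. -/
noncomputable def lightO {V : Type} [Fintype V] (g : Geo V) (r : ℕ) (eps0 : ℝ) : Finset V :=
  univ.filter (fun x => ((g.ball (2 * r - 1) x).card : ℝ) ≤ eps0 * nn V)

/-- the first source system: light sources, all targets. -/
noncomputable def s1 {V : Type} [Fintype V] (g : Geo V) (r : ℕ) (hr : 1 ≤ r) (eps0 : ℝ) : Src g r :=
  srcGam g r hr univ (lightO g r eps0)

/-- uncharged total of section 4 for the reference `o`. -/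
noncomputable def U1 {V : Type} [Fintype V] (g : Geo V) (r : ℕ) (hr : 1 ≤ r) (eps0 eta C : ℝ) (o : V) : ℕ :=
  (s1 g r hr eps0).Unc (eta * ss V) ((s1 g r hr eps0).near (eta * ss V) (C * ss V) o)

/-- large points of radius `r` balls. -/
noncomputable def bigM {V : Type} [Fintype V] (g : Geo V) (r : ℕ) (b : ℝ) : Finset V :=
  univ.filter (fun m => b < ((g.ball r m).card : ℝ))

end Pool.Agent.Wi
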