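import Pool.Agent.Wi.COREb
import Pool.Agent.Wi.COREd
import Pool.Agent.Wi.COREf
import Pool.Agent.Wi.Glob

/-! MODULE ACCd: sizes of `PP` and `Q` in terms of `ξ` (real arithmetic from COREb, COREd, COREf). -/

namespace Pool.Agent.Wi

open Finset
open scoped Classical

/-- the real arithmetic behind `acc_Q`, with `a = 1 / eta`, `s = sqrt n`, `x = |X|`, `b = β`, `u = Un`. -/
private lemma accd_real {r a C C1 d s ξ x b u D P c2 : ℝ} (hr : 1 ≤ r) (ha : 0 < a) (hC : 0 ≤ C)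
    (hC1 : 0 ≤ C1) (hd : 0 ≤ d) (hs : 1 ≤ s) (hξ : 0 < ξ) (hξ1 : ξ ≤ 1) (hx0 : 0 ≤ x)
    (hx : x ≤ ξ * s ^ 2) (hb0 : 0 ≤ b) (hb : b ≤ ξ * s ^ 2) (hu : 0 ≤ u) (hD0 : 0 ≤ D)
    (hD : D ≤ d * s ^ 3) (hP : P ≤ 4 * r * a * ξ * s ^ 3 + u) (hc2 : c2 = C1 + C + 2 * r * C1 * a)
    {hU hX L2 : ℝ} (eU : hU = r * a * (x / s)) (eX : hX = r * a * s)
    (eL : L2 = C1 * s + C * s + 2 * r * C1 * a) :
    2 * (r * (x * u + 2 * L2 * u + (s ^ 2 * hU + x * hX) * L2 + a * (x / s) * D)) + r * (L2 * u)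
      + 2 * r * (b * u + L2 * u + hX * u + (s ^ 2 * hU + x * hX) * L2 + a * s * (P + x * L2))
      + r * (8 * a ^ 2 * (b / s) ^ 2 * u + (2 * r * C1 * a) * b * u) ≤
    (2 * r * (2 * r * a * c2 + a * d) + 2 * r * (2 * r * a * c2) + 2 * r * (4 * r * a ^ 2 + a * c2))
        * (ξ * s ^ 4)
      + (2 * r + 2 * r + r * (8 * a ^ 2) + r * (2 * r * C1 * a)) * (ξ * s ^ 2 * u)
      + (4 * r * c2 + r * c2 + 2 * r * c2 + 2 * r * (r * a) + 2 * r * a) * (s * u) := by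
  have hs0 : 0 < s := by linarith
  have hr0 : 0 ≤ r := by linarith
  have hc20 : 0 ≤ c2 := by rw [hc2]; positivity
  have hxs0 : 0 ≤ x / s := by positivity
  have hbs0 : 0 ≤ b / s := by positivity
  have hxs : x / s ≤ ξ * s := by
    rw [div_le_iff₀ hs0]
    exact hx.trans (le_of_eq (by ring))
  have hbs : b / s ≤ ξ * s := by
    rw [div_le_iff₀ hs0]
    exact hb.trans (le_of_eq (by ring))
  have hL : L2 ≤ c2 * s := by
    rw [eL, hc2]
    have h0 : 2 * r * C1 * a * 1 ≤ 2 * r * C1 * a * s := by gcongr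
    have h00 : (C1 + C + 2 * r * C1 * a) * s = C1 * s + C * s + 2 * r * C1 * a * s := by ring
    rw [h00]
    linarith
  have hL0 : 0 ≤ L2 := by rw [eL]; positivity
  have hU1 : hU ≤ r * a * ξ * s := by
    rw [eU]
    calc r * a * (x / s) ≤ r * a * (ξ * s) := by gcongr
      _ = _ := by ring
  have hU0 : 0 ≤ hU := by rw [eU]; positivity
  have hX0 : 0 ≤ hX := by rw [eX]; positivity
  -- the sum `n hU + |X| hX`
  have h4 : s ^ 2 * hU + x * hX ≤ 2 * r * a * ξ * s ^ 3 := by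
    calc s ^ 2 * hU + x * hX ≤ s ^ 2 * (r * a * ξ * s) + (ξ * s ^ 2) * hX := by gcongr
      _ = 2 * r * a * ξ * s ^ 3 := by rw [eX]; ring
  have h5 : (s ^ 2 * hU + x * hX) * L2 ≤ (2 * r * a * c2) * (ξ * s ^ 4) := by
    calc (s ^ 2 * hU + x * hX) * L2 ≤ (2 * r * a * ξ * s ^ 3) * (c2 * s) := by gcongr
      _ = _ := by ring
  have h6 : a * (x / s) * D ≤ (a * d) * (ξ * s ^ 4) := by
    calc a * (x / s) * D ≤ a * (ξ * s) * (d * s ^ 3) := by gcongr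
      _ = _ := by ring
  have h7 : a * s * (P + x * L2) ≤ (4 * r * a ^ 2 + a * c2) * (ξ * s ^ 4) + a * (s * u) := by
    calc a * s * (P + x * L2) ≤ a * s * ((4 * r * a * ξ * s ^ 3 + u) + (ξ * s ^ 2) * (c2 * s)) := by
          gcongr
      _ = _ := by ring
  have h8 : 8 * a ^ 2 * (b / s) ^ 2 * u ≤ (8 * a ^ 2) * (ξ * s ^ 2 * u) := by
    have h1 : (b / s) ^ 2 ≤ ξ * s ^ 2 := by
      calc (b / s) ^ 2 ≤ (ξ * s) ^ 2 := by gcongr
        _ = ξ * (ξ * s ^ 2) := by ring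
        _ ≤ 1 * (ξ * s ^ 2) := by gcongr
        _ = ξ * s ^ 2 := one_mul _
    calc 8 * a ^ 2 * (b / s) ^ 2 * u ≤ 8 * a ^ 2 * (ξ * s ^ 2) * u := by gcongr
      _ = _ := by ring
  have h9 : (2 * r * C1 * a) * b * u ≤ (2 * r * C1 * a) * (ξ * s ^ 2 * u) := by
    calc (2 * r * C1 * a) * b * u ≤ (2 * r * C1 * a) * (ξ * s ^ 2) * u := by gcongr
      _ = _ := by ring
  have h10 : x * u ≤ ξ * s ^ 2 * u := by gcongr
  have h11 : b * u ≤ ξ * s ^ 2 * u := by gcongr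
  have h12 : L2 * u ≤ c2 * (s * u) := by
    calc L2 * u ≤ (c2 * s) * u := by gcongr
      _ = _ := by ring
  have h13 : hX * u = (r * a) * (s * u) := by rw [eX]; ring
  have h14 : 2 * L2 * u ≤ 2 * (c2 * (s * u)) := by
    rw [mul_assoc]; gcongr
  have hA : 2 * (r * (x * u + 2 * L2 * u + (s ^ 2 * hU + x * hX) * L2 + a * (x / s) * D)) ≤
      2 * (r * (ξ * s ^ 2 * u + 2 * (c2 * (s * u)) + (2 * r * a * c2) * (ξ * s ^ 4)
        + (a * d) * (ξ * s ^ 4))) := by gcongr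
  have hB : r * (L2 * u) ≤ r * (c2 * (s * u)) := by gcongr
  have hE : 2 * r * (b * u + L2 * u + hX * u + (s ^ 2 * hU + x * hX) * L2 + a * s * (P + x * L2)) ≤
      2 * r * (ξ * s ^ 2 * u + c2 * (s * u) + (r * a) * (s * u) + (2 * r * a * c2) * (ξ * s ^ 4)
        + ((4 * r * a ^ 2 + a * c2) * (ξ * s ^ 4) + a * (s * u))) := by
    rw [h13]; gcongr
  have hF : r * (8 * a ^ 2 * (b / s) ^ 2 * u + (2 * r * C1 * a) * b * u) ≤
      r * ((8 * a ^ 2) * (ξ * s ^ 2 * u) + (2 * r * C1 * a) * (ξ * s ^ 2 * u)) := by gcongr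
  refine le_trans (add_le_add (add_le_add (add_le_add hA hB) hE) hF) (le_of_eq ?_)
  ring

theorem acc_Q {r : ℕ} {Lam K0 eta C : ℝ} (hc : Cst r Lam K0 eta C) {C1 : ℝ} (hC1 : 1 ≤ C1) :
    ∃ K : ℝ, 0 < K ∧ ∀ (V : Type) [Fintype V] (g : Geo V) (tau : ℕ) (c : Core g r) (β ξ : ℝ), 1 ≤ nn V →
      Glob g r Lam K0 tau → c.Hyp (eta * ss V) (C * ss V) (C1 * ss V) β → 0 < ξ → ξ ≤ 1 → β ≤ ξ * nn V →
      (c.X.card : ℝ) ≤ ξ * nn V → ∀ o ∈ c.U,
      ((c.PP (by have := hc.hr; omega) (eta * ss V) (C * ss V) o).card : ℝ) ≤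
        K * ξ * nn V * ss V + (c.Un (by have := hc.hr; omega) (eta * ss V) (C * ss V) o : ℝ) ∧
      ((c.src (by have := hc.hr; omega)).Q.card : ℝ) ≤ K * ξ * nn V * nn V +
        (K * ξ * nn V + K * ss V) * (c.Un (by have := hc.hr; omega) (eta * ss V) (C * ss V) o : ℝ) := by
  have heta := hc.heta
  have hrN : 1 ≤ r := by have := hc.hr; omega
  have hr1 : (1 : ℝ) ≤ r := by exact_mod_cast hrN
  have hr0 : (0 : ℝ) ≤ r := by linarith
  have hK0 := hc.hK0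
  have hLam := hc.hLam
  set a : ℝ := 1 / eta with ha
  have ha0 : 0 < a := by positivity
  have hC0 : 0 ≤ C := by
    have h1 := hc.hC
    have h2 : 0 ≤ 4 * (r : ℝ) / eta := by positivity
    linarith
  set c2 : ℝ := C1 + C + 2 * r * C1 * a with hc2
  have hc20 : 0 ≤ c2 := by rw [hc2]; positivity
  set d : ℝ := 2 * r + 2 * K0 with hd
  have hd0 : 0 ≤ d := by rw [hd]; positivity
  set A1 : ℝ := 2 * r * (2 * r * a * c2 + a * d) + 2 * r * (2 * r * a * c2)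
    + 2 * r * (4 * r * a ^ 2 + a * c2) with hA1
  set A2 : ℝ := 2 * r + 2 * r + r * (8 * a ^ 2) + r * (2 * r * C1 * a) with hA2
  set A3 : ℝ := 4 * r * c2 + r * c2 + 2 * r * c2 + 2 * r * (r * a) + 2 * r * a with hA3
  have hA10 : 0 ≤ A1 := by rw [hA1]; positivity
  have hA20 : 0 ≤ A2 := by rw [hA2]; positivity
  have hA30 : 0 ≤ A3 := by rw [hA3]; positivity
  have hA40 : 0 ≤ 4 * r * a := by positivity
  refine ⟨A1 + A2 + A3 + 4 * r * a + 1, by linarith, ?_⟩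
  intro V _ g tau c β ξ hn hG h hξ hξ1 hβ hX o ho
  set K : ℝ := A1 + A2 + A3 + 4 * r * a + 1 with hK
  set s : ℝ := ss V with hs
  have hs2 : nn V = s ^ 2 := by
    rw [hs]; unfold nn ss
    rw [Real.sq_sqrt (Nat.cast_nonneg _)]
  have hs1 : 1 ≤ s := by
    rw [hs]; unfold ss
    rw [Real.one_le_sqrt]; exact hn
  have hs0 : 0 < s := by linarith
  have hcard : (Fintype.card V : ℝ) = s ^ 2 := hs2
  have hβ0 := h.hβ
  set x : ℝ := (c.X.card : ℝ) with hx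
  have hx0 : 0 ≤ x := Nat.cast_nonneg _
  set u : ℝ := (c.Un hrN (eta * s) (C * s) o : ℝ) with hu
  have hu0 : 0 ≤ u := Nat.cast_nonneg _
  rw [hs2] at hβ hX
  have eU : c.hU (eta * s) = r * a * (x / s) := by
    unfold Core.hU
    rw [ha, ← hx]; field_simp
  have eX : c.hX (eta * s) = r * a * s := by
    unfold Core.hX
    rw [ha, hcard]; field_simp
  have eL : c.L2 (eta * s) (C * s) (C1 * s) = C1 * s + C * s + 2 * r * C1 * a := by
    unfold Core.L2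
    rw [ha]; field_simp
  have hxs : x / s ≤ ξ * s := by
    rw [div_le_iff₀ hs0]
    exact hX.trans (le_of_eq (by ring))
  -- `PP`
  have hPP0 := Core.card_PP h hrN ho
  rw [hcard, eU, eX, ← hx, ← hu] at hPP0
  have hPP : ((c.PP hrN (eta * s) (C * s) o).card : ℝ) ≤ 4 * r * a * ξ * s ^ 3 + u := by
    refine hPP0.trans ?_
    have h1 : s ^ 2 * (r * a * (x / s)) + x * (r * a * s) ≤
        s ^ 2 * (r * a * (ξ * s)) + (ξ * s ^ 2) * (r * a * s) := by gcongr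
    have h2 : s ^ 2 * (r * a * (ξ * s)) + (ξ * s ^ 2) * (r * a * s) = 2 * (r * a * ξ * s ^ 3) := by
      ring
    have h3 : 4 * (r : ℝ) * a * ξ * s ^ 3 = 2 * (2 * (r * a * ξ * s ^ 3)) := by ring
    rw [h3, ← h2]
    linarith
  -- `D2`
  have hD : (g.D2 r : ℝ) ≤ d * s ^ 3 := by
    have h1 : (g.D2 r : ℝ) ≤ 2 * (r * ((Fintype.card V - 1 : ℕ) : ℝ) + tau) := by
      exact_mod_cast hG.hH
    have h2 : ((Fintype.card V - 1 : ℕ) : ℝ) ≤ s ^ 2 := by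
      rw [← hcard]; exact_mod_cast Nat.sub_le _ _
    have h3 := hG.tauK
    rw [hs2, ← hs] at h3
    have h4 : s ^ 2 ≤ s ^ 3 := pow_le_pow_right₀ hs1 (by norm_num)
    have h5 : (r : ℝ) * ((Fintype.card V - 1 : ℕ) : ℝ) ≤ r * s ^ 3 := by
      gcongr; exact h2.trans h4
    have h6 : d * s ^ 3 = 2 * (r * s ^ 3 + K0 * s ^ 2 * s) := by rw [hd]; ring
    rw [h6]
    linarith
  have hD0 : (0 : ℝ) ≤ (g.D2 r : ℝ) := Nat.cast_nonneg _
  have hA := Core.typeI_A h hrN ho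
  have hA' := Core.typeI_A' h hrN ho
  have hall := Core.typeI_all h hrN ho _ hA hA'
  rw [hcard, ← hx, ← hu] at hall
  have hreal := accd_real (P := ((c.PP hrN (eta * s) (C * s) o).card : ℝ)) hr1 ha0 hC0 (by linarith)
    hd0 hs1 hξ hξ1 hx0 hX hβ0 hβ hu0 hD0 hD hPP hc2 eU eX eL
  have e1 : x * (g.D2 r : ℝ) / (eta * s) = a * (x / s) * (g.D2 r : ℝ) := by
    rw [ha]; field_simp
  have e2 : ∀ y : ℝ, s ^ 2 * y / (eta * s) = a * s * y := by
    intro y; rw [ha]; field_simp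
  have e3 : 8 * β ^ 2 * u / (eta * s) ^ 2 = 8 * a ^ 2 * (β / s) ^ 2 * u := by
    rw [ha]; field_simp
  have e4 : 2 * (r : ℝ) * (C1 * s) / (eta * s) = 2 * r * C1 * a := by
    rw [ha]; field_simp
  rw [e1, e2, e3, e4] at hall
  have hQ := hall.trans hreal
  constructor
  · refine hPP.trans ?_
    rw [hs2]
    have h1 : 4 * (r : ℝ) * a * (ξ * s ^ 3) ≤ K * (ξ * s ^ 3) := by
      gcongr
      rw [hK]; linarith
    have h2 : K * ξ * s ^ 2 * s = K * (ξ * s ^ 3) := by ring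
    rw [h2]
    linarith
  · refine hQ.trans ?_
    rw [hs2]
    have h1 : A1 * (ξ * s ^ 4) ≤ K * (ξ * s ^ 4) := by
      gcongr
      rw [hK]; linarith
    have h2 : A2 * (ξ * s ^ 2 * u) ≤ K * (ξ * s ^ 2 * u) := by
      gcongr
      rw [hK]; linarith
    have h3 : A3 * (s * u) ≤ K * (s * u) := by
      gcongr
      rw [hK]; linarith
    have h4 : K * ξ * s ^ 2 * s ^ 2 + (K * ξ * s ^ 2 + K * s) * u =
        K * (ξ * s ^ 4) + K * (ξ * s ^ 2 * u) + K * (s * u) := by ring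
    rw [h4]
    linarith

end Pool.Agent.Wi
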