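import Pool.Agent.Wi.ACCe1

/-! MODULE ACCe2: the final accounting (blueprint (9.3)-(9.6)): real arithmetic. -/

namespace Pool.Agent.Wi

open Finset
open scoped Classical

namespace AccE

/-- elimination of the sources in `X`. -/
theorem elimX {n s N u w m x H SX A B K3 Ls MX : ℝ}
    (hN : N = n - 1) (hn : n = u + w + m + x) (hs2 : s * s = n) (hs : 0 ≤ s)
    (hu : 0 ≤ u) (hw : 0 ≤ w) (hm : 1 ≤ m) (hx : 0 ≤ x) (hH0 : 0 ≤ H) (hn0 : 0 < n)
    (hq : n / 2 ≤ N - x) (hA : 0 ≤ A) (hB : 0 ≤ B) (hH : H ≤ A * n * s) (hwm : w + m ≤ B * s)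
    (hK3 : 0 ≤ K3) (hLs : 0 ≤ Ls) (hMX : 0 ≤ MX)
    (G3 : x * (H + SX) - K3 * n * x - Ls * MX ≤ N * SX) :
    x * H - (K3 + 2 * A * B) * n * x - Ls * MX ≤ u * SX := by
  have hqpos : 0 < N - x := by linarith
  have hLM : 0 ≤ Ls * MX := mul_nonneg hLs hMX
  have hK3n : 0 ≤ K3 * n * x := by positivity
  have hA0 : x * H - K3 * n * x - Ls * MX ≤ (N - x) * SX := by linarith
  have e1 : u * (x * H - K3 * n * x - Ls * MX) ≤ u * ((N - x) * SX) := mul_le_mul_of_nonneg_left hA0 hu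
  have hqu : N - x - u ≤ B * s := by rw [hN, hn]; linarith
  have hqu0 : 0 ≤ N - x - u := by rw [hN, hn]; linarith
  have e2 : (N - x - u) * (x * H - K3 * n * x - Ls * MX) ≤ (N - x - u) * (x * H) :=
    mul_le_mul_of_nonneg_left (by linarith) hqu0
  have e3 : (N - x - u) * (x * H) ≤ (B * s) * (x * (A * n * s)) :=
    mul_le_mul hqu (mul_le_mul_of_nonneg_left hH hx) (mul_nonneg hx hH0) (by positivity)
  have e4 : (B * s) * (x * (A * n * s)) = A * B * x * n * n := by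
    have : (B * s) * (x * (A * n * s)) = A * B * x * n * (s * s) := by ring
    rw [this, hs2]
  have e5 : n / 2 * (2 * A * B * n * x) ≤ (N - x) * (2 * A * B * n * x) :=
    mul_le_mul_of_nonneg_right hq (by positivity)
  have h1 : (N - x) * (x * H - (K3 + 2 * A * B) * n * x - Ls * MX) ≤ (N - x) * (u * SX) := by
    nlinarith [e1, e2, e3, e4, e5]
  exact le_of_mul_le_mul_left h1 hqpos

/-- the linear combination for one reference. -/
theorem comb {n N u w m x hB CB SU SX NXo D2 Un tau SNN kap MU MX K' Ls r : ℝ}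
    (hN : N = n - 1) (hn : n = u + w + m + x) (hu : 0 ≤ u) (hB0 : 0 ≤ hB) (hSU : 0 ≤ SU) (hr0 : 0 ≤ r)
    (G1 : 2 * ((u + w) * hB + CB) + 2 * (r * (u + w)) + NXo + 2 * (SU + SX) + Un ≤ D2)
    (F3 : D2 ≤ 2 * (r * N + tau))
    (G2 : u * tau ≤ N * (u * hB + SU) + u * CB + SNN / 2 + u * kap + Ls * MU)
    (G3 : x * (u * hB + SU) - K' * n * x - Ls * MX ≤ u * SX) :
    u * Un / 2 + u * NXo / 2 - SNN / 2 ≤
      u * (r * (m + x)) + w * SU + m * (u * hB + SU) + u * kap + K' * n * x + Ls * (MU + MX) := by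
  subst hN
  have h1 : u * (2 * ((u + w) * hB + CB) + 2 * (r * (u + w)) + NXo + 2 * (SU + SX) + Un)
      ≤ u * (2 * (r * (n - 1) + tau)) := mul_le_mul_of_nonneg_left (G1.trans F3) hu
  have h2 : 0 ≤ u * hB := mul_nonneg hu hB0
  have h3 : 0 ≤ u * r := mul_nonneg hu hr0
  have hn' : (n - 1) * (u * hB + SU) = (u + w + m + x - 1) * (u * hB + SU) := by rw [← hn]
  have hn'' : u * (r * (n - 1)) = u * (r * (u + w + m + x - 1)) := by rw [← hn]
  nlinarith [h1, G2, G3, h2, h3, hn', hn'']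

/-- the bound for the sum of the misses. -/
theorem missB {n s m x w r a KM ξ δ C2 KQ η PP Q Un SLa L2 e MS : ℝ}
    (hs2 : s * s = n) (hs1 : 1 ≤ s) (hξ : 0 < ξ) (hx0 : 0 ≤ x) (hx : x ≤ ξ * n) (ha : 0 ≤ a)
    (hw : w ≤ 2 * a * s) (hm : m ≤ KM) (hKM : KM ≤ s) (hr : 0 ≤ r)
    (he : e = η * s) (hη : 0 < η) (hδ : 1 ≤ δ * s) (hUn : 0 ≤ Un) (hKQ : 0 ≤ KQ)
    (hPP : PP ≤ KQ * ξ * n * s + Un) (hPP0 : 0 ≤ PP) (hQ : Q ≤ KQ * ξ * n * n + (KQ * ξ * n + KQ * s) * Un)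
    (hL2 : L2 ≤ C2 * s) (hL20 : 0 ≤ L2)
    (hR : MS ≤ n * m + r * PP + 2 * (PP + x * L2) + x * (w + m) + SLa + 2 * Q / e + e * Un + 2 * L2 * PP / e) :
    MS ≤ SLa + s * (KM * s + ((r + 2) * KQ + 2 * C2 + (2 * a + 1) + 2 * KQ / η + 2 * C2 * KQ / η) * (ξ * n)
      + (((r + 2) + 2 * KQ / η + 2 * C2 / η) * (ξ + δ) + η) * Un) := by
  have hs0 : 0 < s := by linarith
  have hn0 : 0 < n := by rw [← hs2]; positivity
  have hC2 : 0 ≤ C2 := by
    by_contra hneg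
    push Not at hneg
    have : C2 * s < 0 := mul_neg_of_neg_of_pos hneg hs0
    linarith
  have hUs : Un ≤ s * (δ * Un) := by nlinarith
  have hPs : PP ≤ s * (KQ * (ξ * n) + δ * Un) := by nlinarith
  have hδ0 : 0 < δ := by
    by_contra hneg
    push Not at hneg
    nlinarith
  have t1 : n * m ≤ s * (KM * s) := by
    have : n * m ≤ n * KM := mul_le_mul_of_nonneg_left hm hn0.le
    calc n * m ≤ n * KM := this
      _ = s * (KM * s) := by rw [← hs2]; ring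
  have t2 : r * PP + 2 * PP ≤ s * ((r + 2) * (KQ * (ξ * n) + δ * Un)) := by
    have := mul_le_mul_of_nonneg_left hPs (by linarith : 0 ≤ r + 2)
    linarith
  have t3 : 2 * (x * L2) ≤ s * (2 * C2 * (ξ * n)) := by
    have : x * L2 ≤ (ξ * n) * (C2 * s) := mul_le_mul hx hL2 hL20 (by positivity)
    linarith
  have t4 : x * (w + m) ≤ s * ((2 * a + 1) * (ξ * n)) := by
    have h1 : w + m ≤ (2 * a + 1) * s := by linarith
    have h2 : x * (w + m) ≤ x * ((2 * a + 1) * s) := mul_le_mul_of_nonneg_left h1 hx0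
    have h3 : x * ((2 * a + 1) * s) ≤ (ξ * n) * ((2 * a + 1) * s) := mul_le_mul_of_nonneg_right hx (by positivity)
    linarith
  have t5 : 2 * Q / e ≤ s * (2 * KQ / η * (ξ * n + (ξ + δ) * Un)) := by
    rw [he, div_le_iff₀ (by positivity)]
    have e1 : s * (2 * KQ / η * (ξ * n + (ξ + δ) * Un)) * (η * s)
        = 2 * KQ * (ξ * n + (ξ + δ) * Un) * (s * s) := by
      field_simp
    rw [e1, hs2]
    have e2 : s ≤ δ * n := by rw [← hs2]; nlinarith
    have e3 : KQ * s * Un ≤ KQ * (δ * n) * Un :=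
      mul_le_mul_of_nonneg_right (mul_le_mul_of_nonneg_left e2 hKQ) hUn
    nlinarith [hQ, e3]
  have t6 : 2 * L2 * PP / e ≤ s * (2 * C2 / η * (KQ * (ξ * n) + δ * Un)) := by
    rw [he, div_le_iff₀ (by positivity)]
    have e1 : s * (2 * C2 / η * (KQ * (ξ * n) + δ * Un)) * (η * s)
        = 2 * (C2 * s) * (s * (KQ * (ξ * n) + δ * Un)) := by
      field_simp
    rw [e1]
    have : L2 * PP ≤ (C2 * s) * (s * (KQ * (ξ * n) + δ * Un)) := mul_le_mul hL2 hPs hPP0 (by positivity)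
    linarith
  have t7 : e * Un = s * (η * Un) := by rw [he]; ring
  have hξn : 0 ≤ ξ * n := by positivity
  have g1 : 0 ≤ (r + 2) * (ξ * Un) := by positivity
  have g2 : 0 ≤ 2 * C2 / η * (ξ * Un) := by positivity
  have key : s * (KM * s) + s * ((r + 2) * (KQ * (ξ * n) + δ * Un)) + s * (2 * C2 * (ξ * n))
      + s * ((2 * a + 1) * (ξ * n)) + s * (2 * KQ / η * (ξ * n + (ξ + δ) * Un)) + s * (η * Un)
      + s * (2 * C2 / η * (KQ * (ξ * n) + δ * Un)) + s * ((r + 2) * (ξ * Un)) + s * (2 * C2 / η * (ξ * Un))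
      = s * (KM * s + ((r + 2) * KQ + 2 * C2 + (2 * a + 1) + 2 * KQ / η + 2 * C2 * KQ / η) * (ξ * n)
      + (((r + 2) + 2 * KQ / η + 2 * C2 / η) * (ξ + δ) + η) * Un) := by ring
  have g3 : 0 ≤ s * ((r + 2) * (ξ * Un)) := by positivity
  have g4 : 0 ≤ s * (2 * C2 / η * (ξ * Un)) := by positivity
  rw [← key]
  linarith

/-- the complete bound for one reference. -/
theorem bound {n s u m x w Lam r a A KM ξ δ C2 KQ Kκ K' η PP Q Un SUn SLa L2 e MS SU H kap : ℝ}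
    (hs2 : s * s = n) (hs1 : 1 ≤ s) (hu2 : n ≤ 2 * u) (hξ : 0 < ξ) (hx0 : 0 ≤ x) (hx : x ≤ ξ * n) (ha : 0 ≤ a)
    (hw : w ≤ 2 * a * s) (hm1 : 1 ≤ m) (hm : m ≤ KM) (hKM : KM ≤ s) (hKM1 : r * KM ≤ ξ * s)
    (hKM2 : 2 * A * KM ≤ ξ * s) (hKM3 : 2 * Lam * KM ≤ ξ * s) (hr : 0 ≤ r) (hA : 0 ≤ A) (hK' : 0 ≤ K')
    (he : e = η * s) (hη : 0 < η) (hδ : 1 ≤ δ * s) (hUn : 0 ≤ Un) (hKQ : 0 ≤ KQ)
    (hLam : 1 ≤ Lam) (hLη : 64 * Lam * η ≤ 1)
    (hSU0 : 0 ≤ SU) (hSU : SU ≤ u * (r * (a * ξ * s))) (hH : H ≤ A * n * s) (hH0 : 0 ≤ H)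
    (hkap : kap ≤ Kκ * ξ * n)
    (hSLa : 32 * Lam * s * SLa ≤ SUn)
    (hPP : PP ≤ KQ * ξ * n * s + Un) (hPP0 : 0 ≤ PP) (hQ : Q ≤ KQ * ξ * n * n + (KQ * ξ * n + KQ * s) * Un)
    (hL2 : L2 ≤ C2 * s) (hL20 : 0 ≤ L2)
    (hR : MS ≤ n * m + r * PP + 2 * (PP + x * L2) + x * (w + m) + SLa + 2 * Q / e + e * Un + 2 * L2 * PP / e) :
    u * (r * (m + x)) + w * SU + m * H + u * kap + K' * n * x + Lam * s * MS ≤
      u * (((1 + r) + 2 * r * a ^ 2 + 1 + Kκ + 2 * K' + 1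
        + 2 * Lam * ((r + 2) * KQ + 2 * C2 + (2 * a + 1) + 2 * KQ / η + 2 * C2 * KQ / η)) * (ξ * n))
      + u * ((2 * Lam * ((r + 2) + 2 * KQ / η + 2 * C2 / η) * (ξ + δ) + 1 / 32) * Un) + SUn / 32 := by
  have hs0 : 0 < s := by linarith
  have hn0 : 0 < n := by rw [← hs2]; positivity
  have hu0 : 0 < u := by linarith
  have hC2 : 0 ≤ C2 := by
    by_contra hneg
    push Not at hneg
    have : C2 * s < 0 := mul_neg_of_neg_of_pos hneg hs0
    linarith
  have hδ0 : 0 < δ := by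
    by_contra hneg
    push Not at hneg
    nlinarith
  have hξs : ξ * s ≤ ξ * n := by
    apply mul_le_mul_of_nonneg_left _ hξ.le
    rw [← hs2]; nlinarith
  have T1 : u * (r * (m + x)) ≤ u * ((1 + r) * (ξ * n)) := by
    apply mul_le_mul_of_nonneg_left _ hu0.le
    have h1 : r * m ≤ r * KM := mul_le_mul_of_nonneg_left hm hr
    have h2 : r * x ≤ r * (ξ * n) := mul_le_mul_of_nonneg_left hx hr
    linarith
  have T2 : w * SU ≤ u * (2 * r * a ^ 2 * (ξ * n)) := by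
    have : w * SU ≤ (2 * a * s) * (u * (r * (a * ξ * s))) := mul_le_mul hw hSU hSU0 (by positivity)
    calc w * SU ≤ (2 * a * s) * (u * (r * (a * ξ * s))) := this
      _ = u * (2 * r * a ^ 2 * (ξ * (s * s))) := by ring
      _ = _ := by rw [hs2]
  have T3 : m * H ≤ u * (1 * (ξ * n)) := by
    have hKM0 : 0 ≤ KM := by linarith
    have h1 : m * H ≤ KM * (A * n * s) := mul_le_mul hm hH hH0 hKM0
    have h2 : KM * (A * n * s) ≤ KM * (A * (2 * u) * s) := by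
      apply mul_le_mul_of_nonneg_left _ hKM0
      apply mul_le_mul_of_nonneg_right _ hs0.le
      exact mul_le_mul_of_nonneg_left hu2 hA
    have h3 : KM * (A * (2 * u) * s) = u * s * (2 * A * KM) := by ring
    have h4 : u * s * (2 * A * KM) ≤ u * s * (ξ * s) := mul_le_mul_of_nonneg_left hKM2 (by positivity)
    have h5 : u * s * (ξ * s) = u * (1 * (ξ * (s * s))) := by ring
    rw [hs2] at h5
    linarith
  have T4 : u * kap ≤ u * (Kκ * (ξ * n)) := by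
    apply mul_le_mul_of_nonneg_left _ hu0.le
    linarith
  have T5 : K' * n * x ≤ u * (2 * K' * (ξ * n)) := by
    have h1 : K' * n * x ≤ K' * (2 * u) * x :=
      mul_le_mul_of_nonneg_right (mul_le_mul_of_nonneg_left hu2 hK') hx0
    have h2 : K' * (2 * u) * x ≤ K' * (2 * u) * (ξ * n) := mul_le_mul_of_nonneg_left hx (by positivity)
    linarith
  have hM := missB hs2 hs1 hξ hx0 hx ha hw hm hKM hr he hη hδ hUn hKQ hPP hPP0 hQ hL2 hL20 hR
  set P1 := (r + 2) * KQ + 2 * C2 + (2 * a + 1) + 2 * KQ / η + 2 * C2 * KQ / η with hP1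
  set P2 := (r + 2) + 2 * KQ / η + 2 * C2 / η with hP2
  have hP10 : 0 ≤ P1 := by rw [hP1]; positivity
  have hP20 : 0 ≤ P2 := by rw [hP2]; positivity
  have hLam0 : 0 < Lam := by linarith
  have T6 : Lam * s * MS ≤ SUn / 32 + u * (2 * Lam * (KM * s + P1 * (ξ * n) + (P2 * (ξ + δ) + η) * Un)) := by
    have h1 : Lam * s * MS ≤ Lam * s * (SLa + s * (KM * s + P1 * (ξ * n) + (P2 * (ξ + δ) + η) * Un)) :=
      mul_le_mul_of_nonneg_left hM (by positivity)
    have hKM0 : 0 ≤ KM := by linarith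
    have hW0 : 0 ≤ KM * s + P1 * (ξ * n) + (P2 * (ξ + δ) + η) * Un := by positivity
    have h2 : Lam * s * (SLa + s * (KM * s + P1 * (ξ * n) + (P2 * (ξ + δ) + η) * Un))
        = Lam * s * SLa + n * (Lam * (KM * s + P1 * (ξ * n) + (P2 * (ξ + δ) + η) * Un)) := by
      rw [← hs2]; ring
    have h3 : n * (Lam * (KM * s + P1 * (ξ * n) + (P2 * (ξ + δ) + η) * Un))
        ≤ (2 * u) * (Lam * (KM * s + P1 * (ξ * n) + (P2 * (ξ + δ) + η) * Un)) :=
      mul_le_mul_of_nonneg_right hu2 (by positivity)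
    linarith
  have T7 : 2 * Lam * (KM * s) ≤ ξ * n := by
    have : 2 * Lam * KM * s ≤ ξ * s * s := mul_le_mul_of_nonneg_right hKM3 hs0.le
    have h2 : ξ * s * s = ξ * n := by rw [← hs2]; ring
    linarith
  have T8 : 2 * Lam * (η * Un) ≤ 1 / 32 * Un := by
    have := mul_le_mul_of_nonneg_right hLη hUn
    linarith
  have T9 : u * (2 * Lam * (KM * s + P1 * (ξ * n) + (P2 * (ξ + δ) + η) * Un)) ≤
      u * (1 * (ξ * n) + 2 * Lam * P1 * (ξ * n) + (2 * Lam * P2 * (ξ + δ) + 1 / 32) * Un) := by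
    apply mul_le_mul_of_nonneg_left _ hu0.le
    linarith
  have key : u * ((1 + r) * (ξ * n)) + u * (2 * r * a ^ 2 * (ξ * n)) + u * (1 * (ξ * n)) + u * (Kκ * (ξ * n))
      + u * (2 * K' * (ξ * n)) + (SUn / 32 + u * (1 * (ξ * n) + 2 * Lam * P1 * (ξ * n) + (2 * Lam * P2 * (ξ + δ) + 1 / 32) * Un))
      = u * (((1 + r) + 2 * r * a ^ 2 + 1 + Kκ + 2 * K' + 1 + 2 * Lam * P1) * (ξ * n))
      + u * ((2 * Lam * P2 * (ξ + δ) + 1 / 32) * Un) + SUn / 32 := by ring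
  rw [← key]
  linarith

section
variable {V : Type} [Fintype V] {g : Geo V} {r : ℕ} {c : Core g r} {e L L' β : ℝ}

theorem hubs_sub (hr : 1 ≤ r) {x : V} {A : Finset V} (hA : A ⊆ (c.src hr).Sm e L x) :
    (c.src hr).hubs x A ⊆ (c.src hr).E e x := by
  intro w hw
  obtain ⟨z, hz, hzw⟩ := (mem_filter.1 hw).2
  exact (c.src hr).Fe_hub (mem_filter.1 (hA hz)).1 hzw

theorem ext_le (h : c.Hyp e L L' β) (hr : 1 ≤ r) {v : V} (hv : v ∈ c.U) {A : Finset V}
    (hA : A ⊆ (c.src hr).Sm e L v) : (c.ext hr v A : ℝ) ≤ r * c.hU e := by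
  have h1 : c.ext hr v A ≤ ((c.src hr).hubs v A).card * r := by
    unfold Core.ext
    have := sum_le_card_nsmul ((c.src hr).hubs v A)
      (fun w => (2 * r - g.d v w) - (if v ∈ c.U then c.Hb w else 0)) r (by
        intro w hw
        have := (c.src hr).mem_E_dist (hubs_sub hr hA hw)
        exact (Nat.sub_le _ _).trans (by omega))
    rwa [smul_eq_mul] at this
  have h2 : (((c.src hr).hubs v A).card : ℝ) ≤ c.hU e :=
    le_trans (by exact_mod_cast card_le_card (hubs_sub hr hA)) (Core.card_E_U h hr hv)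
  calc (c.ext hr v A : ℝ) ≤ (((c.src hr).hubs v A).card : ℝ) * r := by exact_mod_cast h1
    _ ≤ c.hU e * r := mul_le_mul_of_nonneg_right h2 (Nat.cast_nonneg _)
    _ = r * c.hU e := mul_comm _ _

theorem card_V (c : Core g r) : Fintype.card V = c.U.card + c.W.card + c.M.card + c.X.card := by
  have h1 : c.X = (c.U ∪ c.W ∪ c.M)ᶜ := by ext x; simp [Core.X]
  have h2 : (c.U ∪ c.W ∪ c.M).card = c.U.card + c.W.card + c.M.card := by
    rw [card_union_of_disjoint, card_union_of_disjoint c.dUW]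
    exact disjoint_union_left.2 ⟨c.dUM, c.dWM⟩
  rw [h1, card_compl, h2]
  have := card_le_univ (c.U ∪ c.W ∪ c.M)
  omega

theorem Gd_sub (hr : 1 ≤ r) (idx : V → ℕ) (o x : V) : c.Gd hr e L idx o x ⊆ (c.src hr).Sm e L x :=
  filter_subset _ _

theorem Gd_La_card (hr : 1 ≤ r) (idx : V → ℕ) (o u : V) :
    (c.Gd hr e L idx o u).card + ((c.src hr).La e L u).card ≤ Fintype.card V - 1 := by
  have hd : Disjoint (c.Gd hr e L idx o u) ((c.src hr).La e L u) := by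
    rw [disjoint_left]
    intro z hz hz'
    have h1 := (mem_filter.1 (Gd_sub hr idx o u hz)).2
    have h2 := (mem_filter.1 hz').2
    linarith
  rw [← card_union_of_disjoint hd]
  have hs : c.Gd hr e L idx o u ∪ (c.src hr).La e L u ⊆ univ.erase u := by
    intro z hz
    have hF : z ∈ (c.src hr).F u := by
      rcases mem_union.1 hz with hz | hz
      · exact (mem_filter.1 (mem_filter.1 (Gd_sub hr idx o u hz)).1).1
      · exact (mem_filter.1 (mem_filter.1 hz).1).1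
    have hdist := (c.src hr).hF u z hF
    refine mem_erase.2 ⟨?_, mem_univ _⟩
    rintro rfl
    rw [g.dself] at hdist
    omega
  calc _ ≤ (univ.erase u).card := card_le_card hs
    _ = Fintype.card V - 1 := by rw [card_erase_of_mem (mem_univ _), card_univ]

/-- (9.3) for one source in `U`. -/
theorem pt_U (h : c.Hyp e L L' β) (hr : 1 ≤ r) {tau : ℕ} {Ls : ℝ} (hLs : 0 ≤ Ls)
    (lemA : ∀ T : LF r V, T.S.card ≤ Fintype.card V - 1 →
      (tau : ℝ) - Ls * (((Fintype.card V - 1 : ℕ) : ℝ) - (T.S.card : ℝ)) ≤ (T.cost (Fintype.card V - 1) : ℝ))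
    (idx : V → ℕ) {o v : V} (hv : v ∈ c.U) :
    (tau : ℝ) ≤ ((Fintype.card V - 1 : ℕ) : ℝ) * ((c.T.h : ℝ) + (c.ext hr v (c.Gd hr e L idx o v) : ℝ))
      + (c.T.C : ℝ) + (c.NNX hr e L v : ℝ) / 2 + (2 * r * (c.X.card : ℝ) * (2 * r * L' / e)
        + 2 * r * c.hU e * (c.L2 e L L' + c.hU e))
      + Ls * ((c.M.card : ℝ) + ((c.NonAl v).card : ℝ)
        + ((c.X.filter (fun x => x ∉ c.Gd hr e L idx o v ∧ x ∉ (c.src hr).hubs v (c.Gd hr e L idx o v))).card : ℝ)) := by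
  obtain ⟨T, h1, h2, h3, h4⟩ := Core.core_forest h hr hv (c.Gd hr e L idx o v) (Gd_sub hr idx o v) (by
    intro x hx w hw hh
    have := ((mem_filter.1 hx).2 w hw).1
    exact this (Or.inl ⟨hv, hh.1, hh.2⟩))
  have h5 := lemA T h1
  have h6 := mul_le_mul_of_nonneg_left h2 hLs
  have h7 : (T.cost (Fintype.card V - 1) : ℝ) = ((Fintype.card V - 1 : ℕ) : ℝ) * (T.h : ℝ) + (T.C : ℝ) := by
    unfold LF.cost; push_cast; ring
  have h8 : ((Fintype.card V - 1 : ℕ) : ℝ) * (T.h : ℝ) ≤ ((Fintype.card V - 1 : ℕ) : ℝ) * ((c.T.h : ℝ) + (c.ext hr v (c.Gd hr e L idx o v) : ℝ)) :=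
    mul_le_mul_of_nonneg_left (by exact_mod_cast h3) (Nat.cast_nonneg _)
  linarith

end

/-- everything for one reference `o`, for given constants. -/
theorem acc_pt {r : ℕ} {Lam K0 eta C C1 K3 KQ : ℝ} (hc : Cst r Lam K0 eta C) (hC1 : 1 ≤ C1) (hr1 : 1 ≤ r)
    (hK3 : 0 < K3) (hKQ : 0 < KQ) {V : Type} [Fintype V] {g : Geo V} {tau : ℕ} {c : Core g r} {β ξ δ KM : ℝ}
    (G : Glob g r Lam K0 tau) (h : c.Hyp (eta * ss V) (C * ss V) (C1 * ss V) β) (hξ : 0 < ξ) (hξ8 : ξ ≤ 1 / 8)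
    (hX : (c.X.card : ℝ) ≤ ξ * nn V) (hM : (c.M.card : ℝ) ≤ KM) (hs1 : 1 ≤ ss V) (hδ : 1 ≤ δ * ss V)
    (hKM : KM ≤ ss V) (hKM1 : r * KM ≤ ξ * ss V) (hKM2 : 2 * (r + K0) * KM ≤ ξ * ss V)
    (hKM3 : 2 * Lam * KM ≤ ξ * ss V) (hs8 : 8 * (2 * (r / eta) + 1) ≤ 3 * ss V)
    {idx : V → ℕ} (hidx : Function.Injective idx) {o : V} (ho : o ∈ c.U)
    (hG3 : ∀ u ∈ c.X, (c.U.card : ℝ) * (c.T.h : ℝ) + (∑ x ∈ c.U ∪ c.X,
          (c.ext hr1 x (c.Gd hr1 (eta * ss V) (C * ss V) idx o x) : ℝ))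
        - K3 * nn V - Lam * ss V * (((Fintype.card V - 1 : ℕ) : ℝ)
          - ((c.Gd hr1 (eta * ss V) (C * ss V) idx o u).card : ℝ)
          - (((c.src hr1).La (eta * ss V) (C * ss V) u).card : ℝ))
      ≤ ((Fintype.card V - 1 : ℕ) : ℝ) *
        (c.ext hr1 u (c.Gd hr1 (eta * ss V) (C * ss V) idx o u) : ℝ))
    (hPP : ((c.PP hr1 (eta * ss V) (C * ss V) o).card : ℝ) ≤
        KQ * ξ * nn V * ss V + (c.Un hr1 (eta * ss V) (C * ss V) o : ℝ))
    (hQ : ((c.src hr1).Q.card : ℝ) ≤ KQ * ξ * nn V * nn V +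
        (KQ * ξ * nn V + KQ * ss V) * (c.Un hr1 (eta * ss V) (C * ss V) o : ℝ)) :
    (c.U.card : ℝ) * (c.Un hr1 (eta * ss V) (C * ss V) o : ℝ) / 2
      + (c.U.card : ℝ) * (c.NNX hr1 (eta * ss V) (C * ss V) o : ℝ) / 2
      - (∑ v ∈ c.U, (c.NNX hr1 (eta * ss V) (C * ss V) v : ℝ)) / 2 ≤
    (c.U.card : ℝ) * (((1 + r) + 2 * r * (r / eta) ^ 2 + 1
        + (4 * r * (r / eta) * C1 + 2 * r * (r / eta) * ((C1 + C + 2 * (r / eta) * C1) + (r / eta)))
        + 2 * (K3 + 2 * (r + K0) * (2 * (r / eta) + 1)) + 1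
        + 2 * Lam * ((r + 2) * KQ + 2 * (C1 + C + 2 * (r / eta) * C1) + (2 * (r / eta) + 1) + 2 * KQ / eta
          + 2 * (C1 + C + 2 * (r / eta) * C1) * KQ / eta)) * (ξ * nn V))
      + (c.U.card : ℝ) * ((2 * Lam * ((r + 2) + 2 * KQ / eta + 2 * (C1 + C + 2 * (r / eta) * C1) / eta) * (ξ + δ) + 1 / 32)
        * (c.Un hr1 (eta * ss V) (C * ss V) o : ℝ))
      + (∑ v ∈ c.U, (c.Un hr1 (eta * ss V) (C * ss V) v : ℝ)) / 32 := by
  have hη := hc.heta
  have hLam := hc.hLam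
  have hLη := hc.heta2
  have hK0 := hc.hK0
  have hs0 : 0 < ss V := by linarith
  have hs2 : ss V * ss V = nn V := Real.mul_self_sqrt (Nat.cast_nonneg _)
  have hn0 : 0 < nn V := by rw [← hs2]; positivity
  have hr0 : (0 : ℝ) ≤ r := Nat.cast_nonneg _
  have ha : 0 ≤ (r : ℝ) / eta := by positivity
  set a : ℝ := (r : ℝ) / eta with hadef
  set s := ss V with hsdef
  set n := nn V with hndef
  have hcardV : (Fintype.card V : ℝ) = n := rfl
  have hrn1 : (1 : ℝ) ≤ r := by exact_mod_cast hr1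
  have hea : eta * a = r := by rw [hadef]; field_simp
  set e := eta * s with hedef
  have he0 : 0 < e := by positivity
  -- cardinalities
  have hcV := card_V c
  have hn : n = (c.U.card : ℝ) + c.W.card + c.M.card + c.X.card := by
    rw [← hcardV, hcV]; push_cast; ring
  have hVpos : 1 ≤ Fintype.card V := Fintype.card_pos_iff.2 ⟨o⟩
  have hN : ((Fintype.card V - 1 : ℕ) : ℝ) = n - 1 := by
    rw [Nat.cast_sub hVpos, hcardV]; simp
  have hm1 : (1 : ℝ) ≤ c.M.card := by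
    have : 0 < c.M.card := card_pos.2 ⟨c.mm o, (c.hmm o (mem_union_left _ ho)).1⟩
    exact_mod_cast this
  set u : ℝ := (c.U.card : ℝ) with hu
  set w : ℝ := (c.W.card : ℝ) with hw
  set m : ℝ := (c.M.card : ℝ) with hm
  set x : ℝ := (c.X.card : ℝ) with hx
  have hu0 : 0 ≤ u := Nat.cast_nonneg _
  have hw0 : 0 ≤ w := Nat.cast_nonneg _
  have hx0 : 0 ≤ x := Nat.cast_nonneg _
  have hw2 : w ≤ 2 * a * s := by
    have h1 := Core.card_W h
    rw [hcardV, ← hs2] at h1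
    have h2 : w * e ≤ (2 * a * s) * e := by
      have : (2 * a * s) * e = 2 * (eta * a) * (s * s) := by rw [hedef]; ring
      rw [this, hea]
      exact h1
    exact le_of_mul_le_mul_right h2 he0
  have hsn : s ≤ n := by rw [← hs2]; nlinarith
  have hwm : w + m ≤ (2 * a + 1) * s := by linarith
  have h8n : (2 * a + 1) * s ≤ 3 / 8 * n := by
    rw [← hs2]
    have := mul_le_mul_of_nonneg_right hs8 hs0.le
    linarith
  have hx8 : x ≤ n / 8 := by
    have : ξ * n ≤ 1 / 8 * n := mul_le_mul_of_nonneg_right hξ8 hn0.le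
    linarith
  have hu2 : n ≤ 2 * u := by linarith
  have hn83 : 1 ≤ 3 / 8 * n := by
    have h1 : 1 * s ≤ (2 * a + 1) * s := mul_le_mul_of_nonneg_right (by linarith) hs0.le
    linarith
  have hNx : n / 2 ≤ ((Fintype.card V - 1 : ℕ) : ℝ) - x := by rw [hN]; linarith
  -- abbreviations
  set Un : V → ℝ := fun v => (c.Un hr1 e (C * s) v : ℝ) with hUn
  set hB : ℝ := (c.T.h : ℝ) with hhB
  set CB : ℝ := (c.T.C : ℝ) with hCB
  set ex : V → ℝ := fun v => (c.ext hr1 v (c.Gd hr1 e (C * s) idx o v) : ℝ) with hex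
  have hex0 : ∀ v, 0 ≤ ex v := fun v => Nat.cast_nonneg _
  set SU : ℝ := ∑ v ∈ c.U, ex v with hSU
  set SX : ℝ := ∑ v ∈ c.X, ex v with hSX
  have hSU0 : 0 ≤ SU := sum_nonneg fun v _ => hex0 v
  have hSX0 : 0 ≤ SX := sum_nonneg fun v _ => hex0 v
  have hdUX : Disjoint c.U c.X := by
    rw [disjoint_left]
    intro z hz hz'
    exact (mem_filter.1 hz').2.1 hz
  have hSUX : (∑ v ∈ c.U ∪ c.X, ex v) = SU + SX := sum_union hdUX
  have hhB0 : 0 ≤ hB := Nat.cast_nonneg _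
  have hCB0 : 0 ≤ CB := Nat.cast_nonneg _
  have hUn0 : 0 ≤ Un o := Nat.cast_nonneg _
  have hNNX0 : (0 : ℝ) ≤ (c.NNX hr1 e (C * s) o : ℝ) := Nat.cast_nonneg _
  -- (G1)
  have hbpos : 1 ≤ c.B.card := card_pos.2 ⟨o, mem_union_left _ ho⟩
  have hBc : (c.B.card : ℝ) = u + w := by
    have : c.B.card = c.U.card + c.W.card := card_union_of_disjoint c.dUW
    rw [this]; push_cast; rfl
  have G1 : 2 * ((u + w) * hB + CB) + 2 * (r * (u + w)) + (c.NNX hr1 e (C * s) o : ℝ) + 2 * (SU + SX) + Un o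
      ≤ (g.D2 r : ℝ) := by
    have h1 := Core.G1 h hr1 ho idx hidx
    have h2 : (2 * (((c.B.card - 1 : ℕ) : ℝ) * (c.T.h : ℝ) + (c.T.C : ℝ)) + 2 * ((r : ℝ) * (c.B.card : ℝ) + (c.T.h : ℝ))
      + (c.NNX hr1 e (C * s) o : ℝ) + 2 * (∑ x ∈ c.U ∪ c.X, (c.ext hr1 x (c.Gd hr1 e (C * s) idx o x) : ℝ))
      + (c.Un hr1 e (C * s) o : ℝ)) ≤ (g.D2 r : ℝ) := by exact_mod_cast h1
    rw [Nat.cast_sub hbpos, hBc] at h2
    have h3 : (∑ x ∈ c.U ∪ c.X, (c.ext hr1 x (c.Gd hr1 e (C * s) idx o x) : ℝ)) = SU + SX := hSUX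
    rw [h3] at h2
    have h4 : Un o = (c.Un hr1 e (C * s) o : ℝ) := rfl
    rw [h4]
    push_cast at h2
    linarith
  have F3 : (g.D2 r : ℝ) ≤ 2 * (r * ((Fintype.card V - 1 : ℕ) : ℝ) + (tau : ℝ)) := by exact_mod_cast G.hH
  have hD2 : (g.D2 r : ℝ) ≤ 2 * ((r + K0) * n * s) := by
    have h1 := G.tauK
    have h2 : (r : ℝ) * ((Fintype.card V - 1 : ℕ) : ℝ) ≤ r * n * s := by
      rw [hN]
      have : (r : ℝ) * (n - 1) ≤ r * n := by linarith
      have h3 : (r : ℝ) * n * 1 ≤ r * n * s := mul_le_mul_of_nonneg_left hs1 (by positivity)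
      linarith
    linarith
  set H : ℝ := u * hB + SU with hHdef
  have hH0 : 0 ≤ H := by positivity
  have hHle : H ≤ (r + K0) * n * s := by
    have h1 : 0 ≤ w * hB := by positivity
    have h2 : 0 ≤ (r : ℝ) * (u + w) := by positivity
    rw [hHdef]
    linarith
  -- (G3) summed
  set MX : ℝ := ∑ v ∈ c.X, (((Fintype.card V - 1 : ℕ) : ℝ) - ((c.Gd hr1 e (C * s) idx o v).card : ℝ)
    - (((c.src hr1).La e (C * s) v).card : ℝ)) with hMX
  have hMX0 : 0 ≤ MX := by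
    apply sum_nonneg
    intro v _
    have := Gd_La_card (c := c) (e := e) (L := C * s) hr1 idx o v
    have h2 : ((c.Gd hr1 e (C * s) idx o v).card : ℝ) + (((c.src hr1).La e (C * s) v).card : ℝ) ≤
      ((Fintype.card V - 1 : ℕ) : ℝ) := by exact_mod_cast this
    linarith
  have G3s : x * (H + SX) - K3 * n * x - Lam * s * MX ≤ ((Fintype.card V - 1 : ℕ) : ℝ) * SX := by
    have h1 : (∑ v ∈ c.X, (u * hB + (SU + SX) - K3 * n - Lam * s * (((Fintype.card V - 1 : ℕ) : ℝ)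
        - ((c.Gd hr1 e (C * s) idx o v).card : ℝ) - (((c.src hr1).La e (C * s) v).card : ℝ))))
        ≤ ∑ v ∈ c.X, ((Fintype.card V - 1 : ℕ) : ℝ) * ex v := by
      apply sum_le_sum
      intro v hv
      have := hG3 v hv
      have h3 : (∑ x ∈ c.U ∪ c.X, (c.ext hr1 x (c.Gd hr1 e (C * s) idx o x) : ℝ)) = SU + SX := hSUX
      rw [h3] at this
      exact this
    rw [sum_sub_distrib, sum_const, nsmul_eq_mul, ← mul_sum, ← mul_sum] at h1
    have h2 : (c.X.card : ℝ) * (u * hB + (SU + SX) - K3 * n) = x * (H + SX) - K3 * n * x := by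
      rw [hHdef]; ring
    linarith
  have hLam0 : 0 < Lam := by linarith
  have G3f := elimX (n := n) (s := s) (A := (r + K0)) (B := 2 * a + 1) (Ls := Lam * s) hN hn hs2 hs0.le hu0 hw0 hm1 hx0 hH0 hn0 hNx
    (by linarith) (by linarith) hHle hwm hK3.le (by positivity) hMX0 G3s
  -- (G2) summed
  set kap : ℝ := 2 * r * (c.X.card : ℝ) * (2 * r * (C1 * s) / e) + 2 * r * c.hU e * (c.L2 e (C * s) (C1 * s) + c.hU e) with hkap
  set MU : ℝ := ∑ v ∈ c.U, ((c.M.card : ℝ) + ((c.NonAl v).card : ℝ)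
        + ((c.X.filter (fun x => x ∉ c.Gd hr1 e (C * s) idx o v ∧ x ∉ (c.src hr1).hubs v (c.Gd hr1 e (C * s) idx o v))).card : ℝ)) with hMU
  set SNN : ℝ := ∑ v ∈ c.U, (c.NNX hr1 e (C * s) v : ℝ) with hSNN
  have G2s : u * tau ≤ ((Fintype.card V - 1 : ℕ) : ℝ) * (u * hB + SU) + u * CB + SNN / 2 + u * kap + Lam * s * MU := by
    have h1 : (∑ v ∈ c.U, (tau : ℝ)) ≤ ∑ v ∈ c.U, (((Fintype.card V - 1 : ℕ) : ℝ) * (hB + ex v) + CB
        + (c.NNX hr1 e (C * s) v : ℝ) / 2 + kap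
        + Lam * s * ((c.M.card : ℝ) + ((c.NonAl v).card : ℝ)
        + ((c.X.filter (fun x => x ∉ c.Gd hr1 e (C * s) idx o v ∧ x ∉ (c.src hr1).hubs v (c.Gd hr1 e (C * s) idx o v))).card : ℝ))) := by
      apply sum_le_sum
      intro v hv
      exact pt_U h hr1 (by positivity) G.lemA idx hv
    rw [sum_add_distrib, sum_add_distrib, sum_add_distrib, sum_add_distrib, sum_const, sum_const, sum_const,
      nsmul_eq_mul, nsmul_eq_mul, nsmul_eq_mul, ← mul_sum, ← mul_sum, sum_add_distrib, sum_const, nsmul_eq_mul,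
      ← sum_div] at h1
    exact h1
  have hcomb := comb (K' := K3 + 2 * (r + K0) * (2 * a + 1)) (r := (r : ℝ)) hN hn hu0 hhB0 hSU0 hr0 G1 F3 G2s G3f
  -- misses
  have hms := Core.miss_sum h hr1 ho idx
  have hLa : ∀ v ∈ c.U, 32 * Lam * s * (((c.src hr1).La e (C * s) v).card : ℝ) ≤ Un v := by
    intro v hv
    have h1 := Core.large h hr1 hv
    have h2 : c.hX e = a * s := by
      unfold Core.hX
      rw [hcardV, ← hs2, hedef, hadef]; field_simp
    rw [h2] at h1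
    have h3 : 16 * Lam * s ≤ C * s - 1 - 2 * (a * s) := by
      have h4 := hc.hC
      have h5 : 4 * (r : ℝ) / eta = 4 * a := by rw [hadef]; ring
      rw [h5] at h4
      have h6 : (16 * Lam + 4 * a + 4) * s ≤ C * s := mul_le_mul_of_nonneg_right h4 hs0.le
      linarith [mul_nonneg ha hs0.le]
    have h4 : 2 * (16 * Lam * s) * (((c.src hr1).La e (C * s) v).card : ℝ) ≤
        2 * (C * s - 1 - 2 * (a * s)) * (((c.src hr1).La e (C * s) v).card : ℝ) :=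
      mul_le_mul_of_nonneg_right (by linarith) (Nat.cast_nonneg _)
    have h5 : Un v = (c.Un hr1 e (C * s) v : ℝ) := rfl
    rw [h5]
    linarith
  have hSLa : 32 * Lam * s * (∑ v ∈ c.U, (((c.src hr1).La e (C * s) v).card : ℝ)) ≤ ∑ v ∈ c.U, Un v := by
    rw [mul_sum]
    exact sum_le_sum hLa
  have hhU : c.hU e ≤ a * ξ * s := by
    unfold Core.hU
    rw [div_le_iff₀ he0]
    have : a * ξ * s * e = (eta * a) * ξ * (s * s) := by rw [hedef]; ring
    rw [this, hea, hs2]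
    have := mul_le_mul_of_nonneg_left hX hr0
    linarith
  have hhU0 : 0 ≤ c.hU e := by unfold Core.hU; positivity
  have hSUle : SU ≤ u * (r * (a * ξ * s)) := by
    have h1 : SU ≤ ∑ v ∈ c.U, (r * (a * ξ * s)) := by
      apply sum_le_sum
      intro v hv
      have h2 := ext_le h hr1 hv (Gd_sub (c := c) (e := e) (L := C * s) hr1 idx o v)
      exact h2.trans (mul_le_mul_of_nonneg_left hhU hr0)
    rw [sum_const, nsmul_eq_mul] at h1
    exact h1
  have hL2le : c.L2 e (C * s) (C1 * s) ≤ (C1 + C + 2 * a * C1) * s := by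
    unfold Core.L2
    have : 2 * r * (C1 * s) / e = 2 * a * C1 := by
      rw [hedef, hadef]; field_simp
    rw [this]
    have h1 : 2 * a * C1 * 1 ≤ 2 * a * C1 * s := mul_le_mul_of_nonneg_left hs1 (by positivity)
    linarith
  have hL20 : 0 ≤ c.L2 e (C * s) (C1 * s) := by
    unfold Core.L2
    have := h.hL
    have := h.hL'
    positivity
  have hkaple : kap ≤ (4 * r * a * C1 + 2 * r * a * ((C1 + C + 2 * a * C1) + a)) * ξ * n := by
    have h1 : 2 * r * (C1 * s) / e = 2 * a * C1 := by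
      rw [hedef, hadef]; field_simp
    rw [hkap, h1]
    have h2 : 2 * (r : ℝ) * x * (2 * a * C1) ≤ 2 * r * (ξ * n) * (2 * a * C1) := by
      apply mul_le_mul_of_nonneg_right _ (by positivity)
      exact mul_le_mul_of_nonneg_left hX (by positivity)
    have h3 : c.L2 e (C * s) (C1 * s) + c.hU e ≤ ((C1 + C + 2 * a * C1) + a) * s := by
      have : a * ξ * s ≤ a * 1 * s := by
        apply mul_le_mul_of_nonneg_right _ hs0.le
        exact mul_le_mul_of_nonneg_left (by linarith) ha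
      linarith
    have h4 : 2 * (r : ℝ) * c.hU e * (c.L2 e (C * s) (C1 * s) + c.hU e) ≤
        (2 * r * (a * ξ * s)) * (((C1 + C + 2 * a * C1) + a) * s) := by
      apply mul_le_mul _ h3 (by positivity) (by positivity)
      exact mul_le_mul_of_nonneg_left hhU (by positivity)
    have h5 : (2 * r * (a * ξ * s)) * (((C1 + C + 2 * a * C1) + a) * s) = 2 * r * a * ((C1 + C + 2 * a * C1) + a) * ξ * n := by
      rw [← hs2]; ring
    have h6 : (4 * r * a * C1 + 2 * r * a * ((C1 + C + 2 * a * C1) + a)) * ξ * n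
        = 2 * r * (ξ * n) * (2 * a * C1) + 2 * r * a * ((C1 + C + 2 * a * C1) + a) * ξ * n := by ring
    rw [h6]
    linarith
  have hbound := bound (n := n) (s := s) (u := u) (m := m) (x := x) (w := w) (Lam := Lam) (r := (r : ℝ)) (a := a)
    (A := r + K0) (KM := KM) (ξ := ξ) (δ := δ) (C2 := C1 + C + 2 * a * C1) (KQ := KQ)
    (Kκ := 4 * r * a * C1 + 2 * r * a * ((C1 + C + 2 * a * C1) + a)) (K' := K3 + 2 * (r + K0) * (2 * a + 1))
    (η := eta) (PP := ((c.PP hr1 e (C * s) o).card : ℝ)) (Q := ((c.src hr1).Q.card : ℝ)) (Un := Un o)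
    (SUn := ∑ v ∈ c.U, Un v) (SLa := ∑ v ∈ c.U, (((c.src hr1).La e (C * s) v).card : ℝ))
    (L2 := c.L2 e (C * s) (C1 * s)) (e := e) (MS := MU + MX) (SU := SU) (H := H) (kap := kap)
    hs2 hs1 hu2 hξ hx0 hX ha hw2 hm1 hM hKM hKM1 hKM2 hKM3 hr0 (by linarith) (by positivity) hedef hη hδ hUn0
    hKQ.le hLam hLη hSU0 hSUle hHle hH0 hkaple hSLa hPP (Nat.cast_nonneg _) hQ hL2le hL20 hms
  exact hcomb.trans hbound

end AccE

/-- SECTION 9: the average of `Un` over the references in `U` is at most `K4 ξ n`. -/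
theorem acc {r : ℕ} {Lam K0 eta C : ℝ} (hc : Cst r Lam K0 eta C) {C1 : ℝ} (hC1 : 1 ≤ C1) :
    ∃ K4 ξ1 : ℝ, 0 < K4 ∧ 0 < ξ1 ∧ ∀ ξ : ℝ, 0 < ξ → ξ ≤ ξ1 → ∀ KM : ℝ, ∃ n4 : ℝ,
      ∀ (V : Type) [Fintype V] (g : Geo V) (tau : ℕ) (c : Core g r) (β : ℝ), n4 ≤ nn V →
      Glob g r Lam K0 tau → c.Hyp (eta * ss V) (C * ss V) (C1 * ss V) β → β ≤ ξ * nn V →
      (c.X.card : ℝ) ≤ ξ * nn V → (c.M.card : ℝ) ≤ KM →
      (∑ o ∈ c.U, (c.Un (by have := hc.hr; omega) (eta * ss V) (C * ss V) o : ℝ)) ≤ K4 * ξ * nn V * (c.U.card : ℝ) := by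
  have hr1 : 1 ≤ r := by have := hc.hr; omega
  obtain ⟨K3, hK3, h3⟩ := acc_X hc hC1
  obtain ⟨KQ, hKQ, hQ⟩ := acc_Q hc hC1
  have hη := hc.heta
  have hLam := hc.hLam
  have hK0 := hc.hK0
  have hCpos : 0 ≤ C := by
    have := hc.hC
    have : 0 ≤ 4 * (r : ℝ) / eta := by positivity
    linarith
  set KA : ℝ := ((1 + r) + 2 * r * (r / eta) ^ 2 + 1
        + (4 * r * (r / eta) * C1 + 2 * r * (r / eta) * ((C1 + C + 2 * (r / eta) * C1) + (r / eta)))
        + 2 * (K3 + 2 * (r + K0) * (2 * (r / eta) + 1)) + 1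
        + 2 * Lam * ((r + 2) * KQ + 2 * (C1 + C + 2 * (r / eta) * C1) + (2 * (r / eta) + 1) + 2 * KQ / eta
          + 2 * (C1 + C + 2 * (r / eta) * C1) * KQ / eta)) with hKA
  set KB : ℝ := 2 * Lam * ((r + 2) + 2 * KQ / eta + 2 * (C1 + C + 2 * (r / eta) * C1) / eta) with hKB
  have hC10 : 0 < C1 := by linarith
  have hLam0 : 0 < Lam := by linarith
  have hK00 : 0 < K0 := by linarith
  have hKA0 : 0 < KA := by rw [hKA]; positivity
  have hKB0 : 0 < KB := by rw [hKB]; positivity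
  refine ⟨4 * KA, min (1 / 8) (1 / (64 * KB)), by positivity, by positivity, ?_⟩
  intro ξ hξ hξ1 KM
  have hξ8 : ξ ≤ 1 / 8 := hξ1.trans (min_le_left _ _)
  have hξB : KB * ξ ≤ 1 / 64 := by
    have h1 : ξ ≤ 1 / (64 * KB) := hξ1.trans (min_le_right _ _)
    rw [le_div_iff₀ (by positivity)] at h1
    linarith
  set κ : ℝ := max KM 0 with hκ
  have hκ0 : 0 ≤ κ := le_max_right _ _
  set δ : ℝ := 1 / (64 * KB) with hδ
  have hδ0 : 0 < δ := by rw [hδ]; positivity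
  have hδB : KB * δ = 1 / 64 := by rw [hδ]; field_simp
  set s0 : ℝ := 1 + 1 / eta + κ + r * κ / ξ + 2 * (r + K0) * κ / ξ + 2 * Lam * κ / ξ + 1 / δ
    + 8 * (2 * (r / eta) + 1) with hs0
  have p1 : 0 ≤ 1 / eta := by positivity
  have p2 : 0 ≤ r * κ / ξ := by positivity
  have p3 : 0 ≤ 2 * (r + K0) * κ / ξ := by positivity
  have p4 : 0 ≤ 2 * Lam * κ / ξ := by positivity
  have p5 : 0 ≤ 1 / δ := by positivity
  have p6 : 0 ≤ 8 * (2 * ((r : ℝ) / eta) + 1) := by positivity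
  refine ⟨s0 ^ 2, ?_⟩
  intro V _ g tau c β hn G h hβ hX hM
  have hs : s0 ≤ ss V := by
    have h0 : 0 < s0 := by linarith
    exact (Real.le_sqrt' h0).2 hn
  have hs1 : 1 ≤ ss V := by linarith
  have hs00 : 0 < ss V := by linarith
  have q1 : 1 ≤ eta * ss V := by
    have : 1 / eta ≤ ss V := by linarith
    rw [div_le_iff₀ hη] at this
    linarith
  have q2 : r * κ ≤ ξ * ss V := by
    have : r * κ / ξ ≤ ss V := by linarith
    rw [div_le_iff₀ hξ] at this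
    linarith
  have q3 : 2 * (r + K0) * κ ≤ ξ * ss V := by
    have : 2 * (r + K0) * κ / ξ ≤ ss V := by linarith
    rw [div_le_iff₀ hξ] at this
    linarith
  have q4 : 2 * Lam * κ ≤ ξ * ss V := by
    have : 2 * Lam * κ / ξ ≤ ss V := by linarith
    rw [div_le_iff₀ hξ] at this
    linarith
  have q5 : 1 ≤ δ * ss V := by
    have : 1 / δ ≤ ss V := by linarith
    rw [div_le_iff₀ hδ0] at this
    linarith
  have q6 : 8 * (2 * ((r : ℝ) / eta) + 1) ≤ 3 * ss V := by linarith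
  have q7 : κ ≤ ss V := by linarith
  have hs2 : ss V * ss V = nn V := Real.mul_self_sqrt (Nat.cast_nonneg _)
  have hn1 : 1 ≤ nn V := by
    have h0 : (1:ℝ) * 1 ≤ ss V * ss V := mul_le_mul hs1 hs1 zero_le_one hs00.le
    rw [hs2] at h0
    linarith
  -- an injective index
  obtain ⟨idx, hidx⟩ : ∃ idx : V → ℕ, Function.Injective idx :=
    ⟨fun v => ((Fintype.equivFin V) v).val, fun a b hab => (Fintype.equivFin V).injective (Fin.ext hab)⟩
  have hpt : ∀ o ∈ c.U, (c.U.card : ℝ) * (c.Un hr1 (eta * ss V) (C * ss V) o : ℝ) / 2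
      + (c.U.card : ℝ) * (c.NNX hr1 (eta * ss V) (C * ss V) o : ℝ) / 2
      - (∑ v ∈ c.U, (c.NNX hr1 (eta * ss V) (C * ss V) v : ℝ)) / 2 ≤
    (c.U.card : ℝ) * (KA * (ξ * nn V))
      + (c.U.card : ℝ) * ((KB * (ξ + δ) + 1 / 32) * (c.Un hr1 (eta * ss V) (C * ss V) o : ℝ))
      + (∑ v ∈ c.U, (c.Un hr1 (eta * ss V) (C * ss V) v : ℝ)) / 32 := by
    intro o ho
    have hQo := hQ V g tau c β ξ hn1 G h hξ (by linarith) hβ hX o ho
    exact AccE.acc_pt hc hC1 hr1 hK3 hKQ G h hξ hξ8 hX (hM.trans (le_max_left _ _)) hs1 q5 q7 q2 q3 q4 q6 hidx ho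
      (fun u hu => h3 V g tau c β q1 G h idx hidx o ho u hu) hQo.1 hQo.2
  have hsum := sum_le_sum hpt
  rw [sum_sub_distrib, sum_add_distrib, sum_add_distrib, sum_add_distrib, sum_const, sum_const, sum_const,
    nsmul_eq_mul, nsmul_eq_mul, nsmul_eq_mul, ← sum_div, ← sum_div, ← mul_sum, ← mul_sum, ← mul_sum, ← mul_sum] at hsum
  show (∑ o ∈ c.U, (c.Un hr1 (eta * ss V) (C * ss V) o : ℝ)) ≤ 4 * KA * ξ * nn V * (c.U.card : ℝ)
  set S : ℝ := ∑ o ∈ c.U, (c.Un hr1 (eta * ss V) (C * ss V) o : ℝ) with hS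
  set T : ℝ := ∑ o ∈ c.U, (c.NNX hr1 (eta * ss V) (C * ss V) o : ℝ) with hT
  have hS0 : 0 ≤ S := sum_nonneg fun _ _ => Nat.cast_nonneg _
  rcases Nat.eq_zero_or_pos c.U.card with hu | hu
  · have : c.U = ∅ := card_eq_zero.1 hu
    rw [hS, this]
    simp
  · have hu' : (0 : ℝ) < c.U.card := by exact_mod_cast hu
    have hK : KB * (ξ + δ) ≤ 1 / 32 := by linarith
    have h1 : (c.U.card : ℝ) * (KB * (ξ + δ) * S) ≤ (c.U.card : ℝ) * (1 / 32 * S) :=
      mul_le_mul_of_nonneg_left (mul_le_mul_of_nonneg_right hK hS0) hu'.le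
    have h2 : (c.U.card : ℝ) * S ≤ (c.U.card : ℝ) * (4 * KA * ξ * nn V * (c.U.card : ℝ)) := by
      have h3 : 0 ≤ (c.U.card : ℝ) * (KA * ξ * nn V * (c.U.card : ℝ)) := by positivity
      have h4 : 0 ≤ (c.U.card : ℝ) * S := by positivity
      linarith
    exact le_of_mul_le_mul_left h2 hu'

end Pool.Agent.Wi
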