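import Pool.Agent.Wi.GAMb
import Pool.Agent.Wi.ACCa
import Pool.Agent.Wi.ACCb
import Pool.Agent.Wi.ACCc
import Pool.Agent.Wi.ACCd

/-! MODULE ACCe1: sources in X (blueprint (G3), (9.4), pointwise form). -/

namespace Pool.Agent.Wi

open Finset
open scoped Classical

private theorem ext_eq_hsum {V : Type} [Fintype V] {g : Geo V} {r : ℕ} (c : Core g r) (hr : 1 ≤ r) (u : V)
    (hu : u ∉ c.U) (A : Finset V) : c.ext hr u A = (c.src hr).hsum u A := by
  unfold Core.ext Src.hsum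
  refine sum_congr rfl fun w _ => ?_
  rw [if_neg hu, Nat.sub_zero]

private theorem Gd_sub {V : Type} [Fintype V] {g : Geo V} {r : ℕ} (c : Core g r) (hr : 1 ≤ r) (e L : ℝ)
    (idx : V → ℕ) (o x : V) : c.Gd hr e L idx o x ⊆ (c.src hr).Sm e L x := by
  unfold Core.Gd Src.Good
  exact filter_subset _ _

/-- real arithmetic behind (9.4). -/
private theorem arith {r Lam K0 eta C s n N tau D gd la Uh S NN ex hX : ℝ} (hr : 2 ≤ r) (hLam : 1 ≤ Lam) (hK0 : 1 ≤ K0)
    (heta : 0 < eta) (heta2 : 64 * Lam * eta ≤ 1) (hC : 16 * Lam + 4 * r / eta + 4 ≤ C)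
    (h1 : 1 ≤ eta * s) (hs : s * s = n) (hN : N ≤ n) (hX1 : hX = r * n / (eta * s))
    (hla : 0 ≤ la) (htau : tau ≤ K0 * n * s) (hD : D ≤ 2 * (r * N + tau))
    (hG3 : NN + 2 * (C * s - 1 - 2 * hX) * la + 2 * Uh + 2 * S ≤ D + 4 * r ^ 2 * (C * s) * D / (eta * s) ^ 2)
    (hgam : tau - Lam * s * (N - gd) - NN / 2 - 2 * r * hX * (C * s + r * (C * s) / (eta * s)) ≤ N * ex) :
    Uh + S - (r + 2 * r ^ 2 * C / eta + 2 * r ^ 3 * C / eta ^ 2 + 4 * r ^ 2 * C * (r + K0) / eta ^ 2) * n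
      - Lam * s * (N - gd - la) ≤ N * ex := by
  have hs0 : 0 < s := by
    by_contra hh
    push Not at hh
    have := mul_nonpos_of_nonneg_of_nonpos heta.le hh
    linarith
  have hr0 : (0 : ℝ) ≤ r := by linarith
  have hle : eta ≤ 1 / 64 := by
    have := mul_le_mul_of_nonneg_right hLam heta.le
    linarith
  have hs1 : 1 ≤ s := by
    have := mul_le_mul_of_nonneg_right hle hs0.le
    linarith
  have hC0 : 0 < C := by
    have : 0 < 4 * r / eta := by positivity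
    linarith
  have hn0 : 0 < n := by rw [← hs]; positivity
  have hXe : hX = r * s / eta := by
    rw [hX1, ← hs]; field_simp
  -- bound on the coefficient of la
  have hco : Lam * s ≤ C * s - 1 - 2 * hX := by
    rw [hXe]
    have e1 : (16 * Lam + 4 * r / eta + 4) * s ≤ C * s := mul_le_mul_of_nonneg_right hC hs0.le
    have e2 : (16 * Lam + 4 * r / eta + 4) * s = 16 * (Lam * s) + 4 * (r * s / eta) + 4 * s := by
      field_simp
    have e3 : 0 ≤ r * s / eta := by positivity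
    have e4 : 0 ≤ Lam * s := by positivity
    linarith
  -- the hub term
  have hHT : 2 * r * hX * (C * s + r * (C * s) / (eta * s)) =
      2 * r ^ 2 * C / eta * n + 2 * r ^ 3 * C / eta ^ 2 * s := by
    rw [hXe, ← hs]; field_simp
  have hsn : s ≤ n := by rw [← hs]; exact le_mul_of_one_le_left hs0.le hs1
  have hHT2 : 2 * r * hX * (C * s + r * (C * s) / (eta * s)) ≤
      2 * r ^ 2 * C / eta * n + 2 * r ^ 3 * C / eta ^ 2 * n := by
    rw [hHT]
    have : 0 ≤ 2 * r ^ 3 * C / eta ^ 2 := by positivity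
    have := mul_le_mul_of_nonneg_left hsn this
    linarith
  -- the D term
  have hD2 : 4 * r ^ 2 * (C * s) * D / (eta * s) ^ 2 = 4 * r ^ 2 * C / eta ^ 2 * (D / s) := by
    field_simp
  have hDn : D / s ≤ 2 * (r + K0) * n := by
    rw [div_le_iff₀ hs0]
    have h2 : N ≤ n * s := le_trans hN (le_mul_of_one_le_right hn0.le hs1)
    have h3 := mul_le_mul_of_nonneg_left h2 hr0
    linarith
  have hD3 : 4 * r ^ 2 * C / eta ^ 2 * (D / s) ≤ 4 * r ^ 2 * C / eta ^ 2 * (2 * (r + K0) * n) :=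
    mul_le_mul_of_nonneg_left hDn (by positivity)
  have hD4 : 4 * r ^ 2 * C / eta ^ 2 * (2 * (r + K0) * n) = 2 * (4 * r ^ 2 * C * (r + K0) / eta ^ 2 * n) := by
    field_simp
  have hla2 : Lam * s * la ≤ (C * s - 1 - 2 * hX) * la := mul_le_mul_of_nonneg_right hco hla
  have hrN : r * N ≤ r * n := mul_le_mul_of_nonneg_left hN hr0
  rw [hD2] at hG3
  linarith

/-- (9.4): sources in `X`, finite form. `Hh = |U| h(B) + Σ_U ext`, `So = Σ_X ext`. -/
theorem acc_X {r : ℕ} {Lam K0 eta C : ℝ} (hc : Cst r Lam K0 eta C) {C1 : ℝ} (hC1 : 1 ≤ C1) :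
    ∃ K : ℝ, 0 < K ∧ ∀ (V : Type) [Fintype V] (g : Geo V) (tau : ℕ) (c : Core g r) (β : ℝ), 1 ≤ eta * ss V →
      Glob g r Lam K0 tau → c.Hyp (eta * ss V) (C * ss V) (C1 * ss V) β →
      ∀ (idx : V → ℕ), Function.Injective idx → ∀ o ∈ c.U, ∀ u ∈ c.X,
      (c.U.card : ℝ) * (c.T.h : ℝ) + (∑ x ∈ c.U ∪ c.X,
          (c.ext (by have := hc.hr; omega) x (c.Gd (by have := hc.hr; omega) (eta * ss V) (C * ss V) idx o x) : ℝ))
        - K * nn V - Lam * ss V * (((Fintype.card V - 1 : ℕ) : ℝ)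
          - ((c.Gd (by have := hc.hr; omega) (eta * ss V) (C * ss V) idx o u).card : ℝ)
          - (((c.src (by have := hc.hr; omega)).La (eta * ss V) (C * ss V) u).card : ℝ))
      ≤ ((Fintype.card V - 1 : ℕ) : ℝ) *
        (c.ext (by have := hc.hr; omega) u (c.Gd (by have := hc.hr; omega) (eta * ss V) (C * ss V) idx o u) : ℝ) := by
  have hr := hc.hr
  have hr1 : 1 ≤ r := by omega
  have hrR : (2 : ℝ) ≤ (r : ℝ) := by exact_mod_cast hr
  have heta := hc.heta
  have hLam := hc.hLam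
  have hK0 := hc.hK0
  have hC0 : 0 < C := by
    have h1 : 0 < 4 * (r : ℝ) / eta := by positivity
    have := hc.hC
    linarith
  refine ⟨r + 2 * r ^ 2 * C / eta + 2 * r ^ 3 * C / eta ^ 2 + 4 * r ^ 2 * C * (r + K0) / eta ^ 2, by positivity, ?_⟩
  intro V _ g tau c β h1 hG hH idx hidx o ho u hu
  have hss : ss V * ss V = nn V := Real.mul_self_sqrt (Nat.cast_nonneg _)
  have hNle : ((Fintype.card V - 1 : ℕ) : ℝ) ≤ nn V := by
    unfold nn
    exact_mod_cast Nat.sub_le _ _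
  have huU : u ∉ c.U := (mem_filter.1 hu).2.1
  have hss0 : 0 ≤ ss V := Real.sqrt_nonneg _
  have hLs : 0 ≤ C * ss V := by positivity
  have hD := hG.hH
  have hD' : (g.D2 r : ℝ) ≤ 2 * ((r : ℝ) * ((Fintype.card V - 1 : ℕ) : ℝ) + (tau : ℝ)) := by
    exact_mod_cast hD
  have hgam := gam_main (c.src hr1) hr hG.diam (eta * ss V) (C * ss V) (c.hX (eta * ss V)) (tau : ℝ) (Lam * ss V)
    (by linarith) hLs (by positivity) hG.lemA u (fun z _ => Core.kk_X hH hr1 huU z) (Core.card_E_X hH hr1 u)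
    (c.Gd hr1 (eta * ss V) (C * ss V) idx o u) (Gd_sub c hr1 _ _ idx o u)
  rw [← ext_eq_hsum c hr1 u huU] at hgam
  have hG3 := Core.G3 hH hr1 ho hu idx hidx
  exact arith hrR hLam hK0 heta hc.heta2 hc.hC h1 hss hNle rfl (Nat.cast_nonneg _) hG.tauK hD'
    (by rw [← mul_assoc]; exact hG3) hgam

end Pool.Agent.Wi
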