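import Pool.Agent.Wi.Defs

/-! Basic facts: geodesics, levelled forests, source systems. All proved. -/

namespace Pool.Agent.Wi

open Finset
open scoped Classical

namespace Geo
variable {V : Type} (g : Geo V)

theorem dself (x : V) : g.d x x = 0 := (g.d0 x x).2 rfl

theorem pos_of_ne {x y : V} (h : x ≠ y) : 0 < g.d x y :=
  Nat.pos_of_ne_zero fun h0 => h ((g.d0 x y).1 h0)

/-- suffix of a geodesic (P5). -/
theorem P_suffix {x y : V} {i k : ℕ} (h : i + k ≤ g.d x y) :
    g.P (g.P x y i) y k = g.P x y (i + k) := by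
  have hi : i ≤ g.d x y := by omega
  have hz : g.d (g.P x y i) y = g.d x y - i := g.dr x y i hi
  have hz' : g.d y (g.P x y i) = g.d x y - i := by rw [g.symm]; exact hz
  have h1 : g.P (g.P x y i) y k = g.P y (g.P x y i) (g.d x y - i - k) := by
    have := g.rev y (g.P x y i) k (by rw [hz']; omega)
    rw [this, hz']
  have h2 : g.P x y i = g.P y x (g.d x y - i) := by
    have := g.rev y x i (by rw [g.symm]; exact hi)
    rw [this, g.symm y x]
  have h3 : g.P y (g.P x y i) (g.d x y - i - k) = g.P y x (g.d x y - i - k) := by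
    rw [h2]
    exact g.sub y x (g.d x y - i - k) (g.d x y - i) (by omega) (by rw [g.symm y x]; omega)
  have h4 : g.P x y (i + k) = g.P y x (g.d x y - (i + k)) := by
    have := g.rev y x (i + k) (by rw [g.symm]; exact h)
    rw [this, g.symm y x]
  rw [h1, h3, h4, Nat.sub_sub]

/-- distance between two points of a geodesic. -/
theorem dPP {x y : V} {i j : ℕ} (hij : i ≤ j) (hj : j ≤ g.d x y) :
    g.d (g.P x y i) (g.P x y j) = j - i := by
  have h1 : g.P x (g.P x y j) i = g.P x y i := g.sub x y i j hij hj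
  have h2 : g.d x (g.P x y j) = j := g.dl x y j hj
  have := g.dr x (g.P x y j) i (by omega)
  rw [h1, h2] at this
  exact this

theorem tri' (x y z : V) : g.d x z ≤ g.d y x + g.d y z := by
  have := g.tri x y z
  rw [g.symm x y] at this
  exact this

theorem mid_symm {x y : V} {r : ℕ} (h : g.d x y = 2 * r) : g.P y x r = g.P x y r := by
  have := g.rev x y r (by omega)
  rw [this, h]
  congr 1
  omega

end Geo

namespace LF
variable {r : ℕ} {V : Type} (T : LF r V)

theorem anc_self (p : V) : T.anc p (T.lev p) = p := by simp [anc]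

theorem anc_succ {p : V} {k : ℕ} (h : T.lev p ≤ k) : T.anc p (k + 1) = T.par (T.anc p k) := by
  unfold anc
  rw [show k + 1 - T.lev p = (k - T.lev p) + 1 by omega, Function.iterate_succ_apply']

theorem anc_mem {p : V} (hp : p ∈ T.S) {k : ℕ} (h : T.lev p ≤ k) (hk : k < r) :
    T.anc p k ∈ T.S ∧ T.lev (T.anc p k) = k := by
  induction k, h using Nat.le_induction with
  | base => rw [anc_self]; exact ⟨hp, rfl⟩
  | succ k hk1 ih =>
    have ih := ih (by omega)
    rw [anc_succ T hk1]
    have := T.hpar _ ih.1 (by rw [ih.2]; exact hk)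
    exact ⟨this.1, by rw [this.2, ih.2]⟩

/-- ancestors that agree once agree forever. -/
theorem anc_up {p q : V} {k l : ℕ} (hp : T.lev p ≤ k) (hq : T.lev q ≤ k) (hkl : k ≤ l)
    (h : T.anc p k = T.anc q k) : T.anc p l = T.anc q l := by
  induction l, hkl using Nat.le_induction with
  | base => exact h
  | succ l hl ih => rw [anc_succ T (by omega), anc_succ T (by omega), ih]

theorem anc_anc {p : V} (hp : p ∈ T.S) {k l : ℕ} (h : T.lev p ≤ k) (hkl : k ≤ l) (hk : k < r) :
    T.anc (T.anc p k) l = T.anc p l := by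
  have hl := (T.anc_mem hp h hk).2
  induction l, hkl using Nat.le_induction with
  | base => unfold anc at hl ⊢; rw [hl]; simp
  | succ l hl2 ih => rw [anc_succ T (by rw [hl]; omega), anc_succ T (by omega), ih]

end LF

namespace Src
variable {V : Type} {g : Geo V} {r : ℕ} (s : Src g r)

theorem mem_Z {x w z : V} : z ∈ s.Z x w ↔ z ∈ s.F x ∧ r < g.d x w ∧ g.d x w < 2 * r ∧
    2 * r - g.d x w < s.kk x z ∧ g.P z x (2 * r - g.d x w) = w := by
  simp [Z]

/-- the geometry of one (source, hub, target) triple. -/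
theorem Z_geo {x w z : V} (h : z ∈ s.Z x w) : g.d x z = 2 * r ∧ r < g.d x w ∧ g.d x w < 2 * r ∧
    g.d z w = 2 * r - g.d x w ∧ g.P z x (2 * r - g.d x w) = w := by
  obtain ⟨h1, h2, h3, h4, h5⟩ := s.mem_Z.1 h
  have hd := s.hF x z h1
  refine ⟨hd, h2, h3, ?_, h5⟩
  have := g.dl z x (2 * r - g.d x w) (by rw [g.symm z x, hd]; omega)
  rw [h5] at this
  exact this

theorem Z_disjoint {x w w' z : V} (h : z ∈ s.Z x w) (h' : z ∈ s.Z x w') (hl : g.d x w = g.d x w') :
    w = w' := by
  rw [← (s.Z_geo h).2.2.2.2, ← (s.Z_geo h').2.2.2.2, hl]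

/-- beyond the hub the geodesics from the targets to the source agree. -/
theorem Z_above {x w z : V} (h : z ∈ s.Z x w) {k : ℕ} (hk : 2 * r - g.d x w ≤ k) (hk2 : k ≤ 2 * r) :
    g.P z x k = g.P w x (k - (2 * r - g.d x w)) := by
  obtain ⟨h1, h2, h3, h4, h5⟩ := s.Z_geo h
  have := g.P_suffix (x := z) (y := x) (i := 2 * r - g.d x w) (k := k - (2 * r - g.d x w))
    (by rw [g.symm z x, h1]; omega)
  rw [h5] at this
  rw [this]
  congr 1
  omega

/-- the geometry of a Type I quadruple. `m = P u w r` is the point called `m'` in the blueprint. -/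
theorem quad {u w z y : V} (hz : z ∈ s.Z u w) (hy : y ∈ s.Z w u) :
    r < g.d u w ∧ g.d u w < 2 * r ∧
    g.d u (g.P u w r) = r ∧
    g.d w (g.P u w r) = g.d u w - r ∧
    g.P w y (g.d u w - r) = g.P u w r ∧
    g.d y (g.P u w r) = 3 * r - g.d u w ∧
    g.P y w (3 * r - g.d u w) = g.P u w r ∧
    g.d z (g.P u w r) = r ∧
    g.P z u r = g.P u w r ∧
    g.P z (g.P u w r) (2 * r - g.d u w) = w ∧
    g.P y (g.P u w r) (2 * r - g.d u w) = u ∧
    g.d z w = 2 * r - g.d u w ∧ g.d y u = 2 * r - g.d u w ∧
    g.d u z = 2 * r ∧ g.d w y = 2 * r := by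
  obtain ⟨z1, z2, z3, z4, z5⟩ := s.Z_geo hz
  obtain ⟨y1, y2, y3, y4, y5⟩ := s.Z_geo hy
  have hs : g.d w u = g.d u w := g.symm _ _
  rw [hs] at y2 y3 y4 y5
  set D := g.d u w with hD
  have hmu : g.d u (g.P u w r) = r := g.dl u w r (by omega)
  have hmw : g.d (g.P u w r) w = D - r := g.dr u w r (by omega)
  -- m as a point of the geodesic from w to y
  have e1 : g.P w y D = u := by
    have := g.rev y w D (by rw [g.symm y w, y1]; omega)
    rw [this, g.symm y w, y1]; exact y5
  have e2 : g.P w y (D - r) = g.P u w r := by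
    have h1 := g.sub w y (D - r) D (by omega) (by rw [y1]; omega)
    rw [e1] at h1
    rw [← h1]
    have h2 := g.rev u w (D - r) (by omega)
    rw [h2]; congr 1; omega
  have e3 : g.d y (g.P u w r) = 3 * r - D := by
    have := g.dr w y (D - r) (by rw [y1]; omega)
    rw [e2, y1] at this
    rw [g.symm, this]; omega
  have e4 : g.P y w (3 * r - D) = g.P u w r := by
    have := g.rev w y (3 * r - D) (by rw [y1]; omega)
    rw [this, y1, ← e2]; congr 1; omega
  -- m as a point of the geodesic from z to u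
  have f1 : g.P u z D = w := by
    have := g.rev z u D (by rw [g.symm z u, z1]; omega)
    rw [this, g.symm z u, z1]; exact z5
  have f2 : g.P u z r = g.P u w r := by
    have h1 := g.sub u z r D (by omega) (by rw [z1]; omega)
    rw [f1] at h1
    exact h1.symm
  have f3 : g.P z u r = g.P u w r := by rw [g.mid_symm z1, f2]
  have f4 : g.d z (g.P u w r) = r := by
    have := g.dl z u r (by rw [g.symm z u, z1]; omega)
    rw [f3] at this; exact this
  have f5 : g.P z (g.P u w r) (2 * r - D) = w := by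
    have := g.sub z u (2 * r - D) r (by omega) (by rw [g.symm z u, z1]; omega)
    rw [f3] at this
    rw [this]; exact z5
  have e5 : g.P y (g.P u w r) (2 * r - D) = u := by
    have := g.sub y w (2 * r - D) (3 * r - D) (by omega) (by rw [g.symm y w, y1]; omega)
    rw [e4] at this
    rw [this]; exact y5
  refine ⟨z2, z3, hmu, by rw [g.symm]; exact hmw, e2, e3, e4, f4, f3, f5, e5, z4, y4, z1, y1⟩

end Src

end Pool.Agent.Wi
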