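import Pool.Agent.Wi.Basic

/-! MODULE CEN (blueprint 2.4) and the case r = 1. -/

namespace Pool.Agent.Wi

open Finset
open scoped Classical

namespace CenAux

variable {V : Type}

theorem exists_par (G : SimpleGraph V) (hG : G.Connected) (c y : V) (hy : y ≠ c) :
    ∃ p, G.Adj y p ∧ G.dist c p + 1 = G.dist c y := by
  obtain ⟨w, hw⟩ := hG.exists_walk_length_eq_dist y c
  cases w with
  | nil => exact absurd rfl hy
  | cons h w' =>
    rename_i z
    refine ⟨z, h, ?_⟩
    rw [SimpleGraph.Walk.length_cons] at hw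
    have h1 := SimpleGraph.dist_le w'
    have h2 : G.dist y c ≤ G.dist y z + G.dist z c := hG.dist_triangle
    have h3 : G.dist y z = 1 := SimpleGraph.dist_eq_one_iff_adj.2 h
    rw [SimpleGraph.dist_comm (u := c) (v := z), SimpleGraph.dist_comm (u := c) (v := y)]
    omega

/-- graph of a parent function with root `c` -/
def pg (c : V) (par : V → V) : SimpleGraph V where
  Adj a b := a ≠ b ∧ ((a ≠ c ∧ par a = b) ∨ (b ≠ c ∧ par b = a))
  symm := ⟨fun a b h => ⟨h.1.symm, h.2.symm⟩⟩
  loopless := ⟨fun a h => h.1 rfl⟩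

theorem pg_card [Fintype V] (c : V) (par : V → V) : Nat.card (pg c par).edgeSet + 1 ≤ Nat.card V := by
  have hsurj : ∀ e : (pg c par).edgeSet, ∃ a : {a : V // a ≠ c}, s(a.1, par a.1) = e.1 := by
    rintro ⟨e, he⟩
    induction e using Sym2.ind with
    | _ a b =>
      obtain ⟨hne, h⟩ : (pg c par).Adj a b := he
      rcases h with ⟨h1, h2⟩ | ⟨h1, h2⟩
      · exact ⟨⟨a, h1⟩, by simp [h2]⟩
      · exact ⟨⟨b, h1⟩, by simp [h2, Sym2.eq_swap]⟩
  choose f hf using hsurj
  have hinj : Function.Injective f := by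
    intro e e' h
    apply Subtype.ext
    rw [← hf e, ← hf e', h]
  have h1 := Nat.card_le_card_of_injective f hinj
  have h2 : Nat.card {a : V // a ≠ c} + 1 = Nat.card V := by
    rw [Nat.card_eq_fintype_card, Nat.card_eq_fintype_card]
    have := Fintype.card_subtype_compl (fun a : V => a = c)
    simp only [Fintype.card_unique] at this
    have hpos : 0 < Fintype.card V := Fintype.card_pos_iff.2 ⟨c⟩
    have h3 : Fintype.card {a : V // a ≠ c} = Fintype.card V - 1 := by
      convert this using 1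
    omega
  omega

end CenAux

open CenAux in
theorem centre_case {n : ℕ} (r : ℕ) (G : SimpleGraph (Fin n)) (hG : G.Connected)
    (h1 : ∀ u v, G.dist u v ≤ 2 * r) (h2 : ∃ u v, G.dist u v = 2 * r)
    (c : Fin n) (hc : ∀ v, G.dist c v ≤ r)
    (hext : ∀ G' : SimpleGraph (Fin n), G'.Connected → (∀ u v, G'.dist u v ≤ 2 * r) →
      (∃ u v, G'.dist u v = 2 * r) → ∑ u, ∑ v, G'.dist u v ≤ ∑ u, ∑ v, G.dist u v) :
    G.IsTree := by
  have hpar : ∀ y, ∃ p, y ≠ c → G.Adj y p ∧ G.dist c p + 1 = G.dist c y := by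
    intro y
    by_cases hy : y = c
    · exact ⟨y, fun h => absurd hy h⟩
    · obtain ⟨p, hp⟩ := exists_par G hG c y hy
      exact ⟨p, fun _ => hp⟩
  choose par hpar using hpar
  set T := pg c par with hT
  have hTG : T ≤ G := by
    intro a b hab
    obtain ⟨hne, h⟩ := hab
    rcases h with ⟨h1, h2⟩ | ⟨h1, h2⟩
    · have := (hpar a h1).1; rwa [h2] at this
    · have := (hpar b h1).1; rw [h2] at this; exact this.symm
  have hreach : ∀ m a, G.dist c a = m → ∃ w : T.Walk a c, w.length = m := by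
    intro m
    induction m with
    | zero =>
      intro a ha
      have : c = a := (hG.dist_eq_zero_iff).1 ha
      subst this
      exact ⟨SimpleGraph.Walk.nil, rfl⟩
    | succ m ih =>
      intro a ha
      have hac : a ≠ c := by
        rintro rfl
        simp at ha
      obtain ⟨hadj, hd⟩ := hpar a hac
      obtain ⟨w, hw⟩ := ih (par a) (by omega)
      have hadjT : T.Adj a (par a) := ⟨hadj.ne, Or.inl ⟨hac, rfl⟩⟩
      exact ⟨SimpleGraph.Walk.cons hadjT w, by simp [hw]⟩
  have hTc : T.Connected := by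
    have : Nonempty (Fin n) := ⟨c⟩
    refine { preconnected := fun a b => ?_ }
    obtain ⟨w, -⟩ := hreach _ a rfl
    obtain ⟨w', -⟩ := hreach _ b rfl
    exact ⟨w.append w'.reverse⟩
  have hTtree : T.IsTree := by
    rw [SimpleGraph.isTree_iff_connected_and_card]
    refine ⟨hTc, le_antisymm (pg_card c par) hTc.card_vert_le_card_edgeSet_add_one⟩
  have hge : ∀ u v, G.dist u v ≤ T.dist u v := fun u v => (hTc.preconnected u v).dist_anti hTG
  have hTle : ∀ u v, T.dist u v ≤ 2 * r := by
    intro u v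
    obtain ⟨w, hw⟩ := hreach _ u rfl
    obtain ⟨w', hw'⟩ := hreach _ v rfl
    have h3 := SimpleGraph.dist_le (w.append w'.reverse)
    rw [SimpleGraph.Walk.length_append, SimpleGraph.Walk.length_reverse, hw, hw'] at h3
    have := hc u
    have := hc v
    omega
  have hTex : ∃ u v, T.dist u v = 2 * r := by
    obtain ⟨u, v, huv⟩ := h2
    exact ⟨u, v, le_antisymm (hTle u v) (huv ▸ hge u v)⟩
  have hsum := hext T hTc hTle hTex
  have heq : ∀ u v, G.dist u v = T.dist u v := by
    have e1 : ∀ u ∈ (univ : Finset (Fin n)), ∑ v, G.dist u v ≤ ∑ v, T.dist u v :=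
      fun u _ => Finset.sum_le_sum fun v _ => hge u v
    have e2 : ∑ u, ∑ v, G.dist u v = ∑ u, ∑ v, T.dist u v := le_antisymm (Finset.sum_le_sum e1) hsum
    have e3 := (Finset.sum_eq_sum_iff_of_le e1).1 e2
    intro u v
    exact (Finset.sum_eq_sum_iff_of_le (fun v _ => hge u v)).1 (e3 u (mem_univ u)) v (mem_univ v)
  have hGT : G = T := by
    ext a b
    rw [← SimpleGraph.dist_eq_one_iff_adj, ← SimpleGraph.dist_eq_one_iff_adj, heq]
  rw [hGT]; exact hTtree

open CenAux in
theorem case_one {n : ℕ} (hn : 3 ≤ n) (G : SimpleGraph (Fin n)) (hG : G.Connected)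
    (h1 : ∀ u v, G.dist u v ≤ 2)
    (hext : ∀ G' : SimpleGraph (Fin n), G'.Connected → (∀ u v, G'.dist u v ≤ 2) →
      (∃ u v, G'.dist u v = 2) → ∑ u, ∑ v, G'.dist u v ≤ ∑ u, ∑ v, G.dist u v) :
    G.IsTree := by
  -- the star
  set c : Fin n := ⟨0, by omega⟩ with hcdef
  set T := pg c (fun _ => c) with hT
  have hadj : ∀ a, a ≠ c → T.Adj a c := fun a ha => ⟨ha, Or.inl ⟨ha, rfl⟩⟩
  have hw : ∀ a, ∃ w : T.Walk a c, w.length ≤ 1 := by
    intro a
    by_cases ha : a = c
    · subst ha; exact ⟨SimpleGraph.Walk.nil, by simp⟩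
    · exact ⟨SimpleGraph.Walk.cons (hadj a ha) SimpleGraph.Walk.nil, by simp⟩
  have hTc : T.Connected := by
    have : Nonempty (Fin n) := ⟨c⟩
    refine { preconnected := fun a b => ?_ }
    obtain ⟨w, -⟩ := hw a
    obtain ⟨w', -⟩ := hw b
    exact ⟨w.append w'.reverse⟩
  have hTle : ∀ u v, T.dist u v ≤ 2 := by
    intro u v
    obtain ⟨w, hw1⟩ := hw u
    obtain ⟨w', hw2⟩ := hw v
    have h3 := SimpleGraph.dist_le (w.append w'.reverse)
    rw [SimpleGraph.Walk.length_append, SimpleGraph.Walk.length_reverse] at h3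
    omega
  have key : ∀ H : SimpleGraph (Fin n), H.Connected → (∀ u v, H.dist u v ≤ 2) →
      ∑ u, ∑ v, H.dist u v + 2 * Nat.card H.edgeSet = 2 * (n * (n - 1)) := by
    intro H hH hd
    have e0 : 2 * Nat.card H.edgeSet = ∑ u : Fin n, H.degree u := by
      rw [SimpleGraph.sum_degrees_eq_twice_card_edges, Nat.card_eq_fintype_card,
        ← SimpleGraph.edgeFinset_card]
    rw [e0, ← Finset.sum_add_distrib]
    have e1 : ∀ u : Fin n, ∑ v, H.dist u v + H.degree u = 2 * (n - 1) := by
      intro u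
      have e2 : H.degree u = ∑ v, if H.Adj u v then 1 else 0 := by
        rw [← SimpleGraph.card_neighborFinset_eq_degree, SimpleGraph.neighborFinset_eq_filter,
          Finset.card_filter]
      rw [e2, ← Finset.sum_add_distrib]
      have e3 : ∀ v, H.dist u v + (if H.Adj u v then 1 else 0) = if v = u then 0 else 2 := by
        intro v
        by_cases huv : v = u
        · subst huv; simp
        · rw [if_neg huv]
          by_cases ha : H.Adj u v
          · rw [if_pos ha, SimpleGraph.dist_eq_one_iff_adj.2 ha]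
          · rw [if_neg ha]
            have h4 := hd u v
            have h5 : H.dist u v ≠ 0 := fun h => huv ((hH.dist_eq_zero_iff).1 h).symm
            have h6 : H.dist u v ≠ 1 := fun h => ha (SimpleGraph.dist_eq_one_iff_adj.1 h)
            omega
      rw [Finset.sum_congr rfl (fun v _ => e3 v), Finset.sum_ite, Finset.sum_const_zero, zero_add,
        Finset.sum_const, smul_eq_mul, Finset.filter_ne', Finset.card_erase_of_mem (mem_univ u),
        Finset.card_univ, Fintype.card_fin]
      ring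
    rw [Finset.sum_congr rfl (fun u _ => e1 u), Finset.sum_const, Finset.card_univ, Fintype.card_fin,
      smul_eq_mul]
    ring
  have hTex : ∃ u v, T.dist u v = 2 := by
    refine ⟨⟨1, by omega⟩, ⟨2, by omega⟩, ?_⟩
    have h4 := hTle ⟨1, by omega⟩ ⟨2, by omega⟩
    have h5 : T.dist (⟨1, by omega⟩ : Fin n) ⟨2, by omega⟩ ≠ 0 := by
      intro h
      have := (hTc.dist_eq_zero_iff).1 h
      simp [Fin.ext_iff] at this
    have h6 : T.dist (⟨1, by omega⟩ : Fin n) ⟨2, by omega⟩ ≠ 1 := by
      intro h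
      obtain ⟨-, h7⟩ := SimpleGraph.dist_eq_one_iff_adj.1 h
      rcases h7 with ⟨-, h7⟩ | ⟨-, h7⟩ <;> simp [hcdef, Fin.ext_iff] at h7
    omega
  have k1 := key G hG h1
  have k2 := key T hTc hTle
  have k3 := hext T hTc hTle hTex
  have k4 : Nat.card T.edgeSet + 1 ≤ Nat.card (Fin n) := pg_card c (fun _ => c)
  rw [SimpleGraph.isTree_iff_connected_and_card]
  refine ⟨hG, le_antisymm ?_ hG.card_vert_le_card_edgeSet_add_one⟩
  omega

end Pool.Agent.Wi
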