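import Pool.Agent.Wi.COREa1

/-! MODULE COREa2: root distances, BB, MM, mates (section 8). -/

namespace Pool.Agent.Wi

open Finset
open scoped Classical

namespace Core
variable {V : Type} [Fintype V] {g : Geo V} {r : ℕ} {c : Core g r} {e L L' β : ℝ} (h : c.Hyp e L L' β) (hr : 1 ≤ r)
include h

omit [Fintype V] h in
private theorem anc_dist {p : V} (hp : p ∈ c.B) {k : ℕ} (hk : c.H p ≤ k) (hkr : k < r) :
    g.d p (c.T.anc p k) + c.H p ≤ k := by
  induction k, hk using Nat.le_induction with
  | base =>
    have h1 : c.T.anc p (c.H p) = p := c.T.anc_self p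
    rw [h1, g.dself]
    omega
  | succ k hk ih =>
    have ih := ih (by omega)
    have hm := c.T.anc_mem (p := p) hp (k := k) hk (by omega)
    have h1 : c.T.anc p (k + 1) = c.par (c.T.anc p k) := c.T.anc_succ hk
    have hH : c.H (c.T.anc p k) = k := hm.2
    have h2 := (c.hpar _ hm.1 (by rw [hH]; exact hkr)).2.2
    rw [h1]
    have h3 := g.tri p (c.T.anc p k) (c.par (c.T.anc p k))
    omega

/-- every point of `B` is at distance `r - 1 - H` from its root, the roots have height `r - 1`. -/
theorem root_dist {p : V} (hp : p ∈ c.B) : c.root p ∈ c.B ∧ c.H (c.root p) = r - 1 ∧ g.d p (c.root p) + c.H p ≤ r - 1 := by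
  have h1 := c.Hlt p hp
  have h2 := c.T.anc_mem (p := p) hp (k := r - 1) (by show c.H p ≤ _; omega) (by omega)
  exact ⟨h2.1, h2.2, anc_dist hp (by omega) (by omega)⟩

/-- (c1) + (c2): the base charge is at most `2 r - d`. -/
theorem BB_le (p q : V) : c.BB p q + g.d p q ≤ 2 * r := by
  unfold BB
  split_ifs with hc
  · obtain ⟨hne, hp, hq⟩ := hc
    unfold LF.kap
    set A := (range r).filter (fun k => c.T.lev p ≤ k ∧ c.T.lev q ≤ k ∧ c.T.anc p k = c.T.anc q k) with hA
    by_cases hAn : A.Nonempty
    · have hk0 := A.min'_mem hAn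
      set k0 := A.min' hAn with hk0d
      have h1 := hk0
      rw [hA, mem_filter, mem_range] at h1
      obtain ⟨h1, h2, h3, h4⟩ := h1
      have hsub : A ⊆ Ico k0 r := by
        intro k hk
        have h5 := A.min'_le k hk
        rw [hA, mem_filter, mem_range] at hk
        rw [mem_Ico]
        exact ⟨h5, hk.1⟩
      have hc := card_le_card hsub
      rw [Nat.card_Ico] at hc
      have d1 := anc_dist (c := c) hp (k := k0) h2 h1
      have d2 := anc_dist (c := c) hq (k := k0) h3 h1
      have d3 := g.tri p (c.T.anc p k0) q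
      rw [h4, g.symm (c.T.anc q k0) q] at d3
      rw [h4] at d1
      have e2 : c.T.lev p = c.H p := rfl
      have e3 : c.T.lev q = c.H q := rfl
      omega
    · rw [not_nonempty_iff_eq_empty] at hAn
      rw [hAn, card_empty]
      have := c.hdist p hp q hq hne
      omega
  · have := h.diam p q
    omega

theorem MM_le (p q : V) : c.MM p q + g.d p q ≤ 2 * r := by
  have := h.diam p q
  unfold MM
  split_ifs
  · omega
  · omega

private theorem clo_dist {o p : V} (hp : p ∈ c.B ∨ p ∈ (c.src hr).Sm e L o) : g.d p (c.clo hr o p) ≤ r - 1 := by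
  unfold clo
  split_ifs with hB
  · have := (root_dist h hB).2.2
    omega
  · have hS := hp.resolve_left hB
    unfold Src.Sm Src.Fe at hS
    simp only [mem_filter] at hS
    exact (c.src hr).an_dist hS.1.1 (by omega)

/-- mates are at distance at most `2 r - 2`. -/
theorem mates_dist {o p q : V} (hm : c.Mates hr e L o p q) : g.d p q + 2 ≤ 2 * r := by
  obtain ⟨_, h1, h2, h3⟩ := hm
  have d1 := clo_dist h hr h1
  have d2 := clo_dist h hr h2
  have d3 := g.tri p (c.clo hr o p) q
  rw [h3, g.symm (c.clo hr o q) q] at d3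
  rw [h3] at d1
  omega

theorem mates_symm {o p q : V} (hm : c.Mates hr e L o p q) : c.Mates hr e L o q p :=
  ⟨hm.1.symm, hm.2.2.1, hm.2.1, hm.2.2.2.symm⟩

/-- at most `L2` points in a class: mates of `p` together with `p`. -/
theorem card_mates (o p : V) (ho : o ∈ c.U) :
    ((univ.filter (fun q => c.Mates hr e L o p q)).card : ℝ) ≤ c.L2 e L L' := by
  set ρ := c.clo hr o p with hρ
  have he : 0 < e := by have := h.he; linarith
  have hsub : univ.filter (fun q => c.Mates hr e L o p q) ⊆
      (c.U.filter (fun a => c.root a = ρ) ∪ ((c.src hr).Sm e L o).filter (fun z => (c.src hr).cls o z = ρ)) ∪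
        c.W.filter (fun w => c.root w = ρ) := by
    intro q hq
    obtain ⟨_, _, h2, h3⟩ := (mem_filter.1 hq).2
    simp only [mem_union, mem_filter]
    unfold clo at h3
    by_cases hB : q ∈ c.B
    · have h4 : c.root q = ρ := by
        rw [if_pos hB] at h3
        rw [hρ]; exact h3.symm
      rcases mem_union.1 hB with hu | hw
      · exact Or.inl (Or.inl ⟨hu, h4⟩)
      · exact Or.inr ⟨hw, h4⟩
    · have h4 : (c.src hr).cls o q = ρ := by
        rw [if_neg hB] at h3
        rw [hρ]; exact h3.symm
      exact Or.inl (Or.inr ⟨h2.resolve_left hB, h4⟩)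
  have h1 := h.hroot ρ
  have h2 : ((((c.src hr).Sm e L o).filter (fun z => (c.src hr).cls o z = ρ)).card : ℝ) ≤ L := by
    by_cases hne : (((c.src hr).Sm e L o).filter (fun z => (c.src hr).cls o z = ρ)).Nonempty
    · obtain ⟨z0, hz0⟩ := hne
      rw [mem_filter] at hz0
      have hz1 := hz0.1
      unfold Src.Sm at hz1
      have hz2 := (mem_filter.1 hz1).2
      rw [hz0.2] at hz2
      refine le_trans ?_ hz2
      have : (((c.src hr).Sm e L o).filter (fun z => (c.src hr).cls o z = ρ)) ⊆ (c.src hr).Cl e o ρ := by
        intro z hz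
        rw [mem_filter] at hz
        unfold Src.Cl
        rw [mem_filter]
        refine ⟨?_, hz.2⟩
        have hz3 := hz.1
        unfold Src.Sm at hz3
        exact (mem_filter.1 hz3).1
      exact_mod_cast card_le_card this
    · rw [not_nonempty_iff_eq_empty.1 hne, card_empty]
      simpa using h.hL
  have h3 : ((c.W.filter (fun w => c.root w = ρ)).card : ℝ) ≤ 2 * r * L' / e := by
    rw [le_div_iff₀ he]
    exact card_W_class h ρ
  have h4 : ((univ.filter (fun q => c.Mates hr e L o p q)).card : ℝ) ≤
      ((c.U.filter (fun a => c.root a = ρ)).card : ℝ) +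
      ((((c.src hr).Sm e L o).filter (fun z => (c.src hr).cls o z = ρ)).card : ℝ) +
      ((c.W.filter (fun w => c.root w = ρ)).card : ℝ) := by
    have a := card_le_card hsub
    have b := card_union_le (c.U.filter (fun a => c.root a = ρ) ∪ ((c.src hr).Sm e L o).filter (fun z => (c.src hr).cls o z = ρ))
        (c.W.filter (fun w => c.root w = ρ))
    have d := card_union_le (c.U.filter (fun a => c.root a = ρ)) (((c.src hr).Sm e L o).filter (fun z => (c.src hr).cls o z = ρ))
    have : (univ.filter (fun q => c.Mates hr e L o p q)).card ≤ (c.U.filter (fun a => c.root a = ρ)).card +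
      (((c.src hr).Sm e L o).filter (fun z => (c.src hr).cls o z = ρ)).card + (c.W.filter (fun w => c.root w = ρ)).card := by
      omega
    exact_mod_cast this
  unfold L2
  linarith

end Core

end Pool.Agent.Wi
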