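import Pool.Agent.Wi.Charges

/-! MODULE SRC: general facts on source systems (blueprint section 3: (3.1), (3.2), (3.5)). -/

namespace Pool.Agent.Wi

open Finset
open scoped Classical

namespace Src
variable {V : Type} [Fintype V] {g : Geo V} {r : ℕ} (s : Src g r)

/-- the points `an x z k` are at distance `≤ k` from `z`. -/
theorem an_dist {x z : V} (hz : z ∈ s.F x) {k : ℕ} (hk : k < r) : g.d z (s.an x z k) ≤ k := by
  induction k with
  | zero =>
    rw [s.han x z 0 hz (s.hk1 x z hz), g.P0, g.dself]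
  | succ k ih =>
    have h1 := ih (by omega)
    have h2 := s.hadj x z k hz hk
    have h3 := g.tri z (s.an x z k) (s.an x z (k + 1))
    omega

theorem an_up {x z z' : V} (hz : z ∈ s.F x) (hz' : z' ∈ s.F x) {k l : ℕ} (hkl : k ≤ l) (hl : l < r)
    (h : s.an x z k = s.an x z' k) : s.an x z l = s.an x z' l := by
  induction l, hkl using Nat.le_induction with
  | base => exact h
  | succ l hkl ih => exact s.hup x z z' l hz hz' hl (ih (by omega))

private theorem d_le_of_an {x z z' : V} (hz : z ∈ s.F x) (hz' : z' ∈ s.F x) {k : ℕ} (hk : k < r)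
    (h : s.an x z k = s.an x z' k) : g.d z z' ≤ 2 * k := by
  have h1 := s.an_dist hz hk
  have h2 := s.an_dist hz' hk
  have h3 := g.tri z (s.an x z k) z'
  rw [h, g.symm (s.an x z' k) z'] at h3
  rw [h] at h1
  omega

/-- `2 kap ≤ 2 r - d`. -/
theorem kap_le (diam : ∀ x y, g.d x y ≤ 2 * r) {x z z' : V} (hz : z ∈ s.F x) (hz' : z' ∈ s.F x) : 2 * s.kap x z z' + g.d z z' ≤ 2 * r := by
  unfold kap
  set A := (Ico 1 r).filter (fun k => s.an x z k = s.an x z' k) with hA
  by_cases hne : A.Nonempty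
  · have hk0 := A.min'_mem hne
    set k0 := A.min' hne with hk0d
    have h1 := hk0
    rw [hA, mem_filter, mem_Ico] at h1
    have hsub : A ⊆ Ico k0 r := by
      intro k hk
      have h2 := A.min'_le k hk
      rw [hA, mem_filter, mem_Ico] at hk
      rw [mem_Ico]
      exact ⟨h2, hk.1.2⟩
    have hc := card_le_card hsub
    rw [Nat.card_Ico] at hc
    have hd := s.d_le_of_an hz hz' h1.1.2 h1.2
    omega
  · rw [not_nonempty_iff_eq_empty] at hne
    rw [hne, card_empty]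
    have := diam z z'
    omega

private theorem Sm_F {e L : ℝ} {o p : V} (h : p ∈ s.Sm e L o) : p ∈ s.F o := by
  unfold Sm Fe at h
  simp only [mem_filter] at h
  exact h.1.1

theorem near_le (e L : ℝ) (diam : ∀ x y, g.d x y ≤ 2 * r) (o p q : V) : s.near e L o p q + g.d p q ≤ 2 * r := by
  unfold near
  split_ifs with h
  · exact s.kap_le diam (s.Sm_F h.2.1) (s.Sm_F h.2.2)
  · have := diam p q
    omega

theorem near_symm (e L : ℝ) (o p q : V) : s.near e L o p q = s.near e L o q p := by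
  have hk : s.kap o p q = s.kap o q p := by
    unfold kap
    congr 1
    apply filter_congr
    intro k _
    exact ⟨fun h => h.symm, fun h => h.symm⟩
  unfold near
  by_cases h : p ≠ q ∧ p ∈ s.Sm e L o ∧ q ∈ s.Sm e L o
  · rw [if_pos h, if_pos ⟨h.1.symm, h.2.2, h.2.1⟩, hk]
  · rw [if_neg h, if_neg (fun h' => h ⟨h'.1.symm, h'.2.2, h'.2.1⟩)]

/-- positive near charge = mates (small class, same class), and then it is at least 2. -/
theorem near_pos_iff (hr : 2 ≤ r) (e L : ℝ) (o p q : V) : 0 < s.near e L o p q ↔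
    p ≠ q ∧ p ∈ s.Sm e L o ∧ q ∈ s.Sm e L o ∧ s.cls o p = s.cls o q := by
  unfold near
  constructor
  · intro h
    split_ifs at h with hc
    · refine ⟨hc.1, hc.2.1, hc.2.2, ?_⟩
      have h1 : 0 < s.kap o p q := by omega
      unfold kap at h1
      obtain ⟨k, hk⟩ := card_pos.1 h1
      rw [mem_filter, mem_Ico] at hk
      exact s.an_up (s.Sm_F hc.2.1) (s.Sm_F hc.2.2) (by omega) (by omega) hk.2
    · exact absurd h (lt_irrefl _)
  · rintro ⟨h1, h2, h3, h4⟩
    rw [if_pos ⟨h1, h2, h3⟩]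
    have : 0 < s.kap o p q := by
      unfold kap
      apply card_pos.2
      exact ⟨r - 1, mem_filter.2 ⟨mem_Ico.2 ⟨by omega, by omega⟩, h4⟩⟩
    omega

theorem two_le_near (hr : 2 ≤ r) (e L : ℝ) (o p q : V) (h : 0 < s.near e L o p q) : 2 ≤ s.near e L o p q := by
  unfold near at h ⊢
  split_ifs at h ⊢ with hc
  · omega
  · exact absurd h (lt_irrefl _)

/-- two targets in the same class are at distance at most `2 r - 2`. -/
theorem cls_dist (hr : 1 ≤ r) {o p q : V} (hp : p ∈ s.F o) (hq : q ∈ s.F o) (h : s.cls o p = s.cls o q) :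
    g.d p q ≤ 2 * (r - 1) :=
  s.d_le_of_an hp hq (by omega) h

theorem card_mates_le (hr : 2 ≤ r) (e L : ℝ) (hL : 0 ≤ L) (o p : V) :
    ((univ.filter (fun q => 0 < s.near e L o p q)).card : ℝ) ≤ L := by
  by_cases hp : p ∈ s.Sm e L o
  · have hsub : univ.filter (fun q => 0 < s.near e L o p q) ⊆ s.Cl e o (s.cls o p) := by
      intro q hq
      rw [mem_filter] at hq
      have h := (s.near_pos_iff hr e L o p q).1 hq.2
      unfold Cl
      rw [mem_filter]
      refine ⟨?_, h.2.2.2.symm⟩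
      have h2 := h.2.2.1
      unfold Sm at h2
      exact (mem_filter.1 h2).1
    have h1 : ((univ.filter (fun q => 0 < s.near e L o p q)).card : ℝ) ≤ ((s.Cl e o (s.cls o p)).card : ℝ) := by
      exact_mod_cast card_le_card hsub
    unfold Sm at hp
    exact h1.trans (mem_filter.1 hp).2
  · have : univ.filter (fun q => 0 < s.near e L o p q) = ∅ := by
      apply filter_eq_empty_iff.2
      intro q _ hq
      exact hp ((s.near_pos_iff hr e L o p q).1 hq).2.1
    rw [this, card_empty]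
    simpa using hL

private theorem sum_Z_le (x : V) (A : Finset V) :
    ∑ w ∈ A, (s.Z x w).card ≤ r * (s.F x).card := by
  rw [← card_sigma]
  have : r * (s.F x).card = ((range r) ×ˢ (s.F x)).card := by
    rw [card_product, card_range]
  rw [this]
  apply card_le_card_of_injOn (fun p => (2 * r - g.d x p.1, p.2))
  · intro p hp
    have hp := mem_sigma.1 (mem_coe.1 hp)
    have h2 := (s.mem_Z).1 hp.2
    rw [mem_coe, mem_product, mem_range]
    refine ⟨?_, h2.1⟩
    show 2 * r - g.d x p.1 < r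
    omega
  · intro p hp p' hp' h
    have hp := mem_sigma.1 (mem_coe.1 hp)
    have hp' := mem_sigma.1 (mem_coe.1 hp')
    obtain ⟨w, z⟩ := p
    obtain ⟨w', z'⟩ := p'
    simp only [Prod.mk.injEq] at h hp hp'
    obtain ⟨h1, h2⟩ := h
    subst h2
    have a := (s.mem_Z).1 hp.2
    have a' := (s.mem_Z).1 hp'.2
    have hw : w = w' := s.Z_disjoint hp.2 hp'.2 (by omega)
    subst hw
    rfl

/-- at most `(r - 1) |F x| / e` efficient hubs. -/
theorem card_E_mul_le {e : ℝ} (he : 0 < e) (x : V) : ((s.E e x).card : ℝ) * e ≤ r * ((s.F x).card : ℝ) := by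
  have h1 : ((s.E e x).card : ℝ) * e ≤ ∑ w ∈ s.E e x, ((s.Z x w).card : ℝ) := by
    rw [← nsmul_eq_mul, ← sum_const]
    apply sum_le_sum
    intro w hw
    unfold E at hw
    exact (mem_filter.1 hw).2.2
  have h2 : ∑ w ∈ s.E e x, ((s.Z x w).card : ℝ) ≤ r * ((s.F x).card : ℝ) := by
    exact_mod_cast s.sum_Z_le x (s.E e x)
  exact h1.trans h2

theorem mem_E_dist {e : ℝ} {x w : V} (h : w ∈ s.E e x) : r < g.d x w ∧ g.d x w < 2 * r := by
  unfold E at h
  obtain ⟨z, hz⟩ := (mem_filter.1 h).2.1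
  exact ⟨((s.mem_Z).1 hz).2.1, ((s.mem_Z).1 hz).2.2.1⟩

private theorem first_mem {x z : V} (hz : z ∈ s.F x) (h1 : s.kk x z ≠ 1) :
    z ∈ s.Z x (g.P z x 1) ∧ g.d x (g.P z x 1) = 2 * r - 1 := by
  have hd := s.hF x z hz
  have a := s.hk1 x z hz
  have b := s.hk2 x z hz
  have hd' : g.d z x = 2 * r := by rw [g.symm]; exact hd
  have h2 : g.d (g.P z x 1) x = 2 * r - 1 := by
    rw [g.dr z x 1 (by omega), hd']
  have h3 : g.d x (g.P z x 1) = 2 * r - 1 := by rw [g.symm]; exact h2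
  refine ⟨(s.mem_Z).2 ⟨hz, by omega, by omega, by omega, ?_⟩, h3⟩
  rw [h3]
  congr 1
  omega

private theorem first_kk {x z a : V} (hz : z ∈ s.F x) (h1 : s.kk x z ≠ 1) (ha : a ∈ s.Z x (g.P z x 1)) :
    a ∈ s.F x ∧ g.P a x 1 = g.P z x 1 ∧ s.kk x z = s.kk x a ∧ 1 < s.kk x a := by
  have hf := s.first_mem hz h1
  have h2 := (s.mem_Z).1 ha
  have h3 := (s.mem_Z).1 hf.1
  rw [hf.2] at h2 h3
  have e1 : 2 * r - (2 * r - 1) = 1 := by omega
  rw [e1] at h2 h3
  exact ⟨h2.1, h2.2.2.2.2, s.hkk x z a 1 hz h2.1 le_rfl h3.2.2.2.1 h2.2.2.2.1 h2.2.2.2.2.symm, h2.2.2.2.1⟩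

private theorem Fe_first {e : ℝ} {x z : V} (hz : z ∈ s.Fe e x) (h1 : s.kk x z ≠ 1) : g.P z x 1 ∈ s.E e x := by
  unfold Fe at hz
  rcases (mem_filter.1 hz).2 with h | h
  · exact absurd h h1
  · exact h

private theorem Fe_F {e : ℝ} {x z : V} (hz : z ∈ s.Fe e x) : z ∈ s.F x := by
  unfold Fe at hz
  exact (mem_filter.1 hz).1

private theorem E_card {e : ℝ} {x w : V} (h : w ∈ s.E e x) : e ≤ ((s.Z x w).card : ℝ) := by
  unfold E at h
  exact (mem_filter.1 h).2.2

/-- all irregular hubs of a target in `Fe` are efficient. -/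
theorem Fe_hub {e : ℝ} {x z w : V} (hz : z ∈ s.Fe e x) (hw : z ∈ s.Z x w) : w ∈ s.E e x := by
  have hF := s.Fe_F hz
  have hZ := (s.mem_Z).1 hw
  have h1 : s.kk x z ≠ 1 := by omega
  have hE := s.E_card (s.Fe_first hz h1)
  have hf := s.first_mem hF h1
  have hsub : s.Z x (g.P z x 1) ⊆ s.Z x w := by
    intro a ha
    have hk := s.first_kk hF h1 ha
    refine (s.mem_Z).2 ⟨hk.1, hZ.2.1, hZ.2.2.1, by omega, ?_⟩
    have e1 := s.Z_above ha (k := 2 * r - g.d x w) (by rw [hf.2]; omega) (by omega)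
    have e2 := s.Z_above hf.1 (k := 2 * r - g.d x w) (by rw [hf.2]; omega) (by omega)
    rw [e1, ← e2]
    exact hZ.2.2.2.2
  unfold E
  refine mem_filter.2 ⟨mem_univ _, ⟨z, hw⟩, ?_⟩
  have : ((s.Z x (g.P z x 1)).card : ℝ) ≤ ((s.Z x w).card : ℝ) := by exact_mod_cast card_le_card hsub
  exact hE.trans this

/-- siblings (3.5) of a target with irregular first hub. -/
theorem siblings {e : ℝ} {o w : V} (hr : 2 ≤ r) (hw : w ∈ s.Fe e o) (hk : s.kk o w ≠ 1) :
    ∃ A : Finset V, A ⊆ s.Fe e o ∧ e ≤ (A.card : ℝ) ∧ ∀ a ∈ A, g.d a w ≤ 2 ∧ s.cls o a = s.cls o w := by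
  have hF := s.Fe_F hw
  have hE := s.Fe_first hw hk
  have hf := s.first_mem hF hk
  refine ⟨s.Z o (g.P w o 1), ?_, s.E_card hE, ?_⟩
  · intro a ha
    have h := s.first_kk hF hk ha
    unfold Fe
    refine mem_filter.2 ⟨h.1, Or.inr ?_⟩
    rw [h.2.1]
    exact hE
  · intro a ha
    have h := s.first_kk hF hk ha
    have g1 := (s.Z_geo ha).2.2.2.1
    have g2 := (s.Z_geo hf.1).2.2.2.1
    rw [hf.2] at g1 g2
    have t := g.tri a (g.P w o 1) w
    rw [g.symm (g.P w o 1) w] at t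
    refine ⟨by omega, ?_⟩
    unfold cls
    apply s.an_up h.1 hF (k := 1) (by omega) (by omega)
    rw [s.han o a 1 h.1 h.2.2.2, s.han o w 1 hF (by omega), h.2.1]

/-- targets through a mutual efficient hub: total at most `|Q| / e`. -/
theorem mut_drop {e : ℝ} (he : 0 < e) :
    (∑ x : V, (((s.F x).filter (fun z => ∃ w, z ∈ s.Z x w ∧ x ∈ s.E e w)).card : ℝ)) * e ≤ (s.Q.card : ℝ) := by
  set D : Finset (Σ _ : V, V) := univ.sigma (fun x : V => (s.F x).filter (fun z => ∃ w, z ∈ s.Z x w ∧ x ∈ s.E e w)) with hD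
  have hch : ∀ p : (Σ _ : V, V), ∃ w : V, p ∈ D → p.2 ∈ s.Z p.1 w ∧ p.1 ∈ s.E e w := by
    intro p
    by_cases hp : p ∈ D
    · rw [hD, mem_sigma, mem_filter] at hp
      obtain ⟨w, hw⟩ := hp.2.2
      exact ⟨w, fun _ => hw⟩
    · exact ⟨p.1, fun h => absurd h hp⟩
  choose f hf using hch
  have h1 : (∑ x : V, (((s.F x).filter (fun z => ∃ w, z ∈ s.Z x w ∧ x ∈ s.E e w)).card : ℝ)) = (D.card : ℝ) := by
    rw [hD, card_sigma]
    push_cast
    rfl
  have h2 : (D.card : ℝ) * e ≤ ∑ p ∈ D, ((s.Z (f p) p.1).card : ℝ) := by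
    rw [← nsmul_eq_mul, ← sum_const]
    apply sum_le_sum
    intro p hp
    exact s.E_card (hf p hp).2
  have h3 : ∑ p ∈ D, (s.Z (f p) p.1).card ≤ s.Q.card := by
    rw [← card_sigma]
    apply card_le_card_of_injOn (fun t => (t.1.1, f t.1, t.2, t.1.2))
    · intro t ht
      have ht := mem_sigma.1 (mem_coe.1 ht)
      rw [mem_coe]
      unfold Q
      exact mem_filter.2 ⟨mem_univ _, (hf t.1 ht.1).1, ht.2⟩
    · intro t ht t' ht' h
      obtain ⟨⟨x, z⟩, y⟩ := t
      obtain ⟨⟨x', z'⟩, y'⟩ := t'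
      simp only [Prod.mk.injEq] at h
      obtain ⟨a, -, b, c⟩ := h
      subst a b c
      rfl
  rw [h1]
  refine h2.trans ?_
  exact_mod_cast h3

end Src

end Pool.Agent.Wi
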