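import Pool.Agent.Wi.COREa2
import Pool.Agent.Wi.SRC

/-! MODULE COREa3: NX, total base charge, close pairs (8.0). -/

namespace Pool.Agent.Wi

open Finset
open scoped Classical

namespace LF
variable {r : ℕ} {V : Type} (T : LF r V)

theorem kap_comm' (p q : V) : T.kap p q = T.kap q p := by
  unfold LF.kap
  congr 1
  ext k
  simp only [mem_filter, mem_range]
  constructor
  · rintro ⟨h1, h2, h3, h4⟩; exact ⟨h1, h3, h2, h4.symm⟩
  · rintro ⟨h1, h2, h3, h4⟩; exact ⟨h1, h3, h2, h4.symm⟩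

theorem root_eq_of_kap_pos {p q : V} (h : 0 < T.kap p q) : T.anc p (r - 1) = T.anc q (r - 1) := by
  unfold LF.kap at h
  obtain ⟨k, hk⟩ := Finset.card_pos.1 h
  simp only [mem_filter, mem_range] at hk
  exact T.anc_up hk.2.1 hk.2.2.1 (by omega) hk.2.2.2

end LF

namespace Core
variable {V : Type} [Fintype V] {g : Geo V} {r : ℕ} {c : Core g r} {e L L' β : ℝ} (h : c.Hyp e L L' β) (hr : 1 ≤ r)
include h

omit [Fintype V] h in
private theorem anc_dist (c : Core g r) {p : V} (hp : p ∈ c.B) {k : ℕ} (hk : c.H p ≤ k) (hkr : k < r) :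
    g.d p (c.T.anc p k) + c.H p ≤ k := by
  induction k, hk using Nat.le_induction with
  | base =>
    have : c.T.anc p (c.H p) = p := c.T.anc_self p
    rw [this, g.dself]; omega
  | succ k hk ih =>
    have ih := ih (by omega)
    have hm := c.T.anc_mem (p := p) hp (k := k) hk (by omega)
    rw [c.T.anc_succ (show c.T.lev p ≤ k from hk)]
    have hH : c.H (c.T.anc p k) = k := hm.2
    have h1 : g.d (c.T.anc p k) (c.par (c.T.anc p k)) = 1 := (c.hpar _ hm.1 (by rw [hH]; exact hkr)).2.2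
    have h2 : c.T.par (c.T.anc p k) = c.par (c.T.anc p k) := rfl
    rw [h2]
    have := g.tri p (c.T.anc p k) (c.par (c.T.anc p k))
    omega

omit h in
private theorem X_not_B {x : V} (hx : x ∈ c.X) : x ∉ c.B ∧ x ∉ c.U ∧ x ∉ c.M := by
  unfold Core.X at hx
  simp only [mem_filter, mem_univ, true_and] at hx
  unfold Core.B
  rw [mem_union]
  exact ⟨fun hh => hh.elim hx.1 hx.2.1, hx.1, hx.2.2⟩

private theorem Sm_X {o z : V} (ho : o ∈ c.U) (hz : z ∈ (c.src hr).Sm e L o) :
    z ∈ c.X ∧ z ∈ (c.src hr).F o ∧ g.d o z = 2 * r := by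
  have h1 : z ∈ (c.src hr).F o := by
    unfold Src.Sm Src.Fe at hz
    exact (mem_filter.1 (mem_filter.1 hz).1).1
  have h2 := F_sub h hr h1
  exact ⟨h2.2.2.1 ho, h1, h2.2.2.2⟩

omit h in
private theorem U_B {p : V} (hp : p ∈ c.U) : p ∈ c.B := by unfold Core.B; exact mem_union_left _ hp

omit [Fintype V] h in
private theorem HU0 {p : V} (hp : p ∈ c.U) : c.H p = 0 := (c.HU p (mem_union_left _ hp)).2 hp

/-- the points of `anO`. -/
private theorem anO_dist {o p : V} (ho : o ∈ c.U) (hp : p ∈ c.U ∨ p ∈ (c.src hr).Sm e L o) {k : ℕ} (hk : k < r) :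
    g.d p (c.anO hr o p k) ≤ k := by
  rcases hp with hp | hp
  · unfold Core.anO
    rw [if_pos (U_B hp)]
    have := anc_dist c (U_B hp) (k := k) (by rw [HU0 hp]; omega) hk
    omega
  · have hX := Sm_X h hr ho hp
    unfold Core.anO
    rw [if_neg (X_not_B hX.1).1]
    exact (c.src hr).an_dist hX.2.1 hk

/-- a common ancestor of a point of `U` and a point of `Sm o` is above the regular height. -/
private theorem kh_le_of_eq {o p q : V} (ho : o ∈ c.U) (hp : p ∈ c.U) (hq : q ∈ (c.src hr).Sm e L o) {k : ℕ}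
    (hk1 : 1 ≤ k) (hk : k < r) (he : c.anO hr o p k = c.anO hr o q k) :
    c.kh o q ≤ k ∧ c.anO hr o q k = c.T.anc (g.P q o (c.kh o q)) k := by
  have hX := Sm_X h hr ho hq
  have e1 : c.anO hr o p k = c.T.anc p k := by unfold Core.anO; rw [if_pos (U_B hp)]
  have e2 : c.anO hr o q k = if k < c.kh o q then g.P q o k else c.T.anc (g.P q o (c.kh o q)) k := by
    unfold Core.anO
    rw [if_neg (X_not_B hX.1).1]
    unfold Core.src
    simp only [if_pos ho]
  by_cases hlt : k < c.kh o q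
  · exfalso
    rw [if_pos hlt] at e2
    rw [e1, e2] at he
    have hm := c.T.anc_mem (p := p) (U_B hp) (k := k) (by show c.H p ≤ k; rw [HU0 hp]; omega) hk
    have hH : c.H (c.T.anc p k) = k := hm.2
    have hwB : c.T.anc p k ∈ c.B := hm.1
    have hd : g.d o (c.T.anc p k) = 2 * r - k := by
      rw [he, g.symm]
      have hqo : g.d q o = 2 * r := by rw [g.symm]; exact hX.2.2
      have := g.dr q o k (by omega)
      rw [this, hqo]
    refine c.kh_min (v := o) (x := q) hk1 hlt ⟨⟨?_, ?_, ?_⟩, ?_⟩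
    · rw [← he]; exact hwB
    · rw [← he]
      intro hroot
      -- same class: the distance is too small
      have hne : o ≠ c.T.anc p k := by
        intro h0; rw [← h0, g.dself] at hd; omega
      have hBB := BB_le h o (c.T.anc p k)
      unfold Core.BB at hBB
      rw [if_pos ⟨hne, U_B ho, hwB⟩, hH, HU0 ho, hd] at hBB
      have hkap : 0 < c.T.kap o (c.T.anc p k) := by
        unfold LF.kap
        apply Finset.card_pos.2
        refine ⟨r - 1, ?_⟩
        simp only [mem_filter, mem_range]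
        refine ⟨by omega, ?_, ?_, ?_⟩
        · show c.H o ≤ r - 1; rw [HU0 ho]; omega
        · show c.H _ ≤ r - 1; rw [hH]; omega
        · exact hroot.symm
      omega
    · rw [← he, hH, hd]; omega
    · rw [← he]; exact hH
  · rw [if_neg hlt] at e2
    exact ⟨by omega, e2⟩

private theorem anO_succ {o p q : V} (ho : o ∈ c.U) (hp : p ∈ c.U ∨ p ∈ (c.src hr).Sm e L o)
    (hq : q ∈ c.U ∨ q ∈ (c.src hr).Sm e L o) {k : ℕ} (hk1 : 1 ≤ k) (hk : k + 1 < r)
    (he : c.anO hr o p k = c.anO hr o q k) : c.anO hr o p (k + 1) = c.anO hr o q (k + 1) := by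
  -- the mixed case
  have mixed : ∀ p q, p ∈ c.U → q ∈ (c.src hr).Sm e L o → c.anO hr o p k = c.anO hr o q k →
      c.anO hr o p (k + 1) = c.anO hr o q (k + 1) := by
    intro p q hp hq he
    have h1 := kh_le_of_eq h hr ho hp hq hk1 (by omega) he
    have hX := Sm_X h hr ho hq
    have hs := c.kh_spec (v := o) (x := q) (by omega)
    have e2 : c.anO hr o q (k + 1) = c.T.anc (g.P q o (c.kh o q)) (k + 1) := by
      unfold Core.anO
      rw [if_neg (X_not_B hX.1).1]
      unfold Core.src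
      simp only [if_pos ho]
      rw [if_neg (by omega)]
    have e1 : ∀ k, c.anO hr o p k = c.T.anc p k := by
      intro k; unfold Core.anO; rw [if_pos (U_B hp)]
    rw [e2, e1, c.T.anc_succ (show c.T.lev p ≤ k by show c.H p ≤ k; rw [HU0 hp]; omega),
      c.T.anc_succ (show c.T.lev _ ≤ k by show c.H _ ≤ k; rw [hs.2.2]; exact h1.1)]
    rw [h1.2, e1] at he
    rw [he]
  rcases hp with hp | hp <;> rcases hq with hq | hq
  · unfold Core.anO at he ⊢
    rw [if_pos (U_B hp), if_pos (U_B hq)] at he ⊢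
    rw [c.T.anc_succ (show c.T.lev p ≤ k by show c.H p ≤ k; rw [HU0 hp]; omega),
      c.T.anc_succ (show c.T.lev q ≤ k by show c.H q ≤ k; rw [HU0 hq]; omega), he]
  · exact mixed p q hp hq he
  · exact (mixed q p hq hp he.symm).symm
  · have h1 := Sm_X h hr ho hp
    have h2 := Sm_X h hr ho hq
    unfold Core.anO at he ⊢
    rw [if_neg (X_not_B h1.1).1, if_neg (X_not_B h2.1).1] at he ⊢
    exact (c.src hr).hup o p q k h1.2.1 h2.2.1 hk he

private theorem anO_up {o p q : V} (ho : o ∈ c.U) (hp : p ∈ c.U ∨ p ∈ (c.src hr).Sm e L o)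
    (hq : q ∈ c.U ∨ q ∈ (c.src hr).Sm e L o) {k l : ℕ} (hk1 : 1 ≤ k) (hkl : k ≤ l) (hl : l < r)
    (he : c.anO hr o p k = c.anO hr o q k) : c.anO hr o p l = c.anO hr o q l := by
  induction l, hkl using Nat.le_induction with
  | base => exact he
  | succ l hl2 ih => exact anO_succ h hr ho hp hq (by omega) hl (ih (by omega))

theorem NX_le (o p q : V) (ho : o ∈ c.U) : c.NX hr e L o p q + g.d p q ≤ 2 * r := by
  unfold Core.NX
  split_ifs with hc
  · obtain ⟨hne, hp, hq, -⟩ := hc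
    by_cases hex : ∃ k, 1 ≤ k ∧ k < r ∧ c.anO hr o p k = c.anO hr o q k
    · set k0 := Nat.find hex with hk0
      have hs := Nat.find_spec hex
      rw [← hk0] at hs
      have hcard : ((Ico 1 r).filter (fun k => c.anO hr o p k = c.anO hr o q k)).card ≤ r - k0 := by
        have hsub : ((Ico 1 r).filter (fun k => c.anO hr o p k = c.anO hr o q k)) ⊆ Ico k0 r := by
          intro k hk
          simp only [mem_filter, mem_Ico] at hk ⊢
          exact ⟨Nat.find_min' hex ⟨hk.1.1, hk.1.2, hk.2⟩, hk.1.2⟩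
        have := Finset.card_le_card hsub
        simpa using this
      have d1 := anO_dist h hr ho hp hs.2.1
      have d2 := anO_dist h hr ho hq hs.2.1
      have t := g.tri p (c.anO hr o p k0) q
      rw [hs.2.2] at t d1
      rw [g.symm (c.anO hr o q k0) q] at t
      omega
    · have : ((Ico 1 r).filter (fun k => c.anO hr o p k = c.anO hr o q k)) = ∅ := by
        apply Finset.filter_eq_empty_iff.2
        intro k hk he
        simp only [mem_Ico] at hk
        exact hex ⟨k, hk.1, hk.2, he⟩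
      rw [this]
      simpa using h.diam p q
  · simpa using h.diam p q

omit h in
theorem NX_symm' (o p q : V) : c.NX hr e L o p q = c.NX hr e L o q p := by
  unfold Core.NX
  by_cases h1 : p ≠ q ∧ (p ∈ c.U ∨ p ∈ (c.src hr).Sm e L o) ∧ (q ∈ c.U ∨ q ∈ (c.src hr).Sm e L o) ∧ ¬ (p ∈ c.U ∧ q ∈ c.U)
  · rw [if_pos h1, if_pos ⟨h1.1.symm, h1.2.2.1, h1.2.1, fun hh => h1.2.2.2 ⟨hh.2, hh.1⟩⟩]
    congr 2
    ext k
    simp only [mem_filter]
    exact ⟨fun hh => ⟨hh.1, hh.2.symm⟩, fun hh => ⟨hh.1, hh.2.symm⟩⟩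
  · rw [if_neg h1, if_neg (fun h2 => h1 ⟨h2.1.symm, h2.2.2.1, h2.2.1, fun hh => h2.2.2.2 ⟨hh.2, hh.1⟩⟩)]

theorem NX_symm (o p q : V) : c.NX hr e L o p q = c.NX hr e L o q p := NX_symm' hr o p q

/-- positive `NX`: mates, at least 2, one point in `Sm o ⊆ X`. -/
theorem NX_pos (o p q : V) (ho : o ∈ c.U) (hp : 0 < c.NX hr e L o p q) : 2 ≤ c.NX hr e L o p q ∧ c.Mates hr e L o p q ∧
    (p ∈ c.U ∨ p ∈ (c.src hr).Sm e L o) ∧ (q ∈ c.U ∨ q ∈ (c.src hr).Sm e L o) ∧ (p ∈ c.X ∨ q ∈ c.X) := by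
  unfold Core.NX at hp ⊢
  split_ifs at hp ⊢ with hc
  · obtain ⟨hne, h1, h2, h3⟩ := hc
    have hpos : 0 < ((Ico 1 r).filter (fun k => c.anO hr o p k = c.anO hr o q k)).card := by omega
    obtain ⟨k, hk⟩ := Finset.card_pos.1 hpos
    simp only [mem_filter, mem_Ico] at hk
    have hup := anO_up h hr ho h1 h2 hk.1.1 (show k ≤ r - 1 by omega) (by omega) hk.2
    refine ⟨by omega, ⟨hne, ?_, ?_, ?_⟩, h1, h2, ?_⟩
    · exact h1.imp U_B id
    · exact h2.imp U_B id
    · exact hup
    · by_cases hpU : p ∈ c.U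
      · have hqU : q ∉ c.U := fun hh => h3 ⟨hpU, hh⟩
        exact Or.inr (Sm_X h hr ho (h2.resolve_left hqU)).1
      · exact Or.inl (Sm_X h hr ho (h1.resolve_left hpU)).1
  · omega

omit h in
private theorem MM_eq {p q : V} (hMM : c.MM p q ≠ 0) : (p ∈ c.B ∧ q = c.mm p) ∨ (q ∈ c.B ∧ p = c.mm q) := by
  unfold Core.MM at hMM
  by_contra hcon
  rw [if_neg hcon] at hMM
  exact hMM rfl

omit [Fintype V] h in
private theorem mm_M {p : V} (hp : p ∈ c.B) : c.mm p ∈ c.M := (c.hmm p hp).1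

omit [Fintype V] h in
private theorem M_not_B {m : V} (hm : m ∈ c.M) : m ∉ c.B ∧ m ∉ c.U := by
  unfold Core.B
  rw [mem_union]
  have h1 := Finset.disjoint_right.1 c.dUM hm
  have h2 := Finset.disjoint_right.1 c.dWM hm
  exact ⟨fun hh => hh.elim h1 h2, h1⟩

omit h in
private theorem M_not_X {m : V} (hm : m ∈ c.M) : m ∉ c.X := by
  intro hx
  exact (X_not_B hx).2.2 hm

/-- the total base charge is at most `2 r - d` (the three parts never meet). -/
theorem bb_le (o p q : V) (ho : o ∈ c.U) (hpq : p ≠ q) : c.bb hr e L o p q + g.d p q ≤ 2 * r := by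
  unfold Core.bb
  by_cases hMM : c.MM p q = 0
  · by_cases hBB : c.BB p q = 0
    · have := NX_le h hr o p q ho
      omega
    · have hB : p ∈ c.B ∧ q ∈ c.B := by
        unfold Core.BB at hBB
        by_contra hcon
        rw [if_neg (fun hh => hcon hh.2)] at hBB
        exact hBB rfl
      have hNX : c.NX hr e L o p q = 0 := by
        unfold Core.NX
        rw [if_neg]
        rintro ⟨-, h1, h2, h3⟩
        have a1 : p ∈ c.U := h1.resolve_right (fun hh => (X_not_B (Sm_X h hr ho hh).1).1 hB.1)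
        have a2 : q ∈ c.U := h2.resolve_right (fun hh => (X_not_B (Sm_X h hr ho hh).1).1 hB.2)
        exact h3 ⟨a1, a2⟩
      have := BB_le h p q
      omega
  · -- one of the points is the middle of the other one
    have key : ∀ p q, p ∈ c.B → q = c.mm p → c.BB p q = 0 ∧ c.NX hr e L o p q = 0 := by
      intro p q hp hq
      have hqM : q ∈ c.M := by rw [hq]; exact mm_M hp
      constructor
      · unfold Core.BB
        rw [if_neg (fun hh => (M_not_B hqM).1 hh.2.2)]
      · unfold Core.NX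
        rw [if_neg]
        rintro ⟨-, -, h2, -⟩
        rcases h2 with h2 | h2
        · exact (M_not_B hqM).2 h2
        · exact M_not_X hqM (Sm_X h hr ho h2).1
    have hle := MM_le h p q
    rcases MM_eq hMM with ⟨h1, h2⟩ | ⟨h1, h2⟩
    · obtain ⟨a1, a2⟩ := key p q h1 h2
      omega
    · obtain ⟨a1, a2⟩ := key q p h1 h2
      have a3 : c.BB p q = 0 := by
        unfold Core.BB at a1 ⊢
        by_cases hcon : p ≠ q ∧ p ∈ c.B ∧ q ∈ c.B
        · exact absurd hcon.2.1 (fun hh => (M_not_B (by rw [h2]; exact mm_M h1)).1 hh)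
        · rw [if_neg hcon]
      rw [NX_symm' hr o p q, a2, a3]
      omega

theorem bb_symm (o p q : V) : c.bb hr e L o p q = c.bb hr e L o q p := by
  unfold Core.bb
  rw [NX_symm' hr o p q]
  have h1 : c.BB p q = c.BB q p := by
    unfold Core.BB
    by_cases hc : p ≠ q ∧ p ∈ c.B ∧ q ∈ c.B
    · rw [if_pos hc, if_pos ⟨hc.1.symm, hc.2.2, hc.2.1⟩, c.T.kap_comm' p q]; ring
    · rw [if_neg hc, if_neg (fun hh => hc ⟨hh.1.symm, hh.2.2, hh.2.1⟩)]
  have h2 : c.MM p q = c.MM q p := by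
    unfold Core.MM
    rw [g.symm p q]
    by_cases hc : (p ∈ c.B ∧ q = c.mm p) ∨ (q ∈ c.B ∧ p = c.mm q)
    · rw [if_pos hc, if_pos (Or.symm hc)]
    · rw [if_neg hc, if_neg (fun hh => hc (Or.symm hh))]
  rw [h1, h2]

omit h in
/-- `kap = 0` for points of `B` which are not mates -/
private theorem kap_zero {o p q : V} (hpq : p ≠ q) (hp : p ∈ c.B) (hq : q ∈ c.B) (hm : ¬ c.Mates hr e L o p q) :
    c.T.kap p q = 0 := by
  by_contra hk
  apply hm
  refine ⟨hpq, Or.inl hp, Or.inl hq, ?_⟩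
  unfold Core.clo
  rw [if_pos hp, if_pos hq]
  exact c.T.root_eq_of_kap_pos (Nat.pos_of_ne_zero hk)

/-- two different points of `U` in different root classes carry no base charge. -/
theorem bb_far {o p q : V} (ho : o ∈ c.U) (hp : p ∈ c.U ∪ c.X) (hq : q ∈ c.U ∪ c.X) (hm : ¬ c.Mates hr e L o p q) :
    c.bb hr e L o p q = 0 := by
  have hnM : ∀ x, x ∈ c.U ∪ c.X → x ∉ c.M := by
    intro x hx hM
    rcases mem_union.1 hx with h1 | h1
    · exact (M_not_B hM).2 h1
    · exact M_not_X hM h1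
  have hBU : ∀ x, x ∈ c.U ∪ c.X → x ∈ c.B → c.H x = 0 := by
    intro x hx hB
    rcases mem_union.1 hx with h1 | h1
    · exact HU0 h1
    · exact absurd hB (X_not_B h1).1
  have h1 : c.BB p q = 0 := by
    unfold Core.BB
    split_ifs with hc
    · rw [hBU p hp hc.2.1, hBU q hq hc.2.2, kap_zero hr hc.1 hc.2.1 hc.2.2 hm]
    · rfl
  have h2 : c.MM p q = 0 := by
    by_contra hMM
    rcases MM_eq hMM with ⟨a1, a2⟩ | ⟨a1, a2⟩
    · exact hnM q hq (by rw [a2]; exact mm_M a1)
    · exact hnM p hp (by rw [a2]; exact mm_M a1)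
  have h3 : c.NX hr e L o p q = 0 := by
    by_contra hNX
    exact hm (NX_pos h hr o p q ho (Nat.pos_of_ne_zero hNX)).2.1
  unfold Core.bb
  omega

/-- (8.0) close pairs. -/
theorem close {o p q : V} (ho : o ∈ c.U) (hpq : p ≠ q) (hd : g.d p q ≤ r) (hUX : p ∈ c.U ∪ c.X ∨ q ∈ c.U ∪ c.X)
    (hm : ¬ c.Mates hr e L o p q) (h1 : ¬ (p ∈ c.B ∧ q = c.mm p)) (h2 : ¬ (q ∈ c.B ∧ p = c.mm q)) :
    1 ≤ (c.src hr).unc e (c.bb hr e L o) p q := by
  have hBU : ∀ x, x ∈ c.U ∪ c.X → x ∈ c.B → c.H x = 0 := by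
    intro x hx hB
    rcases mem_union.1 hx with h1 | h1
    · exact HU0 h1
    · exact absurd hB (X_not_B h1).1
  have hMM : c.MM p q = 0 := by
    unfold Core.MM
    rw [if_neg (fun hh => hh.elim h1 h2)]
  have hNX : c.NX hr e L o p q = 0 := by
    by_contra hNX
    exact hm (NX_pos h hr o p q ho (Nat.pos_of_ne_zero hNX)).2.1
  have hBB : c.BB p q + 1 ≤ r := by
    unfold Core.BB
    split_ifs with hc
    · rw [kap_zero hr hc.1 hc.2.1 hc.2.2 hm]
      have a1 : c.H p < r := c.Hlt p hc.2.1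
      have a2 : c.H q < r := c.Hlt q hc.2.2
      rcases hUX with hu | hu
      · rw [hBU p hu hc.2.1]; omega
      · rw [hBU q hu hc.2.2]; omega
    · omega
  unfold Src.unc
  rw [if_neg]
  · unfold Core.bb
    omega
  · rintro (hh | hh)
    · have := (E_src h hr hh).2.1
      omega
    · have := (E_src h hr hh).2.1
      rw [g.symm] at this
      omega

end Core

end Pool.Agent.Wi
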