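import Pool.Agent.Wi.SRC

/-! MODULE COREa1: sources, efficient hubs, number of hubs in W (section 8). -/

namespace Pool.Agent.Wi

open Finset
open scoped Classical

namespace Core
variable {V : Type} [Fintype V] {g : Geo V} {r : ℕ} {c : Core g r} {e L L' β : ℝ} (h : c.Hyp e L L' β) (hr : 1 ≤ r)
include h

omit h in
private theorem F_eq (x : V) : (c.src hr).F x = if x ∈ c.U then c.X.filter (fun z => g.d x z = 2 * r)
    else if x ∈ c.X then (c.U ∪ c.X).filter (fun z => g.d x z = 2 * r) else ∅ := rfl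

/-- only points of `U ∪ X` are sources; targets lie in `U ∪ X`, and in `X` if the source is in `U`. -/
theorem F_sub {x z : V} (hz : z ∈ (c.src hr).F x) :
    x ∈ c.U ∪ c.X ∧ z ∈ c.U ∪ c.X ∧ (x ∈ c.U → z ∈ c.X) ∧ g.d x z = 2 * r := by
  rw [F_eq] at hz
  split_ifs at hz with h1 h2
  · have := mem_filter.1 hz
    exact ⟨mem_union_left _ h1, mem_union_right _ this.1, fun _ => this.1, this.2⟩
  · have := mem_filter.1 hz
    exact ⟨mem_union_right _ h2, this.1, fun h3 => absurd h3 h1, this.2⟩
  · exact absurd hz (notMem_empty _)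

theorem kk_X {x : V} (hx : x ∉ c.U) (z : V) : (c.src hr).kk x z = r := by
  show (if x ∈ c.U then c.kh x z else r) = r
  rw [if_neg hx]

theorem E_src {x w : V} (hw : w ∈ (c.src hr).E e x) : x ∈ c.U ∪ c.X ∧ r < g.d x w ∧ g.d x w < 2 * r := by
  refine ⟨?_, (c.src hr).mem_E_dist hw⟩
  unfold Src.E at hw
  obtain ⟨z, hz⟩ := (mem_filter.1 hw).2.1
  exact (F_sub h hr ((c.src hr).mem_Z.1 hz).1).1

private theorem card_E_of {x : V} {k : ℝ} (hk : (((c.src hr).F x).card : ℝ) ≤ k) :
    (((c.src hr).E e x).card : ℝ) ≤ r * k / e := by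
  have he : 0 < e := by have := h.he; linarith
  rw [le_div_iff₀ he]
  exact ((c.src hr).card_E_mul_le he x).trans (mul_le_mul_of_nonneg_left hk (Nat.cast_nonneg _))

theorem card_E_U {v : V} (hv : v ∈ c.U) : (((c.src hr).E e v).card : ℝ) ≤ c.hU e := by
  apply card_E_of h hr
  have : (c.src hr).F v ⊆ c.X := fun z hz => (F_sub h hr hz).2.2.1 hv
  exact_mod_cast card_le_card this

theorem card_E_X (x : V) : (((c.src hr).E e x).card : ℝ) ≤ c.hX e := by
  apply card_E_of h hr
  exact_mod_cast card_le_univ _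

/-- `Σ_x |E x| ≤ n hU + |X| hX`. -/
theorem sum_E : (∑ x : V, (((c.src hr).E e x).card : ℝ)) ≤ (Fintype.card V : ℝ) * c.hU e + (c.X.card : ℝ) * c.hX e := by
  have he : 0 < e := by have := h.he; linarith
  have hU0 : 0 ≤ c.hU e := by
    unfold hU
    positivity
  have hX0 : 0 ≤ c.hX e := by
    unfold hX
    positivity
  have h1 : ∀ x ∈ (univ : Finset V), (((c.src hr).E e x).card : ℝ) ≤ c.hU e + (if x ∈ c.X then c.hX e else 0) := by
    intro x _
    by_cases hx : x ∈ c.X
    · rw [if_pos hx]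
      have := card_E_X h hr x
      linarith
    · rw [if_neg hx, add_zero]
      by_cases hx2 : x ∈ c.U
      · exact card_E_U h hr hx2
      · have h0 : (c.src hr).E e x = ∅ := by
          apply eq_empty_of_forall_notMem
          intro w hw
          have := (E_src h hr hw).1
          rw [mem_union] at this
          tauto
        rw [h0, card_empty]
        simpa using hU0
  refine (sum_le_sum h1).trans (le_of_eq ?_)
  rw [sum_add_distrib, sum_const, nsmul_eq_mul, card_univ]
  congr 1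
  rw [← sum_filter, sum_const, nsmul_eq_mul]
  congr 2
  congr 1
  ext x
  simp

omit [Fintype V] h in
private theorem desc_count (A B : Finset V) (hA : A ⊆ c.W)
    (hB : ∀ w ∈ A, ∀ a ∈ c.U, c.T.anc a (c.H w) = w → a ∈ B) :
    ∑ w ∈ A, (c.U.filter (fun a => c.T.anc a (c.H w) = w)).card ≤ r * B.card := by
  rw [← card_sigma]
  have : r * B.card = ((range r) ×ˢ B).card := by
    rw [card_product, card_range]
  rw [this]
  apply card_le_card_of_injOn (fun p => (c.H p.1, p.2))
  · intro p hp
    have hp := mem_sigma.1 (mem_coe.1 hp)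
    have h2 := mem_filter.1 hp.2
    rw [mem_coe, mem_product, mem_range]
    exact ⟨c.Hlt _ (mem_union_right _ (hA hp.1)), hB _ hp.1 _ h2.1 h2.2⟩
  · intro p hp p' hp' he
    have hp := mem_sigma.1 (mem_coe.1 hp)
    have hp' := mem_sigma.1 (mem_coe.1 hp')
    obtain ⟨w, z⟩ := p
    obtain ⟨w', z'⟩ := p'
    simp only [Prod.mk.injEq] at he hp hp'
    obtain ⟨h1, h2⟩ := he
    subst h2
    have a := (mem_filter.1 hp.2).2
    have a' := (mem_filter.1 hp'.2).2
    rw [← h1] at a'
    have hw : w = w' := by rw [← a, ← a']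
    subst hw
    rfl

private theorem desc_le (A B : Finset V) (hA : A ⊆ c.W)
    (hB : ∀ w ∈ A, ∀ a ∈ c.U, c.T.anc a (c.H w) = w → a ∈ B) :
    (A.card : ℝ) * e ≤ 2 * r * (B.card : ℝ) := by
  have h1 : (A.card : ℝ) * (e / 2) ≤ ∑ w ∈ A, ((c.U.filter (fun a => c.T.anc a (c.H w) = w)).card : ℝ) := by
    rw [← nsmul_eq_mul, ← sum_const]
    exact sum_le_sum fun w hw => h.hdesc w (hA hw)
  have h2 : ∑ w ∈ A, ((c.U.filter (fun a => c.T.anc a (c.H w) = w)).card : ℝ) ≤ r * (B.card : ℝ) := by
    exact_mod_cast desc_count A B hA hB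
  linarith

/-- `|W| e ≤ 2 r n`. -/
theorem card_W : (c.W.card : ℝ) * e ≤ 2 * r * (Fintype.card V : ℝ) := by
  have := desc_le h c.W univ (Subset.refl _) (fun _ _ _ _ _ => mem_univ _)
  rwa [card_univ] at this

/-- number of hubs in one root class. -/
theorem card_W_class (ρ : V) : ((c.W.filter (fun w => c.root w = ρ)).card : ℝ) * e ≤ 2 * r * L' := by
  have h1 := desc_le h (c.W.filter (fun w => c.root w = ρ)) (c.U.filter (fun a => c.root a = ρ)) (filter_subset _ _) ?_
  · refine h1.trans ?_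
    exact mul_le_mul_of_nonneg_left (h.hroot ρ) (by positivity)
  · intro w hw a ha haw
    rw [mem_filter] at hw ⊢
    refine ⟨ha, ?_⟩
    have hlt := c.Hlt w (mem_union_right _ hw.1)
    have ha0 : c.H a = 0 := (c.HU a (mem_union_left _ ha)).2 ha
    have h2 := c.T.anc_anc (p := a) (mem_union_left _ ha) (k := c.H w) (l := r - 1)
      (by show c.H a ≤ _; omega) (by omega) hlt
    rw [haw] at h2
    unfold root at hw ⊢
    rw [← h2]
    exact hw.2

end Core

end Pool.Agent.Wi
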