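import Pool.Agent.Wi.COREa

/-! MODULE COREb: (8.1), (8.6), (8.7) of the blueprint. -/

namespace Pool.Agent.Wi

open Finset
open scoped Classical

namespace Core
variable {V : Type} [Fintype V] {g : Geo V} {r : ℕ} {c : Core g r} {e L L' β : ℝ} (h : c.Hyp e L L' β) (hr : 1 ≤ r)

omit [Fintype V] in
/-- distance to an ancestor. -/
theorem anc_dist {p : V} (hp : p ∈ c.B) {k : ℕ} (hk : c.H p ≤ k) (hkr : k < r) :
    g.d p (c.T.anc p k) + c.H p ≤ k := by
  induction k, hk using Nat.le_induction with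
  | base =>
    have : c.T.anc p (c.H p) = p := c.T.anc_self p
    rw [this, g.dself]; omega
  | succ k hk ih =>
    have ih := ih (by omega)
    have hm := c.T.anc_mem (p := p) hp (k := k) hk (by omega)
    have e1 : c.T.anc p (k + 1) = c.par (c.T.anc p k) := c.T.anc_succ hk
    have hH : c.H (c.T.anc p k) = k := hm.2
    have h1 := (c.hpar _ hm.1 (by rw [hH]; exact hkr)).2.2
    have ht := g.tri p (c.T.anc p k) (c.par (c.T.anc p k))
    rw [e1]
    omega

omit [Fintype V] in
/-- the root of an ancestor is the root. -/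
theorem root_anc {p : V} (hp : p ∈ c.B) {k : ℕ} (hk : c.H p ≤ k) (hkr : k < r) :
    c.root (c.T.anc p k) = c.root p :=
  c.T.anc_anc (p := p) hp (k := k) (l := r - 1) hk (by omega) hkr

/-- pairs `(x, y)` with `y ∈ S x`. -/
theorem card_pairs {V : Type} [Fintype V] (S : V → Finset V) :
    (univ.filter (fun p : V × V => p.2 ∈ S p.1)).card = ∑ x : V, (S x).card := by
  have h1 : (univ.filter (fun p : V × V => p.2 ∈ S p.1)) =
      (univ : Finset V).biUnion (fun x => (S x).image (fun y => (x, y))) := by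
    ext ⟨a, b⟩
    simp
  rw [h1, card_biUnion]
  · refine sum_congr rfl fun x _ => card_image_of_injective _ fun a b hab => by simpa using hab
  · intro x _ y _ hxy
    rw [Function.onFun, disjoint_left]
    rintro ⟨a, b⟩ ha hb
    simp only [mem_image, Prod.mk.injEq] at ha hb
    obtain ⟨_, _, h1, _⟩ := ha
    obtain ⟨_, _, h2, _⟩ := hb
    exact hxy (h1.trans h2.symm)

/-- pairs `(x, y)` with `x ∈ S y`. -/
theorem card_pairs' {V : Type} [Fintype V] (S : V → Finset V) :
    (univ.filter (fun p : V × V => p.1 ∈ S p.2)).card = ∑ x : V, (S x).card := by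
  rw [← card_pairs S]
  refine card_bij (fun p _ => (p.2, p.1)) ?_ ?_ ?_
  · intro p hp; simpa using hp
  · rintro ⟨a, b⟩ _ ⟨a', b'⟩ _ hab; simpa [and_comm] using hab
  · rintro ⟨a, b⟩ hab; exact ⟨(b, a), by simpa using hab, rfl⟩

include h

/-- (8.1) -/
theorem card_PP {o : V} (ho : o ∈ c.U) : ((c.PP hr e L o).card : ℝ) ≤
    2 * ((Fintype.card V : ℝ) * c.hU e + (c.X.card : ℝ) * c.hX e) + (c.Un hr e L o : ℝ) := by
  set s := c.src hr with hs
  set A : Finset (V × V) := univ.filter (fun p => p.2 ∈ s.E e p.1) with hA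
  set A' : Finset (V × V) := univ.filter (fun p => p.1 ∈ s.E e p.2) with hA'
  set Cc : Finset (V × V) := univ.filter (fun p => p.2 ∈ (univ.filter (fun y => y ≠ p.1 ∧
    1 ≤ s.unc e (c.bb hr e L o) p.1 y))) with hC
  have hsub : c.PP hr e L o ⊆ A ∪ A' ∪ Cc := by
    rintro ⟨x, y⟩ hxy
    simp only [PP, mem_filter, mem_univ, true_and] at hxy
    obtain ⟨hx, hy, hne, hd, hm⟩ := hxy
    by_cases h1 : y ∈ s.E e x
    · exact mem_union_left _ (mem_union_left _ (by simpa [hA] using h1))
    by_cases h2 : x ∈ s.E e y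
    · exact mem_union_left _ (mem_union_right _ (by simpa [hA'] using h2))
    refine mem_union_right _ ?_
    simp only [hC, mem_filter, mem_univ, true_and]
    refine ⟨hne.symm, ?_⟩
    have hb := bb_far h hr ho hx hy hm
    unfold Src.unc
    rw [if_neg (by tauto), hb]
    omega
  have hcA : (A.card : ℝ) = ∑ x : V, ((s.E e x).card : ℝ) := by
    rw [hA, card_pairs]; push_cast; rfl
  have hcA' : (A'.card : ℝ) = ∑ x : V, ((s.E e x).card : ℝ) := by
    rw [hA', card_pairs']; push_cast; rfl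
  have hcC : Cc.card ≤ c.Un hr e L o := by
    rw [hC, card_pairs (fun x => univ.filter (fun y => y ≠ x ∧ 1 ≤ s.unc e (c.bb hr e L o) x y))]
    unfold Un Src.Unc
    refine sum_le_sum fun x _ => ?_
    rw [card_eq_sum_ones]
    have : (univ.filter (fun y => y ≠ x ∧ 1 ≤ s.unc e (c.bb hr e L o) x y)) ⊆ univ.filter (fun y => y ≠ x) := by
      intro y hy
      simp only [mem_filter, mem_univ, true_and] at hy ⊢
      exact hy.1
    refine le_trans ?_ (sum_le_sum_of_subset this)
    refine sum_le_sum fun y hy => ?_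
    simp only [mem_filter, mem_univ, true_and] at hy
    exact hy.2
  have hE := sum_E h hr
  have h1 : (c.PP hr e L o).card ≤ A.card + A'.card + Cc.card :=
    (card_le_card hsub).trans ((card_union_le _ _).trans (Nat.add_le_add_right (card_union_le _ _) _))
  have h2 : ((c.PP hr e L o).card : ℝ) ≤ (A.card : ℝ) + (A'.card : ℝ) + (Cc.card : ℝ) := by exact_mod_cast h1
  have h3 : (Cc.card : ℝ) ≤ (c.Un hr e L o : ℝ) := by exact_mod_cast hcC
  rw [hcA, hcA'] at h2
  linarith

/-- every point of `B` has a leaf below it. -/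
theorem exists_leaf {w : V} (hw : w ∈ c.B) : ∃ a ∈ c.U, c.T.anc a (c.H w) = w := by
  unfold B at hw
  rw [mem_union] at hw
  rcases hw with hw | hw
  · refine ⟨w, hw, c.T.anc_self w⟩
  · have h1 := h.hdesc w hw
    have he := h.he
    have hpos : 0 < (c.U.filter (fun a => c.T.anc a (c.H w) = w)).card := by
      have : (0 : ℝ) < ((c.U.filter (fun a => c.T.anc a (c.H w) = w)).card : ℝ) := by linarith
      exact_mod_cast this
    obtain ⟨a, ha⟩ := card_pos.1 hpos
    rw [mem_filter] at ha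
    exact ⟨a, ha.1, ha.2⟩

omit h in
/-- leaves below a non-aligned point. -/
theorem NonAl_leaf {o v w a : V} (hv : v ∈ c.U) (hw : w ∈ c.NonAl v) (ha : a ∈ c.U)
    (haw : c.T.anc a (c.H w) = w) : (v, a) ∈ c.PP hr e L o := by
  unfold NonAl at hw
  rw [mem_filter] at hw
  obtain ⟨hwB, hroot, hne⟩ := hw
  have haB : a ∈ c.B := mem_union_left _ ha
  have hvB : v ∈ c.B := mem_union_left _ hv
  have hHv : c.H v = 0 := (c.HU v hvB).2 hv
  have hHa : c.H a = 0 := (c.HU a haB).2 ha
  have hHw : c.H w < r := c.Hlt w hwB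
  have hvw : v ≠ w := by rintro rfl; exact hroot rfl
  have h1 := c.hdist v hvB w hwB hvw
  have h2 := c.anc_dist haB (k := c.H w) (by omega) hHw
  rw [haw] at h2
  have hra : c.root a = c.root w := by
    have := c.root_anc haB (k := c.H w) (by omega) hHw
    rw [haw] at this
    exact this.symm
  have h3 := g.tri v w a
  rw [g.symm w a] at h3
  unfold PP
  rw [mem_filter]
  refine ⟨mem_univ _, mem_union_left _ hv, mem_union_left _ ha, ?_, ?_, ?_⟩
  · intro hva; have hva : v = a := hva; rw [hva] at hroot; exact hroot hra.symm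
  · show g.d v a < 2 * r
    omega
  · rintro ⟨_, _, _, h4⟩
    unfold clo at h4
    rw [if_pos hvB, if_pos haB, hra] at h4
    exact hroot h4.symm

/-- (8.6) -/
theorem sum_NonAl {o : V} (_ho : o ∈ c.U) : (∑ v ∈ c.U, ((c.NonAl v).card : ℝ)) ≤ r * ((c.PP hr e L o).card : ℝ) := by
  have hex : ∀ w, ∃ a, w ∈ c.B → a ∈ c.U ∧ c.T.anc a (c.H w) = w := by
    intro w
    by_cases hw : w ∈ c.B
    · obtain ⟨a, ha⟩ := exists_leaf h hw
      exact ⟨a, fun _ => ha⟩
    · exact ⟨w, fun h' => absurd h' hw⟩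
  choose lf hlf using hex
  have hcount : (∑ v ∈ c.U, (c.NonAl v).card) ≤ (c.PP hr e L o).card * r := by
    have hcp : (c.PP hr e L o).card * r = ((c.PP hr e L o) ×ˢ range r).card := by
      rw [card_product, card_range]
    rw [← card_sigma, hcp]
    refine card_le_card_of_injOn (fun p => ((p.1, lf p.2), c.H p.2)) ?_ ?_
    · rintro ⟨v, w⟩ hp
      rw [mem_coe, mem_sigma] at hp
      simp only at hp
      have hwB : w ∈ c.B := (mem_filter.1 hp.2).1
      rw [mem_coe, mem_product, mem_range]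
      exact ⟨NonAl_leaf hr hp.1 hp.2 (hlf w hwB).1 (hlf w hwB).2, c.Hlt w hwB⟩
    · rintro ⟨v, w⟩ hp ⟨v', w'⟩ hp' heq
      rw [mem_coe, mem_sigma] at hp hp'
      simp only [Prod.mk.injEq] at heq
      obtain ⟨⟨h1, h2⟩, h3⟩ := heq
      have hwB : w ∈ c.B := (mem_filter.1 hp.2).1
      have hwB' : w' ∈ c.B := (mem_filter.1 hp'.2).1
      have : w = w' := by rw [← (hlf w hwB).2, ← (hlf w' hwB').2, h2, h3]
      subst h1; subst this; rfl
  have : (∑ v ∈ c.U, ((c.NonAl v).card : ℝ)) ≤ ((c.PP hr e L o).card : ℝ) * r := by exact_mod_cast hcount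
  linarith

/-- close pairs `(a, b)` with `b ∈ X`: far mates are rare. -/
theorem close_aux {o : V} (ho : o ∈ c.U) (P : Finset (V × V))
    (hP : ∀ p ∈ P, p.1 ∈ c.U ∪ c.X ∧ p.2 ∈ c.U ∪ c.X ∧ p.1 ≠ p.2 ∧ g.d p.1 p.2 < 2 * r ∧ p.2 ∈ c.X) :
    (P.card : ℝ) ≤ ((c.PP hr e L o).card : ℝ) + (c.X.card : ℝ) * c.L2 e L L' := by
  set Mt : Finset (V × V) := univ.filter (fun p : V × V => p.1 ∈ (if p.2 ∈ c.X then
    univ.filter (fun q => c.Mates hr e L o p.2 q) else ∅)) with hMt
  have hsub : P ⊆ c.PP hr e L o ∪ Mt := by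
    rintro ⟨x, y⟩ hxy
    obtain ⟨h1, h2, h3, h4, h5⟩ := hP _ hxy
    by_cases hm : c.Mates hr e L o x y
    · refine mem_union_right _ ?_
      rw [hMt, mem_filter]
      simp only at h5
      refine ⟨mem_univ _, ?_⟩
      simp only [if_pos h5, mem_filter, mem_univ, true_and]
      exact mates_symm h hr hm
    · refine mem_union_left _ ?_
      unfold PP
      rw [mem_filter]
      exact ⟨mem_univ _, h1, h2, h3, h4, hm⟩
  have hc : (Mt.card : ℝ) ≤ (c.X.card : ℝ) * c.L2 e L L' := by
    rw [hMt, card_pairs' (fun y => if y ∈ c.X then univ.filter (fun q => c.Mates hr e L o y q) else ∅)]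
    push_cast
    have : ∀ y : V, (((if y ∈ c.X then univ.filter (fun q => c.Mates hr e L o y q) else ∅ : Finset V).card : ℕ) : ℝ)
        ≤ if y ∈ c.X then c.L2 e L L' else 0 := by
      intro y
      split_ifs with hy
      · exact card_mates h hr o y ho
      · simp
    refine (sum_le_sum fun y _ => this y).trans ?_
    rw [sum_ite_mem, univ_inter, sum_const, nsmul_eq_mul]
  have h1 : P.card ≤ (c.PP hr e L o).card + Mt.card := (card_le_card hsub).trans (card_union_le _ _)
  have h2 : (P.card : ℝ) ≤ ((c.PP hr e L o).card : ℝ) + (Mt.card : ℝ) := by exact_mod_cast h1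
  linarith

/-- (8.7), sources in `U`. -/
theorem sum_close_U {o : V} (ho : o ∈ c.U) :
    (∑ v ∈ c.U, ((c.X.filter (fun x => g.d v x < 2 * r)).card : ℝ)) ≤ ((c.PP hr e L o).card : ℝ) + (c.X.card : ℝ) * c.L2 e L L' := by
  have key := close_aux h hr ho (univ.filter (fun p : V × V => p.2 ∈ (if p.1 ∈ c.U then
    c.X.filter (fun x => g.d p.1 x < 2 * r) else ∅))) ?_
  · rw [card_pairs (fun v => if v ∈ c.U then c.X.filter (fun x => g.d v x < 2 * r) else ∅)] at key
    refine le_trans (le_of_eq ?_) key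
    push_cast
    rw [← sum_subset (subset_univ c.U)]
    · refine sum_congr rfl fun v hv => by rw [if_pos hv]
    · intro v _ hv; rw [if_neg hv]; simp
  · rintro ⟨v, x⟩ hp
    simp only [mem_filter, mem_univ, true_and] at hp
    split_ifs at hp with hv
    · rw [mem_filter] at hp
      refine ⟨mem_union_left _ hv, mem_union_right _ hp.1, ?_, hp.2, hp.1⟩
      intro hvx
      have hvx : v = x := hvx
      have := hp.1
      unfold X at this
      rw [mem_filter] at this
      rw [hvx] at hv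
      exact this.2.1 hv
    · exact absurd hp (notMem_empty _)

/-- (8.7), sources in `X`. -/
theorem sum_close_X {o : V} (ho : o ∈ c.U) :
    (∑ u ∈ c.X, (((c.U ∪ c.X).filter (fun y => y ≠ u ∧ g.d u y < 2 * r)).card : ℝ)) ≤
      ((c.PP hr e L o).card : ℝ) + (c.X.card : ℝ) * c.L2 e L L' := by
  have key := close_aux h hr ho (univ.filter (fun p : V × V => p.1 ∈ (if p.2 ∈ c.X then
    (c.U ∪ c.X).filter (fun y => y ≠ p.2 ∧ g.d p.2 y < 2 * r) else ∅))) ?_
  · rw [card_pairs' (fun u => if u ∈ c.X then (c.U ∪ c.X).filter (fun y => y ≠ u ∧ g.d u y < 2 * r) else ∅)] at key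
    refine le_trans (le_of_eq ?_) key
    push_cast
    rw [← sum_subset (subset_univ c.X)]
    · refine sum_congr rfl fun v hv => by rw [if_pos hv]
    · intro v _ hv; rw [if_neg hv]; simp
  · rintro ⟨y, u⟩ hp
    simp only [mem_filter, mem_univ, true_and] at hp
    split_ifs at hp with hu
    · rw [mem_filter] at hp
      refine ⟨hp.1, mem_union_right _ hu, hp.2.1, ?_, hu⟩
      show g.d y u < 2 * r
      rw [g.symm]; exact hp.2.2
    · exact absurd hp (notMem_empty _)

end Core

end Pool.Agent.Wi
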