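import Pool.Agent.Wi.COREa

/-! MODULE COREc1: Type II (8.3) of the blueprint. -/

namespace Pool.Agent.Wi

open Finset
open scoped Classical

namespace Core
variable {V : Type} [Fintype V] {g : Geo V} {r : ℕ} {c : Core g r} {e L L' β : ℝ} (h : c.Hyp e L L' β) (hr : 1 ≤ r)
include h

/-- the leaves below a hub `w ∈ W`. -/
theorem leavesII {w : V} (hw : w ∈ c.W) :
    ∃ A : Finset V, A ⊆ c.U ∧ e / 2 ≤ (A.card : ℝ) ∧ ∀ a ∈ A, g.d a w ≤ c.H w ∧ c.root a = c.root w := by
  refine ⟨c.U.filter (fun a => c.T.anc a (c.H w) = w), filter_subset _ _, h.hdesc w hw, ?_⟩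
  intro a ha
  obtain ⟨haU, haw⟩ := mem_filter.1 ha
  have haB : a ∈ c.U ∪ c.W := mem_union_left _ haU
  have ha0 : c.H a = 0 := (c.HU a haB).2 haU
  have hwr : c.H w < r := c.Hlt w (mem_union_right _ hw)
  constructor
  · have key : ∀ k, k < r → g.d a (c.T.anc a k) ≤ k := by
      intro k
      induction k with
      | zero =>
        intro _
        have h1 : c.T.anc a (c.T.lev a) = a := c.T.anc_self a
        have hl : c.T.lev a = 0 := ha0
        rw [hl] at h1
        rw [h1, g.dself]
      | succ k ih =>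
        intro hk
        have ih := ih (by omega)
        have hm := c.T.anc_mem (p := a) haB (k := k) (by show c.H a ≤ k; omega) (by omega)
        rw [c.T.anc_succ (by show c.H a ≤ k; omega)]
        have hH : c.H (c.T.anc a k) = k := hm.2
        have hp := c.hpar _ hm.1 (by rw [hH]; exact hk)
        have ht := g.tri a (c.T.anc a k) (c.T.par (c.T.anc a k))
        have e1 : g.d (c.T.anc a k) (c.T.par (c.T.anc a k)) = 1 := hp.2.2
        omega
    have h2 := key (c.H w) hwr
    rw [haw] at h2; exact h2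
  · have h3 := c.T.anc_anc (p := a) haB (k := c.H w) (l := r - 1) (by show c.H a ≤ _; omega) (by omega) hwr
    rw [haw] at h3
    exact h3.symm

/-- siblings of a leaf `w ∈ U`. -/
theorem sibU {w : V} (hw : w ∈ c.U) :
    ∃ A : Finset V, A ⊆ c.U ∧ e / 2 ≤ (A.card : ℝ) ∧ ∀ a ∈ A, g.d a w ≤ 2 ∧ c.root a = c.root w := by
  have hr2 := h.hr2
  have hwB : w ∈ c.U ∪ c.W := mem_union_left _ hw
  have hw0 : c.H w = 0 := (c.HU w hwB).2 hw
  have hp := c.hpar w hwB (by omega)
  have hpW : c.par w ∈ c.W := by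
    rcases mem_union.1 hp.1 with h1 | h1
    · exfalso
      have := (c.HU _ hp.1).2 h1
      omega
    · exact h1
  obtain ⟨A, hA, hc, hd⟩ := leavesII h hpW
  refine ⟨A, hA, hc, fun a ha => ⟨?_, ?_⟩⟩
  · have h1 := (hd a ha).1
    have h2 := g.tri a (c.par w) w
    rw [g.symm (c.par w) w] at h2
    omega
  · rw [(hd a ha).2]
    have e1 : c.T.anc w 1 = c.par w := by
      have h0 := c.T.anc_succ (p := w) (k := 0) (by show c.H w ≤ 0; omega)
      have h1 : c.T.anc w (c.T.lev w) = w := c.T.anc_self w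
      have hl : c.T.lev w = 0 := hw0
      rw [hl] at h1
      rw [h1] at h0
      exact h0
    have h3 := c.T.anc_anc (p := w) hwB (k := 1) (l := r - 1) (by show c.H w ≤ _; omega) (by omega) (by omega)
    rw [e1] at h3
    exact h3

theorem badAux {o x z : V} (hz : z ∈ (c.src hr).F x) (hx : x ∈ c.B ∨ x ∈ (c.src hr).Sm e L o)
    (A : Finset V) (hA : ∀ a ∈ A, a ∈ c.U ∪ c.X ∧ (a ∈ c.B ∨ a ∈ (c.src hr).Sm e L o) ∧
      c.clo hr o a = c.clo hr o x ∧ g.d a z < 2 * r) :
    A ⊆ univ.filter (fun a => (a, z) ∈ c.PP hr e L o ∧ c.Mates hr e L o a x) := by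
  intro a ha
  obtain ⟨h1, h2, h3, h4⟩ := hA a ha
  obtain ⟨_, hzU, _, hxz⟩ := F_sub h hr hz
  have hxz' : x ≠ z := by
    intro he
    rw [he, g.dself] at hxz
    omega
  have hno : ¬ ((z ∈ c.B ∨ z ∈ (c.src hr).Sm e L o) ∧ c.clo hr o z = c.clo hr o x) := by
    rintro ⟨h5, h6⟩
    have := mates_dist h hr (o := o) (p := x) (q := z) ⟨hxz', hx, h5, h6.symm⟩
    omega
  have haz : a ≠ z := by
    rintro rfl
    exact hno ⟨h2, h3⟩
  have hax : a ≠ x := by
    rintro rfl
    omega
  refine mem_filter.2 ⟨mem_univ _, ?_, ?_⟩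
  · refine mem_filter.2 ⟨mem_univ _, h1, hzU, haz, h4, ?_⟩
    rintro ⟨_, _, h7, h8⟩
    exact hno ⟨h7, by rw [← h8, h3]⟩
  · exact ⟨hax, h2, hx, h3⟩

theorem badSib {o x w z : V} (ho : o ∈ c.U) (hB : c.Bad hr e L o x w) (hz : z ∈ (c.src hr).Z x w) :
    e / 2 ≤ ((univ.filter (fun a => (a, z) ∈ c.PP hr e L o ∧ c.Mates hr e L o a x)).card : ℝ) := by
  have hr2 := h.hr2
  obtain ⟨g1, g2, g3, g4, g5⟩ := (c.src hr).Z_geo hz
  have hzF : z ∈ (c.src hr).F x := ((c.src hr).mem_Z.1 hz).1
  have cloB : ∀ a, a ∈ c.B → c.clo hr o a = c.root a := fun a ha => by unfold clo; rw [if_pos ha]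
  have UB : ∀ a, a ∈ c.U → a ∈ c.B := fun a ha => mem_union_left _ ha
  -- from a set `A ⊆ U` with roots equal to the class of `x`, close to `w`
  have fin : ∀ (A : Finset V) (k : ℕ), A ⊆ c.U → e / 2 ≤ (A.card : ℝ) → (x ∈ c.B ∨ x ∈ (c.src hr).Sm e L o) →
      (∀ a ∈ A, g.d a w ≤ k ∧ c.root a = c.clo hr o x) → k + (2 * r - g.d x w) < 2 * r →
      e / 2 ≤ ((univ.filter (fun a => (a, z) ∈ c.PP hr e L o ∧ c.Mates hr e L o a x)).card : ℝ) := by
    intro A k hAU hAc hx hA hk
    refine hAc.trans ?_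
    have := card_le_card (badAux h hr hzF hx A (fun a ha => ⟨mem_union_left _ (hAU ha), Or.inl (UB a (hAU ha)), by
      rw [cloB a (UB a (hAU ha))]; exact (hA a ha).2, by
      have h1 := g.tri a w z
      rw [g.symm w z] at h1
      have h2 := (hA a ha).1
      omega⟩))
    exact_mod_cast this
  rcases hB with ⟨hxU, hwB, hroot⟩ | hNX
  · have hxB := UB x hxU
    rcases mem_union.1 hwB with hwU | hwW
    · obtain ⟨A, hA, hc, hd⟩ := sibU h hwU
      refine fin A 2 hA hc (Or.inl hxB) (fun a ha => ⟨(hd a ha).1, ?_⟩) (by omega)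
      rw [(hd a ha).2, hroot, cloB x hxB]
    · obtain ⟨A, hA, hc, hd⟩ := leavesII h hwW
      -- the base charge gives the deficit of `x w`
      have hBB := BB_le h x w
      have hne : x ≠ w := by
        rintro rfl
        rw [g.dself] at g2
        omega
      have hx0 : c.H x = 0 := (c.HU x hxB).2 hxU
      have hwr : c.H w < r := c.Hlt w hwB
      have hkap : 1 ≤ c.T.kap x w := by
        unfold LF.kap
        refine Finset.card_pos.2 ⟨r - 1, mem_filter.2 ⟨mem_range.2 (by omega), ?_, ?_, ?_⟩⟩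
        · show c.H x ≤ r - 1
          omega
        · show c.H w ≤ r - 1
          omega
        · exact hroot.symm
      unfold BB at hBB
      rw [if_pos ⟨hne, hxB, hwB⟩] at hBB
      refine fin A (c.H w) hA hc (Or.inl hxB) (fun a ha => ⟨(hd a ha).1, ?_⟩) (by omega)
      rw [(hd a ha).2, hroot, cloB x hxB]
  · obtain ⟨_, hM, hxx, hww, _⟩ := NX_pos h hr o x w ho hNX
    have hx' : x ∈ c.B ∨ x ∈ (c.src hr).Sm e L o := hM.2.1
    have hcl : c.clo hr o x = c.clo hr o w := hM.2.2.2
    rcases hww with hwU | hwS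
    · obtain ⟨A, hA, hc, hd⟩ := sibU h hwU
      refine fin A 2 hA hc hx' (fun a ha => ⟨(hd a ha).1, ?_⟩) (by omega)
      rw [(hd a ha).2, hcl, cloB w (UB w hwU)]
    · -- `w ∈ Sm o`
      have hwFe : w ∈ (c.src hr).Fe e o := (mem_filter.1 hwS).1
      have hwF : w ∈ (c.src hr).F o := (mem_filter.1 hwFe).1
      obtain ⟨_, _, hX, how⟩ := F_sub h hr hwF
      have hwX : w ∈ c.X := hX ho
      have nB : ∀ a, a ∈ c.X → a ∉ c.B := by
        intro a ha hb
        have h1 := (mem_filter.1 ha).2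
        rcases mem_union.1 hb with h2 | h2
        · exact h1.1 h2
        · exact h1.2.1 h2
      have cloX : ∀ a, a ∈ c.X → c.clo hr o a = (c.src hr).cls o a := fun a ha => by
        unfold clo; rw [if_neg (nB a ha)]
      by_cases hk : (c.src hr).kk o w = 1
      · have hkh : c.kh o w = 1 := by
          have h1 : (c.src hr).kk o w = c.kh o w := by
            show (if o ∈ c.U then c.kh o w else r) = _
            rw [if_pos ho]
          rw [← h1]; exact hk
        have hs := c.kh_spec (v := o) (x := w) (by omega)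
        rw [hkh] at hs
        obtain ⟨_, hReg, hH⟩ := hs
        have hPW : g.P w o 1 ∈ c.W := by
          rcases mem_union.1 hReg.1 with h1 | h1
          · exfalso
            have := (c.HU _ hReg.1).2 h1
            omega
          · exact h1
        obtain ⟨A, hA, hc, hd⟩ := leavesII h hPW
        have hdw : g.d w (g.P w o 1) = 1 := g.dl w o 1 (by rw [g.symm w o, how]; omega)
        have hclw : c.clo hr o w = c.root (g.P w o 1) := by
          rw [cloX w hwX]
          show (if o ∈ c.U then (if r - 1 < c.kh o w then g.P w o (r - 1) else c.T.anc (g.P w o (c.kh o w)) (r - 1)) else g.P w o (r - 1)) = _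
          rw [if_pos ho, hkh, if_neg (by omega)]
          rfl
        refine fin A 2 hA hc hx' (fun a ha => ⟨?_, ?_⟩) (by omega)
        · have h1 := (hd a ha).1
          have h2 := g.tri a (g.P w o 1) w
          rw [g.symm (g.P w o 1) w] at h2
          omega
        · rw [(hd a ha).2, hcl, hclw]
      · obtain ⟨A, hA, hc, hd⟩ := (c.src hr).siblings hr2 hwFe hk
        have he := h.he
        have hc' : e / 2 ≤ (A.card : ℝ) := by linarith
        refine hc'.trans ?_
        have := card_le_card (badAux h hr hzF hx' A (fun a ha => ?_))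
        · exact_mod_cast this
        · have haFe := hA ha
          have haF : a ∈ (c.src hr).F o := (mem_filter.1 haFe).1
          have haX : a ∈ c.X := (F_sub h hr haF).2.2.1 ho
          refine ⟨mem_union_right _ haX, Or.inr ?_, ?_, ?_⟩
          · refine mem_filter.2 ⟨haFe, ?_⟩
            rw [(hd a ha).2]
            exact (mem_filter.1 hwS).2
          · rw [cloX a haX, (hd a ha).2, hcl, cloX w hwX]
          · have h1 := g.tri a w z
            rw [g.symm w z] at h1
            have h2 := (hd a ha).1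
            omega

/-- (8.3) Type II. -/
theorem typeII {o : V} (ho : o ∈ c.U) :
    (∑ x : V, ((((c.src hr).F x).filter (fun z => ∃ w, w ∈ (c.src hr).E e x ∧ z ∈ (c.src hr).Z x w ∧ c.Bad hr e L o x w)).card : ℝ)) * (e / 2)
      ≤ c.L2 e L L' * ((c.PP hr e L o).card : ℝ) := by
  have h1 : ∀ x : V, ((((c.src hr).F x).filter (fun z => ∃ w, w ∈ (c.src hr).E e x ∧ z ∈ (c.src hr).Z x w ∧ c.Bad hr e L o x w)).card : ℝ) * (e / 2) ≤
      ∑ z : V, ∑ a : V, (if (a, z) ∈ c.PP hr e L o ∧ c.Mates hr e L o a x then (1 : ℝ) else 0) := by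
    intro x
    have h2 : ∀ z : V, ∑ a : V, (if (a, z) ∈ c.PP hr e L o ∧ c.Mates hr e L o a x then (1 : ℝ) else 0) =
        ((univ.filter (fun a => (a, z) ∈ c.PP hr e L o ∧ c.Mates hr e L o a x)).card : ℝ) := by
      intro z
      rw [Finset.card_filter]
      push_cast
      rfl
    simp only [h2]
    rw [← nsmul_eq_mul, ← Finset.sum_const]
    refine (Finset.sum_le_sum (fun z hz => ?_)).trans
      (Finset.sum_le_univ_sum_of_nonneg (fun z => Nat.cast_nonneg _))
    obtain ⟨_, w, _, hz2, hz3⟩ := mem_filter.1 hz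
    exact badSib h hr ho hz3 hz2
  rw [Finset.sum_mul]
  refine (Finset.sum_le_sum (fun x _ => h1 x)).trans ?_
  rw [Finset.sum_comm]
  have h3 : ∀ z : V, ∑ x : V, ∑ a : V, (if (a, z) ∈ c.PP hr e L o ∧ c.Mates hr e L o a x then (1 : ℝ) else 0) ≤
      ∑ a : V, (if (a, z) ∈ c.PP hr e L o then c.L2 e L L' else 0) := by
    intro z
    rw [Finset.sum_comm]
    refine Finset.sum_le_sum (fun a _ => ?_)
    by_cases haz : (a, z) ∈ c.PP hr e L o
    · rw [if_pos haz]
      have h4 := card_mates h hr o a ho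
      refine le_trans (le_of_eq ?_) h4
      rw [Finset.card_filter]
      push_cast
      refine Finset.sum_congr rfl (fun x _ => ?_)
      simp only [haz, true_and]
    · rw [if_neg haz]
      refine le_of_eq (Finset.sum_eq_zero (fun x _ => ?_))
      rw [if_neg (fun hh => haz hh.1)]
  refine (Finset.sum_le_sum (fun z _ => h3 z)).trans (le_of_eq ?_)
  rw [Finset.sum_comm]
  have h5 : ∑ a : V, ∑ z : V, (if (a, z) ∈ c.PP hr e L o then c.L2 e L L' else 0) =
      ∑ p : V × V, (if p ∈ c.PP hr e L o then c.L2 e L L' else 0) := by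
    rw [Fintype.sum_prod_type]
  rw [h5, ← Finset.sum_filter, Finset.sum_const, nsmul_eq_mul, mul_comm]
  congr 3
  ext p
  simp

end Core

end Pool.Agent.Wi
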