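import Pool.Agent.Wi.COREe1

/-! MODULE COREe2: Type I count, cases (B2), (B2') of (8.2). -/

namespace Pool.Agent.Wi

open Finset
open scoped Classical

private theorem e2_fiber {α β : Type} (A : Finset α) (f : α → β) (B : Finset β) (κ : ℝ)
    (hf : ∀ a ∈ A, f a ∈ B)
    (hκ : ∀ b ∈ B, ∀ S : Finset α, (∀ a ∈ S, a ∈ A ∧ f a = b) → (S.card : ℝ) ≤ κ) :
    (A.card : ℝ) ≤ κ * (B.card : ℝ) := by
  have h1 : A.card = ∑ b ∈ B, (A.filter (fun a => f a = b)).card :=
    Finset.card_eq_sum_card_fiberwise hf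
  rw [h1]
  push_cast
  calc (∑ b ∈ B, ((A.filter (fun a => f a = b)).card : ℝ)) ≤ ∑ b ∈ B, κ :=
        Finset.sum_le_sum fun b hb => hκ b hb _ fun a ha => mem_filter.1 ha
    _ = κ * (B.card : ℝ) := by rw [Finset.sum_const, nsmul_eq_mul]; ring

private theorem e2_pairs {V : Type} [Fintype V] {g : Geo V} {r : ℕ} (s : Src g r) (e : ℝ)
    (b : V → V → ℕ) :
    (univ.filter (fun p : V × V => p.1 ≠ p.2 ∧ 1 ≤ s.unc e b p.1 p.2)).card ≤ s.Unc e b := by
  unfold Src.Unc
  have h1 : (∑ x : V, ∑ y ∈ univ.filter (fun y => y ≠ x), s.unc e b x y) =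
      ∑ p : V × V, if p.1 ≠ p.2 then s.unc e b p.1 p.2 else 0 := by
    rw [Fintype.sum_prod_type]
    refine Finset.sum_congr rfl fun x _ => ?_
    rw [Finset.sum_filter]
    refine Finset.sum_congr rfl fun y _ => ?_
    by_cases h : y = x
    · rw [if_neg (not_not.2 h), if_neg (not_not.2 h.symm)]
    · rw [if_pos h, if_pos (fun h' => h h'.symm)]
  rw [h1, Finset.card_filter]
  refine Finset.sum_le_sum fun p _ => ?_
  by_cases h : p.1 ≠ p.2 ∧ 1 ≤ s.unc e b p.1 p.2
  · rw [if_pos h, if_pos h.1]; exact h.2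
  · rw [if_neg h]; exact Nat.zero_le _

private theorem e2_kap {V : Type} {g : Geo V} {r : ℕ} (c : Core g r) {p q : V}
    (h : c.root p ≠ c.root q) : c.T.kap p q = 0 := by
  unfold LF.kap
  rw [Finset.card_eq_zero, Finset.filter_eq_empty_iff]
  rintro k hk ⟨h1, h2, h3⟩
  apply h
  exact c.T.anc_up h1 h2 (by have := Finset.mem_range.1 hk; omega) h3

namespace Core
variable {V : Type} [Fintype V] {g : Geo V} {r : ℕ} {c : Core g r} {e L L' β : ℝ} (h : c.Hyp e L L' β) (hr : 1 ≤ r)
include h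

private theorem e2_cases {o : V} (ho : o ∈ c.U) {u w y z : V} (hz : z ∈ (c.src hr).Z u w)
    (hy : y ∈ (c.src hr).Z w u) (hyU : y ∈ c.U) (hzU : z ∈ c.U) (hroot : c.root y ≠ c.root z)
    (hT : ¬ Tight h u w y) :
    (y ≠ g.P u w r ∧ 1 ≤ (c.src hr).unc e (c.bb hr e L o) y (g.P u w r) ∧
      z ∈ g.ball r (g.P u w r) ∧ ((g.ball r (g.P u w r)).card : ℝ) ≤ β) ∨
    (z ≠ g.P u w r ∧ 1 ≤ (c.src hr).unc e (c.bb hr e L o) z (g.P u w r) ∧
      c.Mates hr e L o (g.P u w r) y) ∨
    (y ∈ (c.src hr).E e (g.P u w r) ∧ c.Mates hr e L o (g.P u w r) z) ∨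
    (y ∈ (c.src hr).E e (g.P u w r) ∧ z ≠ g.P u w r ∧
      1 ≤ (c.src hr).unc e (c.bb hr e L o) z (g.P u w r)) ∨
    (g.P u w r ∈ (c.src hr).E e y ∧ g.d z (g.P u w r) = r) := by
  obtain ⟨hrD, hD2, -, -, -, dym, -, dzm, -, -, -, -, -, -, -⟩ := (c.src hr).quad hz hy
  obtain ⟨huX, hwX, hball, hmM, -, -⟩ := B_ball h hr hz hy hyU hzU
  set m := g.P u w r with hm
  have hr2 := h.hr2
  have hyB : y ∈ c.B := mem_union_left _ hyU
  have hzB : z ∈ c.B := mem_union_left _ hzU
  have hyM : y ∉ c.M := Finset.disjoint_left.1 c.dUM hyU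
  have hzM : z ∉ c.M := Finset.disjoint_left.1 c.dUM hzU
  have hym : y ≠ m := by
    intro he
    rw [he, g.dself] at dym
    omega
  have hzm : z ≠ m := by
    intro he
    rw [he, g.dself] at dzm
    omega
  -- the pair `(z, m)`
  have hzclose : ¬ c.Mates hr e L o m z → 1 ≤ (c.src hr).unc e (c.bb hr e L o) z m := by
    intro hnm
    refine close h hr ho hzm (le_of_eq dzm) (Or.inl (mem_union_left _ hzU)) ?_ ?_ ?_
    · intro hmt
      exact hnm (mates_symm h hr hmt)
    · rintro ⟨-, hmm⟩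
      apply hmM
      rw [hmm]
      exact (c.hmm z hzB).1
    · rintro ⟨hmB, hmm⟩
      apply hzM
      rw [hmm]
      exact (c.hmm m hmB).1
  by_cases h1 : y ∈ (c.src hr).E e m
  · by_cases h2 : c.Mates hr e L o m z
    · exact Or.inr (Or.inr (Or.inl ⟨h1, h2⟩))
    · exact Or.inr (Or.inr (Or.inr (Or.inl ⟨h1, hzm, hzclose h2⟩)))
  by_cases h2 : m ∈ (c.src hr).E e y
  · exact Or.inr (Or.inr (Or.inr (Or.inr ⟨h2, dzm⟩)))
  by_cases h3 : c.Mates hr e L o m y
  · refine Or.inr (Or.inl ⟨hzm, hzclose ?_, h3⟩)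
    intro h4
    apply hroot
    have e1 : c.clo hr o y = c.root y := if_pos hyB
    have e2 : c.clo hr o z = c.root z := if_pos hzB
    rw [← e1, ← e2, ← h3.2.2.2, ← h4.2.2.2]
  · refine Or.inl ⟨hym, ?_, ?_, hball⟩
    · by_contra h4
      have h4 : (c.src hr).unc e (c.bb hr e L o) y m = 0 := by omega
      unfold Src.unc at h4
      rw [if_neg (by rintro (h5 | h5); exacts [h2 h5, h1 h5])] at h4
      have h5 := bb_le h hr o y m ho hym
      have h6 : c.bb hr e L o y m = 2 * r - g.d y m := by omega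
      have hnm : ¬ c.Mates hr e L o y m := fun h7 => h3 (mates_symm h hr h7)
      have hNX : c.NX hr e L o y m = 0 := by
        by_contra h7
        exact hnm (NX_pos h hr o y m ho (Nat.pos_of_ne_zero h7)).2.1
      have hMM : c.MM y m = 0 := by
        unfold MM
        rw [if_neg]
        rintro (⟨-, h7⟩ | ⟨h7, h8⟩)
        · apply hmM
          rw [h7]
          exact (c.hmm y hyB).1
        · apply hyM
          rw [h8]
          exact (c.hmm m h7).1
      unfold bb at h6
      rw [hNX, hMM] at h6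
      unfold BB at h6
      by_cases h7 : y ≠ m ∧ y ∈ c.B ∧ m ∈ c.B
      · rw [if_pos h7] at h6
        have hHy : c.H y = 0 := (c.HU y hyB).2 hyU
        have hrt : c.root y ≠ c.root m := by
          intro h8
          apply hnm
          refine ⟨hym, Or.inl hyB, Or.inl h7.2.2, ?_⟩
          have e1 : c.clo hr o y = c.root y := if_pos hyB
          have e2 : c.clo hr o m = c.root m := if_pos h7.2.2
          rw [e1, e2, h8]
        have hk := e2_kap c hrt
        rw [hk, hHy] at h6
        apply hT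
        have hHm : c.H m = 2 * r - g.d y m := by omega
        refine ⟨?_, fun h8 => hrt h8.symm, ?_⟩
        · rcases mem_union.1 h7.2.2 with h8 | h8
          · have := (c.HU m h7.2.2).2 h8
            omega
          · exact h8
        · show c.H m + r = g.d u w
          omega
      · rw [if_neg h7] at h6
        omega
    · unfold Geo.ball
      rw [mem_filter]
      refine ⟨mem_univ _, ?_⟩
      rw [g.symm, dzm]


private theorem e2_Ta {o : V} :
    ((univ.filter (fun t : V × V × V => t.1 ≠ t.2.1 ∧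
      1 ≤ (c.src hr).unc e (c.bb hr e L o) t.1 t.2.1 ∧ t.2.2 ∈ g.ball r t.2.1 ∧
      ((g.ball r t.2.1).card : ℝ) ≤ β)).card : ℝ) ≤ β * (c.Un hr e L o : ℝ) := by
  have h1 := e2_fiber (univ.filter (fun t : V × V × V => t.1 ≠ t.2.1 ∧
      1 ≤ (c.src hr).unc e (c.bb hr e L o) t.1 t.2.1 ∧ t.2.2 ∈ g.ball r t.2.1 ∧
      ((g.ball r t.2.1).card : ℝ) ≤ β)) (fun t => (t.1, t.2.1))
      (univ.filter (fun p : V × V => p.1 ≠ p.2 ∧
        1 ≤ (c.src hr).unc e (c.bb hr e L o) p.1 p.2)) β
      (by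
        intro t ht
        rw [mem_filter] at ht ⊢
        exact ⟨mem_univ _, ht.2.1, ht.2.2.1⟩)
      (by
        intro b _ S hS
        by_cases hb : ((g.ball r b.2).card : ℝ) ≤ β
        · refine le_trans ?_ hb
          have : S.card ≤ (g.ball r b.2).card := by
            refine Finset.card_le_card_of_injOn (fun t => t.2.2) ?_ ?_
            · intro t ht
              have ht := hS t ht
              rw [mem_filter] at ht
              rw [← ht.2]
              exact ht.1.2.2.2.1
            · intro t ht t' ht' htt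
              have ht := hS t ht
              have ht' := hS t' ht'
              have e1 := ht.2.trans ht'.2.symm
              simp only [Prod.mk.injEq] at e1
              exact Prod.ext e1.1 (Prod.ext e1.2 htt)
          exact_mod_cast this
        · have : S = ∅ := by
            rw [Finset.eq_empty_iff_forall_notMem]
            intro t ht
            have ht := hS t ht
            rw [mem_filter] at ht
            apply hb
            rw [← ht.2]
            exact ht.1.2.2.2.2
          rw [this, Finset.card_empty, Nat.cast_zero]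
          exact h.hβ)
  refine h1.trans (mul_le_mul_of_nonneg_left ?_ h.hβ)
  exact_mod_cast e2_pairs (c.src hr) e (c.bb hr e L o)

private theorem e2_L2 : 0 ≤ c.L2 e L L' := by
  unfold L2
  have h1 := h.hL
  have h2 := h.hL'
  have h3 : (0 : ℝ) < e := by linarith [h.he]
  positivity

private theorem e2_hX : 0 ≤ c.hX e := by
  unfold hX
  have h3 : (0 : ℝ) < e := by linarith [h.he]
  positivity

private theorem e2_Tb {o : V} (ho : o ∈ c.U) :
    ((univ.filter (fun t : V × V × V => t.2.2 ≠ t.2.1 ∧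
      1 ≤ (c.src hr).unc e (c.bb hr e L o) t.2.2 t.2.1 ∧ c.Mates hr e L o t.2.1 t.1)).card : ℝ) ≤
      c.L2 e L L' * (c.Un hr e L o : ℝ) := by
  have h1 := e2_fiber (univ.filter (fun t : V × V × V => t.2.2 ≠ t.2.1 ∧
      1 ≤ (c.src hr).unc e (c.bb hr e L o) t.2.2 t.2.1 ∧ c.Mates hr e L o t.2.1 t.1))
      (fun t => (t.2.2, t.2.1))
      (univ.filter (fun p : V × V => p.1 ≠ p.2 ∧
        1 ≤ (c.src hr).unc e (c.bb hr e L o) p.1 p.2)) (c.L2 e L L')
      (by
        intro t ht
        rw [mem_filter] at ht ⊢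
        exact ⟨mem_univ _, ht.2.1, ht.2.2.1⟩)
      (by
        intro b _ S hS
        refine le_trans ?_ (card_mates h hr o b.2 ho)
        have : S.card ≤ (univ.filter (fun q => c.Mates hr e L o b.2 q)).card := by
          refine Finset.card_le_card_of_injOn (fun t => t.1) ?_ ?_
          · intro t ht
            have ht := hS t ht
            rw [mem_filter] at ht
            rw [← ht.2, Finset.mem_coe, mem_filter]
            exact ⟨mem_univ _, ht.1.2.2.2⟩
          · intro t ht t' ht' htt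
            have ht := hS t ht
            have ht' := hS t' ht'
            have e1 := ht.2.trans ht'.2.symm
            simp only [Prod.mk.injEq] at e1
            exact Prod.ext htt (Prod.ext e1.2 e1.1)
        exact_mod_cast this)
  refine h1.trans (mul_le_mul_of_nonneg_left ?_ (e2_L2 h))
  exact_mod_cast e2_pairs (c.src hr) e (c.bb hr e L o)

private theorem e2_Td {o : V} :
    ((univ.filter (fun t : V × V × V => t.1 ∈ (c.src hr).E e t.2.1 ∧ t.2.2 ≠ t.2.1 ∧
      1 ≤ (c.src hr).unc e (c.bb hr e L o) t.2.2 t.2.1)).card : ℝ) ≤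
      c.hX e * (c.Un hr e L o : ℝ) := by
  have h1 := e2_fiber (univ.filter (fun t : V × V × V => t.1 ∈ (c.src hr).E e t.2.1 ∧
      t.2.2 ≠ t.2.1 ∧ 1 ≤ (c.src hr).unc e (c.bb hr e L o) t.2.2 t.2.1))
      (fun t => (t.2.2, t.2.1))
      (univ.filter (fun p : V × V => p.1 ≠ p.2 ∧
        1 ≤ (c.src hr).unc e (c.bb hr e L o) p.1 p.2)) (c.hX e)
      (by
        intro t ht
        rw [mem_filter] at ht ⊢
        exact ⟨mem_univ _, ht.2.2.1, ht.2.2.2⟩)
      (by
        intro b _ S hS
        refine le_trans ?_ (card_E_X h hr b.2)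
        have : S.card ≤ ((c.src hr).E e b.2).card := by
          refine Finset.card_le_card_of_injOn (fun t => t.1) ?_ ?_
          · intro t ht
            have ht := hS t ht
            rw [mem_filter] at ht
            rw [← ht.2, Finset.mem_coe]
            exact ht.1.2.1
          · intro t ht t' ht' htt
            have ht := hS t ht
            have ht' := hS t' ht'
            have e1 := ht.2.trans ht'.2.symm
            simp only [Prod.mk.injEq] at e1
            exact Prod.ext htt (Prod.ext e1.2 e1.1)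
        exact_mod_cast this)
  refine h1.trans (mul_le_mul_of_nonneg_left ?_ (e2_hX h))
  exact_mod_cast e2_pairs (c.src hr) e (c.bb hr e L o)

private theorem e2_Tc {o : V} (ho : o ∈ c.U) :
    ((univ.filter (fun t : V × V × V => t.1 ∈ (c.src hr).E e t.2.1 ∧
      c.Mates hr e L o t.2.1 t.2.2)).card : ℝ) ≤
      ((Fintype.card V : ℝ) * c.hU e + (c.X.card : ℝ) * c.hX e) * c.L2 e L L' := by
  have h1 := e2_fiber (univ.filter (fun t : V × V × V => t.1 ∈ (c.src hr).E e t.2.1 ∧
      c.Mates hr e L o t.2.1 t.2.2)) (fun t => (t.2.1, t.1))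
      (univ.filter (fun p : V × V => p.2 ∈ (c.src hr).E e p.1)) (c.L2 e L L')
      (by
        intro t ht
        rw [mem_filter] at ht ⊢
        exact ⟨mem_univ _, ht.2.1⟩)
      (by
        intro b _ S hS
        refine le_trans ?_ (card_mates h hr o b.1 ho)
        have : S.card ≤ (univ.filter (fun q => c.Mates hr e L o b.1 q)).card := by
          refine Finset.card_le_card_of_injOn (fun t => t.2.2) ?_ ?_
          · intro t ht
            have ht := hS t ht
            rw [mem_filter] at ht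
            rw [← ht.2, Finset.mem_coe, mem_filter]
            exact ⟨mem_univ _, ht.1.2.2⟩
          · intro t ht t' ht' htt
            have ht := hS t ht
            have ht' := hS t' ht'
            have e1 := ht.2.trans ht'.2.symm
            simp only [Prod.mk.injEq] at e1
            exact Prod.ext e1.2 (Prod.ext e1.1 htt)
        exact_mod_cast this)
  have h2 : ((univ.filter (fun p : V × V => p.2 ∈ (c.src hr).E e p.1)).card : ℝ) =
      ∑ x : V, (((c.src hr).E e x).card : ℝ) := by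
    have : (univ.filter (fun p : V × V => p.2 ∈ (c.src hr).E e p.1)).card =
        ∑ x : V, ((c.src hr).E e x).card := by
      rw [Finset.card_filter, Fintype.sum_prod_type]
      refine Finset.sum_congr rfl fun x _ => ?_
      rw [← Finset.card_filter]
      congr 1
      ext y
      rw [mem_filter]
      exact ⟨fun hy => hy.2, fun hy => ⟨mem_univ _, hy⟩⟩
    rw [this]
    push_cast
    rfl
  rw [h2] at h1
  refine h1.trans ?_
  rw [mul_comm]
  exact mul_le_mul_of_nonneg_right (sum_E h hr) (e2_L2 h)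

private theorem e2_Te {o : V} (ho : o ∈ c.U) (j : ℕ) :
    ((univ.filter (fun t : V × V × V => t.2.1 ∈ (c.src hr).E e t.1 ∧ g.d t.2.2 t.2.1 = r ∧
      t.1 ∈ c.U ∧ t.2.2 ∈ c.U ∧ g.d t.1 t.2.1 = r + j ∧ 1 ≤ j)).card : ℝ) ≤
      (Fintype.card V : ℝ) * (((c.PP hr e L o).card : ℝ) + (c.X.card : ℝ) * c.L2 e L L') / e := by
  have he : (0 : ℝ) < e := by linarith [h.he]
  set A := univ.filter (fun t : V × V × V => t.2.1 ∈ (c.src hr).E e t.1 ∧ g.d t.2.2 t.2.1 = r ∧
      t.1 ∈ c.U ∧ t.2.2 ∈ c.U ∧ g.d t.1 t.2.1 = r + j ∧ 1 ≤ j) with hA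
  have h1 : (A.card : ℝ) * e ≤ ∑ t ∈ A, (((c.src hr).Z t.1 t.2.1).card : ℝ) := by
    rw [← nsmul_eq_mul, ← Finset.sum_const]
    refine Finset.sum_le_sum fun t ht => ?_
    have h2 := (mem_filter.1 ht).2.1
    exact (mem_filter.1 h2).2.2
  have h2 : (∑ t ∈ A, ((c.src hr).Z t.1 t.2.1).card) ≤
      Fintype.card V * ∑ v ∈ c.U, (c.X.filter (fun x => g.d v x < 2 * r)).card := by
    rw [← Finset.card_sigma, ← Finset.card_sigma, ← Finset.card_univ, ← Finset.card_product]
    refine Finset.card_le_card_of_injOn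
      (fun p : (_ : V × V × V) × V => ((p.1.1, ⟨p.1.2.2, p.2⟩) : V × ((_ : V) × V))) ?_ ?_
    · rintro ⟨⟨y, m, z⟩, a⟩ hp
      rw [Finset.mem_coe, Finset.mem_sigma] at hp
      obtain ⟨ht, ha⟩ := hp
      simp only at ht ha
      rw [hA, mem_filter] at ht
      simp only at ht
      obtain ⟨-, hE, dzm, hyU, hzU, dym, hj⟩ := ht
      rw [Finset.mem_coe, Finset.mem_product, Finset.mem_sigma, mem_filter]
      refine ⟨mem_univ _, hzU, ?_, ?_⟩
      · exact (F_sub h hr ((c.src hr).mem_Z.1 ha).1).2.2.1 hyU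
      · obtain ⟨z1, z2, z3, z4, z5⟩ := (c.src hr).Z_geo ha
        have := g.tri z m a
        rw [g.symm m a] at this
        show g.d z a < 2 * r
        omega
    · rintro ⟨⟨y, m, z⟩, a⟩ hp ⟨⟨y', m', z'⟩, a'⟩ hp' heq
      rw [Finset.mem_coe, Finset.mem_sigma] at hp hp'
      obtain ⟨ht, ha⟩ := hp
      obtain ⟨ht', ha'⟩ := hp'
      simp only at ht ha ht' ha'
      rw [hA, mem_filter] at ht ht'
      simp only at ht ht'
      obtain ⟨-, hE, dzm, hyU, hzU, dym, hj⟩ := ht
      obtain ⟨-, hE', dzm', hyU', hzU', dym', hj'⟩ := ht'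
      simp only [Prod.mk.injEq, Sigma.mk.injEq, heq_eq_eq] at heq
      obtain ⟨e1, e2, e3⟩ := heq
      subst e1
      subst e2
      subst e3
      have e4 := (c.src hr).Z_disjoint ha ha' (by rw [dym, dym'])
      subst e4
      rfl
  have h3 : (∑ t ∈ A, (((c.src hr).Z t.1 t.2.1).card : ℝ)) ≤ (Fintype.card V : ℝ) *
      ∑ v ∈ c.U, ((c.X.filter (fun x => g.d v x < 2 * r)).card : ℝ) := by
    exact_mod_cast h2
  rw [le_div_iff₀ he]
  refine h1.trans (h3.trans ?_)
  exact mul_le_mul_of_nonneg_left (sum_close_U h hr ho) (Nat.cast_nonneg _)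

/-- (B2): `(y, m')` not tight. -/
theorem typeI_B2 {o : V} (ho : o ∈ c.U) :
    ((((c.src hr).Q).filter (fun q => q.2.2.1 ∈ c.U ∧ q.2.2.2 ∈ c.U ∧ c.root q.2.2.1 ≠ c.root q.2.2.2 ∧
        ¬ Tight h q.1 q.2.1 q.2.2.1)).card : ℝ) ≤
      r * (β * (c.Un hr e L o : ℝ) + c.L2 e L L' * (c.Un hr e L o : ℝ) + c.hX e * (c.Un hr e L o : ℝ)
        + ((Fintype.card V : ℝ) * c.hU e + (c.X.card : ℝ) * c.hX e) * c.L2 e L L'
        + (Fintype.card V : ℝ) * (((c.PP hr e L o).card : ℝ) + (c.X.card : ℝ) * c.L2 e L L') / e) := by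
  have hmain := e2_fiber (((c.src hr).Q).filter (fun q => q.2.2.1 ∈ c.U ∧ q.2.2.2 ∈ c.U ∧
      c.root q.2.2.1 ≠ c.root q.2.2.2 ∧ ¬ Tight h q.1 q.2.1 q.2.2.1))
      (fun q => 2 * r - g.d q.1 q.2.1) (range r)
      (β * (c.Un hr e L o : ℝ) + c.L2 e L L' * (c.Un hr e L o : ℝ) + c.hX e * (c.Un hr e L o : ℝ)
        + ((Fintype.card V : ℝ) * c.hU e + (c.X.card : ℝ) * c.hX e) * c.L2 e L L'
        + (Fintype.card V : ℝ) * (((c.PP hr e L o).card : ℝ) + (c.X.card : ℝ) * c.L2 e L L') / e)
      (by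
        rintro ⟨u, w, y, z⟩ hq
        rw [mem_filter] at hq
        obtain ⟨hQ, -⟩ := hq
        have hQ' := (mem_filter.1 hQ).2
        simp only at hQ'
        obtain ⟨hrD, hD2, -⟩ := (c.src hr).quad hQ'.1 hQ'.2
        rw [mem_range]
        show 2 * r - g.d u w < r
        omega)
      (by
        intro j _ S hS
        have hsub : S.card ≤
            ((univ.filter (fun t : V × V × V => t.1 ≠ t.2.1 ∧
              1 ≤ (c.src hr).unc e (c.bb hr e L o) t.1 t.2.1 ∧ t.2.2 ∈ g.ball r t.2.1 ∧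
              ((g.ball r t.2.1).card : ℝ) ≤ β)) ∪
            ((univ.filter (fun t : V × V × V => t.2.2 ≠ t.2.1 ∧
              1 ≤ (c.src hr).unc e (c.bb hr e L o) t.2.2 t.2.1 ∧ c.Mates hr e L o t.2.1 t.1)) ∪
            ((univ.filter (fun t : V × V × V => t.1 ∈ (c.src hr).E e t.2.1 ∧
              c.Mates hr e L o t.2.1 t.2.2)) ∪
            ((univ.filter (fun t : V × V × V => t.1 ∈ (c.src hr).E e t.2.1 ∧ t.2.2 ≠ t.2.1 ∧
              1 ≤ (c.src hr).unc e (c.bb hr e L o) t.2.2 t.2.1)) ∪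
            (univ.filter (fun t : V × V × V => t.2.1 ∈ (c.src hr).E e t.1 ∧
              g.d t.2.2 t.2.1 = r ∧ t.1 ∈ c.U ∧ t.2.2 ∈ c.U ∧ g.d t.1 t.2.1 = r + j ∧
              1 ≤ j)))))).card := by
          refine Finset.card_le_card_of_injOn
            (fun q : V × V × V × V => ((q.2.2.1, g.P q.1 q.2.1 r, q.2.2.2) : V × V × V)) ?_ ?_
          · rintro ⟨u, w, y, z⟩ hq
            have hq := hS _ hq
            rw [mem_filter] at hq
            obtain ⟨⟨hQ, hyU, hzU, hroot, hT⟩, hj⟩ := hq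
            have hQ' := (mem_filter.1 hQ).2
            simp only at hQ' hyU hzU hroot hT hj
            obtain ⟨hrD, hD2, -, -, -, dym, -, dzm, -, -, -, -, -, -, -⟩ :=
              (c.src hr).quad hQ'.1 hQ'.2
            have hcase := e2_cases h hr ho hQ'.1 hQ'.2 hyU hzU hroot hT
            rw [Finset.mem_coe, mem_union, mem_union, mem_union, mem_union, mem_filter, mem_filter,
              mem_filter, mem_filter, mem_filter]
            rcases hcase with hc | hc | hc | hc | hc
            · exact Or.inl ⟨mem_univ _, hc⟩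
            · exact Or.inr (Or.inl ⟨mem_univ _, hc⟩)
            · exact Or.inr (Or.inr (Or.inl ⟨mem_univ _, hc⟩))
            · exact Or.inr (Or.inr (Or.inr (Or.inl ⟨mem_univ _, hc⟩)))
            · refine Or.inr (Or.inr (Or.inr (Or.inr ⟨mem_univ _, hc.1, hc.2, hyU, hzU, ?_, ?_⟩)))
              · show g.d y (g.P u w r) = r + j
                omega
              · omega
          · rintro ⟨u, w, y, z⟩ hq ⟨u', w', y', z'⟩ hq' heq
            have hq := hS _ hq
            have hq' := hS _ hq'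
            rw [mem_filter] at hq hq'
            obtain ⟨⟨hQ, -⟩, hj⟩ := hq
            obtain ⟨⟨hQ2, -⟩, hj2⟩ := hq'
            have hQ' := (mem_filter.1 hQ).2
            have hQ2' := (mem_filter.1 hQ2).2
            simp only at hQ' hQ2' hj hj2
            obtain ⟨-, -, -, -, -, -, -, -, -, pw, pu, -, -, -, -⟩ :=
              (c.src hr).quad hQ'.1 hQ'.2
            obtain ⟨-, -, -, -, -, -, -, -, -, pw', pu', -, -, -, -⟩ :=
              (c.src hr).quad hQ2'.1 hQ2'.2
            simp only [Prod.mk.injEq] at heq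
            obtain ⟨e1, e2, e3⟩ := heq
            subst e1
            subst e3
            rw [hj] at pw pu
            rw [hj2] at pw' pu'
            rw [← e2] at pw' pu'
            have e4 : w = w' := pw.symm.trans pw'
            have e5 : u = u' := pu.symm.trans pu'
            rw [e4, e5]
        have hsub' : (S.card : ℝ) ≤
            ((univ.filter (fun t : V × V × V => t.1 ≠ t.2.1 ∧
              1 ≤ (c.src hr).unc e (c.bb hr e L o) t.1 t.2.1 ∧ t.2.2 ∈ g.ball r t.2.1 ∧
              ((g.ball r t.2.1).card : ℝ) ≤ β)).card : ℝ) +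
            (((univ.filter (fun t : V × V × V => t.2.2 ≠ t.2.1 ∧
              1 ≤ (c.src hr).unc e (c.bb hr e L o) t.2.2 t.2.1 ∧
              c.Mates hr e L o t.2.1 t.1)).card : ℝ) +
            (((univ.filter (fun t : V × V × V => t.1 ∈ (c.src hr).E e t.2.1 ∧
              c.Mates hr e L o t.2.1 t.2.2)).card : ℝ) +
            (((univ.filter (fun t : V × V × V => t.1 ∈ (c.src hr).E e t.2.1 ∧ t.2.2 ≠ t.2.1 ∧
              1 ≤ (c.src hr).unc e (c.bb hr e L o) t.2.2 t.2.1)).card : ℝ) +
            ((univ.filter (fun t : V × V × V => t.2.1 ∈ (c.src hr).E e t.1 ∧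
              g.d t.2.2 t.2.1 = r ∧ t.1 ∈ c.U ∧ t.2.2 ∈ c.U ∧ g.d t.1 t.2.1 = r + j ∧
              1 ≤ j)).card : ℝ)))) := by
          have h5 := hsub.trans ((Finset.card_union_le _ _).trans (Nat.add_le_add_left
            ((Finset.card_union_le _ _).trans (Nat.add_le_add_left
            ((Finset.card_union_le _ _).trans (Nat.add_le_add_left
            (Finset.card_union_le _ _) _)) _)) _))
          exact_mod_cast h5
        refine hsub'.trans ?_
        have ta := e2_Ta h hr (L := L) (o := o)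
        have tb := e2_Tb h hr ho
        have tc := e2_Tc h hr ho
        have td := e2_Td h hr (L := L) (o := o)
        have te := e2_Te h hr ho j
        linarith)
  rw [card_range] at hmain
  linarith

/-- (B2'): mirror image, `(z, m)` not tight. -/
theorem typeI_B2' {o : V} (ho : o ∈ c.U) :
    ((((c.src hr).Q).filter (fun q => q.2.2.1 ∈ c.U ∧ q.2.2.2 ∈ c.U ∧ c.root q.2.2.1 ≠ c.root q.2.2.2 ∧
        ¬ Tight h q.2.1 q.1 q.2.2.2)).card : ℝ) ≤
      r * (β * (c.Un hr e L o : ℝ) + c.L2 e L L' * (c.Un hr e L o : ℝ) + c.hX e * (c.Un hr e L o : ℝ)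
        + ((Fintype.card V : ℝ) * c.hU e + (c.X.card : ℝ) * c.hX e) * c.L2 e L L'
        + (Fintype.card V : ℝ) * (((c.PP hr e L o).card : ℝ) + (c.X.card : ℝ) * c.L2 e L L') / e) := by
  refine le_trans ?_ (typeI_B2 h hr ho)
  have : (((c.src hr).Q).filter (fun q => q.2.2.1 ∈ c.U ∧ q.2.2.2 ∈ c.U ∧
      c.root q.2.2.1 ≠ c.root q.2.2.2 ∧ ¬ Tight h q.2.1 q.1 q.2.2.2)).card ≤
      (((c.src hr).Q).filter (fun q => q.2.2.1 ∈ c.U ∧ q.2.2.2 ∈ c.U ∧
      c.root q.2.2.1 ≠ c.root q.2.2.2 ∧ ¬ Tight h q.1 q.2.1 q.2.2.1)).card := by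
    refine Finset.card_le_card_of_injOn
      (fun q : V × V × V × V => ((q.2.1, q.1, q.2.2.2, q.2.2.1) : V × V × V × V)) ?_ ?_
    · rintro ⟨u, w, y, z⟩ hq
      rw [Finset.mem_coe, mem_filter] at hq ⊢
      obtain ⟨hQ, hyU, hzU, hroot, hT⟩ := hq
      have hQ' := (mem_filter.1 hQ).2
      simp only at hQ' hyU hzU hroot hT
      refine ⟨?_, hzU, hyU, fun he => hroot he.symm, hT⟩
      unfold Src.Q
      rw [mem_filter]
      exact ⟨mem_univ _, hQ'.2, hQ'.1⟩
    · rintro ⟨u, w, y, z⟩ _ ⟨u', w', y', z'⟩ _ heq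
      simp only [Prod.mk.injEq] at heq ⊢
      exact ⟨heq.2.1, heq.1, heq.2.2.2, heq.2.2.1⟩
  exact_mod_cast this

end Core

end Pool.Agent.Wi
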