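import Pool.Agent.Wi.COREb

/-! MODULE COREe1: Type I count, case (B) of (8.2): definition of tight, small balls, (B1). -/

namespace Pool.Agent.Wi

open Finset
open scoped Classical

namespace Core
variable {V : Type} [Fintype V] {g : Geo V} {r : ℕ} {c : Core g r} {e L L' β : ℝ} (h : c.Hyp e L L' β) (hr : 1 ≤ r)
include h

/-- the point `m'` of the quadruple is tight for `y`. -/
def Tight (_h : c.Hyp e L L' β) (u w y : V) : Prop :=
  g.P u w r ∈ c.W ∧ c.root (g.P u w r) ≠ c.root y ∧ c.H (g.P u w r) + r = g.d u w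

/-- if a source `u` has a target `z ∈ U` then `u ∈ X`. -/
private theorem src_of_U {u w z : V} (hz : z ∈ (c.src hr).Z u w) (hzU : z ∈ c.U) : u ∈ c.X := by
  have hF := (c.src hr).mem_Z.1 hz
  have hs := F_sub h hr hF.1
  rcases mem_union.1 hs.1 with hu | hu
  · have := hs.2.2.1 hu
    exact absurd hzU (mem_filter.1 this).2.1
  · exact hu

private theorem B_ball_aux {u w y z : V} (hz : z ∈ (c.src hr).Z u w) (hy : y ∈ (c.src hr).Z w u)
    (hzU : z ∈ c.U) (hw : w ∈ c.X) :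
    ((g.ball r (g.P u w r)).card : ℝ) ≤ β ∧ g.P u w r ∉ c.M := by
  obtain ⟨q1, q2, q3, q4, q5, q6, q7, q8, q9, q10, q11, q12, q13, q14, q15⟩ := (c.src hr).quad hz hy
  have hM : g.P u w r ∉ c.M := by
    intro hm
    have := c.hc6 z hzU _ hm q8 (2 * r - g.d u w) (by omega) (by omega)
    rw [q10] at this
    exact (mem_filter.1 hw).2.2.1 this
  refine ⟨?_, hM⟩
  by_contra hb
  push Not at hb
  exact hM (h.hc7 z hzU _ q8 hb)

/-- in case (B) the balls around `m'` are small and `m' ∉ M`. -/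
theorem B_ball {u w y z : V} (hz : z ∈ (c.src hr).Z u w) (hy : y ∈ (c.src hr).Z w u) (hyU : y ∈ c.U) (hzU : z ∈ c.U) :
    u ∈ c.X ∧ w ∈ c.X ∧ ((g.ball r (g.P u w r)).card : ℝ) ≤ β ∧ g.P u w r ∉ c.M ∧
      ((g.ball r (g.P w u r)).card : ℝ) ≤ β ∧ g.P w u r ∉ c.M := by
  have hu := src_of_U h hr hz hzU
  have hw := src_of_U h hr hy hyU
  have h1 := B_ball_aux h hr hz hy hzU hw
  have h2 := B_ball_aux h hr hy hz hyU hu
  exact ⟨hu, hw, h1.1, h1.2, h2.1, h2.2⟩

omit h in
private theorem card_unc_pairs (e : ℝ) (b : V → V → ℕ) (s : Src g r) :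
    (univ.filter (fun p : V × V => p.2 ≠ p.1 ∧ 1 ≤ s.unc e b p.1 p.2)).card ≤ s.Unc e b := by
  have h1 : (univ.filter (fun p : V × V => p.2 ≠ p.1 ∧ 1 ≤ s.unc e b p.1 p.2)).card =
      ∑ x : V, ∑ y ∈ univ.filter (fun y => y ≠ x), if 1 ≤ s.unc e b x y then 1 else 0 := by
    rw [card_filter, Fintype.sum_prod_type]
    refine sum_congr rfl fun x _ => ?_
    rw [sum_filter]
    refine sum_congr rfl fun y _ => ?_
    by_cases hy : y ≠ x <;> simp [hy]
  rw [h1]
  unfold Src.Unc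
  refine sum_le_sum fun x _ => sum_le_sum fun y _ => ?_
  split_ifs with h2
  · exact h2
  · exact Nat.zero_le _

/-- (B1): `y` and `z` in the same root class. -/
theorem typeI_B1 {o : V} (ho : o ∈ c.U) :
    ((((c.src hr).Q).filter (fun q => q.2.2.1 ∈ c.U ∧ q.2.2.2 ∈ c.U ∧ c.root q.2.2.1 = c.root q.2.2.2)).card : ℝ) ≤
      r * (c.L2 e L L' * (c.Un hr e L o : ℝ)) := by
  set P2 : Finset (V × V) := univ.filter (fun p : V × V => p.2 ≠ p.1 ∧
    1 ≤ (c.src hr).unc e (c.bb hr e L o) p.1 p.2) with hP2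
  have hcard : (P2.card : ℝ) ≤ (c.Un hr e L o : ℝ) := by
    exact_mod_cast card_unc_pairs e (c.bb hr e L o) (c.src hr)
  set S : Finset (V × V × V × V) := ((c.src hr).Q).filter
    (fun q => q.2.2.1 ∈ c.U ∧ q.2.2.2 ∈ c.U ∧ c.root q.2.2.1 = c.root q.2.2.2) with hS
  set R : Finset (ℕ × (V × V)) := range r ×ˢ P2 with hR
  set T : Finset (Σ _ : ℕ × (V × V), V) := R.sigma (fun jp => c.U.filter (fun a => c.root a = c.root jp.2.1)) with hT
  have hLL : L' ≤ c.L2 e L L' := by
    unfold L2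
    have h1 := h.hL
    have h2 := h.hL'
    have h3 := h.he
    have : 0 ≤ 2 * (r : ℝ) * L' / e := by positivity
    linarith
  have hTc : (T.card : ℝ) ≤ (r : ℝ) * (c.L2 e L L' * (c.Un hr e L o : ℝ)) := by
    rw [hT, card_sigma]
    push_cast
    have h1 : ∑ jp ∈ R, ((c.U.filter (fun a => c.root a = c.root jp.2.1)).card : ℝ) ≤ ∑ jp ∈ R, L' :=
      sum_le_sum fun jp _ => h.hroot _
    refine h1.trans ?_
    rw [sum_const, nsmul_eq_mul, hR, card_product, card_range]
    push_cast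
    have h0 : (0 : ℝ) ≤ c.Un hr e L o := Nat.cast_nonneg _
    have h3 : (P2.card : ℝ) * L' ≤ c.L2 e L L' * (c.Un hr e L o : ℝ) := by
      rw [mul_comm (c.L2 e L L')]
      exact mul_le_mul hcard hLL h.hL' h0
    calc (r : ℝ) * P2.card * L' = r * (P2.card * L') := by ring
      _ ≤ _ := mul_le_mul_of_nonneg_left h3 (Nat.cast_nonneg _)
  refine le_trans ?_ hTc
  norm_cast
  refine card_le_card_of_injOn
    (fun q => (⟨(2 * r - g.d q.1 q.2.1, (q.2.2.1, q.1)), q.2.2.2⟩ : Σ _ : ℕ × (V × V), V)) ?_ ?_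
  · rintro ⟨u, w, y, z⟩ hq
    simp only [hS, coe_filter, Src.Q, mem_filter, mem_univ, true_and, Set.mem_ofPred_eq] at hq
    obtain ⟨⟨hz, hy⟩, hyU, hzU, hroot⟩ := hq
    obtain ⟨q1, q2, q3, q4, q5, q6, q7, q8, q9, q10, q11, q12, q13, q14, q15⟩ := (c.src hr).quad hz hy
    have huX := (B_ball h hr hz hy hyU hzU).1
    have huB : u ∉ c.B := by
      intro hB
      rcases mem_union.1 hB with hB | hB
      · exact (mem_filter.1 huX).2.1 hB
      · exact (mem_filter.1 huX).2.2.1 hB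
    have hyu : y ≠ u := by rintro rfl; exact (mem_filter.1 huX).2.1 hyU
    have hm : ¬ c.Mates hr e L o y u := by
      rintro ⟨-, h2, h3, h4⟩
      have huz : u ≠ z := by
        rintro rfl
        exact (mem_filter.1 huX).2.1 hzU
      have hyB : y ∈ c.B := mem_union_left _ hyU
      have hzB : z ∈ c.B := mem_union_left _ hzU
      have h5 : c.Mates hr e L o u z := by
        refine ⟨huz, h3, Or.inl hzB, ?_⟩
        rw [← h4]
        unfold clo
        rw [if_pos hyB, if_pos hzB]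
        exact hroot
      have := mates_dist h hr h5
      omega
    have hunc := close h hr ho hyu (by omega) (Or.inl (mem_union_left _ hyU)) hm
      (by
        rintro ⟨hB, h1⟩
        have := (c.hmm y hB).1
        rw [← h1] at this
        exact (mem_filter.1 huX).2.2.2 this)
      (by
        rintro ⟨hB, -⟩
        exact huB hB)
    simp only [hT, hR, hP2, coe_sigma, Set.mem_sigma_iff, mem_coe, mem_product, mem_range, mem_filter,
      mem_univ, true_and]
    exact ⟨⟨by omega, fun h => hyu h.symm, hunc⟩, hzU, hroot.symm⟩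
  · rintro ⟨u, w, y, z⟩ hq ⟨u', w', y', z'⟩ hq' he
    simp only [hS, coe_filter, Src.Q, mem_filter, mem_univ, true_and, Set.mem_ofPred_eq] at hq hq'
    obtain ⟨⟨hz, hy⟩, -⟩ := hq
    obtain ⟨⟨hz', hy'⟩, -⟩ := hq'
    simp only [Sigma.mk.injEq, Prod.mk.injEq, heq_eq_eq] at he
    obtain ⟨⟨hj, hyy, huu⟩, hzz⟩ := he
    subst hyy huu hzz
    have e1 := ((c.src hr).Z_geo hz).2.2.2.2
    have e2 := ((c.src hr).Z_geo hz').2.2.2.2
    rw [hj] at e1
    rw [← e1, e2]

end Core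

end Pool.Agent.Wi
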