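import Pool.Agent.Wi.CoreDefs

/-! Charges (sections 3, 4, 8 of the blueprint). -/

namespace Pool.Agent.Wi

open Finset
open scoped Classical

namespace Src
variable {V : Type} {g : Geo V} {r : ℕ} (s : Src g r) [Fintype V]

/-- uncharged part of the pair `x, y` for the base charge `b`. -/
noncomputable def unc (e : ℝ) (b : V → V → ℕ) (x y : V) : ℕ :=
  if y ∈ s.E e x ∨ x ∈ s.E e y then 0 else (2 * r - g.d x y) - b x y

/-- total uncharged part over ordered pairs. -/
noncomputable def Unc (e : ℝ) (b : V → V → ℕ) : ℕ := ∑ x : V, ∑ y ∈ univ.filter (fun y => y ≠ x), s.unc e b x y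

/-- near charge for the reference `o` (leaf pairs of small classes). -/
noncomputable def near (e L : ℝ) (o p q : V) : ℕ :=
  if p ≠ q ∧ p ∈ s.Sm e L o ∧ q ∈ s.Sm e L o then 2 * s.kap o p q else 0

/-- total near charge over ordered pairs. -/
noncomputable def NN (e L : ℝ) (o : V) : ℕ := ∑ p : V, ∑ q ∈ univ.filter (fun q => q ≠ p), s.near e L o p q

/-- irregular hubs used by the targets in `A`. -/
noncomputable def hubs (x : V) (A : Finset V) : Finset V := univ.filter (fun w => ∃ z ∈ A, z ∈ s.Z x w)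

/-- sum of the levels of the irregular hubs used by `A`. -/
noncomputable def hsum (x : V) (A : Finset V) : ℕ := ∑ w ∈ s.hubs x A, (2 * r - g.d x w)

/-- good targets: no hub `w` is bad for `x`, and no hub is mutual with `x` and of larger index. -/
noncomputable def Good (e L : ℝ) (idx : V → ℕ) (bad : V → V → Prop) (x : V) : Finset V :=
  (s.Sm e L x).filter (fun z => ∀ w, z ∈ s.Z x w → ¬ bad x w ∧ ¬ (x ∈ s.E e w ∧ idx x < idx w))

end Src

namespace Core
variable {V : Type} {g : Geo V} {r : ℕ} (c : Core g r) [Fintype V]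

/-- class of a point seen from the reference `o`. -/
noncomputable def clo (hr : 1 ≤ r) (o p : V) : V := if p ∈ c.B then c.root p else (c.src hr).cls o p

/-- `p` and `q` are mates for the reference `o`. -/
def Mates (hr : 1 ≤ r) (e L : ℝ) (o p q : V) : Prop :=
  p ≠ q ∧ (p ∈ c.B ∨ p ∈ (c.src hr).Sm e L o) ∧ (q ∈ c.B ∨ q ∈ (c.src hr).Sm e L o) ∧ c.clo hr o p = c.clo hr o q

/-- ancestors of a point of `U ∪ Sm o` at the levels `1 ≤ k < r`. -/
noncomputable def anO (hr : 1 ≤ r) (o p : V) (k : ℕ) : V := if p ∈ c.B then c.T.anc p k else (c.src hr).an o p k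

/-- near charge with at least one point of `Sm o`. -/
noncomputable def NX (hr : 1 ≤ r) (e L : ℝ) (o p q : V) : ℕ :=
  if p ≠ q ∧ (p ∈ c.U ∨ p ∈ (c.src hr).Sm e L o) ∧ (q ∈ c.U ∨ q ∈ (c.src hr).Sm e L o) ∧ ¬ (p ∈ c.U ∧ q ∈ c.U)
  then 2 * ((Ico 1 r).filter (fun k => c.anO hr o p k = c.anO hr o q k)).card else 0

/-- ordered sum of `NX`. -/
noncomputable def NNX (hr : 1 ≤ r) (e L : ℝ) (o : V) : ℕ :=
  ∑ p : V, ∑ q ∈ univ.filter (fun q => q ≠ p), c.NX hr e L o p q

/-- exact charge inside `B`. -/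
noncomputable def BB (p q : V) : ℕ := if p ≠ q ∧ p ∈ c.B ∧ q ∈ c.B then c.H p + c.H q + 2 * c.T.kap p q else 0

/-- charge of a point of `B` with its middle. -/
noncomputable def MM (p q : V) : ℕ :=
  if (p ∈ c.B ∧ q = c.mm p) ∨ (q ∈ c.B ∧ p = c.mm q) then 2 * r - g.d p q else 0

/-- total base charge for the reference `o`. -/
noncomputable def bb (hr : 1 ≤ r) (e L : ℝ) (o p q : V) : ℕ := c.BB p q + c.MM p q + c.NX hr e L o p q

/-- uncharged part for the reference `o`. -/
noncomputable def Un (hr : 1 ≤ r) (e L : ℝ) (o : V) : ℕ := (c.src hr).Unc e (c.bb hr e L o)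

/-- `w` is a bad hub for the source `x` (Type II conflict) with respect to the reference `o`. -/
def Bad (hr : 1 ≤ r) (e L : ℝ) (o x w : V) : Prop :=
  (x ∈ c.U ∧ w ∈ c.B ∧ c.root w = c.root x) ∨ 0 < c.NX hr e L o x w

/-- far pairs of `U ∪ X` with positive deficit. -/
noncomputable def PP (hr : 1 ≤ r) (e L : ℝ) (o : V) : Finset (V × V) :=
  univ.filter (fun p => p.1 ∈ c.U ∪ c.X ∧ p.2 ∈ c.U ∪ c.X ∧ p.1 ≠ p.2 ∧ g.d p.1 p.2 < 2 * r ∧ ¬ c.Mates hr e L o p.1 p.2)

/-- points of `B` in another class than `v` that are not exactly aligned with `v`. -/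
noncomputable def NonAl (v : V) : Finset V :=
  c.B.filter (fun w => c.root w ≠ c.root v ∧ g.d v w + c.H w ≠ 2 * r)

/-- the exact part already charged on the pair `(v, w)`, `v ∈ U`. -/
noncomputable def Hb (w : V) : ℕ := if w ∈ c.B then c.H w else 0

/-- extra hub charge of a source `x` for the targets `A`. -/
noncomputable def ext (hr : 1 ≤ r) (x : V) (A : Finset V) : ℕ :=
  ∑ w ∈ (c.src hr).hubs x A, ((2 * r - g.d x w) - (if x ∈ c.U then c.Hb w else 0))

/-- good targets in the core for the reference `o`. -/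
noncomputable def Gd (hr : 1 ≤ r) (e L : ℝ) (idx : V → ℕ) (o x : V) : Finset V :=
  (c.src hr).Good e L idx (c.Bad hr e L o) x

noncomputable def hU (e : ℝ) : ℝ := r * (c.X.card : ℝ) / e
noncomputable def hX (_c : Core g r) (e : ℝ) : ℝ := r * (Fintype.card V : ℝ) / e
noncomputable def L2 (_c : Core g r) (e L L' : ℝ) : ℝ := L' + L + 2 * r * L' / e

/-- quantitative hypotheses on a core. -/
structure Hyp (e L L' β : ℝ) : Prop where
  hr2 : 2 ≤ r
  diam : ∀ x y, g.d x y ≤ 2 * r
  he : 8 ≤ e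
  hL : 0 ≤ L
  hL' : 0 ≤ L'
  hβ : 0 ≤ β
  /-- every hub has at least `e/2` leaves below it. -/
  hdesc : ∀ w ∈ c.W, e / 2 ≤ ((c.U.filter (fun a => c.T.anc a (c.H w) = w)).card : ℝ)
  /-- root classes are small. -/
  hroot : ∀ ρ, ((c.U.filter (fun a => c.root a = ρ)).card : ℝ) ≤ L'
  hc7 : ∀ z ∈ c.U, ∀ m, g.d z m = r → β < ((g.ball r m).card : ℝ) → m ∈ c.M
  hUe : c.hU e ≤ e / 8

end Core

end Pool.Agent.Wi
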