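import Pool.Agent.Wi.Basic

/-! The core structure of section 7 of the blueprint and its source system (section 8). -/

namespace Pool.Agent.Wi

open Finset
open scoped Classical

/-- gamma source system: sources `O`, target universe `A`, all chains follow the geodesics. -/
noncomputable def srcGam {V : Type} (g : Geo V) (r : ℕ) (hr : 1 ≤ r) (A O : Finset V) : Src g r where
  F x := if x ∈ O then A.filter (fun v => g.d x v = 2 * r) else ∅
  kk _ _ := r
  an x z k := g.P z x k
  hF x z h := by
    by_cases hx : x ∈ O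
    · rw [if_pos hx] at h; exact (mem_filter.1 h).2
    · rw [if_neg hx] at h; exact absurd h (notMem_empty _)
  hk1 _ _ _ := hr
  hk2 _ _ _ := le_rfl
  han _ _ _ _ _ := rfl
  hadj x z k h hk := by
    by_cases hx : x ∈ O
    · rw [if_pos hx] at h
      have hd := (mem_filter.1 h).2
      have := g.dPP (x := z) (y := x) (i := k) (j := k + 1) (by omega) (by rw [g.symm, hd]; omega)
      rw [this]; omega
    · rw [if_neg hx] at h; exact absurd h (notMem_empty _)
  hup x z z' k h h' hk he := by
    by_cases hx : x ∈ O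
    · rw [if_pos hx] at h h'
      have hd := (mem_filter.1 h).2
      have hd' := (mem_filter.1 h').2
      have h1 := g.P_suffix (x := z) (y := x) (i := k) (k := 1) (by rw [g.symm, hd]; omega)
      have h2 := g.P_suffix (x := z') (y := x) (i := k) (k := 1) (by rw [g.symm, hd']; omega)
      rw [← h1, ← h2, he]
    · rw [if_neg hx] at h; exact absurd h (notMem_empty _)
  hkk _ _ _ _ _ _ _ _ _ _ := rfl

/-- The core structure (section 7): `B = U ∪ W` carries an exact levelled forest. -/
structure Core {V : Type} (g : Geo V) (r : ℕ) where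
  U : Finset V
  W : Finset V
  M : Finset V
  H : V → ℕ
  par : V → V
  mm : V → V
  dUW : Disjoint U W
  dUM : Disjoint U M
  dWM : Disjoint W M
  Hlt : ∀ p ∈ U ∪ W, H p < r
  HU : ∀ p ∈ U ∪ W, (H p = 0 ↔ p ∈ U)
  hpar : ∀ p ∈ U ∪ W, H p + 1 < r → par p ∈ U ∪ W ∧ H (par p) = H p + 1 ∧ g.d p (par p) = 1
  hdist : ∀ p ∈ U ∪ W, ∀ q ∈ U ∪ W, p ≠ q → g.d p q + H p + H q ≤ 2 * r
  hmm : ∀ p ∈ U ∪ W, mm p ∈ M ∧ g.d p (mm p) + H p = r
  hc6 : ∀ z ∈ U, ∀ m ∈ M, g.d z m = r → ∀ j, 1 ≤ j → j < r → g.P z m j ∈ W

namespace Core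
variable {V : Type} {g : Geo V} {r : ℕ} (c : Core g r)

/-- the base `B = U ∪ W`. -/
noncomputable def B : Finset V := c.U ∪ c.W

/-- the levelled forest on `B`. -/
noncomputable def T : LF r V where
  S := c.U ∪ c.W
  lev := c.H
  par := c.par
  hlev := c.Hlt
  hpar p hp h := ⟨(c.hpar p hp h).1, (c.hpar p hp h).2.1⟩

/-- the root of a point of `B`. -/
noncomputable def root (p : V) : V := c.T.anc p (r - 1)

/-- `w` is regular for the source `v`: in another class and exactly aligned. -/
def Reg (v w : V) : Prop := w ∈ c.B ∧ c.root w ≠ c.root v ∧ g.d v w + c.H w = 2 * r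

/-- irregular height of the target `x` seen from `v ∈ U`. -/
noncomputable def kh (v x : V) : ℕ :=
  if h : ∃ k, 1 ≤ k ∧ k < r ∧ c.Reg v (g.P x v k) ∧ c.H (g.P x v k) = k then Nat.find h else r

theorem kh_le (v x : V) : c.kh v x ≤ r := by
  unfold kh
  split_ifs with h
  · exact (Nat.find_spec h).2.1.le
  · exact le_rfl

theorem one_le_kh (hr : 1 ≤ r) (v x : V) : 1 ≤ c.kh v x := by
  unfold kh
  split_ifs with h
  · exact (Nat.find_spec h).1
  · exact hr

theorem kh_spec {v x : V} (h : c.kh v x < r) :
    1 ≤ c.kh v x ∧ c.Reg v (g.P x v (c.kh v x)) ∧ c.H (g.P x v (c.kh v x)) = c.kh v x := by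
  unfold kh at h ⊢
  split_ifs at h ⊢ with h'
  · exact ⟨(Nat.find_spec h').1, (Nat.find_spec h').2.2⟩
  · omega

theorem kh_min {v x : V} {k : ℕ} (h1 : 1 ≤ k) (hk : k < c.kh v x) :
    ¬ (c.Reg v (g.P x v k) ∧ c.H (g.P x v k) = k) := by
  intro hh
  have hkr : k < r := lt_of_lt_of_le hk (c.kh_le v x)
  have hex : ∃ k, 1 ≤ k ∧ k < r ∧ c.Reg v (g.P x v k) ∧ c.H (g.P x v k) = k := ⟨k, h1, hkr, hh⟩
  unfold kh at hk
  rw [dif_pos hex] at hk
  exact Nat.find_min hex hk ⟨h1, hkr, hh⟩

/-- regularity passes to the parent. -/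
theorem Reg.up {v w : V} (hv : v ∈ c.U) (h : c.Reg v w) (hw : c.H w + 1 < r) : c.Reg v (c.par w) := by
  obtain ⟨h1, h2, h3⟩ := h
  have hp := c.hpar w h1 hw
  have hroot : c.root (c.par w) = c.root w := by
    have e1 : c.T.anc w (c.H w + 1) = c.par w := by
      have h0 := c.T.anc_succ (p := w) (k := c.H w) (le_refl _)
      have h1 : c.T.anc w (c.H w) = w := c.T.anc_self w
      rw [h0, h1]; rfl
    have := c.T.anc_anc (p := w) h1 (k := c.H w + 1) (l := r - 1) (Nat.le_succ _) (by omega) hw
    rw [e1] at this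
    exact this
  refine ⟨hp.1, by rw [hroot]; exact h2, ?_⟩
  have hv0 : c.H v = 0 := (c.HU v (mem_union_left _ hv)).2 hv
  have hne : v ≠ c.par w := by
    intro he
    apply h2
    rw [← hroot, ← he]
  have hle := c.hdist v (mem_union_left _ hv) (c.par w) hp.1 hne
  have ht := g.tri v (c.par w) w
  rw [g.symm (c.par w) w, hp.2.2] at ht
  omega

theorem Reg.anc {v w : V} (hv : v ∈ c.U) (h : c.Reg v w) {k : ℕ} (hk : c.H w ≤ k) (hkr : k < r) :
    c.Reg v (c.T.anc w k) := by
  induction k, hk using Nat.le_induction with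
  | base =>
    have : c.T.anc w (c.H w) = w := c.T.anc_self w
    rw [this]; exact h
  | succ k hk ih =>
    have ih := ih (by omega)
    have hm := c.T.anc_mem (p := w) h.1 (k := k) hk (by omega)
    have e : c.T.anc w (k + 1) = c.par (c.T.anc w k) := c.T.anc_succ hk
    rw [e]
    refine Reg.up c hv ih ?_
    have : c.H (c.T.anc w k) = k := hm.2
    omega

variable [Fintype V]

/-- the rest. -/
noncomputable def X : Finset V := univ.filter (fun x => x ∉ c.U ∧ x ∉ c.W ∧ x ∉ c.M)

/-- the source system of the core. -/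
noncomputable def src (hr : 1 ≤ r) : Src g r where
  F x := if x ∈ c.U then c.X.filter (fun z => g.d x z = 2 * r)
    else if x ∈ c.X then (c.U ∪ c.X).filter (fun z => g.d x z = 2 * r) else ∅
  kk x z := if x ∈ c.U then c.kh x z else r
  an x z k := if x ∈ c.U then (if k < c.kh x z then g.P z x k else c.T.anc (g.P z x (c.kh x z)) k) else g.P z x k
  hF x z h := by
    split_ifs at h with h1 h2
    · exact (mem_filter.1 h).2
    · exact (mem_filter.1 h).2
    · exact absurd h (notMem_empty _)
  hk1 x z _ := by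
    split_ifs with h1
    · exact c.one_le_kh hr x z
    · exact hr
  hk2 x z _ := by
    split_ifs with h1
    · exact c.kh_le x z
    · exact le_rfl
  han x z k _ hk := by
    split_ifs at hk ⊢ with h1
    · rfl
    · rfl
  hadj x z k h hk := by
    have hd : g.d z x = 2 * r := by
      rw [g.symm]
      split_ifs at h with h1 h2
      · exact (mem_filter.1 h).2
      · exact (mem_filter.1 h).2
      · exact absurd h (notMem_empty _)
    have hPP : g.d (g.P z x k) (g.P z x (k + 1)) = 1 := by
      rw [g.dPP (by omega) (by rw [hd]; omega)]; omega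
    split_ifs with h1 h2 h3 h3
    · exact hPP
    · -- k < kh, k+1 = kh
      have hkh : c.kh x z = k + 1 := by omega
      have hs := c.kh_spec (v := x) (x := z) (by omega)
      rw [hkh] at hs ⊢
      have : c.T.anc (g.P z x (k + 1)) (k + 1) = g.P z x (k + 1) := by
        have := c.T.anc_self (g.P z x (k + 1))
        have hl : c.T.lev (g.P z x (k + 1)) = k + 1 := hs.2.2
        rw [hl] at this; exact this
      rw [this]; exact hPP
    · omega
    · have hs := c.kh_spec (v := x) (x := z) (by omega)
      have hm := c.T.anc_mem (p := g.P z x (c.kh x z)) hs.2.1.1 (k := k)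
        (by show c.H _ ≤ k; rw [hs.2.2]; omega) (by omega)
      rw [c.T.anc_succ (by show c.H _ ≤ k; rw [hs.2.2]; omega)]
      have hH : c.H (c.T.anc (g.P z x (c.kh x z)) k) = k := hm.2
      exact (c.hpar _ hm.1 (by rw [hH]; exact hk)).2.2
    · exact hPP
  hup x z z' k h h' hk he := by
    have hd : g.d z x = 2 * r ∧ g.d z' x = 2 * r := by
      rw [g.symm z, g.symm z']
      split_ifs at h h' with h1 h2
      · exact ⟨(mem_filter.1 h).2, (mem_filter.1 h').2⟩
      · exact ⟨(mem_filter.1 h).2, (mem_filter.1 h').2⟩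
      · exact absurd h (notMem_empty _)
    have hsuf : ∀ a, g.d a x = 2 * r → g.P a x (k + 1) = g.P (g.P a x k) x 1 := fun a ha =>
      (g.P_suffix (x := a) (y := x) (i := k) (k := 1) (by rw [ha]; omega)).symm
    by_cases h1 : x ∈ c.U
    · simp only [if_pos h1] at he ⊢
      -- key: if P z x k = P z' x k, k < kh z, k < kh z' then same next
      have key : ∀ a b, g.d a x = 2 * r → g.d b x = 2 * r → k < c.kh x a → ¬ k < c.kh x b →
          g.P a x k = c.T.anc (g.P b x (c.kh x b)) k → False := by
        intro a b ha hb hka hkb hab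
        have hs := c.kh_spec (v := x) (x := b) (by omega)
        have hm := c.T.anc_mem (p := g.P b x (c.kh x b)) hs.2.1.1 (k := k)
          (by show c.H _ ≤ k; rw [hs.2.2]; omega) (by omega)
        have hR := Reg.anc c h1 hs.2.1 (k := k) (by rw [hs.2.2]; omega) (by omega)
        refine c.kh_min (v := x) (x := a) (k := k) (by omega) hka ⟨?_, ?_⟩
        · rw [hab]; exact hR
        · rw [hab]; exact hm.2
      by_cases ha : k < c.kh x z <;> by_cases hb : k < c.kh x z'
      · rw [if_pos ha, if_pos hb] at he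
        have hn : g.P z x (k + 1) = g.P z' x (k + 1) := by rw [hsuf z hd.1, hsuf z' hd.2, he]
        have hanc : ∀ a, k < c.kh x a → ¬ (k + 1 < c.kh x a) →
            c.T.anc (g.P a x (c.kh x a)) (k + 1) = g.P a x (k + 1) ∧ c.Reg x (g.P a x (k + 1)) ∧
            c.H (g.P a x (k + 1)) = k + 1 := by
          intro a h2 h3
          have hkh : c.kh x a = k + 1 := by omega
          have hs := c.kh_spec (v := x) (x := a) (by omega)
          rw [hkh] at hs ⊢
          refine ⟨?_, hs.2⟩
          have := c.T.anc_self (g.P a x (k + 1))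
          have hl : c.T.lev (g.P a x (k + 1)) = k + 1 := hs.2.2
          rw [hl] at this; exact this
        by_cases ha2 : k + 1 < c.kh x z <;> by_cases hb2 : k + 1 < c.kh x z'
        · rw [if_pos ha2, if_pos hb2]; exact hn
        · exfalso
          have := hanc z' hb hb2
          rw [← hn] at this
          exact c.kh_min (v := x) (x := z) (k := k + 1) (by omega) ha2 ⟨this.2.1, this.2.2⟩
        · exfalso
          have := hanc z ha ha2
          rw [hn] at this
          exact c.kh_min (v := x) (x := z') (k := k + 1) (by omega) hb2 ⟨this.2.1, this.2.2⟩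
        · rw [if_neg ha2, if_neg hb2, (hanc z ha ha2).1, (hanc z' hb hb2).1]; exact hn
      · rw [if_pos ha, if_neg hb] at he
        exact (key z z' hd.1 hd.2 ha hb he).elim
      · rw [if_neg ha, if_pos hb] at he
        exact (key z' z hd.2 hd.1 hb ha he.symm).elim
      · rw [if_neg ha, if_neg hb] at he
        rw [if_neg (by omega), if_neg (by omega)]
        have hs := c.kh_spec (v := x) (x := z) (by omega)
        have hs' := c.kh_spec (v := x) (x := z') (by omega)
        rw [c.T.anc_succ (by show c.H _ ≤ k; rw [hs.2.2]; omega), c.T.anc_succ (by show c.H _ ≤ k; rw [hs'.2.2]; omega), he]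
    · simp only [if_neg h1] at he ⊢
      rw [hsuf z hd.1, hsuf z' hd.2, he]
  hkk x z z' i h h' h1 hi hi' he := by
    by_cases hx : x ∈ c.U
    · simp only [if_pos hx] at h h' hi hi' ⊢
      have hd : g.d z x = 2 * r ∧ g.d z' x = 2 * r := by
        rw [g.symm z, g.symm z']
        exact ⟨(mem_filter.1 h).2, (mem_filter.1 h').2⟩
      have hsuf : ∀ k, i ≤ k → k ≤ 2 * r → g.P z x k = g.P z' x k := by
        intro k hk hk2
        have h1 := g.P_suffix (x := z) (y := x) (i := i) (k := k - i) (by rw [hd.1]; omega)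
        have h2 := g.P_suffix (x := z') (y := x) (i := i) (k := k - i) (by rw [hd.2]; omega)
        rw [show k = i + (k - i) by omega, ← h1, ← h2, he]
      have aux : ∀ a b, i < c.kh x a → i < c.kh x b → (∀ k, i ≤ k → k ≤ 2 * r → g.P a x k = g.P b x k) →
          c.kh x b ≤ c.kh x a := by
        intro a b ha hb hab
        by_contra hlt
        push Not at hlt
        have hr2 := c.kh_le x b
        have hs := c.kh_spec (v := x) (x := a) (by omega)
        rw [hab (c.kh x a) (by omega) (by omega)] at hs
        exact c.kh_min (v := x) (x := b) hs.1 hlt ⟨hs.2.1, hs.2.2⟩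
      exact le_antisymm (aux z' z hi' hi (fun k hk hk2 => (hsuf k hk hk2).symm)) (aux z z' hi hi' hsuf)
    · simp only [if_neg hx]

end Core

end Pool.Agent.Wi
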