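import Mathlib

/-! Definitions for the Wiener index problem MP_27e0c7_co (blueprint wi_proof.md).
`Geo V`: an integer metric with consistent geodesics. `LF`: levelled forests. `Src`: source systems. -/

namespace Pool.Agent.Wi

open Finset
open scoped Classical

/-- A finite integer metric space with a consistent, symmetric system of geodesics. -/
structure Geo (V : Type) where
  d : V → V → ℕ
  d0 : ∀ x y, d x y = 0 ↔ x = y
  symm : ∀ x y, d x y = d y x
  tri : ∀ x y z, d x z ≤ d x y + d y z
  P : V → V → ℕ → V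
  P0 : ∀ x y, P x y 0 = x
  Pl : ∀ x y, P x y (d x y) = y
  dl : ∀ x y i, i ≤ d x y → d x (P x y i) = i
  dr : ∀ x y i, i ≤ d x y → d (P x y i) y = d x y - i
  rev : ∀ x y i, i ≤ d x y → P y x i = P x y (d x y - i)
  sub : ∀ x y i j, i ≤ j → j ≤ d x y → P x (P x y j) i = P x y i

/-- A levelled forest of height `r` on a finite subset `S` of `V`. -/
structure LF (r : ℕ) (V : Type) where
  S : Finset V
  lev : V → ℕ
  par : V → V
  hlev : ∀ p ∈ S, lev p < r
  hpar : ∀ p ∈ S, lev p + 1 < r → par p ∈ S ∧ lev (par p) = lev p + 1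

namespace LF
variable {r : ℕ} {V : Type}

/-- the ancestor of `p` at level `k` (for `lev p ≤ k < r`). -/
def anc (T : LF r V) (p : V) (k : ℕ) : V := T.par^[k - T.lev p] p

/-- number of common ancestors (including the points themselves). -/
noncomputable def kap (T : LF r V) (p q : V) : ℕ :=
  ((range r).filter (fun k => T.lev p ≤ k ∧ T.lev q ≤ k ∧ T.anc p k = T.anc q k)).card

/-- sum of the levels. -/
def h (T : LF r V) : ℕ := ∑ p ∈ T.S, T.lev p

/-- sum of `kap` over ordered pairs. -/
noncomputable def C (T : LF r V) : ℕ := ∑ p ∈ T.S, ∑ q ∈ T.S.filter (fun q => q ≠ p), T.kap p q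

noncomputable def cost (T : LF r V) (N : ℕ) : ℕ := N * T.h + T.C

end LF

/-- `tau` is the minimal cost of a levelled forest with exactly `N` nodes. -/
def IsTau (r : ℕ) (V : Type) (N tau : ℕ) : Prop :=
  (∀ T : LF r V, T.S.card = N → tau ≤ T.cost N) ∧ ∃ T : LF r V, T.S.card = N ∧ T.cost N = tau

section
variable {V : Type} [Fintype V]

/-- ordered total deficit `2 D = sum over ordered pairs x ≠ y of (2 r - d x y)`. -/
noncomputable def Geo.D2 (g : Geo V) (r : ℕ) : ℕ :=
  ∑ x : V, ∑ y ∈ univ.filter (fun y => y ≠ x), (2 * r - g.d x y)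

/-- closed ball. -/
noncomputable def Geo.ball (g : Geo V) (k : ℕ) (x : V) : Finset V := univ.filter (fun y => g.d x y ≤ k)

/-- sphere. -/
noncomputable def Geo.sph (g : Geo V) (k : ℕ) (x : V) : Finset V := univ.filter (fun y => g.d x y = k)

end

/-- A source system: targets `F x`, irregular height `kk x z`, ancestors `an x z k` of the target `z`
(seen from the source `x`) at the levels `k < r`. -/
structure Src {V : Type} (g : Geo V) (r : ℕ) where
  F : V → Finset V
  kk : V → V → ℕ
  an : V → V → ℕ → V
  hF : ∀ x z, z ∈ F x → g.d x z = 2 * r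
  hk1 : ∀ x z, z ∈ F x → 1 ≤ kk x z
  hk2 : ∀ x z, z ∈ F x → kk x z ≤ r
  /-- below the irregular height the ancestors are the points of the geodesic. -/
  han : ∀ x z k, z ∈ F x → k < kk x z → an x z k = g.P z x k
  hadj : ∀ x z k, z ∈ F x → k + 1 < r → g.d (an x z k) (an x z (k + 1)) = 1
  hup : ∀ x z z' k, z ∈ F x → z' ∈ F x → k + 1 < r → an x z k = an x z' k → an x z (k + 1) = an x z' (k + 1)
  hkk : ∀ x z z' i, z ∈ F x → z' ∈ F x → 1 ≤ i → i < kk x z → i < kk x z' → g.P z x i = g.P z' x i → kk x z = kk x z'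

namespace Src
variable {V : Type} {g : Geo V} {r : ℕ}

/-- targets of the source `x` that use `w` as an irregular hub. -/
noncomputable def Z (s : Src g r) (x w : V) : Finset V :=
  (s.F x).filter (fun z => r < g.d x w ∧ g.d x w < 2 * r ∧ 2 * r - g.d x w < s.kk x z ∧ g.P z x (2 * r - g.d x w) = w)

variable [Fintype V]

/-- efficient hubs. -/
noncomputable def E (s : Src g r) (e : ℝ) (x : V) : Finset V := univ.filter (fun w => (s.Z x w).Nonempty ∧ e ≤ ((s.Z x w).card : ℝ))

/-- targets all of whose irregular hubs are efficient. -/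
noncomputable def Fe (s : Src g r) (e : ℝ) (x : V) : Finset V :=
  (s.F x).filter (fun z => s.kk x z = 1 ∨ g.P z x 1 ∈ s.E e x)

/-- the class (root) of a target. -/
def cls (s : Src g r) (x z : V) : V := s.an x z (r - 1)

/-- the members of `Fe x` in a given class. -/
noncomputable def Cl (s : Src g r) (e : ℝ) (x c : V) : Finset V := (s.Fe e x).filter (fun z => s.cls x z = c)

/-- targets in small classes. -/
noncomputable def Sm (s : Src g r) (e L : ℝ) (x : V) : Finset V :=
  (s.Fe e x).filter (fun z => ((s.Cl e x (s.cls x z)).card : ℝ) ≤ L)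

/-- targets in large classes. -/
noncomputable def La (s : Src g r) (e L : ℝ) (x : V) : Finset V :=
  (s.Fe e x).filter (fun z => L < ((s.Cl e x (s.cls x z)).card : ℝ))

/-- number of common ancestors of two targets. -/
noncomputable def kap (s : Src g r) (x z z' : V) : ℕ := ((Ico 1 r).filter (fun k => s.an x z k = s.an x z' k)).card

/-- ordered quadruples of Type I: mutual hubs `u, w`, `z` a target of `u` through `w`, `y` a target of `w` through `u`. -/
noncomputable def Q (s : Src g r) : Finset (V × V × V × V) :=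
  univ.filter (fun q => q.2.2.2 ∈ s.Z q.1 q.2.1 ∧ q.2.2.1 ∈ s.Z q.2.1 q.1)

end Src

end Pool.Agent.Wi
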