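import Pool.Agent.Wi.Basic

/-! MODULE LEMA (blueprint 2.1).  `N = n - 1`, `s = sqrt n`, `Lam = 8 K0 + 2 r + 1`.
Induction on `N - |S|`. `|S| = N`: definition. If `|S| < n/2`: the left side is `≤ K0 n s - Lam s (n/2 - 1) ≤ 0`.
If `cost(S) >= tau`: trivial. Otherwise `N h(S) ≤ K0 n^(3/2)`, so the number of level 0 nodes is `≥ |S| - h(S) ≥ n/4`,
and `sum over level 0 nodes x of sum_{q in S, q ≠ x} kap(x,q) ≤ C(S) ≤ K0 n^(3/2)`: some level 0 node `x` has
`sum_q kap(x,q) ≤ 4 K0 s`. Take `v` not in `S` and make it a twin of `x` (`lev v = 0`, `par v = par x`): `S' = S + v` is an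
LF, `kap(v,q) = kap(x,q)` for `q ≠ x, v`, `kap(v,x) = r - 1`, so `cost(S') = cost(S) + 2 (sum_q kap(x,q) + (r-1))`. -/

namespace Pool.Agent.Wi

open Finset
open scoped Classical

theorem LEMA_kap_comm {r : ℕ} {V : Type} (T : LF r V) (p q : V) : T.kap p q = T.kap q p := by
  unfold LF.kap
  congr 1
  apply filter_congr
  intro k _
  constructor
  · rintro ⟨h1, h2, h3⟩; exact ⟨h2, h1, h3.symm⟩
  · rintro ⟨h1, h2, h3⟩; exact ⟨h2, h1, h3.symm⟩

/-- twin of a level `0` node. -/
theorem twin {r : ℕ} (hr : 2 ≤ r) {V : Type} (T : LF r V) (x v : V) (hx : x ∈ T.S) (hx0 : T.lev x = 0) (hv : v ∉ T.S) (N : ℕ) :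
    ∃ T' : LF r V, T'.S = insert v T.S ∧
      T'.cost N = T.cost N + 2 * ((∑ q ∈ T.S.filter (fun q => q ≠ x), T.kap x q) + (r - 1)) := by
  have hxv : x ≠ v := fun h => hv (h ▸ hx)
  have hne : ∀ p ∈ T.S, p ≠ v := fun p hp h => hv (h ▸ hp)
  have hlevp : ∀ p ∈ T.S, Function.update T.lev v 0 p = T.lev p := fun p hp =>
    Function.update_of_ne (hne p hp) _ _
  have hparp : ∀ p ∈ T.S, Function.update T.par v (T.par x) p = T.par p := fun p hp =>
    Function.update_of_ne (hne p hp) _ _
  let T' : LF r V :=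
    { S := insert v T.S
      lev := Function.update T.lev v 0
      par := Function.update T.par v (T.par x)
      hlev := by
        intro p hp
        rcases mem_insert.1 hp with rfl | hp
        · rw [Function.update_self]; omega
        · rw [hlevp p hp]; exact T.hlev p hp
      hpar := by
        intro p hp hl
        rcases mem_insert.1 hp with rfl | hp
        · rw [Function.update_self, Function.update_self]
          have h := T.hpar x hx (by omega)
          refine ⟨mem_insert_of_mem h.1, ?_⟩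
          rw [hlevp _ h.1, h.2, hx0]
        · rw [hlevp p hp] at hl
          rw [hlevp p hp, hparp p hp]
          have h := T.hpar p hp hl
          exact ⟨mem_insert_of_mem h.1, by rw [hlevp _ h.1, h.2]⟩ }
  have hS : T'.S = insert v T.S := rfl
  have hlev' : ∀ p ∈ T.S, T'.lev p = T.lev p := hlevp
  have hlevv : T'.lev v = 0 := Function.update_self v 0 T.lev
  have hanc : ∀ p ∈ T.S, ∀ k, T.lev p ≤ k → k < r → T'.anc p k = T.anc p k := by
    intro p hp k hk
    induction k, hk using Nat.le_induction with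
    | base => intro _; rw [← hlev' p hp, T'.anc_self, hlev' p hp, T.anc_self]
    | succ k hk ih =>
      intro hkr
      rw [T'.anc_succ (by rw [hlev' p hp]; exact hk), T.anc_succ hk, ih (by omega)]
      exact hparp _ (T.anc_mem hp hk (by omega)).1
  have hancv : ∀ k, 1 ≤ k → k < r → T'.anc v k = T.anc x k := by
    intro k hk
    induction k, hk using Nat.le_induction with
    | base =>
      intro _
      have e1 := T'.anc_succ (p := v) (k := 0) (by rw [hlevv])
      have e2 := T.anc_succ (p := x) (k := 0) (by rw [hx0])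
      have e3 : T'.anc v 0 = v := by
        have := T'.anc_self v; rwa [hlevv] at this
      have e4 : T.anc x 0 = x := by
        have := T.anc_self x; rwa [hx0] at this
      rw [e3] at e1
      rw [e4] at e2
      rw [zero_add] at e1 e2
      rw [e1, e2]
      exact Function.update_self v (T.par x) T.par
    | succ k hk ih =>
      intro hkr
      rw [T'.anc_succ (by rw [hlevv]; omega), T.anc_succ (by rw [hx0]; omega), ih (by omega)]
      exact hparp _ (T.anc_mem hx (by rw [hx0]; omega) (by omega)).1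
  have hkap : ∀ p ∈ T.S, ∀ q ∈ T.S, T'.kap p q = T.kap p q := by
    intro p hp q hq
    unfold LF.kap
    congr 1
    apply filter_congr
    intro k hk
    have hk := mem_range.1 hk
    rw [hlev' p hp, hlev' q hq]
    constructor
    · rintro ⟨h1, h2, h3⟩
      rw [hanc p hp k h1 hk, hanc q hq k h2 hk] at h3
      exact ⟨h1, h2, h3⟩
    · rintro ⟨h1, h2, h3⟩
      rw [← hanc p hp k h1 hk, ← hanc q hq k h2 hk] at h3
      exact ⟨h1, h2, h3⟩
  have hv0 : T'.anc v 0 = v := by
    have := T'.anc_self v; rwa [hlevv] at this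
  have hx0' : T.anc x 0 = x := by
    have := T.anc_self x; rwa [hx0] at this
  have hkapv : ∀ q ∈ T.S, q ≠ x → T'.kap v q = T.kap x q := by
    intro q hq hqx
    unfold LF.kap
    congr 1
    apply filter_congr
    intro k hk
    have hk := mem_range.1 hk
    rw [hlev' q hq, hlevv, hx0]
    rcases Nat.eq_zero_or_pos k with rfl | hk0
    · constructor
      · rintro ⟨_, h2, h3⟩
        exfalso
        have hq0 : T.lev q = 0 := by omega
        rw [hv0, hanc q hq 0 h2 hk] at h3
        have : T.anc q 0 = q := by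
          have := T.anc_self q; rwa [hq0] at this
        rw [this] at h3
        exact hne q hq h3.symm
      · rintro ⟨_, h2, h3⟩
        exfalso
        have hq0 : T.lev q = 0 := by omega
        have : T.anc q 0 = q := by
          have := T.anc_self q; rwa [hq0] at this
        rw [hx0', this] at h3
        exact hqx h3.symm
    · constructor
      · rintro ⟨h1, h2, h3⟩
        rw [hancv k hk0 hk, hanc q hq k h2 hk] at h3
        exact ⟨h1, h2, h3⟩
      · rintro ⟨h1, h2, h3⟩
        rw [← hancv k hk0 hk, ← hanc q hq k h2 hk] at h3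
        exact ⟨h1, h2, h3⟩
  have hkapx : T'.kap v x = r - 1 := by
    unfold LF.kap
    have : (range r).filter (fun k => T'.lev v ≤ k ∧ T'.lev x ≤ k ∧ T'.anc v k = T'.anc x k) =
        Ico 1 r := by
      ext k
      rw [mem_filter, mem_range, mem_Ico, hlevv, hlev' x hx, hx0]
      constructor
      · rintro ⟨h1, _, _, h4⟩
        refine ⟨?_, h1⟩
        by_contra hk0
        have hk0 : k = 0 := by omega
        subst hk0
        rw [hv0, hanc x hx 0 (by omega) h1, hx0'] at h4
        exact hxv h4.symm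
      · rintro ⟨h1, h2⟩
        refine ⟨h2, Nat.zero_le _, Nat.zero_le _, ?_⟩
        rw [hancv k h1 h2, hanc x hx k (by omega) h2]
    rw [this, Nat.card_Ico]
  refine ⟨T', hS, ?_⟩
  have hh : T'.h = T.h := by
    unfold LF.h
    rw [hS, sum_insert hv, hlevv, zero_add]
    exact sum_congr rfl hlev'
  have hrow : ∑ q ∈ T.S, T'.kap v q = (∑ q ∈ T.S.filter (fun q => q ≠ x), T.kap x q) + (r - 1) := by
    rw [← sum_filter_add_sum_filter_not T.S (fun q => q ≠ x)]
    congr 1
    · apply sum_congr rfl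
      intro q hq
      rw [mem_filter] at hq
      exact hkapv q hq.1 hq.2
    · have : T.S.filter (fun q => ¬ q ≠ x) = {x} := by
        ext q
        simp only [mem_filter, not_not, mem_singleton]
        constructor
        · rintro ⟨_, h⟩; exact h
        · rintro rfl; exact ⟨hx, rfl⟩
      rw [this, sum_singleton, hkapx]
  have hC : T'.C = T.C + 2 * ∑ q ∈ T.S, T'.kap v q := by
    unfold LF.C
    rw [hS, sum_insert hv]
    have e1 : (insert v T.S).filter (fun q => q ≠ v) = T.S := by
      ext q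
      rw [mem_filter, mem_insert]
      constructor
      · rintro ⟨h | h, h'⟩
        · exact absurd h h'
        · exact h
      · intro h; exact ⟨Or.inr h, hne q h⟩
    rw [e1]
    have e2 : ∀ p ∈ T.S, ∑ q ∈ (insert v T.S).filter (fun q => q ≠ p), T'.kap p q =
        T'.kap v p + ∑ q ∈ T.S.filter (fun q => q ≠ p), T.kap p q := by
      intro p hp
      have e3 : (insert v T.S).filter (fun q => q ≠ p) = insert v (T.S.filter (fun q => q ≠ p)) := by
        rw [filter_insert, if_pos (hne p hp).symm]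
      rw [e3, sum_insert (by rw [mem_filter]; exact fun h => hv h.1), LEMA_kap_comm T' p v]
      congr 1
      apply sum_congr rfl
      intro q hq
      exact hkap p hp q (mem_filter.1 hq).1
    rw [sum_congr rfl e2, sum_add_distrib]
    ring
  unfold LF.cost
  rw [hh, hC, hrow]
  ring

theorem LEMA_step (r : ℕ) (hr : 2 ≤ r) (K0 : ℝ) (hK0 : 1 ≤ K0) {V : Type} [Fintype V] (tau : ℕ)
    (hn : 64 * K0 ^ 2 ≤ (Fintype.card V : ℝ))
    (htau : (tau : ℝ) ≤ K0 * (Fintype.card V : ℝ) * Real.sqrt (Fintype.card V : ℝ))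
    (T : LF r V) (hT : T.S.card + 1 ≤ Fintype.card V - 1)
    (hc : (T.cost (Fintype.card V - 1) : ℝ) < tau) (hS : (Fintype.card V : ℝ) / 2 ≤ (T.S.card : ℝ)) :
    ∃ T' : LF r V, T'.S.card = T.S.card + 1 ∧
      (T'.cost (Fintype.card V - 1) : ℝ) ≤ (T.cost (Fintype.card V - 1) : ℝ) +
        (8 * K0 + 2 * r + 1) * Real.sqrt (Fintype.card V : ℝ) := by
  set n : ℝ := (Fintype.card V : ℝ) with hndef
  set s : ℝ := Real.sqrt n with hsdef
  have hn64 : 64 ≤ n := by nlinarith
  have hn0 : 0 ≤ n := by linarith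
  have hss : s * s = n := Real.mul_self_sqrt hn0
  have hs0 : 0 ≤ s := Real.sqrt_nonneg _
  have hs8 : 8 * K0 ≤ s := by
    rw [hsdef]
    apply Real.le_sqrt_of_sq_le
    nlinarith
  have hcard : 2 ≤ Fintype.card V := by
    have : (2 : ℝ) ≤ (Fintype.card V : ℝ) := by rw [← hndef]; linarith
    exact_mod_cast this
  have hN : (((Fintype.card V - 1 : ℕ)) : ℝ) = n - 1 := by
    rw [Nat.cast_sub (by omega), Nat.cast_one]
  have hcost : (T.cost (Fintype.card V - 1) : ℝ) = (n - 1) * (T.h : ℝ) + (T.C : ℝ) := by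
    unfold LF.cost
    push_cast
    rw [hN]
  have hh0 : (0 : ℝ) ≤ (T.h : ℝ) := Nat.cast_nonneg _
  have hC0 : (0 : ℝ) ≤ (T.C : ℝ) := Nat.cast_nonneg _
  have hCle : (T.C : ℝ) < K0 * n * s := by
    have : 0 ≤ (n - 1) * (T.h : ℝ) := mul_nonneg (by linarith) hh0
    linarith
  have hhle : (T.h : ℝ) ≤ 2 * K0 * s := by
    have h1 : (n - 1) * (T.h : ℝ) < K0 * n * s := by linarith
    have h2 : n / 2 * (T.h : ℝ) ≤ (n - 1) * (T.h : ℝ) :=
      mul_le_mul_of_nonneg_right (by linarith) hh0
    have h3 : n / 2 * (T.h : ℝ) ≤ n / 2 * (2 * K0 * s) := by nlinarith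
    exact le_of_mul_le_mul_left h3 (by linarith)
  -- level 0 nodes
  set L0 := T.S.filter (fun p => T.lev p = 0) with hL0
  have hL0card : T.S.card ≤ L0.card + T.h := by
    have h1 := card_filter_add_card_filter_not (s := T.S) (fun p => T.lev p = 0)
    rw [← hL0] at h1
    have h2 : (T.S.filter (fun p => ¬ T.lev p = 0)).card ≤ T.h := by
      unfold LF.h
      calc (T.S.filter (fun p => ¬ T.lev p = 0)).card
          = ∑ p ∈ T.S.filter (fun p => ¬ T.lev p = 0), 1 := by rw [card_eq_sum_ones]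
        _ ≤ ∑ p ∈ T.S.filter (fun p => ¬ T.lev p = 0), T.lev p := by
            apply sum_le_sum
            intro p hp
            have := (mem_filter.1 hp).2
            omega
        _ ≤ ∑ p ∈ T.S, T.lev p := sum_le_sum_of_subset (filter_subset _ _)
    omega
  have hL0n : n / 4 ≤ (L0.card : ℝ) := by
    have h1 : (T.S.card : ℝ) ≤ (L0.card : ℝ) + (T.h : ℝ) := by exact_mod_cast hL0card
    have h2 : 2 * K0 * s ≤ n / 4 := by nlinarith
    linarith
  -- a level 0 node with few common ancestors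
  have hx : ∃ x ∈ L0, ((∑ q ∈ T.S.filter (fun q => q ≠ x), T.kap x q : ℕ) : ℝ) ≤ 4 * K0 * s := by
    by_contra hcon
    push Not at hcon
    have h1 : (L0.card : ℝ) * (4 * K0 * s) ≤
        ∑ x ∈ L0, ((∑ q ∈ T.S.filter (fun q => q ≠ x), T.kap x q : ℕ) : ℝ) := by
      rw [← nsmul_eq_mul]
      apply card_nsmul_le_sum
      intro x hx
      exact (hcon x hx).le
    have h2 : ∑ x ∈ L0, ((∑ q ∈ T.S.filter (fun q => q ≠ x), T.kap x q : ℕ) : ℝ) ≤ (T.C : ℝ) := by
      rw [← Nat.cast_sum]
      have : ∑ x ∈ L0, ∑ q ∈ T.S.filter (fun q => q ≠ x), T.kap x q ≤ T.C :=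
        sum_le_sum_of_subset (filter_subset _ _)
      exact_mod_cast this
    have h3 : n / 4 * (4 * K0 * s) ≤ (L0.card : ℝ) * (4 * K0 * s) :=
      mul_le_mul_of_nonneg_right hL0n (by positivity)
    have h4 : n / 4 * (4 * K0 * s) = K0 * n * s := by ring
    linarith
  obtain ⟨x, hxL, hxs⟩ := hx
  obtain ⟨hxS, hx0⟩ := mem_filter.1 hxL
  have hv : ∃ v, v ∉ T.S := by
    by_contra hcon
    push Not at hcon
    have : T.S = univ := eq_univ_iff_forall.2 hcon
    rw [this, card_univ] at hT
    omega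
  obtain ⟨v, hv⟩ := hv
  obtain ⟨T', h1, h2⟩ := twin hr T x v hxS hx0 hv (Fintype.card V - 1)
  refine ⟨T', by rw [h1, card_insert_of_notMem hv], ?_⟩
  rw [h2]
  push_cast
  have hr1 : ((r - 1 : ℕ) : ℝ) ≤ r := by exact_mod_cast Nat.sub_le _ _
  have hs1 : 1 ≤ s := by linarith
  have hr0 : (0 : ℝ) ≤ r := Nat.cast_nonneg _
  push_cast at hxs
  nlinarith [mul_le_mul_of_nonneg_left hs1 hr0]

theorem lemA (r : ℕ) (hr : 2 ≤ r) (K0 : ℝ) (hK0 : 1 ≤ K0) : ∃ Lam n1 : ℝ, 1 ≤ Lam ∧
    ∀ (V : Type) [Fintype V] (tau : ℕ), n1 ≤ (Fintype.card V : ℝ) → IsTau r V (Fintype.card V - 1) tau →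
      (tau : ℝ) ≤ K0 * (Fintype.card V : ℝ) * Real.sqrt (Fintype.card V : ℝ) →
      ∀ T : LF r V, T.S.card ≤ Fintype.card V - 1 →
        (tau : ℝ) - Lam * Real.sqrt (Fintype.card V : ℝ) *
          (((Fintype.card V - 1 : ℕ) : ℝ) - (T.S.card : ℝ)) ≤ (T.cost (Fintype.card V - 1) : ℝ) := by
  have hr0 : (0 : ℝ) ≤ r := Nat.cast_nonneg _
  refine ⟨8 * K0 + 2 * r + 1, 64 * K0 ^ 2, by linarith, ?_⟩
  intro V _ tau hn htau1 htau T hT
  set n : ℝ := (Fintype.card V : ℝ) with hndef
  set s : ℝ := Real.sqrt n with hsdef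
  have hn64 : 64 ≤ n := by nlinarith
  have hs0 : 0 ≤ s := Real.sqrt_nonneg _
  have hcard : 2 ≤ Fintype.card V := by
    have : (2 : ℝ) ≤ (Fintype.card V : ℝ) := by rw [← hndef]; linarith
    exact_mod_cast this
  have hN : (((Fintype.card V - 1 : ℕ)) : ℝ) = n - 1 := by
    rw [Nat.cast_sub (by omega), Nat.cast_one]
  obtain ⟨m, hm⟩ : ∃ m, Fintype.card V - 1 - T.S.card = m := ⟨_, rfl⟩
  induction m generalizing T with
  | zero =>
    have h1 : T.S.card = Fintype.card V - 1 := by omega
    have h2 : (tau : ℝ) ≤ (T.cost (Fintype.card V - 1) : ℝ) := by exact_mod_cast htau1.1 T h1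
    rw [h1, sub_self, mul_zero, sub_zero]
    exact h2
  | succ m ih =>
    have hcast : (T.S.card : ℝ) ≤ (((Fintype.card V - 1 : ℕ)) : ℝ) := by exact_mod_cast hT
    by_cases hc : (tau : ℝ) ≤ (T.cost (Fintype.card V - 1) : ℝ)
    · have : 0 ≤ (8 * K0 + 2 * r + 1) * s * ((((Fintype.card V - 1 : ℕ)) : ℝ) - (T.S.card : ℝ)) :=
        mul_nonneg (mul_nonneg (by linarith) hs0) (by linarith)
      linarith
    push Not at hc
    by_cases hS : n / 2 ≤ (T.S.card : ℝ)
    · obtain ⟨T', h1, h2⟩ := LEMA_step r hr K0 hK0 tau hn htau T (by omega) hc hS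
      have h3 := ih T' (by omega) (by omega)
      rw [h1] at h3
      push_cast at h3
      rw [← hndef, ← hsdef] at h2
      linarith
    · push Not at hS
      have h0 : (0 : ℝ) ≤ (T.cost (Fintype.card V - 1) : ℝ) := Nat.cast_nonneg _
      rw [hN]
      have h1 : n / 4 ≤ n - 1 - (T.S.card : ℝ) := by linarith
      have h2 : (8 * K0) * s * (n / 4) ≤
          (8 * K0 + 2 * r + 1) * s * (n - 1 - (T.S.card : ℝ)) := by
        apply mul_le_mul _ h1 (by linarith) (mul_nonneg (by linarith) hs0)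
        exact mul_le_mul_of_nonneg_right (by linarith) hs0
      have h3 : (8 * K0) * s * (n / 4) = 2 * (K0 * n * s) := by ring
      have h4 : 0 ≤ K0 * n * s := by positivity
      linarith

end Pool.Agent.Wi
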