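import Pool.Agent.Wi.Charges

/-! Section 10 of the blueprint: the gain when there is no centre. -/

namespace Pool.Agent.Wi

open Finset
open scoped Classical

namespace Core
variable {V : Type} {g : Geo V} {r : ℕ} (c : Core g r) [Fintype V]

/-- The facts of section 8 used by the gain, for the reference `o`: `K` bounds the classes (`L2`),
`D` bounds the numbers of efficient hubs (`hX`). -/
structure GHyp (hr : 1 ≤ r) (e L K D : ℝ) (o : V) : Prop where
  /-- (8.0) close pairs are not charged. -/
  h80 : ∀ p q, p ≠ q → g.d p q ≤ r → (p ∈ c.U ∪ c.X ∨ q ∈ c.U ∪ c.X) → ¬ c.Mates hr e L o p q →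
    ¬ (p ∈ c.B ∧ q = c.mm p) → ¬ (q ∈ c.B ∧ p = c.mm q) → 1 ≤ (c.src hr).unc e (c.bb hr e L o) p q
  mates : ∀ p, ((univ.filter (fun q => c.Mates hr e L o p q)).card : ℝ) ≤ K
  mdist : ∀ p q, c.Mates hr e L o p q → g.d p q + 2 ≤ 2 * r
  nx : ∀ p q, 0 < c.NX hr e L o p q → c.Mates hr e L o p q
  kapB : ∀ p ∈ c.B, ∀ q ∈ c.B, 0 < c.T.kap p q → c.root p = c.root q
  hE : ∀ x, (((c.src hr).E e x).card : ℝ) ≤ D

theorem ga_symm {hr : 1 ≤ r} {e L : ℝ} {o p q : V} (h : c.Mates hr e L o p q) : c.Mates hr e L o q p :=
  ⟨h.1.symm, h.2.2.1, h.2.1, h.2.2.2.symm⟩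

theorem ga_trans {hr : 1 ≤ r} {e L : ℝ} {o p q s : V} (h : c.Mates hr e L o p q) (h' : c.Mates hr e L o q s)
    (hne : p ≠ s) : c.Mates hr e L o p s :=
  ⟨hne, h.2.1, h'.2.2.1, h.2.2.2.trans h'.2.2.2⟩

theorem ga_F {hr : 1 ≤ r} {x z : V} (h : z ∈ (c.src hr).F x) :
    x ∈ c.U ∪ c.X ∧ z ∈ c.U ∪ c.X ∧ (x ∈ c.U → z ∈ c.X) := by
  have h' : z ∈ (if x ∈ c.U then c.X.filter (fun z => g.d x z = 2 * r)
    else if x ∈ c.X then (c.U ∪ c.X).filter (fun z => g.d x z = 2 * r) else ∅) := h
  split_ifs at h' with h1 h2
  · have := (mem_filter.1 h').1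
    exact ⟨mem_union_left _ h1, mem_union_right _ this, fun _ => this⟩
  · have := (mem_filter.1 h').1
    exact ⟨mem_union_right _ h2, this, fun h3 => absurd h3 h1⟩
  · exact absurd h' (notMem_empty _)

theorem ga_UX_M {x : V} (h : x ∈ c.U ∪ c.X) : x ∉ c.M := by
  rcases mem_union.1 h with h | h
  · exact disjoint_left.1 c.dUM h
  · unfold X at h; exact (mem_filter.1 h).2.2.2

theorem ga_X_B {x : V} (h : x ∈ c.X) : x ∉ c.B := by
  unfold X at h
  unfold B
  have := (mem_filter.1 h).2
  rw [mem_union]
  tauto

omit [Fintype V] in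
theorem ga_B_M {x : V} (h : x ∈ c.B) : x ∉ c.M := by
  unfold B at h
  rcases mem_union.1 h with h | h
  · exact disjoint_left.1 c.dUM h
  · exact disjoint_left.1 c.dWM h

theorem ga_mates_M {hr : 1 ≤ r} {e L : ℝ} {o p q : V} (h : c.Mates hr e L o p q) : p ∉ c.M := by
  rcases h.2.1 with h1 | h1
  · exact c.ga_B_M h1
  · unfold Src.Sm Src.Fe at h1
    exact c.ga_UX_M (c.ga_F (mem_filter.1 (mem_filter.1 h1).1).1).2.1

/-- uncharged pairs. -/
noncomputable def gaTh (hr : 1 ≤ r) (e L : ℝ) (o : V) : Finset (V × V) :=
  univ.filter (fun p => p.1 ≠ p.2 ∧ 1 ≤ (c.src hr).unc e (c.bb hr e L o) p.1 p.2)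

theorem ga_Th (hr : 1 ≤ r) (e L : ℝ) (o : V) : (c.gaTh hr e L o).card ≤ c.Un hr e L o := by
  have h1 : c.Un hr e L o = ∑ p : V × V, if p.2 ≠ p.1 then (c.src hr).unc e (c.bb hr e L o) p.1 p.2 else 0 := by
    rw [Fintype.sum_prod_type]
    unfold Un Src.Unc
    refine sum_congr rfl fun x _ => ?_
    rw [sum_filter]
  rw [h1, card_eq_sum_ones]
  refine (sum_le_sum (f := fun _ => 1) (g := fun p : V × V => if p.2 ≠ p.1 then
    (c.src hr).unc e (c.bb hr e L o) p.1 p.2 else 0) ?_).trans (sum_le_sum_of_subset (subset_univ _))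
  intro p hp
  have := (mem_filter.1 hp).2
  rw [if_pos (Ne.symm this.1)]
  exact this.2

/-- without a centre the uncharged part is linear. -/
theorem gain (hr : 1 ≤ r) (hr2 : 2 ≤ r) (e L K D : ℝ) (he : 4 ≤ e) (o : V) (G : c.GHyp hr e L K D o)
    (diam : ∀ x y, g.d x y ≤ 2 * r)
    (hc8 : (∃ m0 ∈ c.M, ∀ p ∈ c.B, c.mm p = m0) ∨ (∀ y ∈ c.U, ∃ m' ∈ c.M, m' ≠ c.mm y ∧ g.d y m' = r))
    (hcen : ∀ m : V, ∃ x, r < g.d m x) :
    (c.U.card : ℝ) ≤ K + D + (4 + 3 * K / e) * (c.Un hr e L o : ℝ) := by
  have hK : 0 ≤ K := le_trans (Nat.cast_nonneg _) (G.mates o)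
  have hD : 0 ≤ D := le_trans (Nat.cast_nonneg _) (G.hE o)
  have he0 : (0 : ℝ) < e := by linarith
  have hUn : (0 : ℝ) ≤ (c.Un hr e L o : ℝ) := Nat.cast_nonneg _
  have hTh : ((c.gaTh hr e L o).card : ℝ) ≤ (c.Un hr e L o : ℝ) := by exact_mod_cast c.ga_Th hr e L o
  have hKe : 0 ≤ K / e := div_nonneg hK he0.le
  have mem : ∀ p q, p ≠ q → 1 ≤ (c.src hr).unc e (c.bb hr e L o) p q → (p, q) ∈ c.gaTh hr e L o := by
    intro p q h1 h2
    unfold gaTh
    rw [mem_filter]
    exact ⟨mem_univ _, h1, h2⟩
  have hUB : ∀ y ∈ c.U, y ∈ c.B := fun y hy => mem_union_left _ hy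
  have hUUX : ∀ y ∈ c.U, y ∈ c.U ∪ c.X := fun y hy => mem_union_left _ hy
  rcases hc8 with ⟨m0, hm0, hmm⟩ | hB
  swap
  · -- case (B)
    choose! m' h1 h2 h3 using hB
    have : c.U.card ≤ (c.gaTh hr e L o).card := by
      refine card_le_card_of_injOn (fun y => (y, m' y)) ?_ ?_
      · intro y hy
        have hy : y ∈ c.U := hy
        have hne : y ≠ m' y := by
          intro h0
          have := h3 y hy
          rw [← h0, g.dself] at this
          omega
        refine mem y (m' y) hne (G.h80 y (m' y) hne (h3 y hy).le (Or.inl (hUUX y hy)) ?_ ?_ ?_)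
        · intro hm
          exact c.ga_mates_M (c.ga_symm hm) (h1 y hy)
        · rintro ⟨_, h0⟩
          exact h2 y hy h0
        · rintro ⟨h0, _⟩
          exact c.ga_B_M h0 (h1 y hy)
      · intro y _ y' _ h0
        exact (Prod.ext_iff.1 h0).1
    have h4 : (c.U.card : ℝ) ≤ ((c.gaTh hr e L o).card : ℝ) := by exact_mod_cast this
    have h5 : 3 * K / e = 3 * (K / e) := by ring
    rw [h5]
    nlinarith [mul_nonneg hKe hUn]
  · -- case (A)
    obtain ⟨x0, hx0⟩ := hcen m0
    have hx0B : x0 ∉ c.B := by
      intro h0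
      have h1 := c.hmm x0 h0
      rw [hmm x0 h0, g.symm] at h1
      omega
    have hx0m : x0 ≠ m0 := by
      rintro rfl
      rw [g.dself] at hx0
      omega
    -- the target and the middle
    set gy : V → V := fun y => if g.d y x0 < 2 * r then x0 else g.P x0 y 1 with hgy
    set my : V → V := fun y => g.P y (gy y) r with hmy
    -- geometry of `gy`
    have geo : ∀ y, r < g.d y x0 → r < g.d y (gy y) ∧ g.d y (gy y) < 2 * r ∧
        (gy y = x0 ∨ (g.d y x0 = 2 * r ∧ gy y = g.P x0 y 1 ∧ g.d y (gy y) + 1 = 2 * r ∧ g.d x0 (gy y) = 1)) := by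
      intro y hy
      by_cases h1 : g.d y x0 < 2 * r
      · have : gy y = x0 := by rw [hgy]; simp only [if_pos h1]
        rw [this]
        exact ⟨hy, h1, Or.inl rfl⟩
      · have h2 : g.d y x0 = 2 * r := le_antisymm (diam _ _) (not_lt.1 h1)
        have h3 : gy y = g.P x0 y 1 := by rw [hgy]; simp only [if_neg h1]
        have h4 : g.d x0 (gy y) = 1 := by rw [h3]; exact g.dl x0 y 1 (by rw [g.symm, h2]; omega)
        have h5 : g.d y (gy y) + 1 = 2 * r := by
          have := g.dr x0 y 1 (by rw [g.symm, h2]; omega)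
          rw [g.symm x0 y, h2] at this
          rw [h3, g.symm, this]; omega
        exact ⟨by omega, by omega, Or.inr ⟨h2, h3, h5, h4⟩⟩
    have dmy : ∀ y, r < g.d y x0 → g.d y (my y) = r ∧ g.d (my y) (gy y) + r = g.d y (gy y) := by
      intro y hy
      have h1 := geo y hy
      refine ⟨g.dl y (gy y) r h1.1.le, ?_⟩
      have := g.dr y (gy y) r h1.1.le
      rw [hmy]
      simp only
      rw [this]; omega
    have my_ne : ∀ y, r < g.d y x0 → my y ≠ m0 := by
      intro y hy h0
      have h1 := geo y hy
      have h2 := dmy y hy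
      have h3 := g.tri m0 (gy y) x0
      rw [← h0] at h3 hx0
      rcases h1.2.2 with h4 | ⟨h4, h5, h6, h7⟩
      · rw [h4] at h2 h1
        omega
      · rw [g.symm (gy y) x0, h7] at h3
        omega
    -- the six bounds
    set A1 : Finset V := univ.filter (fun y => c.Mates hr e L o x0 y) with hA1
    set A2 : Finset V := c.U.filter (fun y => ¬ c.Mates hr e L o x0 y ∧ g.d y x0 ≤ r) with hA2
    set A3 : Finset V := c.U.filter (fun y => r < g.d y x0 ∧ ¬ c.Mates hr e L o y (my y)) with hA3
    set A4 : Finset V := c.U.filter (fun y => 1 ≤ (c.src hr).unc e (c.bb hr e L o) y (gy y) ∧ r < g.d y x0) with hA4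
    set A5 : Finset V := c.U.filter (fun y => r < g.d y x0 ∧ c.Mates hr e L o y (my y) ∧ gy y ∈ (c.src hr).E e y) with hA5
    set A6 : Finset V := (c.src hr).E e x0 with hA6
    set A7 : Finset V := c.U.filter (fun y => r < g.d y x0 ∧ g.d y x0 = 2 * r ∧
      ∃ t ∈ (c.src hr).Z (gy y) y, ¬ c.Mates hr e L o y t) with hA7
    set A8 : Finset V := c.U.filter (fun y => r < g.d y x0 ∧ g.d y x0 = 2 * r ∧ c.Mates hr e L o y (my y) ∧
      y ∈ (c.src hr).E e (gy y) ∧ ∀ t ∈ (c.src hr).Z (gy y) y, c.Mates hr e L o y t) with hA8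
    have cover : c.U ⊆ A1 ∪ (A2 ∪ (A3 ∪ (A4 ∪ (A5 ∪ (A6 ∪ (A7 ∪ A8)))))) := by
      intro y hy
      simp only [mem_union]
      by_cases m1 : c.Mates hr e L o x0 y
      · left; rw [hA1, mem_filter]; exact ⟨mem_univ _, m1⟩
      right
      by_cases d1 : g.d y x0 ≤ r
      · left; rw [hA2, mem_filter]; exact ⟨hy, m1, d1⟩
      right
      push Not at d1
      by_cases m2 : c.Mates hr e L o y (my y)
      swap
      · left; rw [hA3, mem_filter]; exact ⟨hy, d1, m2⟩
      right
      by_cases u1 : 1 ≤ (c.src hr).unc e (c.bb hr e L o) y (gy y)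
      · left; rw [hA4, mem_filter]; exact ⟨hy, u1, d1⟩
      right
      by_cases e1 : gy y ∈ (c.src hr).E e y
      · left; rw [hA5, mem_filter]; exact ⟨hy, d1, m2, e1⟩
      right
      obtain ⟨g1, g2, g3⟩ := geo y d1
      by_cases e2 : y ∈ (c.src hr).E e (gy y)
      · rcases g3 with g3 | ⟨g3, g4, g5, g6⟩
        · left; rw [g3] at e2; exact e2
        · right
          by_cases t1 : ∃ t ∈ (c.src hr).Z (gy y) y, ¬ c.Mates hr e L o y t
          · left; rw [hA7, mem_filter]; exact ⟨hy, d1, g3, t1⟩
          · right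
            push Not at t1
            rw [hA8, mem_filter]; exact ⟨hy, d1, g3, m2, e2, t1⟩
      · exfalso
        apply u1
        have hbb : c.bb hr e L o y (gy y) = 0 := by
          have hyM : y ∉ c.M := c.ga_UX_M (hUUX y hy)
          have hNX : c.NX hr e L o y (gy y) = 0 := by
            by_contra hne
            have hm := G.nx y (gy y) (Nat.pos_of_ne_zero hne)
            rcases g3 with g3 | ⟨g3, g4, g5, g6⟩
            · rw [g3] at hm; exact m1 (c.ga_symm hm)
            · have := G.mdist _ _ hm
              omega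
          have hMM : c.MM y (gy y) = 0 := by
            unfold MM
            rw [if_neg]
            rintro (⟨h1, h2⟩ | ⟨h1, h2⟩)
            · have h3 := (c.hmm y h1).2
              rw [← h2] at h3
              omega
            · exact hyM (by rw [h2]; exact (c.hmm _ h1).1)
          have hBB : c.BB y (gy y) = 0 := by
            unfold BB
            by_cases h1 : y ≠ gy y ∧ y ∈ c.B ∧ gy y ∈ c.B
            swap
            · rw [if_neg h1]
            rw [if_pos h1]
            obtain ⟨h1, h2, h3⟩ := h1
            rcases g3 with g3 | ⟨g3, g4, g5, g6⟩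
            · exact absurd (g3 ▸ h3) hx0B
            · have h4 := (c.hmm _ h3)
              rw [hmm _ h3] at h4
              have h5 := g.tri m0 (gy y) x0
              rw [g.symm (gy y) x0, g6, g.symm m0 (gy y)] at h5
              have hHg : c.H (gy y) = 0 := by omega
              have hHy : c.H y = 0 := (c.HU y h2).2 hy
              have hkap : c.T.kap y (gy y) = 0 := by
                by_contra hne
                have hroot := G.kapB y h2 _ h3 (Nat.pos_of_ne_zero hne)
                have hm : c.Mates hr e L o y (gy y) := by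
                  refine ⟨h1, Or.inl h2, Or.inl h3, ?_⟩
                  unfold clo
                  rw [if_pos h2, if_pos h3]; exact hroot
                have := G.mdist _ _ hm
                omega
              rw [hHg, hHy, hkap]
          unfold bb
          rw [hBB, hMM, hNX]
        unfold Src.unc
        rw [if_neg (by tauto), hbb]
        omega
    -- bounds
    have b1 : (A1.card : ℝ) ≤ K := G.mates x0
    have b2 : A2.card ≤ (c.gaTh hr e L o).card := by
      refine card_le_card_of_injOn (fun y => (y, x0)) ?_ (fun y _ y' _ h0 => (Prod.ext_iff.1 h0).1)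
      intro y hy
      obtain ⟨hyU, h1, h2⟩ := mem_filter.1 (show y ∈ A2 from hy)
      have hne : y ≠ x0 := fun h0 => hx0B (h0 ▸ hUB y hyU)
      refine mem y x0 hne (G.h80 y x0 hne h2 (Or.inl (hUUX y hyU)) (fun hm => h1 (c.ga_symm hm)) ?_ ?_)
      · rintro ⟨h3, h4⟩
        rw [hmm y h3] at h4
        exact hx0m h4
      · rintro ⟨h3, _⟩
        exact hx0B h3
    have b3 : A3.card ≤ (c.gaTh hr e L o).card := by
      refine card_le_card_of_injOn (fun y => (y, my y)) ?_ (fun y _ y' _ h0 => (Prod.ext_iff.1 h0).1)
      intro y hy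
      obtain ⟨hyU, h1, h2⟩ := mem_filter.1 (show y ∈ A3 from hy)
      have hd := dmy y h1
      have hne : y ≠ my y := by
        intro h0
        rw [← h0, g.dself] at hd
        omega
      refine mem y (my y) hne (G.h80 y (my y) hne hd.1.le (Or.inl (hUUX y hyU)) h2 ?_ ?_)
      · rintro ⟨h3, h4⟩
        rw [hmm y h3] at h4
        exact my_ne y h1 h4
      · rintro ⟨h3, h4⟩
        exact c.ga_UX_M (hUUX y hyU) (h4 ▸ (c.hmm _ h3).1)
    have b4 : A4.card ≤ (c.gaTh hr e L o).card := by
      refine card_le_card_of_injOn (fun y => (y, gy y)) ?_ (fun y _ y' _ h0 => (Prod.ext_iff.1 h0).1)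
      intro y hy
      obtain ⟨hyU, h1, h2⟩ := mem_filter.1 (show y ∈ A4 from hy)
      refine mem y (gy y) ?_ h1
      intro h0
      have := (geo y h2).1
      rw [← h0, g.dself] at this
      omega
    -- transitivity helper: a mate of `y` cannot be a mate of a point at distance `2 r` from ...
    have b5 : (A5.card : ℝ) * e ≤ K * ((c.gaTh hr e L o).card : ℝ) := by
      set S : Finset (V × V) := A5.sigma (fun y => (c.src hr).Z y (gy y)) |>.map
        ⟨fun p => (p.1, p.2), fun p q h => by
          cases p; cases q; simp only [Prod.mk.injEq] at h; obtain ⟨h1, h2⟩ := h; subst h1; subst h2; rfl⟩ with hS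
      have memS : ∀ p : V × V, p ∈ S ↔ p.1 ∈ A5 ∧ p.2 ∈ (c.src hr).Z p.1 (gy p.1) := by
        intro p
        rw [hS, mem_map]
        constructor
        · rintro ⟨q, hq, rfl⟩
          rw [mem_sigma] at hq
          exact hq
        · intro hp
          exact ⟨⟨p.1, p.2⟩, mem_sigma.2 hp, rfl⟩
      have hS1 : (A5.card : ℝ) * e ≤ (S.card : ℝ) := by
        rw [hS, card_map, card_sigma]
        push_cast
        have : ∀ y ∈ A5, e ≤ (((c.src hr).Z y (gy y)).card : ℝ) := by
          intro y hy
          have := (mem_filter.1 hy).2.2.2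
          unfold Src.E at this
          exact (mem_filter.1 this).2.2
        calc (A5.card : ℝ) * e = ∑ y ∈ A5, e := by rw [sum_const, nsmul_eq_mul]
          _ ≤ _ := sum_le_sum this
      have hmaps : ∀ p ∈ S, (my p.1, p.2) ∈ c.gaTh hr e L o := by
        rintro ⟨y, x⟩ hp
        obtain ⟨hp1, hp2⟩ := (memS _).1 hp
        simp only at hp1 hp2 ⊢
        obtain ⟨hyU, h1, h2, h3⟩ := mem_filter.1 hp1
        obtain ⟨z1, z2, z3, z4, z5⟩ := (c.src hr).Z_geo hp2
        have hxF := ((c.src hr).mem_Z.1 hp2).1
        have hxX := (c.ga_F hxF).2.2 hyU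
        -- `P y x (d y gy) = gy`
        have e1 : g.P y x (g.d y (gy y)) = gy y := by
          have := g.rev x y (g.d y (gy y)) (by rw [g.symm x y, z1]; omega)
          rw [this, g.symm x y, z1]; exact z5
        have e2 : my y = g.P y x r := by
          have := g.sub y x r (g.d y (gy y)) z2.le (by rw [z1]; omega)
          rw [e1] at this
          exact this
        have e3 : g.d (my y) x = r := by
          rw [e2, g.dr y x r (by rw [z1]; omega), z1]; omega
        have hne : my y ≠ x := by
          intro h0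
          rw [h0, g.dself] at e3
          omega
        refine mem _ _ hne (G.h80 _ _ hne e3.le (Or.inr (mem_union_right _ hxX)) ?_ ?_ ?_)
        · intro hm
          have hyx : y ≠ x := by
            intro h0
            rw [h0, g.dself] at z1
            omega
          have := G.mdist _ _ (c.ga_trans h2 hm hyx)
          omega
        · rintro ⟨h4, h5⟩
          exact c.ga_UX_M (mem_union_right _ hxX) (h5 ▸ (c.hmm _ h4).1)
        · rintro ⟨h4, _⟩
          exact c.ga_X_B hxX h4
      have hfib : (S.card : ℝ) ≤ K * ((c.gaTh hr e L o).card : ℝ) := by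
        rw [card_eq_sum_card_fiberwise (f := fun p : V × V => (my p.1, p.2)) (t := c.gaTh hr e L o) hmaps]
        push_cast
        calc (∑ b ∈ c.gaTh hr e L o, ((S.filter (fun p => (my p.1, p.2) = b)).card : ℝ))
            ≤ ∑ b ∈ c.gaTh hr e L o, K := by
              refine sum_le_sum fun b _ => le_trans ?_ (G.mates b.1)
              norm_cast
              refine card_le_card_of_injOn (fun p => p.1) ?_ ?_
              · rintro ⟨y, x⟩ hp
                have hp := mem_filter.1 (Finset.mem_coe.1 hp)
                obtain ⟨hp1, hp2⟩ := (memS _).1 hp.1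
                have hm := (mem_filter.1 hp1).2.2.1
                rw [Finset.mem_coe, mem_filter]
                refine ⟨mem_univ _, ?_⟩
                have : my y = b.1 := by have := hp.2; simp only at this; rw [← this]
                rw [← this]
                exact c.ga_symm hm
              · rintro ⟨y, x⟩ hp ⟨y', x'⟩ hp' h0
                have hp := (mem_filter.1 (Finset.mem_coe.1 hp)).2
                have hp' := (mem_filter.1 (Finset.mem_coe.1 hp')).2
                simp only at h0 hp hp'
                have h1 := congrArg Prod.snd hp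
                have h2 := congrArg Prod.snd hp'
                simp only at h1 h2
                rw [h0, h1, h2]
          _ = K * ((c.gaTh hr e L o).card : ℝ) := by rw [sum_const, nsmul_eq_mul, mul_comm]
      exact hS1.trans hfib
    have b6 : (A6.card : ℝ) ≤ D := G.hE x0
    have b7 : A7.card ≤ (c.gaTh hr e L o).card := by
      have hex : ∀ y ∈ A7, ∃ t ∈ (c.src hr).Z (gy y) y, ¬ c.Mates hr e L o y t :=
        fun y hy => (mem_filter.1 hy).2.2.2
      choose! t ht1 ht2 using hex
      refine card_le_card_of_injOn (fun y => (y, t y)) ?_ (fun y _ y' _ h0 => (Prod.ext_iff.1 h0).1)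
      intro y hy
      have hy : y ∈ A7 := hy
      obtain ⟨hyU, h1, h2, _⟩ := mem_filter.1 hy
      obtain ⟨g1, g2, g3⟩ := geo y h1
      obtain ⟨z1, z2, z3, z4, z5⟩ := (c.src hr).Z_geo (ht1 y hy)
      have htF := ((c.src hr).mem_Z.1 (ht1 y hy)).1
      have htUX := (c.ga_F htF).2.1
      have hgd : g.d (gy y) y + 1 ≤ 2 * r := by omega
      have hd : g.d y (t y) ≤ r := by
        rw [g.symm, z4]; omega
      have hne : y ≠ t y := by
        intro h0
        rw [← h0, g.dself] at z4
        omega
      refine mem _ _ hne (G.h80 _ _ hne hd (Or.inl (hUUX y hyU)) (ht2 y hy) ?_ ?_)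
      · rintro ⟨h4, h5⟩
        exact c.ga_UX_M htUX (h5 ▸ (c.hmm _ h4).1)
      · rintro ⟨h4, h5⟩
        exact c.ga_UX_M (hUUX y hyU) (h5 ▸ (c.hmm _ h4).1)
    have b8 : (A8.card : ℝ) * e ≤ K * ((c.gaTh hr e L o).card : ℝ) := by
      have hmaps : ∀ y ∈ A8, (my y, gy y) ∈ c.gaTh hr e L o := by
        intro y hy
        obtain ⟨hyU, h1, h2, h3, h4, h5⟩ := mem_filter.1 hy
        obtain ⟨g1, g2, g3⟩ := geo y h1
        have hd := dmy y h1
        have hE := h4
        unfold Src.E at hE
        obtain ⟨⟨t, ht⟩, hcard⟩ := (mem_filter.1 hE).2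
        obtain ⟨z1, z2, z3, z4, z5⟩ := (c.src hr).Z_geo ht
        have htF := ((c.src hr).mem_Z.1 ht).1
        have hgUX := (c.ga_F htF).1
        have hne : my y ≠ gy y := by
          intro h0
          rw [h0, g.dself] at hd
          omega
        have htm : my y ≠ t := by
          intro h0
          rw [← h0, g.symm] at z1
          omega
        have hmt : c.Mates hr e L o (my y) t := c.ga_trans (c.ga_symm h3) (h5 t ht) htm
        refine mem _ _ hne (G.h80 _ _ hne (by omega) (Or.inr hgUX) ?_ ?_ ?_)
        · intro hm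
          have hgt : gy y ≠ t := by
            intro h0
            rw [← h0, g.dself] at z1
            omega
          have := G.mdist _ _ (c.ga_trans (c.ga_symm hm) hmt hgt)
          omega
        · rintro ⟨h6, h7⟩
          exact c.ga_UX_M hgUX (h7 ▸ (c.hmm _ h6).1)
        · rintro ⟨h6, h7⟩
          rw [hmm _ h6] at h7
          exact my_ne y h1 h7
      rw [card_eq_sum_card_fiberwise (f := fun y : V => (my y, gy y)) (t := c.gaTh hr e L o) hmaps]
      push_cast
      rw [sum_mul]
      calc (∑ b ∈ c.gaTh hr e L o, ((A8.filter (fun y => (my y, gy y) = b)).card : ℝ) * e)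
          ≤ ∑ b ∈ c.gaTh hr e L o, K := by
            refine sum_le_sum fun b _ => ?_
            have hsum : ((A8.filter (fun y => (my y, gy y) = b)).card : ℝ) * e ≤
                ∑ y ∈ A8.filter (fun y => (my y, gy y) = b), (((c.src hr).Z (gy y) y).card : ℝ) := by
              rw [← nsmul_eq_mul, ← sum_const]
              refine sum_le_sum fun y hy => ?_
              have h4 := (mem_filter.1 (mem_filter.1 hy).1).2.2.2.2.1
              unfold Src.E at h4
              exact (mem_filter.1 h4).2.2
            refine hsum.trans (le_trans ?_ (G.mates b.1))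
            norm_cast
            rw [← card_biUnion]
            · refine card_le_card ?_
              intro t ht
              obtain ⟨y, hy, ht⟩ := mem_biUnion.1 ht
              obtain ⟨hy, hyb⟩ := mem_filter.1 hy
              obtain ⟨hyU, h1, h2, h3, h4, h5⟩ := mem_filter.1 hy
              obtain ⟨g1, g2, g3⟩ := geo y h1
              have hd := dmy y h1
              obtain ⟨z1, z2, z3, z4, z5⟩ := (c.src hr).Z_geo ht
              have htm : my y ≠ t := by
                intro h0
                rw [← h0, g.symm] at z1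
                omega
              have hmt : c.Mates hr e L o (my y) t := c.ga_trans (c.ga_symm h3) (h5 t ht) htm
              rw [mem_filter]
              refine ⟨mem_univ _, ?_⟩
              rw [← hyb]
              exact hmt
            · intro y hy y' hy' hne
              rw [Function.onFun, disjoint_left]
              intro t ht ht'
              obtain ⟨hy, hyb⟩ := mem_filter.1 (Finset.mem_coe.1 hy)
              obtain ⟨hy', hyb'⟩ := mem_filter.1 (Finset.mem_coe.1 hy')
              have hg : gy y = gy y' := by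
                have h1 := congrArg Prod.snd hyb
                have h2 := congrArg Prod.snd hyb'
                simp only at h1 h2
                rw [h1, h2]
              obtain ⟨hyU, h1, h2, h3, h4, h5⟩ := mem_filter.1 hy
              obtain ⟨hyU', h1', h2', h3', h4', h5'⟩ := mem_filter.1 hy'
              have k1 := geo y h1
              have k2 := geo y' h1'
              have d1 : g.d y (gy y) + 1 = 2 * r := by
                rcases k1.2.2 with k | ⟨_, _, k, _⟩
                · rw [k] at k1; omega
                · exact k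
              have d2 : g.d y' (gy y') + 1 = 2 * r := by
                rcases k2.2.2 with k | ⟨_, _, k, _⟩
                · rw [k] at k2; omega
                · exact k
              rw [← hg] at ht' d2
              apply hne
              refine (c.src hr).Z_disjoint ht ht' ?_
              rw [g.symm _ y, g.symm _ y']
              omega
        _ = K * ((c.gaTh hr e L o).card : ℝ) := by rw [sum_const, nsmul_eq_mul, mul_comm]
    -- total
    have tot : c.U.card ≤ A1.card + (A2.card + (A3.card + (A4.card + (A5.card + (A6.card + (A7.card + A8.card)))))) := by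
      refine (card_le_card cover).trans ?_
      refine (card_union_le _ _).trans ?_
      gcongr
      refine (card_union_le _ _).trans ?_
      gcongr
      refine (card_union_le _ _).trans ?_
      gcongr
      refine (card_union_le _ _).trans ?_
      gcongr
      refine (card_union_le _ _).trans ?_
      gcongr
      refine (card_union_le _ _).trans ?_
      gcongr
      exact card_union_le _ _
    have tot' : (c.U.card : ℝ) ≤ A1.card + (A2.card + (A3.card + (A4.card + (A5.card + (A6.card + (A7.card + A8.card)))))) := by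
      exact_mod_cast tot
    have b2' : (A2.card : ℝ) ≤ ((c.gaTh hr e L o).card : ℝ) := by exact_mod_cast b2
    have b3' : (A3.card : ℝ) ≤ ((c.gaTh hr e L o).card : ℝ) := by exact_mod_cast b3
    have b4' : (A4.card : ℝ) ≤ ((c.gaTh hr e L o).card : ℝ) := by exact_mod_cast b4
    have b7' : (A7.card : ℝ) ≤ ((c.gaTh hr e L o).card : ℝ) := by exact_mod_cast b7
    have b5' : (A5.card : ℝ) ≤ K / e * ((c.gaTh hr e L o).card : ℝ) := by
      rw [div_mul_eq_mul_div, le_div_iff₀ he0]; exact b5
    have b8' : (A8.card : ℝ) ≤ K / e * ((c.gaTh hr e L o).card : ℝ) := by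
      rw [div_mul_eq_mul_div, le_div_iff₀ he0]; exact b8
    have h5 : 3 * K / e = 3 * (K / e) := by ring
    rw [h5]
    have h6 : K / e * ((c.gaTh hr e L o).card : ℝ) ≤ K / e * (c.Un hr e L o : ℝ) := mul_le_mul_of_nonneg_left hTh hKe
    nlinarith [mul_nonneg hKe hUn]

end Core

end Pool.Agent.Wi
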