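import Pool.Agent.Wi.ONEc1

/-! MODULE ONEc2: section 4, final statement (blueprint (4.4)): real arithmetic from ONEa, ONEb, ONEc1. -/

namespace Pool.Agent.Wi

open Finset
open scoped Classical

/-- pointwise arithmetic of (4.4). -/
theorem one_pt {rr Lam K0 eta C eps0 n s nl tau D U SU SR Sin SLa SI SII SNN NNo Q : ℝ}
    (hr : 2 ≤ rr) (hLam : 1 ≤ Lam) (hK0 : 1 ≤ K0) (heta : 0 < eta) (heta2 : 64 * Lam * eta ≤ 1)
    (hC : 16 * Lam + 4 * rr / eta + 4 ≤ C) (he0 : 0 < eps0) (he1 : eps0 ≤ eta / (64 * rr * Lam))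
    (hn : 2 ≤ n) (hs : s * s = n) (hs1 : 1 ≤ s) (hnl0 : 0 ≤ nl) (hnl : nl ≤ n)
    (hD : D ≤ 2 * (rr + K0) * (n * s)) (hD0 : 0 ≤ D) (hU : 0 ≤ U) (hSU : 0 ≤ SU)
    (hSR : SR ≤ D)
    (hSin : Sin ≤ eta * s * U + Q / (eta * s))
    (hSI : SI * (eta * s) ≤ Q)
    (hSII : SII * (eta * s) ≤ C * s * D)
    (hQ : Q ≤ rr * (eps0 * n * U + C * s * D + rr * s / eta * D + n * D / (eta * s)))
    (hLa : SLa * (32 * Lam * s) ≤ SU)
    (hmain : D ≥ (2 / (n - 1)) * (nl * tau - Lam * s * (SR + Sin + SLa + SI + SII) - SNN / 2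
      - nl * (2 * rr * (rr * s / eta) * (C * s + rr * C / eta))) + NNo + U) :
    U + NNo ≤ D - (2 / (n - 1)) * nl * tau + SNN / (n - 1)
      + (4 * (2 * rr * (rr / eta) * (C + rr * C / eta))
        + 4 * Lam * (1 + C / eta + (2 * rr / eta) * (C + (rr + 1) / eta)) * (2 * (rr + K0))) * n
      + 3 / 16 * U + 1 / (16 * (n - 1)) * SU := by
  have hN : 0 < n - 1 := by linarith
  have hn0 : 0 < n := by linarith
  have hs0 : 0 < s := by linarith
  have hr0 : 0 < rr := by linarith
  have hL0 : 0 < Lam := by linarith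
  have hC0 : 0 < C := by
    have : 0 ≤ 4 * rr / eta := by positivity
    linarith
  have hNinv : 1 / (n - 1) ≤ 2 / n := by
    rw [div_le_div_iff₀ hN hn0]; linarith
  have hsN : s / (n - 1) ≤ 2 / s := by
    rw [div_le_div_iff₀ hN hs0]; nlinarith
  -- the bound for Q / (eta s)
  set KQ : ℝ := rr * (C + (rr + 1) / eta) with hKQ
  have hQ2 : Q ≤ rr * eps0 * n * U + KQ * s * D := by
    refine hQ.trans (le_of_eq ?_)
    have h1 : n * D / (eta * s) = s / eta * D := by
      rw [← hs]; field_simp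
    rw [h1, hKQ]; field_simp; ring
  have hQe : Q / (eta * s) ≤ rr * eps0 * s / eta * U + KQ / eta * D := by
    rw [div_le_iff₀ (by positivity)]
    refine hQ2.trans (le_of_eq ?_)
    rw [← hs]; field_simp
  have hSI2 : SI ≤ Q / (eta * s) := by
    rw [le_div_iff₀ (by positivity)]; exact hSI
  have hSII2 : SII ≤ C / eta * D := by
    have h1 : SII ≤ C * s * D / (eta * s) := by
      rw [le_div_iff₀ (by positivity)]; exact hSII
    refine h1.trans (le_of_eq ?_)
    field_simp
  have hLa2 : SLa ≤ SU / (32 * Lam * s) := by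
    rw [le_div_iff₀ (by positivity)]; exact hLa
  set Ka : ℝ := 1 + C / eta + (2 * rr / eta) * (C + (rr + 1) / eta) with hKa
  have hKa0 : 0 ≤ Ka := by rw [hKa]; positivity
  have hsum : SR + Sin + SLa + SI + SII ≤ Ka * D + (eta * s + 2 * rr * eps0 * s / eta) * U
      + SU / (32 * Lam * s) := by
    have h2 : Ka * D = D + C / eta * D + 2 * (KQ / eta * D) := by
      rw [hKa, hKQ]; ring
    rw [h2]
    have h3 : (eta * s + 2 * rr * eps0 * s / eta) * U = eta * s * U + 2 * (rr * eps0 * s / eta * U) := by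
      ring
    rw [h3]
    linarith
  -- multiply by 2 Lam s / (n - 1)
  have hc0 : 0 ≤ 2 * Lam * s / (n - 1) := by positivity
  have hmul := mul_le_mul_of_nonneg_left hsum hc0
  have hU1 : 2 * Lam * s / (n - 1) * (eta * s + 2 * rr * eps0 * s / eta) ≤ 3 / 16 := by
    have e1 : 2 * Lam * s / (n - 1) * (eta * s + 2 * rr * eps0 * s / eta) =
        (n / (n - 1)) * (2 * Lam * eta + 4 * Lam * rr * eps0 / eta) := by
      rw [← hs]; field_simp; ring
    rw [e1]
    have e2 : n / (n - 1) ≤ 2 := by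
      rw [div_le_iff₀ hN]; linarith
    have e3 : 2 * Lam * eta ≤ 1 / 32 := by linarith
    have e4 : 4 * Lam * rr * eps0 / eta ≤ 1 / 16 := by
      rw [div_le_iff₀ heta]
      have : eps0 * (64 * rr * Lam) ≤ eta := by
        rw [le_div_iff₀ (by positivity)] at he1
        exact he1
      have e4' : 4 * Lam * rr * eps0 = 1 / 16 * (eps0 * (64 * rr * Lam)) := by ring
      rw [e4']; linarith
    have e5 : 0 ≤ 2 * Lam * eta + 4 * Lam * rr * eps0 / eta := by positivity
    have e6 : 0 ≤ n / (n - 1) := by positivity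
    calc n / (n - 1) * (2 * Lam * eta + 4 * Lam * rr * eps0 / eta) ≤ 2 * (3 / 32) := by
          apply mul_le_mul e2 (by linarith) e5 (by norm_num)
      _ = 3 / 16 := by norm_num
  have hD1 : 2 * Lam * s / (n - 1) * (Ka * D) ≤ 4 * Lam * Ka * (2 * (rr + K0)) * n := by
    have e1 : 2 * Lam * s / (n - 1) ≤ 4 * Lam / s := by
      have : 2 * Lam * (s / (n - 1)) ≤ 2 * Lam * (2 / s) := by gcongr
      calc 2 * Lam * s / (n - 1) = 2 * Lam * (s / (n - 1)) := by ring
        _ ≤ 2 * Lam * (2 / s) := this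
        _ = 4 * Lam / s := by ring
    have e2 : Ka * D ≤ Ka * (2 * (rr + K0) * (n * s)) := by gcongr
    calc 2 * Lam * s / (n - 1) * (Ka * D) ≤ 4 * Lam / s * (Ka * (2 * (rr + K0) * (n * s))) := by
          gcongr
      _ = 4 * Lam * Ka * (2 * (rr + K0)) * n := by field_simp
  have hSU1 : 2 * Lam * s / (n - 1) * (SU / (32 * Lam * s)) = 1 / (16 * (n - 1)) * SU := by
    field_simp; ring
  have hHT : (2 / (n - 1)) * (nl * (2 * rr * (rr * s / eta) * (C * s + rr * C / eta))) ≤
      4 * (2 * rr * (rr / eta) * (C + rr * C / eta)) * n := by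
    have e1 : (2 / (n - 1)) * nl ≤ 4 := by
      have : 2 / (n - 1) * nl = 2 * nl * (1 / (n - 1)) := by ring
      rw [this]
      calc 2 * nl * (1 / (n - 1)) ≤ 2 * n * (2 / n) := by gcongr
        _ = 4 := by field_simp; norm_num
    have e2 : 2 * rr * (rr * s / eta) * (C * s + rr * C / eta) ≤
        (2 * rr * (rr / eta) * (C + rr * C / eta)) * n := by
      have e3 : C * s + rr * C / eta ≤ (C + rr * C / eta) * s := by
        have : rr * C / eta ≤ rr * C / eta * s := by
          have h0 : 0 ≤ rr * C / eta := by positivity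
          nlinarith
        linarith
      calc 2 * rr * (rr * s / eta) * (C * s + rr * C / eta)
          ≤ 2 * rr * (rr * s / eta) * ((C + rr * C / eta) * s) := by gcongr
        _ = (2 * rr * (rr / eta) * (C + rr * C / eta)) * (s * s) := by ring
        _ = _ := by rw [hs]
    calc (2 / (n - 1)) * (nl * (2 * rr * (rr * s / eta) * (C * s + rr * C / eta)))
        = (2 / (n - 1) * nl) * (2 * rr * (rr * s / eta) * (C * s + rr * C / eta)) := by ring
      _ ≤ 4 * ((2 * rr * (rr / eta) * (C + rr * C / eta)) * n) := by gcongr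
      _ = _ := by ring
  have hexp : (2 / (n - 1)) * (nl * tau - Lam * s * (SR + Sin + SLa + SI + SII) - SNN / 2
      - nl * (2 * rr * (rr * s / eta) * (C * s + rr * C / eta))) =
      (2 / (n - 1)) * nl * tau - 2 * Lam * s / (n - 1) * (SR + Sin + SLa + SI + SII)
      - SNN / (n - 1) - (2 / (n - 1)) * (nl * (2 * rr * (rr * s / eta) * (C * s + rr * C / eta))) := by
    ring
  rw [hexp] at hmain
  have hU2 : 2 * Lam * s / (n - 1) * ((eta * s + 2 * rr * eps0 * s / eta) * U) ≤ 3 / 16 * U := by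
    have := mul_le_mul_of_nonneg_right hU1 hU
    linarith
  have hmul2 : 2 * Lam * s / (n - 1) * (SR + Sin + SLa + SI + SII) ≤
      4 * Lam * Ka * (2 * (rr + K0)) * n + 3 / 16 * U + 1 / (16 * (n - 1)) * SU := by
    refine hmul.trans ?_
    rw [mul_add, mul_add, hSU1]
    linarith
  have hfin : (4 * (2 * rr * (rr / eta) * (C + rr * C / eta)) + 4 * Lam * Ka * (2 * (rr + K0))) * n =
      4 * (2 * rr * (rr / eta) * (C + rr * C / eta)) * n + 4 * Lam * Ka * (2 * (rr + K0)) * n := by ring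
  rw [hfin]
  linarith

/-- global arithmetic of (4.4). -/
theorem one_glob {rr K0 eps0 n s nl tau D SU SNN KA : ℝ}
    (hr : 2 ≤ rr) (hK0 : 1 ≤ K0) (he0 : 0 < eps0)
    (hn : 2 ≤ n) (hs : s * s = n) (hs1 : 1 ≤ s) (hnl0 : 0 ≤ nl) (hnl : nl ≤ n) (hKA : 0 ≤ KA)
    (hD : D ≤ 2 * (rr * (n - 1) + tau)) (htau : tau ≤ K0 * n * s) (htau0 : 0 ≤ tau)
    (hD2 : D ≤ 2 * (rr + K0) * (n * s))
    (hSU : 0 ≤ SU) (hSNN0 : 0 ≤ SNN) (hSNN : SNN ≤ nl * D) (hD0 : 0 ≤ D)
    (hpop : (n - nl) * (eps0 * n / 2) ≤ D)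
    (hmain : SU + SNN ≤ nl * D - (2 / (n - 1)) * nl * tau * nl + SNN / (n - 1) * nl
      + KA * n * nl + 3 / 16 * SU + 1 / (16 * (n - 1)) * SU * nl) :
    SU ≤ 2 * (4 * (rr + K0) + 2 * rr + 16 * K0 * (rr + K0) / eps0 + KA) * n * n := by
  have hN : 0 < n - 1 := by linarith
  have hn0 : 0 < n := by linarith
  have hs0 : 0 < s := by linarith
  have hr0 : 0 < rr := by linarith
  have hsn : s ≤ n := by nlinarith
  have h1 : 1 / (16 * (n - 1)) * SU * nl ≤ 1 / 8 * SU := by
    have e1 : 1 / (16 * (n - 1)) * nl ≤ 1 / 8 := by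
      rw [one_div, inv_mul_le_iff₀ (by positivity)]
      linarith
    have := mul_le_mul_of_nonneg_right e1 hSU
    linarith
  have h2 : SNN / (n - 1) * nl - SNN ≤ 4 * (rr + K0) * (n * n) := by
    have e1 : SNN / (n - 1) * nl - SNN = SNN * ((nl - (n - 1)) / (n - 1)) := by field_simp
    rw [e1]
    by_cases hc : nl ≤ n - 1
    · have : SNN * ((nl - (n - 1)) / (n - 1)) ≤ 0 := by
        apply mul_nonpos_of_nonneg_of_nonpos hSNN0
        apply div_nonpos_of_nonpos_of_nonneg _ hN.le
        linarith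
      have : 0 ≤ 4 * (rr + K0) * (n * n) := by positivity
      linarith
    · push Not at hc
      have e2 : (nl - (n - 1)) / (n - 1) ≤ 2 / n := by
        rw [div_le_div_iff₀ hN hn0]
        nlinarith
      have e3 : 0 ≤ (nl - (n - 1)) / (n - 1) := by
        apply div_nonneg _ hN.le; linarith
      calc SNN * ((nl - (n - 1)) / (n - 1)) ≤ (nl * D) * (2 / n) := by
            gcongr
        _ ≤ (n * (2 * (rr + K0) * (n * s))) * (2 / n) := by gcongr
        _ = 4 * (rr + K0) * (n * s) := by field_simp; ring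
        _ ≤ 4 * (rr + K0) * (n * n) := by gcongr
  have h3 : nl * D - (2 / (n - 1)) * nl * tau * nl ≤ 2 * rr * (n * n)
      + 16 * K0 * (rr + K0) / eps0 * (n * n) := by
    have e1 : nl * D ≤ nl * (2 * (rr * (n - 1) + tau)) := by gcongr
    have e2 : nl * (2 * (rr * (n - 1) + tau)) - (2 / (n - 1)) * nl * tau * nl =
        2 * rr * (nl * (n - 1)) + 2 * nl * tau * (((n - 1) - nl) / (n - 1)) := by
      field_simp; ring
    have e3 : 2 * rr * (nl * (n - 1)) ≤ 2 * rr * (n * n) := by
      have : nl * (n - 1) ≤ n * n := by nlinarith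
      nlinarith
    have e4 : 2 * nl * tau * (((n - 1) - nl) / (n - 1)) ≤ 16 * K0 * (rr + K0) / eps0 * (n * n) := by
      -- n - nl ≤ 4 (rr + K0) s / eps0
      have p1 : (n - nl) ≤ 4 * (rr + K0) * s / eps0 := by
        rw [le_div_iff₀ he0]
        have p2 : (n - nl) * (eps0 * n / 2) ≤ 2 * (rr + K0) * (n * s) := hpop.trans hD2
        have p3 : ((n - nl) * eps0) * n ≤ (4 * (rr + K0) * s) * n := by linarith
        exact le_of_mul_le_mul_right p3 hn0
      have p4 : ((n - 1) - nl) / (n - 1) ≤ (n - nl) * (2 / n) := by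
        rw [div_le_iff₀ hN]
        have p5 : (2 / n) * (n - 1) ≥ 1 := by
          rw [ge_iff_le, div_mul_eq_mul_div, le_div_iff₀ hn0]; linarith
        have p6 : 0 ≤ n - nl := by linarith
        have p7 : (n - nl) * 1 ≤ (n - nl) * ((2 / n) * (n - 1)) := by gcongr
        nlinarith
      have p8 : 0 ≤ 2 * nl * tau := by positivity
      calc 2 * nl * tau * (((n - 1) - nl) / (n - 1)) ≤ 2 * nl * tau * ((n - nl) * (2 / n)) := by
            gcongr
        _ ≤ 2 * n * (K0 * n * s) * ((4 * (rr + K0) * s / eps0) * (2 / n)) := by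
            have : 0 ≤ n - nl := by linarith
            gcongr
        _ = 16 * K0 * (rr + K0) / eps0 * (n * (s * s)) := by field_simp; ring
        _ = 16 * K0 * (rr + K0) / eps0 * (n * n) := by rw [hs]
    linarith
  have h4 : KA * n * nl ≤ KA * (n * n) := by
    have : KA * n * nl ≤ KA * n * n := by gcongr
    linarith
  have h5 : SU * (11 / 16) ≤ (4 * (rr + K0) + 2 * rr + 16 * K0 * (rr + K0) / eps0 + KA) * (n * n) := by
    linarith
  have h6 : 0 ≤ (4 * (rr + K0) + 2 * rr + 16 * K0 * (rr + K0) / eps0 + KA) * (n * n) := by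
    positivity
  nlinarith

/-- number of far points is at most the deficit. -/
theorem card_close_le {V : Type} [Fintype V] (g : Geo V) (r : ℕ) (O : Finset V) :
    (∑ x ∈ O, ((univ.filter (fun y => y ≠ x ∧ g.d x y < 2 * r)).card : ℝ)) ≤ (g.D2 r : ℝ) := by
  have h : ∑ x ∈ O, (univ.filter (fun y => y ≠ x ∧ g.d x y < 2 * r)).card ≤ g.D2 r := by
    unfold Geo.D2
    refine (Finset.sum_le_sum_of_subset (Finset.subset_univ O)).trans ?_
    refine Finset.sum_le_sum fun x _ => ?_
    rw [Finset.card_eq_sum_ones]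
    have hsub : univ.filter (fun y => y ≠ x ∧ g.d x y < 2 * r) ⊆ univ.filter (fun y => y ≠ x) := by
      intro y hy
      simp only [mem_filter, mem_univ, true_and] at hy ⊢
      exact hy.1
    refine le_trans ?_ (Finset.sum_le_sum_of_subset hsub)
    refine Finset.sum_le_sum fun y hy => ?_
    simp only [mem_filter, mem_univ, true_and] at hy
    omega
  exact_mod_cast h

theorem NN_le_D2 {V : Type} [Fintype V] {g : Geo V} {r : ℕ} (s : Src g r) (e L : ℝ)
    (diam : ∀ x y, g.d x y ≤ 2 * r) (o : V) : s.NN e L o ≤ g.D2 r := by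
  unfold Src.NN Geo.D2
  refine Finset.sum_le_sum fun x _ => ?_
  refine Finset.sum_le_sum fun y _ => ?_
  have := s.near_le e L diam o x y
  omega

/-- SECTION 4. -/
theorem one {r : ℕ} {Lam K0 eta C : ℝ} (hc : Cst r Lam K0 eta C) :
    ∃ eps0 K1 n1 : ℝ, 0 < eps0 ∧ eps0 ≤ 1 ∧ 0 < K1 ∧ ∀ (V : Type) [Fintype V] (g : Geo V) (tau : ℕ), n1 ≤ nn V →
      Glob g r Lam K0 tau →
      (∑ o ∈ lightO g r eps0, (U1 g r (by have := hc.hr; omega) eps0 eta C o : ℝ)) ≤ K1 * nn V * nn V := by
  obtain ⟨hr, hLam, hK0, heta, heta2, hC⟩ := hc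
  have hr1 : 1 ≤ r := by omega
  have hrr : (2 : ℝ) ≤ r := by exact_mod_cast hr
  have hr0 : (0 : ℝ) < r := by linarith
  have hC0 : 0 < C := by
    have : 0 ≤ 4 * (r : ℝ) / eta := by positivity
    linarith
  set eps0 : ℝ := min 1 (eta / (64 * r * Lam)) with heps0
  have he0 : 0 < eps0 := by rw [heps0]; positivity
  have he1 : eps0 ≤ 1 := min_le_left _ _
  have he2 : eps0 ≤ eta / (64 * r * Lam) := min_le_right _ _
  set KA : ℝ := 4 * (2 * r * (r / eta) * (C + r * C / eta))
        + 4 * Lam * (1 + C / eta + (2 * r / eta) * (C + (r + 1) / eta)) * (2 * (r + K0)) with hKA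
  have hKA0 : 0 ≤ KA := by rw [hKA]; positivity
  refine ⟨eps0, 2 * (4 * (r + K0) + 2 * r + 16 * K0 * (r + K0) / eps0 + KA),
    2 + 2 / eps0 + (1 / eta) * (1 / eta), he0, he1, by positivity, ?_⟩
  intro V _ g tau hn1 hG
  set n := nn V with hn
  set s := ss V with hs
  have hn2 : 2 ≤ n := by
    have h1 : 0 < 2 / eps0 := by positivity
    have h2 : 0 < (1 / eta) * (1 / eta) := by positivity
    linarith
  have hss : s * s = n := by
    rw [hs, hn]; unfold ss nn
    exact Real.mul_self_sqrt (by positivity)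
  have hs0 : 0 ≤ s := by rw [hs]; exact Real.sqrt_nonneg _
  have hs1 : 1 ≤ s := by nlinarith
  have hes : 1 ≤ eta * s := by
    have h1 : (1 / eta) * (1 / eta) ≤ s * s := by
      rw [hss]
      have h1 : 0 < 2 / eps0 := by positivity
      linarith
    have h2 : 1 / eta ≤ s := by
      have h0 : 0 ≤ 1 / eta := by positivity
      exact abs_le_of_sq_le_sq' (by nlinarith) hs0 |>.2
    have h3 : eta * (1 / eta) ≤ eta * s := by gcongr
    rw [mul_one_div_cancel heta.ne'] at h3
    exact h3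
  set O := lightO g r eps0 with hO
  set nl : ℝ := (O.card : ℝ) with hnl
  have hnl0 : 0 ≤ nl := by positivity
  have hnln : nl ≤ n := by
    rw [hnl, hn]; unfold nn
    exact_mod_cast Finset.card_le_univ O
  have hVn : ((Fintype.card V - 1 : ℕ) : ℝ) = n - 1 := by
    have h1 : 1 ≤ Fintype.card V := by
      have : (1 : ℝ) ≤ (Fintype.card V : ℝ) := by
        have : n = (Fintype.card V : ℝ) := rfl
        rw [← this]; linarith
      exact_mod_cast this
    rw [Nat.cast_sub h1, hn]; unfold nn; simp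
  set D : ℝ := (g.D2 r : ℝ) with hD
  have hD0 : 0 ≤ D := by positivity
  have hDH : D ≤ 2 * (r * (n - 1) + tau) := by
    have := hG.hH
    have h2 : (g.D2 r : ℝ) ≤ ((2 * (r * (Fintype.card V - 1) + tau) : ℕ) : ℝ) := by exact_mod_cast this
    rw [hD]
    refine h2.trans (le_of_eq ?_)
    rw [← hVn]; push_cast; ring
  have htauK : (tau : ℝ) ≤ K0 * n * s := hG.tauK
  have htau0 : (0 : ℝ) ≤ tau := by positivity
  have hD2 : D ≤ 2 * (r + K0) * (n * s) := by
    have h1 : (r : ℝ) * (n - 1) ≤ r * (n * s) := by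
      have : n - 1 ≤ n * s := by nlinarith
      gcongr
    nlinarith
  set S1 := s1 g r hr1 eps0 with hS1
  set e := eta * s with he
  set L := C * s with hL
  have hL0 : 0 ≤ L := by positivity
  have hepos : 0 < e := by positivity
  have hkk : ∀ x, ∀ z ∈ S1.F x, S1.kk x z = r := fun x z _ => rfl
  set hX : ℝ := r * s / eta with hhX
  have hEX : ∀ x, ((S1.E e x).card : ℝ) ≤ hX := by
    intro x
    have h1 := S1.card_E_mul_le hepos x
    have h2 : ((S1.F x).card : ℝ) ≤ n := by
      rw [hn]; unfold nn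
      exact_mod_cast Finset.card_le_univ _
    have h3 : ((S1.E e x).card : ℝ) * e ≤ r * n := h1.trans (by gcongr)
    have h4 : hX * e = r * n := by
      rw [hhX, he, ← hss]; field_simp
    rw [← h4] at h3
    exact le_of_mul_le_mul_right h3 hepos
  set Uf : V → ℝ := fun o => (U1 g r hr1 eps0 eta C o : ℝ) with hUf
  have hUf_eq : ∀ o, Uf o = (S1.Unc e (S1.near e L o) : ℝ) := fun o => rfl
  set SU : ℝ := ∑ o ∈ O, Uf o with hSU
  have hSU0 : 0 ≤ SU := Finset.sum_nonneg fun o _ => by rw [hUf]; positivity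
  set Nf : V → ℝ := fun o => (S1.NN e L o : ℝ) with hNf
  set SNN : ℝ := ∑ o ∈ O, Nf o with hSNN
  have hSNN0 : 0 ≤ SNN := Finset.sum_nonneg fun o _ => by rw [hNf]; positivity
  have hSNNle : SNN ≤ nl * D := by
    rw [hSNN, hnl, ← nsmul_eq_mul]
    refine Finset.sum_le_card_nsmul _ _ _ fun o _ => ?_
    have h1 : ((S1.NN e L o : ℕ) : ℝ) ≤ ((g.D2 r : ℕ) : ℝ) :=
      Nat.cast_le.mpr (NN_le_D2 S1 e L hG.diam o)
    exact h1
  -- the sums over the light sources
  set SR : ℝ := ∑ x ∈ O, ((univ.filter (fun y => y ≠ x ∧ g.d x y < 2 * r)).card : ℝ) with hSR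
  set Sin : ℝ := ∑ x ∈ O, (((S1.F x) \ (S1.Fe e x)).card : ℝ) with hSin
  set SLa : ℝ := ∑ x ∈ O, ((S1.La e L x).card : ℝ) with hSLa
  set SI : ℝ := ∑ x ∈ O, (((S1.F x).filter (fun z => ∃ w, z ∈ S1.Z x w ∧ x ∈ S1.E e w)).card : ℝ) with hSI
  have hSRle : SR ≤ D := card_close_le g r O
  have hSIle : SI * e ≤ (S1.Q.card : ℝ) := by
    refine le_trans ?_ (S1.mut_drop hepos)
    gcongr
    exact Finset.sum_le_sum_of_subset_of_nonneg (Finset.subset_univ O) (fun _ _ _ => by positivity)
  have hSLale : SLa * (32 * Lam * s) ≤ SU := by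
    rw [hSLa, hSU, Finset.sum_mul]
    refine Finset.sum_le_sum fun x _ => ?_
    have h1 := one_large S1 hr hG.diam e L hX hEX x
    rw [hUf_eq]
    refine le_trans ?_ h1
    have h2 : 32 * Lam * s ≤ 2 * (L - 1 - 2 * hX) := by
      have h3 : (16 * Lam + 4 * r / eta + 4) * s ≤ C * s := by gcongr
      have h4 : hX = (r / eta) * s := by rw [hhX]; ring
      have h5 : (16 * Lam + 4 * (r : ℝ) / eta + 4) * s = 16 * Lam * s + 4 * ((r / eta) * s) + 4 * s := by ring
      have h6 : 0 ≤ (r / eta) * s := by positivity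
      rw [hL, h4]
      linarith
    calc ((S1.La e L x).card : ℝ) * (32 * Lam * s) ≤ ((S1.La e L x).card : ℝ) * (2 * (L - 1 - 2 * hX)) := by
          gcongr
      _ = 2 * (L - 1 - 2 * hX) * ((S1.La e L x).card : ℝ) := by ring
  -- pointwise inequality
  have hpt : ∀ o ∈ O, Uf o + Nf o ≤ D - (2 / (n - 1)) * nl * tau + SNN / (n - 1) + KA * n
      + 3 / 16 * Uf o + 1 / (16 * (n - 1)) * SU := by
    intro o ho
    have hUo : 0 ≤ Uf o := by rw [hUf]; positivity
    set SII : ℝ := ∑ x ∈ O, (((S1.F x).filter (fun z => ∃ w, z ∈ S1.Z x w ∧ 0 < S1.near e L o x w)).card : ℝ) with hSII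
    have hSinle : Sin ≤ eta * s * Uf o + (S1.Q.card : ℝ) / (eta * s) := by
      refine le_trans ?_ (one_ineff S1 hr hG.diam e L hes o hkk)
      exact Finset.sum_le_sum_of_subset_of_nonneg (Finset.subset_univ O) (fun _ _ _ => by positivity)
    have hSIIle : SII * (eta * s) ≤ C * s * D := by
      refine le_trans ?_ (one_typeII S1 hr hG.diam e L hes hL0 o (hkk o))
      gcongr
      exact Finset.sum_le_sum_of_subset_of_nonneg (Finset.subset_univ O) (fun _ _ _ => by positivity)
    have hb : ∀ w ∈ O, ((g.ball (2 * r - 1) w).card : ℝ) ≤ eps0 * n := by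
      intro w hw
      exact (mem_filter.1 hw).2
    have hQ : (S1.Q.card : ℝ) ≤ r * (eps0 * n * Uf o + C * s * D + r * s / eta * D + n * D / (eta * s)) :=
      one_typeI hr hG.diam O e L (eps0 * n) hX hes hL0 (by positivity) hb hEX o
    have hm := one_sum (r := r) ⟨hr, hLam, hK0, heta, heta2, hC⟩ hG eps0 he0 he2 hes o ho
    have hmain : D ≥ (2 / (n - 1)) * (nl * tau - Lam * s * (SR + Sin + SLa + SI + SII) - SNN / 2
      - nl * (2 * r * (r * s / eta) * (C * s + r * C / eta))) + Nf o + Uf o := by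
      refine le_trans (le_of_eq ?_) hm
      congr 2
      congr 1
      rw [hSR, hSin, hSLa, hSI, hSII, hSNN, hnl]
      rw [← Finset.sum_add_distrib, ← Finset.sum_add_distrib, ← Finset.sum_add_distrib,
        ← Finset.sum_add_distrib, Finset.mul_sum, Finset.sum_div, ← nsmul_eq_mul, ← nsmul_eq_mul,
        ← Finset.sum_const, ← Finset.sum_const, ← Finset.sum_sub_distrib, ← Finset.sum_sub_distrib,
        ← Finset.sum_sub_distrib]
    exact one_pt hrr hLam hK0 heta heta2 hC he0 he2 hn2 hss hs1 hnl0 hnln hD2 hD0 hUo hSU0 hSRle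
      hSinle hSIle hSIIle hQ hSLale hmain
  -- sum over o
  have hsum : SU + SNN ≤ nl * D - (2 / (n - 1)) * nl * tau * nl + SNN / (n - 1) * nl
      + KA * n * nl + 3 / 16 * SU + 1 / (16 * (n - 1)) * SU * nl := by
    have h1 := Finset.sum_le_sum hpt
    rw [Finset.sum_add_distrib] at h1
    have h2 : ∑ o ∈ O, (D - (2 / (n - 1)) * nl * tau + SNN / (n - 1) + KA * n
      + 3 / 16 * Uf o + 1 / (16 * (n - 1)) * SU) = nl * D - (2 / (n - 1)) * nl * tau * nl
      + SNN / (n - 1) * nl + KA * n * nl + 3 / 16 * SU + 1 / (16 * (n - 1)) * SU * nl := by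
      rw [Finset.sum_add_distrib, Finset.sum_add_distrib, Finset.sum_const, Finset.sum_const,
        ← Finset.mul_sum, nsmul_eq_mul, nsmul_eq_mul]
      ring
    rw [h2] at h1
    exact h1
  -- the heavy points
  have hpop : (n - nl) * (eps0 * n / 2) ≤ D := by
    have h1 : (n - nl) = ((univ \ O).card : ℝ) := by
      rw [Finset.card_sdiff_of_subset (Finset.subset_univ O), Finset.card_univ,
        Nat.cast_sub (Finset.card_le_univ O)]
      rfl
    have h2 : ∀ x ∈ univ \ O, eps0 * n / 2 ≤ ((∑ y ∈ univ.filter (fun y => y ≠ x), (2 * r - g.d x y) : ℕ) : ℝ) := by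
      intro x hx
      have hx' : ¬ (((g.ball (2 * r - 1) x).card : ℝ) ≤ eps0 * n) := by
        intro hle
        have : x ∈ O := mem_filter.2 ⟨mem_univ _, hle⟩
        exact (mem_sdiff.1 hx).2 this
      push Not at hx'
      have h3 : ((g.ball (2 * r - 1) x).erase x).card ≤ ∑ y ∈ univ.filter (fun y => y ≠ x), (2 * r - g.d x y) := by
        rw [Finset.card_eq_sum_ones]
        have hsub : (g.ball (2 * r - 1) x).erase x ⊆ univ.filter (fun y => y ≠ x) := by
          intro y hy
          simp only [mem_filter, mem_univ, true_and]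
          exact (mem_erase.1 hy).1
        refine le_trans ?_ (Finset.sum_le_sum_of_subset hsub)
        refine Finset.sum_le_sum fun y hy => ?_
        have := (mem_filter.1 (mem_erase.1 hy).2).2
        omega
      have hxb : x ∈ g.ball (2 * r - 1) x := by
        refine mem_filter.2 ⟨mem_univ _, ?_⟩
        rw [g.dself]; omega
      have h4 : (((g.ball (2 * r - 1) x).erase x).card : ℝ) = ((g.ball (2 * r - 1) x).card : ℝ) - 1 := by
        rw [Finset.card_erase_of_mem hxb, Nat.cast_sub (Finset.card_pos.2 ⟨x, hxb⟩)]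
        simp
      have h5 : (((g.ball (2 * r - 1) x).erase x).card : ℝ) ≤
          ((∑ y ∈ univ.filter (fun y => y ≠ x), (2 * r - g.d x y) : ℕ) : ℝ) := by exact_mod_cast h3
      have h6 : 2 ≤ eps0 * n := by
        have h7 : 2 / eps0 ≤ n := by
          have h2 : 0 < (1 / eta) * (1 / eta) := by positivity
          linarith
        rw [div_le_iff₀ he0] at h7
        linarith
      linarith
    have h3 : (∑ x ∈ univ \ O, (eps0 * n / 2)) ≤ D := by
      refine (Finset.sum_le_sum h2).trans ?_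
      rw [hD]
      unfold Geo.D2
      push_cast
      exact Finset.sum_le_sum_of_subset_of_nonneg (Finset.subset_univ _)
        (fun _ _ _ => Finset.sum_nonneg fun _ _ => by positivity)
    rw [Finset.sum_const, nsmul_eq_mul, ← h1] at h3
    exact h3
  exact one_glob hrr hK0 he0 hn2 hss hs1 hnl0 hnln hKA0 hDH htauK htau0 hD2 hSU0 hSNN0 hSNNle hD0 hpop hsum

end Pool.Agent.Wi
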