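import Pool.Agent.Wi.Str2

/-! MODULE STRB (blueprint section 7). -/

namespace Pool.Agent.Wi

open Finset
open scoped Classical

section
variable {V : Type} [Fintype V] {g : Geo V} {r : ℕ}

/-- (module STR-B) existence of the pre-core. -/
theorem precore (hr : 2 ≤ r) (diam : ∀ x y, g.d x y ≤ 2 * r) (β b1 : ℝ) (hb : β ≤ b1) (θ A : ℝ) (hθ : 0 < θ)
    (hA : ((smid g r β).card : ℝ) ≤ A) (hclose : ((close g r).card : ℝ) + A < θ ^ 2) :
    ∃ pc : PreCore g r, pc.M = bigM g r b1 ∧ pc.β = β ∧
      ((univ \ pc.U0).card : ℝ) ≤ ∑ m ∈ bigM g r β \ bigM g r b1, ((g.ball r m).card : ℝ)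
        + (((bigM g r b1).biUnion (fun m => g.ball (r - 1) m)).card : ℝ)
        + ∑ m ∈ bigM g r b1, ∑ m' ∈ (bigM g r b1).filter (fun m' => m' ≠ m), ∑ j ∈ Ico 1 r, ((V0 g r m m' j).card : ℝ)
        + 2 ^ (bigM g r b1).card * θ := by
  set M := bigM g r b1 with hM
  set X1 : Finset V := (bigM g r β \ M).biUnion (fun m => g.ball r m) with hX1
  set X2 : Finset V := M.biUnion (fun m => g.ball (r - 1) m) with hX2
  set X3 : Finset V := M.biUnion (fun m => (M.filter (fun m' => m' ≠ m)).biUnion
    (fun m' => (Ico 1 r).biUnion (fun j => V0 g r m m' j))) with hX3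
  set R : Finset V := univ.filter (fun y => y ∉ X1 ∧ y ∉ X2 ∧ y ∉ X3) with hR
  set t : V → Finset V := fun y => M.filter (fun m => g.d y m = r) with ht
  set X4 : Finset V := R.filter (fun y => ((R.filter (fun y' => t y' = t y)).card : ℝ) < θ) with hX4
  set U0 : Finset V := R.filter (fun y => θ ≤ ((R.filter (fun y' => t y' = t y)).card : ℝ)) with hU0
  have hbig : ∀ y ∈ R, ∀ m, g.d y m = r → β < ((g.ball r m).card : ℝ) → m ∈ M := by
    intro y hy m hd hβ
    by_contra hmM
    rw [hR, mem_filter] at hy
    apply hy.2.1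
    rw [hX1, mem_biUnion]
    refine ⟨m, ?_, ?_⟩
    · rw [mem_sdiff]
      refine ⟨?_, hmM⟩
      unfold bigM
      rw [mem_filter]
      exact ⟨mem_univ _, hβ⟩
    · unfold Geo.ball
      rw [mem_filter]
      exact ⟨mem_univ _, by rw [g.symm]; omega⟩
  have hmeet : ∀ y ∈ U0, ∀ y' ∈ U0, ∃ m ∈ M, g.d y m = r ∧ g.d y' m = r := by
    intro y hy y' hy'
    by_contra hno
    push Not at hno
    rw [hU0, mem_filter] at hy hy'
    set T := R.filter (fun z => t z = t y) with hT
    set T' := R.filter (fun z => t z = t y') with hT'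
    have hsub : T ×ˢ T' ⊆ close g r ∪ smid g r β := by
      rintro ⟨z, z'⟩ hz
      have hz := (mem_product.1 hz)
      simp only at hz
      have hz : (z ∈ R ∧ t z = t y) ∧ (z' ∈ R ∧ t z' = t y') := ⟨mem_filter.1 hz.1, mem_filter.1 hz.2⟩
      rw [mem_union]
      by_cases hlt : g.d z z' < 2 * r
      · left; unfold close; rw [mem_filter]; exact ⟨mem_univ _, hlt⟩
      · right
        have hd : g.d z z' = 2 * r := le_antisymm (diam _ _) (not_lt.1 hlt)
        unfold smid
        rw [mem_filter]
        refine ⟨mem_univ _, hd, ?_⟩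
        simp only
        by_contra hlt2
        push Not at hlt2
        have h1 : g.d z (g.P z z' r) = r := g.dl z z' r (by omega)
        have h2 : g.d z' (g.P z z' r) = r := by
          rw [g.symm, g.dr z z' r (by omega), hd]; omega
        have hm := hbig z hz.1.1 _ h1 hlt2
        have e1 : g.P z z' r ∈ t z := by rw [ht]; simp only; rw [mem_filter]; exact ⟨hm, h1⟩
        have e2 : g.P z z' r ∈ t z' := by rw [ht]; simp only; rw [mem_filter]; exact ⟨hm, h2⟩
        rw [hz.1.2, ht] at e1
        rw [hz.2.2, ht] at e2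
        simp only at e1 e2
        rw [mem_filter] at e1 e2
        exact hno _ hm e1.2 e2.2
    have hcard := (card_le_card hsub).trans (card_union_le _ _)
    rw [card_product] at hcard
    have hcard' : (T.card : ℝ) * (T'.card : ℝ) ≤ ((close g r).card : ℝ) + ((smid g r β).card : ℝ) := by
      exact_mod_cast hcard
    have h1 : θ * θ ≤ (T.card : ℝ) * (T'.card : ℝ) := mul_le_mul hy.2 hy'.2 hθ.le (by positivity)
    nlinarith
  refine ⟨⟨U0, M, β, ?_, ?_, hmeet, ?_⟩, rfl, rfl, ?_⟩
  · intro y hy m hm
    by_contra hlt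
    push Not at hlt
    rw [hU0, mem_filter, hR, mem_filter] at hy
    apply hy.1.2.2.1
    rw [hX2, mem_biUnion]
    refine ⟨m, hm, ?_⟩
    unfold Geo.ball
    rw [mem_filter]
    exact ⟨mem_univ _, by rw [g.symm]; omega⟩
  · intro y hy m hm m' hm' hd hd' j hj
    rcases Nat.eq_zero_or_pos j with rfl | hj1
    · rw [g.P0, g.P0]
    by_contra hne
    have hmm : m' ≠ m := by
      rintro rfl
      exact hne rfl
    rw [hU0, mem_filter, hR, mem_filter] at hy
    apply hy.1.2.2.2
    rw [hX3, mem_biUnion]
    refine ⟨m, hm, ?_⟩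
    rw [mem_biUnion]
    refine ⟨m', by rw [mem_filter]; exact ⟨hm', hmm⟩, ?_⟩
    rw [mem_biUnion]
    refine ⟨j, by rw [mem_Ico]; omega, ?_⟩
    unfold V0
    rw [mem_filter]
    exact ⟨mem_univ _, hd, hd', hne⟩
  · intro y hy m hd hβ
    rw [hU0, mem_filter] at hy
    exact hbig y hy.1 m hd hβ
  · show ((univ \ U0).card : ℝ) ≤ _
    have hsub : univ \ U0 ⊆ X1 ∪ X2 ∪ X3 ∪ X4 := by
      intro y hy
      rw [mem_sdiff] at hy
      by_cases hyR : y ∈ R
      · have h4 : y ∈ X4 := by
          rw [hX4, mem_filter]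
          refine ⟨hyR, ?_⟩
          by_contra hlt
          push Not at hlt
          apply hy.2
          rw [hU0, mem_filter]
          exact ⟨hyR, hlt⟩
        exact mem_union_right _ h4
      · rw [hR, mem_filter] at hyR
        rw [mem_union, mem_union, mem_union]
        have := mem_univ y
        tauto
    have hc4 : (X4.card : ℝ) ≤ 2 ^ M.card * θ := by
      have h1 : X4.card = ∑ s ∈ M.powerset, (X4.filter (fun y => t y = s)).card := by
        apply card_eq_sum_card_fiberwise
        intro y _
        rw [Finset.mem_coe, mem_powerset]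
        exact filter_subset _ _
      rw [h1]
      push_cast
      have h2 : ∀ s ∈ M.powerset, ((X4.filter (fun y => t y = s)).card : ℝ) ≤ θ := by
        intro s _
        by_cases hne : (X4.filter (fun y => t y = s)).Nonempty
        · obtain ⟨y, hy⟩ := hne
          rw [mem_filter] at hy
          have hy4 := hy.1
          rw [hX4, mem_filter] at hy4
          refine le_trans ?_ hy4.2.le
          norm_cast
          apply card_le_card
          intro z hz
          rw [mem_filter] at hz ⊢
          have hz4 := hz.1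
          rw [hX4, mem_filter] at hz4
          exact ⟨hz4.1, by rw [hz.2, hy.2]⟩
        · rw [not_nonempty_iff_eq_empty.1 hne]
          simpa using hθ.le
      refine (sum_le_sum h2).trans ?_
      rw [sum_const, card_powerset]
      simp
    have hc1 : (X1.card : ℝ) ≤ ∑ m ∈ bigM g r β \ M, ((g.ball r m).card : ℝ) := by
      have := card_biUnion_le (s := bigM g r β \ M) (t := fun m => g.ball r m)
      exact_mod_cast this
    have hc3 : (X3.card : ℝ) ≤ ∑ m ∈ M, ∑ m' ∈ M.filter (fun m' => m' ≠ m), ∑ j ∈ Ico 1 r, ((V0 g r m m' j).card : ℝ) := by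
      have : X3.card ≤ ∑ m ∈ M, ∑ m' ∈ M.filter (fun m' => m' ≠ m), ∑ j ∈ Ico 1 r, (V0 g r m m' j).card := by
        refine card_biUnion_le.trans (sum_le_sum fun m _ => ?_)
        refine card_biUnion_le.trans (sum_le_sum fun m' _ => ?_)
        exact card_biUnion_le
      exact_mod_cast this
    have hc : (univ \ U0).card ≤ X1.card + X2.card + X3.card + X4.card := by
      refine (card_le_card hsub).trans ?_
      refine (card_union_le _ _).trans ?_
      gcongr
      refine (card_union_le _ _).trans ?_
      gcongr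
      exact card_union_le _ _
    have hc' : ((univ \ U0).card : ℝ) ≤ (X1.card : ℝ) + X2.card + X3.card + X4.card := by exact_mod_cast hc
    linarith

end

end Pool.Agent.Wi
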