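import Pool.Agent.Wi.Str2
import Pool.Agent.Wi.SRC

/-! MODULE STRC (blueprint section 7). -/

namespace Pool.Agent.Wi

open Finset
open scoped Classical

section
variable {V : Type} [Fintype V] {g : Geo V} {r : ℕ}

/-- (module STR-C) the close pairs are few. -/
theorem close_card (hr : 1 ≤ r) : (close g r).card ≤ g.D2 r + Fintype.card V := by
  have h1 : (close g r).card = ∑ x : V, ∑ y : V, if g.d x y < 2 * r then 1 else 0 := by
    unfold close
    rw [card_filter, ← Finset.univ_product_univ, Finset.sum_product]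
  have h2 : ∀ x : V, (∑ y : V, if g.d x y < 2 * r then 1 else 0) ≤
      (∑ y ∈ univ.filter (fun y => y ≠ x), (2 * r - g.d x y)) + 1 := by
    intro x
    rw [← Finset.sum_filter_add_sum_filter_not univ (fun y => y ≠ x)]
    refine Nat.add_le_add ?_ ?_
    · refine Finset.sum_le_sum fun y _ => ?_
      split_ifs with h
      · omega
      · exact Nat.zero_le _
    · have h3 : univ.filter (fun y => ¬ y ≠ x) = {x} := by
        ext y
        simp
      rw [h3, Finset.sum_singleton]
      split_ifs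
      · exact le_rfl
      · exact Nat.zero_le _
  rw [h1]
  refine (Finset.sum_le_sum fun x _ => h2 x).trans ?_
  rw [Finset.sum_add_distrib, Geo.D2, Finset.sum_const, card_univ, smul_eq_mul, mul_one]

/-- near charges live on pairs at distance at most `2 r - 2`. -/
theorem near_dist (hr : 1 ≤ r) (O : Finset V) (e L : ℝ) (o p q : V)
    (h : 0 < (S1 g r hr O).near e L o p q) : g.d p q + 2 ≤ 2 * r ∧ 2 ≤ (S1 g r hr O).near e L o p q ∧
      q ∈ (S1 g r hr O).Cl e o ((S1 g r hr O).cls o p) ∧ ((((S1 g r hr O).Cl e o ((S1 g r hr O).cls o p)).card : ℝ) ≤ L) := by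
  set s := S1 g r hr O with hs
  have h0 := h
  unfold Src.near at h0
  have h1 : p ≠ q ∧ p ∈ s.Sm e L o ∧ q ∈ s.Sm e L o := by
    by_contra hc
    rw [if_neg hc] at h0
    exact lt_irrefl _ h0
  rw [if_pos h1] at h0
  obtain ⟨hpq, hp, hq⟩ := h1
  have hk : 0 < s.kap o p q := by omega
  unfold Src.kap at hk
  obtain ⟨k, hk⟩ := card_pos.1 hk
  rw [mem_filter, mem_Ico] at hk
  have hr2 : 2 ≤ r := by omega
  obtain ⟨_, _, _, hc⟩ := (s.near_pos_iff hr2 e L o p q).1 h
  have hpF : p ∈ s.Fe e o := (mem_filter.1 hp).1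
  have hqF : q ∈ s.Fe e o := (mem_filter.1 hq).1
  have hd := s.cls_dist hr (mem_filter.1 hpF).1 (mem_filter.1 hqF).1 hc
  refine ⟨by omega, s.two_le_near hr2 e L o p q h, ?_, (mem_filter.1 hp).2⟩
  unfold Src.Cl
  rw [mem_filter]
  exact ⟨hqF, hc.symm⟩

/-- size of the efficient hub sets. -/
theorem E_card (hr : 1 ≤ r) (O : Finset V) (e : ℝ) (he : 0 < e) (x : V) :
    (((S1 g r hr O).E e x).card : ℝ) ≤ r * (Fintype.card V : ℝ) / e := by
  rw [le_div_iff₀ he]
  refine ((S1 g r hr O).card_E_mul_le he x).trans ?_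
  have h1 : (((S1 g r hr O).F x).card : ℝ) ≤ (Fintype.card V : ℝ) := by
    exact_mod_cast Finset.card_le_univ _
  exact mul_le_mul_of_nonneg_left h1 (Nat.cast_nonneg _)

end

end Pool.Agent.Wi
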