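import Pool.Agent.Wi.STRC

/-! MODULE STRD (blueprint section 7). -/

namespace Pool.Agent.Wi

open Finset
open scoped Classical

section
variable {V : Type} [Fintype V] {g : Geo V} {r : ℕ}

private theorem atyp_sum (pc : PreCore g r) (A : Finset V) (hA : A ⊆ pc.U0) :
    (∑ u ∈ A, ((pc.U0.filter (fun y => ¬ pc.Typ u y)).card : ℝ)) ≤ (pc.atyp.card : ℝ) := by
  have h1 : pc.atyp.card = ∑ u ∈ pc.U0, (pc.U0.filter (fun y => ¬ pc.Typ u y)).card := by
    unfold PreCore.atyp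
    rw [card_filter, sum_product]
    refine sum_congr rfl fun u _ => ?_
    rw [card_filter]
  rw [h1]
  push_cast
  exact sum_le_sum_of_subset_of_nonneg hA (fun _ _ _ => by positivity)

/-- (module STR-D) the vertices in small level 1 clusters are few. -/
theorem PreCore.X5_card (pc : PreCore g r) (hr : 2 ≤ r) (O : Finset V) (e L D : ℝ) (he : 0 < e) (o1 : V)
    (hE : ∀ w, (((S1 g r (by omega) O).E e w).card : ℝ) ≤ D) :
    ((pc.U0 ∩ O).card : ℝ) * ((pc.X5 e).card : ℝ) ≤ 2 * (pc.atyp.card : ℝ)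
      + (Fintype.card V : ℝ) * ((univ \ pc.U0).card : ℝ)
      + e / 2 * (Unc1 g r (by omega) O e L o1 : ℝ)
      + e / 2 * D * ((pc.M.biUnion (fun m => g.ball (r - 1) m)).card : ℝ) := by
  have h1r : 1 ≤ r := by omega
  set s : Src g r := S1 g r h1r O with hs
  set b := s.near e L o1 with hb
  set BM := pc.M.biUnion (fun m => g.ball (r - 1) m) with hBM
  let At : V → Finset V := fun u => pc.U0.filter (fun y => ¬ pc.Typ u y)
  let W1 : V → Finset V := fun u => ((pc.X5 e).filter (fun y => pc.Typ u y)).image (fun y => pc.om y 1)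
  let cw : V → Finset V := fun w => pc.U0.filter (fun y => pc.om y 1 = w)
  let N : V → V → Finset V := fun u w => (s.Z u w).filter (fun t => t ∉ pc.U0 ∨ ¬ pc.Typ u t)
  have hW1 : ∀ u w, w ∈ W1 u → ∃ y, y ∈ pc.X5 e ∧ pc.Typ u y ∧ pc.om y 1 = w := by
    intro u w hw
    obtain ⟨y, hy, h2⟩ := mem_image.1 hw
    exact ⟨y, (mem_filter.1 hy).1, (mem_filter.1 hy).2, h2⟩
  have hX5 : ∀ y ∈ pc.X5 e, y ∈ pc.U0 ∧ ((cw (pc.om y 1)).card : ℝ) < e / 2 := by
    intro y hy
    exact mem_filter.1 hy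
  -- geometry
  have hdw : ∀ u ∈ pc.U0, ∀ w ∈ W1 u, g.d u w = 2 * r - 1 ∧ w ≠ u ∧ w ∈ BM ∧ ((cw w).card : ℝ) < e / 2 := by
    intro u hu w hw
    obtain ⟨y, hy, hty, rfl⟩ := hW1 u w hw
    obtain ⟨hyU, hcy⟩ := hX5 y hy
    have h1 := pc.typ_hub hu hyU hty (j := 1) (by omega)
    have hd : g.d y u = 2 * r := by rw [g.symm]; exact hty.1
    have h2 := g.dr y u 1 (by omega)
    rw [h1, hd] at h2
    have h3 : g.d u (pc.om y 1) = 2 * r - 1 := by rw [g.symm]; exact h2
    refine ⟨h3, ?_, ?_, hcy⟩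
    · intro heq
      rw [heq, g.dself] at h3
      omega
    · obtain ⟨hm, hdm⟩ := pc.tm_spec hyU
      rw [hBM, mem_biUnion]
      refine ⟨pc.tm y, hm, ?_⟩
      unfold Geo.ball
      rw [mem_filter]
      refine ⟨mem_univ _, ?_⟩
      rw [g.symm, pc.om_dM hyU hm hdm (j := 1) (by omega)]
  -- covering of X5
  have hcov : ∀ u ∈ pc.U0 ∩ O, ((pc.X5 e).card : ℝ) ≤ ((At u).card : ℝ) + ∑ w ∈ W1 u, ((cw w).card : ℝ) := by
    intro u hu
    have hsub : pc.X5 e ⊆ At u ∪ (W1 u).biUnion cw := by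
      intro y hy
      obtain ⟨hyU, -⟩ := hX5 y hy
      rw [mem_union]
      by_cases ht : pc.Typ u y
      · right
        rw [mem_biUnion]
        exact ⟨pc.om y 1, mem_image.2 ⟨y, mem_filter.2 ⟨hy, ht⟩, rfl⟩, mem_filter.2 ⟨hyU, rfl⟩⟩
      · left
        exact mem_filter.2 ⟨hyU, ht⟩
    have h1 := (card_le_card hsub).trans ((card_union_le _ _).trans (Nat.add_le_add_left card_biUnion_le _))
    exact_mod_cast h1
  -- one hub
  have hone : ∀ u ∈ pc.U0 ∩ O, ∀ w ∈ W1 u, ((cw w).card : ℝ) ≤ ((N u w).card : ℝ)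
      + e / 2 * (s.unc e b u w : ℝ) + e / 2 * (if u ∈ s.E e w then 1 else 0) := by
    intro u hu w hw
    obtain ⟨huU, huO⟩ := mem_inter.1 hu
    obtain ⟨h1, h2, h3, h4⟩ := hdw u huU w hw
    have hn1 : (0 : ℝ) ≤ ((N u w).card : ℝ) := by positivity
    have hn2 : (0 : ℝ) ≤ e / 2 * (s.unc e b u w : ℝ) := by positivity
    have hn3 : (0 : ℝ) ≤ e / 2 * (if u ∈ s.E e w then 1 else 0) := by
      split_ifs
      · linarith
      · simp
    by_cases hwE : w ∈ s.E e u
    · -- large Z u w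
      have h5 : e ≤ ((s.Z u w).card : ℝ) := (mem_filter.1 hwE).2.2
      have h6 : s.Z u w ⊆ N u w ∪ cw w := by
        intro t ht
        rw [mem_union]
        by_cases hh : t ∈ pc.U0 ∧ pc.Typ u t
        · right
          refine mem_filter.2 ⟨hh.1, ?_⟩
          have e1 := pc.typ_hub huU hh.1 hh.2 (j := 1) (by omega)
          obtain ⟨-, -, -, -, e2⟩ := s.Z_geo ht
          rw [h1, show 2 * r - (2 * r - 1) = 1 by omega, e1] at e2
          exact e2
        · left
          refine mem_filter.2 ⟨ht, ?_⟩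
          by_contra hc
          push Not at hc
          exact hh ⟨hc.1, hc.2⟩
      have h7 : ((s.Z u w).card : ℝ) ≤ ((N u w).card : ℝ) + ((cw w).card : ℝ) := by
        exact_mod_cast (card_le_card h6).trans (card_union_le _ _)
      linarith
    · by_cases huE : u ∈ s.E e w
      · rw [if_pos huE] at hn3 ⊢
        linarith
      · have h5 : s.unc e b u w = 1 := by
          unfold Src.unc
          rw [if_neg (by tauto)]
          have h6 : b u w = 0 := by
            by_contra hne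
            have := (near_dist h1r O e L o1 u w (Nat.pos_of_ne_zero hne)).1
            omega
          rw [h6, h1]
          omega
        rw [h5]
        push_cast
        linarith
  -- the sets N u w are disjoint
  have hN : ∀ u ∈ pc.U0 ∩ O, (∑ w ∈ W1 u, ((N u w).card : ℝ)) ≤ ((univ \ pc.U0).card : ℝ) + ((At u).card : ℝ) := by
    intro u hu
    obtain ⟨huU, huO⟩ := mem_inter.1 hu
    have h1 : (∑ w ∈ W1 u, (N u w).card) = ((W1 u).biUnion (N u)).card := by
      rw [card_biUnion]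
      intro w hw w' hw' hne
      rw [Function.onFun, disjoint_left]
      intro t ht ht'
      exact hne (s.Z_disjoint (mem_filter.1 ht).1 (mem_filter.1 ht').1
        (by rw [(hdw u huU w hw).1, (hdw u huU w' hw').1]))
    have h2 : (W1 u).biUnion (N u) ⊆ (univ \ pc.U0) ∪ At u := by
      intro t ht
      obtain ⟨w, -, ht⟩ := mem_biUnion.1 ht
      obtain ⟨-, h3⟩ := mem_filter.1 ht
      rw [mem_union, mem_sdiff]
      by_cases h4 : t ∈ pc.U0
      · right
        exact mem_filter.2 ⟨h4, h3.resolve_left (fun hh => hh h4)⟩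
      · left
        exact ⟨mem_univ _, h4⟩
    have h3 := h1.le.trans ((card_le_card h2).trans (card_union_le _ _))
    exact_mod_cast h3
  have hUnc : (∑ u ∈ pc.U0 ∩ O, ∑ w ∈ W1 u, (s.unc e b u w : ℝ)) ≤ (Unc1 g r h1r O e L o1 : ℝ) := by
    unfold Unc1 Src.Unc
    push_cast
    refine le_trans ?_ (sum_le_sum_of_subset_of_nonneg (subset_univ (pc.U0 ∩ O)) ?_)
    · refine sum_le_sum fun u hu => ?_
      refine sum_le_sum_of_subset_of_nonneg ?_ (fun _ _ _ => by positivity)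
      intro w hw
      exact mem_filter.2 ⟨mem_univ _, (hdw u (mem_inter.1 hu).1 w hw).2.1⟩
    · intro u _ _
      positivity
  have hEs : (∑ u ∈ pc.U0 ∩ O, ∑ w ∈ W1 u, (if u ∈ s.E e w then (1 : ℝ) else 0)) ≤ D * (BM.card : ℝ) := by
    have h1 : (∑ u ∈ pc.U0 ∩ O, ∑ w ∈ W1 u, (if u ∈ s.E e w then (1 : ℝ) else 0)) ≤
        ∑ u ∈ pc.U0 ∩ O, ∑ w ∈ BM, (if u ∈ s.E e w then (1 : ℝ) else 0) := by
      refine sum_le_sum fun u hu => ?_
      refine sum_le_sum_of_subset_of_nonneg (fun w hw => (hdw u (mem_inter.1 hu).1 w hw).2.2.1) ?_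
      intro w _ _
      split_ifs <;> norm_num
    refine h1.trans ?_
    rw [sum_comm]
    have h2 : ∀ w ∈ BM, (∑ u ∈ pc.U0 ∩ O, (if u ∈ s.E e w then (1 : ℝ) else 0)) ≤ D := by
      intro w _
      rw [← sum_filter, sum_const, nsmul_eq_mul, mul_one]
      refine le_trans ?_ (hE w)
      have : ((pc.U0 ∩ O).filter (fun u => u ∈ s.E e w)) ⊆ s.E e w := fun u hu => (mem_filter.1 hu).2
      exact_mod_cast card_le_card this
    refine (sum_le_sum h2).trans ?_
    rw [sum_const, nsmul_eq_mul, mul_comm]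
  have hAt : (∑ u ∈ pc.U0 ∩ O, ((At u).card : ℝ)) ≤ (pc.atyp.card : ℝ) :=
    atyp_sum pc _ inter_subset_left
  have hcn : ((pc.U0 ∩ O).card : ℝ) ≤ (Fintype.card V : ℝ) := by
    exact_mod_cast card_le_univ _
  calc ((pc.U0 ∩ O).card : ℝ) * ((pc.X5 e).card : ℝ)
      = ∑ u ∈ pc.U0 ∩ O, ((pc.X5 e).card : ℝ) := by rw [sum_const, nsmul_eq_mul]
    _ ≤ ∑ u ∈ pc.U0 ∩ O, (((At u).card : ℝ) + (((univ \ pc.U0).card : ℝ) + ((At u).card : ℝ))
          + e / 2 * (∑ w ∈ W1 u, (s.unc e b u w : ℝ))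
          + e / 2 * (∑ w ∈ W1 u, (if u ∈ s.E e w then (1 : ℝ) else 0))) := by
        refine sum_le_sum fun u hu => ?_
        have h1 := hcov u hu
        have h2 : (∑ w ∈ W1 u, ((cw w).card : ℝ)) ≤ (∑ w ∈ W1 u, ((N u w).card : ℝ))
            + e / 2 * (∑ w ∈ W1 u, (s.unc e b u w : ℝ))
            + e / 2 * (∑ w ∈ W1 u, (if u ∈ s.E e w then (1 : ℝ) else 0)) := by
          rw [mul_sum, mul_sum, ← sum_add_distrib, ← sum_add_distrib]
          exact sum_le_sum fun w hw => hone u hu w hw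
        have h3 := hN u hu
        linarith
    _ = 2 * (∑ u ∈ pc.U0 ∩ O, ((At u).card : ℝ)) + ((pc.U0 ∩ O).card : ℝ) * ((univ \ pc.U0).card : ℝ)
          + e / 2 * (∑ u ∈ pc.U0 ∩ O, ∑ w ∈ W1 u, (s.unc e b u w : ℝ))
          + e / 2 * (∑ u ∈ pc.U0 ∩ O, ∑ w ∈ W1 u, (if u ∈ s.E e w then (1 : ℝ) else 0)) := by
        rw [sum_add_distrib, sum_add_distrib, sum_add_distrib, sum_add_distrib, sum_const,
          nsmul_eq_mul, ← mul_sum, ← mul_sum]
        ring
    _ ≤ _ := by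
        have h1 : ((pc.U0 ∩ O).card : ℝ) * ((univ \ pc.U0).card : ℝ) ≤
            (Fintype.card V : ℝ) * ((univ \ pc.U0).card : ℝ) :=
          mul_le_mul_of_nonneg_right hcn (by positivity)
        have h2 : e / 2 * (∑ u ∈ pc.U0 ∩ O, ∑ w ∈ W1 u, (s.unc e b u w : ℝ)) ≤
            e / 2 * (Unc1 g r h1r O e L o1 : ℝ) := mul_le_mul_of_nonneg_left hUnc (by linarith)
        have h3 : e / 2 * (∑ u ∈ pc.U0 ∩ O, ∑ w ∈ W1 u, (if u ∈ s.E e w then (1 : ℝ) else 0)) ≤
            e / 2 * (D * (BM.card : ℝ)) := mul_le_mul_of_nonneg_left hEs (by linarith)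
        linarith

end

end Pool.Agent.Wi
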