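import Pool.Agent.Wi.STRC

/-! MODULE STRE (blueprint section 7). -/

namespace Pool.Agent.Wi

open Finset
open scoped Classical

section
variable {V : Type} [Fintype V] {g : Geo V} {r : ℕ}

/-- two vertices in the same root cluster are at distance at most `2 r - 2`. -/
theorem PreCore.root_dist (pc : PreCore g r) (hr : 2 ≤ r) {x y : V} (hx : x ∈ pc.U0)
    (hy : y ∈ pc.U0) (h : pc.om y (r - 1) = pc.om x (r - 1)) : g.d x y + 2 ≤ 2 * r := by
  have h1 := pc.om_dist hx (j := r - 1) (by omega)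
  have h2 := pc.om_dist hy (j := r - 1) (by omega)
  have h3 := g.tri x (pc.om x (r - 1)) y
  rw [h] at h2
  rw [g.symm (pc.om x (r - 1)) y] at h3
  omega

/-- (module STR-E) the vertices in large root clusters are few. -/
theorem PreCore.X6_card (pc : PreCore g r) (hr : 2 ≤ r) (O : Finset V) (e L L' D : ℝ) (o1 : V) (hL : 0 ≤ L)
    (hE : ∀ w, (((S1 g r (by omega) O).E e w).card : ℝ) ≤ D) :
    2 * (L' - 1 - L - 2 * D) * ((pc.X6 e L').card : ℝ) ≤ (Unc1 g r (by omega) O e L o1 : ℝ) := by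
  set s := S1 g r (by omega) O with hs
  set X := pc.X6 e L' with hX
  have hXU : ∀ x ∈ X, x ∈ pc.U1 e := fun x hx => by
    rw [hX, PreCore.X6, mem_filter] at hx
    exact hx.1
  have hXU0 : ∀ x ∈ X, x ∈ pc.U0 := fun x hx => by
    have h := hXU x hx
    rw [PreCore.U1, mem_sdiff] at h
    exact h.1
  -- the cluster of `x`
  let cl : V → Finset V := fun x => (pc.U1 e).filter (fun y => pc.om y (r - 1) = pc.om x (r - 1))
  have hclX : ∀ x ∈ X, ∀ y ∈ cl x, y ∈ X := by
    intro x hx y hy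
    rw [hX, PreCore.X6, mem_filter] at hx ⊢
    rw [mem_filter] at hy
    refine ⟨hy.1, ?_⟩
    rw [hy.2]
    exact hx.2
  have hcard : ∀ x ∈ X, L' < ((cl x).card : ℝ) := by
    intro x hx
    rw [hX, PreCore.X6, mem_filter] at hx
    exact hx.2
  have hself : ∀ x ∈ X, x ∈ cl x := fun x hx => mem_filter.2 ⟨hXU x hx, rfl⟩
  -- the pointwise bound
  have hpt : ∀ x ∈ X, ∀ y ∈ (cl x).erase x, (2 : ℝ) * (1 - (if 0 < s.near e L o1 x y then 1 else 0) -
      (if y ∈ s.E e x then 1 else 0) - (if x ∈ s.E e y then 1 else 0)) ≤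
      (s.unc e (s.near e L o1) x y : ℝ) := by
    intro x hx y hy
    rw [mem_erase] at hy
    have hyX := hclX x hx y hy.2
    have hd := pc.root_dist hr (hXU0 x hx) (hXU0 y hyX) (mem_filter.1 hy.2).2
    have h0 : (0 : ℝ) ≤ (s.unc e (s.near e L o1) x y : ℝ) := Nat.cast_nonneg _
    by_cases h1 : 0 < s.near e L o1 x y
    · rw [if_pos h1]
      split_ifs <;> linarith
    · rw [if_neg h1]
      by_cases h2 : y ∈ s.E e x
      · rw [if_pos h2]
        split_ifs <;> linarith
      · rw [if_neg h2]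
        by_cases h3 : x ∈ s.E e y
        · rw [if_pos h3]
          linarith
        · rw [if_neg h3]
          have h4 : s.unc e (s.near e L o1) x y = 2 * r - g.d x y := by
            unfold Src.unc
            rw [if_neg (by tauto)]
            omega
          rw [h4]
          have h5 : 2 ≤ 2 * r - g.d x y := by omega
          have h6 : (2 : ℝ) ≤ ((2 * r - g.d x y : ℕ) : ℝ) := by exact_mod_cast h5
          linarith
  -- sum over `y`
  have hsum : ∀ x ∈ X, (2 : ℝ) * ((L' - 1) - L - D -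
      ∑ y ∈ X, (if x ∈ s.E e y then (1 : ℝ) else 0)) ≤
      ∑ y ∈ univ.filter (fun y => y ≠ x), (s.unc e (s.near e L o1) x y : ℝ) := by
    intro x hx
    have h1 : ∑ y ∈ (cl x).erase x, (s.unc e (s.near e L o1) x y : ℝ) ≤
        ∑ y ∈ univ.filter (fun y => y ≠ x), (s.unc e (s.near e L o1) x y : ℝ) := by
      refine Finset.sum_le_sum_of_subset_of_nonneg ?_ fun _ _ _ => Nat.cast_nonneg _
      intro y hy
      rw [mem_erase] at hy
      exact mem_filter.2 ⟨mem_univ _, hy.1⟩
    refine le_trans ?_ h1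
    refine le_trans ?_ (Finset.sum_le_sum (hpt x hx))
    rw [← Finset.mul_sum, Finset.sum_sub_distrib, Finset.sum_sub_distrib, Finset.sum_sub_distrib]
    have e1 : ∑ y ∈ (cl x).erase x, (1 : ℝ) = ((cl x).card : ℝ) - 1 := by
      rw [Finset.sum_const, nsmul_eq_mul, mul_one, Finset.card_erase_of_mem (hself x hx),
        Nat.cast_sub (Finset.card_pos.2 ⟨x, hself x hx⟩), Nat.cast_one]
    have e2 : ∑ y ∈ (cl x).erase x, (if 0 < s.near e L o1 x y then (1 : ℝ) else 0) ≤ L := by
      rw [← Finset.sum_filter, Finset.sum_const, nsmul_eq_mul, mul_one]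
      refine le_trans ?_ (s.card_mates_le hr e L hL o1 x)
      exact_mod_cast Finset.card_le_card (fun y hy => mem_filter.2 ⟨mem_univ _, (mem_filter.1 hy).2⟩)
    have e3 : ∑ y ∈ (cl x).erase x, (if y ∈ s.E e x then (1 : ℝ) else 0) ≤ D := by
      rw [← Finset.sum_filter, Finset.sum_const, nsmul_eq_mul, mul_one]
      refine le_trans ?_ (hE x)
      exact_mod_cast Finset.card_le_card (fun y hy => (mem_filter.1 hy).2)
    have e4 : ∑ y ∈ (cl x).erase x, (if x ∈ s.E e y then (1 : ℝ) else 0) ≤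
        ∑ y ∈ X, (if x ∈ s.E e y then (1 : ℝ) else 0) := by
      refine Finset.sum_le_sum_of_subset_of_nonneg ?_ fun _ _ _ => by split_ifs <;> norm_num
      intro y hy
      rw [mem_erase] at hy
      exact hclX x hx y hy.2
    have e5 := hcard x hx
    linarith
  -- sum over `x`
  have hU : (Unc1 g r (by omega) O e L o1 : ℝ) =
      ∑ x : V, ∑ y ∈ univ.filter (fun y => y ≠ x), (s.unc e (s.near e L o1) x y : ℝ) := by
    rw [Unc1, Src.Unc]
    push_cast
    rfl
  have h1 : ∑ x ∈ X, (2 : ℝ) * ((L' - 1) - L - D -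
      ∑ y ∈ X, (if x ∈ s.E e y then (1 : ℝ) else 0)) ≤ (Unc1 g r (by omega) O e L o1 : ℝ) := by
    rw [hU]
    refine le_trans (Finset.sum_le_sum hsum) ?_
    refine Finset.sum_le_sum_of_subset_of_nonneg (Finset.subset_univ _) fun x _ _ => ?_
    exact Finset.sum_nonneg fun _ _ => Nat.cast_nonneg _
  have h2 : ∑ x ∈ X, ∑ y ∈ X, (if x ∈ s.E e y then (1 : ℝ) else 0) ≤ D * (X.card : ℝ) := by
    rw [Finset.sum_comm]
    have h3 : ∀ y ∈ X, ∑ x ∈ X, (if x ∈ s.E e y then (1 : ℝ) else 0) ≤ D := by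
      intro y _
      rw [← Finset.sum_filter, Finset.sum_const, nsmul_eq_mul, mul_one]
      refine le_trans ?_ (hE y)
      exact_mod_cast Finset.card_le_card (fun x hx => (mem_filter.1 hx).2)
    refine le_trans (Finset.sum_le_sum h3) ?_
    rw [Finset.sum_const, nsmul_eq_mul, mul_comm]
  rw [← Finset.mul_sum, Finset.sum_sub_distrib, Finset.sum_const, nsmul_eq_mul] at h1
  have h4 : 2 * (L' - 1 - L - 2 * D) * (X.card : ℝ) =
      2 * ((X.card : ℝ) * ((L' - 1) - L - D) - D * (X.card : ℝ)) := by ring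
  rw [h4]
  linarith

end

end Pool.Agent.Wi
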