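import Pool.Agent.Wi.Str2

/-! MODULE STRF (blueprint section 7). -/

namespace Pool.Agent.Wi

open Finset
open scoped Classical

section
variable {V : Type} [Fintype V] {g : Geo V} {r : ℕ}

/-- (module STR-F) the hubs of the core are few. -/
theorem PreCore.W_card (pc : PreCore g r) (hr : 2 ≤ r) (e L' : ℝ) (he : 0 < e) :
    ((pc.core hr e L').W.card : ℝ) ≤ 2 * r / e * (Fintype.card V : ℝ) := by
  have hsub0 : ∀ y ∈ pc.Uc e L', y ∈ pc.U0 := fun y hy => pc.Uc_sub hy
  -- level one hubs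
  set H1 : Finset V := (pc.Uc e L').image (fun y => pc.om y 1) with hH1
  -- a chosen leaf below a level one hub
  let ch : V → V := fun h => if hh : ∃ y ∈ pc.Uc e L', pc.om y 1 = h then hh.choose else h
  have ch_spec : ∀ y ∈ pc.Uc e L', ch (pc.om y 1) ∈ pc.Uc e L' ∧ pc.om (ch (pc.om y 1)) 1 = pc.om y 1 := by
    intro y hy
    have hh : ∃ y' ∈ pc.Uc e L', pc.om y' 1 = pc.om y 1 := ⟨y, hy, rfl⟩
    have : ch (pc.om y 1) = hh.choose := by
      simp only [ch]
      rw [dif_pos hh]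
    rw [this]
    exact hh.choose_spec
  have hWsub : pc.Wc e L' ⊆ (H1 ×ˢ Ico 1 r).image (fun p => pc.om (ch p.1) p.2) := by
    intro w hw
    obtain ⟨y, hy, j, h1, h2, h3⟩ := pc.mem_Wc.1 hw
    rw [mem_image]
    refine ⟨(pc.om y 1, j), ?_, ?_⟩
    · rw [mem_product, mem_Ico]
      exact ⟨mem_image_of_mem _ hy, h1, h2⟩
    · obtain ⟨hc1, hc2⟩ := ch_spec y hy
      show pc.om (ch (pc.om y 1)) j = w
      rw [pc.om_up' (pc.Uc_sub hc1) (pc.Uc_sub hy) h1 h2 hc2, h3]
  have hW : (pc.Wc e L').card ≤ H1.card * (r - 1) := by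
    refine (card_le_card hWsub).trans (card_image_le.trans ?_)
    rw [card_product, Nat.card_Ico]
  have hH : (H1.card : ℝ) * (e / 2) ≤ (Fintype.card V : ℝ) := by
    have hfib : ∀ h ∈ H1, e / 2 ≤ ((pc.U0.filter (fun y' => pc.om y' 1 = h)).card : ℝ) := by
      intro h hh
      rw [hH1, mem_image] at hh
      obtain ⟨y, hy, rfl⟩ := hh
      by_contra hlt
      push Not at hlt
      have hy5 : y ∉ pc.X5 e := by
        have hy' := hy
        unfold PreCore.Uc PreCore.U1 at hy'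
        exact (mem_sdiff.1 (mem_sdiff.1 hy').1).2
      apply hy5
      unfold PreCore.X5
      rw [mem_filter]
      exact ⟨pc.Uc_sub hy, hlt⟩
    have hsum : ∑ h ∈ H1, (pc.U0.filter (fun y' => pc.om y' 1 = h)).card ≤ Fintype.card V := by
      rw [← card_biUnion]
      · exact card_le_univ _
      · intro a _ b _ hab
        rw [Function.onFun, disjoint_left]
        intro x hx hx'
        rw [mem_filter] at hx hx'
        exact hab (hx.2.symm.trans hx'.2)
    calc (H1.card : ℝ) * (e / 2) = ∑ _h ∈ H1, (e / 2) := by rw [sum_const, nsmul_eq_mul]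
      _ ≤ ∑ h ∈ H1, ((pc.U0.filter (fun y' => pc.om y' 1 = h)).card : ℝ) := sum_le_sum hfib
      _ ≤ (Fintype.card V : ℝ) := by exact_mod_cast hsum
  have hWW : (pc.core hr e L').W = pc.Wc e L' := rfl
  rw [hWW]
  have h1 : ((pc.Wc e L').card : ℝ) ≤ (H1.card : ℝ) * r := by
    have : (pc.Wc e L').card ≤ H1.card * r := hW.trans (Nat.mul_le_mul_left _ (Nat.sub_le _ _))
    exact_mod_cast this
  have hr0 : (0 : ℝ) ≤ r := Nat.cast_nonneg _
  have h2 : (H1.card : ℝ) ≤ 2 / e * (Fintype.card V : ℝ) := by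
    rw [div_mul_eq_mul_div, le_div_iff₀ he]
    linarith
  calc ((pc.Wc e L').card : ℝ) ≤ (H1.card : ℝ) * r := h1
    _ ≤ (2 / e * (Fintype.card V : ℝ)) * r := mul_le_mul_of_nonneg_right h2 hr0
    _ = 2 * r / e * (Fintype.card V : ℝ) := by ring

end

end Pool.Agent.Wi
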