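import Pool.Agent.Wi.STRA
import Pool.Agent.Wi.STRB
import Pool.Agent.Wi.STRC
import Pool.Agent.Wi.STRD
import Pool.Agent.Wi.STRE
import Pool.Agent.Wi.STRF

/-! MODULE STRG (blueprint section 7). -/

namespace Pool.Agent.Wi

open Finset
open scoped Classical

/-- one instance, one scale: explicit numeric form. -/
theorem str_one {r : ℕ} (hr : 2 ≤ r) {η C K1 K2 K4 KD KP : ℝ} (hη : 0 < η) (hC : 0 < C)
    (hK4 : 0 < K4)
    {V : Type} [Fintype V] {g : Geo V} {O : Finset V} {o1 : V} (h0 : Inst0 r (by omega) η C K1 K2 KD KP V g O o1)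
    {ε1 ε2 ξ0 th n s : ℝ} {mK : ℕ} (hn : n = (Fintype.card V : ℝ)) (hs : s = √(Fintype.card V : ℝ))
    (hε1 : 0 < ε1) (hε2 : 0 < ε2) (hε : ε2 ≤ ε1) (hξ : 0 < ξ0) (hξ1 : 40 * ξ0 ≤ 1) (hξ2 : 15 * ξ0 * (8 * r) ≤ η ^ 2)
    (hgapε : K2 * ε2 ≤ (ξ0 / 2 ^ mK) ^ 2 / 16)
    (hM : (bigM g r (ε1 * n)).card ≤ mK) (hth : th * r * (mK : ℝ) ^ 2 ≤ ξ0) (hth0 : 0 < th)
    (h53 : (((bigM g r (ε1 * n)).biUnion (fun m => g.ball (r - 1) m)).card : ℝ) ≤ K4 / ε1 * s)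
    (hUH : ∀ m ∈ bigM g r (ε1 * n), ∀ m' ∈ bigM g r (ε1 * n), m ≠ m' →
      ∀ j, 1 ≤ j → j < r → ((V0 g r m m' j).card : ℝ) ≤ th * n)
    (hgap : ∑ m ∈ bigM g r (ε2 * n) \ bigM g r (ε1 * n), ((g.ball r m).card : ℝ) ≤ ξ0 * n)
    (s1 : 1 ≤ s) (s2 : 8 ≤ η * s) (s3 : KD + 1 ≤ (ξ0 / 2 ^ mK) ^ 2 / 2 * s) (s4 : K4 / ε1 ≤ ξ0 * s)
    (s5 : 2 * (KD + 1) + η * K1 + r / 2 * (K4 / ε1) ≤ ξ0 / 2 * s) (s6 : KP ≤ 2 / 5 * s) (s7 : K1 ≤ ξ0 * s) :
    ∃ (c : Core g r) (β : ℝ),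
        c.Hyp (η * s) (C * s) ((C + 2 * r / η + 3) * s) β ∧
        β ≤ ξ0 * n + ε2 * n ∧
        (c.X.card : ℝ) ≤ 15 * ξ0 * n ∧
        (c.W.card : ℝ) ≤ 2 * r / η * s ∧
        c.M.card ≤ mK ∧
        ((∃ m0 ∈ c.M, ∀ p ∈ c.B, c.mm p = m0) ∨ (∀ y ∈ c.U, ∃ m' ∈ c.M, m' ≠ c.mm y ∧ g.d y m' = r)) := by
  have hr0 : (0 : ℝ) < r := by positivity
  have hs0 : 0 < s := by linarith
  have hns : n = s ^ 2 := by rw [hn, hs, Real.sq_sqrt (Nat.cast_nonneg _)]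
  have hn0 : 0 < n := by rw [hns]; positivity
  have hq : 0 < ξ0 / 2 ^ mK := by positivity
  -- the close pairs
  have hclose1 : ((close g r).card : ℝ) ≤ (KD + 1) * s ^ 3 := by
    have h1 : ((close g r).card : ℝ) ≤ (g.D2 r : ℝ) + n := by
      rw [hn]; exact_mod_cast close_card (by omega)
    have h2 : (g.D2 r : ℝ) ≤ KD * n * s := by rw [hn, hs]; exact h0.hD2
    have h3 : s ^ 2 ≤ s ^ 3 := pow_le_pow_right₀ s1 (by norm_num)
    have h4 : KD * n * s = KD * s ^ 3 := by rw [hns]; ring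
    rw [h4] at h2
    rw [hns] at h1
    linarith
  have hsmid : ((smid g r (ε2 * n)).card : ℝ) ≤ K2 * ε2 * s ^ 4 := by
    have := h0.hmid (ε2 * n) (by positivity)
    rw [← hn] at this
    refine this.trans (le_of_eq ?_)
    rw [hns]; ring
  have hsmid2 : K2 * ε2 * s ^ 4 ≤ (ξ0 / 2 ^ mK) ^ 2 / 16 * s ^ 4 := mul_le_mul_of_nonneg_right hgapε (by positivity)
  set θ : ℝ := ξ0 / 2 ^ (bigM g r (ε1 * n)).card * n with hθ
  have hθ0 : 0 < θ := by positivity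
  have hθq : ξ0 / 2 ^ mK * n ≤ θ := by
    rw [hθ]
    refine mul_le_mul_of_nonneg_right ?_ hn0.le
    refine div_le_div_of_nonneg_left hξ.le (by positivity) ?_
    exact pow_le_pow_right₀ (by norm_num) hM
  have hsum : ((close g r).card : ℝ) + K2 * ε2 * s ^ 4 < θ ^ 2 := by
    have h1 : (ξ0 / 2 ^ mK * n) ^ 2 ≤ θ ^ 2 := pow_le_pow_left₀ (by positivity) hθq 2
    have h2 : (KD + 1) * s ^ 3 ≤ (ξ0 / 2 ^ mK) ^ 2 / 2 * s ^ 4 := by
      have : (KD + 1) * s ^ 3 ≤ ((ξ0 / 2 ^ mK) ^ 2 / 2 * s) * s ^ 3 := mul_le_mul_of_nonneg_right s3 (by positivity)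
      calc _ ≤ _ := this
        _ = _ := by ring
    have h3 : (ξ0 / 2 ^ mK * n) ^ 2 = (ξ0 / 2 ^ mK) ^ 2 * s ^ 4 := by rw [hns]; ring
    have h4 : 0 < (ξ0 / 2 ^ mK) ^ 2 * s ^ 4 := by positivity
    linarith
  obtain ⟨pc, hpcM, hpcβ, hpcU⟩ := precore (g := g) hr h0.diam (ε2 * n) (ε1 * n) (mul_le_mul_of_nonneg_right hε hn0.le) θ
    (K2 * ε2 * s ^ 4) hθ0 hsmid hsum
  -- size of the complement of U0
  have hV0 : ∑ m ∈ bigM g r (ε1 * n), ∑ m' ∈ (bigM g r (ε1 * n)).filter (fun m' => m' ≠ m), ∑ j ∈ Ico 1 r,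
      ((V0 g r m m' j).card : ℝ) ≤ ξ0 * n := by
    have h1 : ∀ m ∈ bigM g r (ε1 * n), ∑ m' ∈ (bigM g r (ε1 * n)).filter (fun m' => m' ≠ m), ∑ j ∈ Ico 1 r,
        ((V0 g r m m' j).card : ℝ) ≤ (mK : ℝ) * (r * (th * n)) := by
      intro m hm
      calc _ ≤ ∑ m' ∈ (bigM g r (ε1 * n)).filter (fun m' => m' ≠ m), ((r : ℝ) * (th * n)) := by
            refine sum_le_sum fun m' hm' => ?_
            calc _ ≤ ∑ j ∈ Ico 1 r, th * n := by
                  refine sum_le_sum fun j hj => ?_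
                  rw [mem_Ico] at hj
                  have := mem_filter.1 hm'
                  exact hUH m hm m' this.1 (Ne.symm this.2) j hj.1 hj.2
              _ = ((r - 1 : ℕ) : ℝ) * (th * n) := by rw [sum_const, nsmul_eq_mul, Nat.card_Ico]
              _ ≤ _ := by
                  refine mul_le_mul_of_nonneg_right ?_ (by positivity)
                  exact_mod_cast Nat.sub_le r 1
        _ = (((bigM g r (ε1 * n)).filter (fun m' => m' ≠ m)).card : ℝ) * ((r : ℝ) * (th * n)) := by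
            rw [sum_const, nsmul_eq_mul]
        _ ≤ _ := by
            refine mul_le_mul_of_nonneg_right ?_ (by positivity)
            exact_mod_cast (card_le_card (filter_subset _ _)).trans hM
    calc _ ≤ ∑ m ∈ bigM g r (ε1 * n), (mK : ℝ) * (r * (th * n)) := sum_le_sum h1
      _ = ((bigM g r (ε1 * n)).card : ℝ) * ((mK : ℝ) * (r * (th * n))) := by rw [sum_const, nsmul_eq_mul]
      _ ≤ (mK : ℝ) * ((mK : ℝ) * (r * (th * n))) := by
          refine mul_le_mul_of_nonneg_right ?_ (by positivity)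
          exact_mod_cast hM
      _ = (th * r * (mK : ℝ) ^ 2) * n := by ring
      _ ≤ _ := mul_le_mul_of_nonneg_right hth hn0.le
  have h2θ : (2 : ℝ) ^ (bigM g r (ε1 * n)).card * θ = ξ0 * n := by
    rw [hθ]
    field_simp
  have h53' : (((bigM g r (ε1 * n)).biUnion (fun m => g.ball (r - 1) m)).card : ℝ) ≤ ξ0 * n := by
    refine h53.trans ((mul_le_mul_of_nonneg_right s4 hs0.le).trans (le_of_eq ?_))
    rw [hns]; ring
  have hU0 : ((univ \ pc.U0).card : ℝ) ≤ 4 * ξ0 * n := by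
    rw [h2θ] at hpcU
    linarith
  -- X5
  set e : ℝ := η * s with he
  set L : ℝ := C * s with hL
  set L' : ℝ := (C + 2 * r / η + 3) * s with hL'
  have he0 : 0 < e := by positivity
  have hE := E_card (g := g) (r := r) (by omega) O e he0
  rw [← hn] at hE
  have hD : (r : ℝ) * n / e = r / η * s := by
    rw [he, hns]; field_simp
  rw [hD] at hE
  have hUnc : (Unc1 g r (by omega) O e L o1 : ℝ) ≤ 2 * K1 * n := by
    have := h0.hUnc
    rw [← hs, ← hn] at this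
    exact this
  have hatyp : (pc.atyp.card : ℝ) ≤ (KD + 1) * s ^ 3 + (ξ0 / 2 ^ mK) ^ 2 / 16 * s ^ 4 := by
    have h1 := pc.atyp_card h0.diam
    rw [hpcβ] at h1
    have h2 : (pc.atyp.card : ℝ) ≤ ((close g r).card : ℝ) + ((smid g r (ε2 * n)).card : ℝ) := by exact_mod_cast h1
    linarith
  have hqle : (ξ0 / 2 ^ mK) ^ 2 ≤ ξ0 := by
    have h1 : ξ0 / 2 ^ mK ≤ ξ0 := div_le_self hξ.le (one_le_pow₀ (by norm_num))
    have h2 : (ξ0 / 2 ^ mK) ^ 2 ≤ ξ0 ^ 2 := pow_le_pow_left₀ hq.le h1 2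
    have h3 : ξ0 ^ 2 ≤ ξ0 * 1 := by rw [sq]; exact mul_le_mul_of_nonneg_left (by linarith) hξ.le
    linarith
  have hUO : n / 2 ≤ ((pc.U0 ∩ O).card : ℝ) := by
    have h1 : (univ : Finset V) ⊆ (univ \ pc.U0) ∪ ((univ \ O) ∪ (pc.U0 ∩ O)) := by
      intro x _
      simp only [mem_union, mem_sdiff, mem_inter, mem_univ, true_and]
      tauto
    have h2 : Fintype.card V ≤ (univ \ pc.U0).card + ((univ \ O).card + (pc.U0 ∩ O).card) := by
      rw [← card_univ]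
      refine (card_le_card h1).trans ((card_union_le _ _).trans ?_)
      gcongr
      exact card_union_le _ _
    have h3 : n ≤ ((univ \ pc.U0).card : ℝ) + (((univ \ O).card : ℝ) + ((pc.U0 ∩ O).card : ℝ)) := by
      rw [hn]; exact_mod_cast h2
    have h4 : ((univ \ O).card : ℝ) ≤ KP * s := by rw [hs]; exact h0.hO
    have h5 : KP * s ≤ 2 / 5 * n := by
      refine (mul_le_mul_of_nonneg_right s6 hs0.le).trans (le_of_eq ?_)
      rw [hns]; ring
    have h6 : 40 * ξ0 * n ≤ 1 * n := mul_le_mul_of_nonneg_right hξ1 hn0.le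
    linarith
  have hX5 : ((pc.X5 e).card : ℝ) ≤ 10 * ξ0 * n := by
    have h1 := pc.X5_card hr O e L (r / η * s) he0 o1 hE
    rw [hpcM, ← hn] at h1
    have h2 : n * ((univ \ pc.U0).card : ℝ) ≤ n * (4 * ξ0 * n) := mul_le_mul_of_nonneg_left hU0 hn0.le
    have h3 : e / 2 * (Unc1 g r (by omega) O e L o1 : ℝ) ≤ e / 2 * (2 * K1 * n) :=
      mul_le_mul_of_nonneg_left hUnc (by positivity)
    have h4 : e / 2 * (r / η * s) * (((bigM g r (ε1 * n)).biUnion (fun m => g.ball (r - 1) m)).card : ℝ)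
        ≤ e / 2 * (r / η * s) * (K4 / ε1 * s) := mul_le_mul_of_nonneg_left h53 (by positivity)
    have h5 : e / 2 * (2 * K1 * n) = η * K1 * s ^ 3 := by rw [he, hns]; ring
    have h6 : e / 2 * (r / η * s) * (K4 / ε1 * s) = r / 2 * (K4 / ε1) * s ^ 3 := by
      rw [he]; field_simp
    have h7 : n * (4 * ξ0 * n) = 4 * ξ0 * s ^ 4 := by rw [hns]; ring
    have h8 : (2 * (KD + 1) + η * K1 + r / 2 * (K4 / ε1)) * s ^ 3 ≤ (ξ0 / 2 * s) * s ^ 3 :=
      mul_le_mul_of_nonneg_right s5 (by positivity)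
    have h9 : (ξ0 / 2 ^ mK) ^ 2 / 16 * s ^ 4 ≤ ξ0 / 16 * s ^ 4 :=
      mul_le_mul_of_nonneg_right (by linarith) (by positivity)
    have h10 : ((pc.U0 ∩ O).card : ℝ) * ((pc.X5 e).card : ℝ) ≤ 5 * ξ0 * s ^ 4 := by
      have h11 : 0 < ξ0 * s ^ 4 := by positivity
      rw [h5] at h3
      rw [h6] at h4
      rw [h7] at h2
      have h13 : (2 * (KD + 1) + η * K1 + r / 2 * (K4 / ε1)) * s ^ 3 =
        2 * ((KD + 1) * s ^ 3) + η * K1 * s ^ 3 + r / 2 * (K4 / ε1) * s ^ 3 := by ring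
      have h14 : (ξ0 / 2 * s) * s ^ 3 = ξ0 / 2 * s ^ 4 := by ring
      rw [h13, h14] at h8
      linarith
    have h12 : n / 2 * ((pc.X5 e).card : ℝ) ≤ 5 * ξ0 * s ^ 4 :=
      (mul_le_mul_of_nonneg_right hUO (Nat.cast_nonneg _)).trans h10
    rw [hns] at h12 ⊢
    have h13 : s ^ 2 * (((pc.X5 e).card : ℝ)) ≤ s ^ 2 * (10 * ξ0 * s ^ 2) := by
      have h14 : s ^ 2 / 2 * ((pc.X5 e).card : ℝ) = (s ^ 2 * (((pc.X5 e).card : ℝ))) / 2 := by ring
      have h15 : s ^ 2 * (10 * ξ0 * s ^ 2) = 10 * ξ0 * s ^ 4 := by ring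
      rw [h14] at h12
      rw [h15]
      linarith
    exact le_of_mul_le_mul_left h13 (by positivity)
  have hX6 : ((pc.X6 e L').card : ℝ) ≤ ξ0 * n := by
    have h1 := pc.X6_card hr O e L L' (r / η * s) o1 (by positivity) hE
    have h2 : L' - 1 - L - 2 * (r / η * s) = 3 * s - 1 := by
      rw [hL', hL]; field_simp; ring
    rw [h2] at h1
    have h3 : 4 * s * ((pc.X6 e L').card : ℝ) ≤ 2 * K1 * n := by
      refine le_trans ?_ (h1.trans hUnc)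
      refine mul_le_mul_of_nonneg_right ?_ (Nat.cast_nonneg _)
      linarith
    have h4 : 2 * K1 * n ≤ 2 * (ξ0 * s) * n := by
      refine mul_le_mul_of_nonneg_right ?_ hn0.le
      linarith
    have h5 : s * ((pc.X6 e L').card : ℝ) ≤ s * (ξ0 * n) := by
      have h6 : 0 < s * (ξ0 * n) := by positivity
      have h7 : 4 * s * ((pc.X6 e L').card : ℝ) = 4 * (s * ((pc.X6 e L').card : ℝ)) := by ring
      have h8 : 2 * (ξ0 * s) * n = 2 * (s * (ξ0 * n)) := by ring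
      rw [h7] at h3
      rw [h8] at h4
      linarith
    exact le_of_mul_le_mul_left h5 hs0
  have hX : ((pc.core hr e L').X.card : ℝ) ≤ 15 * ξ0 * n := by
    have h1 : ((pc.core hr e L').X.card : ℝ) ≤ ((univ \ pc.U0).card : ℝ) + ((pc.X5 e).card : ℝ) + ((pc.X6 e L').card : ℝ) := by
      exact_mod_cast pc.X_card hr e L'
    linarith
  refine ⟨pc.core hr e L', pc.β, ?_, ?_, hX, ?_, ?_, pc.core_c8 hr e L'⟩
  · refine pc.core_hyp hr h0.diam s2 (by positivity) (by positivity) (by rw [hpcβ]; positivity) ?_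
    unfold Core.hU
    rw [div_le_div_iff₀ he0 (by norm_num)]
    have h1 : (r : ℝ) * ((pc.core hr e L').X.card : ℝ) ≤ r * (15 * ξ0 * n) := mul_le_mul_of_nonneg_left hX hr0.le
    have h2 : 15 * ξ0 * (8 * r) * n ≤ η ^ 2 * n := mul_le_mul_of_nonneg_right hξ2 hn0.le
    have h3 : e * e = η ^ 2 * n := by rw [he, hns]; ring
    rw [h3]
    have h4 : (r : ℝ) * (15 * ξ0 * n) * 8 = 15 * ξ0 * (8 * r) * n := by ring
    linarith
  · rw [hpcβ]
    have : 0 ≤ ξ0 * n := by positivity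
    linarith
  · have h1 := pc.W_card hr e L' he0
    rw [← hn] at h1
    refine h1.trans (le_of_eq ?_)
    rw [he, hns]; field_simp
  · show pc.M.card ≤ mK
    rw [hpcM]; exact hM

/-- (module STR-G) THE STRUCTURE THEOREM. `I` is the class of instances (all hypotheses of the first accounting). -/
theorem str (r : ℕ) (hr : 2 ≤ r) (η C K1 K2 K3 K4 KD KP : ℝ) (hη : 0 < η) (hC : 0 < C) (hK1 : 0 < K1) (hK2 : 0 < K2)
    (hK3 : 0 < K3) (hK4 : 0 < K4) (hKD : 0 < KD) (hKP : 0 < KP)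
    (I : ∀ (V : Type) [Fintype V], Geo V → Finset V → V → Prop)
    (h0 : ∀ (V : Type) [Fintype V] (g : Geo V) (O : Finset V) (o1 : V), I V g O o1 →
      Inst0 r (by omega) η C K1 K2 KD KP V g O o1)
    (h52 : ∀ ε : ℝ, 0 < ε → ∃ n0 : ℕ, ∀ (V : Type) [Fintype V] (g : Geo V) (O : Finset V) (o1 : V), I V g O o1 →
      n0 ≤ Fintype.card V →
      ∑ m ∈ bigM g r (ε * (Fintype.card V : ℝ)), ((g.ball r m).card : ℝ) ≤ K3 * (Fintype.card V : ℝ))
    (h53 : ∀ ε : ℝ, 0 < ε → ∃ n0 : ℕ, ∀ (V : Type) [Fintype V] (g : Geo V) (O : Finset V) (o1 : V), I V g O o1 →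
      n0 ≤ Fintype.card V →
      (((bigM g r (ε * (Fintype.card V : ℝ))).biUnion (fun m => g.ball (r - 1) m)).card : ℝ)
        ≤ K4 / ε * √(Fintype.card V : ℝ))
    (hUH : ∀ ε th : ℝ, 0 < ε → 0 < th → ∃ n0 : ℕ, ∀ (V : Type) [Fintype V] (g : Geo V) (O : Finset V) (o1 : V),
      I V g O o1 → n0 ≤ Fintype.card V →
      ∀ m ∈ bigM g r (ε * (Fintype.card V : ℝ)), ∀ m' ∈ bigM g r (ε * (Fintype.card V : ℝ)), m ≠ m' →
      ∀ j, 1 ≤ j → j < r → ((V0 g r m m' j).card : ℝ) ≤ th * (Fintype.card V : ℝ))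
    (ξ : ℝ) (hξ : 0 < ξ) :
    ∃ (n0 : ℕ) (KM : ℝ), ∀ (V : Type) [Fintype V] (g : Geo V) (O : Finset V) (o1 : V), I V g O o1 →
      n0 ≤ Fintype.card V → ∃ (c : Core g r) (β : ℝ),
        c.Hyp (η * √(Fintype.card V : ℝ)) (C * √(Fintype.card V : ℝ)) ((C + 2 * r / η + 3) * √(Fintype.card V : ℝ)) β ∧
        β ≤ ξ * (Fintype.card V : ℝ) ∧
        (c.X.card : ℝ) ≤ ξ * (Fintype.card V : ℝ) ∧
        (c.W.card : ℝ) ≤ 2 * r / η * √(Fintype.card V : ℝ) ∧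
        (c.M.card : ℝ) ≤ KM ∧
        ((∃ m0 ∈ c.M, ∀ p ∈ c.B, c.mm p = m0) ∨ (∀ y ∈ c.U, ∃ m' ∈ c.M, m' ≠ c.mm y ∧ g.d y m' = r)) := by
  have hr0 : (0 : ℝ) < r := by positivity
  -- constants
  obtain ⟨ξ0, hξ0, hξa, hξb, hξc⟩ : ∃ ξ0 : ℝ, 0 < ξ0 ∧ 40 * ξ0 ≤ ξ ∧ 40 * ξ0 ≤ 1 ∧ 15 * ξ0 * (8 * r) ≤ η ^ 2 := by
    have h8 : (0 : ℝ) < η ^ 2 / (8 * r) := by positivity
    refine ⟨min (min ξ 1) (η ^ 2 / (8 * r)) / 40, by positivity, ?_, ?_, ?_⟩
    · have := (min_le_left (min ξ 1) (η ^ 2 / (8 * r))).trans (min_le_left ξ 1)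
      linarith
    · have := (min_le_left (min ξ 1) (η ^ 2 / (8 * r))).trans (min_le_right ξ 1)
      linarith
    · have h1 := min_le_right (min ξ 1) (η ^ 2 / (8 * r))
      rw [le_div_iff₀ (by positivity)] at h1
      have h2 : 0 < min (min ξ 1) (η ^ 2 / (8 * r)) * (8 * r) := by positivity
      linarith
  -- scales
  let mK : ℝ → ℕ := fun ε => ⌊K3 / ε⌋₊
  let t : ℕ → ℝ := fun i => Nat.rec ξ0 (fun _ ε => min (ε / 2) ((ξ0 / 2 ^ (mK ε)) ^ 2 / (16 * K2))) i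
  have tsucc : ∀ i, t (i + 1) = min (t i / 2) ((ξ0 / 2 ^ (mK (t i))) ^ 2 / (16 * K2)) := fun _ => rfl
  have tpos : ∀ i, 0 < t i := by
    intro i
    induction i with
    | zero => exact hξ0
    | succ i ih =>
      rw [tsucc]
      exact lt_min (by linarith) (by positivity)
  have thalf : ∀ i, t (i + 1) ≤ t i := by
    intro i
    rw [tsucc]
    have := tpos i
    exact (min_le_left _ _).trans (by linarith)
  have tanti : Antitone t := antitone_nat_of_succ_le thalf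
  have tgap : ∀ i, K2 * t (i + 1) ≤ (ξ0 / 2 ^ (mK (t i))) ^ 2 / 16 := by
    intro i
    have h1 : t (i + 1) ≤ (ξ0 / 2 ^ (mK (t i))) ^ 2 / (16 * K2) := by rw [tsucc]; exact min_le_right _ _
    rw [le_div_iff₀ (by positivity)] at h1
    linarith
  let k : ℕ := ⌊K3 / ξ0⌋₊ + 1
  have hk : K3 < k * ξ0 := by
    have h1 : K3 / ξ0 < (k : ℝ) := by
      have := Nat.lt_floor_add_one (K3 / ξ0)
      show K3 / ξ0 < ((⌊K3 / ξ0⌋₊ + 1 : ℕ) : ℝ)
      push_cast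
      exact this
    rwa [div_lt_iff₀ hξ0] at h1
  let th : ℕ → ℝ := fun i => ξ0 / (r * ((mK (t i) : ℝ) + 1) ^ 2)
  have thpos : ∀ i, 0 < th i := fun i => by positivity
  have thle : ∀ i, th i * r * (mK (t i) : ℝ) ^ 2 ≤ ξ0 := by
    intro i
    have h1 : th i * r * ((mK (t i) : ℝ) + 1) ^ 2 = ξ0 := by
      show ξ0 / (r * ((mK (t i) : ℝ) + 1) ^ 2) * r * ((mK (t i) : ℝ) + 1) ^ 2 = ξ0
      field_simp
    have h2 : th i * r * (mK (t i) : ℝ) ^ 2 ≤ th i * r * ((mK (t i) : ℝ) + 1) ^ 2 := by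
      have := thpos i
      gcongr
      linarith
    linarith
  -- thresholds
  choose N52 hN52 using h52
  choose N53 hN53 using h53
  choose NUH hNUH using hUH
  let S : ℕ → ℝ := fun i => 1 + 8 / η + (KD + 1) / ((ξ0 / 2 ^ (mK (t i))) ^ 2 / 2) + K4 / t i / ξ0
    + (2 * (KD + 1) + η * K1 + r / 2 * (K4 / t i)) / (ξ0 / 2) + KP / (2 / 5) + K1 / ξ0
  let F : ℕ → ℕ := fun i => N52 (t i) (tpos i) + N53 (t i) (tpos i) + NUH (t i) (th i) (tpos i) (thpos i) + ⌈(S i) ^ 2⌉₊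
  refine ⟨(range (k + 1)).sup F, (((range k).sup (fun i => mK (t i)) : ℕ) : ℝ), ?_⟩
  intro V _ g O o1 hI hn0
  have hF : ∀ i, i ≤ k → F i ≤ Fintype.card V := fun i hi =>
    (le_sup (f := F) (mem_range.2 (Nat.lt_succ_of_le hi))).trans hn0
  set n : ℝ := (Fintype.card V : ℝ) with hn
  set s : ℝ := √n with hs
  have hSs : ∀ i, i ≤ k → S i ≤ s := by
    intro i hi
    rw [hs]
    apply Real.le_sqrt_of_sq_le
    have h1 : ⌈(S i) ^ 2⌉₊ ≤ Fintype.card V := by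
      have := hF i hi
      show ⌈(S i) ^ 2⌉₊ ≤ Fintype.card V
      have h2 : F i = N52 (t i) (tpos i) + N53 (t i) (tpos i) + NUH (t i) (th i) (tpos i) (thpos i) + ⌈(S i) ^ 2⌉₊ := rfl
      omega
    exact (Nat.le_ceil _).trans (by rw [hn]; exact_mod_cast h1)
  have parts : ∀ i, i ≤ k → 1 ≤ s ∧ 8 / η ≤ s ∧ (KD + 1) / ((ξ0 / 2 ^ (mK (t i))) ^ 2 / 2) ≤ s ∧ K4 / t i / ξ0 ≤ s ∧
      (2 * (KD + 1) + η * K1 + r / 2 * (K4 / t i)) / (ξ0 / 2) ≤ s ∧ KP / (2 / 5) ≤ s ∧ K1 / ξ0 ≤ s := by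
    intro i hi
    have h1 := hSs i hi
    have h2 : S i = 1 + 8 / η + (KD + 1) / ((ξ0 / 2 ^ (mK (t i))) ^ 2 / 2) + K4 / t i / ξ0
      + (2 * (KD + 1) + η * K1 + r / 2 * (K4 / t i)) / (ξ0 / 2) + KP / (2 / 5) + K1 / ξ0 := rfl
    have p1 : 0 ≤ 8 / η := by positivity
    have p2 : 0 ≤ (KD + 1) / ((ξ0 / 2 ^ (mK (t i))) ^ 2 / 2) := by positivity
    have ht := tpos i
    have p3 : 0 ≤ K4 / t i / ξ0 := by positivity
    have p4 : 0 ≤ (2 * (KD + 1) + η * K1 + r / 2 * (K4 / t i)) / (ξ0 / 2) := by positivity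
    have p5 : 0 ≤ KP / (2 / 5) := by positivity
    have p6 : 0 ≤ K1 / ξ0 := by positivity
    rw [h2] at h1
    refine ⟨?_, ?_, ?_, ?_, ?_, ?_, ?_⟩ <;> linarith
  have hs1 := (parts 0 (Nat.zero_le _)).1
  have hnpos : 0 < n := by
    by_contra hneg
    rw [not_lt] at hneg
    rw [hs, Real.sqrt_eq_zero_of_nonpos hneg] at hs1
    linarith
  -- choose the scale
  obtain ⟨i, hik, hgap⟩ := scale_gap (V := V) (fun m => ((g.ball r m).card : ℝ)) (fun _ => Nat.cast_nonneg _)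
    (fun i => t i * n) (fun a b hab => mul_le_mul_of_nonneg_right (tanti hab) hnpos.le) k (K3 * n) (ξ0 * n)
    (hN52 (t k) (tpos k) V g O o1 hI (by
      have := hF k le_rfl
      have h2 : F k = N52 (t k) (tpos k) + N53 (t k) (tpos k) + NUH (t k) (th k) (tpos k) (thpos k) + ⌈(S k) ^ 2⌉₊ := rfl
      omega))
    (by nlinarith)
  have hFi := hF i hik.le
  have hFi2 : F i = N52 (t i) (tpos i) + N53 (t i) (tpos i) + NUH (t i) (th i) (tpos i) (thpos i) + ⌈(S i) ^ 2⌉₊ := rfl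
  obtain ⟨p1, p2, p3, p4, p5, p6, p7⟩ := parts i hik.le
  have ht := tpos i
  have hball := hN52 (t i) (tpos i) V g O o1 hI (by omega)
  have hMc : (bigM g r (t i * n)).card ≤ mK (t i) := by
    apply Nat.le_floor
    rw [le_div_iff₀ ht]
    have h1 : ((bigM g r (t i * n)).card : ℝ) * (t i * n) ≤ K3 * n := by
      refine le_trans ?_ hball
      calc ((bigM g r (t i * n)).card : ℝ) * (t i * n) = ∑ m ∈ bigM g r (t i * n), t i * n := by
            rw [sum_const, nsmul_eq_mul]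
        _ ≤ _ := by
            refine sum_le_sum fun m hm => ?_
            unfold bigM at hm
            exact (mem_filter.1 hm).2.le
    have h2 : ((bigM g r (t i * n)).card : ℝ) * t i * n ≤ K3 * n := by linarith
    exact le_of_mul_le_mul_right h2 hnpos
  obtain ⟨c, β, c1, c2, c3, c4, c5, c6⟩ := str_one (ε1 := t i) (ε2 := t (i + 1)) (ξ0 := ξ0) (th := th i) (n := n) (s := s)
    (mK := mK (t i)) hr hη hC hK4 (h0 V g O o1 hI) hn hs ht (tpos (i + 1)) (thalf i) hξ0 hξb hξc (tgap i) hMc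
    (thle i) (thpos i) (hN53 (t i) ht V g O o1 hI (by omega))
    (hNUH (t i) (th i) ht (thpos i) V g O o1 hI (by omega)) hgap p1
    (by rw [div_le_iff₀ hη] at p2; linarith) (by rw [div_le_iff₀ (by positivity)] at p3; linarith)
    (by rw [div_le_iff₀ hξ0] at p4; linarith) (by rw [div_le_iff₀ (by positivity)] at p5; linarith)
    (by rw [div_le_iff₀ (by positivity)] at p6; linarith) (by rw [div_le_iff₀ hξ0] at p7; linarith)
  refine ⟨c, β, c1, c2.trans ?_, c3.trans ?_, c4, ?_, c6⟩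
  · have h1 : t (i + 1) ≤ t 0 := tanti (Nat.zero_le (i + 1))
    have h1' : t 0 = ξ0 := rfl
    have h2 : (ξ0 + t (i + 1)) * n ≤ ξ * n := mul_le_mul_of_nonneg_right (by linarith) hnpos.le
    linarith
  · exact mul_le_mul_of_nonneg_right (by linarith) hnpos.le
  · have h1 : mK (t i) ≤ (range k).sup (fun i => mK (t i)) := le_sup (f := fun i => mK (t i)) (mem_range.2 hik)
    exact_mod_cast c5.trans h1

end Pool.Agent.Wi
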