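import Pool.Agent.Wi.Basic

/-! MODULE TAU (blueprint 2.2).  `tau ≤ K0 n^(3/2)`: a full LF: k = floor(sqrt n) chains (i,1), .., (i,r-1) (transport
along an equivalence with Fin), all other nodes are leaves (level 0), leaf number t below the chain t mod k.
h ≤ k r^2/2; every node z has at most r + n/k + 1 descendants, C ≤ k r (r + n/k + 1)^2.
Existence of tau: the set of costs of full LFs is nonempty (all nodes at level r-1), Nat.find. -/

namespace Pool.Agent.Wi

open Finset
open scoped Classical

theorem tau_exists (r : ℕ) (hr : 1 ≤ r) (V : Type) [Fintype V] : ∃ tau : ℕ, IsTau r V (Fintype.card V - 1) tau := by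
  obtain ⟨S, -, hS⟩ := exists_subset_card_eq (s := (univ : Finset V)) (n := Fintype.card V - 1)
    (by rw [card_univ]; exact Nat.sub_le _ _)
  let T : LF r V :=
    { S := S
      lev := fun _ => r - 1
      par := id
      hlev := fun p _ => by show r - 1 < r; omega
      hpar := fun p _ h => by
        have h : r - 1 + 1 < r := h
        omega }
  have hex : ∃ t : ℕ, ∃ T : LF r V, T.S.card = Fintype.card V - 1 ∧
      T.cost (Fintype.card V - 1) = t := ⟨_, T, hS, rfl⟩
  refine ⟨Nat.find hex, ?_, Nat.find_spec hex⟩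
  intro T' hT'
  exact Nat.find_min' hex ⟨T', hT', rfl⟩

section

variable {V : Type} [Fintype V]

/-- index of a vertex -/
noncomputable def TAU_idx (v : V) : ℕ := (Fintype.equivFin V v : ℕ)

theorem TAU_idx_lt (v : V) : TAU_idx v < Fintype.card V := (Fintype.equivFin V v).2

theorem TAU_idx_inj {v w : V} (h : TAU_idx v = TAU_idx w) : v = w :=
  (Fintype.equivFin V).injective (Fin.ext h)

/-- the vertex with index `t` (or `v`) -/
noncomputable def TAU_el (v : V) (t : ℕ) : V :=
  if h : t < Fintype.card V then (Fintype.equivFin V).symm ⟨t, h⟩ else v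

theorem TAU_idx_el (v : V) {t : ℕ} (h : t < Fintype.card V) : TAU_idx (TAU_el v t) = t := by
  unfold TAU_el TAU_idx
  rw [dif_pos h, Equiv.apply_symm_apply]

/-- the forest of `k` chains -/
noncomputable def TAU_LF (r k : ℕ) (hr : 2 ≤ r) (hk : 1 ≤ k)
    (hkn : k * (r - 1) ≤ Fintype.card V - 1) : LF r V where
  S := univ.filter (fun v => TAU_idx v < Fintype.card V - 1)
  lev v := if TAU_idx v < k * (r - 1) then TAU_idx v / k + 1 else 0
  par v := TAU_el v (if TAU_idx v < k * (r - 1) then TAU_idx v + k else TAU_idx v % k)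
  hlev v _ := by
    split_ifs with h
    · have : TAU_idx v / k < r - 1 := Nat.div_lt_of_lt_mul h
      omega
    · omega
  hpar v hv hl := by
    have hkr : k ≤ k * (r - 1) := Nat.le_mul_of_pos_right _ (by omega)
    by_cases h : TAU_idx v < k * (r - 1)
    · -- chain node
      rw [if_pos h] at hl
      rw [if_pos h, if_pos h]
      have h1 : TAU_idx v / k + 1 < r - 1 := by omega
      have h2 : TAU_idx v < k * (r - 2) := by
        have h3 : TAU_idx v / k < r - 2 := by omega
        rw [Nat.div_lt_iff_lt_mul hk] at h3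
        rw [mul_comm]; exact h3
      have h3 : k * (r - 2) + k = k * (r - 1) := by
        have : r - 1 = (r - 2) + 1 := by omega
        rw [this, Nat.mul_succ]
      have h4 : TAU_idx v + k < k * (r - 1) := by omega
      have h5 : TAU_idx v + k < Fintype.card V := by omega
      rw [TAU_idx_el v h5]
      refine ⟨?_, ?_⟩
      · rw [mem_filter, TAU_idx_el v h5]
        exact ⟨mem_univ _, by omega⟩
      · rw [if_pos h4, Nat.add_div_right _ hk]
    · have h1 : TAU_idx v % k < k := Nat.mod_lt _ hk
      have h5 : TAU_idx v % k < Fintype.card V := by omega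
      rw [if_neg h, if_neg h]
      rw [TAU_idx_el v h5]
      refine ⟨?_, ?_⟩
      · rw [mem_filter, TAU_idx_el v h5]
        exact ⟨mem_univ _, by omega⟩
      · rw [if_pos (by omega), Nat.div_eq_of_lt h1]

variable (r k : ℕ) (hr : 2 ≤ r) (hk : 1 ≤ k) (hkn : k * (r - 1) ≤ Fintype.card V - 1)

theorem TAU_card : (TAU_LF (V := V) r k hr hk hkn).S.card = Fintype.card V - 1 := by
  show (univ.filter (fun v : V => TAU_idx v < Fintype.card V - 1)).card = _
  have h : (univ.filter (fun v : V => TAU_idx v < Fintype.card V - 1)).card =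
      (range (Fintype.card V - 1)).card := by
    apply card_bij (fun v _ => TAU_idx v)
    · intro v hv
      exact mem_range.2 (mem_filter.1 hv).2
    · intro v _ w _ h
      exact TAU_idx_inj h
    · intro t ht
      have ht := mem_range.1 ht
      have ht' : t < Fintype.card V := by omega
      refine ⟨(Fintype.equivFin V).symm ⟨t, ht'⟩, ?_, ?_⟩
      · rw [mem_filter]
        refine ⟨mem_univ _, ?_⟩
        unfold TAU_idx
        rw [Equiv.apply_symm_apply]
        exact ht
      · unfold TAU_idx
        rw [Equiv.apply_symm_apply]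
  rw [h, card_range]

/-- the ancestor at level `l ≥ 1` is determined by the index modulo `k` -/
theorem TAU_anc {p : V} (hp : p ∈ (TAU_LF (V := V) r k hr hk hkn).S) {l : ℕ} (hl1 : 1 ≤ l) :
    (TAU_LF (V := V) r k hr hk hkn).lev p ≤ l → l < r →
    TAU_idx ((TAU_LF (V := V) r k hr hk hkn).anc p l) = TAU_idx p % k + k * (l - 1) := by
  set T := TAU_LF (V := V) r k hr hk hkn with hT
  have hkr : k ≤ k * (r - 1) := Nat.le_mul_of_pos_right _ (by omega)
  have hmod : TAU_idx p % k < k := Nat.mod_lt _ hk
  have hlevdef : T.lev p = if TAU_idx p < k * (r - 1) then TAU_idx p / k + 1 else 0 := rfl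
  induction l, hl1 using Nat.le_induction with
  | base =>
    intro hl hlr
    by_cases h : TAU_idx p < k * (r - 1)
    · have hlev : T.lev p = TAU_idx p / k + 1 := by rw [hlevdef, if_pos h]
      have h0 : TAU_idx p / k = 0 := by
        rw [hlev] at hl
        exact Nat.le_zero.1 (Nat.le_of_succ_le_succ hl)
      have h1 : T.lev p = 1 := by rw [hlev, h0]
      have := T.anc_self p
      rw [h1] at this
      rw [this]
      have := Nat.mod_add_div (TAU_idx p) k
      rw [h0] at this
      omega
    · have h0 : T.lev p = 0 := by rw [hlevdef, if_neg h]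
      have e := T.anc_succ (p := p) (k := 0) (by omega)
      have e3 : T.anc p 0 = p := by
        have := T.anc_self p; rwa [h0] at this
      rw [e3, zero_add] at e
      rw [e]
      have hpar : T.par p = TAU_el p (TAU_idx p % k) := by
        show TAU_el p (if TAU_idx p < k * (r - 1) then TAU_idx p + k else TAU_idx p % k) = _
        rw [if_neg h]
      rw [hpar, TAU_idx_el p (by omega)]
      omega
  | succ l hl1 ih =>
    intro hl hlr
    by_cases hl' : T.lev p ≤ l
    · rw [T.anc_succ hl']
      have ih := ih hl' (by omega)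
      set w := T.anc p l with hw
      have h1 : k * (l - 1) + k = k * l := by
        have : l = (l - 1) + 1 := by omega
        conv_rhs => rw [this, Nat.mul_succ]
      have h2 : k * l + k ≤ k * (r - 1) := by
        rw [← Nat.mul_succ]
        exact Nat.mul_le_mul_left _ (by omega)
      have h3 : TAU_idx w < k * (r - 1) := by omega
      have hpar : T.par w = TAU_el w (TAU_idx w + k) := by
        show TAU_el w (if TAU_idx w < k * (r - 1) then TAU_idx w + k else TAU_idx w % k) = _
        rw [if_pos h3]
      rw [hpar, TAU_idx_el w (by omega), ih]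
      have : l + 1 - 1 = l := by omega
      rw [this]
      omega
    · have hlev : T.lev p = l + 1 := by omega
      have h : TAU_idx p < k * (r - 1) := by
        by_contra h
        rw [hlevdef, if_neg h] at hlev
        omega
      rw [hlevdef, if_pos h] at hlev
      have h2 : T.lev p = l + 1 := by rw [hlevdef, if_pos h]; exact hlev
      have := T.anc_self p
      rw [h2] at this
      rw [this]
      have h3 := Nat.mod_add_div (TAU_idx p) k
      have h4 : TAU_idx p / k = l := by omega
      rw [h4] at h3
      have : l + 1 - 1 = l := by omega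
      rw [this]
      omega

theorem TAU_kap {p q : V} (hp : p ∈ (TAU_LF (V := V) r k hr hk hkn).S)
    (hq : q ∈ (TAU_LF (V := V) r k hr hk hkn).S) (hpq : q ≠ p)
    (hm : TAU_idx q % k ≠ TAU_idx p % k) : (TAU_LF (V := V) r k hr hk hkn).kap p q = 0 := by
  set T := TAU_LF (V := V) r k hr hk hkn with hT
  unfold LF.kap
  rw [card_eq_zero, filter_eq_empty_iff]
  rintro l hl ⟨h1, h2, h3⟩
  have hl := mem_range.1 hl
  rcases Nat.eq_zero_or_pos l with rfl | hl0
  · have e1 : T.lev p = 0 := by omega
    have e2 : T.lev q = 0 := by omega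
    have e3 : T.anc p 0 = p := by
      have := T.anc_self p; rwa [e1] at this
    have e4 : T.anc q 0 = q := by
      have := T.anc_self q; rwa [e2] at this
    rw [e3, e4] at h3
    exact hpq h3.symm
  · have e1 := TAU_anc r k hr hk hkn hp hl0 h1 hl
    have e2 := TAU_anc r k hr hk hkn hq hl0 h2 hl
    rw [← hT] at e1 e2
    rw [h3, e2] at e1
    exact hm (by omega)

theorem TAU_C : (TAU_LF (V := V) r k hr hk hkn).C ≤
    (Fintype.card V - 1) * (((Fintype.card V - 1) / k + 1) * r) := by
  set T := TAU_LF (V := V) r k hr hk hkn with hT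
  have hcard : T.S.card = Fintype.card V - 1 := TAU_card r k hr hk hkn
  unfold LF.C
  rw [← hcard]
  apply sum_le_card_nsmul
  intro p hp
  have h1 : ∑ q ∈ T.S.filter (fun q => q ≠ p), T.kap p q ≤
      ∑ q ∈ T.S.filter (fun q => TAU_idx q % k = TAU_idx p % k), r := by
    calc ∑ q ∈ T.S.filter (fun q => q ≠ p), T.kap p q
        = ∑ q ∈ (T.S.filter (fun q => q ≠ p)).filter (fun q => TAU_idx q % k = TAU_idx p % k),
            T.kap p q := by
          symm
          apply sum_filter_of_ne
          intro q hq hne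
          by_contra hm
          exact hne (TAU_kap r k hr hk hkn hp (mem_filter.1 hq).1 (mem_filter.1 hq).2 hm)
      _ ≤ ∑ q ∈ (T.S.filter (fun q => q ≠ p)).filter (fun q => TAU_idx q % k = TAU_idx p % k),
            r := by
          apply sum_le_sum
          intro q _
          unfold LF.kap
          exact (card_filter_le _ _).trans (by rw [card_range])
      _ ≤ _ := by
          apply sum_le_sum_of_subset
          intro q hq
          rw [mem_filter, mem_filter] at hq
          exact mem_filter.2 ⟨hq.1.1, hq.2⟩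
  refine h1.trans ?_
  rw [sum_const, smul_eq_mul]
  apply Nat.mul_le_mul_right
  have h2 : (T.S.filter (fun q => TAU_idx q % k = TAU_idx p % k)).card ≤
      (range (T.S.card / k + 1)).card := by
    apply card_le_card_of_injOn (fun q => TAU_idx q / k)
    · intro q hq
      rw [mem_coe, mem_filter] at hq
      rw [mem_coe, mem_range]
      have hq1 : TAU_idx q < Fintype.card V - 1 := (mem_filter.1 hq.1).2
      rw [hcard]
      exact Nat.lt_succ_of_le (Nat.div_le_div_right hq1.le)
    · intro q hq q' hq' h
      rw [mem_coe, mem_filter] at hq hq'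
      apply TAU_idx_inj
      have e1 := Nat.mod_add_div (TAU_idx q) k
      have e2 := Nat.mod_add_div (TAU_idx q') k
      have h : TAU_idx q / k = TAU_idx q' / k := h
      rw [← e1, ← e2, hq.2, hq'.2, h]
  rwa [card_range] at h2

theorem TAU_h : (TAU_LF (V := V) r k hr hk hkn).h ≤ k * (r - 1) * r := by
  set T := TAU_LF (V := V) r k hr hk hkn with hT
  unfold LF.h
  calc ∑ p ∈ T.S, T.lev p
      = ∑ p ∈ T.S.filter (fun p => TAU_idx p < k * (r - 1)), T.lev p := by
        symm
        apply sum_filter_of_ne
        intro p _ hne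
        by_contra hm
        apply hne
        show (if TAU_idx p < k * (r - 1) then TAU_idx p / k + 1 else 0) = 0
        rw [if_neg hm]
    _ ≤ ∑ p ∈ T.S.filter (fun p => TAU_idx p < k * (r - 1)), r := by
        apply sum_le_sum
        intro p hp
        exact (T.hlev p (mem_filter.1 hp).1).le
    _ = (T.S.filter (fun p => TAU_idx p < k * (r - 1))).card * r := by
        rw [sum_const, smul_eq_mul]
    _ ≤ k * (r - 1) * r := by
        apply Nat.mul_le_mul_right
        have h2 : (T.S.filter (fun p => TAU_idx p < k * (r - 1))).card ≤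
            (range (k * (r - 1))).card := by
          apply card_le_card_of_injOn TAU_idx
          · intro q hq
            rw [mem_coe, mem_filter] at hq
            exact mem_range.2 hq.2
          · intro q _ q' _ h
            exact TAU_idx_inj h
        rwa [card_range] at h2

end

theorem tau_upper (r : ℕ) (hr : 2 ≤ r) : ∃ K0 n1 : ℝ, 1 ≤ K0 ∧
    ∀ (V : Type) [Fintype V] (tau : ℕ), n1 ≤ (Fintype.card V : ℝ) → IsTau r V (Fintype.card V - 1) tau →
      (tau : ℝ) ≤ K0 * (Fintype.card V : ℝ) * Real.sqrt (Fintype.card V : ℝ) := by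
  have hr' : (2 : ℝ) ≤ r := by exact_mod_cast hr
  refine ⟨(r : ℝ) ^ 2 + 3 * r, (r : ℝ) ^ 2, by nlinarith, ?_⟩
  intro V _ tau hn htau
  set n : ℝ := (Fintype.card V : ℝ) with hndef
  set s : ℝ := Real.sqrt n with hsdef
  have hn4 : 4 ≤ n := by nlinarith
  have hn0 : 0 ≤ n := by linarith
  have hss : s * s = n := Real.mul_self_sqrt hn0
  have hs0 : 0 ≤ s := Real.sqrt_nonneg _
  have hsr : (r : ℝ) ≤ s := by
    rw [hsdef]
    exact Real.le_sqrt_of_sq_le hn
  set k : ℕ := Nat.sqrt (Fintype.card V) with hk
  have hk1 : (k : ℝ) ≤ s := by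
    rw [hsdef, hndef]
    apply Real.le_sqrt_of_sq_le
    exact_mod_cast Nat.sqrt_le' (Fintype.card V)
  have hk2 : s < k + 1 := by
    rw [hsdef, hndef]
    rw [Real.sqrt_lt' (by positivity)]
    exact_mod_cast Nat.lt_succ_sqrt' (Fintype.card V)
  have hkr : r ≤ k := by
    rw [hk, Nat.le_sqrt']
    have h0 : ((r ^ 2 : ℕ) : ℝ) ≤ ((Fintype.card V : ℕ) : ℝ) := by
      push_cast
      exact hn
    exact_mod_cast h0
  have hkpos : 1 ≤ k := by omega
  have hkk : k * k ≤ Fintype.card V := Nat.sqrt_le (Fintype.card V)
  have hkn : k * (r - 1) ≤ Fintype.card V - 1 := by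
    have h1 : k * (r - 1) + k = k * r := by
      have : r = (r - 1) + 1 := by omega
      conv_rhs => rw [this, Nat.mul_succ]
    have h2 : k * r ≤ k * k := Nat.mul_le_mul_left _ hkr
    omega
  have hle := htau.1 (TAU_LF (V := V) r k hr hkpos hkn) (TAU_card r k hr hkpos hkn)
  have hC := TAU_C (V := V) r k hr hkpos hkn
  have hh := TAU_h (V := V) r k hr hkpos hkn
  have hcard : 2 ≤ Fintype.card V := by
    have : (2 : ℝ) ≤ (Fintype.card V : ℝ) := by rw [← hndef]; linarith
    exact_mod_cast this
  have hN : (((Fintype.card V - 1 : ℕ)) : ℝ) = n - 1 := by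
    rw [Nat.cast_sub (by omega), Nat.cast_one]
  have hle' : (tau : ℝ) ≤ (n - 1) * ((TAU_LF (V := V) r k hr hkpos hkn).h : ℝ) +
      ((TAU_LF (V := V) r k hr hkpos hkn).C : ℝ) := by
    have : (tau : ℝ) ≤ (((TAU_LF (V := V) r k hr hkpos hkn).cost (Fintype.card V - 1) : ℕ) : ℝ) := by
      exact_mod_cast hle
    unfold LF.cost at this
    push_cast at this
    rwa [hN] at this
  have hC' : ((TAU_LF (V := V) r k hr hkpos hkn).C : ℝ) ≤ (n - 1) * ((2 * s + 1) * r) := by
    have h1 : ((TAU_LF (V := V) r k hr hkpos hkn).C : ℝ) ≤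
        (((Fintype.card V - 1) * (((Fintype.card V - 1) / k + 1) * r) : ℕ) : ℝ) := by
      exact_mod_cast hC
    have h2 : (((Fintype.card V - 1) / k : ℕ) : ℝ) ≤ 2 * s := by
      have h3 : (((Fintype.card V - 1) / k : ℕ) : ℝ) ≤ (((Fintype.card V - 1 : ℕ)) : ℝ) / k :=
        Nat.cast_div_le
      have hkpos' : (0 : ℝ) < k := by exact_mod_cast hkpos
      have h4 : (((Fintype.card V - 1 : ℕ)) : ℝ) / k ≤ 2 * s := by
        rw [hN, div_le_iff₀ hkpos']
        nlinarith
      linarith
    refine h1.trans ?_
    push_cast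
    rw [hN]
    apply mul_le_mul_of_nonneg_left _ (by linarith)
    apply mul_le_mul_of_nonneg_right _ (by linarith)
    linarith
  have hh' : ((TAU_LF (V := V) r k hr hkpos hkn).h : ℝ) ≤ s * r * r := by
    have h1 : ((TAU_LF (V := V) r k hr hkpos hkn).h : ℝ) ≤ ((k * (r - 1) * r : ℕ) : ℝ) := by
      exact_mod_cast hh
    refine h1.trans ?_
    have h2 : ((k * (r - 1) * r : ℕ) : ℝ) ≤ (k : ℝ) * r * r := by
      have : k * (r - 1) * r ≤ k * r * r := by
        apply Nat.mul_le_mul_right
        exact Nat.mul_le_mul_left _ (Nat.sub_le _ _)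
      exact_mod_cast this
    refine h2.trans ?_
    apply mul_le_mul_of_nonneg_right _ (by linarith)
    exact mul_le_mul_of_nonneg_right hk1 (by linarith)
  have hs2 : 2 ≤ s := by linarith
  have e1 : (n - 1) * ((TAU_LF (V := V) r k hr hkpos hkn).h : ℝ) ≤ n * (s * r * r) := by
    apply mul_le_mul (by linarith) hh' (Nat.cast_nonneg _) hn0
  have e2 : (n - 1) * ((2 * s + 1) * r) ≤ n * (3 * s * r) := by
    apply mul_le_mul (by linarith) _ (by positivity) hn0
    apply mul_le_mul_of_nonneg_right _ (by linarith)
    linarith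
  calc (tau : ℝ) ≤ n * (s * r * r) + n * (3 * s * r) := by linarith
    _ = ((r : ℝ) ^ 2 + 3 * r) * n * s := by ring

end Pool.Agent.Wi
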