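import Pool.Agent.Wi.MID

/-! MODULE UH: universal hubs (section 6 of the blueprint). -/

namespace Pool.Agent.Wi

open Finset
open scoped Classical

section aux
variable {V : Type} [Fintype V] {g : Geo V} {r : ℕ}

/-- points close to a big middle. -/
noncomputable def uhB (g : Geo V) (r : ℕ) (b : ℝ) : Finset V :=
  univ.filter (fun y => ∃ m ∈ bigM g r b, g.d y m ≤ r - 1)

theorem uh_sum_pairs (f : V → V → ℕ) :
    (∑ x : V, ∑ y ∈ univ.filter (fun y => y ≠ x), f x y) =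
      ∑ p : V × V, if p.2 ≠ p.1 then f p.1 p.2 else 0 := by
  rw [Fintype.sum_prod_type]
  refine sum_congr rfl fun x _ => ?_
  rw [sum_filter]

theorem uh_count (f : V → V → ℕ) (S : Finset (V × V)) (h : ∀ p ∈ S, p.1 ≠ p.2 ∧ 1 ≤ f p.1 p.2) :
    S.card ≤ ∑ x : V, ∑ y ∈ univ.filter (fun y => y ≠ x), f x y := by
  rw [uh_sum_pairs, card_eq_sum_ones]
  calc ∑ _p ∈ S, 1 ≤ ∑ p ∈ S, (if p.2 ≠ p.1 then f p.1 p.2 else 0) := by
        refine sum_le_sum fun p hp => ?_
        rw [if_pos (h p hp).1.symm]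
        exact (h p hp).2
    _ ≤ _ := sum_le_univ_sum_of_nonneg fun _ => Nat.zero_le _

theorem uh_unc_count (s : Src g r) (e : ℝ) (b : V → V → ℕ) (S : Finset (V × V))
    (h : ∀ p ∈ S, p.1 ≠ p.2 ∧ 1 ≤ s.unc e b p.1 p.2) : S.card ≤ s.Unc e b :=
  uh_count _ S h

/-- pairs `(v, t)` with `t` an efficient hub of `v` far from the big middles. -/
theorem uh_pairsA (s : Src g r) (hr : 2 ≤ r) (diam : ∀ x y, g.d x y ≤ 2 * r) (e L b : ℝ)
    (hb : 0 ≤ b) (o : V) (S : Finset (V × V))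
    (hS : ∀ p ∈ S, p.2 ∈ s.E e p.1 ∧ p.2 ∉ uhB g r b) :
    (S.card : ℝ) * e ≤ 2 * b * (s.Unc e (s.near e L o) : ℝ) := by
  have h1 := mid_pairs s hr diam e L b hb o
  set P := univ.filter (fun p : V × V => g.d p.1 p.2 = 2 * r ∧ ((g.ball r (g.P p.2 p.1 r)).card : ℝ) ≤ b) with hP
  refine le_trans ?_ h1
  have h2 : (S.card : ℝ) * e ≤ ((∑ p ∈ S, (s.Z p.1 p.2).card : ℕ) : ℝ) := by
    push_cast
    rw [← nsmul_eq_mul]
    refine card_nsmul_le_sum _ _ _ fun p hp => ?_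
    have := (mem_filter.1 (hS p hp).1).2
    exact this.2
  refine h2.trans ?_
  have h3 : (∑ p ∈ S, (s.Z p.1 p.2).card) ≤ (P ×ˢ range r).card := by
    rw [← card_sigma]
    refine card_le_card_of_injOn (fun q : (Σ _ : V × V, V) => ((q.1.1, q.2), 2 * r - g.d q.1.1 q.1.2)) ?_ ?_
    · rintro ⟨⟨v, t⟩, y⟩ hq
      rw [mem_coe, mem_sigma] at hq
      obtain ⟨hp, hy⟩ := hq
      simp only at hp hy ⊢
      obtain ⟨y1, y2, y3, y4, y5⟩ := s.Z_geo hy
      rw [mem_coe, mem_product, mem_range]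
      refine ⟨?_, by simp only; omega⟩
      rw [hP, mem_filter]
      refine ⟨mem_univ _, y1, ?_⟩
      simp only
      by_contra hlt
      push Not at hlt
      refine (hS _ hp).2 ?_
      unfold uhB
      rw [mem_filter]
      refine ⟨mem_univ _, g.P y v r, ?_, ?_⟩
      · unfold bigM
        rw [mem_filter]
        exact ⟨mem_univ _, hlt⟩
      · have := g.dPP (x := y) (y := v) (i := 2 * r - g.d v t) (j := r) (by omega) (by rw [g.symm, y1]; omega)
        simp only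
        rw [y5] at this
        rw [this]
        omega
    · rintro ⟨⟨v, t⟩, y⟩ hq ⟨⟨v', t'⟩, y'⟩ hq' heq
      rw [mem_coe, mem_sigma] at hq hq'
      simp only [Prod.mk.injEq] at heq hq hq'
      obtain ⟨⟨rfl, rfl⟩, h5⟩ := heq
      obtain ⟨y1, y2, y3, y4, y5⟩ := s.Z_geo hq.2
      obtain ⟨y1', y2', y3', y4', y5'⟩ := s.Z_geo hq'.2
      have ht : t = t' := by
        rw [← y5, ← y5', h5]
      rw [ht]
  have h4 : ((∑ p ∈ S, (s.Z p.1 p.2).card : ℕ) : ℝ) ≤ ((P ×ˢ range r).card : ℝ) := by exact_mod_cast h3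
  rw [card_product, card_range] at h4
  push_cast at h4 ⊢
  exact h4

/-- pairs `(z, w)` with `w` not an efficient hub of `z`. -/
theorem uh_bad (s : Src g r) (hr : 2 ≤ r) {e L : ℝ} (he : 0 < e) (hL : 0 ≤ L) (o : V) (S : Finset (V × V))
    (W : Finset V) (h : ∀ p ∈ S, p.1 ≠ p.2 ∧ g.d p.1 p.2 < 2 * r ∧ p.2 ∈ W ∧ p.2 ∉ s.E e p.1) :
    (S.card : ℝ) ≤ (s.Unc e (s.near e L o) : ℝ) + (W.card : ℝ) * L + (W.card : ℝ) * (r * nn V / e) := by
  set S1 := S.filter (fun p => 1 ≤ s.unc e (s.near e L o) p.1 p.2) with hS1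
  set S2 := S.filter (fun p => 0 < s.near e L o p.2 p.1) with hS2
  set S3 := S.filter (fun p => p.1 ∈ s.E e p.2) with hS3
  have hcov : S ⊆ S1 ∪ (S2 ∪ S3) := by
    intro p hp
    rw [mem_union, mem_union, hS1, hS2, hS3, mem_filter, mem_filter, mem_filter]
    by_contra hcon
    push Not at hcon
    obtain ⟨c1, c2, c3⟩ := hcon
    have c1 := c1 hp
    have c2 := c2 hp
    have c3 := c3 hp
    obtain ⟨h1, h2, h3, h4⟩ := h p hp
    rw [s.near_symm] at c2
    unfold Src.unc at c1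
    rw [if_neg (by push Not; exact ⟨h4, c3⟩)] at c1
    omega
  have hc1 : S1.card ≤ s.Unc e (s.near e L o) := by
    refine uh_unc_count s e _ S1 fun p hp => ?_
    rw [hS1, mem_filter] at hp
    exact ⟨(h p hp.1).1, hp.2⟩
  have hc2 : (S2.card : ℝ) ≤ (W.card : ℝ) * L := by
    have h1 : S2.card = ∑ w ∈ W, (S2.filter (fun p => p.2 = w)).card := by
      refine card_eq_sum_card_fiberwise fun p hp => ?_
      rw [hS2, mem_coe, mem_filter] at hp
      exact (h p hp.1).2.2.1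
    rw [h1]
    push_cast
    rw [← nsmul_eq_mul]
    refine sum_le_card_nsmul _ _ _ fun w _ => ?_
    refine le_trans ?_ (s.card_mates_le hr e L hL o w)
    have h2 : (S2.filter (fun p => p.2 = w)).card ≤ (univ.filter (fun q => 0 < s.near e L o w q)).card := by
      refine card_le_card_of_injOn Prod.fst ?_ ?_
      · intro p hp
        rw [mem_coe, mem_filter, hS2, mem_filter] at hp
        rw [mem_coe, mem_filter]
        refine ⟨mem_univ _, ?_⟩
        rw [← hp.2]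
        exact hp.1.2
      · intro p hp p' hp' heq
        rw [mem_coe, mem_filter] at hp hp'
        exact Prod.ext heq (hp.2.trans hp'.2.symm)
    exact_mod_cast h2
  have hc3 : (S3.card : ℝ) ≤ (W.card : ℝ) * (r * nn V / e) := by
    have h1 : S3.card = ∑ w ∈ W, (S3.filter (fun p => p.2 = w)).card := by
      refine card_eq_sum_card_fiberwise fun p hp => ?_
      rw [hS3, mem_coe, mem_filter] at hp
      exact (h p hp.1).2.2.1
    rw [h1]
    push_cast
    rw [← nsmul_eq_mul]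
    refine sum_le_card_nsmul _ _ _ fun w _ => ?_
    have h2 : (S3.filter (fun p => p.2 = w)).card ≤ (s.E e w).card := by
      refine card_le_card_of_injOn Prod.fst ?_ ?_
      · intro p hp
        rw [mem_coe, mem_filter, hS3, mem_filter] at hp
        rw [mem_coe, ← hp.2]
        exact hp.1.2
      · intro p hp p' hp' heq
        rw [mem_coe, mem_filter] at hp hp'
        exact Prod.ext heq (hp.2.trans hp'.2.symm)
    have h3 := s.card_E_mul_le he w
    have h4 : ((s.F w).card : ℝ) ≤ nn V := by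
      unfold nn
      exact_mod_cast card_le_univ _
    rw [le_div_iff₀ he]
    calc ((S3.filter (fun p => p.2 = w)).card : ℝ) * e ≤ ((s.E e w).card : ℝ) * e := by
          refine mul_le_mul_of_nonneg_right ?_ he.le
          exact_mod_cast h2
      _ ≤ r * ((s.F w).card : ℝ) := h3
      _ ≤ r * nn V := mul_le_mul_of_nonneg_left h4 (Nat.cast_nonneg _)
  have h5 : S.card ≤ S1.card + (S2.card + S3.card) :=
    (card_le_card hcov).trans ((card_union_le _ _).trans (Nat.add_le_add_left (card_union_le _ _) _))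
  have h6 : (S.card : ℝ) ≤ S1.card + (S2.card + S3.card) := by exact_mod_cast h5
  have h7 : (S1.card : ℝ) ≤ (s.Unc e (s.near e L o) : ℝ) := by exact_mod_cast hc1
  linarith

end aux


section dc
variable {V : Type} [Fintype V] {g : Geo V} {r : ℕ}

/-- the central double counting. -/
theorem uh_dc (hr : 2 ≤ r) (hr1 : 1 ≤ r) (diam : ∀ x y, g.d x y ≤ 2 * r) (eps0 e L b : ℝ) (he : 0 < e)
    (hb : 0 ≤ b) (o z : V) {j : ℕ} (hj : 1 ≤ j) (hjr : j < r) (w : V → V) (V3 : Finset V)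
    (h : ∀ v ∈ V3, g.d z v = 2 * r ∧ g.d v (w v) = j ∧ g.d z (w v) = 2 * r - j ∧
      w v ∈ (s1 g r hr1 eps0).E e z ∧ g.P v z j ≠ w v)
    (c : ℝ) (hc0 : 0 ≤ c) (hc1 : ∀ w0, ((V3.filter (fun v => w v = w0)).card : ℝ) ≤ c)
    (hc2 : ∀ w0, g.d z w0 = 2 * r - j → (((s1 g r hr1 eps0).Z z w0).card : ℝ) ≤ c) :
    (V3.card : ℝ) * e * e ≤ ((s1 g r hr1 eps0).Unc e ((s1 g r hr1 eps0).near e L z) : ℝ) * e +
      4 * b * ((s1 g r hr1 eps0).Unc e ((s1 g r hr1 eps0).near e L o) : ℝ) +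
      ((uhB g r b).card : ℝ) * (2 * c) * e := by
  set s := s1 g r hr1 eps0 with hs
  set S : Finset (V × V) := univ.filter (fun p => p.1 ∈ V3 ∧ p.2 ∈ s.Z z (w p.1)) with hS
  have hmem : ∀ p : V × V, p ∈ S ↔ p.1 ∈ V3 ∧ p.2 ∈ s.Z z (w p.1) := by
    intro p
    rw [hS, mem_filter]
    exact ⟨fun h => h.2, fun h => ⟨mem_univ _, h⟩⟩
  -- lower bound for the number of pairs
  have hlow : (V3.card : ℝ) * e ≤ (S.card : ℝ) := by
    have h1 : S.card = ∑ v ∈ V3, (S.filter (fun p => p.1 = v)).card := by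
      refine card_eq_sum_card_fiberwise fun p hp => ?_
      exact ((hmem p).1 hp).1
    rw [h1]
    push_cast
    rw [← nsmul_eq_mul]
    refine card_nsmul_le_sum _ _ _ fun v hv => ?_
    have h2 : (s.Z z (w v)).card ≤ (S.filter (fun p => p.1 = v)).card := by
      refine card_le_card_of_injOn (fun t => (v, t)) ?_ ?_
      · intro t ht
        rw [mem_coe, mem_filter, hmem]
        exact ⟨⟨hv, ht⟩, rfl⟩
      · intro t _ t' _ heq
        exact (Prod.ext_iff.1 heq).2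
    have h3 := (mem_filter.1 (h v hv).2.2.2.1).2.2
    exact h3.trans (by exact_mod_cast h2)
  -- the geometry of a pair
  have hgeo : ∀ p ∈ S, g.d z p.2 = 2 * r ∧ g.d p.2 (w p.1) = j ∧ g.P p.2 z j = w p.1 ∧ p.1 ≠ p.2 ∧
      g.d p.1 p.2 ≤ 2 * j := by
    intro p hp
    obtain ⟨hv, ht⟩ := (hmem p).1 hp
    obtain ⟨v1, v2, v3, v4, v5⟩ := h p.1 hv
    obtain ⟨y1, y2, y3, y4, y5⟩ := s.Z_geo ht
    rw [v3] at y4 y5
    have hjj : 2 * r - (2 * r - j) = j := by omega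
    rw [hjj] at y4 y5
    refine ⟨y1, y4, y5, ?_, ?_⟩
    · intro heq
      apply v5
      rw [heq] at v5 ⊢
      rw [heq] at y5
      exact y5
    · have := g.tri p.1 (w p.1) p.2
      rw [g.symm (w p.1) p.2] at this
      omega
  set S1 := S.filter (fun p => 1 ≤ s.unc e (s.near e L z) p.1 p.2) with hS1
  set Sa := S.filter (fun p => p.2 ∈ s.E e p.1 ∧ p.2 ∉ uhB g r b) with hSa
  set Sc := S.filter (fun p => p.1 ∈ s.E e p.2 ∧ p.1 ∉ uhB g r b) with hSc
  set Sb := S.filter (fun p => p.2 ∈ uhB g r b) with hSb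
  set Sd := S.filter (fun p => p.1 ∈ uhB g r b) with hSd
  have hcov : S ⊆ S1 ∪ (Sa ∪ (Sc ∪ (Sb ∪ Sd))) := by
    intro p hp
    simp only [mem_union, hS1, hSa, hSc, hSb, hSd, mem_filter]
    by_contra hcon
    push Not at hcon
    obtain ⟨c1, c2, c3, c4, c5⟩ := hcon
    have c1 := c1 hp
    have c4 := c4 hp
    have c5 := c5 hp
    have c2 : p.2 ∉ s.E e p.1 := fun hh => c4 (c2 hp hh)
    have c3 : p.1 ∉ s.E e p.2 := fun hh => c5 (c3 hp hh)
    obtain ⟨hv, ht⟩ := (hmem p).1 hp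
    obtain ⟨v1, v2, v3, v4, v5⟩ := h p.1 hv
    obtain ⟨y1, y2, y3, y4, y5⟩ := hgeo p hp
    unfold Src.unc at c1
    rw [if_neg (by push Not; exact ⟨c2, c3⟩)] at c1
    have hnear : s.near e L z p.1 p.2 ≤ 2 * (r - 1 - j) := by
      unfold Src.near
      split_ifs with hcond
      · have hF1 : p.1 ∈ s.F z := (mem_filter.1 (mem_filter.1 hcond.2.1).1).1
        have hF2 : p.2 ∈ s.F z := (mem_filter.1 (mem_filter.1 hcond.2.2).1).1
        refine Nat.mul_le_mul_left 2 ?_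
        unfold Src.kap
        have h1 : (Ico 1 r).filter (fun k => s.an z p.1 k = s.an z p.2 k) ⊆ Ico (j + 1) r := by
          intro k hk
          rw [mem_filter, mem_Ico] at hk
          rw [mem_Ico]
          refine ⟨?_, hk.1.2⟩
          by_contra hkj
          push Not at hkj
          have h2 := s.an_up hF1 hF2 (show k ≤ j by omega) hjr hk.2
          have h3 : s.an z p.1 j = g.P p.1 z j := rfl
          have h4 : s.an z p.2 j = g.P p.2 z j := rfl
          rw [h3, h4, y3] at h2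
          exact v5 h2
        have h2 := card_le_card h1
        rw [Nat.card_Ico] at h2
        omega
      · exact Nat.zero_le _
    omega
  have b1 : (S1.card : ℝ) ≤ (s.Unc e (s.near e L z) : ℝ) := by
    have : S1.card ≤ s.Unc e (s.near e L z) := by
      refine uh_unc_count s e _ S1 fun p hp => ?_
      rw [hS1, mem_filter] at hp
      exact ⟨(hgeo p hp.1).2.2.2.1, hp.2⟩
    exact_mod_cast this
  have ba : (Sa.card : ℝ) * e ≤ 2 * b * (s.Unc e (s.near e L o) : ℝ) := by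
    refine uh_pairsA s hr diam e L b hb o Sa fun p hp => ?_
    rw [hSa, mem_filter] at hp
    exact hp.2
  have bc : (Sc.card : ℝ) * e ≤ 2 * b * (s.Unc e (s.near e L o) : ℝ) := by
    have h1 := uh_pairsA s hr diam e L b hb o (Sc.image Prod.swap) fun p hp => by
      rw [mem_image] at hp
      obtain ⟨q, hq, rfl⟩ := hp
      rw [hSc, mem_filter] at hq
      exact hq.2
    rwa [card_image_of_injective _ Prod.swap_injective] at h1
  have bb : (Sb.card : ℝ) ≤ ((uhB g r b).card : ℝ) * c := by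
    have h1 : Sb.card = ∑ t ∈ uhB g r b, (Sb.filter (fun p => p.2 = t)).card := by
      refine card_eq_sum_card_fiberwise fun p hp => ?_
      rw [hSb, mem_coe, mem_filter] at hp
      exact hp.2
    rw [h1]
    push_cast
    rw [← nsmul_eq_mul]
    refine sum_le_card_nsmul _ _ _ fun t _ => ?_
    refine le_trans ?_ (hc1 (g.P t z j))
    have h2 : (Sb.filter (fun p => p.2 = t)).card ≤ (V3.filter (fun v => w v = g.P t z j)).card := by
      refine card_le_card_of_injOn Prod.fst ?_ ?_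
      · intro p hp
        rw [mem_coe, mem_filter, hSb, mem_filter] at hp
        rw [mem_coe, mem_filter]
        refine ⟨((hmem p).1 hp.1.1).1, ?_⟩
        rw [← hp.2]
        exact (hgeo p hp.1.1).2.2.1.symm
      · intro p hp p' hp' heq
        rw [mem_coe, mem_filter] at hp hp'
        exact Prod.ext heq (hp.2.trans hp'.2.symm)
    exact_mod_cast h2
  have bd : (Sd.card : ℝ) ≤ ((uhB g r b).card : ℝ) * c := by
    have h1 : Sd.card = ∑ v ∈ uhB g r b, (Sd.filter (fun p => p.1 = v)).card := by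
      refine card_eq_sum_card_fiberwise fun p hp => ?_
      rw [hSd, mem_coe, mem_filter] at hp
      exact hp.2
    rw [h1]
    push_cast
    rw [← nsmul_eq_mul]
    refine sum_le_card_nsmul _ _ _ fun v _ => ?_
    by_cases hv : v ∈ V3
    · refine le_trans ?_ (hc2 (w v) (h v hv).2.2.1)
      have h2 : (Sd.filter (fun p => p.1 = v)).card ≤ (s.Z z (w v)).card := by
        refine card_le_card_of_injOn Prod.snd ?_ ?_
        · intro p hp
          rw [mem_coe, mem_filter, hSd, mem_filter] at hp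
          rw [mem_coe, ← hp.2]
          exact ((hmem p).1 hp.1.1).2
        · intro p hp p' hp' heq
          rw [mem_coe, mem_filter] at hp hp'
          exact Prod.ext (hp.2.trans hp'.2.symm) heq
      exact_mod_cast h2
    · have h2 : Sd.filter (fun p => p.1 = v) = ∅ := by
        rw [filter_eq_empty_iff]
        intro p hp heq
        rw [hSd, mem_filter] at hp
        exact hv (heq ▸ ((hmem p).1 hp.1).1)
      rw [h2, card_empty, Nat.cast_zero]
      exact hc0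
  have h5 : S.card ≤ S1.card + (Sa.card + (Sc.card + (Sb.card + Sd.card))) := by
    refine (card_le_card hcov).trans ((card_union_le _ _).trans (Nat.add_le_add_left ?_ _))
    refine (card_union_le _ _).trans (Nat.add_le_add_left ?_ _)
    exact (card_union_le _ _).trans (Nat.add_le_add_left (card_union_le _ _) _)
  have h6 : (S.card : ℝ) ≤ S1.card + (Sa.card + (Sc.card + (Sb.card + Sd.card))) := by exact_mod_cast h5
  have h7 : (S.card : ℝ) * e ≤ (S1.card + (Sa.card + (Sc.card + (Sb.card + Sd.card)))) * e :=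
    mul_le_mul_of_nonneg_right h6 he.le
  have h8 := mul_le_mul_of_nonneg_right hlow he.le
  have h9 := mul_le_mul_of_nonneg_right b1 he.le
  have h10 := mul_le_mul_of_nonneg_right bb he.le
  have h11 := mul_le_mul_of_nonneg_right bd he.le
  nlinarith

end dc


section count
variable {V : Type} [Fintype V] {g : Geo V} {r : ℕ}

theorem uh_markov (S : Finset V) (a : ℝ)
    (h : ∀ x ∈ S, a ≤ ((∑ y ∈ univ.filter (fun y => y ≠ x), (2 * r - g.d x y) : ℕ) : ℝ)) :
    (S.card : ℝ) * a ≤ (g.D2 r : ℝ) := by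
  calc (S.card : ℝ) * a ≤ ∑ x ∈ S, ((∑ y ∈ univ.filter (fun y => y ≠ x), (2 * r - g.d x y) : ℕ) : ℝ) := by
        rw [← nsmul_eq_mul]
        exact card_nsmul_le_sum _ _ _ h
    _ ≤ ∑ x : V, ((∑ y ∈ univ.filter (fun y => y ≠ x), (2 * r - g.d x y) : ℕ) : ℝ) :=
        sum_le_univ_sum_of_nonneg fun _ => Nat.cast_nonneg _
    _ = _ := by
        unfold Geo.D2
        push_cast
        rfl

theorem uh_close (S : Finset V) (x : V) (h : ∀ y ∈ S, y ≠ x ∧ g.d x y < 2 * r) :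
    S.card ≤ ∑ y ∈ univ.filter (fun y => y ≠ x), (2 * r - g.d x y) := by
  rw [card_eq_sum_ones]
  calc ∑ _y ∈ S, 1 ≤ ∑ y ∈ S, (2 * r - g.d x y) := sum_le_sum fun y hy => by
        have := (h y hy).2
        omega
    _ ≤ _ := sum_le_sum_of_subset fun y hy => by
        rw [mem_filter]
        exact ⟨mem_univ _, (h y hy).1⟩

theorem uh_heavy (hr : 1 ≤ r) (eps0 : ℝ) :
    ((univ.filter (fun x => x ∉ lightO g r eps0)).card : ℝ) * (eps0 * nn V - 1) ≤ (g.D2 r : ℝ) := by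
  refine uh_markov _ _ fun x hx => ?_
  rw [mem_filter] at hx
  have h1 : eps0 * nn V < ((g.ball (2 * r - 1) x).card : ℝ) := by
    by_contra hcon
    push Not at hcon
    refine hx.2 ?_
    unfold lightO
    rw [mem_filter]
    exact ⟨mem_univ _, hcon⟩
  have h2 := uh_close (g := g) (r := r) ((g.ball (2 * r - 1) x).erase x) x fun y hy => by
    rw [mem_erase] at hy
    refine ⟨hy.1, ?_⟩
    have := hy.2
    unfold Geo.ball at this
    rw [mem_filter] at this
    omega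
  have h3 : x ∈ g.ball (2 * r - 1) x := by
    unfold Geo.ball
    rw [mem_filter, g.dself]
    exact ⟨mem_univ _, Nat.zero_le _⟩
  have h4 := card_erase_add_one h3
  have h5 : ((g.ball (2 * r - 1) x).card : ℝ) ≤ ((∑ y ∈ univ.filter (fun y => y ≠ x), (2 * r - g.d x y) : ℕ) : ℝ) + 1 := by
    rw [← h4]
    exact_mod_cast Nat.add_le_add_right h2 1
  linarith

theorem uh_fiber {α β : Type} [DecidableEq β] (S : Finset α) (f : α → β) (c : ℝ)
    (h : ∀ b ∈ S.image f, ((S.filter (fun a => f a = b)).card : ℝ) ≤ c) :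
    (S.card : ℝ) ≤ ((S.image f).card : ℝ) * c := by
  rw [card_eq_sum_card_image f S]
  push_cast
  rw [← nsmul_eq_mul]
  exact sum_le_card_nsmul _ _ _ h

theorem uh_cluster (hr : 1 ≤ r) {KD q : ℝ} (hKD : 1 ≤ KD) (hq : 1 ≤ q) (hD : (g.D2 r : ℝ) ≤ KD * q ^ 6)
    (Y : Finset V) (hY : ∀ y ∈ Y, ∀ y' ∈ Y, g.d y y' ≤ 2 * (r - 1)) :
    (Y.card : ℝ) ≤ (KD + 1) * q ^ 3 := by
  by_contra hcon
  push Not at hcon
  have h1 := mid_small (g := g) hr Y hY
  have hq3 : 1 ≤ q ^ 3 := one_le_pow₀ hq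
  have hpos : 1 ≤ Y.card := by
    rcases Nat.eq_zero_or_pos Y.card with h0 | h0
    · rw [h0, Nat.cast_zero] at hcon
      nlinarith
    · exact h0
  have h2 : (2 * ((Y.card : ℝ) * ((Y.card : ℝ) - 1))) ≤ (g.D2 r : ℝ) := by
    have : ((2 * (Y.card * (Y.card - 1)) : ℕ) : ℝ) ≤ (g.D2 r : ℝ) := by exact_mod_cast h1
    push_cast [Nat.cast_sub hpos] at this
    exact this
  have h3 : KD * q ^ 3 ≤ (Y.card : ℝ) - 1 := by nlinarith
  have h4 : KD * q ^ 3 ≤ (Y.card : ℝ) := by linarith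
  have h5 : 0 < KD * q ^ 3 := by positivity
  have h6 : (KD * q ^ 3) * (KD * q ^ 3) ≤ (Y.card : ℝ) * ((Y.card : ℝ) - 1) :=
    mul_le_mul h4 h3 h5.le (by linarith)
  have h7 : (KD * q ^ 3) * (KD * q ^ 3) = KD * (KD * q ^ 6) := by ring
  have h8 : KD * q ^ 6 ≤ KD * (KD * q ^ 6) := by
    have : 0 < KD * q ^ 6 := by positivity
    nlinarith
  have h9 : 0 < KD * q ^ 6 := by positivity
  nlinarith

/-- number of pairs with an inefficient hub. -/
theorem uh_badcount (s : Src g r) (hr : 2 ≤ r) {e L : ℝ} (he : 0 < e) (hL : 0 ≤ L) (o m : V) {j : ℕ}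
    (hj : 1 ≤ j) (hjr : j < r) (w : V → V) (V0 V2 : Finset V) (hV0 : ∀ v ∈ V0, g.d (w v) m = r - j ∧ g.d v (w v) = j)
    (hV2 : ∀ z ∈ V2, g.d z m = r) (c : ℝ) (hc0 : 0 ≤ c)
    (hc : ∀ Y : Finset V, (∀ y ∈ Y, ∀ y' ∈ Y, g.d y y' ≤ 2 * (r - 1)) → (Y.card : ℝ) ≤ c) :
    ((∑ z ∈ V2, (V0.filter (fun v => w v ∉ s.E e z)).card : ℕ) : ℝ) ≤
      ((s.Unc e (s.near e L o) : ℝ) + ((V0.image w).card : ℝ) * L + ((V0.image w).card : ℝ) * (r * nn V / e)) * c := by
  set S : Finset (V × V) := univ.filter (fun p => p.1 ∈ V2 ∧ p.2 ∈ V0 ∧ w p.2 ∉ s.E e p.1) with hS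
  have hmem : ∀ p : V × V, p ∈ S ↔ p.1 ∈ V2 ∧ p.2 ∈ V0 ∧ w p.2 ∉ s.E e p.1 := by
    intro p
    rw [hS, mem_filter]
    exact ⟨fun h => h.2, fun h => ⟨mem_univ _, h⟩⟩
  have h1 : (∑ z ∈ V2, (V0.filter (fun v => w v ∉ s.E e z)).card) ≤ S.card := by
    have h2 : S.card = ∑ z ∈ V2, (S.filter (fun p => p.1 = z)).card := by
      refine card_eq_sum_card_fiberwise fun p hp => ?_
      exact ((hmem p).1 hp).1
    rw [h2]
    refine sum_le_sum fun z hz => ?_
    refine card_le_card_of_injOn (fun v => (z, v)) ?_ ?_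
    · intro v hv
      rw [mem_coe, mem_filter] at hv
      rw [mem_coe, mem_filter, hmem]
      exact ⟨⟨hz, hv⟩, rfl⟩
    · intro v _ v' _ heq
      exact (Prod.ext_iff.1 heq).2
  have h2 : (S.card : ℝ) ≤ ((S.image (fun p => (p.1, w p.2))).card : ℝ) * c := by
    refine uh_fiber S _ c fun b _ => ?_
    have h3 := hc ((V0.filter (fun v => w v = b.2))) fun y hy y' hy' => by
      rw [mem_filter] at hy hy'
      have h4 := g.tri y b.2 y'
      have h5 := (hV0 y hy.1).2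
      have h6 := (hV0 y' hy'.1).2
      rw [hy.2] at h5
      rw [hy'.2] at h6
      rw [g.symm b.2 y'] at h4
      omega
    refine le_trans ?_ h3
    have h4 : (S.filter (fun p => (p.1, w p.2) = b)).card ≤ (V0.filter (fun v => w v = b.2)).card := by
      refine card_le_card_of_injOn Prod.snd ?_ ?_
      · intro p hp
        rw [mem_coe, mem_filter, hmem] at hp
        rw [mem_coe, mem_filter]
        exact ⟨hp.1.2.1, by rw [← hp.2]⟩
      · intro p hp p' hp' heq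
        rw [mem_coe, mem_filter] at hp hp'
        refine Prod.ext ?_ heq
        have h5 := congrArg Prod.fst hp.2
        have h6 := congrArg Prod.fst hp'.2
        simp only at h5 h6
        rw [h5, h6]
    exact_mod_cast h4
  have h3 := uh_bad s hr he hL o (S.image (fun p => (p.1, w p.2))) (V0.image w) fun p hp => by
    rw [mem_image] at hp
    obtain ⟨p', hp', rfl⟩ := hp
    obtain ⟨a1, a2, a3⟩ := (hmem p').1 hp'
    have b1 := hV0 _ a2
    have b2 := hV2 _ a1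
    refine ⟨?_, ?_, mem_image_of_mem _ a2, a3⟩
    · intro heq
      simp only at heq
      rw [← heq] at b1
      omega
    · have := g.tri p'.1 m (w p'.2)
      rw [g.symm m] at this
      simp only
      omega
  have h4 : ((∑ z ∈ V2, (V0.filter (fun v => w v ∉ s.E e z)).card : ℕ) : ℝ) ≤ (S.card : ℝ) := by exact_mod_cast h1
  exact h4.trans (h2.trans (mul_le_mul_of_nonneg_right h3 hc0))

end count


section core
variable {V : Type} [Fintype V] {g : Geo V} {r : ℕ}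

/-- choice of a light reference point. -/
theorem uh_ref {A : Finset V} {f : V → ℕ} {K N : ℝ} (hK : 0 < K) (hN : 0 < N) (hA : N ≤ 2 * (A.card : ℝ))
    (h : (∑ o ∈ A, (f o : ℝ)) ≤ K * N * N) : ∃ o ∈ A, (f o : ℝ) ≤ 2 * K * N := by
  by_contra hcon
  push Not at hcon
  have h1 : (A.card : ℝ) * (2 * K * N) < ∑ o ∈ A, (f o : ℝ) := by
    have hne : A.Nonempty := by
      rw [← card_pos]
      have : (0 : ℝ) < (A.card : ℝ) := by linarith
      exact_mod_cast this
    rw [← nsmul_eq_mul, ← sum_const]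
    exact sum_lt_sum_of_nonempty hne hcon
  have h2 : K * N * N ≤ (A.card : ℝ) * (2 * K * N) := by
    have : 0 < K * N := by positivity
    nlinarith
  linarith

theorem uh_D2 {Lam K0 : ℝ} {tau : ℕ} (hK0 : 1 ≤ K0) (hg : Glob g r Lam K0 tau) {q : ℝ} (hq : 1 ≤ q)
    (hn : nn V = q ^ 4) (hs : ss V = q ^ 2) : (g.D2 r : ℝ) ≤ (2 * r + 2 * K0) * q ^ 6 := by
  have h1 : (g.D2 r : ℝ) ≤ ((2 * (r * (Fintype.card V - 1) + tau) : ℕ) : ℝ) := by exact_mod_cast hg.hH
  have h2 : (((Fintype.card V - 1 : ℕ)) : ℝ) ≤ nn V := by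
    unfold nn
    exact_mod_cast Nat.sub_le _ _
  have h3 := hg.tauK
  rw [hn, hs] at h3
  rw [hn] at h2
  push_cast at h1
  have h4 : (r : ℝ) * (((Fintype.card V - 1 : ℕ)) : ℝ) ≤ r * q ^ 4 :=
    mul_le_mul_of_nonneg_left h2 (Nat.cast_nonneg _)
  have h5 : (r : ℝ) * q ^ 4 ≤ r * q ^ 6 :=
    mul_le_mul_of_nonneg_left (pow_le_pow_right₀ hq (by norm_num)) (Nat.cast_nonneg _)
  have h6 : K0 * q ^ 4 * q ^ 2 = K0 * q ^ 6 := by ring
  rw [h6] at h3
  linarith

theorem uh_core (hr : 2 ≤ r) (hr1 : 1 ≤ r) {Lam K0 eta C : ℝ} (hK0 : 1 ≤ K0) (heta : 0 < eta) (hC : 0 ≤ C)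
    {eps0 K1 : ℝ} (h0 : 0 < eps0) (hK1 : 0 < K1)
    {eps1 th : ℝ} (he1 : 0 < eps1) (hth : 0 < th) {tau : ℕ} (hg : Glob g r Lam K0 tau) {q : ℝ} (hq : 1 ≤ q)
    (hn : nn V = q ^ 4) (hs : ss V = q ^ 2) {KD KC KB eps2 : ℝ} (hKD : KD = 2 * r + 2 * K0) (hKC : KC = KD + 1)
    (hKB : KB = 2 * K1 + 2 * KD / eps1 * C + 2 * KD / eps1 * (r / eta)) (heps2 : eps2 = th * eta ^ 2 / (160 * K1))
    (q1 : 2 ≤ eps0 * q ^ 4) (q2 : 4 * KD / eps0 ≤ q ^ 2) (q3 : 2 ≤ eps1 * q ^ 4)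
    (q4 : 4 * (2 * KD / eps0 + 20 * KD / th) ≤ th * q ^ 2) (q5 : 80 * KC * KB < th ^ 2 * q) (q6 : 5 ≤ th * q ^ 4)
    (q7 : 2 ≤ eps2 * q ^ 4) (q8 : 20 * (4 * K1 / th * eta + 4 * KD * KC / eps2 * eta) < th * eta ^ 2 * q)
    (hU : (∑ o ∈ lightO g r eps0, (U1 g r hr1 eps0 eta C o : ℝ)) ≤ K1 * nn V * nn V)
    {m1 m2 : V} (hm1 : m1 ∈ bigM g r (eps1 * nn V)) (hm2 : m2 ∈ bigM g r (eps1 * nn V)) {j : ℕ} (hj : 1 ≤ j)
    (hjr : j < r) :
    ((univ.filter (fun v => g.d v m1 = r ∧ g.d v m2 = r ∧ g.P v m1 j ≠ g.P v m2 j)).card : ℝ) ≤ th * nn V := by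
  by_contra hcon
  push Not at hcon
  set V0 := univ.filter (fun v => g.d v m1 = r ∧ g.d v m2 = r ∧ g.P v m1 j ≠ g.P v m2 j) with hV0
  have hKD1 : 1 ≤ KD := by
    rw [hKD]
    have : (0 : ℝ) ≤ r := Nat.cast_nonneg _
    linarith
  have hq0 : 0 < q := by linarith
  have hD : (g.D2 r : ℝ) ≤ KD * q ^ 6 := by rw [hKD]; exact uh_D2 hK0 hg hq hn hs
  have heps2' : 0 < eps2 := by rw [heps2]; positivity
  have hKC0 : 0 < KC := by rw [hKC]; linarith
  have hdiam := hg.diam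
  -- heavy points
  have hheavy : ((univ.filter (fun x => x ∉ lightO g r eps0)).card : ℝ) ≤ 2 * KD / eps0 * q ^ 2 := by
    have h1 := uh_heavy (g := g) hr1 eps0
    rw [hn] at h1
    have h2 : eps0 * q ^ 4 / 2 ≤ eps0 * q ^ 4 - 1 := by linarith
    have h3 : ((univ.filter (fun x => x ∉ lightO g r eps0)).card : ℝ) * (eps0 * q ^ 4 / 2) ≤ KD * q ^ 6 :=
      (mul_le_mul_of_nonneg_left h2 (Nat.cast_nonneg _)).trans (h1.trans hD)
    rw [div_mul_eq_mul_div, le_div_iff₀ h0]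
    have h4 : (0 : ℝ) < q ^ 4 / 2 := by positivity
    refine le_of_mul_le_mul_right ?_ h4
    calc _ = ((univ.filter (fun x => x ∉ lightO g r eps0)).card : ℝ) * (eps0 * q ^ 4 / 2) := by ring
      _ ≤ KD * q ^ 6 := h3
      _ = _ := by ring
  have hB : ∀ eps : ℝ, 0 < eps → 2 ≤ eps * q ^ 4 → ((uhB g r (eps * nn V)).card : ℝ) ≤ 2 * KD / eps * q ^ 2 := by
    intro eps heps hq'
    have h1 := mid_heavy (g := g) (r := r) (eps * nn V) (by rw [hn]; positivity)
    rw [hn] at h1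
    have h2 : eps * q ^ 4 / 2 ≤ eps * q ^ 4 - 1 := by linarith
    have h3 : ((uhB g r (eps * q ^ 4)).card : ℝ) * (eps * q ^ 4 / 2) ≤ KD * q ^ 6 :=
      (mul_le_mul_of_nonneg_left h2 (Nat.cast_nonneg _)).trans (h1.trans hD)
    rw [hn, div_mul_eq_mul_div, le_div_iff₀ heps]
    have h4 : (0 : ℝ) < q ^ 4 / 2 := by positivity
    refine le_of_mul_le_mul_right ?_ h4
    calc _ = ((uhB g r (eps * q ^ 4)).card : ℝ) * (eps * q ^ 4 / 2) := by ring
      _ ≤ KD * q ^ 6 := h3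
      _ = _ := by ring
  -- many light points
  have hlight : q ^ 4 ≤ 2 * ((lightO g r eps0).card : ℝ) := by
    have h1 : (univ.filter (fun x => x ∉ lightO g r eps0)) = (lightO g r eps0)ᶜ := by
      ext x
      simp
    have h2 := card_add_card_compl (lightO g r eps0)
    rw [← h1] at h2
    have h3 : ((lightO g r eps0).card : ℝ) + ((univ.filter (fun x => x ∉ lightO g r eps0)).card : ℝ) = q ^ 4 := by
      rw [← hn]
      unfold nn
      exact_mod_cast h2
    have h4 : 4 * KD / eps0 * q ^ 2 ≤ q ^ 2 * q ^ 2 := mul_le_mul_of_nonneg_right q2 (by positivity)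
    have h5 : 4 * KD / eps0 * q ^ 2 = 2 * (2 * KD / eps0 * q ^ 2) := by ring
    have h6 : q ^ 2 * q ^ 2 = q ^ 4 := by ring
    linarith
  rw [hn] at hU
  obtain ⟨o, ho, hoU⟩ := uh_ref hK1 (by positivity : (0 : ℝ) < q ^ 4) hlight hU
  -- constants
  set s := s1 g r hr1 eps0 with hsdef
  have hU1 : ∀ x, U1 g r hr1 eps0 eta C x = s.Unc (eta * q ^ 2) (s.near (eta * q ^ 2) (C * q ^ 2) x) := by
    intro x
    unfold U1
    rw [hs]
  have he : 0 < eta * q ^ 2 := by positivity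
  have hL : 0 ≤ C * q ^ 2 := by positivity
  have hcl : ∀ Y : Finset V, (∀ y ∈ Y, ∀ y' ∈ Y, g.d y y' ≤ 2 * (r - 1)) → (Y.card : ℝ) ≤ KC * q ^ 3 := by
    intro Y hY
    rw [hKC]
    exact uh_cluster hr1 hKD1 hq hD Y hY
  -- the set of good reference points in V0
  set V2 := V0.filter (fun z => z ∈ lightO g r eps0 ∧
    ((∑ y ∈ univ.filter (fun y => y ≠ z), (2 * r - g.d z y) : ℕ) : ℝ) ≤ th * q ^ 4 / 20 ∧
    (U1 g r hr1 eps0 eta C z : ℝ) ≤ 4 * K1 / th * q ^ 4) with hV2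
  have hV2c : th * q ^ 4 / 2 ≤ (V2.card : ℝ) := by
    set A2 := univ.filter (fun z : V => th * q ^ 4 / 20 ≤ ((∑ y ∈ univ.filter (fun y => y ≠ z), (2 * r - g.d z y) : ℕ) : ℝ)) with hA2
    set A3 := (lightO g r eps0).filter (fun z => 4 * K1 / th * q ^ 4 ≤ (U1 g r hr1 eps0 eta C z : ℝ)) with hA3
    have hcov : V0 ⊆ V2 ∪ ((univ.filter (fun x => x ∉ lightO g r eps0)) ∪ (A2 ∪ A3)) := by
      intro z hz
      simp only [mem_union, hV2, hA2, hA3, mem_filter, mem_univ, true_and]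
      by_cases a1 : z ∈ lightO g r eps0
      · by_cases a2 : ((∑ y ∈ univ.filter (fun y => y ≠ z), (2 * r - g.d z y) : ℕ) : ℝ) ≤ th * q ^ 4 / 20
        · by_cases a3 : (U1 g r hr1 eps0 eta C z : ℝ) ≤ 4 * K1 / th * q ^ 4
          · exact Or.inl ⟨hz, a1, a2, a3⟩
          · exact Or.inr (Or.inr (Or.inr ⟨a1, (not_le.1 a3).le⟩))
        · exact Or.inr (Or.inr (Or.inl (not_le.1 a2).le))
      · exact Or.inr (Or.inl a1)
    have hc : V0.card ≤ V2.card + ((univ.filter (fun x => x ∉ lightO g r eps0)).card + (A2.card + A3.card)) :=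
      (card_le_card hcov).trans ((card_union_le _ _).trans (Nat.add_le_add_left
        ((card_union_le _ _).trans (Nat.add_le_add_left (card_union_le _ _) _)) _))
    have hc' : (V0.card : ℝ) ≤ V2.card + ((univ.filter (fun x => x ∉ lightO g r eps0)).card + (A2.card + A3.card)) := by
      exact_mod_cast hc
    have hA2c : (A2.card : ℝ) ≤ 20 * KD / th * q ^ 2 := by
      have h1 := uh_markov (g := g) (r := r) A2 (th * q ^ 4 / 20) fun x hx => by
        rw [hA2, mem_filter] at hx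
        exact hx.2
      rw [div_mul_eq_mul_div, le_div_iff₀ hth]
      have h4 : (0 : ℝ) < q ^ 4 / 20 := by positivity
      refine le_of_mul_le_mul_right ?_ h4
      calc _ = (A2.card : ℝ) * (th * q ^ 4 / 20) := by ring
        _ ≤ KD * q ^ 6 := h1.trans hD
        _ = _ := by ring
    have hA3c : (A3.card : ℝ) ≤ th * q ^ 4 / 4 := by
      have h1 : (A3.card : ℝ) * (4 * K1 / th * q ^ 4) ≤ ∑ o ∈ lightO g r eps0, (U1 g r hr1 eps0 eta C o : ℝ) := by
        calc (A3.card : ℝ) * (4 * K1 / th * q ^ 4) ≤ ∑ o ∈ A3, (U1 g r hr1 eps0 eta C o : ℝ) := by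
              rw [← nsmul_eq_mul]
              refine card_nsmul_le_sum _ _ _ fun x hx => ?_
              rw [hA3, mem_filter] at hx
              exact hx.2
          _ ≤ _ := sum_le_sum_of_subset_of_nonneg (filter_subset _ _) fun _ _ _ => Nat.cast_nonneg _
      have h2 : (A3.card : ℝ) * (4 * K1 / th * q ^ 4) ≤ K1 * q ^ 4 * q ^ 4 := h1.trans hU
      have h4 : (0 : ℝ) < 4 * K1 / th * q ^ 4 := by positivity
      refine le_of_mul_le_mul_right ?_ h4
      calc _ ≤ K1 * q ^ 4 * q ^ 4 := h2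
        _ = _ := by field_simp
    rw [hn] at hcon
    have h7 : (2 * KD / eps0 + 20 * KD / th) * q ^ 2 ≤ th * q ^ 4 / 4 := by
      have h8 := mul_le_mul_of_nonneg_right q4 (by positivity : (0 : ℝ) ≤ q ^ 2)
      have h9 : th * q ^ 2 * q ^ 2 = th * q ^ 4 := by ring
      have h10 : 4 * (2 * KD / eps0 + 20 * KD / th) * q ^ 2 = 4 * ((2 * KD / eps0 + 20 * KD / th) * q ^ 2) := by ring
      linarith
    have h8 : (2 * KD / eps0 + 20 * KD / th) * q ^ 2 = 2 * KD / eps0 * q ^ 2 + 20 * KD / th * q ^ 2 := by ring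
    linarith
  -- geometry of the two hub functions
  have hgeo : ∀ m, ∀ v, g.d v m = r → g.d (g.P v m j) m = r - j ∧ g.d v (g.P v m j) = j := by
    intro m v hv
    refine ⟨?_, g.dl v m j (by omega)⟩
    rw [g.dr v m j (by omega), hv]
  have himg : ∀ m ∈ bigM g r (eps1 * nn V), (∀ v ∈ V0, g.d v m = r) →
      ((V0.image (fun v => g.P v m j)).card : ℝ) ≤ 2 * KD / eps1 * q ^ 2 := by
    intro m hm hv
    refine le_trans ?_ (hB eps1 he1 q3)
    have : V0.image (fun v => g.P v m j) ⊆ uhB g r (eps1 * nn V) := by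
      intro w hw
      rw [mem_image] at hw
      obtain ⟨v, hv', rfl⟩ := hw
      unfold uhB
      rw [mem_filter]
      refine ⟨mem_univ _, m, hm, ?_⟩
      rw [(hgeo m v (hv v hv')).1]
      omega
    exact_mod_cast card_le_card this
  have hmemV0 : ∀ v ∈ V0, g.d v m1 = r ∧ g.d v m2 = r ∧ g.P v m1 j ≠ g.P v m2 j := by
    intro v hv
    rw [hV0, mem_filter] at hv
    exact hv.2
  have hbad : ∀ m ∈ bigM g r (eps1 * nn V), (∀ v ∈ V0, g.d v m = r) →
      ((∑ z ∈ V2, (V0.filter (fun v => g.P v m j ∉ s.E (eta * q ^ 2) z)).card : ℕ) : ℝ) ≤ KB * q ^ 4 * (KC * q ^ 3) := by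
    intro m hm hv
    have h1 := uh_badcount s hr he hL o m hj hjr (fun v => g.P v m j) V0 V2
      (fun v hv' => hgeo m v (hv v hv')) (fun z hz => hv z (mem_filter.1 hz).1) (KC * q ^ 3) (by positivity) hcl
    refine h1.trans (mul_le_mul_of_nonneg_right ?_ (by positivity))
    have h2 := himg m hm hv
    have h3 : (s.Unc (eta * q ^ 2) (s.near (eta * q ^ 2) (C * q ^ 2) o) : ℝ) ≤ 2 * K1 * q ^ 4 := by
      rw [← hU1]
      exact hoU
    have h4 := mul_le_mul_of_nonneg_right h2 hL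
    have h5 : (r : ℝ) * nn V / (eta * q ^ 2) = r / eta * q ^ 2 := by
      rw [hn]
      field_simp
    have h6 : (0 : ℝ) ≤ r / eta * q ^ 2 := by positivity
    have h7 := mul_le_mul_of_nonneg_right h2 h6
    rw [h5]
    have h8 : KB * q ^ 4 = 2 * K1 * q ^ 4 + 2 * KD / eps1 * q ^ 2 * (C * q ^ 2) + 2 * KD / eps1 * q ^ 2 * (r / eta * q ^ 2) := by
      rw [hKB]
      ring
    rw [h8]
    linarith
  have hbad1 := hbad m1 hm1 fun v hv => (hmemV0 v hv).1
  have hbad2 := hbad m2 hm2 fun v hv => (hmemV0 v hv).2.1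
  have hKB0 : 0 < KB := by
    rw [hKB]
    positivity
  -- choice of z
  obtain ⟨z, hz, hzb⟩ : ∃ z ∈ V2, (((V0.filter (fun v => g.P v m1 j ∉ s.E (eta * q ^ 2) z)).card : ℝ) +
      ((V0.filter (fun v => g.P v m2 j ∉ s.E (eta * q ^ 2) z)).card : ℝ)) ≤ th * q ^ 4 / 20 := by
    by_contra hcon2
    push Not at hcon2
    have h1 : (V2.card : ℝ) * (th * q ^ 4 / 20) ≤ ∑ z ∈ V2, (((V0.filter (fun v => g.P v m1 j ∉ s.E (eta * q ^ 2) z)).card : ℝ) +
      ((V0.filter (fun v => g.P v m2 j ∉ s.E (eta * q ^ 2) z)).card : ℝ)) := by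
      rw [← nsmul_eq_mul]
      exact card_nsmul_le_sum _ _ _ fun x hx => (hcon2 x hx).le
    rw [sum_add_distrib] at h1
    push_cast at hbad1 hbad2
    have h2 : (th * q ^ 4 / 2) * (th * q ^ 4 / 20) ≤ (V2.card : ℝ) * (th * q ^ 4 / 20) :=
      mul_le_mul_of_nonneg_right hV2c (by positivity)
    have h3 : (th * q ^ 4 / 2) * (th * q ^ 4 / 20) ≤ 2 * (KB * q ^ 4 * (KC * q ^ 3)) := by linarith
    have h4 : (80 * KC * KB) * q ^ 7 < (th ^ 2 * q) * q ^ 7 := mul_lt_mul_of_pos_right q5 (by positivity)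
    have h5 : (th ^ 2 * q) * q ^ 7 = 40 * ((th * q ^ 4 / 2) * (th * q ^ 4 / 20)) := by ring
    have h6 : (80 * KC * KB) * q ^ 7 = 40 * (2 * (KB * q ^ 4 * (KC * q ^ 3))) := by ring
    rw [h5, h6] at h4
    linarith
  have hzV := hz
  rw [hV2, mem_filter] at hzV
  obtain ⟨hz0, hzl, hzd, hzU⟩ := hzV
  -- the sets A_i
  set A : V → Finset V := fun m => V2.filter (fun v => g.d z v = 2 * r ∧ g.P v m j ∈ s.E (eta * q ^ 2) z ∧
    g.P v z j ≠ g.P v m j) with hA
  have hsum : th * q ^ 4 / 5 ≤ ((A m1).card : ℝ) + ((A m2).card : ℝ) := by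
    set R := univ.filter (fun y => y ≠ z ∧ g.d z y < 2 * r) with hR
    have hcov : V2 ⊆ (A m1) ∪ ((A m2) ∪ ({z} ∪ (R ∪ ((V0.filter (fun v => g.P v m1 j ∉ s.E (eta * q ^ 2) z)) ∪
        (V0.filter (fun v => g.P v m2 j ∉ s.E (eta * q ^ 2) z)))))) := by
      intro v hv
      have hv0 : v ∈ V0 := (mem_filter.1 hv).1
      simp only [mem_union, hA, hR, mem_filter, mem_univ, true_and, mem_singleton]
      by_cases a1 : v = z
      · exact Or.inr (Or.inr (Or.inl a1))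
      · by_cases a2 : g.d z v < 2 * r
        · exact Or.inr (Or.inr (Or.inr (Or.inl ⟨a1, a2⟩)))
        · have a2' : g.d z v = 2 * r := le_antisymm (hdiam z v) (not_lt.1 a2)
          by_cases a3 : g.P v m1 j ∈ s.E (eta * q ^ 2) z
          · by_cases a4 : g.P v m2 j ∈ s.E (eta * q ^ 2) z
            · by_cases a5 : g.P v z j = g.P v m1 j
              · refine Or.inr (Or.inl ⟨hv, a2', a4, ?_⟩)
                rw [a5]
                exact (hmemV0 v hv0).2.2
              · exact Or.inl ⟨hv, a2', a3, a5⟩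
            · exact Or.inr (Or.inr (Or.inr (Or.inr (Or.inr ⟨hv0, a4⟩))))
          · exact Or.inr (Or.inr (Or.inr (Or.inr (Or.inl ⟨hv0, a3⟩))))
    have hc : V2.card ≤ (A m1).card + ((A m2).card + (({z} : Finset V).card + (R.card +
        ((V0.filter (fun v => g.P v m1 j ∉ s.E (eta * q ^ 2) z)).card +
        (V0.filter (fun v => g.P v m2 j ∉ s.E (eta * q ^ 2) z)).card)))) := by
      refine (card_le_card hcov).trans ((card_union_le _ _).trans (Nat.add_le_add_left ?_ _))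
      refine (card_union_le _ _).trans (Nat.add_le_add_left ?_ _)
      refine (card_union_le _ _).trans (Nat.add_le_add_left ?_ _)
      exact (card_union_le _ _).trans (Nat.add_le_add_left (card_union_le _ _) _)
    rw [card_singleton] at hc
    have hc' : (V2.card : ℝ) ≤ (A m1).card + ((A m2).card + (1 + (R.card +
        ((V0.filter (fun v => g.P v m1 j ∉ s.E (eta * q ^ 2) z)).card +
        (V0.filter (fun v => g.P v m2 j ∉ s.E (eta * q ^ 2) z)).card)))) := by exact_mod_cast hc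
    have hRc : (R.card : ℝ) ≤ th * q ^ 4 / 20 := by
      refine le_trans ?_ hzd
      have := uh_close (g := g) (r := r) R z fun y hy => (mem_filter.1 hy).2
      exact_mod_cast this
    have h10 : 1 ≤ th * q ^ 4 / 5 := by linarith
    linarith
  obtain ⟨m, hmr, hmb, hmA⟩ : ∃ m, (∀ v ∈ V0, g.d v m = r) ∧ m ∈ bigM g r (eps1 * nn V) ∧
      th * q ^ 4 / 10 ≤ ((A m).card : ℝ) := by
    by_cases hc : th * q ^ 4 / 10 ≤ ((A m1).card : ℝ)
    · exact ⟨m1, fun v hv => (hmemV0 v hv).1, hm1, hc⟩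
    · refine ⟨m2, fun v hv => (hmemV0 v hv).2.1, hm2, ?_⟩
      push Not at hc
      linarith
  have hAm : ∀ v ∈ A m, v ∈ V0 ∧ g.d z v = 2 * r ∧ g.P v m j ∈ s.E (eta * q ^ 2) z ∧ g.P v z j ≠ g.P v m j := by
    intro v hv
    have hv' := (mem_filter.1 hv)
    exact ⟨(mem_filter.1 hv'.1).1, hv'.2⟩
  have hdc := uh_dc hr hr1 hdiam eps0 (eta * q ^ 2) (C * q ^ 2) (eps2 * nn V) he
    (by rw [hn]; positivity) o z hj hjr (fun v => g.P v m j) (A m) (fun v hv => by
      obtain ⟨a1, a2, a3, a4⟩ := hAm v hv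
      have b1 := hgeo m v (hmr v a1)
      have b2 := hmr z hz0
      refine ⟨a2, b1.2, ?_, a3, a4⟩
      have c1 := g.tri z m (g.P v m j)
      rw [g.symm m] at c1
      have c2 := g.tri z (g.P v m j) v
      rw [g.symm (g.P v m j) v] at c2
      omega) (KC * q ^ 3) (by positivity)
    (fun w0 => hcl _ fun y hy y' hy' => by
      rw [mem_filter] at hy hy'
      have b1 := (hgeo m y (hmr y (hAm y hy.1).1)).2
      have b2 := (hgeo m y' (hmr y' (hAm y' hy'.1).1)).2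
      have hy2 : g.P y m j = w0 := hy.2
      have hy2' : g.P y' m j = w0 := hy'.2
      rw [hy2] at b1
      rw [hy2'] at b2
      have c1 := g.tri y w0 y'
      rw [g.symm w0 y'] at c1
      omega)
    (fun w0 hw0 => hcl _ fun y hy y' hy' => by
      obtain ⟨y1, y2, y3, y4, y5⟩ := (s1 g r hr1 eps0).Z_geo hy
      obtain ⟨z1, z2, z3, z4, z5⟩ := (s1 g r hr1 eps0).Z_geo hy'
      have c1 := g.tri y w0 y'
      rw [g.symm w0 y'] at c1
      omega)
  rw [← hsdef, ← hU1, ← hU1] at hdc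
  have hBs := hB eps2 heps2' q7
  rw [hn] at hdc hBs
  have k1 : (th * q ^ 4 / 10) * (eta * q ^ 2) * (eta * q ^ 2) ≤ ((A m).card : ℝ) * (eta * q ^ 2) * (eta * q ^ 2) :=
    mul_le_mul_of_nonneg_right (mul_le_mul_of_nonneg_right hmA he.le) he.le
  have k2 : (U1 g r hr1 eps0 eta C z : ℝ) * (eta * q ^ 2) ≤ 4 * K1 / th * q ^ 4 * (eta * q ^ 2) :=
    mul_le_mul_of_nonneg_right hzU he.le
  have k3 : 4 * (eps2 * q ^ 4) * (U1 g r hr1 eps0 eta C o : ℝ) ≤ 4 * (eps2 * q ^ 4) * (2 * K1 * q ^ 4) :=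
    mul_le_mul_of_nonneg_left hoU (by positivity)
  have k4 : ((uhB g r (eps2 * q ^ 4)).card : ℝ) * (2 * (KC * q ^ 3)) * (eta * q ^ 2) ≤
      2 * KD / eps2 * q ^ 2 * (2 * (KC * q ^ 3)) * (eta * q ^ 2) :=
    mul_le_mul_of_nonneg_right (mul_le_mul_of_nonneg_right hBs (by positivity)) he.le
  have k5 : 4 * (eps2 * q ^ 4) * (2 * K1 * q ^ 4) = th * eta ^ 2 / 20 * q ^ 8 := by
    rw [heps2]
    field_simp
    ring
  have k6 : (th * q ^ 4 / 10) * (eta * q ^ 2) * (eta * q ^ 2) = th * eta ^ 2 / 10 * q ^ 8 := by ring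
  have k7 : 2 * KD / eps2 * q ^ 2 * (2 * (KC * q ^ 3)) * (eta * q ^ 2) = 4 * KD * KC / eps2 * eta * q ^ 7 := by ring
  have k8 : 4 * K1 / th * q ^ 4 * (eta * q ^ 2) = 4 * K1 / th * eta * q ^ 6 := by ring
  have k9 : 4 * K1 / th * eta * q ^ 6 ≤ 4 * K1 / th * eta * q ^ 7 :=
    mul_le_mul_of_nonneg_left (pow_le_pow_right₀ hq (by norm_num)) (by positivity)
  have k10 : 20 * (4 * K1 / th * eta + 4 * KD * KC / eps2 * eta) * q ^ 7 < th * eta ^ 2 * q * q ^ 7 :=
    mul_lt_mul_of_pos_right q8 (by positivity)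
  have k11 : th * eta ^ 2 * q * q ^ 7 = 20 * (th * eta ^ 2 / 20 * q ^ 8) := by ring
  have k12 : 20 * (4 * K1 / th * eta + 4 * KD * KC / eps2 * eta) * q ^ 7 =
      20 * (4 * K1 / th * eta * q ^ 7 + 4 * KD * KC / eps2 * eta * q ^ 7) := by ring
  have k13 : th * eta ^ 2 / 10 * q ^ 8 = 2 * (th * eta ^ 2 / 20 * q ^ 8) := by ring
  rw [k11, k12] at k10
  rw [k5] at k3
  rw [k6, k13] at k1
  rw [k7] at k4
  rw [k8] at k2
  linarith

end core

/-- SECTION 6. -/
theorem uh {r : ℕ} {Lam K0 eta C : ℝ} (hc : Cst r Lam K0 eta C) {eps0 K1 : ℝ} (h0 : 0 < eps0) (h1 : eps0 ≤ 1) (hK1 : 0 < K1)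
    {eps1 th : ℝ} (he1 : 0 < eps1) (hth : 0 < th) :
    ∃ n2 : ℝ, ∀ (V : Type) [Fintype V] (g : Geo V) (tau : ℕ), n2 ≤ nn V → Glob g r Lam K0 tau →
      (∑ o ∈ lightO g r eps0, (U1 g r (by have := hc.hr; omega) eps0 eta C o : ℝ)) ≤ K1 * nn V * nn V →
      ∀ m1 ∈ bigM g r (eps1 * nn V), ∀ m2 ∈ bigM g r (eps1 * nn V), ∀ j, 1 ≤ j → j < r →
        ((univ.filter (fun v => g.d v m1 = r ∧ g.d v m2 = r ∧ g.P v m1 j ≠ g.P v m2 j)).card : ℝ) ≤ th * nn V := by
  have heta := hc.heta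
  have hC0 : 0 ≤ C := by
    have h2 := hc.hC
    have h3 := hc.hLam
    have h4 : 0 ≤ 4 * (r : ℝ) / eta := by positivity
    linarith
  have hK0 := hc.hK0
  obtain ⟨KD, hKD⟩ : ∃ KD : ℝ, KD = 2 * r + 2 * K0 := ⟨_, rfl⟩
  obtain ⟨KC, hKC⟩ : ∃ KC : ℝ, KC = KD + 1 := ⟨_, rfl⟩
  obtain ⟨KB, hKB⟩ : ∃ KB : ℝ, KB = 2 * K1 + 2 * KD / eps1 * C + 2 * KD / eps1 * (r / eta) := ⟨_, rfl⟩
  obtain ⟨eps2, heps2⟩ : ∃ eps2 : ℝ, eps2 = th * eta ^ 2 / (160 * K1) := ⟨_, rfl⟩
  have hKD0 : 0 < KD := by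
    rw [hKD]
    have : (0 : ℝ) ≤ r := Nat.cast_nonneg _
    linarith
  have hKC0 : 0 < KC := by rw [hKC]; linarith
  have hKB0 : 0 < KB := by rw [hKB]; positivity
  have heps2' : 0 < eps2 := by rw [heps2]; positivity
  obtain ⟨q0, hq0⟩ : ∃ q0 : ℝ, 1 ≤ q0 ∧ 2 / eps0 ≤ q0 ∧ 4 * KD / eps0 ≤ q0 ∧ 2 / eps1 ≤ q0 ∧
      4 * (2 * KD / eps0 + 20 * KD / th) / th ≤ q0 ∧ 80 * KC * KB / th ^ 2 + 1 ≤ q0 ∧ 5 / th ≤ q0 ∧
      2 / eps2 ≤ q0 ∧ 20 * (4 * K1 / th * eta + 4 * KD * KC / eps2 * eta) / (th * eta ^ 2) + 1 ≤ q0 := by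
    have a1 : 0 ≤ 2 / eps0 := by positivity
    have a2 : 0 ≤ 4 * KD / eps0 := by positivity
    have a3 : 0 ≤ 2 / eps1 := by positivity
    have a4 : 0 ≤ 4 * (2 * KD / eps0 + 20 * KD / th) / th := by positivity
    have a5 : 0 ≤ 80 * KC * KB / th ^ 2 := by positivity
    have a6 : 0 ≤ 5 / th := by positivity
    have a7 : 0 ≤ 2 / eps2 := by positivity
    have a8 : 0 ≤ 20 * (4 * K1 / th * eta + 4 * KD * KC / eps2 * eta) / (th * eta ^ 2) := by positivity
    refine ⟨1 + 2 / eps0 + 4 * KD / eps0 + 2 / eps1 + 4 * (2 * KD / eps0 + 20 * KD / th) / th +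
      (80 * KC * KB / th ^ 2 + 1) + 5 / th + 2 / eps2 +
      (20 * (4 * K1 / th * eta + 4 * KD * KC / eps2 * eta) / (th * eta ^ 2) + 1), ?_, ?_, ?_, ?_, ?_, ?_, ?_, ?_, ?_⟩ <;> linarith
  obtain ⟨hq1, c1, c2, c3, c4, c5, c6, c7, c8⟩ := hq0
  refine ⟨q0 ^ 4, fun V _ g tau hn2 hg hU m1 hm1 m2 hm2 j hj hjr => ?_⟩
  obtain ⟨q, hqdef⟩ : ∃ q : ℝ, q = Real.sqrt (Real.sqrt (nn V)) := ⟨_, rfl⟩
  have hnn0 : 0 ≤ nn V := by unfold nn; positivity
  have hq2 : q ^ 2 = Real.sqrt (nn V) := by rw [hqdef, Real.sq_sqrt (Real.sqrt_nonneg _)]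
  have hs : ss V = q ^ 2 := by rw [hq2]; rfl
  have hn : nn V = q ^ 4 := by
    have : q ^ 4 = (q ^ 2) ^ 2 := by ring
    rw [this, hq2, Real.sq_sqrt hnn0]
  have hqnn : 0 ≤ q := by rw [hqdef]; exact Real.sqrt_nonneg _
  have hqq : q0 ≤ q := by
    rw [hn] at hn2
    exact le_of_pow_le_pow_left₀ (by norm_num) hqnn hn2
  have hq : 1 ≤ q := hq1.trans hqq
  have hq4 : q ≤ q ^ 4 := le_self_pow₀ hq (by norm_num)
  have hq2' : q ≤ q ^ 2 := le_self_pow₀ hq (by norm_num)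
  refine uh_core (g := g) hc.hr _ hK0 heta hC0 h0 hK1 he1 hth hg hq hn hs hKD hKC hKB heps2 ?_ ?_ ?_ ?_ ?_ ?_ ?_ ?_ hU hm1 hm2 hj hjr
  · have := (div_le_iff₀ h0).1 (c1.trans (hqq.trans hq4))
    linarith
  · exact c2.trans (hqq.trans hq2')
  · have := (div_le_iff₀ he1).1 (c3.trans (hqq.trans hq4))
    linarith
  · have := (div_le_iff₀ hth).1 (c4.trans (hqq.trans hq2'))
    linarith
  · have h5 : 80 * KC * KB / th ^ 2 < q := by linarith
    have := (div_lt_iff₀ (by positivity)).1 h5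
    linarith
  · have := (div_le_iff₀ hth).1 (c6.trans (hqq.trans hq4))
    linarith
  · have := (div_le_iff₀ heps2').1 (c7.trans (hqq.trans hq4))
    linarith
  · have h5 : 20 * (4 * K1 / th * eta + 4 * KD * KC / eps2 * eta) / (th * eta ^ 2) < q := by linarith
    have := (div_lt_iff₀ (by positivity)).1 h5
    linarith

end Pool.Agent.Wi
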