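import Pool.Agent.Wi.LEMA
import Pool.Agent.Wi.TAU
import Pool.Agent.Wi.ONEc
import Pool.Agent.Wi.UH
import Pool.Agent.Wi.STRG
import Pool.Agent.Wi.Gain
import Pool.Agent.Wi.ACCe

/-! MODULE MAIN: assembly of the main theorem for geodesic systems. -/

namespace Pool.Agent.Wi

open Finset
open scoped Classical

/-- thresholds: a multiple of the square root is below a multiple of `n`. -/
theorem ev_sqrt (A B : ℝ) (hB : 0 < B) : ∃ n0 : ℕ, ∀ n : ℕ, n0 ≤ n → A * √(n : ℝ) ≤ B * (n : ℝ) := by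
  refine ⟨⌈(A / B) ^ 2⌉₊, fun n hn => ?_⟩
  have h1 : (A / B) ^ 2 ≤ (n : ℝ) := (Nat.le_ceil _).trans (by exact_mod_cast hn)
  have h2 : A / B ≤ √(n : ℝ) := Real.le_sqrt_of_sq_le h1
  have h3 : A ≤ B * √(n : ℝ) := by rw [div_le_iff₀ hB] at h2; linarith
  have h4 : √(n : ℝ) * √(n : ℝ) = n := Real.mul_self_sqrt (Nat.cast_nonneg n)
  have h5 := Real.sqrt_nonneg (n : ℝ)
  calc A * √(n : ℝ) ≤ (B * √(n : ℝ)) * √(n : ℝ) := by gcongr
    _ = B * (n : ℝ) := by rw [mul_assoc, h4]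

theorem ev_const (A B : ℝ) (hB : 0 < B) : ∃ n0 : ℕ, ∀ n : ℕ, n0 ≤ n → A ≤ B * (n : ℝ) := by
  refine ⟨⌈A / B⌉₊, fun n hn => ?_⟩
  have h1 : A / B ≤ (n : ℝ) := (Nat.le_ceil _).trans (by exact_mod_cast hn)
  rw [div_le_iff₀ hB] at h1; linarith

/-- the core satisfies the hypotheses of the gain. -/
theorem Core.ghyp {V : Type} [Fintype V] {g : Geo V} {r : ℕ} {c : Core g r} {e L L' β : ℝ} (h : c.Hyp e L L' β)
    (hr : 1 ≤ r) {o : V} (ho : o ∈ c.U) : c.GHyp hr e L (c.L2 e L L') (c.hX e) o where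
  h80 p q hne hd hUX hm h1 h2 := Core.close h hr ho hne hd hUX hm h1 h2
  mates p := Core.card_mates h hr o p ho
  mdist p q hm := Core.mates_dist h hr hm
  nx p q hp := (Core.NX_pos h hr o p q ho hp).2.1
  kapB p hp q hq hk := by
    unfold LF.kap at hk
    rw [card_pos] at hk
    obtain ⟨k, hk⟩ := hk
    rw [mem_filter, mem_range] at hk
    exact c.T.anc_up hk.2.1 hk.2.2.1 (by omega) hk.2.2.2
  hE x := Core.card_E_X h hr x

section
variable {V : Type} [Fintype V] {g : Geo V} {r : ℕ} {Lam K0 : ℝ} {tau : ℕ}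

theorem nn_nonneg : 0 ≤ nn V := Nat.cast_nonneg _
theorem ss_nonneg : 0 ≤ ss V := Real.sqrt_nonneg _
theorem ss_mul : ss V * ss V = nn V := Real.mul_self_sqrt (Nat.cast_nonneg _)
theorem one_le_ss (h : 1 ≤ nn V) : 1 ≤ ss V := by
  unfold ss; unfold nn at h
  exact Real.one_le_sqrt.2 h

theorem D2_le (hG : Glob g r Lam K0 tau) (h1 : 1 ≤ nn V) :
    (g.D2 r : ℝ) ≤ (2 * r + 2 * K0) * nn V * ss V := by
  have h2 : (g.D2 r : ℝ) ≤ 2 * (r * ((Fintype.card V - 1 : ℕ) : ℝ) + tau) := by exact_mod_cast hG.hH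
  have h3 : ((Fintype.card V - 1 : ℕ) : ℝ) ≤ nn V := by unfold nn; exact_mod_cast Nat.sub_le _ _
  have h4 := hG.tauK
  have h5 := one_le_ss h1
  have h6 : (0 : ℝ) ≤ r := Nat.cast_nonneg r
  have h7 : (r : ℝ) * ((Fintype.card V - 1 : ℕ) : ℝ) ≤ r * nn V := by gcongr
  have h8 : (r : ℝ) * nn V ≤ r * nn V * ss V := by
    have : 0 ≤ (r : ℝ) * nn V := by positivity
    nlinarith
  nlinarith

/-- heavy points are few. -/
theorem heavy_card (hr : 1 ≤ r) (b : ℝ) :
    ((univ.filter (fun x => b < ((g.ball (2 * r - 1) x).card : ℝ))).card : ℝ) * (b - 1) ≤ (g.D2 r : ℝ) := by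
  have key : ∀ x : V, (((g.ball (2 * r - 1) x).card : ℕ)) ≤ 1 + ∑ y ∈ univ.filter (fun y => y ≠ x), (2 * r - g.d x y) := by
    intro x
    have h1 : g.ball (2 * r - 1) x ⊆ insert x ((univ.filter (fun y => y ≠ x)).filter (fun y => g.d x y ≤ 2 * r - 1)) := by
      intro y hy
      unfold Geo.ball at hy
      rw [mem_filter] at hy
      by_cases hyx : y = x
      · rw [hyx]; exact mem_insert_self _ _
      · exact mem_insert_of_mem (mem_filter.2 ⟨mem_filter.2 ⟨mem_univ _, hyx⟩, hy.2⟩)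
    have h2 := card_le_card h1
    have h3 := card_insert_le x ((univ.filter (fun y => y ≠ x)).filter (fun y => g.d x y ≤ 2 * r - 1))
    have h4 : ((univ.filter (fun y => y ≠ x)).filter (fun y => g.d x y ≤ 2 * r - 1)).card ≤
        ∑ y ∈ univ.filter (fun y => y ≠ x), (2 * r - g.d x y) := by
      rw [card_filter]
      refine sum_le_sum fun y _ => ?_
      split_ifs with h
      · omega
      · exact Nat.zero_le _
    omega
  have h5 : ∑ x ∈ univ.filter (fun x => b < ((g.ball (2 * r - 1) x).card : ℝ)), (b - 1) ≤ (g.D2 r : ℝ) := by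
    unfold Geo.D2
    push_cast
    calc ∑ x ∈ univ.filter (fun x => b < ((g.ball (2 * r - 1) x).card : ℝ)), (b - 1)
        ≤ ∑ x ∈ univ.filter (fun x => b < ((g.ball (2 * r - 1) x).card : ℝ)),
            ((∑ y ∈ univ.filter (fun y => y ≠ x), (2 * r - g.d x y) : ℕ) : ℝ) := by
          refine sum_le_sum fun x hx => ?_
          rw [mem_filter] at hx
          have := key x
          have h : ((g.ball (2 * r - 1) x).card : ℝ) ≤ 1 + ((∑ y ∈ univ.filter (fun y => y ≠ x), (2 * r - g.d x y) : ℕ) : ℝ) := by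
            exact_mod_cast this
          linarith [hx.2]
      _ ≤ ∑ x : V, ((∑ y ∈ univ.filter (fun y => y ≠ x), (2 * r - g.d x y) : ℕ) : ℝ) :=
          sum_le_sum_of_subset_of_nonneg (filter_subset _ _) (fun _ _ _ => Nat.cast_nonneg _)
      _ = _ := by push_cast; rfl
  rw [sum_const, nsmul_eq_mul] at h5
  exact h5

end

/-- the class of instances for the structure theorem. -/
def InstI (r : ℕ) (hr : 1 ≤ r) (Lam K0 eta C eps0 K1 : ℝ) (V : Type) [Fintype V] (g : Geo V) (O : Finset V) (o1 : V) : Prop :=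
  ∃ tau : ℕ, Glob g r Lam K0 tau ∧ 1 ≤ nn V ∧ O = lightO g r eps0 ∧
    ((univ \ O).card : ℝ) ≤ (2 * (2 * r + 2 * K0) / eps0) * ss V ∧
    (U1 g r hr eps0 eta C o1 : ℝ) ≤ 2 * K1 * nn V ∧
    (∑ o ∈ lightO g r eps0, (U1 g r hr eps0 eta C o : ℝ)) ≤ K1 * nn V * nn V

/-- the structure theorem for our instances. -/
theorem str_main {r : ℕ} {Lam K0 eta C : ℝ} (hc : Cst r Lam K0 eta C) {eps0 K1 : ℝ} (h0 : 0 < eps0) (h1 : eps0 ≤ 1)
    (hK1 : 0 < K1) (hr1 : 1 ≤ r) (ξ : ℝ) (hξ : 0 < ξ) :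
    ∃ (n0 : ℕ) (KM : ℝ), ∀ (V : Type) [Fintype V] (g : Geo V) (O : Finset V) (o1 : V),
      InstI r hr1 Lam K0 eta C eps0 K1 V g O o1 → n0 ≤ Fintype.card V → ∃ (c : Core g r) (β : ℝ),
        c.Hyp (eta * √(Fintype.card V : ℝ)) (C * √(Fintype.card V : ℝ)) ((C + 2 * r / eta + 3) * √(Fintype.card V : ℝ)) β ∧
        β ≤ ξ * (Fintype.card V : ℝ) ∧
        (c.X.card : ℝ) ≤ ξ * (Fintype.card V : ℝ) ∧
        (c.W.card : ℝ) ≤ 2 * r / eta * √(Fintype.card V : ℝ) ∧
        (c.M.card : ℝ) ≤ KM ∧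
        ((∃ m0 ∈ c.M, ∀ p ∈ c.B, c.mm p = m0) ∨ (∀ y ∈ c.U, ∃ m' ∈ c.M, m' ≠ c.mm y ∧ g.d y m' = r)) := by
  have hr := hc.hr
  have hrR : (2 : ℝ) ≤ r := by exact_mod_cast hr
  have hK0 := hc.hK0
  have hLam := hc.hLam
  have heta := hc.heta
  have hC0 : 0 < C := by
    have := hc.hC
    have h2 : 0 ≤ 4 * (r : ℝ) / eta := by positivity
    linarith
  have hKD : 0 < 2 * (r : ℝ) + 2 * K0 := by positivity
  refine str r hr eta C K1 (4 * K1) (4 * K1) (2 * (2 * r + 2 * K0)) (2 * r + 2 * K0) (2 * (2 * r + 2 * K0) / eps0)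
    heta hC0 hK1 (by positivity) (by positivity) (by positivity) hKD (by positivity)
    (fun V _ g O o1 => InstI r hr1 Lam K0 eta C eps0 K1 V g O o1) ?_ ?_ ?_ ?_ ξ hξ
  · -- Inst0
    intro V _ g O o1 hI
    obtain ⟨tau, hG, hn, hO, hO2, hU, hS⟩ := hI
    refine ⟨hG.diam, D2_le hG hn, ?_, hO2, ?_⟩
    · subst hO
      exact hU
    · intro b hb
      have hm := mid_pairs (s1 g r hr1 eps0) hr hG.diam (eta * ss V) (C * ss V) b hb o1
      have he : smid g r b = univ.filter (fun p : V × V => g.d p.1 p.2 = 2 * r ∧ ((g.ball r (g.P p.2 p.1 r)).card : ℝ) ≤ b) := by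
        unfold smid
        apply filter_congr
        intro p _
        constructor
        · rintro ⟨h2, h3⟩
          exact ⟨h2, by rw [g.mid_symm h2]; exact h3⟩
        · rintro ⟨h2, h3⟩
          exact ⟨h2, by rw [← g.mid_symm h2]; exact h3⟩
      rw [he]
      have hU' : ((s1 g r hr1 eps0).Unc (eta * ss V) ((s1 g r hr1 eps0).near (eta * ss V) (C * ss V) o1) : ℝ) ≤ 2 * K1 * nn V := hU
      set N := ((univ.filter (fun p : V × V => g.d p.1 p.2 = 2 * r ∧ ((g.ball r (g.P p.2 p.1 r)).card : ℝ) ≤ b)).card : ℝ) with hN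
      have hN0 : 0 ≤ N := Nat.cast_nonneg _
      have h2 : N * r ≤ 2 * b * (2 * K1 * nn V) := hm.trans (by gcongr)
      have h3 : N * 1 ≤ N * r := by gcongr; linarith
      show N ≤ 4 * K1 * b * nn V
      linarith
  · -- h52
    intro ε hε
    obtain ⟨a1, ha1⟩ := ev_sqrt (2 * C) (ε / 2) (by positivity)
    obtain ⟨a2, ha2⟩ := ev_const 2 (ε / 2) (by positivity)
    refine ⟨max a1 a2, fun V _ g O o1 hI hn => ?_⟩
    obtain ⟨tau, hG, hn1, hO, hO2, hU, hS⟩ := hI
    have b1 := ha1 (Fintype.card V) ((le_max_left _ _).trans hn)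
    have b2 := ha2 (Fintype.card V) ((le_max_right _ _).trans hn)
    have hm := mid_balls (s1 g r hr1 eps0) hr hG.diam (eta * ss V) (C * ss V) (ε * nn V)
      (mul_nonneg hC0.le ss_nonneg) (by
        show 2 * (C * √(Fintype.card V : ℝ) + 1) ≤ ε * (Fintype.card V : ℝ)
        linarith) o1
    have hU' : ((s1 g r hr1 eps0).Unc (eta * ss V) ((s1 g r hr1 eps0).near (eta * ss V) (C * ss V) o1) : ℝ) ≤ 2 * K1 * nn V := hU
    set N := ∑ m ∈ bigM g r (ε * nn V), ((g.ball r m).card : ℝ) with hN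
    have hN0 : 0 ≤ N := sum_nonneg fun _ _ => Nat.cast_nonneg _
    show N ≤ 4 * K1 * nn V
    have h2 : N * 1 ≤ N * r := by gcongr; linarith
    linarith
  · -- h53
    intro ε hε
    obtain ⟨a2, ha2⟩ := ev_const 1 (ε / 2) (by positivity)
    refine ⟨max a2 1, fun V _ g O o1 hI hn => ?_⟩
    obtain ⟨tau, hG, hn1, hO, hO2, hU, hS⟩ := hI
    have b2 := ha2 (Fintype.card V) ((le_max_left _ _).trans hn)
    have hm := mid_heavy (g := g) (r := r) (ε * nn V) (mul_nonneg hε.le nn_nonneg)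
    have hD := D2_le hG hn1
    have hsub : (bigM g r (ε * (Fintype.card V : ℝ))).biUnion (fun m => g.ball (r - 1) m) ⊆
        univ.filter (fun y => ∃ m ∈ bigM g r (ε * nn V), g.d y m ≤ r - 1) := by
      intro y hy
      obtain ⟨m, hm1, hm2⟩ := mem_biUnion.1 hy
      unfold Geo.ball at hm2
      rw [mem_filter] at hm2
      exact mem_filter.2 ⟨mem_univ _, m, hm1, by rw [g.symm]; exact hm2.2⟩
    have hcard : (((bigM g r (ε * (Fintype.card V : ℝ))).biUnion (fun m => g.ball (r - 1) m)).card : ℝ) ≤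
        ((univ.filter (fun y => ∃ m ∈ bigM g r (ε * nn V), g.d y m ≤ r - 1)).card : ℝ) := by
      exact_mod_cast card_le_card hsub
    refine hcard.trans ?_
    set N := ((univ.filter (fun y => ∃ m ∈ bigM g r (ε * nn V), g.d y m ≤ r - 1)).card : ℝ) with hN
    have hN0 : 0 ≤ N := Nat.cast_nonneg _
    have h2 : N * (ε / 2 * nn V) ≤ N * (ε * nn V - 1) := by
      have : 1 ≤ ε / 2 * nn V := b2
      gcongr
      linarith
    have h3 : N * (ε / 2) * nn V ≤ (2 * r + 2 * K0) * ss V * nn V := by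
      calc N * (ε / 2) * nn V = N * (ε / 2 * nn V) := by ring
        _ ≤ N * (ε * nn V - 1) := h2
        _ ≤ (g.D2 r : ℝ) := hm
        _ ≤ (2 * r + 2 * K0) * nn V * ss V := hD
        _ = (2 * r + 2 * K0) * ss V * nn V := by ring
    have h4 : N * (ε / 2) ≤ (2 * r + 2 * K0) * ss V := le_of_mul_le_mul_right h3 (by linarith)
    show N ≤ 2 * (2 * r + 2 * K0) / ε * ss V
    rw [div_mul_eq_mul_div, le_div_iff₀ hε]
    linarith
  · -- hUH
    intro ε th hε hth
    obtain ⟨n2, huh⟩ := uh hc h0 h1 hK1 hε hth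
    refine ⟨⌈n2⌉₊, fun V _ g O o1 hI hn => ?_⟩
    obtain ⟨tau, hG, hn1, hO, hO2, hU, hS⟩ := hI
    intro m hm m' hm' hne j hj hjr
    have hn2 : n2 ≤ nn V := (Nat.le_ceil _).trans (by unfold nn; exact_mod_cast hn)
    exact huh V g tau hn2 hG hS m hm m' hm' j hj hjr

theorem main_geo (r : ℕ) (hr : 2 ≤ r) : ∃ n0 : ℕ, ∀ (V : Type) [Fintype V] (g : Geo V) (tau : ℕ),
    n0 ≤ Fintype.card V → (∀ x y, g.d x y ≤ 2 * r) → (∀ c, ∃ y, r < g.d c y) →
    IsTau r V (Fintype.card V - 1) tau → 2 * (r * (Fintype.card V - 1) + tau) < g.D2 r := by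
  have hr1 : 1 ≤ r := by omega
  have hrR : (2 : ℝ) ≤ r := by exact_mod_cast hr
  obtain ⟨K0, n1, hK0, htau⟩ := tau_upper r hr
  obtain ⟨Lam, n2, hLam, hlem⟩ := lemA r hr K0 hK0
  set eta : ℝ := 1 / (64 * Lam) with hetadef
  have heta : 0 < eta := by positivity
  set C : ℝ := 16 * Lam + 4 * r / eta + 4 with hCdef
  have hc : Cst r Lam K0 eta C :=
    ⟨hr, hLam, hK0, heta, by rw [hetadef]; field_simp; exact le_refl _, le_refl _⟩
  have hC0 : 0 < C := by positivity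
  obtain ⟨eps0, K1, n3, h0, h1, hK1, hone⟩ := one hc
  set C1 : ℝ := C + 2 * r / eta + 3 with hC1def
  have hC1 : 1 ≤ C1 := by
    have : 0 ≤ 2 * (r : ℝ) / eta := by positivity
    linarith
  obtain ⟨K4, ξ1, hK4, hξ1, hacc⟩ := acc hc hC1
  set Q : ℝ := C1 + C + 2 * r * C1 / eta with hQdef
  have hQ : 0 < Q := by positivity
  set G4 : ℝ := 4 + 3 * Q / eta with hG4def
  have hG4 : 0 < G4 := by positivity
  set ξ : ℝ := min ξ1 (min (1 / 4) (1 / (4 * G4 * K4))) with hξdef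
  have hξ : 0 < ξ := by
    rw [hξdef]
    exact lt_min hξ1 (lt_min (by norm_num) (by positivity))
  have hξ1' : ξ ≤ ξ1 := min_le_left _ _
  have hξ4 : ξ ≤ 1 / 4 := (min_le_right _ _).trans (min_le_left _ _)
  have hξG : G4 * (K4 * ξ) ≤ 1 / 4 := by
    have : ξ ≤ 1 / (4 * G4 * K4) := (min_le_right _ _).trans (min_le_right _ _)
    rw [le_div_iff₀ (by positivity)] at this
    linarith
  obtain ⟨n5, KM, hstr⟩ := str_main hc h0 h1 hK1 hr1 ξ hξ
  obtain ⟨n4, hacc2⟩ := hacc ξ hξ hξ1' KM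
  obtain ⟨a1, ha1⟩ := ev_const 1 (eps0 / 2) (by positivity)
  obtain ⟨a2, ha2⟩ := ev_sqrt (2 * (2 * r + 2 * K0) / eps0) (1 / 2) (by norm_num)
  obtain ⟨a3, ha3⟩ := ev_sqrt (Q + r / eta + 2 * r / eta) (1 / 8) (by norm_num)
  obtain ⟨a4, ha4⟩ := ev_const (KM + 1) (1 / 8) (by norm_num)
  refine ⟨⌈n1⌉₊ + ⌈n2⌉₊ + ⌈n3⌉₊ + ⌈n4⌉₊ + n5 + a1 + a2 + a3 + a4 + 1, fun V _ g tau hn hdiam hcen hIs => ?_⟩
  by_contra hcon
  push Not at hcon
  have m1 : n1 ≤ nn V := (Nat.le_ceil _).trans (by unfold nn; exact_mod_cast (show ⌈n1⌉₊ ≤ Fintype.card V by omega))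
  have m2 : n2 ≤ nn V := (Nat.le_ceil _).trans (by unfold nn; exact_mod_cast (show ⌈n2⌉₊ ≤ Fintype.card V by omega))
  have m3 : n3 ≤ nn V := (Nat.le_ceil _).trans (by unfold nn; exact_mod_cast (show ⌈n3⌉₊ ≤ Fintype.card V by omega))
  have m4 : n4 ≤ nn V := (Nat.le_ceil _).trans (by unfold nn; exact_mod_cast (show ⌈n4⌉₊ ≤ Fintype.card V by omega))
  have mN : 1 ≤ nn V := by unfold nn; exact_mod_cast (show 1 ≤ Fintype.card V by omega)
  have b1 : 1 ≤ eps0 / 2 * nn V := ha1 _ (by omega)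
  have b2 : 2 * (2 * r + 2 * K0) / eps0 * ss V ≤ 1 / 2 * nn V := ha2 _ (by omega)
  have b3 : (Q + r / eta + 2 * r / eta) * ss V ≤ 1 / 8 * nn V := ha3 _ (by omega)
  have b4 : KM + 1 ≤ 1 / 8 * nn V := ha4 _ (by omega)
  have htK := htau V tau m1 hIs
  have hG : Glob g r Lam K0 tau := ⟨hdiam, fun T hT => hlem V tau m2 hIs htK T hT, htK, hcon⟩
  have hsum := hone V g tau m3 hG
  have hD := D2_le hG mN
  have hs1 : 1 ≤ ss V := one_le_ss mN
  have hs0 : 0 < ss V := by linarith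
  have hss : ss V * ss V = nn V := ss_mul
  -- few heavy points
  have hO2 : ((univ \ lightO g r eps0).card : ℝ) ≤ (2 * (2 * r + 2 * K0) / eps0) * ss V := by
    have he : univ \ lightO g r eps0 = univ.filter (fun x => eps0 * nn V < ((g.ball (2 * r - 1) x).card : ℝ)) := by
      ext x
      unfold lightO
      simp
    rw [he]
    have hh := heavy_card (g := g) hr1 (eps0 * nn V)
    set N := ((univ.filter (fun x => eps0 * nn V < ((g.ball (2 * r - 1) x).card : ℝ))).card : ℝ) with hN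
    have hN0 : 0 ≤ N := Nat.cast_nonneg _
    have h2 : N * (eps0 / 2 * nn V) ≤ N * (eps0 * nn V - 1) := by
      gcongr
      linarith
    have h3 : N * (eps0 / 2) * nn V ≤ (2 * r + 2 * K0) * ss V * nn V := by
      calc N * (eps0 / 2) * nn V = N * (eps0 / 2 * nn V) := by ring
        _ ≤ N * (eps0 * nn V - 1) := h2
        _ ≤ (g.D2 r : ℝ) := hh
        _ ≤ (2 * r + 2 * K0) * nn V * ss V := hD
        _ = (2 * r + 2 * K0) * ss V * nn V := by ring
    have h4 : N * (eps0 / 2) ≤ (2 * r + 2 * K0) * ss V := le_of_mul_le_mul_right h3 (by linarith)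
    rw [div_mul_eq_mul_div, le_div_iff₀ h0]
    linarith
  have hOcard : nn V / 2 ≤ ((lightO g r eps0).card : ℝ) := by
    have h2 : (univ : Finset V).card ≤ (univ \ lightO g r eps0).card + (lightO g r eps0).card := by
      have := card_le_card (show (univ : Finset V) ⊆ (univ \ lightO g r eps0) ∪ lightO g r eps0 by
        intro x _
        by_cases hx : x ∈ lightO g r eps0
        · exact mem_union_right _ hx
        · exact mem_union_left _ (mem_sdiff.2 ⟨mem_univ _, hx⟩))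
      exact this.trans (card_union_le _ _)
    have h3 : nn V ≤ ((univ \ lightO g r eps0).card : ℝ) + ((lightO g r eps0).card : ℝ) := by
      unfold nn
      exact_mod_cast h2
    linarith
  -- the first reference
  have hex : ∃ o1 ∈ lightO g r eps0, (U1 g r hr1 eps0 eta C o1 : ℝ) ≤ 2 * K1 * nn V := by
    by_contra hno
    push Not at hno
    have hne : (lightO g r eps0).Nonempty := by
      rw [nonempty_iff_ne_empty]
      intro h
      rw [h] at hOcard
      simp at hOcard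
      linarith
    have h2 : ∑ o ∈ lightO g r eps0, (2 * K1 * nn V) < ∑ o ∈ lightO g r eps0, (U1 g r hr1 eps0 eta C o : ℝ) :=
      sum_lt_sum_of_nonempty hne hno
    rw [sum_const, nsmul_eq_mul] at h2
    have h3 : nn V / 2 * (2 * K1 * nn V) ≤ ((lightO g r eps0).card : ℝ) * (2 * K1 * nn V) := by
      gcongr
    have h4 : ∑ o ∈ lightO g r eps0, (U1 g r hr1 eps0 eta C o : ℝ) ≤ K1 * nn V * nn V := hsum
    linarith
  obtain ⟨o1, ho1, hU1⟩ := hex
  obtain ⟨c, β, hyp, hβ, hX, hW, hM, hc8⟩ := hstr V g (lightO g r eps0) o1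
    ⟨tau, hG, mN, rfl, hO2, hU1, hsum⟩ (by omega)
  change c.Hyp (eta * ss V) (C * ss V) (C1 * ss V) β at hyp
  change β ≤ ξ * nn V at hβ
  change (c.X.card : ℝ) ≤ ξ * nn V at hX
  change (c.W.card : ℝ) ≤ 2 * r / eta * ss V at hW
  have hfin := hacc2 V g tau c β m4 hG hyp hβ hX hM
  -- U is large
  have hUn : nn V ≤ (c.U.card : ℝ) + c.W.card + c.M.card + c.X.card := by
    have hsub : (univ : Finset V) ⊆ c.U ∪ c.W ∪ c.M ∪ c.X := by
      intro x _
      by_cases hx1 : x ∈ c.U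
      · exact mem_union_left _ (mem_union_left _ (mem_union_left _ hx1))
      by_cases hx2 : x ∈ c.W
      · exact mem_union_left _ (mem_union_left _ (mem_union_right _ hx2))
      by_cases hx3 : x ∈ c.M
      · exact mem_union_left _ (mem_union_right _ hx3)
      · exact mem_union_right _ (by unfold Core.X; exact mem_filter.2 ⟨mem_univ _, hx1, hx2, hx3⟩)
    have h2 := card_le_card hsub
    have h3 := card_union_le (c.U ∪ c.W ∪ c.M) c.X
    have h4 := card_union_le (c.U ∪ c.W) c.M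
    have h5 := card_union_le c.U c.W
    have h6 : Fintype.card V ≤ c.U.card + c.W.card + c.M.card + c.X.card := by
      rw [← card_univ]; omega
    unfold nn
    exact_mod_cast h6
  have hq1 : 0 ≤ 2 * (r : ℝ) / eta * ss V := by positivity
  have hq2 : 0 ≤ (Q + r / eta) * ss V := by positivity
  have hq3 : ξ * nn V ≤ 1 / 4 * nn V := by gcongr
  have hb3 : (Q + r / eta) * ss V + 2 * r / eta * ss V ≤ 1 / 8 * nn V := by
    have : (Q + r / eta + 2 * r / eta) * ss V = (Q + r / eta) * ss V + 2 * r / eta * ss V := by ring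
    linarith
  have hUne : c.U.Nonempty := by
    rw [nonempty_iff_ne_empty]
    intro h
    rw [h, card_empty] at hUn
    push_cast at hUn
    linarith
  have hex2 : ∃ o ∈ c.U, (c.Un (by have := hc.hr; omega) (eta * ss V) (C * ss V) o : ℝ) ≤ K4 * ξ * nn V := by
    have : (∑ o ∈ c.U, (c.Un (by have := hc.hr; omega) (eta * ss V) (C * ss V) o : ℝ)) ≤ ∑ o ∈ c.U, (K4 * ξ * nn V) := by
      rw [sum_const, nsmul_eq_mul]
      linarith
    exact exists_le_of_sum_le hUne this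
  obtain ⟨o, ho, hUno⟩ := hex2
  have hgain := c.gain hr1 hr (eta * ss V) (C * ss V) (c.L2 (eta * ss V) (C * ss V) (C1 * ss V)) (c.hX (eta * ss V))
    (by have := hyp.he; linarith) o (Core.ghyp hyp hr1 ho) hdiam hc8 hcen
  have hL2 : c.L2 (eta * ss V) (C * ss V) (C1 * ss V) ≤ Q * ss V := by
    unfold Core.L2
    have e1 : 2 * (r : ℝ) * (C1 * ss V) / (eta * ss V) = 2 * r * C1 / eta := by field_simp
    rw [e1, hQdef]
    have h6 : 0 ≤ 2 * (r : ℝ) * C1 / eta := by positivity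
    have h7 : 2 * (r : ℝ) * C1 / eta * 1 ≤ 2 * (r : ℝ) * C1 / eta * ss V := mul_le_mul_of_nonneg_left hs1 h6
    linarith
  have hhX : c.hX (eta * ss V) = r / eta * ss V := by
    unfold Core.hX
    change (r : ℝ) * nn V / (eta * ss V) = r / eta * ss V
    rw [← hss]
    field_simp
  have hco : 4 + 3 * c.L2 (eta * ss V) (C * ss V) (C1 * ss V) / (eta * ss V) ≤ G4 := by
    have h2 : 3 * c.L2 (eta * ss V) (C * ss V) (C1 * ss V) / (eta * ss V) ≤ 3 * Q / eta := by
      calc 3 * c.L2 (eta * ss V) (C * ss V) (C1 * ss V) / (eta * ss V) ≤ 3 * (Q * ss V) / (eta * ss V) := by gcongr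
        _ = 3 * Q / eta := by field_simp
    linarith
  have hUn0 : 0 ≤ (c.Un hr1 (eta * ss V) (C * ss V) o : ℝ) := Nat.cast_nonneg _
  have hUno' : (c.Un hr1 (eta * ss V) (C * ss V) o : ℝ) ≤ K4 * ξ * nn V := hUno
  have h2 : (4 + 3 * c.L2 (eta * ss V) (C * ss V) (C1 * ss V) / (eta * ss V)) * (c.Un hr1 (eta * ss V) (C * ss V) o : ℝ)
      ≤ G4 * (K4 * ξ * nn V) := by
    calc _ ≤ G4 * (c.Un hr1 (eta * ss V) (C * ss V) o : ℝ) := by gcongr
      _ ≤ _ := by gcongr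
  have h3 : G4 * (K4 * ξ * nn V) ≤ 1 / 4 * nn V := by
    calc G4 * (K4 * ξ * nn V) = (G4 * (K4 * ξ)) * nn V := by ring
      _ ≤ 1 / 4 * nn V := by gcongr
  rw [hhX] at hgain
  have h4 : Q * ss V + r / eta * ss V = (Q + r / eta) * ss V := by ring
  linarith

end Pool.Agent.Wi
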