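import Pool.Agent.Wi.Basic

/-! MODULE TREE (blueprint 2.3).  Full LF on `Fin n` (|S| = n - 1, `c` the remaining vertex) gives the graph:
p ~ par p (lev p + 1 < r), p ~ c (lev p + 1 = r). -/

namespace Pool.Agent.Wi

open Finset
open scoped Classical

namespace TreeAux

variable {r : ℕ} {V : Type} (T : LF r V) (c : V)

/-- parent in the tree (the centre `c` is its own parent) -/
noncomputable def pi (p : V) : V := if p ∈ T.S then (if T.lev p + 1 < r then T.par p else c) else c

/-- the tree -/
def tr : SimpleGraph V where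
  Adj p q := p ≠ q ∧ (pi T c p = q ∨ pi T c q = p)
  symm := ⟨fun p q h => ⟨h.1.symm, h.2.symm⟩⟩
  loopless := ⟨fun p h => h.1 rfl⟩

/-- distance to the centre -/
noncomputable def dep (p : V) : ℕ := if p ∈ T.S then r - T.lev p else 0

theorem dep_pi (hc : c ∉ T.S) {p : V} (hp : p ∈ T.S) : dep T (pi T c p) + 1 = dep T p := by
  have hl := T.hlev p hp
  unfold dep pi
  rw [if_pos hp, if_pos hp]
  by_cases h : T.lev p + 1 < r
  · rw [if_pos h]
    have := T.hpar p hp h
    rw [if_pos this.1, this.2]; omega
  · rw [if_neg h, if_neg hc]; omega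

theorem adj_pi (hc : c ∉ T.S) {p : V} (hp : p ∈ T.S) : (tr T c).Adj p (pi T c p) := by
  refine ⟨?_, Or.inl rfl⟩
  intro h
  have := dep_pi T c hc hp
  rw [← h] at this
  omega

theorem reach (hc : c ∉ T.S) (hall : ∀ p, p ≠ c → p ∈ T.S) :
    ∀ m p, dep T p = m → ∃ w : (tr T c).Walk p c, w.length = m := by
  intro m
  induction m with
  | zero =>
    intro p hp
    by_cases hpc : p = c
    · subst hpc; exact ⟨SimpleGraph.Walk.nil, rfl⟩
    · exfalso
      have h1 := hall p hpc
      have := dep_pi T c hc h1
      omega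
  | succ m ih =>
    intro p hp
    have h1 : p ∈ T.S := by
      by_contra h
      unfold dep at hp
      rw [if_neg h] at hp
      omega
    have h2 := dep_pi T c hc h1
    obtain ⟨w, hw⟩ := ih (pi T c p) (by omega)
    exact ⟨SimpleGraph.Walk.cons (adj_pi T c hc h1) w, by simp [hw]⟩

/-- the potential with respect to `p` -/
noncomputable def f (p q : V) : ℤ :=
  if q ∈ T.S then (2 * r : ℤ) - T.lev p - T.lev q - 2 * T.kap p q else (r : ℤ) - T.lev p

theorem kap_par {p q : V} (hp : p ∈ T.S) (hq : q ∈ T.S) (h : T.lev q + 1 < r) :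
    (T.kap p q : ℤ) - T.kap p (T.par q) = 0 ∨ (T.kap p q : ℤ) - T.kap p (T.par q) = 1 := by
  have hpar := T.hpar q hq h
  have hanc : ∀ k, T.lev q + 1 ≤ k → T.anc (T.par q) k = T.anc q k := by
    intro k hk
    have e1 : T.anc q (T.lev q + 1) = T.par q := by
      rw [T.anc_succ le_rfl, T.anc_self]
    rw [← e1]
    exact T.anc_anc hq (by omega) hk h
  unfold LF.kap
  have hsub : ((range r).filter (fun k => T.lev p ≤ k ∧ T.lev (T.par q) ≤ k ∧ T.anc p k = T.anc (T.par q) k)) =
      ((range r).filter (fun k => T.lev p ≤ k ∧ T.lev q ≤ k ∧ T.anc p k = T.anc q k)).erase (T.lev q) := by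
    ext k
    simp only [mem_filter, mem_range, mem_erase]
    rw [hpar.2]
    constructor
    · rintro ⟨h1, h2, h3, h4⟩
      exact ⟨by omega, h1, h2, by omega, by rw [h4, hanc k h3]⟩
    · rintro ⟨h0, h1, h2, h3, h4⟩
      have : T.lev q + 1 ≤ k := by omega
      exact ⟨h1, h2, this, by rw [hanc k this]; exact h4⟩
  rw [hsub]
  by_cases hm : T.lev q ∈ ((range r).filter (fun k => T.lev p ≤ k ∧ T.lev q ≤ k ∧ T.anc p k = T.anc q k))
  · right
    have := Finset.card_erase_add_one hm
    push_cast [← this]; ring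
  · left
    rw [Finset.erase_eq_of_notMem hm]; ring

theorem kap_root {p q : V} (h : T.lev q + 1 = r) : T.kap p q = 0 ∨ T.kap p q = 1 := by
  have : T.kap p q ≤ 1 := by
    unfold LF.kap
    refine (Finset.card_le_card (t := {T.lev q}) ?_).trans (by simp)
    intro k hk
    simp only [mem_filter, mem_range] at hk
    simp only [mem_singleton]; omega
  omega

theorem f_step (hc : c ∉ T.S) {p q : V} (hp : p ∈ T.S) (hq : q ∈ T.S) :
    |f T p (pi T c q) - f T p q| ≤ 1 := by
  have hl := T.hlev q hq
  by_cases h : T.lev q + 1 < r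
  · have hpi : pi T c q = T.par q := by unfold pi; rw [if_pos hq, if_pos h]
    have hpar := T.hpar q hq h
    rw [hpi]
    unfold f
    rw [if_pos hpar.1, if_pos hq, hpar.2]
    rcases kap_par T hp hq h with h1 | h1
    · rw [abs_le]; push_cast; constructor <;> linarith
    · rw [abs_le]; push_cast; constructor <;> linarith
  · have hr : T.lev q + 1 = r := by omega
    have hpi : pi T c q = c := by unfold pi; rw [if_pos hq, if_neg h]
    rw [hpi]
    unfold f
    rw [if_neg hc, if_pos hq]
    have hr' : (T.lev q : ℤ) = r - 1 := by omega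
    rcases kap_root T (p := p) hr with h1 | h1
    · rw [h1, abs_le, hr']; push_cast; constructor <;> linarith
    · rw [h1, abs_le, hr']; push_cast; constructor <;> linarith

theorem f_adj (hc : c ∉ T.S) {p a b : V} (hp : p ∈ T.S) (hall : ∀ p, p ≠ c → p ∈ T.S) (hab : (tr T c).Adj a b) :
    |f T p b - f T p a| ≤ 1 := by
  obtain ⟨hne, h⟩ := hab
  have pic : pi T c c = c := by unfold pi; rw [if_neg hc]
  rcases h with h | h
  · have ha : a ∈ T.S := by
      apply hall
      rintro rfl
      exact hne (by rw [← h, pic])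
    rw [← h]; exact f_step T c hc hp ha
  · have hb : b ∈ T.S := by
      apply hall
      rintro rfl
      exact hne (by rw [← h, pic])
    rw [← h, abs_sub_comm]; exact f_step T c hc hp hb

theorem f_walk (hc : c ∉ T.S) {p : V} (hp : p ∈ T.S) (hall : ∀ p, p ≠ c → p ∈ T.S) {a b : V}
    (w : (tr T c).Walk a b) : f T p b - f T p a ≤ w.length := by
  induction w with
  | nil => simp
  | cons h w ih =>
    have := abs_le.1 (f_adj T c hc hp hall h)
    rw [SimpleGraph.Walk.length_cons]
    push_cast
    linarith [this.2]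

theorem f_self {p : V} (hp : p ∈ T.S) : f T p p = 0 := by
  have hl := T.hlev p hp
  have : T.kap p p = r - T.lev p := by
    unfold LF.kap
    have : ((range r).filter (fun k => T.lev p ≤ k ∧ T.lev p ≤ k ∧ T.anc p k = T.anc p k)) = Finset.Ico (T.lev p) r := by
      ext k; simp; omega
    rw [this]; simp
  unfold f
  rw [if_pos hp, this]
  push_cast [Nat.cast_sub hl.le]; ring

end TreeAux

open TreeAux in
theorem tree_exists {r n : ℕ} (hr : 1 ≤ r) (hn : 1 ≤ n) (T : LF r (Fin n)) (hT : T.S.card = n - 1) :
    ∃ G : SimpleGraph (Fin n), G.Connected ∧ (∀ u v, G.dist u v ≤ 2 * r) ∧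
      ∑ x : Fin n, ∑ y ∈ univ.filter (fun y => y ≠ x), (2 * r - G.dist x y) ≤ 2 * (r * (n - 1) + T.cost (n - 1)) := by
  have hcard : (univ \ T.S).card = 1 := by
    rw [Finset.card_sdiff_of_subset (Finset.subset_univ _), hT, Finset.card_univ, Fintype.card_fin]; omega
  obtain ⟨c, hcS⟩ := Finset.card_eq_one.1 hcard
  have hc : c ∉ T.S := by
    have : c ∈ univ \ T.S := by rw [hcS]; simp
    simpa using this
  have hall : ∀ p, p ≠ c → p ∈ T.S := by
    intro p hp
    by_contra h
    have : p ∈ univ \ T.S := by simp [h]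
    rw [hcS] at this
    exact hp (by simpa using this)
  set G := tr T c with hG
  have hdepr : ∀ p, dep T p ≤ r := by intro p; unfold dep; split_ifs <;> omega
  have hreach : ∀ p, ∃ w : G.Walk p c, w.length ≤ r := by
    intro p
    obtain ⟨w, hw⟩ := reach T c hc hall _ p rfl
    exact ⟨w, hw ▸ hdepr p⟩
  have hconn : G.Connected := by
    have : Nonempty (Fin n) := ⟨c⟩
    refine { preconnected := fun a b => ?_ }
    obtain ⟨w, -⟩ := hreach a
    obtain ⟨w', -⟩ := hreach b
    exact ⟨w.append w'.reverse⟩
  have hdist : ∀ u v, G.dist u v ≤ 2 * r := by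
    intro u v
    obtain ⟨w, hw⟩ := hreach u
    obtain ⟨w', hw'⟩ := hreach v
    have := SimpleGraph.dist_le (w.append w'.reverse)
    rw [SimpleGraph.Walk.length_append, SimpleGraph.Walk.length_reverse] at this
    omega
  have hlow : ∀ p ∈ T.S, ∀ q, f T p q ≤ G.dist p q := by
    intro p hp q
    obtain ⟨w, hw⟩ := hconn.exists_walk_length_eq_dist p q
    have := f_walk T c hc hp hall w
    rw [f_self T hp, hw] at this
    linarith
  refine ⟨G, hconn, hdist, ?_⟩
  -- bounds for the single terms
  have b1 : ∀ x ∈ T.S, ∀ y ∈ T.S, 2 * r - G.dist x y ≤ T.lev x + T.lev y + 2 * T.kap x y := by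
    intro x hx y hy
    have := hlow x hx y
    unfold f at this
    rw [if_pos hy] at this
    omega
  have b2 : ∀ x ∈ T.S, 2 * r - G.dist x c ≤ r + T.lev x := by
    intro x hx
    have := hlow x hx c
    unfold f at this
    rw [if_neg hc] at this
    omega
  have b3 : ∀ y ∈ T.S, 2 * r - G.dist c y ≤ r + T.lev y := by
    intro y hy
    rw [SimpleGraph.dist_comm]; exact b2 y hy
  have huniv : (univ : Finset (Fin n)) = insert c T.S := by
    ext p; simp only [mem_univ, mem_insert, true_iff]
    by_cases h : p = c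
    · exact Or.inl h
    · exact Or.inr (hall p h)
  have hfil : ∀ x ∈ T.S, (univ.filter (fun y => y ≠ x)) = insert c (T.S.filter (fun y => y ≠ x)) := by
    intro x hx
    rw [huniv, Finset.filter_insert, if_pos (by rintro rfl; exact hc hx)]
  have hfilc : (univ.filter (fun y => y ≠ c)) = T.S := by
    rw [huniv, Finset.filter_insert, if_neg (by simp)]
    apply Finset.filter_true_of_mem
    rintro y hy rfl; exact hc hy
  have hcard2 : ∀ x ∈ T.S, (T.S.filter (fun y => y ≠ x)).card = n - 1 - 1 := by
    intro x hx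
    rw [Finset.filter_ne', Finset.card_erase_of_mem hx, hT]
  have hsumlev : ∀ x ∈ T.S, ∑ y ∈ T.S.filter (fun y => y ≠ x), T.lev y + T.lev x = T.h := by
    intro x hx
    rw [Finset.filter_ne']
    exact Finset.sum_erase_add _ _ hx
  calc ∑ x : Fin n, ∑ y ∈ univ.filter (fun y => y ≠ x), (2 * r - G.dist x y)
      = ∑ y ∈ univ.filter (fun y => y ≠ c), (2 * r - G.dist c y) +
        ∑ x ∈ T.S, ∑ y ∈ univ.filter (fun y => y ≠ x), (2 * r - G.dist x y) := by
        conv_lhs => rw [huniv]
        rw [Finset.sum_insert hc]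
        rw [← huniv]
    _ ≤ ∑ y ∈ T.S, (r + T.lev y) + ∑ x ∈ T.S, ((r + T.lev x) +
          ∑ y ∈ T.S.filter (fun y => y ≠ x), (T.lev x + T.lev y + 2 * T.kap x y)) := by
        apply Nat.add_le_add
        · rw [hfilc]; exact Finset.sum_le_sum b3
        · apply Finset.sum_le_sum
          intro x hx
          rw [hfil x hx, Finset.sum_insert (by simp [hc])]
          apply Nat.add_le_add (b2 x hx)
          apply Finset.sum_le_sum
          intro y hy
          exact b1 x hx y (Finset.mem_filter.1 hy).1
    _ = 2 * (r * (n - 1) + T.cost (n - 1)) := by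
        have e1 : ∑ y ∈ T.S, (r + T.lev y) = r * (n - 1) + T.h := by
          rw [Finset.sum_add_distrib, Finset.sum_const, hT, smul_eq_mul]
          unfold LF.h; ring
        have e2' : ∑ x ∈ T.S, ∑ y ∈ T.S.filter (fun y => y ≠ x), (T.lev x + T.lev y + 2 * T.kap x y) =
            ((n - 1 - 1) * T.h + ∑ x ∈ T.S, (T.h - T.lev x)) + 2 * T.C := by
          have : ∀ x ∈ T.S, ∑ y ∈ T.S.filter (fun y => y ≠ x), (T.lev x + T.lev y + 2 * T.kap x y) =
              ((n - 1 - 1) * T.lev x + (T.h - T.lev x)) + 2 * ∑ y ∈ T.S.filter (fun y => y ≠ x), T.kap x y := by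
            intro x hx
            rw [Finset.sum_add_distrib, Finset.sum_add_distrib, Finset.sum_const, hcard2 x hx,
              ← Finset.mul_sum, smul_eq_mul]
            have := hsumlev x hx
            omega
          rw [Finset.sum_congr rfl this, Finset.sum_add_distrib, Finset.sum_add_distrib,
            ← Finset.mul_sum, ← Finset.mul_sum]
          unfold LF.C LF.h
          congr!
        have e2 : ∑ x ∈ T.S, ((r + T.lev x) +
            ∑ y ∈ T.S.filter (fun y => y ≠ x), (T.lev x + T.lev y + 2 * T.kap x y)) =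
            (r * (n - 1) + T.h) + (((n - 1 - 1) * T.h + ∑ x ∈ T.S, (T.h - T.lev x)) + 2 * T.C) := by
          rw [Finset.sum_add_distrib, e1, e2']
        rw [e1, e2]
        have e3 : ∑ x ∈ T.S, (T.h - T.lev x) + T.h = (n - 1) * T.h := by
          have hle : ∀ x ∈ T.S, T.lev x ≤ T.h := by
            intro x hx
            unfold LF.h
            exact Finset.single_le_sum (f := fun x => T.lev x) (fun _ _ => Nat.zero_le _) hx
          have : ∑ x ∈ T.S, (T.h - T.lev x) + ∑ x ∈ T.S, T.lev x = ∑ x ∈ T.S, T.h := by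
            rw [← Finset.sum_add_distrib]
            apply Finset.sum_congr rfl
            intro x hx
            have := hle x hx; omega
          rw [Finset.sum_const, hT, smul_eq_mul] at this
          unfold LF.h at this ⊢
          exact this
        unfold LF.cost
        generalize hX : ∑ x ∈ T.S, (T.h - T.lev x) = X at *
        rcases Nat.eq_zero_or_pos (n - 1) with h0 | h0
        · have hS : T.S = ∅ := by rw [← Finset.card_eq_zero, hT, h0]
          have hh : T.h = 0 := by unfold LF.h; rw [hS]; simp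
          rw [hh] at e3 ⊢
          rw [h0]
          omega
        · obtain ⟨m, hm⟩ : ∃ m, n - 1 = m + 1 := ⟨n - 1 - 1, by omega⟩
          rw [hm] at e3 ⊢
          simp only [Nat.add_sub_cancel]
          nlinarith [e3]

end Pool.Agent.Wi
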