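import Pool.Agent.Wi.GEO
import Pool.Agent.Wi.LEMA
import Pool.Agent.Wi.TAU
import Pool.Agent.Wi.TREE
import Pool.Agent.Wi.CEN
import Pool.Agent.Wi.MAIN

/-! MODULE FIN (blueprint 2.5 + final statement).  `main_geo` is in MODULE MAIN. -/

namespace Pool.Agent.Wi

open Finset
open scoped Classical

/-- Wiener index: sum of the distances over all unordered pairs. -/
noncomputable def wiener {n : ℕ} (G : SimpleGraph (Fin n)) : ℕ :=
  ∑ p ∈ (univ : Finset (Fin n × Fin n)).filter (fun p => p.1 < p.2), G.dist p.1 p.2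

/-- `G` is a connected graph of order `n` and diameter `d` with maximal Wiener index among these. -/
def IsExtremal (n d : ℕ) (G : SimpleGraph (Fin n)) : Prop :=
  (G.Connected ∧ G.diam = d) ∧
    ∀ G' : SimpleGraph (Fin n), G'.Connected → G'.diam = d → wiener G' ≤ wiener G

theorem diam_iff {n : ℕ} (G : SimpleGraph (Fin n)) (hG : G.Connected) (D : ℕ) :
    G.diam = D ↔ (∀ u v, G.dist u v ≤ D) ∧ ∃ u v, G.dist u v = D := by
  have := hG.nonempty
  have h1 : G.ediam ≠ ⊤ := SimpleGraph.connected_iff_ediam_ne_top.1 hG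
  constructor
  · rintro rfl
    exact ⟨fun u v => SimpleGraph.dist_le_diam h1, SimpleGraph.exists_dist_eq_diam⟩
  · rintro ⟨h2, u, v, h3⟩
    obtain ⟨a, b, hab⟩ := G.exists_dist_eq_diam
    have h4 := h2 a b
    have h5 : G.dist u v ≤ G.diam := SimpleGraph.dist_le_diam h1
    omega

theorem sum_dist {n : ℕ} (G : SimpleGraph (Fin n)) : ∑ u, ∑ v, G.dist u v = 2 * wiener G := by
  have e0 : ∑ u, ∑ v, G.dist u v = ∑ p : Fin n × Fin n, G.dist p.1 p.2 := by
    rw [Fintype.sum_prod_type]
  have e1 : ∑ p : Fin n × Fin n, G.dist p.1 p.2 =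
      ∑ p ∈ univ.filter (fun p : Fin n × Fin n => p.1 < p.2), G.dist p.1 p.2 +
      ∑ p ∈ univ.filter (fun p : Fin n × Fin n => ¬ p.1 < p.2), G.dist p.1 p.2 :=
    (Finset.sum_filter_add_sum_filter_not _ _ _).symm
  have e2 : ∑ p ∈ univ.filter (fun p : Fin n × Fin n => ¬ p.1 < p.2), G.dist p.1 p.2 =
      ∑ p ∈ univ.filter (fun p : Fin n × Fin n => p.2 < p.1), G.dist p.1 p.2 := by
    symm
    apply Finset.sum_subset
    · intro p hp
      simp only [mem_filter, mem_univ, true_and] at hp ⊢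
      exact not_lt.2 hp.le
    · intro p hp hp2
      simp only [mem_filter, mem_univ, true_and] at hp hp2
      have : p.1 = p.2 := le_antisymm (not_lt.1 hp2) (not_lt.1 hp)
      rw [this]; simp
  have e3 : ∑ p ∈ univ.filter (fun p : Fin n × Fin n => p.2 < p.1), G.dist p.1 p.2 = wiener G := by
    unfold wiener
    refine Finset.sum_bij' (fun p _ => (p.2, p.1)) (fun p _ => (p.2, p.1)) ?_ ?_ ?_ ?_ ?_
    · intro p hp; simpa using hp
    · intro p hp; simpa using hp
    · intro p hp; rfl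
    · intro p hp; rfl
    · intro p hp; exact SimpleGraph.dist_comm
  rw [e0, e1, e2, e3]
  unfold wiener
  ring

theorem deficit_sum {n : ℕ} (r : ℕ) (G : SimpleGraph (Fin n)) (h : ∀ u v, G.dist u v ≤ 2 * r) :
    ∑ x : Fin n, ∑ y ∈ univ.filter (fun y => y ≠ x), (2 * r - G.dist x y) + 2 * wiener G =
      2 * r * (n * (n - 1)) := by
  rw [← sum_dist, ← Finset.sum_add_distrib]
  have e1 : ∀ x ∈ (univ : Finset (Fin n)), ∑ y ∈ univ.filter (fun y => y ≠ x), (2 * r - G.dist x y) +
      ∑ y, G.dist x y = (n - 1) * (2 * r) := by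
    intro x _
    have e2 : ∑ y, G.dist x y = ∑ y ∈ univ.filter (fun y => y ≠ x), G.dist x y := by
      symm
      apply Finset.sum_subset (Finset.subset_univ _)
      intro y _ hy
      have : y = x := by simpa using hy
      rw [this]; simp
    rw [e2, ← Finset.sum_add_distrib]
    have e3 : ∀ y ∈ univ.filter (fun y => y ≠ x), (2 * r - G.dist x y) + G.dist x y = 2 * r := by
      intro y _
      have := h x y
      omega
    rw [Finset.sum_congr rfl e3, Finset.sum_const, smul_eq_mul, Finset.filter_ne',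
      Finset.card_erase_of_mem (mem_univ x), Finset.card_univ, Fintype.card_fin]
  rw [Finset.sum_congr rfl e1, Finset.sum_const, Finset.card_univ, Fintype.card_fin, smul_eq_mul]
  ring

theorem final_two (r : ℕ) (hr : 2 ≤ r) : ∃ n0 : ℕ, ∀ n : ℕ, n0 ≤ n → ∀ G : SimpleGraph (Fin n),
    IsExtremal n (2 * r) G → G.IsTree := by
  obtain ⟨n0, hmain⟩ := main_geo r hr
  obtain ⟨K0, n1, hK0, htau⟩ := tau_upper r hr
  obtain ⟨n2, hn2⟩ := exists_nat_ge ((4 * K0 + 4 * r + 1) ^ 2)
  obtain ⟨n3, hn3⟩ := exists_nat_ge n1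
  refine ⟨n0 + n2 + n3 + 2, ?_⟩
  intro n hn G hext
  obtain ⟨⟨hG, hdiam⟩, hmax⟩ := hext
  obtain ⟨hd1, hd2⟩ := (diam_iff G hG _).1 hdiam
  have hext' : ∀ G' : SimpleGraph (Fin n), G'.Connected → (∀ u v, G'.dist u v ≤ 2 * r) →
      (∃ u v, G'.dist u v = 2 * r) → ∑ u, ∑ v, G'.dist u v ≤ ∑ u, ∑ v, G.dist u v := by
    intro G' hG' h1 h2
    rw [sum_dist, sum_dist]
    have := hmax G' hG' ((diam_iff G' hG' _).2 ⟨h1, h2⟩)
    omega
  by_cases hcen : ∃ c, ∀ v, G.dist c v ≤ r
  · obtain ⟨c, hc⟩ := hcen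
    exact centre_case r G hG hd1 hd2 c hc hext'
  · exfalso
    push Not at hcen
    obtain ⟨g, hg⟩ := geo_exists G hG
    obtain ⟨tau, hT⟩ := tau_exists r (by omega) (Fin n)
    have h1 := hmain (Fin n) g tau (by rw [Fintype.card_fin]; omega) (fun x y => by rw [hg]; exact hd1 x y)
      (fun c => by obtain ⟨v, hv⟩ := hcen c; exact ⟨v, by rw [hg]; exact hv⟩) hT
    have hTau := htau (Fin n) tau (by
      rw [Fintype.card_fin]
      refine hn3.trans ?_
      exact_mod_cast (by omega : n3 ≤ n)) hT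
    obtain ⟨-, T, hTS, hTc⟩ := hT
    rw [Fintype.card_fin] at h1 hTau hTS hTc
    obtain ⟨G', hG', hd', hsum⟩ := tree_exists (by omega) (by omega) T hTS
    rw [hTc] at hsum
    have hD2 : g.D2 r = ∑ x : Fin n, ∑ y ∈ univ.filter (fun y => y ≠ x), (2 * r - G.dist x y) := by
      unfold Geo.D2
      refine Finset.sum_congr rfl (fun x _ => ?_)
      refine Finset.sum_congr (by congr!) (fun y _ => ?_)
      rw [hg]
    rw [hD2] at h1
    have s1 := deficit_sum r G hd1
    have s2 := deficit_sum r G' hd'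
    have hex' : ∃ u v, G'.dist u v = 2 * r := by
      by_contra hno
      push Not at hno
      have hge : n * (n - 1) ≤ ∑ x : Fin n, ∑ y ∈ univ.filter (fun y => y ≠ x), (2 * r - G'.dist x y) := by
        have : ∀ x ∈ (univ : Finset (Fin n)), n - 1 ≤ ∑ y ∈ univ.filter (fun y => y ≠ x), (2 * r - G'.dist x y) := by
          intro x _
          have hc1 : ∀ y ∈ univ.filter (fun y => y ≠ x), 1 ≤ 2 * r - G'.dist x y := by
            intro y _
            have a1 := hd' x y
            have a2 := hno x y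
            omega
          have := Finset.card_nsmul_le_sum _ _ 1 hc1
          rw [Finset.filter_ne', Finset.card_erase_of_mem (mem_univ x), Finset.card_univ, Fintype.card_fin,
            smul_eq_mul, mul_one] at this
          rw [Finset.filter_ne']
          exact this
        have h2 := Finset.card_nsmul_le_sum _ _ _ this
        rw [Finset.card_univ, Fintype.card_fin, smul_eq_mul] at h2
        exact h2
      have hB : n * (n - 1) ≤ 2 * (r * (n - 1) + tau) := hge.trans hsum
      have hBr : (n : ℝ) * ((n : ℝ) - 1) ≤ 2 * (r * ((n : ℝ) - 1) + tau) := by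
        have : ((n * (n - 1) : ℕ) : ℝ) ≤ ((2 * (r * (n - 1) + tau) : ℕ) : ℝ) := by exact_mod_cast hB
        push_cast [Nat.cast_sub (by omega : 1 ≤ n)] at this
        exact this
      have hn' : (n2 : ℝ) + 2 ≤ (n : ℝ) := by
        have : n2 + 2 ≤ n := by omega
        exact_mod_cast this
      set q := Real.sqrt (n : ℝ) with hq
      have hqq : q * q = n := Real.mul_self_sqrt (by positivity)
      have hq0 : 0 ≤ q := Real.sqrt_nonneg _
      have hr0 : (0 : ℝ) ≤ r := by positivity
      have hqge : 4 * K0 + 4 * r + 1 ≤ q := by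
        rw [hq]
        apply Real.le_sqrt_of_sq_le
        linarith
      have h3 : 2 * (r * ((n : ℝ) - 1) + tau) ≤ 2 * r * n + 2 * (K0 * n * q) := by
        nlinarith
      have h4 : (n : ℝ) * ((n : ℝ) - 1) ≥ n * n / 2 := by
        have : (2 : ℝ) ≤ n := by linarith [Nat.cast_nonneg (α := ℝ) n2]
        nlinarith
      have hnpos : (0 : ℝ) < n := by linarith [Nat.cast_nonneg (α := ℝ) n2]
      have h5 : (n : ℝ) / 2 ≤ 2 * r + 2 * (K0 * q) := by
        have : (n : ℝ) * (n / 2) ≤ n * (2 * r + 2 * (K0 * q)) := by nlinarith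
        exact le_of_mul_le_mul_left this hnpos
      have h6 : (4 * K0 + 4 * r + 1) * q ≤ q * q := mul_le_mul_of_nonneg_right hqge hq0
      have h7 : 1 ≤ q := by linarith
      rw [← hqq] at h5
      have h8 : (r : ℝ) ≤ r * q := le_mul_of_one_le_right hr0 h7
      nlinarith
    have := hmax G' hG' ((diam_iff G' hG' _).2 ⟨hd', hex'⟩)
    omega

theorem final : ∀ d : ℕ, Even d → 2 ≤ d → ∃ n0 : ℕ, ∀ n : ℕ, n0 ≤ n → ∀ G : SimpleGraph (Fin n),
    IsExtremal n d G → G.IsTree := by
  intro d hd hd2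
  obtain ⟨r, rfl⟩ := hd
  rw [← two_mul]
  by_cases hr : 2 ≤ r
  · exact final_two r hr
  · have hr1 : r = 1 := by omega
    subst hr1
    refine ⟨3, ?_⟩
    intro n hn G hext
    obtain ⟨⟨hG, hdiam⟩, hmax⟩ := hext
    obtain ⟨hd1, -⟩ := (diam_iff G hG _).1 hdiam
    refine case_one hn G hG (by simpa using hd1) ?_
    intro G' hG' h1 h2
    rw [sum_dist, sum_dist]
    have := hmax G' hG' ((diam_iff G' hG' _).2 ⟨by simpa using h1, by simpa using h2⟩)
    omega

end Pool.Agent.Wi
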