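import Pool.Agent.Wi.SRC

/-! MODULE GAMa: the gamma-forest of one source (blueprint (3.3)), nodes and levels. -/

namespace Pool.Agent.Wi

open Finset
open scoped Classical

/-- the gamma-forest of the source `x` with target set `A`. -/
noncomputable def gamLF {V : Type} (g : Geo V) (r : ℕ) (x : V) (A : Finset V)
    (hA : ∀ v ∈ A, g.d x v = 2 * r) : LF r V where
  S := A.biUnion (fun v => (range r).image (fun k => g.P v x k))
  lev w := 2 * r - g.d x w
  par w := g.P w x 1
  hlev p hp := by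
    obtain ⟨v, hv, hp⟩ := mem_biUnion.1 hp
    obtain ⟨k, hk, rfl⟩ := mem_image.1 hp
    have hk := mem_range.1 hk
    have h1 := g.dr v x k (by rw [g.symm, hA v hv]; omega)
    rw [g.symm v x, hA v hv] at h1
    rw [g.symm x, h1]; omega
  hpar p hp hl := by
    obtain ⟨v, hv, hp⟩ := mem_biUnion.1 hp
    obtain ⟨k, hk, rfl⟩ := mem_image.1 hp
    have hk := mem_range.1 hk
    have hd : g.d v x = 2 * r := by rw [g.symm, hA v hv]
    have h1 := g.dr v x k (by omega)
    have hkk : 2 * r - g.d x (g.P v x k) = k := by rw [g.symm x, h1]; omega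
    rw [hkk] at hl
    have h2 := g.P_suffix (x := v) (y := x) (i := k) (k := 1) (by omega)
    rw [h2]
    refine ⟨mem_biUnion.2 ⟨v, hv, mem_image.2 ⟨k + 1, mem_range.2 hl, rfl⟩⟩, ?_⟩
    have h3 := g.dr v x (k + 1) (by omega)
    rw [g.symm x, h3, hkk]; omega

variable {V : Type} [Fintype V] {g : Geo V} {r : ℕ}

omit [Fintype V] in
theorem GAMa_mem {x : V} {A : Finset V} {hA : ∀ v ∈ A, g.d x v = 2 * r} {w : V} :
    w ∈ (gamLF g r x A hA).S ↔ ∃ v ∈ A, ∃ k, k < r ∧ g.P v x k = w := by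
  show w ∈ A.biUnion (fun v => (range r).image (fun k => g.P v x k)) ↔ _
  simp only [mem_biUnion, mem_image, mem_range]

omit [Fintype V] in
/-- a point of the geodesic of a target -/
theorem GAMa_dist {x v : V} (h : g.d x v = 2 * r) {k : ℕ} (hk : k ≤ 2 * r) :
    g.d x (g.P v x k) = 2 * r - k := by
  have hd : g.d v x = 2 * r := by rw [g.symm, h]
  have h1 := g.dr v x k (by omega)
  rw [g.symm x, h1, hd]

theorem gam_sub (hr : 1 ≤ r) (x : V) (A : Finset V) (hA : ∀ v ∈ A, g.d x v = 2 * r) :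
    A ⊆ (gamLF g r x A hA).S ∧ x ∉ (gamLF g r x A hA).S := by
  constructor
  · intro v hv
    exact GAMa_mem.2 ⟨v, hv, 0, by omega, g.P0 v x⟩
  · intro hx
    obtain ⟨v, hv, k, hk, h⟩ := GAMa_mem.1 hx
    have h1 := GAMa_dist (hA v hv) (k := k) (by omega)
    rw [h, g.dself] at h1
    omega

/-- for a source all of whose chains follow the geodesics, `h` is the sum of the levels of the used hubs. -/
theorem gam_h (s : Src g r) (hr : 1 ≤ r) (x : V) (hk : ∀ z ∈ s.F x, s.kk x z = r) (A : Finset V) (hAF : A ⊆ s.F x)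
    (hA : ∀ v ∈ A, g.d x v = 2 * r) : (gamLF g r x A hA).h = s.hsum x A := by
  unfold LF.h Src.hsum
  symm
  apply sum_subset
  · intro w hw
    obtain ⟨z, hz, hzw⟩ := (mem_filter.1 hw).2
    obtain ⟨h1, h2, h3, h4, h5⟩ := s.mem_Z.1 hzw
    rw [hk z h1] at h4
    exact GAMa_mem.2 ⟨z, hz, _, h4, h5⟩
  · intro w hw hw'
    obtain ⟨v, hv, k, hkr, h⟩ := GAMa_mem.1 hw
    have h1 := GAMa_dist (hA v hv) (k := k) (by omega)
    rw [h] at h1
    by_contra hne
    apply hw'
    have hk0 : k ≠ 0 := by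
      rintro rfl
      omega
    refine mem_filter.2 ⟨mem_univ _, v, hv, s.mem_Z.2 ⟨hAF hv, by omega, by omega, ?_, ?_⟩⟩
    · rw [hk v (hAF hv)]; omega
    · have : 2 * r - g.d x w = k := by omega
      rw [this]; exact h

end Pool.Agent.Wi
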