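import Pool.Agent.Wi.GAMa

/-! MODULE GAMb: cost of the gamma-forest (blueprint (3.3), (3.4)). Needs SRC and GAMa. -/

namespace Pool.Agent.Wi

open Finset
open scoped Classical

variable {V : Type} [Fintype V] {g : Geo V} {r : ℕ}

omit [Fintype V] in
/-- ancestors in the gamma-forest are points of the geodesics -/
theorem GAMb_anc {x : V} {A : Finset V} (hA : ∀ v ∈ A, g.d x v = 2 * r) {v : V} (hv : v ∈ A)
    {k l : ℕ} (hkl : k ≤ l) (hl : l < r) :
    (gamLF g r x A hA).anc (g.P v x k) l = g.P v x l := by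
  have hd : g.d v x = 2 * r := by rw [g.symm, hA v hv]
  have hlev : ∀ k, k < r → (gamLF g r x A hA).lev (g.P v x k) = k := by
    intro k hk
    show 2 * r - g.d x (g.P v x k) = k
    rw [GAMa_dist (hA v hv) (by omega)]
    omega
  induction l, hkl using Nat.le_induction with
  | base =>
    have := (gamLF g r x A hA).anc_self (g.P v x k)
    rwa [hlev k hl] at this
  | succ l hkl ih =>
    rw [(gamLF g r x A hA).anc_succ (by rw [hlev k (by omega)]; exact hkl), ih (by omega)]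
    show g.P (g.P v x l) x 1 = _
    exact g.P_suffix (by omega)

omit [Fintype V] in
theorem GAMb_lev {x : V} {A : Finset V} (hA : ∀ v ∈ A, g.d x v = 2 * r) {v : V} (hv : v ∈ A)
    {k : ℕ} (hk : k < r) : (gamLF g r x A hA).lev (g.P v x k) = k := by
  show 2 * r - g.d x (g.P v x k) = k
  rw [GAMa_dist (hA v hv) (by omega)]
  omega

omit [Fintype V] in
theorem GAMb_lev0 {x : V} {A : Finset V} (hA : ∀ v ∈ A, g.d x v = 2 * r) {v : V} (hv : v ∈ A) :
    (gamLF g r x A hA).lev v = 0 := by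
  show 2 * r - g.d x v = 0
  rw [hA v hv]; omega

theorem GAMb_kap_comm {r : ℕ} {V : Type} (T : LF r V) (p q : V) : T.kap p q = T.kap q p := by
  unfold LF.kap
  congr 1
  apply filter_congr
  intro k _
  constructor
  · rintro ⟨h1, h2, h3⟩; exact ⟨h2, h1, h3.symm⟩
  · rintro ⟨h1, h2, h3⟩; exact ⟨h2, h1, h3.symm⟩

/-- two targets: `kap` of the forest is `kap` of the source system -/
theorem GAMb_kap (s : Src g r) (hr : 2 ≤ r) (x : V) (hk : ∀ z ∈ s.F x, s.kk x z = r)
    (A : Finset V) (hAF : A ⊆ s.F x) (hA : ∀ v ∈ A, g.d x v = 2 * r) {p q : V} (hp : p ∈ A)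
    (hq : q ∈ A) (hpq : q ≠ p) : (gamLF g r x A hA).kap p q = s.kap x p q := by
  unfold LF.kap Src.kap
  congr 1
  ext k
  rw [mem_filter, mem_filter, mem_range, mem_Ico, GAMb_lev0 hA hp, GAMb_lev0 hA hq]
  have e1 : ∀ v ∈ A, ∀ k < r, (gamLF g r x A hA).anc v k = g.P v x k := by
    intro v hv k hk
    have := GAMb_anc hA hv (Nat.zero_le k) hk
    rwa [g.P0] at this
  constructor
  · rintro ⟨h1, _, _, h2⟩
    rw [e1 p hp k h1, e1 q hq k h1] at h2
    have hk0 : 1 ≤ k := by
      by_contra hk0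
      have : k = 0 := by omega
      subst this
      rw [g.P0, g.P0] at h2
      exact hpq h2.symm
    refine ⟨⟨hk0, h1⟩, ?_⟩
    rw [s.han x p k (hAF hp) (by rw [hk p (hAF hp)]; exact h1),
      s.han x q k (hAF hq) (by rw [hk q (hAF hq)]; exact h1)]
    exact h2
  · rintro ⟨⟨h0, h1⟩, h2⟩
    rw [s.han x p k (hAF hp) (by rw [hk p (hAF hp)]; exact h1),
      s.han x q k (hAF hq) (by rw [hk q (hAF hq)]; exact h1)] at h2
    refine ⟨h1, Nat.zero_le _, Nat.zero_le _, ?_⟩
    rw [e1 p hp k h1, e1 q hq k h1]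
    exact h2

/-- nodes with a common ancestor of a hub: at most `L` targets and `r L / e` hubs -/
theorem GAMb_class (s : Src g r) (hr : 2 ≤ r) (e L : ℝ) (he : 0 < e) (hL : 0 ≤ L)
    (x : V) (hk : ∀ z ∈ s.F x, s.kk x z = r) (A : Finset V) (hAS : A ⊆ s.Sm e L x)
    (hA : ∀ v ∈ A, g.d x v = 2 * r) {w : V} (hw : w ∈ (gamLF g r x A hA).S) :
    ((((gamLF g r x A hA).S.filter (fun q => (gamLF g r x A hA).kap w q ≠ 0)).card : ℕ) : ℝ) ≤
      L + r * L / e := by
  set T := gamLF g r x A hA with hT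
  have hAFe : A ⊆ s.Fe e x := fun v hv => (mem_filter.1 (hAS hv)).1
  have hAF : A ⊆ s.F x := fun v hv => (mem_filter.1 (hAFe hv)).1
  obtain ⟨v, hv, k, hkr, hvw⟩ := GAMa_mem.1 hw
  set ρ := g.P v x (r - 1) with hρ
  -- the class of `v`
  have hcls : ∀ z ∈ s.F x, s.cls x z = g.P z x (r - 1) := by
    intro z hz
    exact s.han x z (r - 1) hz (by rw [hk z hz]; omega)
  set A1 := A.filter (fun z => g.P z x (r - 1) = ρ) with hA1
  set H1 := A1.image (fun z => g.P z x 1) with hH1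
  set Hall := ((Ico 1 r) ×ˢ H1).image (fun p => g.P p.2 x (p.1 - 1)) with hHall
  have hcl : ((s.Cl e x ρ).card : ℝ) ≤ L := by
    have := (mem_filter.1 (hAS hv)).2
    rwa [hcls v (hAF hv)] at this
  have hA1card : (A1.card : ℝ) ≤ L := by
    refine le_trans ?_ hcl
    have : A1.card ≤ (s.Cl e x ρ).card := by
      apply card_le_card
      intro z hz
      obtain ⟨h1, h2⟩ := mem_filter.1 hz
      exact mem_filter.2 ⟨hAFe h1, by rw [hcls z (hAF h1)]; exact h2⟩
    exact_mod_cast this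
  have hH1card : (H1.card : ℝ) * e ≤ L := by
    refine le_trans ?_ hcl
    have h1 : ∀ w ∈ H1, (w ∈ s.E e x) ∧ g.d x w = 2 * r - 1 ∧ s.Z x w ⊆ s.Cl e x ρ := by
      intro w hw
      obtain ⟨z, hz, rfl⟩ := mem_image.1 hw
      obtain ⟨hz1, hz2⟩ := mem_filter.1 hz
      have hzF := hAF hz1
      have hd : g.d x (g.P z x 1) = 2 * r - 1 := GAMa_dist (hA z hz1) (by omega)
      have hE : g.P z x 1 ∈ s.E e x := by
        have := (mem_filter.1 (hAFe hz1)).2
        rw [hk z hzF] at this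
        rcases this with h | h
        · omega
        · exact h
      refine ⟨hE, hd, ?_⟩
      intro y hy
      have hy1 := s.mem_Z.1 hy
      have e1 : 2 * r - g.d x (g.P z x 1) = 1 := by rw [hd]; omega
      have hy5 : g.P y x 1 = g.P z x 1 := by
        have := hy1.2.2.2.2
        rwa [e1] at this
      have hyFe : y ∈ s.Fe e x := mem_filter.2 ⟨hy1.1, Or.inr (by rw [hy5]; exact hE)⟩
      refine mem_filter.2 ⟨hyFe, ?_⟩
      rw [hcls y hy1.1]
      have f : ∀ u ∈ s.F x, g.P u x (r - 1) = g.P (g.P u x 1) x (r - 2) := by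
        intro u hu
        have hu' : g.d u x = 2 * r := by rw [g.symm]; exact s.hF x u hu
        have := g.P_suffix (x := u) (y := x) (i := 1) (k := r - 2) (by omega)
        rw [this]
        congr 1
        omega
      rw [f y hy1.1, hy5, ← f z hzF, hz2]
    have h2 : (H1.card : ℝ) * e ≤ ∑ w ∈ H1, ((s.Z x w).card : ℝ) := by
      rw [← nsmul_eq_mul]
      apply card_nsmul_le_sum
      intro w hw
      exact (mem_filter.1 (h1 w hw).1).2.2
    have h3 : ∑ w ∈ H1, (s.Z x w).card = (H1.biUnion (fun w => s.Z x w)).card := by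
      symm
      apply card_biUnion
      intro w hw w' hw' hne
      rw [Function.onFun, disjoint_left]
      intro z hz hz'
      exact hne (s.Z_disjoint hz hz' (by rw [(h1 w hw).2.1, (h1 w' hw').2.1]))
    have h4 : (H1.biUnion (fun w => s.Z x w)).card ≤ (s.Cl e x ρ).card := by
      apply card_le_card
      intro z hz
      obtain ⟨w, hw, hz⟩ := mem_biUnion.1 hz
      exact (h1 w hw).2.2 hz
    refine h2.trans ?_
    rw [← Nat.cast_sum, h3]
    exact_mod_cast h4
  have hHcard : (Hall.card : ℝ) ≤ r * L / e := by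
    have h1 : Hall.card ≤ (r - 1) * H1.card := by
      refine card_image_le.trans ?_
      rw [card_product, Nat.card_Ico]
    have h2 : (Hall.card : ℝ) ≤ r * (H1.card : ℝ) := by
      have : Hall.card ≤ r * H1.card := h1.trans (Nat.mul_le_mul_right _ (Nat.sub_le _ _))
      exact_mod_cast this
    rw [le_div_iff₀ he]
    have hr0 : (0 : ℝ) ≤ r := Nat.cast_nonneg _
    calc (Hall.card : ℝ) * e ≤ r * (H1.card : ℝ) * e := mul_le_mul_of_nonneg_right h2 he.le
      _ = r * ((H1.card : ℝ) * e) := by ring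
      _ ≤ r * L := mul_le_mul_of_nonneg_left hH1card hr0
  have hsub : T.S.filter (fun q => T.kap w q ≠ 0) ⊆ A1 ∪ Hall := by
    intro q hq
    obtain ⟨hqS, hqk⟩ := mem_filter.1 hq
    obtain ⟨u, hu, l, hlr, huq⟩ := GAMa_mem.1 hqS
    have hroot : g.P u x (r - 1) = ρ := by
      obtain ⟨j, hj⟩ := card_pos.1 (Nat.pos_of_ne_zero hqk)
      obtain ⟨hj1, hj2, hj3, hj4⟩ := mem_filter.1 hj
      have hj1 := mem_range.1 hj1
      have h5 := T.anc_up hj2 hj3 (show j ≤ r - 1 by omega) hj4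
      have e1 : T.anc w (r - 1) = ρ := by
        rw [← hvw]
        exact GAMb_anc hA hv (by omega) (by omega)
      have e2 : T.anc q (r - 1) = g.P u x (r - 1) := by
        rw [← huq]
        exact GAMb_anc hA hu (by omega) (by omega)
      rw [← e2, ← h5, e1]
    have huA1 : u ∈ A1 := mem_filter.2 ⟨hu, hroot⟩
    rcases Nat.eq_zero_or_pos l with rfl | hl
    · rw [g.P0] at huq
      exact mem_union_left _ (huq ▸ huA1)
    · apply mem_union_right
      refine mem_image.2 ⟨(l, g.P u x 1), mem_product.2 ⟨mem_Ico.2 ⟨hl, hlr⟩,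
        mem_image.2 ⟨u, huA1, rfl⟩⟩, ?_⟩
      have hu' : g.d u x = 2 * r := by rw [g.symm]; exact hA u hu
      have := g.P_suffix (x := u) (y := x) (i := 1) (k := l - 1) (by omega)
      dsimp only
      rw [this, ← huq]
      congr 1
      omega
  have h1 : (((T.S.filter (fun q => T.kap w q ≠ 0)).card : ℕ) : ℝ) ≤
      (A1.card : ℝ) + (Hall.card : ℝ) := by
    have := (card_le_card hsub).trans (card_union_le _ _)
    exact_mod_cast this
  linarith

/-- (3.3): hubs of a class are counted through the level 1 hubs below them. -/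
theorem gam_C (s : Src g r) (hr : 2 ≤ r) (diam : ∀ x y, g.d x y ≤ 2 * r) (e L hX : ℝ) (he : 0 < e) (hL : 0 ≤ L)
    (x : V) (hk : ∀ z ∈ s.F x, s.kk x z = r) (hE : ((s.E e x).card : ℝ) ≤ hX)
    (A : Finset V) (hAS : A ⊆ s.Sm e L x) (hA : ∀ v ∈ A, g.d x v = 2 * r) :
    ((gamLF g r x A hA).C : ℝ) ≤ (s.NN e L x : ℝ) / 2 + 2 * r * hX * (L + r * L / e) := by
  set T := gamLF g r x A hA with hT
  have hAFe : A ⊆ s.Fe e x := fun v hv => (mem_filter.1 (hAS hv)).1
  have hAF : A ⊆ s.F x := fun v hv => (mem_filter.1 (hAFe hv)).1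
  have hAT : A ⊆ T.S := (gam_sub (by omega) x A hA).1
  set Hb := T.S \ A with hHb
  -- hubs are efficient
  have hHbE : Hb ⊆ s.E e x := by
    intro w hw
    obtain ⟨hwS, hwA⟩ := mem_sdiff.1 hw
    obtain ⟨v, hv, k, hkr, hvw⟩ := GAMa_mem.1 hwS
    have hk0 : k ≠ 0 := by
      rintro rfl
      rw [g.P0] at hvw
      exact hwA (hvw ▸ hv)
    have hd : g.d x w = 2 * r - k := by rw [← hvw]; exact GAMa_dist (hA v hv) (by omega)
    have hZ : v ∈ s.Z x w := by
      refine s.mem_Z.2 ⟨hAF hv, by omega, by omega, ?_, ?_⟩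
      · rw [hk v (hAF hv)]; omega
      · have : 2 * r - g.d x w = k := by omega
        rw [this]; exact hvw
    exact s.Fe_hub (hAFe hv) hZ
  have hHbcard : (Hb.card : ℝ) ≤ hX := by
    refine le_trans ?_ hE
    exact_mod_cast card_le_card hHbE
  -- the row of a hub
  have hrow : ∀ w ∈ Hb, ((∑ q ∈ T.S.filter (fun q => q ≠ w), T.kap w q : ℕ) : ℝ) ≤
      r * (L + r * L / e) := by
    intro w hw
    have hwS : w ∈ T.S := (mem_sdiff.1 hw).1
    have h1 : ∑ q ∈ T.S.filter (fun q => q ≠ w), T.kap w q ≤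
        (T.S.filter (fun q => T.kap w q ≠ 0)).card * r := by
      calc ∑ q ∈ T.S.filter (fun q => q ≠ w), T.kap w q ≤ ∑ q ∈ T.S, T.kap w q :=
            sum_le_sum_of_subset (filter_subset _ _)
        _ = ∑ q ∈ T.S.filter (fun q => T.kap w q ≠ 0), T.kap w q := by
            symm
            exact sum_filter_ne_zero _
        _ ≤ ∑ q ∈ T.S.filter (fun q => T.kap w q ≠ 0), r := by
            apply sum_le_sum
            intro q _
            unfold LF.kap
            exact (card_filter_le _ _).trans (by rw [card_range])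
        _ = _ := by rw [sum_const, smul_eq_mul]
    have h2 := GAMb_class s hr e L he hL x hk A hAS hA hwS
    have hr0 : (0 : ℝ) ≤ r := Nat.cast_nonneg _
    calc ((∑ q ∈ T.S.filter (fun q => q ≠ w), T.kap w q : ℕ) : ℝ)
        ≤ (((T.S.filter (fun q => T.kap w q ≠ 0)).card * r : ℕ) : ℝ) := by exact_mod_cast h1
      _ = r * (((T.S.filter (fun q => T.kap w q ≠ 0)).card : ℕ) : ℝ) := by push_cast; ring
      _ ≤ _ := mul_le_mul_of_nonneg_left h2 hr0
  -- split of C
  have hsplit : T.C ≤ (∑ p ∈ A, ∑ q ∈ A.filter (fun q => q ≠ p), T.kap p q) +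
      2 * ∑ w ∈ Hb, ∑ q ∈ T.S.filter (fun q => q ≠ w), T.kap w q := by
    unfold LF.C
    have hS : T.S = A ∪ Hb := by rw [hHb, union_sdiff_of_subset hAT]
    have hdisj : Disjoint A Hb := disjoint_sdiff
    have e1 : ∑ p ∈ T.S, ∑ q ∈ T.S.filter (fun q => q ≠ p), T.kap p q =
        ∑ p ∈ A, ∑ q ∈ T.S.filter (fun q => q ≠ p), T.kap p q +
          ∑ p ∈ Hb, ∑ q ∈ T.S.filter (fun q => q ≠ p), T.kap p q := by
      conv_lhs => rw [hS]
      rw [sum_union hdisj, ← hS]
    have e2 : ∀ p ∈ A, ∑ q ∈ T.S.filter (fun q => q ≠ p), T.kap p q =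
        ∑ q ∈ A.filter (fun q => q ≠ p), T.kap p q + ∑ q ∈ Hb, T.kap p q := by
      intro p hp
      have : T.S.filter (fun q => q ≠ p) = A.filter (fun q => q ≠ p) ∪ Hb := by
        rw [hS, filter_union]
        congr 1
        apply filter_true_of_mem
        intro q hq h
        exact (mem_sdiff.1 hq).2 (h ▸ hp)
      rw [this, sum_union]
      exact disjoint_of_subset_left (filter_subset _ _) hdisj
    rw [e1, sum_congr rfl e2, sum_add_distrib]
    have e3 : ∑ p ∈ A, ∑ q ∈ Hb, T.kap p q ≤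
        ∑ w ∈ Hb, ∑ q ∈ T.S.filter (fun q => q ≠ w), T.kap w q := by
      rw [sum_comm]
      apply sum_le_sum
      intro w hw
      calc ∑ p ∈ A, T.kap p w = ∑ p ∈ A, T.kap w p :=
            sum_congr rfl fun p _ => GAMb_kap_comm T p w
        _ ≤ _ := by
            apply sum_le_sum_of_subset
            intro p hp
            exact mem_filter.2 ⟨hAT hp, fun h => (mem_sdiff.1 hw).2 (h ▸ hp)⟩
    omega
  have hAA : 2 * (∑ p ∈ A, ∑ q ∈ A.filter (fun q => q ≠ p), T.kap p q) ≤ s.NN e L x := by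
    rw [mul_sum]
    unfold Src.NN
    calc ∑ p ∈ A, 2 * ∑ q ∈ A.filter (fun q => q ≠ p), T.kap p q
        ≤ ∑ p ∈ A, ∑ q ∈ univ.filter (fun q => q ≠ p), s.near e L x p q := by
          apply sum_le_sum
          intro p hp
          rw [mul_sum]
          calc ∑ q ∈ A.filter (fun q => q ≠ p), 2 * T.kap p q
              = ∑ q ∈ A.filter (fun q => q ≠ p), s.near e L x p q := by
                apply sum_congr rfl
                intro q hq
                obtain ⟨hq1, hq2⟩ := mem_filter.1 hq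
                rw [GAMb_kap s hr x hk A hAF hA hp hq1 hq2]
                unfold Src.near
                rw [if_pos ⟨fun h => hq2 h.symm, hAS hp, hAS hq1⟩]
            _ ≤ _ := by
                apply sum_le_sum_of_subset
                intro q hq
                exact mem_filter.2 ⟨mem_univ _, (mem_filter.1 hq).2⟩
      _ ≤ _ := sum_le_sum_of_subset (subset_univ _)
  have hAA' : 2 * ((∑ p ∈ A, ∑ q ∈ A.filter (fun q => q ≠ p), T.kap p q : ℕ) : ℝ) ≤
      (s.NN e L x : ℝ) := by exact_mod_cast hAA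
  have hHH : ((∑ w ∈ Hb, ∑ q ∈ T.S.filter (fun q => q ≠ w), T.kap w q : ℕ) : ℝ) ≤
      hX * (r * (L + r * L / e)) := by
    rw [Nat.cast_sum]
    have h0 : 0 ≤ r * (L + r * L / e) := by positivity
    calc ∑ w ∈ Hb, ((∑ q ∈ T.S.filter (fun q => q ≠ w), T.kap w q : ℕ) : ℝ)
        ≤ ∑ w ∈ Hb, (r * (L + r * L / e)) := sum_le_sum hrow
      _ = (Hb.card : ℝ) * (r * (L + r * L / e)) := by rw [sum_const, nsmul_eq_mul]
      _ ≤ _ := mul_le_mul_of_nonneg_right hHbcard h0
  have hsplit' : (T.C : ℝ) ≤ ((∑ p ∈ A, ∑ q ∈ A.filter (fun q => q ≠ p), T.kap p q : ℕ) : ℝ) +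
      2 * ((∑ w ∈ Hb, ∑ q ∈ T.S.filter (fun q => q ≠ w), T.kap w q : ℕ) : ℝ) := by
    exact_mod_cast hsplit
  calc (T.C : ℝ) ≤ (s.NN e L x : ℝ) / 2 + 2 * (hX * (r * (L + r * L / e))) := by linarith
    _ = _ := by ring

/-- (3.4). -/
theorem gam_main (s : Src g r) (hr : 2 ≤ r) (diam : ∀ x y, g.d x y ≤ 2 * r) (e L hX tau lam : ℝ) (he : 0 < e) (hL : 0 ≤ L)
    (hlam : 0 ≤ lam)
    (lemA : ∀ T : LF r V, T.S.card ≤ Fintype.card V - 1 →
      tau - lam * (((Fintype.card V - 1 : ℕ) : ℝ) - (T.S.card : ℝ)) ≤ (T.cost (Fintype.card V - 1) : ℝ))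
    (x : V) (hk : ∀ z ∈ s.F x, s.kk x z = r) (hE : ((s.E e x).card : ℝ) ≤ hX)
    (A : Finset V) (hAS : A ⊆ s.Sm e L x) :
    tau - lam * (((Fintype.card V - 1 : ℕ) : ℝ) - (A.card : ℝ)) - (s.NN e L x : ℝ) / 2 - 2 * r * hX * (L + r * L / e)
      ≤ ((Fintype.card V - 1 : ℕ) : ℝ) * (s.hsum x A : ℝ) := by
  have hAFe : A ⊆ s.Fe e x := fun v hv => (mem_filter.1 (hAS hv)).1
  have hAF : A ⊆ s.F x := fun v hv => (mem_filter.1 (hAFe hv)).1
  have hA : ∀ v ∈ A, g.d x v = 2 * r := fun v hv => s.hF x v (hAF hv)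
  obtain ⟨h1, h2⟩ := gam_sub (by omega) x A hA
  have h3 : (gamLF g r x A hA).S.card ≤ Fintype.card V - 1 := by
    have h4 : (gamLF g r x A hA).S ⊆ univ.erase x := fun w hw =>
      mem_erase.2 ⟨fun h => h2 (h ▸ hw), mem_univ _⟩
    have h5 := card_le_card h4
    rwa [card_erase_of_mem (mem_univ _), card_univ] at h5
  have h4 := lemA _ h3
  have h5 := gam_C s hr diam e L hX he hL x hk hE A hAS hA
  have h6 := gam_h s (by omega) x hk A hAF hA
  have h7 : (A.card : ℝ) ≤ ((gamLF g r x A hA).S.card : ℝ) := by exact_mod_cast card_le_card h1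
  unfold LF.cost at h4
  rw [h6] at h4
  push_cast at h4 ⊢
  have h8 : lam * (A.card : ℝ) ≤ lam * ((gamLF g r x A hA).S.card : ℝ) :=
    mul_le_mul_of_nonneg_left h7 hlam
  nlinarith

end Pool.Agent.Wi
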