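import Pool.Agent.Wi.Basic

/-! MODULE GEO (blueprint section 1).  Weight of a vertex `v` is `2 ^ idx v`; among the isometric paths
x -> y take the one of minimal total weight. A path is determined by its vertex set, so the minimiser is unique;
reversal and initial segments of minimisers are minimisers. -/

namespace Pool.Agent.Wi

open Finset
open scoped Classical

namespace GeoAux

variable {V : Type}

/-- `p` restricted to `0..d x y` is an isometric path from `x` to `y`. -/
def IsG (d : V → V → ℕ) (x y : V) (p : ℕ → V) : Prop :=
  p 0 = x ∧ p (d x y) = y ∧ ∀ i j, i ≤ j → j ≤ d x y → d (p i) (p j) = j - i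

/-- total weight of the first `m + 1` vertices -/
def wt (idx : V → ℕ) (m : ℕ) (p : ℕ → V) : ℕ := ∑ i ∈ range (m + 1), 2 ^ idx (p i)

theorem uniq (d : V → V → ℕ) (h0 : ∀ x y, d x y = 0 ↔ x = y) (idx : V → ℕ)
    (hidx : Function.Injective idx) {x y : V} {p q : ℕ → V} (hp : IsG d x y p) (hq : IsG d x y q)
    (hw : wt idx (d x y) p = wt idx (d x y) q) : ∀ i, i ≤ d x y → p i = q i := by
  have key : ∀ p : ℕ → V, IsG d x y p → wt idx (d x y) p =
      ∑ a ∈ (range (d x y + 1)).image (fun i => idx (p i)), 2 ^ a := by
    intro p hp
    rw [Finset.sum_image]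
    · rfl
    · intro i hi j hj hij
      have hij' : p i = p j := hidx hij
      simp only [coe_range, Set.mem_Iio] at hi hj
      rcases le_total i j with h | h
      · have := hp.2.2 i j h (by omega)
        rw [hij', (h0 _ _).2 rfl] at this
        omega
      · have := hp.2.2 j i h (by omega)
        rw [hij', (h0 _ _).2 rfl] at this
        omega
  rw [key p hp, key q hq] at hw
  have himg := Finset.geomSum_injective (n := 2) le_rfl hw
  intro i hi
  have hmem : idx (p i) ∈ (range (d x y + 1)).image (fun i => idx (q i)) := by
    rw [← himg]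
    exact Finset.mem_image.2 ⟨i, by simp; omega, rfl⟩
  obtain ⟨j, hj, hji⟩ := Finset.mem_image.1 hmem
  have hj' : j ≤ d x y := by simp at hj; omega
  have hqp : q j = p i := hidx hji
  have e1 := hp.2.2 0 i (Nat.zero_le _) hi
  have e2 := hq.2.2 0 j (Nat.zero_le _) hj'
  rw [hp.1] at e1
  rw [hq.1, hqp] at e2
  have hijeq : i = j := by omega
  rw [← hijeq] at hqp
  exact hqp.symm

theorem exists_geo [Fintype V] (d : V → V → ℕ) (h0 : ∀ x y, d x y = 0 ↔ x = y)
    (hs : ∀ x y, d x y = d y x) (ht : ∀ x y z, d x z ≤ d x y + d y z)
    (hex : ∀ x y, ∃ p, IsG d x y p) : ∃ g : Geo V, g.d = d := by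
  obtain ⟨idx, hidx⟩ : ∃ idx : V → ℕ, Function.Injective idx :=
    ⟨fun v => (Fintype.equivFin V v : ℕ), fun a b h => (Fintype.equivFin V).injective (Fin.ext h)⟩
  -- minimal paths
  have hmin : ∀ x y, ∃ p, IsG d x y p ∧ ∀ q, IsG d x y q → wt idx (d x y) p ≤ wt idx (d x y) q := by
    intro x y
    have hne : ∃ w, ∃ p, IsG d x y p ∧ wt idx (d x y) p = w := by
      obtain ⟨p, hp⟩ := hex x y
      exact ⟨_, p, hp, rfl⟩
    obtain ⟨p, hp, hpw⟩ := Nat.find_spec hne
    refine ⟨p, hp, fun q hq => ?_⟩
    rw [hpw]
    exact Nat.find_min' hne ⟨q, hq, rfl⟩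
  choose c hc hcm using hmin
  -- values beyond the distance do not matter
  have self0 : ∀ x, d x x = 0 := fun x => (h0 x x).2 rfl
  have crev : ∀ x y i, i ≤ d x y → c y x i = c x y (d x y - i) := by
    intro x y i hi
    have hrevG : ∀ x y p, IsG d x y p → IsG d y x (fun i => p (d x y - i)) ∧
        wt idx (d y x) (fun i => p (d x y - i)) = wt idx (d x y) p := by
      intro x y p hp
      refine ⟨⟨?_, ?_, ?_⟩, ?_⟩
      · simpa using hp.2.1
      · simp only [hs y x]
        rw [Nat.sub_self]
        exact hp.1
      · intro i j hij hj
        rw [hs y x] at hj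
        rw [hs]
        have := hp.2.2 (d x y - j) (d x y - i) (by omega) (by omega)
        simp only
        rw [this]
        omega
      · unfold wt
        rw [hs y x]
        rw [← Finset.sum_range_reflect]
        apply Finset.sum_congr rfl
        intro i hi
        simp only [mem_range] at hi
        have : d x y - (d x y + 1 - 1 - i) = i := by omega
        simp only [this]
    obtain ⟨h1, h2⟩ := hrevG x y (c x y) (hc x y)
    obtain ⟨h3, h4⟩ := hrevG y x (c y x) (hc y x)
    have a1 := hcm y x _ h1
    have a2 := hcm x y _ h3
    rw [h2] at a1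
    rw [h4] at a2
    have hw : wt idx (d y x) (c y x) = wt idx (d y x) (fun i => c x y (d x y - i)) := by
      rw [h2]; exact le_antisymm a1 a2
    exact uniq d h0 idx hidx (hc y x) h1 hw i (by rw [hs]; exact hi)
  have csub : ∀ x y i j, i ≤ j → j ≤ d x y → c x (c x y j) i = c x y i := by
    intro x y i j hij hj
    set p := c x y with hpdef
    have hp : IsG d x y p := hc x y
    set z := p j with hz
    have hxz : d x z = j := by
      have := hp.2.2 0 j (Nat.zero_le _) hj
      rw [hp.1] at this
      simpa using this
    have hzy : d z y = d x y - j := by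
      have := hp.2.2 j (d x y) hj le_rfl
      rw [hp.2.1] at this
      exact this
    have hpz : IsG d x z p := ⟨hp.1, by rw [hxz], fun i k h1 h2 => hp.2.2 i k h1 (by omega)⟩
    set q := c x z with hqdef
    have hq : IsG d x z q := hc x z
    have hqj : q j = z := by have := hq.2.1; rwa [hxz] at this
    have le1 : wt idx j q ≤ wt idx j p := by
      have := hcm x z p hpz
      rwa [hxz] at this
    -- the spliced path
    set m : ℕ → V := fun i => if i ≤ j then q i else p i with hm
    have hmG : IsG d x y m := by
      refine ⟨?_, ?_, ?_⟩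
      · simp only [hm]; rw [if_pos (Nat.zero_le _)]; exact hq.1
      · simp only [hm]
        split_ifs with h
        · have hj2 : d x y = j := by omega
          rw [hj2, hqj, hz, ← hj2]; exact hp.2.1
        · exact hp.2.1
      · intro a b hab hb
        simp only [hm]
        by_cases hb1 : b ≤ j
        · rw [if_pos hb1, if_pos (by omega)]
          exact hq.2.2 a b hab (by rw [hxz]; exact hb1)
        · rw [if_neg hb1]
          by_cases ha1 : a ≤ j
          · rw [if_pos ha1]
            have e1 : d (q a) z = j - a := by
              have := hq.2.2 a j ha1 (by rw [hxz])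
              rwa [hqj] at this
            have e2 : d z (p b) = b - j := hp.2.2 j b (by omega) hb
            have e3 : d x (q a) = a := by
              have := hq.2.2 0 a (Nat.zero_le _) (by rw [hxz]; exact ha1)
              rw [hq.1] at this; simpa using this
            have e4 : d (p b) y = d x y - b := by
              have := hp.2.2 b (d x y) hb le_rfl
              rwa [hp.2.1] at this
            have t1 := ht (q a) z (p b)
            have t2 := ht x (q a) y
            have t3 := ht (q a) (p b) y
            omega
          · rw [if_neg ha1]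
            exact hp.2.2 a b hab hb
    have le2 := hcm x y m hmG
    have split : ∀ f : ℕ → ℕ, ∑ i ∈ range (d x y + 1), f i =
        ∑ i ∈ range (j + 1), f i + ∑ i ∈ Finset.Ico (j + 1) (d x y + 1), f i := by
      intro f
      rw [Finset.sum_range_add_sum_Ico _ (by omega)]
    have le3 : wt idx j p ≤ wt idx j q := by
      have e1 : wt idx (d x y) p = wt idx j p + ∑ i ∈ Finset.Ico (j + 1) (d x y + 1), 2 ^ idx (p i) :=
        split _
      have e2 : wt idx (d x y) m = wt idx j q + ∑ i ∈ Finset.Ico (j + 1) (d x y + 1), 2 ^ idx (p i) := by
        unfold wt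
        rw [split]
        congr 1
        · apply Finset.sum_congr rfl
          intro i hi
          simp only [mem_range] at hi
          simp only [hm]; rw [if_pos (by omega)]
        · apply Finset.sum_congr rfl
          intro i hi
          simp only [Finset.mem_Ico] at hi
          simp only [hm]; rw [if_neg (by omega)]
      rw [← hpdef] at le2
      omega
    have hw : wt idx (d x z) q = wt idx (d x z) p := by
      rw [hxz]; exact le_antisymm le1 le3
    exact uniq d h0 idx hidx hq hpz hw i (by rw [hxz]; exact hij)
  refine ⟨{
    d := d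
    d0 := h0
    symm := hs
    tri := ht
    P := c
    P0 := fun x y => (hc x y).1
    Pl := fun x y => (hc x y).2.1
    dl := fun x y i hi => by
      have := (hc x y).2.2 0 i (Nat.zero_le _) hi
      rw [(hc x y).1] at this; simpa using this
    dr := fun x y i hi => by
      have := (hc x y).2.2 i (d x y) hi le_rfl
      rwa [(hc x y).2.1] at this
    rev := crev
    sub := csub }, rfl⟩

end GeoAux

theorem geo_exists {V : Type} [Fintype V] (G : SimpleGraph V) (hG : G.Connected) :
    ∃ g : Geo V, ∀ x y, g.d x y = G.dist x y := by
  have h0 : ∀ x y, G.dist x y = 0 ↔ x = y := fun x y => hG.dist_eq_zero_iff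
  have hs : ∀ x y, G.dist x y = G.dist y x := fun x y => SimpleGraph.dist_comm
  have ht : ∀ x y z, G.dist x z ≤ G.dist x y + G.dist y z := fun x y z => hG.dist_triangle
  have hex : ∀ x y, ∃ p, GeoAux.IsG (fun a b => G.dist a b) x y p := by
    intro x y
    obtain ⟨w, hw⟩ := hG.exists_walk_length_eq_dist x y
    have hstep : ∀ i j, i ≤ j → j ≤ w.length → G.dist (w.getVert i) (w.getVert j) ≤ j - i := by
      intro i j hij hj
      induction j, hij using Nat.le_induction with
      | base => simp
      | succ k hk ih =>
        have h1 := ih (by omega)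
        have h2 : G.Adj (w.getVert k) (w.getVert (k + 1)) := w.adj_getVert_succ (by omega)
        have h3 := ht (w.getVert i) (w.getVert k) (w.getVert (k + 1))
        have h4 : G.dist (w.getVert k) (w.getVert (k + 1)) = 1 := SimpleGraph.dist_eq_one_iff_adj.2 h2
        omega
    refine ⟨w.getVert, by simp, ?_, ?_⟩
    · simp only; rw [← hw]; exact w.getVert_length
    · intro i j hij hj
      simp only at hj ⊢
      have a1 := hstep i j hij (by omega)
      have a2 := hstep 0 i (Nat.zero_le _) (by omega)
      have a3 := hstep j w.length (by omega) le_rfl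
      rw [w.getVert_zero] at a2
      rw [w.getVert_length] at a3
      have t1 := ht x (w.getVert i) y
      have t2 := ht (w.getVert i) (w.getVert j) y
      omega
  obtain ⟨g, hg⟩ := GeoAux.exists_geo (fun a b => G.dist a b) h0 hs ht hex
  exact ⟨g, fun x y => by rw [hg]⟩

end Pool.Agent.Wi
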