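import Pool.Agent.Wi.SRC
import Pool.Agent.Wi.Glob

/-! MODULE MID: middles (section 5 of the blueprint). -/

namespace Pool.Agent.Wi

open Finset
open scoped Classical

variable {V : Type} [Fintype V] {g : Geo V} {r : ℕ}

/-- (5.0) -/
theorem mid_close (s : Src g r) (e L : ℝ) (o x m : V) (h : g.d x m ≤ r) (hm : ¬ 0 < s.near e L o x m) :
    s.unc e (s.near e L o) x m = 2 * r - g.d x m := by
  unfold Src.unc
  rw [if_neg]
  · omega
  · rintro (h1 | h1)
    · have := (s.mem_E_dist h1).1
      omega
    · have := (s.mem_E_dist h1).1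
      rw [g.symm] at this
      omega

/-- the uncharged pairs, weighted -/
theorem mid_unc_card (s : Src g r) (e : ℝ) (b : V → V → ℕ) (k : ℕ) :
    (univ.filter (fun p : V × V => p.1 ≠ p.2 ∧ k ≤ s.unc e b p.1 p.2)).card * k ≤ s.Unc e b := by
  have h1 : s.Unc e b = ∑ p ∈ univ.filter (fun p : V × V => p.1 ≠ p.2), s.unc e b p.1 p.2 := by
    unfold Src.Unc
    rw [Finset.sum_filter, ← Finset.univ_product_univ, Finset.sum_product]
    apply Finset.sum_congr rfl
    intro x _
    rw [Finset.sum_filter]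
    apply Finset.sum_congr rfl
    intro y _
    by_cases hxy : x = y
    · subst hxy; simp
    · rw [if_pos (Ne.symm hxy), if_pos hxy]
  rw [h1]
  calc (univ.filter (fun p : V × V => p.1 ≠ p.2 ∧ k ≤ s.unc e b p.1 p.2)).card * k
      = ∑ p ∈ univ.filter (fun p : V × V => p.1 ≠ p.2 ∧ k ≤ s.unc e b p.1 p.2), k := by
        rw [Finset.sum_const, smul_eq_mul]
    _ ≤ ∑ p ∈ univ.filter (fun p : V × V => p.1 ≠ p.2 ∧ k ≤ s.unc e b p.1 p.2),
          s.unc e b p.1 p.2 := by
        apply Finset.sum_le_sum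
        intro p hp
        exact (Finset.mem_filter.1 hp).2.2
    _ ≤ _ := by
        apply Finset.sum_le_sum_of_subset
        intro p hp
        rw [Finset.mem_filter] at hp ⊢
        exact ⟨hp.1, hp.2.1⟩

/-- (5.1) -/
theorem mid_pairs (s : Src g r) (hr : 2 ≤ r) (diam : ∀ x y, g.d x y ≤ 2 * r) (e L b : ℝ) (hb : 0 ≤ b) (o : V) :
    ((univ.filter (fun p : V × V => g.d p.1 p.2 = 2 * r ∧ ((g.ball r (g.P p.2 p.1 r)).card : ℝ) ≤ b)).card : ℝ) * r
      ≤ 2 * b * (s.Unc e (s.near e L o) : ℝ) := by
  set A : Finset (V × V) := univ.filter (fun p : V × V => p.1 ≠ p.2 ∧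
    r ≤ s.unc e (s.near e L o) p.1 p.2) with hA
  set A' : Finset (V × V) := A.filter (fun p => ((g.ball r p.2).card : ℝ) ≤ b) with hA'
  set S := univ.filter (fun p : V × V => g.d p.1 p.2 = 2 * r ∧
    ((g.ball r (g.P p.2 p.1 r)).card : ℝ) ≤ b) with hS
  -- the middle
  have hmid : ∀ u v : V, g.d u v = 2 * r → g.d u (g.P v u r) = r ∧ g.d v (g.P v u r) = r := by
    intro u v huv
    have hvu : g.d v u = 2 * r := by rw [g.symm]; exact huv
    have h1 := g.dl v u r (by omega)
    have h2 := g.dr v u r (by omega)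
    refine ⟨?_, h1⟩
    rw [g.symm]
    omega
  have hunc : ∀ x m : V, g.d x m = r → ¬ 0 < s.near e L o x m → (x, m) ∈ A := by
    intro x m hxm hn
    rw [hA, Finset.mem_filter]
    refine ⟨Finset.mem_univ _, ?_, ?_⟩
    · rintro (h : x = m)
      rw [h, g.dself] at hxm
      omega
    · change r ≤ s.unc e (s.near e L o) x m
      rw [mid_close s e L o x m (by omega) hn]
      omega
  let T : Finset ((_ : V × V) × V) := A'.sigma (fun p => g.ball r p.2)
  have hT : (T.card : ℝ) ≤ b * A.card := by
    have h1 : T.card = ∑ p ∈ A', (g.ball r p.2).card := Finset.card_sigma _ _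
    rw [h1]
    push_cast
    calc ∑ p ∈ A', ((g.ball r p.2).card : ℝ) ≤ ∑ p ∈ A', b := by
          apply Finset.sum_le_sum
          intro p hp
          exact (Finset.mem_filter.1 hp).2
      _ = A'.card * b := by rw [Finset.sum_const, nsmul_eq_mul]
      _ ≤ A.card * b := by
          apply mul_le_mul_of_nonneg_right _ hb
          exact_mod_cast Finset.card_le_card (Finset.filter_subset _ _)
      _ = b * A.card := by ring
  have hS12 : S ⊆ (S.filter (fun p => (p.1, g.P p.2 p.1 r) ∈ A)) ∪
      (S.filter (fun p => (p.2, g.P p.2 p.1 r) ∈ A)) := by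
    intro p hp
    refine Finset.mem_union.2 ?_
    have hp' := (Finset.mem_filter.1 hp).2
    obtain ⟨h1, h2⟩ := hmid p.1 p.2 hp'.1
    by_cases hn1 : 0 < s.near e L o p.1 (g.P p.2 p.1 r)
    · by_cases hn2 : 0 < s.near e L o p.2 (g.P p.2 p.1 r)
      · exfalso
        have h3 := (s.near_pos_iff hr e L o _ _).1 hn1
        have h4 := (s.near_pos_iff hr e L o _ _).1 hn2
        have h5 : p.1 ∈ s.F o := by
          have := h3.2.1
          unfold Src.Sm Src.Fe at this
          exact (Finset.mem_filter.1 (Finset.mem_filter.1 this).1).1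
        have h6 : p.2 ∈ s.F o := by
          have := h4.2.1
          unfold Src.Sm Src.Fe at this
          exact (Finset.mem_filter.1 (Finset.mem_filter.1 this).1).1
        have h7 := s.cls_dist (by omega) h5 h6 (h3.2.2.2.trans h4.2.2.2.symm)
        omega
      · exact Or.inr (Finset.mem_filter.2 ⟨hp, hunc _ _ h2 hn2⟩)
    · exact Or.inl (Finset.mem_filter.2 ⟨hp, hunc _ _ h1 hn1⟩)
  have hc1 : (S.filter (fun p => (p.1, g.P p.2 p.1 r) ∈ A)).card ≤ T.card := by
    apply Finset.card_le_card_of_injOn (fun p => ⟨(p.1, g.P p.2 p.1 r), p.2⟩)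
    · intro p hp
      rw [Finset.mem_coe, Finset.mem_filter] at hp
      have hp' := (Finset.mem_filter.1 hp.1).2
      obtain ⟨h1, h2⟩ := hmid p.1 p.2 hp'.1
      rw [Finset.mem_coe, Finset.mem_sigma, hA', Finset.mem_filter]
      refine ⟨⟨hp.2, hp'.2⟩, ?_⟩
      unfold Geo.ball
      rw [Finset.mem_filter]
      exact ⟨Finset.mem_univ _, by rw [g.symm]; exact h2.le⟩
    · intro p _ q _ hpq
      simp only [Sigma.mk.injEq, Prod.mk.injEq, heq_eq_eq] at hpq
      exact Prod.ext hpq.1.1 hpq.2
  have hc2 : (S.filter (fun p => (p.2, g.P p.2 p.1 r) ∈ A)).card ≤ T.card := by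
    apply Finset.card_le_card_of_injOn (fun p => ⟨(p.2, g.P p.2 p.1 r), p.1⟩)
    · intro p hp
      rw [Finset.mem_coe, Finset.mem_filter] at hp
      have hp' := (Finset.mem_filter.1 hp.1).2
      obtain ⟨h1, h2⟩ := hmid p.1 p.2 hp'.1
      rw [Finset.mem_coe, Finset.mem_sigma, hA', Finset.mem_filter]
      refine ⟨⟨hp.2, hp'.2⟩, ?_⟩
      unfold Geo.ball
      rw [Finset.mem_filter]
      exact ⟨Finset.mem_univ _, by rw [g.symm]; exact h1.le⟩
    · intro p _ q _ hpq
      simp only [Sigma.mk.injEq, Prod.mk.injEq, heq_eq_eq] at hpq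
      exact Prod.ext hpq.2 hpq.1.1
  have hcard : (S.card : ℝ) ≤ 2 * (b * A.card) := by
    have h1 := (Finset.card_le_card hS12).trans (Finset.card_union_le _ _)
    have h2 : S.card ≤ 2 * T.card := by omega
    have h3 : (S.card : ℝ) ≤ 2 * T.card := by exact_mod_cast h2
    linarith
  have hA2 : (A.card : ℝ) * r ≤ s.Unc e (s.near e L o) := by
    exact_mod_cast mid_unc_card s e (s.near e L o) r
  calc (S.card : ℝ) * r ≤ 2 * (b * A.card) * r := by
        apply mul_le_mul_of_nonneg_right hcard
        positivity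
    _ = 2 * b * (A.card * r) := by ring
    _ ≤ 2 * b * (s.Unc e (s.near e L o) : ℝ) := by
        apply mul_le_mul_of_nonneg_left hA2
        positivity

/-- (5.2) -/
theorem mid_balls (s : Src g r) (hr : 2 ≤ r) (diam : ∀ x y, g.d x y ≤ 2 * r) (e L b : ℝ) (hL : 0 ≤ L) (hb : 2 * (L + 1) ≤ b) (o : V) :
    (∑ m ∈ bigM g r b, ((g.ball r m).card : ℝ)) * r ≤ 2 * (s.Unc e (s.near e L o) : ℝ) := by
  have hpt : ∀ m ∈ bigM g r b, ((g.ball r m).card : ℝ) * r ≤
      2 * ∑ x ∈ univ.filter (fun x => x ≠ m), (s.unc e (s.near e L o) x m : ℝ) := by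
    intro m hm
    have hm' : b < ((g.ball r m).card : ℝ) := (Finset.mem_filter.1 hm).2
    set N : Finset V := univ.filter (fun x => x ≠ m ∧ r ≤ s.unc e (s.near e L o) x m) with hN
    have hsub : g.ball r m ⊆ insert m ((univ.filter (fun q => 0 < s.near e L o m q)) ∪ N) := by
      intro x hx
      rw [Finset.mem_insert, Finset.mem_union, Finset.mem_filter, hN, Finset.mem_filter]
      by_cases hxm : x = m
      · exact Or.inl hxm
      · right
        by_cases hn : 0 < s.near e L o m x
        · exact Or.inl ⟨Finset.mem_univ _, hn⟩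
        · right
          refine ⟨Finset.mem_univ _, hxm, ?_⟩
          have hd : g.d x m ≤ r := by
            rw [g.symm]
            exact (Finset.mem_filter.1 hx).2
          rw [s.near_symm] at hn
          rw [mid_close s e L o x m hd hn]
          omega
    have h1 := Finset.card_le_card hsub
    have h2 := (Finset.card_insert_le m ((univ.filter (fun q => 0 < s.near e L o m q)) ∪ N))
    have h3 := Finset.card_union_le (univ.filter (fun q => 0 < s.near e L o m q)) N
    have h4 := s.card_mates_le hr e L hL o m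
    have h5 : ((g.ball r m).card : ℝ) ≤ L + N.card + 1 := by
      have h6 : (g.ball r m).card ≤ (univ.filter (fun q => 0 < s.near e L o m q)).card +
          N.card + 1 := by omega
      have h7 : ((g.ball r m).card : ℝ) ≤
          ((univ.filter (fun q => 0 < s.near e L o m q)).card : ℝ) + N.card + 1 := by
        exact_mod_cast h6
      linarith
    have h8 : ((g.ball r m).card : ℝ) ≤ 2 * N.card := by linarith
    have h9 : (N.card : ℝ) * r ≤
        ∑ x ∈ univ.filter (fun x => x ≠ m), (s.unc e (s.near e L o) x m : ℝ) := by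
      calc (N.card : ℝ) * r = ∑ x ∈ N, (r : ℝ) := by rw [Finset.sum_const, nsmul_eq_mul]
        _ ≤ ∑ x ∈ N, (s.unc e (s.near e L o) x m : ℝ) := by
            apply Finset.sum_le_sum
            intro x hx
            exact_mod_cast (Finset.mem_filter.1 hx).2.2
        _ ≤ _ := by
            apply Finset.sum_le_sum_of_subset_of_nonneg
            · intro x hx
              rw [Finset.mem_filter]
              exact ⟨Finset.mem_univ _, (Finset.mem_filter.1 hx).2.1⟩
            · intro x _ _
              positivity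
    calc ((g.ball r m).card : ℝ) * r ≤ 2 * N.card * r := by
          apply mul_le_mul_of_nonneg_right h8
          positivity
      _ = 2 * (N.card * r) := by ring
      _ ≤ _ := by linarith
  have hU : (s.Unc e (s.near e L o) : ℝ) = ∑ m : V, ∑ x ∈ univ.filter (fun x => x ≠ m),
      (s.unc e (s.near e L o) x m : ℝ) := by
    unfold Src.Unc
    push_cast
    simp only [Finset.sum_filter]
    rw [Finset.sum_comm]
    apply Finset.sum_congr rfl
    intro x _
    apply Finset.sum_congr rfl
    intro y _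
    by_cases hxy : x = y
    · subst hxy; simp
    · rw [if_pos hxy, if_pos (Ne.symm hxy)]
  rw [Finset.sum_mul]
  calc ∑ m ∈ bigM g r b, ((g.ball r m).card : ℝ) * r
      ≤ ∑ m ∈ bigM g r b, 2 * ∑ x ∈ univ.filter (fun x => x ≠ m),
          (s.unc e (s.near e L o) x m : ℝ) := Finset.sum_le_sum hpt
    _ ≤ ∑ m : V, 2 * ∑ x ∈ univ.filter (fun x => x ≠ m),
          (s.unc e (s.near e L o) x m : ℝ) := by
        apply Finset.sum_le_sum_of_subset_of_nonneg (Finset.subset_univ _)
        intro m _ _
        positivity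
    _ = 2 * (s.Unc e (s.near e L o) : ℝ) := by rw [hU, Finset.mul_sum]

/-- (5.3), pointwise: a point within `r - 1` of a big middle is not light. -/
theorem mid_heavy' (hr : 1 ≤ r) (b : ℝ) (y m : V) (hm : m ∈ bigM g r b) (hd : g.d y m ≤ r - 1) :
    b < ((g.ball (2 * r - 1) y).card : ℝ) := by
  have hm' : b < ((g.ball r m).card : ℝ) := (Finset.mem_filter.1 hm).2
  refine lt_of_lt_of_le hm' ?_
  norm_cast
  apply Finset.card_le_card
  intro x hx
  unfold Geo.ball at hx ⊢
  rw [Finset.mem_filter] at hx ⊢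
  refine ⟨Finset.mem_univ _, ?_⟩
  have := g.tri y m x
  omega

/-- (5.3) -/
theorem mid_heavy (b : ℝ) (hb : 0 ≤ b) :
    ((univ.filter (fun y => ∃ m ∈ bigM g r b, g.d y m ≤ r - 1)).card : ℝ) * (b - 1) ≤ (g.D2 r : ℝ) := by
  by_cases hb1 : b ≤ 1
  · have h1 : (0 : ℝ) ≤ g.D2 r := by positivity
    have h2 : ((univ.filter (fun y => ∃ m ∈ bigM g r b, g.d y m ≤ r - 1)).card : ℝ) * (b - 1) ≤ 0 :=
      mul_nonpos_of_nonneg_of_nonpos (by positivity) (by linarith)
    linarith
  rcases Nat.eq_zero_or_pos r with hr | hr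
  · -- no big middles for `r = 0`
    have h1 : (univ.filter (fun y => ∃ m ∈ bigM g r b, g.d y m ≤ r - 1)) = ∅ := by
      rw [Finset.filter_eq_empty_iff]
      rintro y - ⟨m, hm, -⟩
      have hm' : b < ((g.ball r m).card : ℝ) := (Finset.mem_filter.1 hm).2
      have h2 : g.ball r m ⊆ {m} := by
        intro x hx
        have := (Finset.mem_filter.1 hx).2
        rw [Finset.mem_singleton]
        exact ((g.d0 m x).1 (by omega)).symm
      have h3 := Finset.card_le_card h2
      rw [Finset.card_singleton] at h3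
      have h4 : ((g.ball r m).card : ℝ) ≤ 1 := by exact_mod_cast h3
      linarith
    rw [h1]
    simp
  · unfold Geo.D2
    push_cast
    have hpt : ∀ y ∈ univ.filter (fun y => ∃ m ∈ bigM g r b, g.d y m ≤ r - 1),
        b - 1 ≤ ∑ x ∈ univ.filter (fun x => x ≠ y), ((2 * r - g.d y x : ℕ) : ℝ) := by
      intro y hy
      obtain ⟨m, hm, hd⟩ := (Finset.mem_filter.1 hy).2
      have h1 := mid_heavy' hr b y m hm hd
      have h2 : ((g.ball (2 * r - 1) y).card : ℝ) ≤
          ((univ.filter (fun x => x ≠ y ∧ 1 ≤ 2 * r - g.d y x)).card : ℝ) + 1 := by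
        have h3 : g.ball (2 * r - 1) y ⊆
            insert y (univ.filter (fun x => x ≠ y ∧ 1 ≤ 2 * r - g.d y x)) := by
          intro x hx
          have h4 := (Finset.mem_filter.1 hx).2
          rw [Finset.mem_insert, Finset.mem_filter]
          by_cases hxy : x = y
          · exact Or.inl hxy
          · exact Or.inr ⟨Finset.mem_univ _, hxy, by omega⟩
        have h4 := (Finset.card_le_card h3).trans (Finset.card_insert_le _ _)
        exact_mod_cast h4
      have h5 : ((univ.filter (fun x => x ≠ y ∧ 1 ≤ 2 * r - g.d y x)).card : ℝ) ≤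
          ∑ x ∈ univ.filter (fun x => x ≠ y), ((2 * r - g.d y x : ℕ) : ℝ) := by
        have h6 : (univ.filter (fun x => x ≠ y ∧ 1 ≤ 2 * r - g.d y x)).card ≤
            ∑ x ∈ univ.filter (fun x => x ≠ y), (2 * r - g.d y x) := by
          rw [Finset.card_eq_sum_ones]
          calc ∑ x ∈ univ.filter (fun x => x ≠ y ∧ 1 ≤ 2 * r - g.d y x), 1
              ≤ ∑ x ∈ univ.filter (fun x => x ≠ y ∧ 1 ≤ 2 * r - g.d y x), (2 * r - g.d y x) := by
                apply Finset.sum_le_sum
                intro x hx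
                exact (Finset.mem_filter.1 hx).2.2
            _ ≤ _ := by
                apply Finset.sum_le_sum_of_subset
                intro x hx
                rw [Finset.mem_filter] at hx ⊢
                exact ⟨hx.1, hx.2.1⟩
        exact_mod_cast h6
      linarith
    calc ((univ.filter (fun y => ∃ m ∈ bigM g r b, g.d y m ≤ r - 1)).card : ℝ) * (b - 1)
        = ∑ y ∈ univ.filter (fun y => ∃ m ∈ bigM g r b, g.d y m ≤ r - 1), (b - 1) := by
          rw [Finset.sum_const, nsmul_eq_mul]
      _ ≤ ∑ y ∈ univ.filter (fun y => ∃ m ∈ bigM g r b, g.d y m ≤ r - 1),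
            ∑ x ∈ univ.filter (fun x => x ≠ y), ((2 * r - g.d y x : ℕ) : ℝ) :=
          Finset.sum_le_sum hpt
      _ ≤ _ := by
          apply Finset.sum_le_sum_of_subset_of_nonneg (Finset.subset_univ _)
          intro m _ _
          positivity

/-- (5.4) -/
theorem mid_small (hr : 1 ≤ r) (Y : Finset V) (hY : ∀ y ∈ Y, ∀ y' ∈ Y, g.d y y' ≤ 2 * (r - 1)) :
    2 * (Y.card * (Y.card - 1)) ≤ g.D2 r := by
  unfold Geo.D2
  have hpt : ∀ y ∈ Y, 2 * (Y.card - 1) ≤ ∑ x ∈ univ.filter (fun x => x ≠ y), (2 * r - g.d y x) := by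
    intro y hy
    calc 2 * (Y.card - 1) = ∑ x ∈ Y.erase y, 2 := by
          rw [Finset.sum_const, smul_eq_mul, Finset.card_erase_of_mem hy]
          ring
      _ ≤ ∑ x ∈ Y.erase y, (2 * r - g.d y x) := by
          apply Finset.sum_le_sum
          intro x hx
          have := hY y hy x (Finset.mem_of_mem_erase hx)
          omega
      _ ≤ _ := by
          apply Finset.sum_le_sum_of_subset
          intro x hx
          rw [Finset.mem_filter]
          exact ⟨Finset.mem_univ _, Finset.ne_of_mem_erase hx⟩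
  calc 2 * (Y.card * (Y.card - 1)) = ∑ y ∈ Y, 2 * (Y.card - 1) := by
        rw [Finset.sum_const, smul_eq_mul]
        ring
    _ ≤ ∑ y ∈ Y, ∑ x ∈ univ.filter (fun x => x ≠ y), (2 * r - g.d y x) := Finset.sum_le_sum hpt
    _ ≤ _ := Finset.sum_le_sum_of_subset (Finset.subset_univ _)

end Pool.Agent.Wi
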