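import Pool.Agent.Wi.SRC
import Pool.Agent.Wi.Glob

/-! MODULE ONEa: Type I count of section 4 (blueprint (4.3), TYPE I). -/

namespace Pool.Agent.Wi

open Finset
open scoped Classical

variable {V : Type} [Fintype V] {g : Geo V} {r : ℕ}

/-- double counting with a real bound for the fibres. -/
theorem h92_card_le_fib {α β : Type} [DecidableEq β] (A : Finset α) (B : Finset β) (f : α → β) (hf : ∀ a ∈ A, f a ∈ B)
    (c : ℝ) (hc : ∀ b ∈ B, ((A.filter (fun a => f a = b)).card : ℝ) ≤ c) : (A.card : ℝ) ≤ c * (B.card : ℝ) := by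
  have h := Finset.card_eq_sum_card_fiberwise (f := f) (s := A) (t := B) (fun a ha => hf a ha)
  rw [h]
  push_cast
  calc (∑ b ∈ B, ((A.filter (fun a => f a = b)).card : ℝ)) ≤ ∑ b ∈ B, c := Finset.sum_le_sum hc
    _ = c * (B.card : ℝ) := by rw [Finset.sum_const, nsmul_eq_mul, mul_comm]

/-- ordered pairs with an uncharged part are at most `Unc`. -/
theorem h92_card_unc_le (s : Src g r) (e : ℝ) (b : V → V → ℕ) :
    (univ.filter (fun p : V × V => p.2 ≠ p.1 ∧ 0 < s.unc e b p.1 p.2)).card ≤ s.Unc e b := by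
  rw [Finset.card_filter, Fintype.sum_prod_type]
  unfold Src.Unc
  refine Finset.sum_le_sum fun x _ => ?_
  rw [Finset.sum_filter]
  refine Finset.sum_le_sum fun y _ => ?_
  dsimp only
  split_ifs with h1 h2 h3
  · exact h1.2
  · exact absurd h1.1 h2
  · exact Nat.zero_le _
  · exact Nat.zero_le _

/-- ordered pairs with positive deficit are at most `2 D`. -/
theorem h92_card_pos_le (g : Geo V) (r : ℕ) :
    (univ.filter (fun p : V × V => p.2 ≠ p.1 ∧ g.d p.1 p.2 < 2 * r)).card ≤ g.D2 r := by
  rw [Finset.card_filter, Fintype.sum_prod_type]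
  unfold Geo.D2
  refine Finset.sum_le_sum fun x _ => ?_
  rw [Finset.sum_filter]
  refine Finset.sum_le_sum fun y _ => ?_
  dsimp only
  split_ifs with h1 h2 h3
  · omega
  · exact absurd h1.1 h2
  · exact Nat.zero_le _
  · exact Nat.zero_le _

private theorem one_main (s : Src g r) (hr : 2 ≤ r) (e L b hX : ℝ) (he : 1 ≤ e) (hL : 0 ≤ L)
    (hb0 : 0 ≤ b) (hX0 : 0 ≤ hX)
    (hE : ∀ x, ((s.E e x).card : ℝ) ≤ hX) (o : V) (j : ℕ) (hj1 : 1 ≤ j) (hj : j < r) :
    ((univ.filter (fun t : V × V × V => g.d t.1 t.2.2 = r + j ∧ g.d t.2.1 t.2.2 = r ∧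
        ((g.ball r t.2.2).card : ℝ) ≤ b)).card : ℝ) ≤
      (b * (s.Unc e (s.near e L o) : ℝ) + L * (g.D2 r : ℝ) + hX * (g.D2 r : ℝ) + nn V * (g.D2 r : ℝ) / e) := by
  set R := univ.filter (fun t : V × V × V => g.d t.1 t.2.2 = r + j ∧ g.d t.2.1 t.2.2 = r ∧
        ((g.ball r t.2.2).card : ℝ) ≤ b) with hR
  have hD : ((univ.filter (fun p : V × V => p.2 ≠ p.1 ∧ g.d p.1 p.2 < 2 * r)).card : ℝ) ≤ (g.D2 r : ℝ) := by
    exact_mod_cast h92_card_pos_le g r
  have hU : ((univ.filter (fun p : V × V => p.2 ≠ p.1 ∧ 0 < s.unc e (s.near e L o) p.1 p.2)).card : ℝ)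
      ≤ (s.Unc e (s.near e L o) : ℝ) := by
    exact_mod_cast h92_card_unc_le s e (s.near e L o)
  -- the four parts
  have h1 : ((R.filter (fun t => 0 < s.unc e (s.near e L o) t.1 t.2.2)).card : ℝ) ≤
      b * (s.Unc e (s.near e L o) : ℝ) := by
    refine (h92_card_le_fib _ (univ.filter (fun p : V × V => p.2 ≠ p.1 ∧ 0 < s.unc e (s.near e L o) p.1 p.2))
      (fun t => (t.1, t.2.2)) ?_ b ?_).trans (mul_le_mul_of_nonneg_left hU hb0)
    · intro t ht
      rw [mem_filter, hR, mem_filter] at ht
      refine mem_filter.2 ⟨mem_univ _, ?_, ht.2⟩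
      dsimp only
      intro h
      have := ht.1.2.1
      rw [h, g.dself] at this
      omega
    · intro p hp
      by_cases hne : ((R.filter (fun t => 0 < s.unc e (s.near e L o) t.1 t.2.2)).filter
          (fun a => (fun t : V × V × V => (t.1, t.2.2)) a = p)).Nonempty
      · obtain ⟨t, ht⟩ := hne
        rw [mem_filter, mem_filter, hR, mem_filter] at ht
        have hbt := ht.1.1.2.2.2
        have hp2 : t.2.2 = p.2 := by rw [← ht.2]
        rw [hp2] at hbt
        refine le_trans ?_ hbt
        have : ((R.filter (fun t => 0 < s.unc e (s.near e L o) t.1 t.2.2)).filter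
          (fun a => (fun t : V × V × V => (t.1, t.2.2)) a = p)).card ≤ (g.ball r p.2).card := by
          refine Finset.card_le_card_of_injOn (fun t => t.2.1) ?_ ?_
          · intro t ht
            rw [Finset.mem_coe, mem_filter, mem_filter, hR, mem_filter] at ht
            refine mem_filter.2 ⟨mem_univ _, ?_⟩
            have hp2 : t.2.2 = p.2 := by rw [← ht.2]
            have := ht.1.1.2.2.1
            rw [hp2, g.symm] at this
            exact this.le
          · intro t ht t' ht' h
            rw [Finset.mem_coe, mem_filter] at ht ht'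
            have e1 := ht.2
            have e2 := ht'.2
            dsimp only at e1 e2 h
            rw [← e2, Prod.mk.injEq] at e1
            exact Prod.ext e1.1 (Prod.ext h e1.2)
        exact Nat.cast_le.2 this
      · rw [Finset.not_nonempty_iff_eq_empty] at hne
        dsimp only at hne
        rw [hne]; simpa using hb0
  have hfib : ∀ (A : Finset (V × V × V)) (c : ℝ), A ⊆ R → (∀ m, ((univ.filter (fun y => ∃ z, (y, z, m) ∈ A)).card : ℝ) ≤ c) →
      0 ≤ c → (A.card : ℝ) ≤ c * (g.D2 r : ℝ) := by
    intro A c hA hc hc0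
    refine (h92_card_le_fib _ (univ.filter (fun p : V × V => p.2 ≠ p.1 ∧ g.d p.1 p.2 < 2 * r))
      (fun t => (t.2.1, t.2.2)) ?_ c ?_).trans (mul_le_mul_of_nonneg_left hD hc0)
    · intro t ht
      have ht := hA ht
      rw [hR, mem_filter] at ht
      refine mem_filter.2 ⟨mem_univ _, ?_, ?_⟩
      · dsimp only
        intro h
        have := ht.2.2.1
        rw [h, g.dself] at this
        omega
      · dsimp only; have := ht.2.2.1; omega
    · intro p _
      refine le_trans ?_ (hc p.2)
      have : (A.filter (fun a => (fun t : V × V × V => (t.2.1, t.2.2)) a = p)).card ≤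
          (univ.filter (fun y => ∃ z, (y, z, p.2) ∈ A)).card := by
        refine Finset.card_le_card_of_injOn (fun t => t.1) ?_ ?_
        · intro t ht
          rw [Finset.mem_coe, mem_filter] at ht
          refine mem_filter.2 ⟨mem_univ _, t.2.1, ?_⟩
          have hp2 : t.2.2 = p.2 := by rw [← ht.2]
          rw [← hp2]; exact ht.1
        · intro t ht t' ht' h
          rw [Finset.mem_coe, mem_filter] at ht ht'
          have e1 := ht.2
          have e2 := ht'.2
          dsimp only at e1 e2 h
          rw [← e2, Prod.mk.injEq] at e1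
          exact Prod.ext h (Prod.ext e1.1 e1.2)
      exact Nat.cast_le.2 this
  have h2 : ((R.filter (fun t => 0 < s.near e L o t.1 t.2.2)).card : ℝ) ≤ L * (g.D2 r : ℝ) := by
    refine hfib _ L (filter_subset _ _) ?_ hL
    intro m
    refine le_trans ?_ (s.card_mates_le hr e L hL o m)
    have : (univ.filter (fun y => ∃ z, (y, z, m) ∈ R.filter (fun t => 0 < s.near e L o t.1 t.2.2))).card ≤
        (univ.filter (fun q => 0 < s.near e L o m q)).card := by
      refine Finset.card_le_card ?_
      intro y hy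
      obtain ⟨z, hz⟩ := (mem_filter.1 hy).2
      have := (mem_filter.1 hz).2
      dsimp only at this
      rw [s.near_symm] at this
      exact mem_filter.2 ⟨mem_univ _, this⟩
    exact_mod_cast this
  have h3 : ((R.filter (fun t => t.1 ∈ s.E e t.2.2)).card : ℝ) ≤ hX * (g.D2 r : ℝ) := by
    refine hfib _ hX (filter_subset _ _) ?_ hX0
    intro m
    refine le_trans ?_ (hE m)
    have : (univ.filter (fun y => ∃ z, (y, z, m) ∈ R.filter (fun t => t.1 ∈ s.E e t.2.2))).card ≤
        (s.E e m).card := by
      refine Finset.card_le_card ?_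
      intro y hy
      obtain ⟨z, hz⟩ := (mem_filter.1 hy).2
      exact (mem_filter.1 hz).2
    exact_mod_cast this
  have h4 : ((R.filter (fun t => t.2.2 ∈ s.E e t.1)).card : ℝ) ≤ nn V * (g.D2 r : ℝ) / e := by
    rw [le_div_iff₀ (by linarith)]
    set A := R.filter (fun t => t.2.2 ∈ s.E e t.1) with hA
    have e1 : (A.card : ℝ) * e ≤ ∑ t ∈ A, ((s.Z t.1 t.2.2).card : ℝ) := by
      rw [← nsmul_eq_mul, ← Finset.sum_const]
      refine Finset.sum_le_sum fun t ht => ?_
      have := (mem_filter.1 ht).2
      exact (mem_filter.1 this).2.2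
    have e2 : (∑ t ∈ A, ((s.Z t.1 t.2.2).card : ℝ)) = ((A.sigma (fun t => s.Z t.1 t.2.2)).card : ℝ) := by
      rw [Finset.card_sigma]; push_cast; rfl
    have e3 : (A.sigma (fun t => s.Z t.1 t.2.2)).card ≤
        ((univ : Finset V) ×ˢ (univ.filter (fun p : V × V => p.2 ≠ p.1 ∧ g.d p.1 p.2 < 2 * r))).card := by
      refine Finset.card_le_card_of_injOn (fun q => (q.1.1, (q.2, q.1.2.1))) ?_ ?_
      · intro q hq
        rw [Finset.mem_coe, Finset.mem_sigma, hA, mem_filter, hR, mem_filter] at hq
        obtain ⟨⟨⟨_, q1, q2, _⟩, _⟩, q3⟩ := hq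
        have hg := s.Z_geo q3
        have hd1 : g.d q.2 q.1.2.2 = r - j := by rw [hg.2.2.2.1, q1]; omega
        refine Finset.mem_coe.2 (mem_product.2 ⟨mem_univ _, mem_filter.2 ⟨mem_univ _, ?_, ?_⟩⟩)
        · dsimp only
          intro h
          rw [h, hd1] at q2
          omega
        · dsimp only
          have := g.tri q.2 q.1.2.2 q.1.2.1
          rw [hd1, g.symm q.1.2.2, q2] at this
          omega
      · intro q hq q' hq' h
        rw [Finset.mem_coe, Finset.mem_sigma, hA, mem_filter, hR, mem_filter] at hq hq'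
        obtain ⟨⟨⟨_, q1, q2, _⟩, _⟩, q3⟩ := hq
        obtain ⟨⟨⟨_, q1', q2', _⟩, _⟩, q3'⟩ := hq'
        obtain ⟨⟨y, z, m⟩, a⟩ := q
        obtain ⟨⟨y', z', m'⟩, a'⟩ := q'
        dsimp only at *
        rw [Prod.mk.injEq, Prod.mk.injEq] at h
        obtain ⟨rfl, rfl, rfl⟩ := h
        have := s.Z_disjoint q3 q3' (by rw [q1, q1'])
        subst this
        rfl
    have e4 : (((univ : Finset V) ×ˢ (univ.filter (fun p : V × V => p.2 ≠ p.1 ∧ g.d p.1 p.2 < 2 * r))).card : ℝ)
        ≤ nn V * (g.D2 r : ℝ) := by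
      rw [Finset.card_product]
      push_cast
      exact mul_le_mul_of_nonneg_left hD (by positivity)
    have e3' : ((A.sigma (fun t => s.Z t.1 t.2.2)).card : ℝ) ≤
        (((univ : Finset V) ×ˢ (univ.filter (fun p : V × V => p.2 ≠ p.1 ∧ g.d p.1 p.2 < 2 * r))).card : ℝ) := by
      exact_mod_cast e3
    linarith [e1, e2, e3', e4]
  have hcov : R ⊆ (((R.filter (fun t => 0 < s.unc e (s.near e L o) t.1 t.2.2)) ∪
      (R.filter (fun t => 0 < s.near e L o t.1 t.2.2))) ∪ (R.filter (fun t => t.1 ∈ s.E e t.2.2))) ∪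
      (R.filter (fun t => t.2.2 ∈ s.E e t.1)) := by
    intro t ht
    have ht0 := ht
    rw [hR, mem_filter] at ht
    rw [mem_union, mem_union, mem_union]
    by_cases c1 : t.2.2 ∈ s.E e t.1
    · right; exact mem_filter.2 ⟨ht0, c1⟩
    by_cases c2 : t.1 ∈ s.E e t.2.2
    · left; right; exact mem_filter.2 ⟨ht0, c2⟩
    by_cases c3 : 0 < s.near e L o t.1 t.2.2
    · left; left; right; exact mem_filter.2 ⟨ht0, c3⟩
    left; left; left
    refine mem_filter.2 ⟨ht0, ?_⟩
    unfold Src.unc
    rw [if_neg (by push Not; exact ⟨c1, c2⟩)]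
    have := ht.2.1
    omega
  have hcard : R.card ≤ (R.filter (fun t => 0 < s.unc e (s.near e L o) t.1 t.2.2)).card +
      (R.filter (fun t => 0 < s.near e L o t.1 t.2.2)).card + (R.filter (fun t => t.1 ∈ s.E e t.2.2)).card +
      (R.filter (fun t => t.2.2 ∈ s.E e t.1)).card := by
    refine (Finset.card_le_card hcov).trans ((Finset.card_union_le _ _).trans ?_)
    refine Nat.add_le_add_right ((Finset.card_union_le _ _).trans ?_) _
    exact Nat.add_le_add_right (Finset.card_union_le _ _) _
  have hcard' : (R.card : ℝ) ≤ ((R.filter (fun t => 0 < s.unc e (s.near e L o) t.1 t.2.2)).card : ℝ) +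
      ((R.filter (fun t => 0 < s.near e L o t.1 t.2.2)).card : ℝ) + ((R.filter (fun t => t.1 ∈ s.E e t.2.2)).card : ℝ) +
      ((R.filter (fun t => t.2.2 ∈ s.E e t.1)).card : ℝ) := by
    exact_mod_cast hcard
  linarith [h1, h2, h3, h4, hcard']

/-- `|Q| ≤ r (b Unc_o + L 2D + hX 2D + n 2D / e)`; `b` bounds the balls of radius `2r-1` around the sources. -/
theorem one_typeI (hr : 2 ≤ r) (diam : ∀ x y, g.d x y ≤ 2 * r) (O : Finset V) (e L b hX : ℝ) (he : 1 ≤ e) (hL : 0 ≤ L)
    (hb0 : 0 ≤ b) (hb : ∀ w ∈ O, ((g.ball (2 * r - 1) w).card : ℝ) ≤ b)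
    (hE : ∀ x, (((srcGam g r (by omega) univ O).E e x).card : ℝ) ≤ hX) (o : V) :
    ((srcGam g r (by omega) univ O).Q.card : ℝ) ≤
      r * (b * ((srcGam g r (by omega) univ O).Unc e ((srcGam g r (by omega) univ O).near e L o) : ℝ)
        + L * (g.D2 r : ℝ) + hX * (g.D2 r : ℝ) + nn V * (g.D2 r : ℝ) / e) := by
  set s := srcGam g r (by omega) univ O with hs
  have hX0 : 0 ≤ hX := le_trans (Nat.cast_nonneg _) (hE o)
  set c := (b * (s.Unc e (s.near e L o) : ℝ) + L * (g.D2 r : ℝ) + hX * (g.D2 r : ℝ) + nn V * (g.D2 r : ℝ) / e) with hc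
  have hc0 : 0 ≤ c := by
    have : 0 ≤ nn V := by unfold nn; positivity
    positivity
  have key : (s.Q.card : ℝ) ≤ c * ((range r).card : ℝ) := by
    refine h92_card_le_fib s.Q (range r) (fun q => 2 * r - g.d q.1 q.2.1) ?_ c ?_
    · intro q hq
      have hq := (mem_filter.1 hq).2
      have := s.Z_geo hq.1
      exact mem_range.2 (by omega)
    · intro j hj
      have hj := mem_range.1 hj
      by_cases hj1 : 1 ≤ j
      · refine le_trans ?_ (one_main s hr e L b hX he hL hb0 hX0 hE o j hj1 hj)
        have : (s.Q.filter (fun q => 2 * r - g.d q.1 q.2.1 = j)).card ≤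
            (univ.filter (fun t : V × V × V => g.d t.1 t.2.2 = r + j ∧ g.d t.2.1 t.2.2 = r ∧
            ((g.ball r t.2.2).card : ℝ) ≤ b)).card := by
          refine Finset.card_le_card_of_injOn (fun q => (q.2.2.1, q.2.2.2, g.P q.1 q.2.1 r)) ?_ ?_
          · intro q hq
            rw [Finset.mem_coe, mem_filter] at hq
            obtain ⟨hq, hjq⟩ := hq
            have hq := (mem_filter.1 hq).2
            obtain ⟨a1, a2, a3, a4, a5, a6, a7, a8, a9, a10, a11, a12, a13, a14, a15⟩ := s.quad hq.1 hq.2
            refine Finset.mem_coe.2 (mem_filter.2 ⟨mem_univ _, ?_, ?_, ?_⟩)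
            · dsimp only; rw [a6]; omega
            · dsimp only; exact a8
            · dsimp only
              have hw : q.2.1 ∈ O := by
                by_contra hw
                have := (s.mem_Z.1 hq.2).1
                rw [hs] at this
                change _ ∈ (if q.2.1 ∈ O then _ else _) at this
                rw [if_neg hw] at this
                exact absurd this (notMem_empty _)
              refine le_trans ?_ (hb _ hw)
              have : (g.ball r (g.P q.1 q.2.1 r)).card ≤ (g.ball (2 * r - 1) q.2.1).card := by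
                refine Finset.card_le_card ?_
                intro y hy
                have hy := (mem_filter.1 hy).2
                refine mem_filter.2 ⟨mem_univ _, ?_⟩
                have := g.tri q.2.1 (g.P q.1 q.2.1 r) y
                rw [a4] at this
                omega
              exact_mod_cast this
          · intro q hq q' hq' h
            rw [Finset.mem_coe, mem_filter] at hq hq'
            obtain ⟨hq, hjq⟩ := hq
            obtain ⟨hq', hjq'⟩ := hq'
            have hq := (mem_filter.1 hq).2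
            have hq' := (mem_filter.1 hq').2
            obtain ⟨a1, a2, a3, a4, a5, a6, a7, a8, a9, a10, a11, a12, a13, a14, a15⟩ := s.quad hq.1 hq.2
            obtain ⟨b1, b2, b3, b4, b5, b6, b7, b8, b9, b10, b11, b12, b13, b14, b15⟩ := s.quad hq'.1 hq'.2
            dsimp only at h
            rw [Prod.mk.injEq, Prod.mk.injEq] at h
            obtain ⟨h1, h2, h3⟩ := h
            rw [hjq] at a10 a11
            rw [hjq'] at b10 b11
            have hu : q.1 = q'.1 := by rw [← a11, ← b11, h1, h3]
            have hw : q.2.1 = q'.2.1 := by rw [← a10, ← b10, h2, h3]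
            exact Prod.ext hu (Prod.ext hw (Prod.ext h1 h2))
        exact Nat.cast_le.2 this
      · have hj0 : j = 0 := by omega
        have : s.Q.filter (fun q => 2 * r - g.d q.1 q.2.1 = j) = ∅ := by
          rw [Finset.filter_eq_empty_iff]
          intro q hq h
          have hq := (mem_filter.1 hq).2
          have := s.Z_geo hq.1
          omega
        rw [this]; simpa using hc0
  rw [Finset.card_range] at key
  linarith [key, mul_comm c (r : ℝ)]

end Pool.Agent.Wi
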