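import Pool.Agent.Wi.SRC
import Pool.Agent.Wi.Glob

/-! MODULE ONEb2: large classes and the charge inequality of section 4 (blueprint (4.1), (4.3)). -/

namespace Pool.Agent.Wi

open Finset
open scoped Classical

variable {V : Type} [Fintype V] {g : Geo V} {r : ℕ}

/-- large classes of the reference. -/
theorem one_large (s : Src g r) (hr : 2 ≤ r) (diam : ∀ x y, g.d x y ≤ 2 * r) (e L hX : ℝ)
    (hE : ∀ x, ((s.E e x).card : ℝ) ≤ hX) (o : V) :
    2 * (L - 1 - 2 * hX) * ((s.La e L o).card : ℝ) ≤ (s.Unc e (s.near e L o) : ℝ) := by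
  set A := s.La e L o with hA
  have hAF : ∀ p ∈ A, p ∈ s.F o := fun p hp => (mem_filter.1 (mem_filter.1 hp).1).1
  -- pairs in the same large class
  set S : V → Finset V := fun p => (A.filter (fun q => s.cls o q = s.cls o p)).filter (fun q => q ≠ p) with hS
  have hScard : ∀ p ∈ A, L - 1 ≤ ((S p).card : ℝ) := by
    intro p hp
    have h1 : (S p) = (A.filter (fun q => s.cls o q = s.cls o p)).erase p := by
      ext q
      simp only [hS, mem_filter, mem_erase, ne_eq]
      tauto
    have h2 : A.filter (fun q => s.cls o q = s.cls o p) = s.Cl e o (s.cls o p) := by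
      ext q
      constructor
      · intro hq
        obtain ⟨h3, h4⟩ := mem_filter.1 hq
        exact mem_filter.2 ⟨(mem_filter.1 h3).1, h4⟩
      · intro hq
        obtain ⟨h3, h4⟩ := mem_filter.1 hq
        refine mem_filter.2 ⟨mem_filter.2 ⟨h3, ?_⟩, h4⟩
        rw [h4]
        exact (mem_filter.1 hp).2
    have h3 : L < ((s.Cl e o (s.cls o p)).card : ℝ) := (mem_filter.1 hp).2
    have h4 : p ∈ A.filter (fun q => s.cls o q = s.cls o p) := mem_filter.2 ⟨hp, rfl⟩
    rw [h1, card_erase_of_mem h4, h2]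
    rw [h2] at h4
    have h5 : 1 ≤ (s.Cl e o (s.cls o p)).card := card_pos.2 ⟨p, h4⟩
    rw [Nat.cast_sub h5]
    push_cast
    linarith
  have hunc : ∀ p ∈ A, ∀ q ∈ S p, (2 : ℝ) - 2 * (if q ∈ s.E e p then 1 else 0) - 2 * (if p ∈ s.E e q then 1 else 0)
      ≤ (s.unc e (s.near e L o) p q : ℝ) := by
    intro p hp q hq
    obtain ⟨hq1, hqp⟩ := mem_filter.1 hq
    obtain ⟨hqA, hcl⟩ := mem_filter.1 hq1
    unfold Src.unc
    by_cases h1 : q ∈ s.E e p
    · rw [if_pos h1, if_pos (Or.inl h1)]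
      split_ifs <;> norm_num
    · by_cases h2 : p ∈ s.E e q
      · rw [if_neg h1, if_pos h2, if_pos (Or.inr h2)]
        norm_num
      · rw [if_neg h1, if_neg h2, if_neg (by tauto)]
        have hd := s.cls_dist (by omega) (hAF q hqA) (hAF p hp) hcl
        rw [g.symm] at hd
        have hnear : s.near e L o p q = 0 := by
          unfold Src.near
          rw [if_neg]
          rintro ⟨_, h3, _⟩
          have h4 := (mem_filter.1 h3).2
          have h5 := (mem_filter.1 hp).2
          linarith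
        rw [hnear]
        have : 2 ≤ 2 * r - g.d p q - 0 := by omega
        have h6 : (2 : ℝ) ≤ ((2 * r - g.d p q - 0 : ℕ) : ℝ) := by exact_mod_cast this
        linarith
  have hsum : (∑ p ∈ A, ∑ q ∈ S p, (s.unc e (s.near e L o) p q : ℝ)) ≤ (s.Unc e (s.near e L o) : ℝ) := by
    unfold Src.Unc
    push_cast
    refine (Finset.sum_le_sum_of_subset_of_nonneg (subset_univ A) ?_).trans' ?_
    · intro p _ _
      positivity
    · refine Finset.sum_le_sum fun p _ => ?_
      refine Finset.sum_le_sum_of_subset_of_nonneg ?_ fun q _ _ => by positivity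
      intro q hq
      exact mem_filter.2 ⟨mem_univ _, (mem_filter.1 hq).2⟩
  have h1 : ∑ p ∈ A, ∑ q ∈ S p, (if q ∈ s.E e p then (1 : ℝ) else 0) ≤ hX * (A.card : ℝ) := by
    have : ∀ p ∈ A, ∑ q ∈ S p, (if q ∈ s.E e p then (1 : ℝ) else 0) ≤ hX := by
      intro p _
      rw [Finset.sum_boole]
      refine le_trans ?_ (hE p)
      exact_mod_cast card_le_card fun q hq => (mem_filter.1 hq).2
    refine (Finset.sum_le_sum this).trans ?_
    rw [Finset.sum_const, nsmul_eq_mul, mul_comm]
  have h2 : ∑ p ∈ A, ∑ q ∈ S p, (if p ∈ s.E e q then (1 : ℝ) else 0) ≤ hX * (A.card : ℝ) := by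
    calc ∑ p ∈ A, ∑ q ∈ S p, (if p ∈ s.E e q then (1 : ℝ) else 0)
        ≤ ∑ p ∈ A, ∑ q ∈ A, (if p ∈ s.E e q then (1 : ℝ) else 0) := by
          refine Finset.sum_le_sum fun p _ => ?_
          refine Finset.sum_le_sum_of_subset_of_nonneg ?_ fun q _ _ => by split_ifs <;> norm_num
          intro q hq
          exact (mem_filter.1 (mem_filter.1 hq).1).1
      _ = ∑ q ∈ A, ∑ p ∈ A, (if p ∈ s.E e q then (1 : ℝ) else 0) := Finset.sum_comm
      _ ≤ ∑ q ∈ A, hX := by
          refine Finset.sum_le_sum fun q _ => ?_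
          rw [Finset.sum_boole]
          refine le_trans ?_ (hE q)
          exact_mod_cast card_le_card fun p hp => (mem_filter.1 hp).2
      _ = hX * (A.card : ℝ) := by rw [Finset.sum_const, nsmul_eq_mul, mul_comm]
  have h3 : 2 * (L - 1) * (A.card : ℝ) ≤ ∑ p ∈ A, ∑ q ∈ S p, (2 : ℝ) := by
    calc 2 * (L - 1) * (A.card : ℝ) = ∑ p ∈ A, 2 * (L - 1) := by
          rw [Finset.sum_const, nsmul_eq_mul, mul_comm]
      _ ≤ ∑ p ∈ A, ∑ q ∈ S p, (2 : ℝ) := by
          refine Finset.sum_le_sum fun p hp => ?_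
          rw [Finset.sum_const, nsmul_eq_mul]
          linarith [hScard p hp]
  have h4 : ∑ p ∈ A, ∑ q ∈ S p, ((2 : ℝ) - 2 * (if q ∈ s.E e p then 1 else 0) - 2 * (if p ∈ s.E e q then 1 else 0))
      ≤ ∑ p ∈ A, ∑ q ∈ S p, (s.unc e (s.near e L o) p q : ℝ) :=
    Finset.sum_le_sum fun p hp => Finset.sum_le_sum fun q hq => hunc p hp q hq
  have h5 : ∑ p ∈ A, ∑ q ∈ S p, ((2 : ℝ) - 2 * (if q ∈ s.E e p then 1 else 0) - 2 * (if p ∈ s.E e q then 1 else 0))
      = ∑ p ∈ A, ∑ q ∈ S p, (2 : ℝ) - 2 * ∑ p ∈ A, ∑ q ∈ S p, (if q ∈ s.E e p then (1 : ℝ) else 0)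
        - 2 * ∑ p ∈ A, ∑ q ∈ S p, (if p ∈ s.E e q then (1 : ℝ) else 0) := by
    simp only [Finset.sum_sub_distrib, Finset.mul_sum]
  rw [h5] at h4
  linarith

theorem one_good (s : Src g r) {e L : ℝ} {idx : V → ℕ} {bad : V → V → Prop} {x z : V}
    (h : z ∈ s.Good e L idx bad x) : z ∈ s.Sm e L x ∧ ∀ w, z ∈ s.Z x w → ¬ bad x w ∧ ¬ (x ∈ s.E e w ∧ idx x < idx w) := by
  unfold Src.Good at h
  rw [mem_filter] at h
  exact h

/-- the charge inequality (4.1) for source systems without base forest. -/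
theorem one_charge (s : Src g r) (hr : 2 ≤ r) (diam : ∀ x y, g.d x y ≤ 2 * r) (e L : ℝ) (idx : V → ℕ)
    (hidx : Function.Injective idx) (o : V) :
    2 * (∑ x : V, s.hsum x (s.Good e L idx (fun x w => 0 < s.near e L o x w) x)) + s.NN e L o + s.Unc e (s.near e L o)
      ≤ g.D2 r := by
  set G : V → Finset V := fun x => s.Good e L idx (fun x w => 0 < s.near e L o x w) x with hG
  -- facts on a hub of the good targets
  have hhub : ∀ x w : V, w ∈ s.hubs x (G x) → w ≠ x ∧ w ∈ s.E e x ∧ s.near e L o x w = 0 ∧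
      ¬ (x ∈ s.E e w ∧ idx x < idx w) := by
    intro x w hw
    obtain ⟨z, hz, hzw⟩ := (mem_filter.1 hw).2
    obtain ⟨hz1, hz2⟩ := one_good s hz
    obtain ⟨h1, h2⟩ := hz2 w hzw
    have h3 := s.Fe_hub (mem_filter.1 hz1).1 hzw
    refine ⟨?_, h3, Nat.eq_zero_of_not_pos h1, h2⟩
    rintro rfl
    have := s.mem_E_dist h3
    rw [g.dself] at this
    omega
  have hsum : ∀ x : V, s.hsum x (G x) = ∑ w ∈ univ.filter (fun w => w ≠ x), (if w ∈ s.hubs x (G x) then 2 * r - g.d x w else 0) := by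
    intro x
    unfold Src.hsum
    rw [Finset.sum_filter, ← Finset.sum_filter_add_sum_filter_not univ (fun w => w ∈ s.hubs x (G x))]
    have e1 : (univ.filter (fun w => w ∈ s.hubs x (G x))) = s.hubs x (G x) := by
      ext w; simp
    rw [e1]
    have e2 : ∑ w ∈ s.hubs x (G x), (if w ≠ x then (if w ∈ s.hubs x (G x) then 2 * r - g.d x w else 0) else 0)
        = ∑ w ∈ s.hubs x (G x), (2 * r - g.d x w) := by
      refine Finset.sum_congr rfl fun w hw => ?_
      rw [if_pos (hhub x w hw).1, if_pos hw]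
    have e3 : ∑ w ∈ univ.filter (fun w => ¬ w ∈ s.hubs x (G x)),
        (if w ≠ x then (if w ∈ s.hubs x (G x) then 2 * r - g.d x w else 0) else 0) = 0 := by
      refine Finset.sum_eq_zero fun w hw => ?_
      rw [if_neg (mem_filter.1 hw).2]
      simp
    rw [e2, e3, add_zero]
  have hsum2 : (∑ x : V, s.hsum x (G x))
      = ∑ x : V, ∑ w ∈ univ.filter (fun w => w ≠ x), (if x ∈ s.hubs w (G w) then 2 * r - g.d x w else 0) := by
    rw [Finset.sum_congr rfl fun x _ => hsum x]
    simp only [Finset.sum_filter]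
    rw [Finset.sum_comm]
    refine Finset.sum_congr rfl fun x _ => Finset.sum_congr rfl fun w _ => ?_
    rw [g.symm w x]
    by_cases h : x = w
    · subst h; simp
    · rw [if_pos h, if_pos (fun h' => h h'.symm)]
  have hpt : ∀ x : V, ∀ w ∈ univ.filter (fun w => w ≠ x),
      (if w ∈ s.hubs x (G x) then 2 * r - g.d x w else 0) + (if x ∈ s.hubs w (G w) then 2 * r - g.d x w else 0)
        + s.near e L o x w + s.unc e (s.near e L o) x w ≤ 2 * r - g.d x w := by
    intro x w hw
    have hwx : w ≠ x := (mem_filter.1 hw).2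
    by_cases h1 : w ∈ s.hubs x (G x)
    · obtain ⟨-, a2, a3, a4⟩ := hhub x w h1
      have h2 : x ∉ s.hubs w (G w) := by
        intro h2
        obtain ⟨-, b2, b3, b4⟩ := hhub w x h2
        have h3 : ¬ idx x < idx w := fun h => a4 ⟨b2, h⟩
        have h4 : ¬ idx w < idx x := fun h => b4 ⟨a2, h⟩
        exact hwx (hidx (le_antisymm (not_lt.1 h3) (not_lt.1 h4)))
      rw [if_pos h1, if_neg h2, a3]
      unfold Src.unc
      rw [if_pos (Or.inl a2)]
      omega
    · by_cases h2 : x ∈ s.hubs w (G w)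
      · obtain ⟨-, b2, b3, b4⟩ := hhub w x h2
        rw [if_neg h1, if_pos h2, s.near_symm e L o x w, b3]
        unfold Src.unc
        rw [if_pos (Or.inr b2)]
        omega
      · rw [if_neg h1, if_neg h2]
        have h3 := s.near_le e L diam o x w
        unfold Src.unc
        split_ifs
        · omega
        · omega
  calc 2 * (∑ x : V, s.hsum x (G x)) + s.NN e L o + s.Unc e (s.near e L o)
      = ∑ x : V, ∑ w ∈ univ.filter (fun w => w ≠ x),
        ((if w ∈ s.hubs x (G x) then 2 * r - g.d x w else 0) + (if x ∈ s.hubs w (G w) then 2 * r - g.d x w else 0)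
        + s.near e L o x w + s.unc e (s.near e L o) x w) := by
        simp only [Finset.sum_add_distrib]
        unfold Src.NN Src.Unc
        rw [← hsum2, two_mul]
        congr 3
        exact Finset.sum_congr rfl fun x _ => hsum x
    _ ≤ g.D2 r := by
        unfold Geo.D2
        exact Finset.sum_le_sum fun x _ => Finset.sum_le_sum fun w hw => hpt x w hw

end Pool.Agent.Wi
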