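import Pool.Agent.Wi.SRC
import Pool.Agent.Wi.Glob

/-! MODULE ONEb1: Type II and inefficient parts of section 4 (blueprint (4.3)). -/

namespace Pool.Agent.Wi

open Finset
open scoped Classical

variable {V : Type} [Fintype V] {g : Geo V} {r : ℕ}

/-- the number of ordered pairs at distance less than `2 r` is at most the ordered deficit. -/
theorem ONEb1_pairs (g : Geo V) (r : ℕ) :
    (∑ a : V, ∑ v : V, (if a ≠ v ∧ g.d a v < 2 * r then (1 : ℝ) else 0)) ≤ (g.D2 r : ℝ) := by
  unfold Geo.D2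
  push_cast
  refine Finset.sum_le_sum fun a _ => ?_
  rw [Finset.sum_filter]
  refine Finset.sum_le_sum fun v _ => ?_
  by_cases h1 : v = a
  · subst h1
    simp
  · rw [if_pos h1]
    by_cases h2 : g.d a v < 2 * r
    · rw [if_pos ⟨fun h => h1 h.symm, h2⟩]
      have : 1 ≤ 2 * r - g.d a v := by omega
      exact_mod_cast this
    · rw [if_neg (fun h => h2 h.2)]
      positivity

theorem ONEb1_Sm_Fe (s : Src g r) {e L : ℝ} {o x : V} (h : x ∈ s.Sm e L o) : x ∈ s.Fe e o :=
  (mem_filter.1 h).1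

theorem ONEb1_Fe_F (s : Src g r) {e : ℝ} {o x : V} (h : x ∈ s.Fe e o) : x ∈ s.F o :=
  (mem_filter.1 h).1

/-- the members of `Sm` in a class are at most `L`. -/
theorem ONEb1_class (s : Src g r) (e L : ℝ) (hL : 0 ≤ L) (o c : V) :
    (((s.Sm e L o).filter (fun x => s.cls o x = c)).card : ℝ) ≤ L := by
  rcases ((s.Sm e L o).filter (fun x => s.cls o x = c)).eq_empty_or_nonempty with h | ⟨x, hx⟩
  · rw [h]; simpa using hL
  · obtain ⟨hx1, hx2⟩ := mem_filter.1 hx
    have h1 := (mem_filter.1 hx1).2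
    rw [hx2] at h1
    refine le_trans ?_ h1
    have : ((s.Sm e L o).filter (fun x => s.cls o x = c)) ⊆ s.Cl e o c := by
      intro y hy
      obtain ⟨hy1, hy2⟩ := mem_filter.1 hy
      exact mem_filter.2 ⟨(mem_filter.1 hy1).1, hy2⟩
    exact_mod_cast card_le_card this

/-- Type II: pairs (source, target) with a hub that is a mate of the source. -/
theorem one_typeII (s : Src g r) (hr : 2 ≤ r) (diam : ∀ x y, g.d x y ≤ 2 * r) (e L : ℝ) (he : 1 ≤ e) (hL : 0 ≤ L)
    (o : V) (hk : ∀ z ∈ s.F o, s.kk o z = r) :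
    (∑ x : V, (((s.F x).filter (fun z => ∃ w, z ∈ s.Z x w ∧ 0 < s.near e L o x w)).card : ℝ)) * e ≤ L * (g.D2 r : ℝ) := by
  -- the key: for every `x, v` there are at least `e` siblings
  have key : ∀ x v : V, v ∈ (s.F x).filter (fun z => ∃ w, z ∈ s.Z x w ∧ 0 < s.near e L o x w) →
      e ≤ ∑ a : V, (if (a ≠ v ∧ g.d a v < 2 * r) ∧ (x ∈ s.Sm e L o ∧ s.cls o x = s.cls o a) then (1 : ℝ) else 0) := by
    intro x v hv
    obtain ⟨hvF, w, hvw, hnear⟩ := mem_filter.1 hv
    obtain ⟨hxw, hxS, hwS, hcl⟩ := (s.near_pos_iff hr e L o x w).1 hnear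
    have hwFe := ONEb1_Sm_Fe s hwS
    have hwF := ONEb1_Fe_F s hwFe
    have hxF := ONEb1_Fe_F s (ONEb1_Sm_Fe s hxS)
    have hkk : s.kk o w ≠ 1 := by rw [hk w hwF]; omega
    obtain ⟨A, hA1, hA2, hA3⟩ := s.siblings hr hwFe hkk
    obtain ⟨z1, z2, z3, z4, z5⟩ := s.Z_geo hvw
    have hsub : A ⊆ univ.filter (fun a => (a ≠ v ∧ g.d a v < 2 * r) ∧ (x ∈ s.Sm e L o ∧ s.cls o x = s.cls o a)) := by
      intro a ha
      obtain ⟨h1, h2⟩ := hA3 a ha
      have haF := ONEb1_Fe_F s (hA1 ha)
      have hcls : s.cls o x = s.cls o a := by rw [h2, hcl]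
      have hd := s.cls_dist (by omega) hxF haF hcls
      refine mem_filter.2 ⟨mem_univ _, ⟨?_, ?_⟩, hxS, hcls⟩
      · rintro rfl
        omega
      · have ht := g.tri a w v
        rw [g.symm w v, z4] at ht
        omega
    rw [Finset.sum_boole]
    refine le_trans hA2 ?_
    exact_mod_cast card_le_card hsub
  calc (∑ x : V, (((s.F x).filter (fun z => ∃ w, z ∈ s.Z x w ∧ 0 < s.near e L o x w)).card : ℝ)) * e
      = ∑ x : V, ∑ v ∈ (s.F x).filter (fun z => ∃ w, z ∈ s.Z x w ∧ 0 < s.near e L o x w), e := by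
        rw [Finset.sum_mul]
        refine Finset.sum_congr rfl fun x _ => ?_
        rw [Finset.sum_const, nsmul_eq_mul]
    _ ≤ ∑ x : V, ∑ v ∈ (s.F x).filter (fun z => ∃ w, z ∈ s.Z x w ∧ 0 < s.near e L o x w),
          ∑ a : V, (if (a ≠ v ∧ g.d a v < 2 * r) ∧ (x ∈ s.Sm e L o ∧ s.cls o x = s.cls o a) then (1 : ℝ) else 0) :=
        Finset.sum_le_sum fun x _ => Finset.sum_le_sum fun v hv => key x v hv
    _ ≤ ∑ x : V, ∑ v : V,
          ∑ a : V, (if (a ≠ v ∧ g.d a v < 2 * r) ∧ (x ∈ s.Sm e L o ∧ s.cls o x = s.cls o a) then (1 : ℝ) else 0) := by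
        refine Finset.sum_le_sum fun x _ => ?_
        refine Finset.sum_le_sum_of_subset_of_nonneg (subset_univ _) fun v _ _ => ?_
        refine Finset.sum_nonneg fun a _ => ?_
        split_ifs <;> norm_num
    _ = ∑ a : V, ∑ v : V,
          ∑ x : V, (if (a ≠ v ∧ g.d a v < 2 * r) ∧ (x ∈ s.Sm e L o ∧ s.cls o x = s.cls o a) then (1 : ℝ) else 0) := by
        have h1 : ∀ x : V, ∑ v : V, ∑ a : V,
            (if (a ≠ v ∧ g.d a v < 2 * r) ∧ (x ∈ s.Sm e L o ∧ s.cls o x = s.cls o a) then (1 : ℝ) else 0)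
            = ∑ a : V, ∑ v : V,
            (if (a ≠ v ∧ g.d a v < 2 * r) ∧ (x ∈ s.Sm e L o ∧ s.cls o x = s.cls o a) then (1 : ℝ) else 0) :=
          fun x => Finset.sum_comm
        rw [Finset.sum_congr rfl fun x _ => h1 x, Finset.sum_comm]
        exact Finset.sum_congr rfl fun a _ => Finset.sum_comm
    _ ≤ ∑ a : V, ∑ v : V, L * (if a ≠ v ∧ g.d a v < 2 * r then (1 : ℝ) else 0) := by
        refine Finset.sum_le_sum fun a _ => Finset.sum_le_sum fun v _ => ?_
        by_cases h : a ≠ v ∧ g.d a v < 2 * r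
        · rw [if_pos h, mul_one]
          have h1 : ∀ x : V, (if (a ≠ v ∧ g.d a v < 2 * r) ∧ (x ∈ s.Sm e L o ∧ s.cls o x = s.cls o a) then (1 : ℝ) else 0)
              = if x ∈ s.Sm e L o ∧ s.cls o x = s.cls o a then (1 : ℝ) else 0 := by
            intro x
            simp only [h, true_and, ne_eq, not_false_eq_true]
          rw [Finset.sum_congr rfl fun x _ => h1 x, Finset.sum_boole]
          have h2 : univ.filter (fun x => x ∈ s.Sm e L o ∧ s.cls o x = s.cls o a)
              = (s.Sm e L o).filter (fun x => s.cls o x = s.cls o a) := by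
            ext x; simp
          rw [h2]
          exact ONEb1_class s e L hL o _
        · rw [if_neg h, mul_zero]
          refine le_of_eq (Finset.sum_eq_zero fun x _ => ?_)
          rw [if_neg fun h' => h h'.1]
    _ = L * ∑ a : V, ∑ v : V, (if a ≠ v ∧ g.d a v < 2 * r then (1 : ℝ) else 0) := by
        rw [Finset.mul_sum]
        refine Finset.sum_congr rfl fun a _ => ?_
        rw [Finset.mul_sum]
    _ ≤ L * (g.D2 r : ℝ) := mul_le_mul_of_nonneg_left (ONEb1_pairs g r) hL

/-- the Type I quadruples are counted by products. -/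
theorem ONEb1_Q (s : Src g r) : (s.Q.card : ℝ) = ∑ x : V, ∑ w : V, ((s.Z x w).card : ℝ) * ((s.Z w x).card : ℝ) := by
  have h1 : s.Q.card = ∑ x : V, ∑ w : V, ((s.Z w x) ×ˢ (s.Z x w)).card := by
    have h2 : s.Q = (univ.sigma (fun x : V => univ.sigma (fun w : V => (s.Z w x) ×ˢ (s.Z x w)))).map
        ⟨fun q : (Σ _ : V, Σ _ : V, V × V) => (q.1, q.2.1, q.2.2.1, q.2.2.2), by
          rintro ⟨a, b, c, d⟩ ⟨a', b', c', d'⟩ h
          simp only [Prod.mk.injEq] at h
          obtain ⟨rfl, rfl, rfl, rfl⟩ := h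
          rfl⟩ := by
      ext ⟨a, b, c, d⟩
      simp only [Src.Q, mem_filter, mem_univ, true_and, mem_map, mem_sigma, mem_product]
      constructor
      · rintro ⟨h1, h2⟩
        exact ⟨⟨a, b, c, d⟩, ⟨h2, h1⟩, rfl⟩
      · rintro ⟨⟨a', b', c', d'⟩, ⟨h2, h1⟩, h3⟩
        have h4 : (a', b', c', d') = (a, b, c, d) := h3
        simp only [Prod.mk.injEq] at h4
        obtain ⟨rfl, rfl, rfl, rfl⟩ := h4
        exact ⟨h1, h2⟩
    rw [h2, card_map, card_sigma]
    exact Finset.sum_congr rfl fun x _ => card_sigma _ _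
  rw [h1]
  push_cast [card_product]
  exact Finset.sum_congr rfl fun x _ => Finset.sum_congr rfl fun w _ => mul_comm _ _

/-- inefficient targets. -/
theorem one_ineff (s : Src g r) (hr : 2 ≤ r) (diam : ∀ x y, g.d x y ≤ 2 * r) (e L : ℝ) (he : 1 ≤ e) (o : V)
    (hkk : ∀ x, ∀ z ∈ s.F x, s.kk x z = r) :
    (∑ x : V, (((s.F x) \ (s.Fe e x)).card : ℝ)) ≤ e * (s.Unc e (s.near e L o) : ℝ) + (s.Q.card : ℝ) / e := by
  have he0 : 0 < e := by linarith
  -- pointwise bound
  have hpt : ∀ x w : V, (if w ∉ s.E e x ∧ g.d x w + 1 = 2 * r then ((s.Z x w).card : ℝ) else 0)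
      ≤ e * (if w ≠ x then (s.unc e (s.near e L o) x w : ℝ) else 0)
        + ((s.Z x w).card : ℝ) * ((s.Z w x).card : ℝ) / e := by
    intro x w
    have hnn : 0 ≤ ((s.Z x w).card : ℝ) * ((s.Z w x).card : ℝ) / e := by positivity
    have hnn2 : 0 ≤ e * (if w ≠ x then (s.unc e (s.near e L o) x w : ℝ) else 0) := by
      split_ifs <;> positivity
    by_cases h1 : w ∉ s.E e x ∧ g.d x w + 1 = 2 * r
    · rw [if_pos h1]
      obtain ⟨hwE, hd⟩ := h1
      have hwx : w ≠ x := by
        rintro rfl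
        rw [g.dself] at hd
        omega
      rw [if_pos hwx] at hnn2 ⊢
      by_cases hne : (s.Z x w).Nonempty
      · have hlt : ((s.Z x w).card : ℝ) < e := by
          by_contra hcon
          push Not at hcon
          exact hwE (mem_filter.2 ⟨mem_univ _, hne, hcon⟩)
        by_cases hxE : x ∈ s.E e w
        · have h2 : e ≤ ((s.Z w x).card : ℝ) := (mem_filter.1 hxE).2.2
          have h3 : ((s.Z x w).card : ℝ) ≤ ((s.Z x w).card : ℝ) * ((s.Z w x).card : ℝ) / e := by
            rw [le_div_iff₀ he0]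
            exact mul_le_mul_of_nonneg_left h2 (by positivity)
          linarith
        · have hnear : s.near e L o x w = 0 := by
            by_contra hcon
            have h2 := s.two_le_near hr e L o x w (Nat.pos_of_ne_zero hcon)
            have h3 := s.near_le e L diam o x w
            omega
          have hunc : s.unc e (s.near e L o) x w = 1 := by
            unfold Src.unc
            rw [if_neg (by rintro (h | h); exacts [hwE h, hxE h]), hnear]
            omega
          rw [hunc]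
          push_cast
          linarith
      · rw [Finset.not_nonempty_iff_eq_empty] at hne
        rw [hne] at hnn ⊢
        simp only [card_empty, Nat.cast_zero, zero_mul, zero_div, add_zero]
        exact hnn2
    · rw [if_neg h1]
      exact add_nonneg hnn2 hnn
  -- the inefficient targets are covered
  have hcov : ∀ x : V, (((s.F x) \ (s.Fe e x)).card : ℝ)
      ≤ ∑ w : V, (if w ∉ s.E e x ∧ g.d x w + 1 = 2 * r then ((s.Z x w).card : ℝ) else 0) := by
    intro x
    have hsub : (s.F x) \ (s.Fe e x) ⊆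
        univ.biUnion (fun w => if w ∉ s.E e x ∧ g.d x w + 1 = 2 * r then s.Z x w else ∅) := by
      intro v hv
      obtain ⟨hvF, hvn⟩ := mem_sdiff.1 hv
      have hd := s.hF x v hvF
      have hd' : g.d v x = 2 * r := by rw [g.symm]; exact hd
      have hw : g.P v x 1 ∉ s.E e x := fun h => hvn (mem_filter.2 ⟨hvF, Or.inr h⟩)
      have hdw : g.d x (g.P v x 1) + 1 = 2 * r := by
        have := g.dr v x 1 (by omega)
        rw [g.symm, this, hd']
        omega
      refine mem_biUnion.2 ⟨g.P v x 1, mem_univ _, ?_⟩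
      rw [if_pos ⟨hw, hdw⟩, s.mem_Z]
      have h1 : 2 * r - g.d x (g.P v x 1) = 1 := by omega
      refine ⟨hvF, by omega, by omega, ?_, ?_⟩
      · rw [h1, hkk x v hvF]; omega
      · rw [h1]
    have h1 := card_le_card hsub
    have h2 := h1.trans card_biUnion_le
    calc (((s.F x) \ (s.Fe e x)).card : ℝ)
        ≤ ((∑ w : V, (if w ∉ s.E e x ∧ g.d x w + 1 = 2 * r then s.Z x w else ∅).card : ℕ) : ℝ) := by
          exact_mod_cast h2
      _ = ∑ w : V, (if w ∉ s.E e x ∧ g.d x w + 1 = 2 * r then ((s.Z x w).card : ℝ) else 0) := by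
          push_cast
          refine Finset.sum_congr rfl fun w _ => ?_
          split_ifs <;> simp
  calc (∑ x : V, (((s.F x) \ (s.Fe e x)).card : ℝ))
      ≤ ∑ x : V, ∑ w : V, (e * (if w ≠ x then (s.unc e (s.near e L o) x w : ℝ) else 0)
        + ((s.Z x w).card : ℝ) * ((s.Z w x).card : ℝ) / e) :=
        Finset.sum_le_sum fun x _ => (hcov x).trans (Finset.sum_le_sum fun w _ => hpt x w)
    _ = e * (s.Unc e (s.near e L o) : ℝ) + (s.Q.card : ℝ) / e := by
        rw [ONEb1_Q]
        unfold Src.Unc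
        push_cast
        simp only [Finset.sum_add_distrib, Finset.mul_sum, Finset.sum_div, Finset.sum_filter]

end Pool.Agent.Wi
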