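import Pool.Agent.Wi.GAMb
import Pool.Agent.Wi.ONEa
import Pool.Agent.Wi.ONEb

/-! MODULE ONEc1: inequality (4.2) with (4.3) (bookkeeping from ONEb2 and GAMb). -/

namespace Pool.Agent.Wi

open Finset
open scoped Classical

private theorem mem_Good' {V : Type} [Fintype V] {g : Geo V} {r : ℕ} (s : Src g r) {e L : ℝ} {idx : V → ℕ}
    {bad : V → V → Prop} {x z : V} : z ∈ s.Good e L idx bad x ↔
      z ∈ s.Sm e L x ∧ ∀ w, z ∈ s.Z x w → ¬ bad x w ∧ ¬ (x ∈ s.E e w ∧ idx x < idx w) := by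
  unfold Src.Good
  rw [mem_filter]

private theorem one_miss {V : Type} [Fintype V] {g : Geo V} {r : ℕ} (hr : 1 ≤ r) (diam : ∀ x y, g.d x y ≤ 2 * r)
    (eps0 e L : ℝ) (idx : V → ℕ) (o x : V) (hx : x ∈ lightO g r eps0) :
    Fintype.card V - 1 ≤ (((s1 g r hr eps0).Good e L idx (fun x w => 0 < (s1 g r hr eps0).near e L o x w) x)).card
      + ((univ.filter (fun y => y ≠ x ∧ g.d x y < 2 * r)).card
      + ((s1 g r hr eps0).F x \ (s1 g r hr eps0).Fe e x).card + ((s1 g r hr eps0).La e L x).card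
      + (((s1 g r hr eps0).F x).filter (fun z => ∃ w, z ∈ (s1 g r hr eps0).Z x w ∧ x ∈ (s1 g r hr eps0).E e w)).card
      + (((s1 g r hr eps0).F x).filter (fun z => ∃ w, z ∈ (s1 g r hr eps0).Z x w ∧
              0 < (s1 g r hr eps0).near e L o x w)).card) := by
  set s := s1 g r hr eps0 with hs
  have hF : ∀ v, g.d x v = 2 * r → v ∈ s.F x := by
    intro v hv
    rw [hs]
    change v ∈ (if x ∈ lightO g r eps0 then _ else _)
    rw [if_pos hx]
    exact mem_filter.2 ⟨mem_univ _, hv⟩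
  have hcov : univ.erase x ⊆ (((((s.Good e L idx (fun x w => 0 < s.near e L o x w) x) ∪
      (univ.filter (fun y => y ≠ x ∧ g.d x y < 2 * r))) ∪ (s.F x \ s.Fe e x)) ∪ (s.La e L x)) ∪
      ((s.F x).filter (fun z => ∃ w, z ∈ s.Z x w ∧ x ∈ s.E e w))) ∪
      ((s.F x).filter (fun z => ∃ w, z ∈ s.Z x w ∧ 0 < s.near e L o x w)) := by
    intro v hv
    have hvx : v ≠ x := (mem_erase.1 hv).1
    rw [mem_union, mem_union, mem_union, mem_union, mem_union]
    by_cases c1 : g.d x v < 2 * r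
    · left; left; left; left; right
      exact mem_filter.2 ⟨mem_univ _, hvx, c1⟩
    have hvF : v ∈ s.F x := hF v (le_antisymm (diam x v) (not_lt.1 c1))
    by_cases c2 : v ∈ s.Fe e x
    swap
    · left; left; left; right
      exact mem_sdiff.2 ⟨hvF, c2⟩
    by_cases c3 : L < ((s.Cl e x (s.cls x v)).card : ℝ)
    · left; left; right
      exact mem_filter.2 ⟨c2, c3⟩
    by_cases c4 : ∃ w, v ∈ s.Z x w ∧ x ∈ s.E e w
    · left; right
      exact mem_filter.2 ⟨hvF, c4⟩
    by_cases c5 : ∃ w, v ∈ s.Z x w ∧ 0 < s.near e L o x w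
    · right
      exact mem_filter.2 ⟨hvF, c5⟩
    left; left; left; left; left
    refine (mem_Good' s).2 ⟨mem_filter.2 ⟨c2, not_lt.1 c3⟩, ?_⟩
    intro w hw
    refine ⟨fun h => c5 ⟨w, hw, h⟩, fun h => c4 ⟨w, hw, h.1⟩⟩
  have h1 := Finset.card_le_card hcov
  rw [Finset.card_erase_of_mem (mem_univ x), Finset.card_univ] at h1
  have h2 := Finset.card_union_le (((((s.Good e L idx (fun x w => 0 < s.near e L o x w) x) ∪
      (univ.filter (fun y => y ≠ x ∧ g.d x y < 2 * r))) ∪ (s.F x \ s.Fe e x)) ∪ (s.La e L x)) ∪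
      ((s.F x).filter (fun z => ∃ w, z ∈ s.Z x w ∧ x ∈ s.E e w)))
      ((s.F x).filter (fun z => ∃ w, z ∈ s.Z x w ∧ 0 < s.near e L o x w))
  have h3 := Finset.card_union_le ((((s.Good e L idx (fun x w => 0 < s.near e L o x w) x) ∪
      (univ.filter (fun y => y ≠ x ∧ g.d x y < 2 * r))) ∪ (s.F x \ s.Fe e x)) ∪ (s.La e L x))
      ((s.F x).filter (fun z => ∃ w, z ∈ s.Z x w ∧ x ∈ s.E e w))
  have h4 := Finset.card_union_le (((s.Good e L idx (fun x w => 0 < s.near e L o x w) x) ∪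
      (univ.filter (fun y => y ≠ x ∧ g.d x y < 2 * r))) ∪ (s.F x \ s.Fe e x)) (s.La e L x)
  have h5 := Finset.card_union_le ((s.Good e L idx (fun x w => 0 < s.near e L o x w) x) ∪
      (univ.filter (fun y => y ≠ x ∧ g.d x y < 2 * r))) (s.F x \ s.Fe e x)
  have h6 := Finset.card_union_le (s.Good e L idx (fun x w => 0 < s.near e L o x w) x)
      (univ.filter (fun y => y ≠ x ∧ g.d x y < 2 * r))
  omega

/-- finite form: the sum over the light references of `(4.2)`. -/
theorem one_sum {V : Type} [Fintype V] {g : Geo V} {r : ℕ} {Lam K0 eta C : ℝ} {tau : ℕ} (hc : Cst r Lam K0 eta C)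
    (hG : Glob g r Lam K0 tau) (eps0 : ℝ) (h0 : 0 < eps0) (h1 : eps0 ≤ eta / (64 * r * Lam)) (hn : 1 ≤ eta * ss V) :
    ∀ o ∈ lightO g r eps0, ((g.D2 r : ℕ) : ℝ) ≥
      (2 / (nn V - 1)) * (∑ x ∈ lightO g r eps0, ((tau : ℝ) - Lam * ss V *
        ((((univ.filter (fun y => y ≠ x ∧ g.d x y < 2 * r)).card : ℝ) + (((s1 g r (by have := hc.hr; omega) eps0).F x \
          (s1 g r (by have := hc.hr; omega) eps0).Fe (eta * ss V) x).card : ℝ)
          + ((s1 g r (by have := hc.hr; omega) eps0).La (eta * ss V) (C * ss V) x).card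
          + ((((s1 g r (by have := hc.hr; omega) eps0).F x).filter (fun z => ∃ w, z ∈ (s1 g r (by have := hc.hr; omega) eps0).Z x w ∧
              x ∈ (s1 g r (by have := hc.hr; omega) eps0).E (eta * ss V) w)).card : ℝ)
          + ((((s1 g r (by have := hc.hr; omega) eps0).F x).filter (fun z => ∃ w, z ∈ (s1 g r (by have := hc.hr; omega) eps0).Z x w ∧
              0 < (s1 g r (by have := hc.hr; omega) eps0).near (eta * ss V) (C * ss V) o x w)).card : ℝ)))
        - ((s1 g r (by have := hc.hr; omega) eps0).NN (eta * ss V) (C * ss V) x : ℝ) / 2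
        - 2 * r * (r * ss V / eta) * (C * ss V + r * C / eta)))
      + ((s1 g r (by have := hc.hr; omega) eps0).NN (eta * ss V) (C * ss V) o : ℝ) + (U1 g r (by have := hc.hr; omega) eps0 eta C o : ℝ) := by
  intro o ho
  have hr1 : 1 ≤ r := by have := hc.hr; omega
  have hr2 := hc.hr
  unfold U1
  set s := s1 g r (by have := hc.hr; omega : 1 ≤ r) eps0 with hs
  set e := eta * ss V with he
  set L := C * ss V with hL
  have heta := hc.heta
  have hLam := hc.hLam
  have hC0 : 0 ≤ C := by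
    have h1 := hc.hC
    have h2 : (0 : ℝ) ≤ 4 * r / eta := by positivity
    linarith
  have hss0 : 0 < ss V := by
    by_contra hneg
    have : eta * ss V ≤ 0 := mul_nonpos_of_nonneg_of_nonpos heta.le (not_lt.1 hneg)
    linarith
  have hss : ss V * ss V = nn V := by
    unfold ss nn
    exact Real.mul_self_sqrt (Nat.cast_nonneg _)
  have hss1 : 64 ≤ ss V := by
    have h2 := hc.heta2
    have h3 : 64 * eta ≤ 1 := by nlinarith
    nlinarith
  have hnn : 1 < nn V := by nlinarith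
  have hN : ((Fintype.card V - 1 : ℕ) : ℝ) = nn V - 1 := by
    have : 1 ≤ Fintype.card V := by
      have : (1 : ℝ) < (Fintype.card V : ℝ) := hnn
      exact_mod_cast this.le
    rw [Nat.cast_sub this, Nat.cast_one]
    rfl
  have he0 : 0 < e := by rw [he]; positivity
  have hE : ∀ x, ((s.E e x).card : ℝ) ≤ r * ss V / eta := by
    intro x
    rw [le_div_iff₀ heta]
    have h2 := s.card_E_mul_le he0 x
    have h3 : ((s.F x).card : ℝ) ≤ ss V * ss V := by
      rw [hss]
      exact Nat.cast_le.2 (Finset.card_le_univ _)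
    have h4 : ((s.E e x).card : ℝ) * eta * ss V ≤ r * ss V * ss V := by
      have : (r : ℝ) * ((s.F x).card : ℝ) ≤ r * (ss V * ss V) := mul_le_mul_of_nonneg_left h3 (Nat.cast_nonneg _)
      rw [he] at h2
      linarith
    exact le_of_mul_le_mul_right h4 hss0
  obtain ⟨idx, hidx⟩ : ∃ idx : V → ℕ, Function.Injective idx :=
    ⟨fun v => ((Fintype.equivFin V) v : ℕ), fun a b h => (Fintype.equivFin V).injective (Fin.ext h)⟩
  have hch := one_charge s hr2 hG.diam e L idx hidx o
  have hmain : ∀ x ∈ lightO g r eps0, (tau : ℝ) - Lam * ss V *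
        ((((univ.filter (fun y => y ≠ x ∧ g.d x y < 2 * r)).card : ℝ) + ((s.F x \ s.Fe e x).card : ℝ)
          + (s.La e L x).card
          + (((s.F x).filter (fun z => ∃ w, z ∈ s.Z x w ∧ x ∈ s.E e w)).card : ℝ)
          + (((s.F x).filter (fun z => ∃ w, z ∈ s.Z x w ∧ 0 < s.near e L o x w)).card : ℝ)))
        - (s.NN e L x : ℝ) / 2
        - 2 * r * (r * ss V / eta) * (C * ss V + r * C / eta) ≤
        (nn V - 1) * ((s.hsum x (s.Good e L idx (fun x w => 0 < s.near e L o x w) x) : ℕ) : ℝ) := by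
    intro x hx
    have h2 := gam_main s hr2 hG.diam e L (r * ss V / eta) (tau : ℝ) (Lam * ss V) he0 (by positivity) (by positivity)
      hG.lemA x (fun z _ => rfl) (hE x) (s.Good e L idx (fun x w => 0 < s.near e L o x w) x)
      (fun z hz => ((mem_Good' s).1 hz).1)
    rw [hN] at h2
    refine le_trans ?_ h2
    have h3 : L + r * L / e = C * ss V + r * C / eta := by
      rw [hL, he]
      congr 1
      field_simp
    rw [h3]
    have h4 := one_miss hr1 hG.diam eps0 e L idx o x hx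
    have h5 : nn V - 1 ≤ ((s.Good e L idx (fun x w => 0 < s.near e L o x w) x).card : ℝ) +
        ((((univ.filter (fun y => y ≠ x ∧ g.d x y < 2 * r)).card : ℝ) + ((s.F x \ s.Fe e x).card : ℝ)
          + (s.La e L x).card
          + (((s.F x).filter (fun z => ∃ w, z ∈ s.Z x w ∧ x ∈ s.E e w)).card : ℝ)
          + (((s.F x).filter (fun z => ∃ w, z ∈ s.Z x w ∧ 0 < s.near e L o x w)).card : ℝ))) := by
      rw [← hN]
      exact_mod_cast h4
    have h6 : Lam * ss V * ((nn V - 1) - ((s.Good e L idx (fun x w => 0 < s.near e L o x w) x).card : ℝ)) ≤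
        Lam * ss V * ((((univ.filter (fun y => y ≠ x ∧ g.d x y < 2 * r)).card : ℝ) + ((s.F x \ s.Fe e x).card : ℝ)
          + (s.La e L x).card
          + (((s.F x).filter (fun z => ∃ w, z ∈ s.Z x w ∧ x ∈ s.E e w)).card : ℝ)
          + (((s.F x).filter (fun z => ∃ w, z ∈ s.Z x w ∧ 0 < s.near e L o x w)).card : ℝ))) :=
      mul_le_mul_of_nonneg_left (by linarith) (by positivity)
    linarith
  have hsum := Finset.sum_le_sum hmain
  rw [← Finset.mul_sum] at hsum
  have hN0 : 0 < nn V - 1 := by linarith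
  have h7 : (∑ x ∈ lightO g r eps0, ((s.hsum x (s.Good e L idx (fun x w => 0 < s.near e L o x w) x) : ℕ) : ℝ)) ≤
      ∑ x : V, ((s.hsum x (s.Good e L idx (fun x w => 0 < s.near e L o x w) x) : ℕ) : ℝ) :=
    Finset.sum_le_sum_of_subset_of_nonneg (Finset.subset_univ _) (fun _ _ _ => Nat.cast_nonneg _)
  have h8 : 2 * (∑ x : V, ((s.hsum x (s.Good e L idx (fun x w => 0 < s.near e L o x w) x) : ℕ) : ℝ)) +
      (s.NN e L o : ℝ) + (s.Unc e (s.near e L o) : ℝ) ≤ (g.D2 r : ℝ) := by
    exact_mod_cast hch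
  have h9 : (2 / (nn V - 1)) * (∑ x ∈ lightO g r eps0, ((tau : ℝ) - Lam * ss V *
        ((((univ.filter (fun y => y ≠ x ∧ g.d x y < 2 * r)).card : ℝ) + ((s.F x \ s.Fe e x).card : ℝ)
          + (s.La e L x).card
          + (((s.F x).filter (fun z => ∃ w, z ∈ s.Z x w ∧ x ∈ s.E e w)).card : ℝ)
          + (((s.F x).filter (fun z => ∃ w, z ∈ s.Z x w ∧ 0 < s.near e L o x w)).card : ℝ)))
        - (s.NN e L x : ℝ) / 2
        - 2 * r * (r * ss V / eta) * (C * ss V + r * C / eta))) ≤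
      2 * ∑ x : V, ((s.hsum x (s.Good e L idx (fun x w => 0 < s.near e L o x w) x) : ℕ) : ℝ) := by
    rw [div_mul_eq_mul_div, div_le_iff₀ hN0]
    nlinarith [mul_le_mul_of_nonneg_left h7 hN0.le]
  linarith

end Pool.Agent.Wi
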