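import Pool.Agent.Wi.Str2

/-! MODULE STRA (blueprint section 7). -/

namespace Pool.Agent.Wi

open Finset
open scoped Classical

section
variable {V : Type} [Fintype V] {g : Geo V} {r : ℕ}

/-- (module STR-A) SCALE GAP. -/
theorem scale_gap (f : V → ℝ) (hf : ∀ v, 0 ≤ f v) (t : ℕ → ℝ) (ht : Antitone t) (k : ℕ) (S ξ : ℝ)
    (hS : ∑ m ∈ univ.filter (fun m => t k < f m), f m ≤ S) (hk : S < k * ξ) :
    ∃ i < k, ∑ m ∈ univ.filter (fun m => t (i + 1) < f m) \ univ.filter (fun m => t i < f m), f m ≤ ξ := by
  by_contra hcon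
  push Not at hcon
  have key : ∀ j : ℕ, j ≤ k → (j : ℝ) * ξ ≤ ∑ m ∈ univ.filter (fun m => t j < f m), f m := by
    intro j
    induction j with
    | zero =>
      intro _
      rw [Nat.cast_zero, zero_mul]
      exact sum_nonneg (fun v _ => hf v)
    | succ j ih =>
      intro hj
      have h1 := ih (by omega)
      have h2 := hcon j (by omega)
      have hsub : univ.filter (fun m => t j < f m) ⊆ univ.filter (fun m => t (j + 1) < f m) := by
        intro m hm
        rw [mem_filter] at hm ⊢
        exact ⟨hm.1, lt_of_le_of_lt (ht (Nat.le_succ j)) hm.2⟩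
      have h3 := sum_sdiff (f := f) hsub
      rw [Nat.cast_succ]
      linarith
  have := key k le_rfl
  linarith

end

end Pool.Agent.Wi
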