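import Pool.Agent.Wi.Charges

/-! Section 7 of the blueprint, part 1: the pre-core and its hubs. -/

namespace Pool.Agent.Wi

open Finset
open scoped Classical

/-- The pre-core: `U0` the good vertices, `M` the big middles. -/
structure PreCore {V : Type} [Fintype V] (g : Geo V) (r : ℕ) where
  U0 : Finset V
  M : Finset V
  β : ℝ
  far : ∀ y ∈ U0, ∀ m ∈ M, r ≤ g.d y m
  uniq : ∀ y ∈ U0, ∀ m ∈ M, ∀ m' ∈ M, g.d y m = r → g.d y m' = r → ∀ j < r, g.P y m j = g.P y m' j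
  meet : ∀ y ∈ U0, ∀ y' ∈ U0, ∃ m ∈ M, g.d y m = r ∧ g.d y' m = r
  big : ∀ y ∈ U0, ∀ m, g.d y m = r → β < ((g.ball r m).card : ℝ) → m ∈ M

namespace PreCore
variable {V : Type} [Fintype V] {g : Geo V} {r : ℕ} (pc : PreCore g r)

/-- a chosen element of the type of `y`. -/
noncomputable def tm (y : V) : V := if h : ∃ m ∈ pc.M, g.d y m = r then h.choose else y

theorem tm_spec {y : V} (hy : y ∈ pc.U0) : pc.tm y ∈ pc.M ∧ g.d y (pc.tm y) = r := by
  obtain ⟨m, hm, h1, _⟩ := pc.meet y hy y hy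
  have h : ∃ m ∈ pc.M, g.d y m = r := ⟨m, hm, h1⟩
  unfold tm
  rw [dif_pos h]
  exact h.choose_spec

/-- the hub of `y` at level `j` (level 0: the point itself). -/
noncomputable def om (y : V) (j : ℕ) : V := g.P y (pc.tm y) j

theorem om_eq {y m : V} (hy : y ∈ pc.U0) (hm : m ∈ pc.M) (hd : g.d y m = r) {j : ℕ} (hj : j < r) :
    pc.om y j = g.P y m j :=
  pc.uniq y hy _ (pc.tm_spec hy).1 m hm (pc.tm_spec hy).2 hd j hj

theorem om_zero (y : V) : pc.om y 0 = y := g.P0 _ _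

theorem om_dist {y : V} (hy : y ∈ pc.U0) {j : ℕ} (hj : j < r) : g.d y (pc.om y j) = j :=
  g.dl _ _ _ (by rw [(pc.tm_spec hy).2]; omega)

theorem om_dM {y m : V} (hy : y ∈ pc.U0) (hm : m ∈ pc.M) (hd : g.d y m = r) {j : ℕ} (hj : j < r) :
    g.d (pc.om y j) m = r - j := by
  rw [pc.om_eq hy hm hd hj, g.dr y m j (by omega), hd]

/-- every member of `M` is at distance at least `r - j` from a hub of level `j`. -/
theorem om_far {y m : V} (hy : y ∈ pc.U0) (hm : m ∈ pc.M) {j : ℕ} (hj : j < r) :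
    r ≤ g.d (pc.om y j) m + j := by
  have h1 := pc.far y hy m hm
  have h2 := g.tri y (pc.om y j) m
  rw [pc.om_dist hy hj] at h2
  omega

/-- the level of a hub is well defined. -/
theorem om_level {y y' : V} (hy : y ∈ pc.U0) (hy' : y' ∈ pc.U0) {j j' : ℕ} (hj : j < r) (hj' : j' < r)
    (h : pc.om y j = pc.om y' j') : j = j' := by
  obtain ⟨hm, hd⟩ := pc.tm_spec hy
  obtain ⟨hm', hd'⟩ := pc.tm_spec hy'
  have h1 := pc.om_dM hy hm hd hj
  have h2 := pc.om_dM hy' hm' hd' hj'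
  have h3 := pc.om_far hy' hm hj'
  have h4 := pc.om_far hy hm' hj
  rw [← h] at h3 h2
  omega

theorem om_succ_eq {y m : V} (hy : y ∈ pc.U0) (hm : m ∈ pc.M) (hd : g.d y m = r) {j : ℕ} (hj : j + 1 < r) :
    pc.om y (j + 1) = g.P (pc.om y j) m 1 := by
  rw [pc.om_eq hy hm hd hj, pc.om_eq hy hm hd (by omega)]
  exact (g.P_suffix (x := y) (y := m) (i := j) (k := 1) (by omega)).symm

/-- the next hub depends only on the hub. -/
theorem om_up {y y' : V} (hy : y ∈ pc.U0) (hy' : y' ∈ pc.U0) {j : ℕ} (hj : j + 1 < r)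
    (h : pc.om y j = pc.om y' j) : pc.om y (j + 1) = pc.om y' (j + 1) := by
  obtain ⟨m, hm, h1, h2⟩ := pc.meet y hy y' hy'
  rw [pc.om_succ_eq hy hm h1 hj, pc.om_succ_eq hy' hm h2 hj, h]

theorem om_up' {y y' : V} (hy : y ∈ pc.U0) (hy' : y' ∈ pc.U0) {j k : ℕ} (hjk : j ≤ k) (hk : k < r)
    (h : pc.om y j = pc.om y' j) : pc.om y k = pc.om y' k := by
  induction k, hjk using Nat.le_induction with
  | base => exact h
  | succ k hjk ih => exact pc.om_up hy hy' hk (ih (by omega))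

theorem om_adj {y : V} (hy : y ∈ pc.U0) {j : ℕ} (hj : j + 1 < r) :
    g.d (pc.om y j) (pc.om y (j + 1)) = 1 := by
  have := g.dPP (x := y) (y := pc.tm y) (i := j) (j := j + 1) (by omega) (by rw [(pc.tm_spec hy).2]; omega)
  unfold om
  rw [this]; omega

/-- vertices in a small level 1 cluster. -/
noncomputable def X5 (e : ℝ) : Finset V :=
  pc.U0.filter (fun y => ((pc.U0.filter (fun y' => pc.om y' 1 = pc.om y 1)).card : ℝ) < e / 2)

noncomputable def U1 (e : ℝ) : Finset V := pc.U0 \ pc.X5 e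

/-- vertices in a large root cluster. -/
noncomputable def X6 (e L' : ℝ) : Finset V :=
  (pc.U1 e).filter (fun y => L' < (((pc.U1 e).filter (fun y' => pc.om y' (r - 1) = pc.om y (r - 1))).card : ℝ))

noncomputable def Uc (e L' : ℝ) : Finset V := pc.U1 e \ pc.X6 e L'

noncomputable def Wc (e L' : ℝ) : Finset V := (pc.Uc e L' ×ˢ Ico 1 r).image (fun p => pc.om p.1 p.2)

theorem Uc_sub {e L' : ℝ} {y : V} (hy : y ∈ pc.Uc e L') : y ∈ pc.U0 := by
  unfold Uc U1 at hy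
  exact (mem_sdiff.1 (mem_sdiff.1 hy).1).1

theorem mem_Wc {e L' : ℝ} {w : V} : w ∈ pc.Wc e L' ↔ ∃ y ∈ pc.Uc e L', ∃ j, 1 ≤ j ∧ j < r ∧ pc.om y j = w := by
  unfold Wc
  constructor
  · intro h
    obtain ⟨⟨y, j⟩, h1, h2⟩ := mem_image.1 h
    rw [mem_product, mem_Ico] at h1
    exact ⟨y, h1.1, j, h1.2.1, h1.2.2, h2⟩
  · rintro ⟨y, hy, j, h1, h2, h3⟩
    exact mem_image.2 ⟨(y, j), by rw [mem_product, mem_Ico]; exact ⟨hy, h1, h2⟩, h3⟩

theorem mem_B (hr : 2 ≤ r) {e L' : ℝ} {p : V} :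
    p ∈ pc.Uc e L' ∪ pc.Wc e L' ↔ ∃ y ∈ pc.Uc e L', ∃ j, j < r ∧ pc.om y j = p := by
  rw [mem_union, mem_Wc]
  constructor
  · rintro (h | ⟨y, hy, j, h1, h2, h3⟩)
    · exact ⟨p, h, 0, by omega, pc.om_zero p⟩
    · exact ⟨y, hy, j, h2, h3⟩
  · rintro ⟨y, hy, j, h2, h3⟩
    rcases Nat.eq_zero_or_pos j with rfl | hj
    · left; rw [pc.om_zero] at h3; rw [← h3]; exact hy
    · right; exact ⟨y, hy, j, hj, h2, h3⟩

/-- a chosen leaf below `p` and the level of `p`. -/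
noncomputable def rep (e L' : ℝ) (p : V) : V × ℕ :=
  if h : ∃ q : V × ℕ, q.1 ∈ pc.Uc e L' ∧ q.2 < r ∧ pc.om q.1 q.2 = p then h.choose else (p, 0)

theorem rep_spec (hr : 2 ≤ r) {e L' : ℝ} {p : V} (hp : p ∈ pc.Uc e L' ∪ pc.Wc e L') :
    (pc.rep e L' p).1 ∈ pc.Uc e L' ∧ (pc.rep e L' p).2 < r ∧ pc.om (pc.rep e L' p).1 (pc.rep e L' p).2 = p := by
  obtain ⟨y, hy, j, h1, h2⟩ := (pc.mem_B hr).1 hp
  have h : ∃ q : V × ℕ, q.1 ∈ pc.Uc e L' ∧ q.2 < r ∧ pc.om q.1 q.2 = p := ⟨(y, j), hy, h1, h2⟩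
  unfold rep
  rw [dif_pos h]
  exact h.choose_spec

theorem rep_lev (hr : 2 ≤ r) {e L' : ℝ} {y : V} (hy : y ∈ pc.Uc e L') {j : ℕ} (hj : j < r) :
    (pc.rep e L' (pc.om y j)).2 = j := by
  have h := pc.rep_spec hr (e := e) (L' := L') (p := pc.om y j) ((pc.mem_B hr).2 ⟨y, hy, j, hj, rfl⟩)
  exact pc.om_level (pc.Uc_sub h.1) (pc.Uc_sub hy) h.2.1 hj h.2.2

theorem rep_self (hr : 2 ≤ r) {e L' : ℝ} {y : V} (hy : y ∈ pc.Uc e L') : pc.rep e L' y = (y, 0) := by
  have h := pc.rep_spec hr (e := e) (L' := L') (p := y) (mem_union_left _ hy)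
  have h2 : (pc.rep e L' y).2 = 0 := by
    have := pc.rep_lev hr hy (j := 0) (by omega)
    rwa [pc.om_zero] at this
  have h3 := h.2.2
  rw [h2, pc.om_zero] at h3
  exact Prod.ext h3 h2

/-- the parent. -/
noncomputable def pr (e L' : ℝ) (p : V) : V := pc.om (pc.rep e L' p).1 ((pc.rep e L' p).2 + 1)

theorem pr_om (hr : 2 ≤ r) {e L' : ℝ} {y : V} (hy : y ∈ pc.Uc e L') {j : ℕ} (hj : j + 1 < r) :
    pc.pr e L' (pc.om y j) = pc.om y (j + 1) := by
  have h := pc.rep_spec hr (e := e) (L' := L') (p := pc.om y j)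
    ((pc.mem_B hr).2 ⟨y, hy, j, by omega, rfl⟩)
  have h2 := pc.rep_lev hr (e := e) (L' := L') hy (j := j) (by omega)
  unfold pr
  have h3 := h.2.2
  rw [h2] at h3 ⊢
  exact pc.om_up (pc.Uc_sub h.1) (pc.Uc_sub hy) hj h3

/-- the middle: the common one in case (A), else the type element of the chosen leaf. -/
noncomputable def md (e L' : ℝ) (p : V) : V :=
  if h : ∃ m0 ∈ pc.M, ∀ y ∈ pc.Uc e L', g.d y m0 = r then h.choose else pc.tm (pc.rep e L' p).1

theorem md_spec (hr : 2 ≤ r) {e L' : ℝ} {p : V} (hp : p ∈ pc.Uc e L' ∪ pc.Wc e L') :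
    pc.md e L' p ∈ pc.M ∧ g.d (pc.rep e L' p).1 (pc.md e L' p) = r := by
  have hs := pc.rep_spec hr hp
  unfold md
  split_ifs with h
  · exact ⟨h.choose_spec.1, h.choose_spec.2 _ hs.1⟩
  · exact pc.tm_spec (pc.Uc_sub hs.1)

/-- the core of a pre-core. -/
noncomputable def core (hr : 2 ≤ r) (e L' : ℝ) : Core g r where
  U := pc.Uc e L'
  W := pc.Wc e L'
  M := pc.M
  H p := (pc.rep e L' p).2
  par := pc.pr e L'
  mm := pc.md e L'
  dUW := by
    rw [disjoint_left]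
    intro p hp hw
    obtain ⟨y, hy, j, h1, h2, h3⟩ := pc.mem_Wc.1 hw
    have := pc.rep_lev hr (e := e) (L' := L') hy h2
    rw [h3, pc.rep_self hr hp] at this
    simp only at this
    omega
  dUM := by
    rw [disjoint_left]
    intro p hp hm
    have := pc.far p (pc.Uc_sub hp) p hm
    rw [g.dself] at this
    omega
  dWM := by
    rw [disjoint_left]
    intro p hp hm
    obtain ⟨y, hy, j, h1, h2, h3⟩ := pc.mem_Wc.1 hp
    have := pc.far y (pc.Uc_sub hy) p hm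
    rw [← h3, pc.om_dist (pc.Uc_sub hy) h2] at this
    omega
  Hlt p hp := (pc.rep_spec hr hp).2.1
  HU p hp := by
    constructor
    · intro h
      have hs := pc.rep_spec hr hp
      have h3 := hs.2.2
      rw [h, pc.om_zero] at h3
      rw [← h3]; exact hs.1
    · intro h
      rw [pc.rep_self hr h]
  hpar p hp hH := by
    have hs := pc.rep_spec hr hp
    have hy0 := pc.Uc_sub hs.1
    refine ⟨(pc.mem_B hr).2 ⟨_, hs.1, _, hH, rfl⟩, ?_, ?_⟩
    · exact pc.rep_lev hr hs.1 hH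
    · have h := pc.om_adj hy0 hH
      rw [hs.2.2] at h
      exact h
  hdist p hp q hq _ := by
    have hs := pc.rep_spec hr hp
    have hs' := pc.rep_spec hr hq
    obtain ⟨m, hm, h1, h2⟩ := pc.meet _ (pc.Uc_sub hs.1) _ (pc.Uc_sub hs'.1)
    have h3 := pc.om_dM (pc.Uc_sub hs.1) hm h1 hs.2.1
    have h4 := pc.om_dM (pc.Uc_sub hs'.1) hm h2 hs'.2.1
    rw [hs.2.2] at h3
    rw [hs'.2.2] at h4
    have h5 := g.tri p m q
    rw [g.symm m q] at h5
    have h6 := hs.2.1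
    have h7 := hs'.2.1
    omega
  hmm p hp := by
    have hs := pc.rep_spec hr hp
    have hm := pc.md_spec hr hp
    refine ⟨hm.1, ?_⟩
    have h3 := pc.om_dM (pc.Uc_sub hs.1) hm.1 hm.2 hs.2.1
    rw [hs.2.2] at h3
    have h6 := hs.2.1
    omega
  hc6 z hz m hm hd j h1 h2 := by
    rw [pc.mem_Wc]
    exact ⟨z, hz, j, h1, h2, pc.om_eq (pc.Uc_sub hz) hm hd h2⟩

/-- (c8) either one common middle, or every leaf has a second middle at distance `r`. -/
theorem core_c8 (hr : 2 ≤ r) (e L' : ℝ) :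
    (∃ m0 ∈ (pc.core hr e L').M, ∀ p ∈ (pc.core hr e L').B, (pc.core hr e L').mm p = m0) ∨
    (∀ y ∈ (pc.core hr e L').U, ∃ m' ∈ (pc.core hr e L').M, m' ≠ (pc.core hr e L').mm y ∧ g.d y m' = r) := by
  by_cases h : ∃ m0 ∈ pc.M, ∀ y ∈ pc.Uc e L', g.d y m0 = r
  · left
    refine ⟨h.choose, h.choose_spec.1, fun p _ => ?_⟩
    show pc.md e L' p = _
    unfold md
    rw [dif_pos h]
  · right
    intro y hy
    have hy0 := pc.Uc_sub (e := e) (L' := L') hy
    have hmd : (pc.core hr e L').mm y = pc.tm y := by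
      show pc.md e L' y = _
      unfold md
      rw [dif_neg h, pc.rep_self hr hy]
    rw [hmd]
    push Not at h
    obtain ⟨y', hy', hne⟩ := h (pc.tm y) (pc.tm_spec hy0).1
    obtain ⟨m, hm, h1, h2⟩ := pc.meet y hy0 y' (pc.Uc_sub hy')
    refine ⟨m, hm, ?_, h1⟩
    rintro rfl
    exact hne h2

theorem core_anc (hr : 2 ≤ r) (e L' : ℝ) {a : V} (ha : a ∈ pc.Uc e L') {k : ℕ} (hk : k < r) :
    (pc.core hr e L').T.anc a k = pc.om a k := by
  have hl : (pc.core hr e L').T.lev a = 0 := by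
    show (pc.rep e L' a).2 = 0
    rw [pc.rep_self hr ha]
  induction k with
  | zero =>
    rw [pc.om_zero]
    have := (pc.core hr e L').T.anc_self a
    rwa [hl] at this
  | succ k ih =>
    rw [(pc.core hr e L').T.anc_succ (by omega), ih (by omega)]
    exact pc.pr_om hr ha hk

/-- the level 1 cluster of a leaf of the core consists of leaves of the core. -/
theorem cluster_sub {e L' : ℝ} (hr : 2 ≤ r) {y y' : V} (hy : y ∈ pc.Uc e L') (hy' : y' ∈ pc.U0)
    (h : pc.om y' 1 = pc.om y 1) : y' ∈ pc.Uc e L' := by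
  have hy0 := pc.Uc_sub hy
  unfold Uc at hy
  obtain ⟨hy1, hy6⟩ := mem_sdiff.1 hy
  unfold U1 at hy1
  obtain ⟨_, hy5⟩ := mem_sdiff.1 hy1
  have h1 : y' ∈ pc.U1 e := by
    unfold U1
    rw [mem_sdiff]
    refine ⟨hy', fun h5 => hy5 ?_⟩
    unfold X5 at h5 ⊢
    rw [mem_filter] at h5 ⊢
    refine ⟨hy0, ?_⟩
    have := h5.2
    rw [h] at this
    exact this
  unfold Uc
  rw [mem_sdiff]
  refine ⟨h1, fun h6 => hy6 ?_⟩
  unfold X6 at h6 ⊢
  rw [mem_filter] at h6 ⊢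
  refine ⟨hy1, ?_⟩
  have := h6.2
  rw [pc.om_up' hy' hy0 (j := 1) (k := r - 1) (by omega) (by omega) h] at this
  exact this

theorem core_hyp (hr : 2 ≤ r) (diam : ∀ x y, g.d x y ≤ 2 * r) {e L L' : ℝ} (he : 8 ≤ e) (hL : 0 ≤ L) (hL' : 0 ≤ L')
    (hβ : 0 ≤ pc.β) (hUe : (pc.core hr e L').hU e ≤ e / 8) : (pc.core hr e L').Hyp e L L' pc.β where
  hr2 := hr
  diam := diam
  he := he
  hL := hL
  hL' := hL'
  hβ := hβ
  hdesc w hw := by
    obtain ⟨y, hy, j, h1, h2, h3⟩ := pc.mem_Wc.1 (show w ∈ pc.Wc e L' from hw)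
    have hH : (pc.core hr e L').H w = j := by
      show (pc.rep e L' w).2 = j
      rw [← h3]; exact pc.rep_lev hr hy h2
    have hy5 : y ∉ pc.X5 e := by
      unfold Uc U1 at hy
      exact (mem_sdiff.1 (mem_sdiff.1 hy).1).2
    have hcl : e / 2 ≤ ((pc.U0.filter (fun y' => pc.om y' 1 = pc.om y 1)).card : ℝ) := by
      by_contra hlt
      push Not at hlt
      apply hy5
      unfold X5
      rw [mem_filter]
      exact ⟨pc.Uc_sub hy, hlt⟩
    refine hcl.trans ?_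
    rw [hH]
    norm_cast
    apply card_le_card
    intro a ha
    rw [mem_filter] at ha ⊢
    have haU := pc.cluster_sub hr hy ha.1 ha.2
    refine ⟨haU, ?_⟩
    rw [pc.core_anc hr e L' haU h2, ← h3]
    exact pc.om_up' ha.1 (pc.Uc_sub hy) h1 h2 ha.2
  hroot ρ := by
    by_cases hne : ((pc.core hr e L').U.filter (fun a => (pc.core hr e L').root a = ρ)).Nonempty
    · obtain ⟨y, hy⟩ := hne
      rw [mem_filter] at hy
      have hyU : y ∈ pc.Uc e L' := hy.1
      have h6 : y ∉ pc.X6 e L' := by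
        unfold Uc at hyU
        exact (mem_sdiff.1 hyU).2
      have hy1 : y ∈ pc.U1 e := by
        unfold Uc at hyU
        exact (mem_sdiff.1 hyU).1
      have hle : (((pc.U1 e).filter (fun y' => pc.om y' (r - 1) = pc.om y (r - 1))).card : ℝ) ≤ L' := by
        by_contra hlt
        push Not at hlt
        apply h6
        unfold X6
        rw [mem_filter]
        exact ⟨hy1, hlt⟩
      refine le_trans ?_ hle
      norm_cast
      apply card_le_card
      intro a ha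
      rw [mem_filter] at ha ⊢
      have haU : a ∈ pc.Uc e L' := ha.1
      have ha1 : a ∈ pc.U1 e := by
        unfold Uc at haU
        exact (mem_sdiff.1 haU).1
      refine ⟨ha1, ?_⟩
      have e1 : (pc.core hr e L').root a = pc.om a (r - 1) := pc.core_anc hr e L' haU (by omega)
      have e2 : (pc.core hr e L').root y = pc.om y (r - 1) := pc.core_anc hr e L' hyU (by omega)
      rw [← e1, ← e2, ha.2, hy.2]
    · rw [not_nonempty_iff_eq_empty.1 hne]
      simpa using hL'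
  hc7 z hz m hd hb := pc.big z (pc.Uc_sub (show z ∈ pc.Uc e L' from hz)) m hd hb
  hUe := hUe

end PreCore

end Pool.Agent.Wi
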