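import Pool.Agent.Wi.Str1
import Pool.Agent.Wi.Glob

/-! Section 7 of the blueprint, part 2: the counting lemmas (statements for the modules). -/

namespace Pool.Agent.Wi

open Finset
open scoped Classical

section
variable {V : Type} [Fintype V] {g : Geo V} {r : ℕ}

/-- the set of vertices seeing `m` and `m'` at distance `r` through different hubs at level `j`. -/
noncomputable def V0 (g : Geo V) (r : ℕ) (m m' : V) (j : ℕ) : Finset V :=
  univ.filter (fun v => g.d v m = r ∧ g.d v m' = r ∧ g.P v m j ≠ g.P v m' j)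

/-- pairs at distance `2 r` with a small middle. -/
noncomputable def smid (g : Geo V) (r : ℕ) (b : ℝ) : Finset (V × V) :=
  univ.filter (fun p => g.d p.1 p.2 = 2 * r ∧ ((g.ball r (g.P p.1 p.2 r)).card : ℝ) ≤ b)

/-- close pairs. -/
noncomputable def close (g : Geo V) (r : ℕ) : Finset (V × V) := univ.filter (fun p => g.d p.1 p.2 < 2 * r)

/-- typical pairs. -/
def PreCore.Typ (pc : PreCore g r) (u y : V) : Prop :=
  g.d u y = 2 * r ∧ pc.β < ((g.ball r (g.P u y r)).card : ℝ)

theorem PreCore.typ_hub (pc : PreCore g r) {u y : V} (hu : u ∈ pc.U0) (hy : y ∈ pc.U0) (h : pc.Typ u y)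
    {j : ℕ} (hj : j < r) : g.P y u j = pc.om y j := by
  have hd := h.1
  have hd' : g.d y u = 2 * r := by rw [g.symm]; exact hd
  have h1 : g.d u (g.P u y r) = r := g.dl u y r (by omega)
  have h2 : g.P y u r = g.P u y r := g.mid_symm hd
  have h3 : g.d y (g.P u y r) = r := by rw [← h2]; exact g.dl y u r (by omega)
  have hm := pc.big u hu _ h1 h.2
  rw [pc.om_eq hy hm h3 hj, ← h2]
  exact (g.sub y u j r (by omega) (by omega)).symm

/-- atypical ordered pairs of `U0`. -/
noncomputable def PreCore.atyp (pc : PreCore g r) : Finset (V × V) :=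
  (pc.U0 ×ˢ pc.U0).filter (fun p => ¬ pc.Typ p.1 p.2)

theorem PreCore.atyp_card (pc : PreCore g r) (diam : ∀ x y, g.d x y ≤ 2 * r) :
    pc.atyp.card ≤ (close g r).card + (smid g r pc.β).card := by
  refine (card_le_card ?_).trans (card_union_le _ _)
  intro p hp
  unfold PreCore.atyp at hp
  rw [mem_filter] at hp
  have h := hp.2
  unfold PreCore.Typ at h
  rw [mem_union]
  by_cases hd : g.d p.1 p.2 < 2 * r
  · left; unfold close; rw [mem_filter]; exact ⟨mem_univ _, hd⟩
  · right
    have hd2 : g.d p.1 p.2 = 2 * r := le_antisymm (diam _ _) (not_lt.1 hd)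
    unfold smid; rw [mem_filter]
    refine ⟨mem_univ _, hd2, ?_⟩
    by_contra hlt
    push Not at hlt
    exact h ⟨hd2, hlt⟩

/-- the source system of the first accounting: sources `O`, universe `V`. -/
noncomputable abbrev S1 (g : Geo V) (r : ℕ) (hr : 1 ≤ r) (O : Finset V) : Src g r := srcGam g r hr univ O

/-- uncharged total of the first accounting for the reference `o`. -/
noncomputable def Unc1 (g : Geo V) (r : ℕ) (hr : 1 ≤ r) (O : Finset V) (e L : ℝ) (o : V) : ℕ :=
  (S1 g r hr O).Unc e ((S1 g r hr O).near e L o)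

theorem PreCore.X_card (pc : PreCore g r) (hr : 2 ≤ r) (e L' : ℝ) :
    (pc.core hr e L').X.card ≤ (univ \ pc.U0).card + (pc.X5 e).card + (pc.X6 e L').card := by
  have hsub : (pc.core hr e L').X ⊆ (univ \ pc.U0) ∪ pc.X5 e ∪ pc.X6 e L' := by
    intro x hx
    unfold Core.X at hx
    rw [mem_filter] at hx
    have hxU : x ∉ pc.Uc e L' := hx.2.1
    unfold PreCore.Uc PreCore.U1 at hxU
    rw [mem_sdiff, mem_sdiff] at hxU
    rw [mem_union, mem_union, mem_sdiff]
    tauto
  exact (card_le_card hsub).trans ((card_union_le _ _).trans (by gcongr; exact card_union_le _ _))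

end

/-- the facts about one instance used by the structure theorem. -/
structure Inst0 (r : ℕ) (hr : 1 ≤ r) (η C K1 K2 KD KP : ℝ) (V : Type) [Fintype V] (g : Geo V) (O : Finset V) (o1 : V) : Prop where
  diam : ∀ x y, g.d x y ≤ 2 * r
  hD2 : (g.D2 r : ℝ) ≤ KD * (Fintype.card V : ℝ) * √(Fintype.card V : ℝ)
  hUnc : (Unc1 g r hr O (η * √(Fintype.card V : ℝ)) (C * √(Fintype.card V : ℝ)) o1 : ℝ) ≤ 2 * K1 * (Fintype.card V : ℝ)
  hO : ((univ \ O).card : ℝ) ≤ KP * √(Fintype.card V : ℝ)
  hmid : ∀ b : ℝ, 0 ≤ b → ((smid g r b).card : ℝ) ≤ K2 * b * (Fintype.card V : ℝ)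

end Pool.Agent.Wi
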